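import Pool.Agent.Run7.h350.Concrete

/-! The explicit Lyapunov density: positivity of the form and construction of `HFun`. -/

open Set Filter Topology

namespace Run7.h350

variable {N : ℕ}

/-- the form in normalised rates `e` -/
theorem form_eq {k : Fin N} {A : Finset (Fin N)} (hkA : k ∉ A) (d : Fin N → ℝ) (hd : 0 < d k)
    (ε β : ℝ) (s ξ : Fin N → ℝ) (η : ℝ) (e : Fin N → ℝ)
    (he : ∀ j, e j = (d j - d k) / d k)
    (a P X L E2 W n2 z T σ : ℝ) (ha : a = ∑ j ∈ A, ξ j) (hP : P = ∑ j ∈ A, s j * ξ j)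
    (hL : L = ∑ j ∈ A, e j * (ξ j + η * s j)) (hE2 : E2 = ∑ j ∈ A, e j * (ξ j + η * s j) ^ 2)
    (hW : W = ∑ j ∈ A, e j * (s j * (ξ j + η * s j))) (hn2 : n2 = ∑ j ∈ A, ξ j ^ 2)
    (hz : z = zz k A s) (hT : T = Tt A s) (hσ : σ = Sg A s) (hX : X = a + η * T) :
    d k * ∑ i, (∑ l, hhc k A ε β i l s * ξ l) * ξ i
      + ∑ j, (d j - d k) * (ξ j + η * s j) *
        (∑ l, hhc k A ε β j l s * ξ l + η * hc k A ε β j s) =
    d k * (lead2 (s k) * ξ k ^ 2 + a ^ 2 + X * L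
      + ε * (chi β z * n2 + 2 * chi1 β z * (ξ k + a) * P + 1 / 2 * σ * chi2 β z * (ξ k + a) ^ 2
        + chi β z * E2 + chi1 β z * (ξ k + a) * W
        + L * (chi1 β z * P + 1 / 2 * η * σ * chi1 β z)
        + 1 / 2 * L * σ * chi2 β z * (ξ k + a))) := by
  have hkal : al A k = 0 := by simp [al, hkA]
  -- first sum
  have h1 : ∑ i, (∑ l, hhc k A ε β i l s * ξ l) * ξ i =
      lead2 (s k) * ξ k ^ 2 + a ^ 2 + ε * (chi β z * n2 + 2 * chi1 β z * (ξ k + a) * P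
        + 1 / 2 * σ * chi2 β z * (ξ k + a) ^ 2) := by
    have e1 : ∑ i, (∑ l, hhc k A ε β i l s * ξ l) * ξ i =
        (lead2 (s k) * ξ k) * (∑ i, ka k i * ξ i) + a * (∑ i, al A i * ξ i)
        + ε * chi β z * (∑ i, al A i * (ξ i * ξ i))
        + ε * chi1 β z * (ξ k + a) * (∑ i, al A i * (s i * ξ i))
        + ε * chi1 β z * P * (∑ i, ka k i * ξ i)
        + ε * chi1 β z * P * (∑ i, al A i * ξ i)
        + 1 / 2 * ε * (σ * chi2 β z) * (ξ k + a) * (∑ i, ka k i * ξ i)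
        + 1 / 2 * ε * (σ * chi2 β z) * (ξ k + a) * (∑ i, al A i * ξ i) := by
      simp only [Finset.mul_sum]
      rw [← Finset.sum_add_distrib, ← Finset.sum_add_distrib, ← Finset.sum_add_distrib,
        ← Finset.sum_add_distrib, ← Finset.sum_add_distrib, ← Finset.sum_add_distrib,
        ← Finset.sum_add_distrib]
      apply Finset.sum_congr rfl
      intro i _
      have h0 := hhc_sum k A ε β i s ξ
      rw [h0, ← ha, ← hP, ← hz, ← hσ]
      ring
    rw [e1, sum_ka, sum_al, sum_al, sum_al, ← ha, ← hP]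
    have e2 : ∑ j ∈ A, ξ j * ξ j = n2 := by
      rw [hn2]; apply Finset.sum_congr rfl; intro j _; ring
    rw [e2]
    ring
  have h2 : ∑ j, (d j - d k) * (ξ j + η * s j) *
        (∑ l, hhc k A ε β j l s * ξ l + η * hc k A ε β j s) =
      d k * (X * L + ε * (chi β z * E2 + chi1 β z * (ξ k + a) * W
        + L * (chi1 β z * P + 1 / 2 * η * σ * chi1 β z)
        + 1 / 2 * L * σ * chi2 β z * (ξ k + a))) := by
    have e1 : ∑ j, (d j - d k) * (ξ j + η * s j) *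
        (∑ l, hhc k A ε β j l s * ξ l + η * hc k A ε β j s) =
        ∑ j, al A j * (d k * (e j * (ξ j + η * s j) *
          (X + ε * (chi β z * (ξ j + η * s j) + s j * chi1 β z * (ξ k + a) + chi1 β z * P
            + 1 / 2 * σ * chi2 β z * (ξ k + a) + 1 / 2 * η * σ * chi1 β z)))) := by
      apply Finset.sum_congr rfl
      intro j _
      by_cases hjk : j = k
      · rw [hjk, sub_self, hkal]; ring
      · have hka : ka k j = 0 := by simp [ka, hjk]
        rw [hhc_sum, ← ha, ← hP, ← hz, ← hσ]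
        unfold hc
        rw [hka, ← hz, ← hσ, ← hT, hX]
        have hej : d j - d k = d k * e j := by
          rw [he j]; field_simp
        rw [hej]
        by_cases hjA : j ∈ A
        · have : al A j = 1 := by simp [al, hjA]
          rw [this]; ring
        · have : al A j = 0 := by simp [al, hjA]
          rw [this]; ring
    rw [e1, sum_al, ← Finset.mul_sum]
    congr 1
    have e2 : ∑ j ∈ A, e j * (ξ j + η * s j) *
          (X + ε * (chi β z * (ξ j + η * s j) + s j * chi1 β z * (ξ k + a) + chi1 β z * P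
            + 1 / 2 * σ * chi2 β z * (ξ k + a) + 1 / 2 * η * σ * chi1 β z)) =
        (X + ε * (chi1 β z * P + 1 / 2 * σ * chi2 β z * (ξ k + a) + 1 / 2 * η * σ * chi1 β z)) *
          (∑ j ∈ A, e j * (ξ j + η * s j))
        + ε * chi β z * (∑ j ∈ A, e j * (ξ j + η * s j) ^ 2)
        + ε * chi1 β z * (ξ k + a) * (∑ j ∈ A, e j * (s j * (ξ j + η * s j))) := by
      simp only [Finset.mul_sum]
      rw [← Finset.sum_add_distrib, ← Finset.sum_add_distrib]
      apply Finset.sum_congr rfl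
      intro j _
      ring
    rw [e2, ← hL, ← hE2, ← hW]
    ring
  rw [h1, h2]
  ring

/-- positivity of the form -/
theorem form_pos {k : Fin N} {A : Finset (Fin N)} (hkA : k ∉ A) (d : Fin N → ℝ) (hd : 0 < d k)
    {q r ε β : ℝ} (hq : 0 < q) (hr : r = 1 + q) (hβ : β = 16 * r) (hε : ε = 1 / (200 * r ^ 2))
    (hqA : ∀ j ∈ A, q ≤ (d j - d k) / d k)
    (hgap : 2500 * r * ∑ j ∈ A, ((d j - d k) / d k - q) ^ 2 ≤ q)
    (s : Fin N → ℝ) (hsk : 0 < s k) (hs : ∀ j, 0 ≤ s j) (ξ : Fin N → ℝ) (η : ℝ) :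
    (d k * min (1 / 100) (q / 100)) * ((∑ j ∈ A, ξ j) ^ 2 + (∑ j ∈ A, (ξ j + η * s j)) ^ 2) ≤
      d k * ∑ i, (∑ l, hhc k A ε β i l s * ξ l) * ξ i
      + ∑ j, (d j - d k) * (ξ j + η * s j) *
        (∑ l, hhc k A ε β j l s * ξ l + η * hc k A ε β j s) := by
  obtain ⟨e, he⟩ : ∃ e : Fin N → ℝ, ∀ j, e j = (d j - d k) / d k := ⟨_, fun _ => rfl⟩
  have hr0 : 0 < r := by linarith
  have hε0 : 0 < ε := by rw [hε]; positivity
  have hε1 : ε * (200 * r ^ 2) = 1 := by rw [hε]; field_simp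
  have hβ1 : 16 ≤ β := by rw [hβ]; linarith
  obtain ⟨a, ha⟩ : ∃ a, a = ∑ j ∈ A, ξ j := ⟨_, rfl⟩
  obtain ⟨P, hP⟩ : ∃ P, P = ∑ j ∈ A, s j * ξ j := ⟨_, rfl⟩
  obtain ⟨L, hL⟩ : ∃ L, L = ∑ j ∈ A, e j * (ξ j + η * s j) := ⟨_, rfl⟩
  obtain ⟨E2, hE2⟩ : ∃ E2, E2 = ∑ j ∈ A, e j * (ξ j + η * s j) ^ 2 := ⟨_, rfl⟩
  obtain ⟨W, hW⟩ : ∃ W, W = ∑ j ∈ A, e j * (s j * (ξ j + η * s j)) := ⟨_, rfl⟩
  obtain ⟨n2, hn2⟩ : ∃ n2, n2 = ∑ j ∈ A, ξ j ^ 2 := ⟨_, rfl⟩
  obtain ⟨m2, hm2⟩ : ∃ m2, m2 = ∑ j ∈ A, (ξ j + η * s j) ^ 2 := ⟨_, rfl⟩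
  obtain ⟨z, hz⟩ : ∃ z, z = zz k A s := ⟨_, rfl⟩
  obtain ⟨T, hT⟩ : ∃ T, T = Tt A s := ⟨_, rfl⟩
  obtain ⟨σ, hσ⟩ : ∃ σ, σ = Sg A s := ⟨_, rfl⟩
  obtain ⟨X, hX⟩ : ∃ X, X = a + η * T := ⟨_, rfl⟩
  rw [form_eq hkA d hd ε β s ξ η e he a P X L E2 W n2 z T σ ha hP hL hE2 hW hn2 hz hT hσ hX]
  -- rewriting the left side
  have hXsum : ∑ j ∈ A, (ξ j + η * s j) = X := by
    rw [Finset.sum_add_distrib, ← Finset.mul_sum, hX, ha, hT]; rfl
  rw [← ha, hXsum]
  -- the deviations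
  obtain ⟨δ, hδ⟩ : ∃ δ : Fin N → ℝ, ∀ j, δ j = e j - q := ⟨_, fun _ => rfl⟩
  have hδ0 : ∀ j ∈ A, 0 ≤ δ j := fun j hj => by
    have := hqA j hj
    rw [hδ, he]; linarith
  obtain ⟨Δ2, hΔ2⟩ : ∃ Δ2, Δ2 = ∑ j ∈ A, δ j ^ 2 := ⟨_, rfl⟩
  have hΔ20 : 0 ≤ Δ2 := by rw [hΔ2]; exact Finset.sum_nonneg fun j _ => sq_nonneg _
  obtain ⟨Δ, hΔdef⟩ : ∃ Δ, Δ = Real.sqrt Δ2 := ⟨_, rfl⟩
  have hΔ0 : 0 ≤ Δ := by rw [hΔdef]; exact Real.sqrt_nonneg _
  have hΔsq : Δ ^ 2 = Δ2 := by rw [hΔdef]; exact Real.sq_sqrt hΔ20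
  have hΔ : 2500 * r * Δ ^ 2 ≤ q := by
    rw [hΔsq, hΔ2]
    have : ∑ j ∈ A, δ j ^ 2 = ∑ j ∈ A, ((d j - d k) / d k - q) ^ 2 := by
      apply Finset.sum_congr rfl; intro j _; rw [hδ, he]
    rw [this]; exact hgap
  have hδΔ : ∀ j ∈ A, δ j ≤ Δ := by
    intro j hj
    have h1 : δ j ^ 2 ≤ Δ ^ 2 := by
      rw [hΔsq, hΔ2]
      exact Finset.single_le_sum (f := fun j => δ j ^ 2) (fun i _ => sq_nonneg _) hj
    exact (le_abs_self _).trans (abs_le_of_sq_le_sq h1 hΔ0)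
  -- elementary facts
  have hT0 : 0 ≤ T := by rw [hT]; exact Finset.sum_nonneg fun j _ => hs j
  have hσ0 : 0 ≤ σ := by rw [hσ]; exact Finset.sum_nonneg fun j _ => sq_nonneg _
  have hσT : σ ≤ T ^ 2 := by
    have h1 : ∀ j ∈ A, s j ^ 2 ≤ s j * T := by
      intro j hj
      rw [sq]
      apply mul_le_mul_of_nonneg_left _ (hs j)
      rw [hT]
      exact Finset.single_le_sum (f := fun j => s j) (fun i _ => hs i) hj
    rw [hσ]
    refine (Finset.sum_le_sum h1).trans (le_of_eq ?_)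
    rw [← Finset.sum_mul, sq]
    congr 1
    rw [hT]; rfl
  have hn20 : 0 ≤ n2 := by rw [hn2]; exact Finset.sum_nonneg fun j _ => sq_nonneg _
  have hm20 : 0 ≤ m2 := by rw [hm2]; exact Finset.sum_nonneg fun j _ => sq_nonneg _
  have hPσ : P ^ 2 ≤ σ * n2 := by
    rw [hP, hσ, hn2]
    exact Finset.sum_mul_sq_le_sq_mul_sq A s ξ
  obtain ⟨Q, hQ⟩ : ∃ Q, Q = q + Δ := ⟨_, rfl⟩
  have heq : ∀ j, e j = q + δ j := fun j => by rw [hδ]; ring
  have he0 : ∀ j ∈ A, 0 ≤ e j := fun j hj => by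
    rw [heq]; linarith [hδ0 j hj]
  have hE2m : q * m2 ≤ E2 := by
    rw [hm2, hE2, Finset.mul_sum]
    apply Finset.sum_le_sum
    intro j hj
    apply mul_le_mul_of_nonneg_right _ (sq_nonneg _)
    rw [heq]; linarith [hδ0 j hj]
  have hWσ : W ^ 2 ≤ σ * (Q * E2) := by
    have h1 : W = ∑ j ∈ A, s j * (e j * (ξ j + η * s j)) := by
      rw [hW]; apply Finset.sum_congr rfl; intro j _; ring
    have h2 : W ^ 2 ≤ σ * ∑ j ∈ A, (e j * (ξ j + η * s j)) ^ 2 := by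
      rw [h1, hσ]
      exact Finset.sum_mul_sq_le_sq_mul_sq A s _
    refine h2.trans (mul_le_mul_of_nonneg_left ?_ hσ0)
    rw [hE2, Finset.mul_sum]
    apply Finset.sum_le_sum
    intro j hj
    have h3 : e j ≤ Q := by rw [heq, hQ]; linarith [hδΔ j hj]
    calc (e j * (ξ j + η * s j)) ^ 2 = e j * (e j * (ξ j + η * s j) ^ 2) := by ring
      _ ≤ Q * (e j * (ξ j + η * s j) ^ 2) :=
          mul_le_mul_of_nonneg_right h3 (mul_nonneg (he0 j hj) (sq_nonneg _))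
  -- the mean deviation
  obtain ⟨τ, hτ0, hτΔ, hτT⟩ : ∃ τ, 0 ≤ τ ∧ τ ≤ Δ ∧ ∑ j ∈ A, δ j * s j = τ * T := by
    rcases hT0.eq_or_lt with hT00 | hT00
    · refine ⟨0, le_rfl, hΔ0, ?_⟩
      rw [zero_mul]
      apply Finset.sum_eq_zero
      intro j hj
      have h1 : s j = 0 := by
        have h2 : ∑ j ∈ A, s j = 0 := by
          have : T = ∑ j ∈ A, s j := hT
          rw [← this]; exact hT00.symm
        exact (Finset.sum_eq_zero_iff_of_nonneg fun i _ => hs i).1 h2 j hj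
      rw [h1, mul_zero]
    · refine ⟨(∑ j ∈ A, δ j * s j) / T, ?_, ?_, ?_⟩
      · exact div_nonneg (Finset.sum_nonneg fun j hj => mul_nonneg (hδ0 j hj) (hs j)) hT0
      · rw [div_le_iff₀ hT00]
        have : T = ∑ j ∈ A, s j := hT
        rw [this, Finset.mul_sum]
        exact Finset.sum_le_sum fun j hj => mul_le_mul_of_nonneg_right (hδΔ j hj) (hs j)
      · field_simp
  obtain ⟨ρ, hρ⟩ : ∃ ρ, ρ = q + τ := ⟨_, rfl⟩
  obtain ⟨D, hD⟩ : ∃ D, D = L - ρ * X := ⟨_, rfl⟩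
  have hLD : L = ρ * X + D := by rw [hD]; ring
  have hτ2 : τ ^ 2 ≤ Δ ^ 2 := pow_le_pow_left₀ hτ0 hτΔ 2
  have hLsplit : L = q * X + ∑ j ∈ A, δ j * (ξ j + η * s j) := by
    rw [hL, ← hXsum, Finset.mul_sum, ← Finset.sum_add_distrib]
    apply Finset.sum_congr rfl
    intro j _
    rw [heq]; ring
  have hD1 : D ^ 2 ≤ 2 * Δ ^ 2 * (n2 + a ^ 2) := by
    have h1 : ∑ j ∈ A, δ j * (ξ j + η * s j) = ∑ j ∈ A, δ j * ξ j + η * (τ * T) := by
      rw [← hτT, Finset.mul_sum, ← Finset.sum_add_distrib]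
      apply Finset.sum_congr rfl
      intro j _; ring
    have h2 : D = ∑ j ∈ A, δ j * ξ j - τ * a := by
      rw [hD, hLsplit, h1, hρ, hX]; ring
    have h3 : (∑ j ∈ A, δ j * ξ j) ^ 2 ≤ Δ ^ 2 * n2 := by
      rw [hΔsq, hΔ2, hn2]
      exact Finset.sum_mul_sq_le_sq_mul_sq A δ ξ
    have h4 : (τ * a) ^ 2 ≤ Δ ^ 2 * a ^ 2 := by
      rw [mul_pow]; exact mul_le_mul_of_nonneg_right hτ2 (sq_nonneg _)
    rw [h2]
    have h5 := sq_nonneg (∑ j ∈ A, δ j * ξ j + τ * a)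
    nlinarith only [h3, h4, h5]
  have hD2 : D ^ 2 ≤ 2 * Δ ^ 2 * (m2 + X ^ 2) := by
    have h2 : D = ∑ j ∈ A, δ j * (ξ j + η * s j) - τ * X := by
      rw [hD, hLsplit, hρ]; ring
    have h3 : (∑ j ∈ A, δ j * (ξ j + η * s j)) ^ 2 ≤ Δ ^ 2 * m2 := by
      rw [hΔsq, hΔ2, hm2]
      exact Finset.sum_mul_sq_le_sq_mul_sq A δ _
    have h4 : (τ * X) ^ 2 ≤ Δ ^ 2 * X ^ 2 := by
      rw [mul_pow]; exact mul_le_mul_of_nonneg_right hτ2 (sq_nonneg _)
    rw [h2]
    have h5 := sq_nonneg (∑ j ∈ A, δ j * (ξ j + η * s j) + τ * X)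
    nlinarith only [h3, h4, h5]
  -- the main inequality
  have hmain : 1 / 100 * a ^ 2 + q / 100 * X ^ 2 ≤ lead2 (s k) * ξ k ^ 2 + a ^ 2 + X * L
      + ε * (chi β z * n2 + 2 * chi1 β z * (ξ k + a) * P + 1 / 2 * σ * chi2 β z * (ξ k + a) ^ 2
        + chi β z * E2 + chi1 β z * (ξ k + a) * W
        + L * (chi1 β z * P + 1 / 2 * η * σ * chi1 β z)
        + 1 / 2 * L * σ * chi2 β z * (ξ k + a)) := by
    have hzST : s k + T = 1 + z := by rw [hz, hT]; unfold zz; ring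
    rcases le_total 0 z with hz0 | hz0
    · have hTS : T ^ 2 ≤ (s k + T) ^ 2 := pow_le_pow_left₀ hT0 (by linarith) 2
      have hc2 := chi2_nonneg (show 0 < β by linarith) hz0
      have h1 : chi1 β z ^ 2 * T ^ 2 ≤ 4 :=
        (mul_le_mul_of_nonneg_left hTS (sq_nonneg _)).trans
          (chi1_T (by linarith) hz0 hzST)
      have h2 : chi2 β z * σ ≤ 4 * β :=
        (mul_le_mul_of_nonneg_left (hσT.trans hTS) hc2).trans
          (chi2_S (by linarith) hz0 hzST)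
      exact coreA hq hr hβ hε1 hε0 hΔ0 hΔ (by rw [hρ]; linarith) (by rw [hρ, hQ]; linarith) hQ
        (lead2_nonneg hsk) (chi_ge hβ1 z) hc2 (chi12 (by linarith) hz0) h1 h2 hσ0 hσT hn20 hm20
        hPσ hE2m hWσ hX hLD hD1 hD2
    · have hs1 : s k ≤ 1 := by linarith
      have hF : 2 * T ≤ lead2 (s k) := by
        refine le_trans ?_ (lead2_ge hsk hs1)
        linarith
      exact coreB hq hr hβ hε1 hε0 hΔ0 hΔ (by rw [hρ]; linarith) (by rw [hρ, hQ]; linarith) hQ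
        hF hT0 (by linarith) rfl (chi_ge hβ1 z) (chi2_abs_le (by linarith) z) (chi1_sq_le β z)
        hσ0 hσT hn20 hm20 hPσ hE2m hWσ hX hLD hD1 hD2
  have h1 : min (1 / 100) (q / 100) * (a ^ 2 + X ^ 2) ≤ 1 / 100 * a ^ 2 + q / 100 * X ^ 2 := by
    have e1 := mul_le_mul_of_nonneg_right (min_le_left (1 / 100 : ℝ) (q / 100)) (sq_nonneg a)
    have e2 := mul_le_mul_of_nonneg_right (min_le_right (1 / 100 : ℝ) (q / 100)) (sq_nonneg X)
    linarith
  have h2 := mul_le_mul_of_nonneg_left (h1.trans hmain) hd.le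
  rw [← mul_assoc] at h2
  exact h2

/-- the reaction function -/
noncomputable def Gcc (k : Fin N) (A : Finset (Fin N)) (ε β : ℝ) (s : Fin N → ℝ) : ℝ :=
  (s k - 1) * |s k - 1| + Tt A s ^ 2 + 1 / 2 * ε * (Sg A s * rfac β (zz k A s))

theorem Gcc_eq {k : Fin N} {A : Finset (Fin N)} (ε β : ℝ) {s : Fin N → ℝ}
    (hsk : 0 < s k) : ∑ j, s j * hc k A ε β j s = Gcc k A ε β s := by
  have h4 : ∑ j, s j * hc k A ε β j s = lead1 (s k) * (∑ j, ka k j * s j)
      + Tt A s * (∑ j, al A j * s j) + ε * chi β (zz k A s) * (∑ j, al A j * (s j ^ 2))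
      + 1 / 2 * ε * (Sg A s * chi1 β (zz k A s)) * (∑ j, ka k j * s j)
      + 1 / 2 * ε * (Sg A s * chi1 β (zz k A s)) * (∑ j, al A j * s j) := by
    simp only [Finset.mul_sum]
    rw [← Finset.sum_add_distrib, ← Finset.sum_add_distrib, ← Finset.sum_add_distrib,
      ← Finset.sum_add_distrib]
    apply Finset.sum_congr rfl
    intro j _
    unfold hc
    ring
  rw [h4, sum_ka, sum_al, sum_al]
  have h5 : lead1 (s k) * s k = (s k - 1) * |s k - 1| := by rw [mul_comm]; exact mul_lead1 hsk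
  have h6 : ∑ j ∈ A, s j = Tt A s := rfl
  have h7 : ∑ j ∈ A, s j ^ 2 = Sg A s := rfl
  rw [h5, h6, h7]
  unfold Gcc rfac
  have h8 : s k + Tt A s = 1 + zz k A s := by unfold zz; ring
  have h9 : s k = 1 + zz k A s - Tt A s := by linarith
  generalize hzz : zz k A s = z at *
  generalize hTT : Tt A s = T at *
  generalize Sg A s = σ at *
  have h10 : 1 / 2 * ε * (σ * chi1 β z) * s k + 1 / 2 * ε * (σ * chi1 β z) * T =
      1 / 2 * ε * (σ * chi1 β z) * (1 + z) := by rw [← h8]; ring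
  linarith

theorem Gcc_sign {k : Fin N} {A : Finset (Fin N)} {q r ε β : ℝ} (hq : 0 < q) (hr : r = 1 + q)
    (hβ : β = 16 * r) (hε : ε = 1 / (200 * r ^ 2)) {s : Fin N → ℝ} (hs : ∀ j, 0 ≤ s j) :
    0 ≤ (tot k A s - 1) * Gcc k A ε β s ∧
      ((tot k A s - 1) * Gcc k A ε β s = 0 → tot k A s = 1) := by
  have hr0 : 0 < r := by linarith
  have hε0 : 0 < ε := by rw [hε]; positivity
  have hε1 : ε * (200 * r ^ 2) = 1 := by rw [hε]; field_simp
  have hβ1 : 16 ≤ β := by rw [hβ]; linarith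
  have hεβ : ε * β ≤ 2 / 25 := by
    have h1 : ε * r ≤ ε * r ^ 2 := mul_le_mul_of_nonneg_left (by nlinarith) hε0.le
    rw [hβ]
    linarith
  have hsk : 0 ≤ s k := hs k
  have hz : tot k A s - 1 = zz k A s := rfl
  rw [hz]
  obtain ⟨z, hzd⟩ : ∃ z, z = zz k A s := ⟨_, rfl⟩
  obtain ⟨T, hT⟩ : ∃ T, T = Tt A s := ⟨_, rfl⟩
  obtain ⟨σ, hσ⟩ : ∃ σ, σ = Sg A s := ⟨_, rfl⟩
  have hT0 : 0 ≤ T := by rw [hT]; exact Finset.sum_nonneg fun j _ => hs j
  have hσ0 : 0 ≤ σ := by rw [hσ]; exact Finset.sum_nonneg fun j _ => sq_nonneg _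
  have hσT : σ ≤ T ^ 2 := by
    have h1 : ∀ j ∈ A, s j ^ 2 ≤ s j * T := by
      intro j hj
      rw [sq]
      apply mul_le_mul_of_nonneg_left _ (hs j)
      rw [hT]
      exact Finset.single_le_sum (f := fun j => s j) (fun i _ => hs i) hj
    rw [hσ]
    refine (Finset.sum_le_sum h1).trans (le_of_eq ?_)
    rw [← Finset.sum_mul, sq]
    congr 1
    rw [hT]; rfl
  have hST : s k + T = 1 + z := by rw [hzd, hT]; unfold zz; ring
  have hG : Gcc k A ε β s = (s k - 1) * |s k - 1| + T ^ 2 + 1 / 2 * ε * (σ * rfac β z) := by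
    unfold Gcc; rw [← hzd, ← hT, ← hσ]
  rw [hG, ← hzd]
  have htot : tot k A s = 1 + z := by rw [← hST, hT]; rfl
  rw [htot]
  have key : (0 < z → 0 < (s k - 1) * |s k - 1| + T ^ 2 + 1 / 2 * ε * (σ * rfac β z)) ∧
      (z < 0 → (s k - 1) * |s k - 1| + T ^ 2 + 1 / 2 * ε * (σ * rfac β z) < 0) := by
    constructor
    · intro hz0
      have h1 : 0 ≤ 1 / 2 * ε * (σ * rfac β z) := by
        have := rfac_nonneg hβ1 hz0.le
        positivity
      have h2 : 0 < (s k - 1) * |s k - 1| + T ^ 2 := by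
        rcases le_total 1 (s k) with h | h
        · rw [abs_of_nonneg (by linarith : 0 ≤ s k - 1)]
          rcases hT0.eq_or_lt with hT1 | hT1
          · have : 0 < s k - 1 := by linarith
            positivity
          · have : 0 ≤ (s k - 1) * (s k - 1) := mul_self_nonneg _
            positivity
        · rw [abs_of_nonpos (by linarith : s k - 1 ≤ 0)]
          have h3 : 1 - s k < T := by linarith
          nlinarith
      linarith
    · intro hz0
      have hT1 : T ≤ 1 := by linarith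
      have h1 : 1 / 2 * ε * (σ * rfac β z) ≤ 8 / 25 * (T * (-z)) := by
        have e1 := (le_abs_self _).trans (rfac_abs_le hβ1 z)
        rw [abs_of_neg hz0] at e1
        have e2 : σ ≤ T := hσT.trans (by nlinarith)
        calc 1 / 2 * ε * (σ * rfac β z) ≤ 1 / 2 * ε * (σ * (8 * β * -z)) := by
              apply mul_le_mul_of_nonneg_left _ (by positivity)
              exact mul_le_mul_of_nonneg_left e1 hσ0
          _ = (ε * β) * (4 * (σ * -z)) := by ring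
          _ ≤ 2 / 25 * (4 * (T * -z)) := by
              have hz1 : 0 ≤ -z := by linarith
              apply mul_le_mul hεβ _ (by positivity) (by norm_num)
              apply mul_le_mul_of_nonneg_left _ (by norm_num)
              exact mul_le_mul_of_nonneg_right e2 hz1
          _ = 8 / 25 * (T * (-z)) := by ring
      have h2 : (s k - 1) * |s k - 1| + T ^ 2 = z * (2 * T - z) := by
        have : s k - 1 = z - T := by linarith
        rw [this, abs_of_nonpos (by linarith : z - T ≤ 0)]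
        ring
      rw [h2]
      have h3 : 0 ≤ T * (-z) := mul_nonneg hT0 (by linarith)
      nlinarith
  rcases lt_trichotomy z 0 with h | h | h
  · have := mul_pos_of_neg_of_neg h (key.2 h)
    exact ⟨this.le, fun h0 => absurd h0 this.ne'⟩
  · rw [h]; simp
  · have := mul_pos h (key.1 h)
    exact ⟨this.le, fun h0 => absurd h0 this.ne'⟩

/-- **Existence of the Lyapunov density** under the explicit gap condition. -/
theorem exists_HFun (k : Fin N) (A : Finset (Fin N)) (hkA : k ∉ A) (d : Fin N → ℝ) (hd : 0 < d k)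
    {q : ℝ} (hq : 0 < q) (hqA : ∀ j ∈ A, q ≤ (d j - d k) / d k)
    (hgap : 2500 * (1 + q) * ∑ j ∈ A, ((d j - d k) / d k - q) ^ 2 ≤ q) :
    Nonempty (HFun k A d) := by
  obtain ⟨r, hr⟩ : ∃ r, r = 1 + q := ⟨_, rfl⟩
  obtain ⟨β, hβ⟩ : ∃ β, β = 16 * r := ⟨_, rfl⟩
  obtain ⟨ε, hε⟩ : ∃ ε, ε = 1 / (200 * r ^ 2) := ⟨_, rfl⟩
  rw [← hr] at hgap
  have hr0 : 0 < r := by linarith
  have hε0 : 0 < ε := by rw [hε]; positivity
  have hβ1 : 16 ≤ β := by rw [hβ]; linarith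
  have hβ0 : β ≠ 0 := by linarith
  have hT0 : ∀ s : Fin N → ℝ, (∀ j, 0 ≤ s j) → 0 ≤ Tt A s := fun s hs =>
    Finset.sum_nonneg fun j _ => hs j
  have hS0 : ∀ s : Fin N → ℝ, 0 ≤ Sg A s := fun s => Finset.sum_nonneg fun j _ => sq_nonneg _
  refine ⟨{
    H := Hc k A ε β
    h := hc k A ε β
    hh := hhc k A ε β
    U := {s | 0 < s k}
    U_open := isOpen_lt continuous_const (continuous_apply k)
    dom := fun s hs _ => hs
    dH := fun s hs => Hc_hasFDeriv ε hβ0 hs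
    dh := fun i s hs => hc_hasFDeriv k A ε hβ0 i hs
    hh_cont := fun i j => hhc_continuousOn k A ε β i j
    κ := d k * min (1 / 100) (q / 100)
    κ_pos := by
      have : 0 < min (1 / 100) (q / 100) := lt_min (by norm_num) (by positivity)
      positivity
    form := fun s hsk hs ξ η => form_pos hkA d hd hq hr hβ hε hqA hgap s hsk hs ξ η
    Gc := Gcc k A ε β
    Gc_cont := ?_
    Gc_eq := fun s hsk _ => Gcc_eq ε β hsk
    Gc_nonneg := fun s hs => (Gcc_sign hq hr hβ hε hs).1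
    Gc_strict := fun s hs => (Gcc_sign hq hr hβ hε hs).2
    Hb := fun s => |s k - 1| ^ 3 / (3 * (1 + |s k|)) + 1 / 2 * Tt A s ^ 2
    Hb_cont := ?_
    Hb_nonneg := ?_
    Hb_le := ?_
    Hb_strict := ?_
    H_zero := ?_ }⟩
  · have hz := zz_continuous k A
    have h0 : Continuous fun s => chi β (zz k A s) := (chi_continuous β).comp hz
    have h1 : Continuous fun s => chi1 β (zz k A s) := (chi1_continuous β).comp hz
    have hS := Sg_continuous A
    have hT := Tt_continuous A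
    unfold Gcc rfac
    fun_prop
  · have hT := Tt_continuous A
    apply Continuous.add
    · apply Continuous.div (by fun_prop) (by fun_prop)
      intro s
      positivity
    · fun_prop
  · intro s _
    positivity
  · intro s hsk _
    have h1 := lead_ge hsk
    have h2 := chi_ge hβ1 (zz k A s)
    have h3 : 0 ≤ 1 / 2 * ε * (Sg A s * chi β (zz k A s)) := by
      have := hS0 s
      have h4 : 0 ≤ chi β (zz k A s) := by linarith
      positivity
    show |s k - 1| ^ 3 / (3 * (1 + |s k|)) + 1 / 2 * Tt A s ^ 2 ≤ Hc k A ε β s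
    unfold Hc
    rw [abs_of_pos hsk]
    linarith
  · intro s hs h0
    have h1 : 0 ≤ |s k - 1| ^ 3 / (3 * (1 + |s k|)) := by positivity
    have h2 : 0 ≤ 1 / 2 * Tt A s ^ 2 := by positivity
    have h3 : |s k - 1| ^ 3 / (3 * (1 + |s k|)) = 0 := by linarith
    have h4 : Tt A s ^ 2 = 0 := by linarith
    constructor
    · rw [div_eq_zero_iff] at h3
      rcases h3 with h3 | h3
      · have h5 : |s k - 1| = 0 := by simpa using h3
        rw [abs_eq_zero] at h5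
        linarith
      · exfalso
        have : 0 < 3 * (1 + |s k|) := by positivity
        linarith
    · intro j hj
      have h5 : Tt A s = 0 := by simpa using h4
      exact (Finset.sum_eq_zero_iff_of_nonneg fun i _ => hs i).1 h5 j hj
  · intro s _ hsk hA
    have h1 : Tt A s = 0 := Finset.sum_eq_zero fun j hj => hA j hj
    have h2 : Sg A s = 0 := Finset.sum_eq_zero fun j hj => by rw [hA j hj]; norm_num
    unfold Hc
    rw [hsk, h1, h2, lead_one]
    ring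

end Run7.h350
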