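import Mathlib

/-! One-variable functions used in the Lyapunov density. -/

namespace Run7.h350

open Real

/-- the cut-off factor as a function of `z = S - 1` -/
noncomputable def chi (β z : ℝ) : ℝ := 1 - 2 / β + 4 / β / (1 + (1 + β * z) ^ 2)

noncomputable def chi1 (β z : ℝ) : ℝ := -8 * (1 + β * z) / (1 + (1 + β * z) ^ 2) ^ 2

noncomputable def chi2 (β z : ℝ) : ℝ :=
  8 * β * (3 * (1 + β * z) ^ 2 - 1) / (1 + (1 + β * z) ^ 2) ^ 3

theorem den_pos (β z : ℝ) : 0 < 1 + (1 + β * z) ^ 2 := by positivity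

theorem chi_hasDeriv {β : ℝ} (hβ : β ≠ 0) (z : ℝ) : HasDerivAt (chi β) (chi1 β z) z := by
  have hd := (den_pos β z).ne'
  have h1 : HasDerivAt (fun z => 1 + (1 + β * z) ^ 2) (2 * (1 + β * z) * β) z := by
    have h0 : HasDerivAt (fun z => 1 + β * z) β z := by
      simpa using ((hasDerivAt_id z).const_mul β).const_add 1
    have := (h0.pow 2).const_add 1
    refine this.congr_deriv ?_
    simp
  have h2 := ((hasDerivAt_const z (4 / β)).div h1 hd).const_add (1 - 2 / β)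
  refine h2.congr_deriv ?_
  unfold chi1
  field_simp
  ring

theorem chi1_hasDeriv {β : ℝ} (z : ℝ) : HasDerivAt (chi1 β) (chi2 β z) z := by
  have hd := (den_pos β z).ne'
  have h0 : HasDerivAt (fun z => 1 + β * z) β z := by
    simpa using ((hasDerivAt_id z).const_mul β).const_add 1
  have h1 : HasDerivAt (fun z => (1 + (1 + β * z) ^ 2) ^ 2)
      (2 * (1 + (1 + β * z) ^ 2) * (2 * (1 + β * z) * β)) z := by
    have := ((h0.pow 2).const_add 1).pow 2
    refine this.congr_deriv ?_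
    simp
  have h2 := (h0.const_mul (-8)).div h1 (pow_ne_zero 2 hd)
  refine h2.congr_deriv ?_
  unfold chi2
  field_simp
  ring

theorem chi2_continuous (β : ℝ) : Continuous (chi2 β) := by
  unfold chi2
  apply Continuous.div (by fun_prop) (by fun_prop)
  intro z
  exact pow_ne_zero 3 (den_pos β z).ne'

theorem chi_continuous (β : ℝ) : Continuous (chi β) := by
  unfold chi
  apply Continuous.add continuous_const
  apply Continuous.div (by fun_prop) (by fun_prop)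
  intro z
  exact (den_pos β z).ne'

theorem chi1_continuous (β : ℝ) : Continuous (chi1 β) := by
  unfold chi1
  apply Continuous.div (by fun_prop) (by fun_prop)
  intro z
  exact pow_ne_zero 2 (den_pos β z).ne'

theorem chi_ge {β : ℝ} (hβ : 16 ≤ β) (z : ℝ) : 7 / 8 ≤ chi β z := by
  have h1 : 2 / β ≤ 1 / 8 := by rw [div_le_div_iff₀ (by linarith) (by norm_num)]; linarith
  have h2 : 0 ≤ 4 / β / (1 + (1 + β * z) ^ 2) := by
    have := den_pos β z
    positivity
  unfold chi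
  linarith

theorem chi_le {β : ℝ} (hβ : 16 ≤ β) (z : ℝ) : chi β z ≤ 9 / 8 := by
  have h1 : 4 / β / (1 + (1 + β * z) ^ 2) ≤ 4 / β := by
    apply div_le_self (by positivity)
    nlinarith [sq_nonneg (1 + β * z)]
  have h2 : 2 / β ≤ 1 / 8 := by rw [div_le_div_iff₀ (by linarith) (by norm_num)]; linarith
  have h3 : 4 / β = 2 * (2 / β) := by ring
  unfold chi
  linarith

theorem chi2_nonneg {β : ℝ} (hβ : 0 < β) {z : ℝ} (hz : 0 ≤ z) : 0 ≤ chi2 β z := by
  have hv : 1 ≤ 1 + β * z := by nlinarith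
  unfold chi2
  apply div_nonneg _ (by have := den_pos β z; positivity)
  have : 1 ≤ (1 + β * z) ^ 2 := one_le_pow₀ hv
  apply mul_nonneg (by positivity)
  linarith

theorem chi12 {β : ℝ} (hβ : 0 < β) {z : ℝ} (hz : 0 ≤ z) :
    β * chi1 β z ^ 2 ≤ 2 * chi2 β z := by
  have hv : 1 ≤ 1 + β * z := by nlinarith
  have hd := den_pos β z
  unfold chi1 chi2
  rw [div_pow, mul_div_assoc', mul_div_assoc', ← pow_mul, div_le_div_iff₀ (by positivity)
    (by positivity)]
  set v := 1 + β * z with hvdef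
  have h1 : 8 * v ^ 2 ≤ 2 * (1 + v ^ 2) * (3 * v ^ 2 - 1) := by
    have : 1 ≤ v ^ 2 := one_le_pow₀ hv
    nlinarith
  have h2 := mul_le_mul_of_nonneg_left h1 (show 0 ≤ 8 * β * (1 + v ^ 2) ^ 3 by positivity)
  calc β * (-8 * v) ^ 2 * (1 + v ^ 2) ^ 3 = 8 * β * (1 + v ^ 2) ^ 3 * (8 * v ^ 2) := by ring
    _ ≤ 8 * β * (1 + v ^ 2) ^ 3 * (2 * (1 + v ^ 2) * (3 * v ^ 2 - 1)) := h2
    _ = _ := by ring

theorem chi1_T {β : ℝ} (hβ : 1 ≤ β) {z S : ℝ} (hz : 0 ≤ z) (hS : S = 1 + z) :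
    chi1 β z ^ 2 * S ^ 2 ≤ 4 := by
  have hv : S ≤ 1 + β * z := by nlinarith
  have hd := den_pos β z
  have hS0 : 0 ≤ S := by linarith
  unfold chi1
  set v := 1 + β * z with hvdef
  have hv0 : 0 ≤ v := hS0.trans hv
  rw [div_pow, div_mul_eq_mul_div, div_le_iff₀ (by positivity)]
  have h1 : S ^ 2 ≤ v ^ 2 := pow_le_pow_left₀ hS0 hv 2
  have h2 : 4 * v ^ 2 ≤ (1 + v ^ 2) ^ 2 := by nlinarith [sq_nonneg (1 - v ^ 2)]
  have h3 : (4 * v ^ 2) * (4 * v ^ 2) ≤ (1 + v ^ 2) ^ 2 * (1 + v ^ 2) ^ 2 :=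
    mul_le_mul h2 h2 (by positivity) (by positivity)
  have h4 : (-8 * v) ^ 2 * S ^ 2 ≤ (-8 * v) ^ 2 * v ^ 2 := mul_le_mul_of_nonneg_left h1 (sq_nonneg _)
  nlinarith

theorem chi2_S {β : ℝ} (hβ : 1 ≤ β) {z S : ℝ} (hz : 0 ≤ z) (hS : S = 1 + z) :
    chi2 β z * S ^ 2 ≤ 4 * β := by
  have hv : S ≤ 1 + β * z := by nlinarith
  have hd := den_pos β z
  have hS0 : 0 ≤ S := by linarith
  have hβ0 : 0 < β := by linarith
  unfold chi2
  set v := 1 + β * z with hvdef
  have hv1 : 1 ≤ v := by nlinarith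
  have hv0 : 0 ≤ v := by linarith
  rw [div_mul_eq_mul_div, div_le_iff₀ (by positivity)]
  have h1 : S ^ 2 ≤ v ^ 2 := pow_le_pow_left₀ hS0 hv 2
  have hv2 : 1 ≤ v ^ 2 := one_le_pow₀ hv1
  have h2 : 2 * ((3 * v ^ 2 - 1) * v ^ 2) ≤ (1 + v ^ 2) ^ 3 := by
    nlinarith [mul_nonneg (show 0 ≤ v ^ 2 by positivity) (sq_nonneg (v ^ 2 - 3 / 2)),
      sq_nonneg (v ^ 2)]
  have h3 : (3 * v ^ 2 - 1) * S ^ 2 ≤ (3 * v ^ 2 - 1) * v ^ 2 :=
    mul_le_mul_of_nonneg_left h1 (by linarith)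
  have h4 : 2 * ((3 * v ^ 2 - 1) * S ^ 2) ≤ (1 + v ^ 2) ^ 3 := by linarith
  have h5 := mul_le_mul_of_nonneg_left h4 (show 0 ≤ 4 * β by positivity)
  nlinarith

theorem chi1_sq_le (β z : ℝ) : chi1 β z ^ 2 ≤ 27 / 4 := by
  have hd := den_pos β z
  unfold chi1
  set v := 1 + β * z with hvdef
  rw [div_pow, ← pow_mul, div_le_iff₀ (by positivity)]
  have h1 : (-8 * v) ^ 2 = 64 * v ^ 2 := by ring
  rw [h1]
  set x := v ^ 2 with hx
  have hx0 : 0 ≤ x := sq_nonneg v
  norm_num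
  nlinarith [mul_nonneg (sq_nonneg (3 * x - 1)) (show 0 ≤ 1 by norm_num),
    mul_nonneg (sq_nonneg (3 * x - 1)) (show 0 ≤ x by positivity),
    mul_nonneg (sq_nonneg (3 * x - 1)) (show 0 ≤ x ^ 2 by positivity)]

theorem chi2_abs_le {β : ℝ} (hβ : 0 ≤ β) (z : ℝ) : |chi2 β z| ≤ 8 * β := by
  have hd := den_pos β z
  unfold chi2
  set v := 1 + β * z with hvdef
  rw [abs_div, abs_of_pos (show 0 < (1 + v ^ 2) ^ 3 by positivity), div_le_iff₀ (by positivity),
    abs_mul, abs_of_nonneg (by positivity : 0 ≤ 8 * β)]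
  apply mul_le_mul_of_nonneg_left _ (by positivity)
  set x := v ^ 2 with hx
  have hx0 : 0 ≤ x := sq_nonneg v
  rw [abs_le]
  constructor
  · nlinarith [pow_nonneg hx0 2, pow_nonneg hx0 3]
  · nlinarith [pow_nonneg hx0 2, pow_nonneg hx0 3]

/-- the reaction factor `2 χ + S χ'` -/
noncomputable def rfac (β z : ℝ) : ℝ := 2 * chi β z + (1 + z) * chi1 β z

theorem rfac_eq {β : ℝ} (hβ : 0 < β) (z : ℝ) :
    rfac β z * (1 + (1 + β * z) ^ 2) ^ 2 = β * z * (
      2 * ((1 + β * z) ^ 3 + (1 + β * z) ^ 2 + 3 * (1 + β * z) - 1)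
      - 4 / β * ((1 + β * z) ^ 3 + (1 + β * z) ^ 2 + 3 * (1 + β * z) + 1)) := by
  have hd := (den_pos β z).ne'
  unfold rfac chi chi1
  field_simp
  ring

theorem rfac_nonneg {β : ℝ} (hβ : 16 ≤ β) {z : ℝ} (hz : 0 ≤ z) : 0 ≤ rfac β z := by
  have hβ0 : 0 < β := by linarith
  have hd := den_pos β z
  have h1 := rfac_eq hβ0 z
  have hv : 1 ≤ 1 + β * z := by nlinarith
  set v := 1 + β * z with hvdef
  have h2 : 0 ≤ 2 * (v ^ 3 + v ^ 2 + 3 * v - 1) - 4 / β * (v ^ 3 + v ^ 2 + 3 * v + 1) := by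
    have h3 : 4 / β ≤ 1 / 4 := by rw [div_le_div_iff₀ hβ0 (by norm_num)]; linarith
    have h4 : 1 ≤ v ^ 3 := one_le_pow₀ hv
    have h5 : 1 ≤ v ^ 2 := one_le_pow₀ hv
    have h6 := mul_le_mul_of_nonneg_right h3
      (show 0 ≤ v ^ 3 + v ^ 2 + 3 * v + 1 by positivity)
    nlinarith
  have h3 : 0 ≤ rfac β z * (1 + v ^ 2) ^ 2 := by
    rw [h1]
    exact mul_nonneg (by positivity) h2
  exact nonneg_of_mul_nonneg_left h3 (by positivity)

theorem rfac_abs_le {β : ℝ} (hβ : 16 ≤ β) (z : ℝ) : |rfac β z| ≤ 8 * β * |z| := by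
  have hβ0 : 0 < β := by linarith
  have hd := den_pos β z
  have h1 := rfac_eq hβ0 z
  set v := 1 + β * z with hvdef
  have h3 : 4 / β ≤ 1 / 4 := by rw [div_le_div_iff₀ hβ0 (by norm_num)]; linarith
  have h3' : 0 ≤ 4 / β := by positivity
  have hA : |v ^ 3 + v ^ 2 + 3 * v - 1| ≤ 3 * (1 + v ^ 2) ^ 2 := by
    rw [abs_le]
    constructor
    · nlinarith [sq_nonneg (v * (v + 1)), sq_nonneg (v + 1), sq_nonneg (v ^ 2), sq_nonneg v]
    · nlinarith [sq_nonneg (v * (v - 1)), sq_nonneg (v - 1), sq_nonneg (v ^ 2), sq_nonneg v]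
  have hB : |v ^ 3 + v ^ 2 + 3 * v + 1| ≤ 3 * (1 + v ^ 2) ^ 2 := by
    rw [abs_le]
    constructor
    · nlinarith [sq_nonneg (v * (v + 1)), sq_nonneg (v + 1), sq_nonneg (v ^ 2), sq_nonneg v]
    · nlinarith [sq_nonneg (v * (v - 1)), sq_nonneg (v - 1), sq_nonneg (v ^ 2), sq_nonneg v]
  have h4 : |2 * (v ^ 3 + v ^ 2 + 3 * v - 1) - 4 / β * (v ^ 3 + v ^ 2 + 3 * v + 1)| ≤
      8 * (1 + v ^ 2) ^ 2 := by
    refine (abs_sub _ _).trans ?_
    rw [abs_mul, abs_mul, abs_of_pos (by norm_num : (0:ℝ) < 2), abs_of_nonneg h3']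
    have h5 := mul_le_mul h3 hB (abs_nonneg _) (by norm_num)
    have h6 : 0 ≤ (1 + v ^ 2) ^ 2 := by positivity
    linarith
  have h5 : |rfac β z| * (1 + v ^ 2) ^ 2 ≤ 8 * β * |z| * (1 + v ^ 2) ^ 2 := by
    have e1 : |rfac β z| * (1 + v ^ 2) ^ 2 = |rfac β z * (1 + v ^ 2) ^ 2| := by
      rw [abs_mul, abs_of_nonneg (by positivity : 0 ≤ (1 + v ^ 2) ^ 2)]
    rw [e1, h1, abs_mul, abs_mul, abs_of_pos hβ0]
    have := mul_le_mul_of_nonneg_left h4 (show 0 ≤ β * |z| by positivity)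
    linarith
  exact le_of_mul_le_mul_right h5 (by positivity)

/-! the leader function -/

noncomputable def lead (s : ℝ) : ℝ := |s ^ 2 / 2 - 2 * s + log s + 3 / 2|

noncomputable def lead1 (s : ℝ) : ℝ := (s - 1) * |s - 1| / s

noncomputable def lead2 (s : ℝ) : ℝ := |s - 1| * (s + 1) / s ^ 2

theorem inner_hasDeriv {s : ℝ} (hs : 0 < s) :
    HasDerivAt (fun s => s ^ 2 / 2 - 2 * s + log s + 3 / 2) ((s - 1) ^ 2 / s) s := by
  have h1 := ((((hasDerivAt_pow 2 s).div_const 2).sub ((hasDerivAt_id s).const_mul 2)).add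
    (hasDerivAt_log hs.ne')).add_const (3 / 2 : ℝ)
  refine h1.congr_deriv ?_
  simp only [Nat.cast_ofNat, Nat.add_one_sub_one, pow_one, mul_one]
  field_simp
  ring

theorem inner_one : (1:ℝ) ^ 2 / 2 - 2 * 1 + log 1 + 3 / 2 = 0 := by
  rw [log_one]; norm_num

theorem inner_cmp : MonotoneOn (fun s : ℝ => (s ^ 2 / 2 - 2 * s + log s + 3 / 2)
    - (s - 1) ^ 3 / (3 * (1 + s))) (Set.Ioi 0) := by
  have hder : ∀ s : ℝ, 0 < s → HasDerivAt (fun s : ℝ => (s ^ 2 / 2 - 2 * s + log s + 3 / 2)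
    - (s - 1) ^ 3 / (3 * (1 + s))) ((s - 1) ^ 2 * (3 + 2 * s + s ^ 2) / (3 * s * (1 + s) ^ 2))
      s := by
    intro s hs
    have hs1 : 3 * (1 + s) ≠ 0 := by positivity
    have h1 : HasDerivAt (fun s : ℝ => (s - 1) ^ 3) (3 * (s - 1) ^ 2) s := by
      have := ((hasDerivAt_id s).sub_const 1).pow 3
      refine this.congr_deriv ?_
      simp
    have h2 : HasDerivAt (fun s : ℝ => 3 * (1 + s)) 3 s := by
      have := ((hasDerivAt_id s).const_add 1).const_mul 3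
      refine this.congr_deriv ?_
      simp
    refine ((inner_hasDeriv hs).sub (h1.div h2 hs1)).congr_deriv ?_
    field_simp
    ring
  apply monotoneOn_of_deriv_nonneg (convex_Ioi 0)
  · intro s hs; exact (hder s hs).continuousAt.continuousWithinAt
  · rw [interior_Ioi]; intro s hs
    exact (hder s hs).differentiableAt.differentiableWithinAt
  · rw [interior_Ioi]; intro s hs
    rw [(hder s hs).deriv]
    have hs' : 0 < s := hs
    positivity

theorem inner_ge {s : ℝ} (hs : 1 ≤ s) :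
    (s - 1) ^ 3 / (3 * (1 + s)) ≤ s ^ 2 / 2 - 2 * s + log s + 3 / 2 := by
  have h := inner_cmp (show (1:ℝ) ∈ Set.Ioi 0 by norm_num) (show s ∈ Set.Ioi 0 by
    exact lt_of_lt_of_le one_pos hs) hs
  simp only [log_one] at h
  norm_num at h
  linarith

theorem inner_le {s : ℝ} (hs0 : 0 < s) (hs : s ≤ 1) :
    s ^ 2 / 2 - 2 * s + log s + 3 / 2 ≤ (s - 1) ^ 3 / (3 * (1 + s)) := by
  have h := inner_cmp (show s ∈ Set.Ioi 0 from hs0) (show (1:ℝ) ∈ Set.Ioi 0 by norm_num) hs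
  simp only [log_one] at h
  norm_num at h
  linarith

theorem lead_ge {s : ℝ} (hs0 : 0 < s) : |s - 1| ^ 3 / (3 * (1 + s)) ≤ lead s := by
  unfold lead
  rcases le_total 1 s with hs | hs
  · rw [abs_of_nonneg (by linarith : 0 ≤ s - 1)]
    exact (inner_ge hs).trans (le_abs_self _)
  · rw [abs_of_nonpos (by linarith : s - 1 ≤ 0)]
    have h1 := inner_le hs0 hs
    have h2 : (-(s - 1)) ^ 3 / (3 * (1 + s)) = -((s - 1) ^ 3 / (3 * (1 + s))) := by ring
    rw [h2]
    exact (neg_le_neg h1).trans (neg_le_abs _)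

theorem lead_one : lead 1 = 0 := by
  unfold lead; rw [inner_one, abs_zero]

theorem lead_hasDeriv {s : ℝ} (hs0 : 0 < s) : HasDerivAt lead (lead1 s) s := by
  have hin := inner_hasDeriv hs0
  unfold lead lead1
  rcases lt_trichotomy s 1 with hs | hs | hs
  · have hneg : s ^ 2 / 2 - 2 * s + log s + 3 / 2 < 0 := by
      refine lt_of_le_of_lt (inner_le hs0 hs.le) ?_
      apply div_neg_of_neg_of_pos _ (by positivity)
      have : (s - 1) ^ 3 = (s - 1) * (s - 1) ^ 2 := by ring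
      rw [this]
      exact mul_neg_of_neg_of_pos (by linarith) (by have : s - 1 ≠ 0 := by linarith
                                                    positivity)
    have := (hasDerivAt_abs_neg hneg).comp s hin
    refine this.congr_deriv ?_
    rw [abs_of_neg (by linarith : s - 1 < 0)]
    ring
  · subst hs
    have h0 : ((1:ℝ) - 1) * |(1:ℝ) - 1| / 1 = 0 := by norm_num
    rw [h0]
    have hin0 : HasDerivAt (fun s : ℝ => s ^ 2 / 2 - 2 * s + log s + 3 / 2) 0 1 := by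
      refine hin.congr_deriv ?_
      norm_num
    rw [hasDerivAt_iff_isLittleO] at hin0 ⊢
    rw [inner_one] at hin0
    simp only [smul_zero, sub_zero] at hin0 ⊢
    rw [inner_one, abs_zero]
    simp only [sub_zero]
    exact hin0.abs_left
  · have hpos : 0 < s ^ 2 / 2 - 2 * s + log s + 3 / 2 := by
      refine lt_of_lt_of_le ?_ (inner_ge hs.le)
      have : 0 < s - 1 := by linarith
      positivity
    have := (hasDerivAt_abs_pos hpos).comp s hin
    refine this.congr_deriv ?_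
    rw [abs_of_pos (by linarith : 0 < s - 1)]
    ring

theorem mul_abs_hasDeriv (y : ℝ) : HasDerivAt (fun y : ℝ => y * |y|) (2 * |y|) y := by
  rcases lt_trichotomy y 0 with hy | hy | hy
  · have := (hasDerivAt_id y).mul (hasDerivAt_abs_neg hy)
    refine this.congr_deriv ?_
    simp only [id]
    rw [abs_of_neg hy]; ring
  · subst hy
    rw [hasDerivAt_iff_isLittleO]
    simp only [abs_zero, mul_zero, smul_zero, sub_zero]
    have h1 : (fun y : ℝ => |y|) =o[nhds 0] (fun _ => (1:ℝ)) := by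
      rw [Asymptotics.isLittleO_one_iff]
      have : Filter.Tendsto (fun y : ℝ => |y|) (nhds 0) (nhds |0|) := continuous_abs.tendsto 0
      simpa using this
    have h2 := (Asymptotics.isBigO_refl (fun y : ℝ => y) (nhds 0)).mul_isLittleO h1
    simpa using h2
  · have := (hasDerivAt_id y).mul (hasDerivAt_abs_pos hy)
    refine this.congr_deriv ?_
    simp only [id]
    rw [abs_of_pos hy]; ring

theorem lead1_hasDeriv {s : ℝ} (hs0 : 0 < s) : HasDerivAt lead1 (lead2 s) s := by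
  have h0 : HasDerivAt (fun s : ℝ => s - 1) 1 s := (hasDerivAt_id s).sub_const 1
  have h1 := (mul_abs_hasDeriv (s - 1)).comp s h0
  have h2 := h1.div (hasDerivAt_id s) hs0.ne'
  unfold lead1 lead2
  refine h2.congr_deriv ?_
  simp only [id, Function.comp]
  field_simp
  ring

theorem lead2_continuousOn : ContinuousOn lead2 (Set.Ioi 0) := by
  unfold lead2
  apply ContinuousOn.div (by fun_prop) (by fun_prop)
  intro s hs
  exact pow_ne_zero 2 (ne_of_gt hs)

theorem lead2_nonneg {s : ℝ} (hs0 : 0 < s) : 0 ≤ lead2 s := by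
  unfold lead2; positivity

theorem lead2_ge {s : ℝ} (hs0 : 0 < s) (hs : s ≤ 1) : 2 * (1 - s) ≤ lead2 s := by
  unfold lead2
  rw [le_div_iff₀ (by positivity), abs_of_nonpos (by linarith)]
  have h1 : 2 * s ^ 2 ≤ s + 1 := by nlinarith
  have := mul_le_mul_of_nonneg_left h1 (show 0 ≤ 1 - s by linarith)
  linarith

theorem mul_lead1 {s : ℝ} (hs0 : 0 < s) : s * lead1 s = (s - 1) * |s - 1| := by
  unfold lead1
  field_simp

end Run7.h350
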