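import Pool.Agent.Run7.h350.EnergyTime

open Set Filter Topology MeasureTheory
open scoped ContDiff Laplacian

namespace Run7.h350

/-- sequences of uniformly bounded, uniformly Lipschitz vector functions on a compact set have
uniformly convergent subsequences. -/
theorem compact_seq {X : Type*} [PseudoMetricSpace X] {N : ℕ} {K : Set X}
    (hK : IsCompact K) {M L : ℝ} (f : ℕ → X → Fin N → ℝ)
    (hb : ∀ m, ∀ x ∈ K, ∀ j, f m x j ∈ Icc 0 M)
    (hL : ∀ m, ∀ x ∈ K, ∀ y ∈ K, ∀ j, |f m x j - f m y j| ≤ L * dist x y) :
    ∃ φ : ℕ → ℕ, StrictMono φ ∧ ∃ g : X → Fin N → ℝ, ContinuousOn g K ∧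
      TendstoUniformlyOn (fun m => f (φ m)) g atTop K := by
  classical
  have hKc : CompactSpace K := isCompact_iff_compactSpace.1 hK
  have hL' : ∀ m, ∀ x y : K, dist (f m x) (f m y) ≤ |L| * dist x y := by
    intro m x y
    rw [dist_pi_le_iff (by positivity)]
    intro j
    rw [Real.dist_eq]
    exact (hL m x x.2 y y.2 j).trans (mul_le_mul_of_nonneg_right (le_abs_self L) dist_nonneg)
  have hc : ∀ m, Continuous (fun x : K => f m x) := by
    intro m
    have : LipschitzWith (Real.toNNReal |L|) (fun x : K => f m x) := by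
      apply LipschitzWith.of_dist_le_mul
      intro x y
      rw [Real.coe_toNNReal _ (abs_nonneg L)]
      exact hL' m x y
    exact this.continuous
  let F : ℕ → BoundedContinuousFunction K (Fin N → ℝ) := fun m =>
    BoundedContinuousFunction.mkOfCompact ⟨fun x : K => f m x, hc m⟩
  have hF : ∀ m (x : K), F m x = f m x := fun m x => rfl
  have hcomp : IsCompact (closure (range F)) := by
    apply BoundedContinuousFunction.arzela_ascoli (Set.pi univ fun _ : Fin N => Icc (0:ℝ) M)
      (isCompact_univ_pi fun _ => isCompact_Icc)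
    · rintro g x ⟨m, rfl⟩
      rw [Set.mem_univ_pi]
      intro j
      exact hb m x x.2 j
    · apply Metric.equicontinuous_of_continuity_modulus (fun t => |L| * t)
      · have : Tendsto (fun t : ℝ => |L| * t) (𝓝 0) (𝓝 (|L| * 0)) :=
          (continuous_const.mul continuous_id).tendsto 0
        simpa using this
      · rintro x y ⟨g, m, rfl⟩
        exact hL' m x y
  obtain ⟨g, -, φ, hφ, hlim⟩ := hcomp.tendsto_subseq (x := F)
    (fun m => subset_closure (mem_range_self m))
  refine ⟨φ, hφ, fun x => if h : x ∈ K then g ⟨x, h⟩ else 0, ?_, ?_⟩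
  · rw [continuousOn_iff_continuous_domRestrict]
    have : K.domRestrict (fun x => if h : x ∈ K then g ⟨x, h⟩ else (0 : Fin N → ℝ)) = g := by
      ext x j
      simp [Set.domRestrict]
    rw [this]
    exact g.continuous
  · rw [Metric.tendstoUniformlyOn_iff]
    intro ε hε
    rw [tendsto_iff_dist_tendsto_zero] at hlim
    filter_upwards [hlim.eventually (gt_mem_nhds hε)] with m hm x hx
    simp only [hx, dif_pos]
    rw [dist_comm]
    exact lt_of_le_of_lt (BoundedContinuousFunction.dist_coe_le_dist (f := F (φ m)) (g := g) ⟨x, hx⟩) hm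

end Run7.h350
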