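import Mathlib

/-! The scalar inequalities behind the dissipation form. -/

namespace Run7.h350

theorem am {A B x : ℝ} (hA : 0 ≤ A) (hB : 0 ≤ B) (h : x ^ 2 ≤ 4 * A * B) : |x| ≤ A + B :=
  abs_le_of_sq_le_sq (by nlinarith [sq_nonneg (A - B)]) (by linarith)

theorem small_delta {q r Δ : ℝ} (hq : 0 < q) (hr : r = 1 + q) (hΔ0 : 0 ≤ Δ)
    (hΔ : 2500 * r * Δ ^ 2 ≤ q) : Δ ≤ 1 / 50 := by
  have hr0 : 0 < r := by linarith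
  by_contra hcon
  push Not at hcon
  have h1 : (1 / 50 : ℝ) ^ 2 < Δ ^ 2 := by nlinarith
  have h2 : r * (1 / 50 : ℝ) ^ 2 < r * Δ ^ 2 := mul_lt_mul_of_pos_left h1 hr0
  linarith

theorem term_mix {χ1 Ξ σ n2 P c : ℝ} (hc : 0 < c) (hσ0 : 0 ≤ σ) (hn2 : 0 ≤ n2)
    (hP : P ^ 2 ≤ σ * n2) :
    |2 * χ1 * Ξ * P| ≤ c * n2 + 1 / c * (χ1 ^ 2 * Ξ ^ 2 * σ) := by
  apply am (by positivity) (by positivity)
  have e : 4 * (c * n2) * (1 / c * (χ1 ^ 2 * Ξ ^ 2 * σ)) = 4 * (χ1 ^ 2 * Ξ ^ 2) * (σ * n2) := by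
    field_simp
  rw [e]
  calc (2 * χ1 * Ξ * P) ^ 2 = 4 * (χ1 ^ 2 * Ξ ^ 2) * P ^ 2 := by ring
    _ ≤ 4 * (χ1 ^ 2 * Ξ ^ 2) * (σ * n2) := mul_le_mul_of_nonneg_left hP (by positivity)

theorem term_mixW {χ1 Ξ σ E2 W Q : ℝ} (hσ0 : 0 ≤ σ) (hE0 : 0 ≤ E2) (hQ0 : 0 ≤ Q)
    (hW : W ^ 2 ≤ σ * (Q * E2)) :
    |χ1 * Ξ * W| ≤ 7 / 16 * E2 + 4 / 7 * Q * (χ1 ^ 2 * Ξ ^ 2 * σ) := by
  apply am (by positivity) (by positivity)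
  calc (χ1 * Ξ * W) ^ 2 = (χ1 ^ 2 * Ξ ^ 2) * W ^ 2 := by ring
    _ ≤ (χ1 ^ 2 * Ξ ^ 2) * (σ * (Q * E2)) := mul_le_mul_of_nonneg_left hW (by positivity)
    _ = 4 * (7 / 16 * E2) * (4 / 7 * Q * (χ1 ^ 2 * Ξ ^ 2 * σ)) := by ring

theorem term_P {χ1 σ n2 P L K : ℝ} (hn2 : 0 ≤ n2) (hK : 0 ≤ K)
    (hP : P ^ 2 ≤ σ * n2) (hχσ : χ1 ^ 2 * σ ≤ K) :
    |L * (χ1 * P)| ≤ 1 / 10 * n2 + 5 / 2 * K * L ^ 2 := by
  apply am (by positivity) (by positivity)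
  calc (L * (χ1 * P)) ^ 2 = L ^ 2 * χ1 ^ 2 * P ^ 2 := by ring
    _ ≤ L ^ 2 * χ1 ^ 2 * (σ * n2) := mul_le_mul_of_nonneg_left hP (by positivity)
    _ = L ^ 2 * n2 * (χ1 ^ 2 * σ) := by ring
    _ ≤ L ^ 2 * n2 * K := mul_le_mul_of_nonneg_left hχσ (by positivity)
    _ = 4 * (1 / 10 * n2) * (5 / 2 * K * L ^ 2) := by ring

theorem term_eta {σ T χ1 η X a K : ℝ} (hσ0 : 0 ≤ σ) (hσT : σ ≤ T ^ 2)
    (hK : 0 ≤ K) (hχ1T : χ1 ^ 2 * T ^ 2 ≤ 4 * K ^ 2) (hX : X = a + η * T) :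
    |1 / 2 * η * σ * χ1| ≤ K * |X - a| := by
  have e0 : K * |X - a| = |K * (X - a)| := by rw [abs_mul, abs_of_nonneg hK]
  rw [e0]
  apply sq_le_sq.1
  have e1 : X - a = η * T := by rw [hX]; ring
  rw [e1]
  have e2 : σ * σ ≤ T ^ 2 * T ^ 2 := mul_le_mul hσT hσT hσ0 (by positivity)
  calc (1 / 2 * η * σ * χ1) ^ 2 = 1 / 4 * η ^ 2 * χ1 ^ 2 * (σ * σ) := by ring
    _ ≤ 1 / 4 * η ^ 2 * χ1 ^ 2 * (T ^ 2 * T ^ 2) := mul_le_mul_of_nonneg_left e2 (by positivity)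
    _ = 1 / 4 * (η ^ 2 * T ^ 2) * (χ1 ^ 2 * T ^ 2) := by ring
    _ ≤ 1 / 4 * (η ^ 2 * T ^ 2) * (4 * K ^ 2) := mul_le_mul_of_nonneg_left hχ1T (by positivity)
    _ = (K * (η * T)) ^ 2 := by ring

theorem term_LX {ρ X L D a y K : ℝ} (hρ0 : 0 ≤ ρ) (hK : 0 ≤ K) (hL : L = ρ * X + D)
    (hy : |y| ≤ K * |X - a|) :
    |L * y| ≤ K * (ρ * X ^ 2 + |X * D| + L ^ 2 + 1 / 4 * a ^ 2) := by
  rw [abs_mul]
  have e1 : |L| * |y| ≤ |L| * (K * (|X| + |a|)) :=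
    mul_le_mul_of_nonneg_left (hy.trans (mul_le_mul_of_nonneg_left (abs_sub _ _) hK))
      (abs_nonneg _)
  have e2 : |L| * |X| ≤ ρ * X ^ 2 + |X * D| := by
    rw [← abs_mul, hL]
    calc |(ρ * X + D) * X| = |ρ * X ^ 2 + X * D| := by ring_nf
      _ ≤ |ρ * X ^ 2| + |X * D| := abs_add_le _ _
      _ = ρ * X ^ 2 + |X * D| := by rw [abs_of_nonneg (by positivity : 0 ≤ ρ * X ^ 2)]
  have e3 : |L| * |a| ≤ L ^ 2 + 1 / 4 * a ^ 2 := by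
    have := sq_nonneg (|L| - 1 / 2 * |a|)
    have h2 := sq_abs L
    have h3 := sq_abs a
    nlinarith only [this, h2, h3]
  have e4 := mul_le_mul_of_nonneg_left (add_le_add e2 e3) hK
  linarith

/-- the bracket for `S ≥ 1` -/
theorem bracketA {q r β ρ Q : ℝ} (hq : 0 < q) (hr : r = 1 + q) (hβ : β = 16 * r)
    (hρ0 : 0 ≤ ρ) (hQ0 : 0 ≤ Q) (hQ1 : Q ≤ q + 1 / 50)
    {χ χ1 χ2 σ T n2 E2 P W a Ξ X L D η : ℝ}
    (hχ : 7 / 8 ≤ χ) (hχ2 : 0 ≤ χ2) (hχ12 : β * χ1 ^ 2 ≤ 2 * χ2)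
    (hχ1T : χ1 ^ 2 * T ^ 2 ≤ 4) (hχ2σ : χ2 * σ ≤ 4 * β)
    (hσ0 : 0 ≤ σ) (hσT : σ ≤ T ^ 2) (hn2 : 0 ≤ n2)
    (hP : P ^ 2 ≤ σ * n2) (hE0 : 0 ≤ E2) (hW : W ^ 2 ≤ σ * (Q * E2))
    (hX : X = a + η * T) (hL : L = ρ * X + D) :
    (27 / 80) * n2 + 7 / 16 * E2 - 31 * r * L ^ 2 - ρ * X ^ 2 - |X * D| - 1 / 4 * a ^ 2 ≤
      χ * n2 + 2 * χ1 * Ξ * P + 1 / 2 * σ * χ2 * Ξ ^ 2 + χ * E2 + χ1 * Ξ * W
        + L * (χ1 * P + 1 / 2 * η * σ * χ1) + 1 / 2 * L * σ * χ2 * Ξ := by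
  have hr1 : 1 ≤ r := by linarith
  have h1 := term_mix (χ1 := χ1) (Ξ := Ξ) (c := 7 / 16) (by norm_num) hσ0 hn2 hP
  have h2 := term_mixW (χ1 := χ1) (Ξ := Ξ) hσ0 hE0 hQ0 hW
  have h12 : 16 / 7 * (χ1 ^ 2 * Ξ ^ 2 * σ) + 4 / 7 * Q * (χ1 ^ 2 * Ξ ^ 2 * σ) ≤
      3 / 10 * (σ * χ2 * Ξ ^ 2) := by
    have e1 : 8 * r * χ1 ^ 2 ≤ χ2 := by rw [hβ] at hχ12; linarith
    have e2 : 16 / 7 + 4 / 7 * Q ≤ 3 / 10 * (8 * r) := by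
      rw [hr]; linarith
    have e3 : (16 / 7 + 4 / 7 * Q) * χ1 ^ 2 ≤ 3 / 10 * χ2 := by
      calc (16 / 7 + 4 / 7 * Q) * χ1 ^ 2 ≤ 3 / 10 * (8 * r) * χ1 ^ 2 :=
            mul_le_mul_of_nonneg_right e2 (sq_nonneg _)
        _ = 3 / 10 * (8 * r * χ1 ^ 2) := by ring
        _ ≤ 3 / 10 * χ2 := by linarith
    have e4 := mul_le_mul_of_nonneg_right e3 (show 0 ≤ Ξ ^ 2 * σ by positivity)
    linarith
  have h3 : |1 / 2 * L * σ * χ2 * Ξ| ≤ 1 / 5 * (σ * χ2 * Ξ ^ 2) + 5 / 16 * (σ * χ2 * L ^ 2) := by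
    apply am (by positivity) (by positivity)
    apply le_of_eq; ring
  have h3' : 5 / 16 * (σ * χ2 * L ^ 2) ≤ 20 * r * L ^ 2 := by
    have e1 := mul_le_mul_of_nonneg_right hχ2σ (sq_nonneg L)
    rw [hβ] at e1
    linarith
  have hχσ : χ1 ^ 2 * σ ≤ 4 := le_trans (mul_le_mul_of_nonneg_left hσT (sq_nonneg _)) hχ1T
  have h4 := term_P (L := L) hn2 (by norm_num : (0:ℝ) ≤ 4) hP hχσ
  have h5a := term_eta (K := 1) (χ1 := χ1) hσ0 hσT zero_le_one (by linarith) hX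
  have h5 := term_LX hρ0 zero_le_one hL h5a
  have e1 := neg_abs_le (2 * χ1 * Ξ * P)
  have e2 := neg_abs_le (χ1 * Ξ * W)
  have e3 := neg_abs_le (1 / 2 * L * σ * χ2 * Ξ)
  have e4 := neg_abs_le (L * (χ1 * P))
  have e5 := neg_abs_le (L * (1 / 2 * η * σ * χ1))
  have e6 : 7 / 8 * n2 ≤ χ * n2 := mul_le_mul_of_nonneg_right hχ hn2
  have e7 : 7 / 8 * E2 ≤ χ * E2 := mul_le_mul_of_nonneg_right hχ hE0
  have e8 : 11 * L ^ 2 ≤ 11 * r * L ^ 2 := by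
    have := mul_le_mul_of_nonneg_right hr1 (sq_nonneg L)
    linarith
  have e9 : (1 : ℝ) / (7 / 16) = 16 / 7 := by norm_num
  rw [e9] at h1
  rw [mul_add]
  linarith

/-- the remainder terms: `s = D²`, `u = |X D|`. -/
theorem term_XD {q ρ X D : ℝ} (hq : 0 < q) (hρ1 : q ≤ ρ) :
    |X * D| ≤ 1 / 2 * (ρ * X ^ 2) + D ^ 2 / (2 * q) := by
  have hρ : 0 < ρ := lt_of_lt_of_le hq hρ1
  apply am (by positivity) (by positivity)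
  have e1 : 4 * (1 / 2 * (ρ * X ^ 2)) * (D ^ 2 / (2 * q)) = ρ / q * (X ^ 2 * D ^ 2) := by
    field_simp
    ring
  rw [e1, mul_pow]
  have e2 : 1 ≤ ρ / q := (one_le_div hq).2 hρ1
  exact le_mul_of_one_le_left (by positivity) e2

theorem term_LL {ρ X L D : ℝ} (hL : L = ρ * X + D) :
    L ^ 2 ≤ 5 / 4 * (ρ ^ 2 * X ^ 2) + 5 * D ^ 2 := by
  rw [hL]
  have := sq_nonneg (1 / 2 * (ρ * X) - 2 * D)
  nlinarith only [this]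

theorem eps_small {r ε : ℝ} (hr1 : 1 ≤ r) (hε : ε * (200 * r ^ 2) = 1) (hε0 : 0 < ε) :
    ε ≤ 1 / 200 := by
  have h1 : ε * 200 ≤ ε * (200 * r ^ 2) := by
    apply mul_le_mul_of_nonneg_left _ hε0.le
    have : 1 ≤ r ^ 2 := one_le_pow₀ hr1
    linarith
  linarith

/-- bound of the perturbation terms -/
theorem bound_D {q r ε Δ D Y C : ℝ} (hq : 0 < q) (hr1 : 0 < r)
    (hε : ε * (200 * r ^ 2) = 1) (_hε0 : 0 < ε) (hΔ : 2500 * r * Δ ^ 2 ≤ q) (hC : 0 ≤ C)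
    (hY : 0 ≤ Y) (hDY : D ^ 2 ≤ 2 * Δ ^ 2 * Y) :
    C * D ^ 2 ≤ C / (1250 * r) * (q * Y) ∧
      C * (D ^ 2 / (2 * q)) ≤ ε * (2 / 25 * C * r * Y) := by
  have e1 : 1250 * r * D ^ 2 ≤ q * Y := by
    have := mul_le_mul_of_nonneg_left hDY (show 0 ≤ 1250 * r by positivity)
    have e2 := mul_le_mul_of_nonneg_right hΔ hY
    linarith
  constructor
  · rw [div_mul_eq_mul_div, le_div_iff₀ (by positivity)]
    have := mul_le_mul_of_nonneg_left e1 hC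
    linarith
  · have e3 : D ^ 2 / (2 * q) ≤ Y / (2500 * r) := by
      rw [div_le_div_iff₀ (by positivity) (by positivity)]
      linarith
    have e4 : Y / (2500 * r) = ε * (2 / 25 * r * Y) := by
      rw [div_eq_iff (by positivity)]
      have : ε * (2 / 25 * r * Y) * (2500 * r) = (ε * (200 * r ^ 2)) * Y := by ring
      rw [this, hε, one_mul]
    rw [e4] at e3
    have := mul_le_mul_of_nonneg_left e3 hC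
    linarith

theorem finishA {q r ε Δ ρ : ℝ} (hq : 0 < q) (hr : r = 1 + q)
    (hε : ε * (200 * r ^ 2) = 1) (hε0 : 0 < ε) (hΔ : 2500 * r * Δ ^ 2 ≤ q)
    (hρ1 : q ≤ ρ) (hρr : ρ ≤ r) {n2 m2 E2 a X L D : ℝ}
    (hn2 : 0 ≤ n2) (hm2 : 0 ≤ m2) (hE2 : q * m2 ≤ E2) (hL : L = ρ * X + D)
    (hD1 : D ^ 2 ≤ 2 * Δ ^ 2 * (n2 + a ^ 2)) (hD2 : D ^ 2 ≤ 2 * Δ ^ 2 * (m2 + X ^ 2)) :
    1 / 100 * a ^ 2 + q / 100 * X ^ 2 ≤ a ^ 2 + (ρ * X ^ 2 - |X * D|)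
      + ε * ((27 / 80) * n2 + 7 / 16 * E2 - 31 * r * L ^ 2 - ρ * X ^ 2 - |X * D|
        - 1 / 4 * a ^ 2) := by
  have hr1 : 1 ≤ r := by linarith
  have hr0 : 0 < r := by linarith
  have hρ0 : 0 < ρ := lt_of_lt_of_le hq hρ1
  have hε1 := eps_small hr1 hε hε0
  have h6 := term_XD (X := X) (D := D) hq hρ1
  have h7 := term_LL hL
  have h7' : ε * (31 * r * L ^ 2) ≤ 31 / 160 * (ρ * X ^ 2) + ε * (155 * r * D ^ 2) := by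
    have e1 : ε * (31 * r * L ^ 2) ≤ ε * (31 * r * (5 / 4 * (ρ ^ 2 * X ^ 2) + 5 * D ^ 2)) :=
      mul_le_mul_of_nonneg_left (mul_le_mul_of_nonneg_left h7 (by positivity)) hε0.le
    have e2 : ε * (31 * r * (5 / 4 * (ρ ^ 2 * X ^ 2))) ≤ 31 / 160 * (ρ * X ^ 2) := by
      have e3 : ε * (r * ρ) ≤ 1 / 200 := by
        have : ε * (r * ρ) ≤ ε * (r * r) :=
          mul_le_mul_of_nonneg_left (mul_le_mul_of_nonneg_left hρr hr0.le) hε0.le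
        nlinarith only [this, hε]
      have e4 := mul_le_mul_of_nonneg_right e3 (show 0 ≤ 155 / 4 * (ρ * X ^ 2) by positivity)
      calc ε * (31 * r * (5 / 4 * (ρ ^ 2 * X ^ 2))) = ε * (r * ρ) * (155 / 4 * (ρ * X ^ 2)) := by
            ring
        _ ≤ 1 / 200 * (155 / 4 * (ρ * X ^ 2)) := e4
        _ = 31 / 160 * (ρ * X ^ 2) := by ring
    have e5 : ε * (31 * r * (5 / 4 * (ρ ^ 2 * X ^ 2) + 5 * D ^ 2)) =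
        ε * (31 * r * (5 / 4 * (ρ ^ 2 * X ^ 2))) + ε * (155 * r * D ^ 2) := by ring
    linarith
  have hεXD : ε * |X * D| ≤ 1 / 200 * |X * D| := mul_le_mul_of_nonneg_right hε1 (abs_nonneg _)
  have hερ : ε * (ρ * X ^ 2) ≤ 1 / 200 * (ρ * X ^ 2) :=
    mul_le_mul_of_nonneg_right hε1 (by positivity)
  have hεa : ε * a ^ 2 ≤ 1 / 200 * a ^ 2 := mul_le_mul_of_nonneg_right hε1 (sq_nonneg _)
  have hρX : q * X ^ 2 ≤ ρ * X ^ 2 := mul_le_mul_of_nonneg_right hρ1 (sq_nonneg _)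
  have ha0 : 0 ≤ a ^ 2 := sq_nonneg a
  have hsum : 399 / 400 * a ^ 2 + (1 - 1 / 200 - 201 / 400 - 31 / 160) * (ρ * X ^ 2)
      + ε * (27 / 80 * n2) + ε * (7 / 16 * E2) - (ε * (155 * r * D ^ 2)
        + 201 / 200 * (D ^ 2 / (2 * q))) ≤ a ^ 2 + (ρ * X ^ 2 - |X * D|)
      + ε * ((27 / 80) * n2 + 7 / 16 * E2 - 31 * r * L ^ 2
      - ρ * X ^ 2 - |X * D| - 1 / 4 * a ^ 2) := by
    have e0 : ε * ((27 / 80) * n2 + 7 / 16 * E2 - 31 * r * L ^ 2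
      - ρ * X ^ 2 - |X * D| - 1 / 4 * a ^ 2) = ε * (27 / 80 * n2) + ε * (7 / 16 * E2)
        - ε * (31 * r * L ^ 2) - ε * (ρ * X ^ 2) - ε * |X * D| - 1 / 4 * (ε * a ^ 2) := by ring
    rw [e0]
    linarith
  refine le_trans ?_ hsum
  have hbound : ∀ Y : ℝ, 0 ≤ Y → D ^ 2 ≤ 2 * Δ ^ 2 * Y →
      ε * (155 * r * D ^ 2) + 201 / 200 * (D ^ 2 / (2 * q)) ≤
        31 / 250 * (ε * (q * Y)) + 201 / 2500 * (ε * (r * Y)) := by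
    intro Y hY hDY
    obtain ⟨e1, e2⟩ := bound_D (C := 201 / 200) hq hr0 hε hε0 hΔ (by norm_num) hY hDY
    obtain ⟨e3, _⟩ := bound_D (C := 155 * r) hq hr0 hε hε0 hΔ (by positivity) hY hDY
    have e4 : 155 * r / (1250 * r) = 31 / 250 := by field_simp; norm_num
    rw [e4] at e3
    have e5 := mul_le_mul_of_nonneg_left e3 hε0.le
    linarith
  rcases le_total q 1 with hq1 | hq1
  · have hb := hbound (n2 + a ^ 2) (by positivity) hD1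
    have hY : 0 ≤ ε * (n2 + a ^ 2) := by positivity
    have e1 : ε * (q * (n2 + a ^ 2)) ≤ ε * (n2 + a ^ 2) := by
      have := mul_le_mul_of_nonneg_right hq1 hY
      linarith
    have e2 : ε * (r * (n2 + a ^ 2)) ≤ 2 * (ε * (n2 + a ^ 2)) := by
      have : r ≤ 2 := by linarith
      have := mul_le_mul_of_nonneg_right this hY
      linarith
    have e3 : 0 ≤ ε * n2 := by positivity
    have e4 : 0 ≤ ε * E2 := mul_nonneg hε0.le (le_trans (by positivity) hE2)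
    have e5 : 0 ≤ ρ * X ^ 2 := by positivity
    linarith
  · have hb := hbound (m2 + X ^ 2) (by positivity) hD2
    have hY : 0 ≤ ε * (m2 + X ^ 2) := by positivity
    have e2 : ε * (r * (m2 + X ^ 2)) ≤ 2 * (ε * (q * (m2 + X ^ 2))) := by
      have : r ≤ 2 * q := by linarith
      have := mul_le_mul_of_nonneg_right this hY
      linarith
    have e3 : ε * (q * m2) ≤ ε * E2 := mul_le_mul_of_nonneg_left hE2 hε0.le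
    have e4 : 0 ≤ ε * n2 := by positivity
    have e5 : ε * (q * X ^ 2) ≤ 1 / 200 * (q * X ^ 2) :=
      mul_le_mul_of_nonneg_right hε1 (by positivity)
    have e6 : 0 ≤ ε * (q * m2) := by positivity
    have e7 : 0 ≤ q * X ^ 2 := by positivity
    linarith

/-- case `S ≥ 1` -/
theorem coreA {q r ε β Δ ρ Q : ℝ} (hq : 0 < q) (hr : r = 1 + q) (hβ : β = 16 * r)
    (hε : ε * (200 * r ^ 2) = 1) (hε0 : 0 < ε) (hΔ0 : 0 ≤ Δ) (hΔ : 2500 * r * Δ ^ 2 ≤ q)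
    (hρ1 : q ≤ ρ) (hρ2 : ρ ≤ Q) (hQ : Q = q + Δ)
    {F2 χ χ1 χ2 σ T n2 m2 E2 P W ξ a Ξ X L D η : ℝ}
    (hF : 0 ≤ F2) (hχ : 7 / 8 ≤ χ) (hχ2 : 0 ≤ χ2) (hχ12 : β * χ1 ^ 2 ≤ 2 * χ2)
    (hχ1T : χ1 ^ 2 * T ^ 2 ≤ 4) (hχ2σ : χ2 * σ ≤ 4 * β)
    (hσ0 : 0 ≤ σ) (hσT : σ ≤ T ^ 2) (hn2 : 0 ≤ n2) (hm2 : 0 ≤ m2)
    (hP : P ^ 2 ≤ σ * n2) (hE2 : q * m2 ≤ E2) (hW : W ^ 2 ≤ σ * (Q * E2))
    (hX : X = a + η * T) (hL : L = ρ * X + D)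
    (hD1 : D ^ 2 ≤ 2 * Δ ^ 2 * (n2 + a ^ 2)) (hD2 : D ^ 2 ≤ 2 * Δ ^ 2 * (m2 + X ^ 2)) :
    1 / 100 * a ^ 2 + q / 100 * X ^ 2 ≤ F2 * ξ ^ 2 + a ^ 2 + X * L
      + ε * (χ * n2 + 2 * χ1 * Ξ * P + 1 / 2 * σ * χ2 * Ξ ^ 2 + χ * E2 + χ1 * Ξ * W
        + L * (χ1 * P + 1 / 2 * η * σ * χ1) + 1 / 2 * L * σ * χ2 * Ξ) := by
  have hΔ1 := small_delta hq hr hΔ0 hΔ
  have hρ0 : 0 ≤ ρ := by linarith
  have hE0 : 0 ≤ E2 := le_trans (by positivity) hE2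
  have h1 := bracketA (Ξ := Ξ) hq hr hβ hρ0 (by linarith) (by linarith) hχ hχ2 hχ12 hχ1T hχ2σ hσ0
    hσT hn2 hP hE0 hW hX hL
  have h2 := finishA hq hr hε hε0 hΔ hρ1 (by linarith) hn2 hm2 hE2 hL hD1 hD2
  have h3 := mul_le_mul_of_nonneg_left h1 hε0.le
  have hXL : X * L = ρ * X ^ 2 + X * D := by rw [hL]; ring
  have hXD := neg_abs_le (X * D)
  have hFξ : 0 ≤ F2 * ξ ^ 2 := by positivity
  rw [hXL]
  linarith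

/-- the bracket for `S ≤ 1`, together with the leader term -/
theorem bracketB {q r ε β ρ Q : ℝ} (hq : 0 < q) (hr : r = 1 + q) (hβ : β = 16 * r)
    (hε : ε * (200 * r ^ 2) = 1) (hε0 : 0 < ε)
    (hρ0 : 0 ≤ ρ) (hQ0 : 0 ≤ Q) (hQ1 : Q ≤ q + 1 / 50)
    {F2 χ χ1 χ2 σ T n2 E2 P W ξ a Ξ X L D η : ℝ}
    (hF : 2 * T ≤ F2) (hT : 0 ≤ T) (hT1 : T ≤ 1) (hΞ : Ξ = ξ + a)
    (hχ : 7 / 8 ≤ χ) (hχ2 : |χ2| ≤ 8 * β) (hχ1 : χ1 ^ 2 ≤ 27 / 4)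
    (hσ0 : 0 ≤ σ) (hσT : σ ≤ T ^ 2) (hn2 : 0 ≤ n2)
    (hP : P ^ 2 ≤ σ * n2) (hE0 : 0 ≤ E2) (hW : W ^ 2 ≤ σ * (Q * E2))
    (hX : X = a + η * T) (hL : L = ρ * X + D) :
    ε * ((27 / 80) * n2 + 7 / 16 * E2 - 53 * L ^ 2
        - 13 / 10 * (ρ * X ^ 2 + |X * D| + 1 / 4 * a ^ 2)) - 4 / 5 * a ^ 2 ≤
      F2 * ξ ^ 2 + ε * (χ * n2 + 2 * χ1 * Ξ * P + 1 / 2 * σ * χ2 * Ξ ^ 2 + χ * E2 + χ1 * Ξ * W
        + L * (χ1 * P + 1 / 2 * η * σ * χ1) + 1 / 2 * L * σ * χ2 * Ξ) := by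
  have hr1 : 1 ≤ r := by linarith
  have hr0 : 0 < r := by linarith
  have hε1 := eps_small hr1 hε hε0
  have hT2 : T ^ 2 ≤ T := by nlinarith only [hT, hT1]
  have hσT1 : σ ≤ T := hσT.trans hT2
  have hεr : ε * r ≤ 1 / 200 := by
    have : ε * r ≤ ε * r ^ 2 := mul_le_mul_of_nonneg_left (by nlinarith only [hr1]) hε0.le
    linarith
  have hεQ : ε * Q ≤ 1 / 200 := by
    have : ε * Q ≤ ε * r := mul_le_mul_of_nonneg_left (by linarith) hε0.le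
    linarith
  have hΞ2 : 0 ≤ Ξ ^ 2 := sq_nonneg _
  -- the leader term
  have h0 : 4 / 7 * (T * Ξ ^ 2) ≤ F2 * ξ ^ 2 + 4 / 5 * a ^ 2 := by
    have e1 : 2 * T * ξ ^ 2 ≤ F2 * ξ ^ 2 := mul_le_mul_of_nonneg_right hF (sq_nonneg _)
    have e2 : T * a ^ 2 ≤ a ^ 2 := by
      have := mul_le_mul_of_nonneg_right hT1 (sq_nonneg a)
      linarith
    have e3 : 0 ≤ T * (5 * ξ - 2 * a) ^ 2 := mul_nonneg hT (sq_nonneg _)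
    rw [hΞ]
    nlinarith only [e1, e2, e3]
  -- mixed terms
  have hχσ : χ1 ^ 2 * Ξ ^ 2 * σ ≤ 27 / 4 * (T * Ξ ^ 2) := by
    have e1 : χ1 ^ 2 * σ ≤ 27 / 4 * T := mul_le_mul hχ1 hσT1 hσ0 (by norm_num)
    have e2 := mul_le_mul_of_nonneg_right e1 hΞ2
    linarith
  have h1 := term_mix (χ1 := χ1) (Ξ := Ξ) (c := 7 / 16) (by norm_num) hσ0 hn2 hP
  have h2 := term_mixW (χ1 := χ1) (Ξ := Ξ) hσ0 hE0 hQ0 hW
  have e9 : (1 : ℝ) / (7 / 16) = 16 / 7 := by norm_num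
  rw [e9] at h1
  have hTΞ : 0 ≤ T * Ξ ^ 2 := by positivity
  have h1' : ε * (16 / 7 * (χ1 ^ 2 * Ξ ^ 2 * σ)) ≤ 108 / 1400 * (T * Ξ ^ 2) := by
    calc ε * (16 / 7 * (χ1 ^ 2 * Ξ ^ 2 * σ)) ≤ 1 / 200 * (16 / 7 * (27 / 4 * (T * Ξ ^ 2))) :=
          mul_le_mul hε1 (by linarith) (by positivity) (by norm_num)
      _ = 108 / 1400 * (T * Ξ ^ 2) := by ring
  have h2' : ε * (4 / 7 * Q * (χ1 ^ 2 * Ξ ^ 2 * σ)) ≤ 27 / 1400 * (T * Ξ ^ 2) := by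
    calc ε * (4 / 7 * Q * (χ1 ^ 2 * Ξ ^ 2 * σ)) = (ε * Q) * (4 / 7 * (χ1 ^ 2 * Ξ ^ 2 * σ)) := by ring
      _ ≤ 1 / 200 * (4 / 7 * (27 / 4 * (T * Ξ ^ 2))) :=
          mul_le_mul hεQ (by linarith) (by positivity) (by norm_num)
      _ = 27 / 1400 * (T * Ξ ^ 2) := by ring
  -- the curvature term
  have h3 : |ε * (1 / 2 * σ * χ2 * Ξ ^ 2)| ≤ 8 / 25 * (T * Ξ ^ 2) := by
    rw [abs_mul, abs_mul, abs_mul, abs_mul, abs_of_nonneg hε0.le, abs_of_nonneg hσ0,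
      abs_of_nonneg hΞ2, abs_of_nonneg (by norm_num : (0:ℝ) ≤ 1 / 2)]
    calc ε * (1 / 2 * σ * |χ2| * Ξ ^ 2) ≤ ε * (1 / 2 * T * (8 * β) * Ξ ^ 2) := by
          apply mul_le_mul_of_nonneg_left _ hε0.le
          apply mul_le_mul_of_nonneg_right _ hΞ2
          exact mul_le_mul (by linarith) hχ2 (abs_nonneg _) (by positivity)
      _ = (ε * r) * (64 * (T * Ξ ^ 2)) := by rw [hβ]; ring
      _ ≤ 1 / 200 * (64 * (T * Ξ ^ 2)) := mul_le_mul_of_nonneg_right hεr (by positivity)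
      _ = 8 / 25 * (T * Ξ ^ 2) := by ring
  have h4 : |ε * (1 / 2 * L * σ * χ2 * Ξ)| ≤ 3 / 20 * (T * Ξ ^ 2) +
      ε * (2048 / 60 * L ^ 2) := by
    apply am (by positivity) (by positivity)
    have e1 : σ ^ 2 ≤ T := by
      have h1 : σ ≤ 1 := hσT1.trans hT1
      nlinarith only [h1, hσ0, hσT1]
    have e2 : χ2 ^ 2 ≤ (8 * β) ^ 2 := by
      rw [← sq_abs χ2]
      exact pow_le_pow_left₀ (abs_nonneg _) hχ2 2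
    calc (ε * (1 / 2 * L * σ * χ2 * Ξ)) ^ 2
        = 1 / 4 * ε ^ 2 * L ^ 2 * Ξ ^ 2 * (σ ^ 2 * χ2 ^ 2) := by ring
      _ ≤ 1 / 4 * ε ^ 2 * L ^ 2 * Ξ ^ 2 * (T * (8 * β) ^ 2) := by
          apply mul_le_mul_of_nonneg_left _ (by positivity)
          exact mul_le_mul e1 e2 (sq_nonneg _) hT
      _ = (ε * (200 * r ^ 2)) * (2048 / 100 * ε * L ^ 2 * (T * Ξ ^ 2)) := by rw [hβ]; ring
      _ = 4 * (3 / 20 * (T * Ξ ^ 2)) * (ε * (2048 / 60 * L ^ 2)) := by rw [hε]; ring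
  -- the remaining terms
  have hχ1T : χ1 ^ 2 * T ^ 2 ≤ 4 * (13 / 10) ^ 2 := by
    have e1 : χ1 ^ 2 * T ^ 2 ≤ 27 / 4 * 1 :=
      mul_le_mul hχ1 (by nlinarith only [hT, hT1]) (sq_nonneg _) (by norm_num)
    norm_num at e1 ⊢
    linarith
  have hχσ' : χ1 ^ 2 * σ ≤ 27 / 4 := by
    have : χ1 ^ 2 * σ ≤ 27 / 4 * 1 := mul_le_mul hχ1 (hσT1.trans hT1) hσ0 (by norm_num)
    linarith
  have h5 := term_P (L := L) hn2 (by norm_num : (0:ℝ) ≤ 27 / 4) hP hχσ'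
  have h6a := term_eta (K := 13 / 10) (χ1 := χ1) hσ0 hσT (by norm_num) hχ1T hX
  have h6 := term_LX hρ0 (by norm_num : (0:ℝ) ≤ 13 / 10) hL h6a
  have f1 := neg_abs_le (2 * χ1 * Ξ * P)
  have f2 := neg_abs_le (χ1 * Ξ * W)
  have f3 := neg_abs_le (ε * (1 / 2 * σ * χ2 * Ξ ^ 2))
  have f4 := neg_abs_le (ε * (1 / 2 * L * σ * χ2 * Ξ))
  have f5 := neg_abs_le (L * (χ1 * P))
  have f6 := neg_abs_le (L * (1 / 2 * η * σ * χ1))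
  have e6 : 7 / 8 * n2 ≤ χ * n2 := mul_le_mul_of_nonneg_right hχ hn2
  have e7 : 7 / 8 * E2 ≤ χ * E2 := mul_le_mul_of_nonneg_right hχ hE0
  -- collect the terms multiplied by ε
  have g1 : (27 / 80) * n2 + 7 / 16 * E2 - 16 / 7 * (χ1 ^ 2 * Ξ ^ 2 * σ)
      - 4 / 7 * Q * (χ1 ^ 2 * Ξ ^ 2 * σ) - (5 / 2 * (27 / 4) * L ^ 2)
      - 13 / 10 * (ρ * X ^ 2 + |X * D| + L ^ 2 + 1 / 4 * a ^ 2) ≤
      χ * n2 + 2 * χ1 * Ξ * P + χ * E2 + χ1 * Ξ * W + L * (χ1 * P + 1 / 2 * η * σ * χ1) := by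
    rw [mul_add]
    linarith
  have g2 := mul_le_mul_of_nonneg_left g1 hε0.le
  have hεL : 0 ≤ ε * L ^ 2 := by positivity
  have g3 : ε * (χ * n2 + 2 * χ1 * Ξ * P + 1 / 2 * σ * χ2 * Ξ ^ 2 + χ * E2 + χ1 * Ξ * W
        + L * (χ1 * P + 1 / 2 * η * σ * χ1) + 1 / 2 * L * σ * χ2 * Ξ) =
      ε * (χ * n2 + 2 * χ1 * Ξ * P + χ * E2 + χ1 * Ξ * W + L * (χ1 * P + 1 / 2 * η * σ * χ1))
      + ε * (1 / 2 * σ * χ2 * Ξ ^ 2) + ε * (1 / 2 * L * σ * χ2 * Ξ) := by ring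
  have g4 : ε * ((27 / 80) * n2 + 7 / 16 * E2 - 16 / 7 * (χ1 ^ 2 * Ξ ^ 2 * σ)
      - 4 / 7 * Q * (χ1 ^ 2 * Ξ ^ 2 * σ) - (5 / 2 * (27 / 4) * L ^ 2)
      - 13 / 10 * (ρ * X ^ 2 + |X * D| + L ^ 2 + 1 / 4 * a ^ 2)) =
      ε * ((27 / 80) * n2 + 7 / 16 * E2 - 13 / 10 * (ρ * X ^ 2 + |X * D| + 1 / 4 * a ^ 2))
      - ε * (16 / 7 * (χ1 ^ 2 * Ξ ^ 2 * σ)) - ε * (4 / 7 * Q * (χ1 ^ 2 * Ξ ^ 2 * σ))
      - (5 / 2 * (27 / 4) + 13 / 10) * (ε * L ^ 2) := by ring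
  have g5 : ε * ((27 / 80) * n2 + 7 / 16 * E2 - 53 * L ^ 2
        - 13 / 10 * (ρ * X ^ 2 + |X * D| + 1 / 4 * a ^ 2)) =
      ε * ((27 / 80) * n2 + 7 / 16 * E2 - 13 / 10 * (ρ * X ^ 2 + |X * D| + 1 / 4 * a ^ 2))
      - 53 * (ε * L ^ 2) := by ring
  rw [g3, g5]
  rw [g4] at g2
  linarith

theorem finishB {q r ε Δ ρ : ℝ} (hq : 0 < q) (hr : r = 1 + q)
    (hε : ε * (200 * r ^ 2) = 1) (hε0 : 0 < ε) (hΔ : 2500 * r * Δ ^ 2 ≤ q)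
    (hρ1 : q ≤ ρ) (hρr : ρ ≤ r) {n2 m2 E2 a X L D : ℝ}
    (hn2 : 0 ≤ n2) (hm2 : 0 ≤ m2) (hE2 : q * m2 ≤ E2) (hL : L = ρ * X + D)
    (hD1 : D ^ 2 ≤ 2 * Δ ^ 2 * (n2 + a ^ 2)) (hD2 : D ^ 2 ≤ 2 * Δ ^ 2 * (m2 + X ^ 2)) :
    1 / 100 * a ^ 2 + q / 100 * X ^ 2 ≤ 1 / 5 * a ^ 2 + (ρ * X ^ 2 - |X * D|)
      + ε * ((27 / 80) * n2 + 7 / 16 * E2 - 53 * L ^ 2
        - 13 / 10 * (ρ * X ^ 2 + |X * D| + 1 / 4 * a ^ 2)) := by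
  have hr1 : 1 ≤ r := by linarith
  have hr0 : 0 < r := by linarith
  have hρ0 : 0 < ρ := lt_of_lt_of_le hq hρ1
  have hε1 := eps_small hr1 hε hε0
  have h6 := term_XD (X := X) (D := D) hq hρ1
  have h7 := term_LL hL
  have h7' : ε * (53 * L ^ 2) ≤ 53 / 160 * (ρ * X ^ 2) + ε * (265 * D ^ 2) := by
    have e1 : ε * (53 * L ^ 2) ≤ ε * (53 * (5 / 4 * (ρ ^ 2 * X ^ 2) + 5 * D ^ 2)) :=
      mul_le_mul_of_nonneg_left (mul_le_mul_of_nonneg_left h7 (by positivity)) hε0.le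
    have e2 : ε * (53 * (5 / 4 * (ρ ^ 2 * X ^ 2))) ≤ 53 / 160 * (ρ * X ^ 2) := by
      have e3 : ε * ρ ≤ 1 / 200 := by
        have h1 : ε * ρ ≤ ε * r := mul_le_mul_of_nonneg_left hρr hε0.le
        have h2 : ε * r ≤ ε * r ^ 2 := mul_le_mul_of_nonneg_left (by nlinarith only [hr1]) hε0.le
        linarith
      have e4 := mul_le_mul_of_nonneg_right e3 (show 0 ≤ 265 / 4 * (ρ * X ^ 2) by positivity)
      calc ε * (53 * (5 / 4 * (ρ ^ 2 * X ^ 2))) = ε * ρ * (265 / 4 * (ρ * X ^ 2)) := by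
            ring
        _ ≤ 1 / 200 * (265 / 4 * (ρ * X ^ 2)) := e4
        _ = 53 / 160 * (ρ * X ^ 2) := by ring
    have e5 : ε * (53 * (5 / 4 * (ρ ^ 2 * X ^ 2) + 5 * D ^ 2)) =
        ε * (53 * (5 / 4 * (ρ ^ 2 * X ^ 2))) + ε * (265 * D ^ 2) := by ring
    linarith
  have hεXD : ε * |X * D| ≤ 1 / 200 * |X * D| := mul_le_mul_of_nonneg_right hε1 (abs_nonneg _)
  have hερ : ε * (ρ * X ^ 2) ≤ 1 / 200 * (ρ * X ^ 2) :=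
    mul_le_mul_of_nonneg_right hε1 (by positivity)
  have hεa : ε * a ^ 2 ≤ 1 / 200 * a ^ 2 := mul_le_mul_of_nonneg_right hε1 (sq_nonneg _)
  have hρX : q * X ^ 2 ≤ ρ * X ^ 2 := mul_le_mul_of_nonneg_right hρ1 (sq_nonneg _)
  have ha0 : 0 ≤ a ^ 2 := sq_nonneg a
  have hsum : 3 / 20 * a ^ 2 + (1 - 13 / 2000 - 2013 / 4000 - 53 / 160) * (ρ * X ^ 2)
      + ε * (27 / 80 * n2) + ε * (7 / 16 * E2) - (ε * (265 * D ^ 2)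
        + 2013 / 2000 * (D ^ 2 / (2 * q))) ≤ 1 / 5 * a ^ 2 + (ρ * X ^ 2 - |X * D|)
      + ε * ((27 / 80) * n2 + 7 / 16 * E2 - 53 * L ^ 2
        - 13 / 10 * (ρ * X ^ 2 + |X * D| + 1 / 4 * a ^ 2)) := by
    have e0 : ε * ((27 / 80) * n2 + 7 / 16 * E2 - 53 * L ^ 2
        - 13 / 10 * (ρ * X ^ 2 + |X * D| + 1 / 4 * a ^ 2)) =
        ε * (27 / 80 * n2) + ε * (7 / 16 * E2)
        - ε * (53 * L ^ 2) - 13 / 10 * (ε * (ρ * X ^ 2)) - 13 / 10 * (ε * |X * D|)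
        - 13 / 40 * (ε * a ^ 2) := by ring
    rw [e0]
    linarith
  refine le_trans ?_ hsum
  have hbound : ∀ Y : ℝ, 0 ≤ Y → D ^ 2 ≤ 2 * Δ ^ 2 * Y →
      ε * (265 * D ^ 2) + 2013 / 2000 * (D ^ 2 / (2 * q)) ≤
        53 / 250 * (ε * (q / r * Y)) + 2013 / 25000 * (ε * (r * Y)) := by
    intro Y hY hDY
    obtain ⟨e1, e2⟩ := bound_D (C := 2013 / 2000) hq hr0 hε hε0 hΔ (by norm_num) hY hDY
    obtain ⟨e3, _⟩ := bound_D (C := 265) hq hr0 hε hε0 hΔ (by positivity) hY hDY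
    have e4 : 265 / (1250 * r) * (q * Y) = 53 / 250 * (q / r * Y) := by field_simp; ring
    rw [e4] at e3
    have e5 := mul_le_mul_of_nonneg_left e3 hε0.le
    linarith
  rcases le_total q 1 with hq1 | hq1
  · have hb := hbound (n2 + a ^ 2) (by positivity) hD1
    have hY : 0 ≤ ε * (n2 + a ^ 2) := by positivity
    have e1 : ε * (q / r * (n2 + a ^ 2)) ≤ 1 / 2 * (ε * (n2 + a ^ 2)) := by
      have : q / r ≤ 1 / 2 := by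
        rw [div_le_div_iff₀ hr0 (by norm_num)]; linarith
      have := mul_le_mul_of_nonneg_right this hY
      linarith
    have e2 : ε * (r * (n2 + a ^ 2)) ≤ 2 * (ε * (n2 + a ^ 2)) := by
      have : r ≤ 2 := by linarith
      have := mul_le_mul_of_nonneg_right this hY
      linarith
    have e3 : 0 ≤ ε * n2 := by positivity
    have e4 : 0 ≤ ε * E2 := mul_nonneg hε0.le (le_trans (by positivity) hE2)
    have e5 : 0 ≤ ρ * X ^ 2 := by positivity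
    linarith
  · have hb := hbound (m2 + X ^ 2) (by positivity) hD2
    have hY : 0 ≤ ε * (m2 + X ^ 2) := by positivity
    have e1 : ε * (q / r * (m2 + X ^ 2)) ≤ 1 / 2 * (ε * (q * (m2 + X ^ 2))) := by
      have : q / r ≤ 1 / 2 * q := by
        rw [div_le_iff₀ hr0]; nlinarith only [hq1, hr]
      have := mul_le_mul_of_nonneg_right this hY
      linarith
    have e2 : ε * (r * (m2 + X ^ 2)) ≤ 2 * (ε * (q * (m2 + X ^ 2))) := by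
      have : r ≤ 2 * q := by linarith
      have := mul_le_mul_of_nonneg_right this hY
      linarith
    have e3 : ε * (q * m2) ≤ ε * E2 := mul_le_mul_of_nonneg_left hE2 hε0.le
    have e4 : 0 ≤ ε * n2 := by positivity
    have e5 : ε * (q * X ^ 2) ≤ 1 / 200 * (q * X ^ 2) :=
      mul_le_mul_of_nonneg_right hε1 (by positivity)
    have e6 : 0 ≤ ε * (q * m2) := by positivity
    have e7 : 0 ≤ q * X ^ 2 := by positivity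
    linarith

/-- case `S ≤ 1` -/
theorem coreB {q r ε β Δ ρ Q : ℝ} (hq : 0 < q) (hr : r = 1 + q) (hβ : β = 16 * r)
    (hε : ε * (200 * r ^ 2) = 1) (hε0 : 0 < ε) (hΔ0 : 0 ≤ Δ) (hΔ : 2500 * r * Δ ^ 2 ≤ q)
    (hρ1 : q ≤ ρ) (hρ2 : ρ ≤ Q) (hQ : Q = q + Δ)
    {F2 χ χ1 χ2 σ T n2 m2 E2 P W ξ a Ξ X L D η : ℝ}
    (hF : 2 * T ≤ F2) (hT : 0 ≤ T) (hT1 : T ≤ 1) (hΞ : Ξ = ξ + a)
    (hχ : 7 / 8 ≤ χ) (hχ2 : |χ2| ≤ 8 * β) (hχ1 : χ1 ^ 2 ≤ 27 / 4)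
    (hσ0 : 0 ≤ σ) (hσT : σ ≤ T ^ 2) (hn2 : 0 ≤ n2) (hm2 : 0 ≤ m2)
    (hP : P ^ 2 ≤ σ * n2) (hE2 : q * m2 ≤ E2) (hW : W ^ 2 ≤ σ * (Q * E2))
    (hX : X = a + η * T) (hL : L = ρ * X + D)
    (hD1 : D ^ 2 ≤ 2 * Δ ^ 2 * (n2 + a ^ 2)) (hD2 : D ^ 2 ≤ 2 * Δ ^ 2 * (m2 + X ^ 2)) :
    1 / 100 * a ^ 2 + q / 100 * X ^ 2 ≤ F2 * ξ ^ 2 + a ^ 2 + X * L
      + ε * (χ * n2 + 2 * χ1 * Ξ * P + 1 / 2 * σ * χ2 * Ξ ^ 2 + χ * E2 + χ1 * Ξ * W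
        + L * (χ1 * P + 1 / 2 * η * σ * χ1) + 1 / 2 * L * σ * χ2 * Ξ) := by
  have hΔ1 := small_delta hq hr hΔ0 hΔ
  have hρ0 : 0 ≤ ρ := by linarith
  have hE0 : 0 ≤ E2 := le_trans (by positivity) hE2
  have h1 := bracketB hq hr hβ hε hε0 hρ0 (by linarith) (by linarith) hF hT hT1 hΞ hχ hχ2 hχ1 hσ0
    hσT hn2 hP hE0 hW hX hL
  have h2 := finishB hq hr hε hε0 hΔ hρ1 (by linarith) hn2 hm2 hE2 hL hD1 hD2
  have hXL : X * L = ρ * X ^ 2 + X * D := by rw [hL]; ring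
  have hXD := neg_abs_le (X * D)
  rw [hXL]
  linarith

end Run7.h350
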