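import Pool.Agent.Run7.h350.Func
import Pool.Agent.Run7.h350.Core
import Pool.Agent.Run7.h350.Chi

/-! The explicit Lyapunov density. -/

open Set Filter Topology

namespace Run7.h350

variable {N : ℕ}

/-- indicator of the leader -/
noncomputable def ka (k i : Fin N) : ℝ := if i = k then 1 else 0

/-- indicator of the community -/
noncomputable def al (A : Finset (Fin N)) (i : Fin N) : ℝ := if i ∈ A then 1 else 0

theorem sum_ka (k : Fin N) (f : Fin N → ℝ) : ∑ j, ka k j * f j = f k := by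
  simp [ka]

theorem sum_ka' (k : Fin N) (f : Fin N → ℝ) : ∑ j, ka j k * f j = f k := by
  simp [ka]

theorem sum_al (A : Finset (Fin N)) (f : Fin N → ℝ) : ∑ j, al A j * f j = ∑ j ∈ A, f j := by
  simp [al]

noncomputable def Tt (A : Finset (Fin N)) (s : Fin N → ℝ) : ℝ := ∑ j ∈ A, s j

noncomputable def Sg (A : Finset (Fin N)) (s : Fin N → ℝ) : ℝ := ∑ j ∈ A, s j ^ 2

noncomputable def zz (k : Fin N) (A : Finset (Fin N)) (s : Fin N → ℝ) : ℝ := s k + Tt A s - 1

noncomputable def Hc (k : Fin N) (A : Finset (Fin N)) (ε β : ℝ) (s : Fin N → ℝ) : ℝ :=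
  lead (s k) + 1 / 2 * Tt A s ^ 2 + 1 / 2 * ε * (Sg A s * chi β (zz k A s))

noncomputable def hc (k : Fin N) (A : Finset (Fin N)) (ε β : ℝ) (i : Fin N) (s : Fin N → ℝ) : ℝ :=
  ka k i * lead1 (s k) + al A i * (Tt A s + ε * (s i * chi β (zz k A s)))
    + (ka k i + al A i) * (1 / 2 * ε * (Sg A s * chi1 β (zz k A s)))

noncomputable def hhc (k : Fin N) (A : Finset (Fin N)) (ε β : ℝ) (i j : Fin N)
    (s : Fin N → ℝ) : ℝ :=
  ka k i * lead2 (s k) * ka k j + al A i * al A j + ε * al A i * chi β (zz k A s) * ka j i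
    + ε * al A i * s i * chi1 β (zz k A s) * (ka k j + al A j)
    + ε * (ka k i + al A i) * chi1 β (zz k A s) * (al A j * s j)
    + 1 / 2 * ε * (ka k i + al A i) * (Sg A s * chi2 β (zz k A s)) * (ka k j + al A j)

/-- contraction of the Hessian with a vector -/
theorem hhc_sum (k : Fin N) (A : Finset (Fin N)) (ε β : ℝ) (i : Fin N) (s v : Fin N → ℝ) :
    ∑ j, hhc k A ε β i j s * v j =
      ka k i * lead2 (s k) * v k + al A i * (∑ j ∈ A, v j)
      + ε * al A i * chi β (zz k A s) * v i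
      + ε * al A i * s i * chi1 β (zz k A s) * (v k + ∑ j ∈ A, v j)
      + ε * (ka k i + al A i) * chi1 β (zz k A s) * (∑ j ∈ A, s j * v j)
      + 1 / 2 * ε * (ka k i + al A i) * (Sg A s * chi2 β (zz k A s)) * (v k + ∑ j ∈ A, v j) := by
  have h1 := sum_ka k v
  have h2 := sum_al A v
  have h3 := sum_ka' i v
  have h4 := sum_al A (fun j => s j * v j)
  rw [← h1, ← h2, ← h4]
  have h5 : v i = ∑ j, ka j i * v j := h3.symm
  rw [h5]
  rw [← Finset.sum_add_distrib]
  simp only [Finset.mul_sum]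
  rw [← Finset.sum_add_distrib, ← Finset.sum_add_distrib, ← Finset.sum_add_distrib,
    ← Finset.sum_add_distrib, ← Finset.sum_add_distrib]
  apply Finset.sum_congr rfl
  intro j _
  unfold hhc
  ring

theorem Tt_hasFDeriv (A : Finset (Fin N)) (s : Fin N → ℝ) :
    HasFDerivAt (Tt A) (∑ j ∈ A, (ContinuousLinearMap.proj j : (Fin N → ℝ) →L[ℝ] ℝ)) s := by
  unfold Tt
  exact HasFDerivAt.fun_sum fun j _ => hasFDerivAt_apply j s

theorem Sg_hasFDeriv (A : Finset (Fin N)) (s : Fin N → ℝ) :
    HasFDerivAt (Sg A)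
      (∑ j ∈ A, (2 * s j) • (ContinuousLinearMap.proj j : (Fin N → ℝ) →L[ℝ] ℝ)) s := by
  unfold Sg
  apply HasFDerivAt.fun_sum
  intro j _
  have := (hasFDerivAt_apply (𝕜 := ℝ) j s).pow 2
  refine this.congr_fderiv ?_
  ext v
  simp

theorem zz_hasFDeriv (k : Fin N) (A : Finset (Fin N)) (s : Fin N → ℝ) :
    HasFDerivAt (zz k A) ((ContinuousLinearMap.proj k : (Fin N → ℝ) →L[ℝ] ℝ) +
      ∑ j ∈ A, (ContinuousLinearMap.proj j : (Fin N → ℝ) →L[ℝ] ℝ)) s := by
  unfold zz
  exact ((hasFDerivAt_apply k s).add (Tt_hasFDeriv A s)).sub_const 1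

theorem hc_hasFDeriv (k : Fin N) (A : Finset (Fin N)) (ε : ℝ) {β : ℝ} (hβ : β ≠ 0) (i : Fin N)
    {s : Fin N → ℝ} (hs : 0 < s k) :
    HasFDerivAt (hc k A ε β i)
      (∑ j, hhc k A ε β i j s • (ContinuousLinearMap.proj j : (Fin N → ℝ) →L[ℝ] ℝ)) s := by
  have hT := Tt_hasFDeriv A s
  have hS := Sg_hasFDeriv A s
  have hz := zz_hasFDeriv k A s
  have hl := (lead1_hasDeriv hs).comp_hasFDerivAt s (hasFDerivAt_apply (𝕜 := ℝ) k s)
  have hc0 := (chi_hasDeriv hβ (zz k A s)).comp_hasFDerivAt s hz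
  have hc1 := (chi1_hasDeriv (β := β) (zz k A s)).comp_hasFDerivAt s hz
  have hi := hasFDerivAt_apply (𝕜 := ℝ) i s
  have h1 := ((hl.const_mul (ka k i)).add ((hT.add ((hi.mul hc0).const_mul ε)).const_mul
    (al A i))).add (((hS.mul hc1).const_mul (1 / 2 * ε)).const_mul (ka k i + al A i))
  refine h1.congr_fderiv ?_
  ext v
  have h2 := hhc_sum k A ε β i s v
  simp only [add_apply, smul_apply, sum_apply, ContinuousLinearMap.proj_apply, smul_eq_mul,
    Function.comp_apply]
  rw [h2]
  have h3 : ∑ j ∈ A, 2 * s j * v j = 2 * ∑ j ∈ A, s j * v j := by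
    rw [Finset.mul_sum]; apply Finset.sum_congr rfl; intro j _; ring
  rw [h3]
  ring

theorem Hc_hasFDeriv {k : Fin N} {A : Finset (Fin N)} (ε : ℝ) {β : ℝ} (hβ : β ≠ 0)
    {s : Fin N → ℝ} (hs : 0 < s k) :
    HasFDerivAt (Hc k A ε β)
      (∑ j, hc k A ε β j s • (ContinuousLinearMap.proj j : (Fin N → ℝ) →L[ℝ] ℝ)) s := by
  have hT := Tt_hasFDeriv A s
  have hS := Sg_hasFDeriv A s
  have hz := zz_hasFDeriv k A s
  have hl := (lead_hasDeriv hs).comp_hasFDerivAt s (hasFDerivAt_apply (𝕜 := ℝ) k s)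
  have hc0 := (chi_hasDeriv hβ (zz k A s)).comp_hasFDerivAt s hz
  have h1 := (hl.add ((hT.pow 2).const_mul (1 / 2))).add ((hS.mul hc0).const_mul (1 / 2 * ε))
  refine h1.congr_fderiv ?_
  ext v
  simp only [add_apply, smul_apply, sum_apply, ContinuousLinearMap.proj_apply, smul_eq_mul,
    Function.comp_apply]
  have h3 : ∑ j ∈ A, 2 * s j * v j = 2 * ∑ j ∈ A, s j * v j := by
    rw [Finset.mul_sum]; apply Finset.sum_congr rfl; intro j _; ring
  rw [h3]
  have h4 : ∑ j, hc k A ε β j s * v j = lead1 (s k) * (∑ j, ka k j * v j)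
      + Tt A s * (∑ j, al A j * v j) + ε * chi β (zz k A s) * (∑ j, al A j * (s j * v j))
      + 1 / 2 * ε * (Sg A s * chi1 β (zz k A s)) * (∑ j, ka k j * v j)
      + 1 / 2 * ε * (Sg A s * chi1 β (zz k A s)) * (∑ j, al A j * v j) := by
    simp only [Finset.mul_sum]
    rw [← Finset.sum_add_distrib, ← Finset.sum_add_distrib, ← Finset.sum_add_distrib,
      ← Finset.sum_add_distrib]
    apply Finset.sum_congr rfl
    intro j _
    unfold hc
    ring
  rw [h4, sum_ka, sum_al, sum_al]
  simp only [Nat.add_one_sub_one, pow_one]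
  ring

theorem Tt_continuous (A : Finset (Fin N)) : Continuous (Tt A) := by
  unfold Tt; fun_prop

theorem Sg_continuous (A : Finset (Fin N)) : Continuous (Sg A) := by
  unfold Sg; fun_prop

theorem zz_continuous (k : Fin N) (A : Finset (Fin N)) : Continuous (zz k A) := by
  have := Tt_continuous A
  unfold zz; fun_prop

theorem hhc_continuousOn (k : Fin N) (A : Finset (Fin N)) (ε β : ℝ) (i j : Fin N) :
    ContinuousOn (hhc k A ε β i j) {s | 0 < s k} := by
  have hz := zz_continuous k A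
  have h0 : Continuous fun s => chi β (zz k A s) := (chi_continuous β).comp hz
  have h1 : Continuous fun s => chi1 β (zz k A s) := (chi1_continuous β).comp hz
  have h2 : Continuous fun s => chi2 β (zz k A s) := (chi2_continuous β).comp hz
  have hS := Sg_continuous A
  have hl : ContinuousOn (fun s : Fin N → ℝ => lead2 (s k)) {s | 0 < s k} :=
    lead2_continuousOn.comp (continuous_apply k).continuousOn fun s hs => hs
  unfold hhc
  apply ContinuousOn.add
  · apply ContinuousOn.add
    · apply ContinuousOn.add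
      · apply ContinuousOn.add
        · apply ContinuousOn.add
          · exact (continuousOn_const.mul hl).mul continuousOn_const
          · exact continuousOn_const
        · exact (Continuous.continuousOn (by fun_prop))
      · exact (Continuous.continuousOn (by fun_prop))
    · exact (Continuous.continuousOn (by fun_prop))
  · exact (Continuous.continuousOn (by fun_prop))

end Run7.h350
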