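import Pool.Agent.Run7.h350.Par

open Set Filter Topology MeasureTheory
open scoped ContDiff Laplacian

namespace Run7.h350

variable {n : ℕ} {Ω : Set (EuclideanSpace ℝ (Fin n))} {ρ : EuclideanSpace ℝ (Fin n) → ℝ}

/-- the exponential weight. -/
noncomputable def wt (κ : ℝ) (ρ : EuclideanSpace ℝ (Fin n) → ℝ) (x : EuclideanSpace ℝ (Fin n)) : ℝ :=
  Real.exp (κ * ρ x)

theorem wt_contDiff (hΩ : SmoothDomain Ω ρ) (κ : ℝ) : ContDiff ℝ ∞ (wt κ ρ) := by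
  unfold wt
  exact (contDiff_const.mul hΩ.smooth).exp

theorem wt_fderiv (hΩ : SmoothDomain Ω ρ) (κ : ℝ) (x v : EuclideanSpace ℝ (Fin n)) :
    fderiv ℝ (wt κ ρ) x v = wt κ ρ x * (κ * fderiv ℝ ρ x v) := by
  have h1 : HasFDerivAt (fun x => κ * ρ x) (κ • fderiv ℝ ρ x) x :=
    (hΩ.differentiable x).hasFDerivAt.const_mul κ
  have h2 : HasFDerivAt (wt κ ρ) (Real.exp (κ * ρ x) • (κ • fderiv ℝ ρ x)) x := h1.exp
  rw [h2.fderiv]
  simp [wt]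

/-- all the domain constants that are used. -/
theorem exists_consts (hΩ : SmoothDomain Ω ρ) :
    ∃ κ em B1 B2 Dm P2 C p : ℝ, 0 < κ ∧ 0 < em ∧ em ≤ 1 ∧ 0 ≤ B1 ∧ 0 ≤ B2 ∧ 0 ≤ Dm ∧ 0 ≤ P2 ∧
      0 ≤ C ∧ 0 < p ∧
      (∀ x ∈ closure Ω, em ≤ wt κ ρ x ∧ wt κ ρ x ≤ 1 ∧ ‖fderiv ℝ (wt κ ρ) x‖ ≤ B1 ∧
        (∀ e : EuclideanSpace ℝ (Fin n), |iteratedFDeriv ℝ 2 (wt κ ρ) x ![e, e]| ≤ B2 * ‖e‖ ^ 2) ∧
        (∀ e : EuclideanSpace ℝ (Fin n), |iteratedFDeriv ℝ 2 ρ x ![e, e]| ≤ P2 * ‖e‖ ^ 2) ∧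
        - C ≤ ρ x) ∧
      (∀ x ∈ closure Ω, ∀ y ∈ closure Ω, ‖x - y‖ ≤ Dm) ∧
      (∀ x ∈ frontier Ω, p ≤ ‖gradient ρ x‖) ∧
      (∀ x ∈ frontier Ω, ∀ y ∈ closure Ω,
        ‖x - y‖ ^ 2 ≤ 2 * fderiv ℝ ρ x (x - y) + κ * ‖x - y‖ ^ 2 * ‖gradient ρ x‖ ^ 2) := by
  obtain ⟨CT, hCT, hT⟩ := hΩ.exists_taylor
  obtain ⟨p, hp, hpl⟩ := hΩ.exists_grad_lower
  set κ := (2 * CT + 1) / p ^ 2 with hκ
  have hκ0 : 0 < κ := by positivity
  have hK := hΩ.isCompact_closure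
  -- bounds
  have hw := wt_contDiff hΩ κ
  obtain ⟨B1, hB1⟩ := hK.exists_bound_of_continuousOn (f := fderiv ℝ (wt κ ρ))
    (hw.continuous_fderiv (by simp)).continuousOn
  obtain ⟨B2, hB2⟩ := hK.exists_bound_of_continuousOn (f := fun x => iteratedFDeriv ℝ 2 (wt κ ρ) x)
    (hw.continuous_iteratedFDeriv (m := 2) (by norm_cast)).continuousOn
  obtain ⟨P2, hP2⟩ := hK.exists_bound_of_continuousOn (f := fun x => iteratedFDeriv ℝ 2 ρ x)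
    (hΩ.smooth.continuous_iteratedFDeriv (m := 2) (by norm_cast)).continuousOn
  obtain ⟨C, hC⟩ := hK.exists_bound_of_continuousOn (f := ρ) hΩ.continuous.continuousOn
  obtain ⟨Dm, hDm⟩ := hK.isBounded.subset_closedBall (0 : EuclideanSpace ℝ (Fin n))
  have hne : (closure Ω).Nonempty := hΩ.connected.nonempty.mono subset_closure
  have hquad : ∀ (g : EuclideanSpace ℝ (Fin n) → ℝ) (B : ℝ) (x : EuclideanSpace ℝ (Fin n)),
      ‖iteratedFDeriv ℝ 2 g x‖ ≤ B → ∀ e : EuclideanSpace ℝ (Fin n),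
      |iteratedFDeriv ℝ 2 g x ![e, e]| ≤ max B 0 * ‖e‖ ^ 2 := by
    intro g B x hB e
    have h1 := (iteratedFDeriv ℝ 2 g x).le_opNorm ![e, e]
    rw [Real.norm_eq_abs] at h1
    have h2 : ∏ i, ‖(![e, e] : Fin 2 → EuclideanSpace ℝ (Fin n)) i‖ = ‖e‖ ^ 2 := by
      simp [Fin.prod_univ_two, sq]
    rw [h2] at h1
    refine h1.trans ?_
    have h3 : ‖iteratedFDeriv ℝ 2 g x‖ ≤ max B 0 := hB.trans (le_max_left _ _)
    gcongr
  refine ⟨κ, Real.exp (-(κ * max C 0)), max B1 0, max B2 0, 2 * max Dm 0, max P2 0, max C 0, p,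
    hκ0, Real.exp_pos _, ?_, le_max_right _ _, le_max_right _ _, by positivity,
    le_max_right _ _, le_max_right _ _, hp, ?_, ?_, hpl, ?_⟩
  · rw [Real.exp_le_one_iff]
    have : 0 ≤ max C 0 := le_max_right _ _
    nlinarith
  · intro x hx
    have hρx : ρ x ≤ 0 := hΩ.closure_le hx
    have hρC : -(max C 0) ≤ ρ x := by
      have h1 := hC x hx
      rw [Real.norm_eq_abs, abs_le] at h1
      have := le_max_left C 0
      linarith [h1.1]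
    refine ⟨?_, ?_, (hB1 x hx).trans (le_max_left _ _), hquad _ _ _ (hB2 x hx),
      hquad _ _ _ (hP2 x hx), hρC⟩
    · unfold wt
      rw [Real.exp_le_exp]
      nlinarith
    · unfold wt
      rw [Real.exp_le_one_iff]
      nlinarith
  · intro x hx y hy
    have h1 := hDm hx
    have h2 := hDm hy
    rw [mem_closedBall_zero_iff] at h1 h2
    calc ‖x - y‖ ≤ ‖x‖ + ‖y‖ := norm_sub_le _ _
      _ ≤ Dm + Dm := add_le_add h1 h2
      _ ≤ 2 * max Dm 0 := by linarith [le_max_left Dm 0]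
  · intro x hx y hy
    have h1 := hT x hx y hy
    have h2 := hpl x hx
    have h3 : κ * p ^ 2 = 2 * CT + 1 := by
      rw [hκ]; field_simp
    have h4 : κ * p ^ 2 ≤ κ * ‖gradient ρ x‖ ^ 2 := by
      gcongr
    have h5 : 0 ≤ ‖x - y‖ ^ 2 := by positivity
    nlinarith [mul_le_mul_of_nonneg_left h4 h5]

/-- Parseval-type inequality for the standard coordinates. -/
theorem clm_sq_le (L : EuclideanSpace ℝ (Fin n) →L[ℝ] ℝ) (v : EuclideanSpace ℝ (Fin n)) :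
    (L v) ^ 2 ≤ (∑ k, (L (EuclideanSpace.basisFun (Fin n) ℝ k)) ^ 2) * ‖v‖ ^ 2 := by
  have h1 : L v = ∑ k, v k * L (EuclideanSpace.basisFun (Fin n) ℝ k) := by
    conv_lhs => rw [← (EuclideanSpace.basisFun (Fin n) ℝ).sum_repr v]
    simp
  have h2 : ‖v‖ ^ 2 = ∑ k, (v k) ^ 2 := by
    rw [EuclideanSpace.norm_sq_eq]
    simp
  rw [h1, h2, mul_comm]
  exact Finset.sum_mul_sq_le_sq_mul_sq _ _ _

end Run7.h350
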