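import Pool.Agent.Run7.h350.Dom

open Set Filter Topology MeasureTheory
open scoped ContDiff Laplacian

namespace Run7.h350

/-- `g` has derivative `g1` near `0`, and `g1` has derivative `g2` at `0`. -/
def HasD2 (g g1 : ℝ → ℝ) (g2 : ℝ) : Prop :=
  (∀ᶠ s in 𝓝 (0 : ℝ), HasDerivAt g (g1 s) s) ∧ HasDerivAt g1 g2 0

namespace HasD2

variable {g g1 h h1 : ℝ → ℝ} {g2 h2 : ℝ}

theorem self (H : HasD2 g g1 g2) : HasDerivAt g (g1 0) 0 := H.1.self_of_nhds

theorem add (H : HasD2 g g1 g2) (K : HasD2 h h1 h2) :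
    HasD2 (fun s => g s + h s) (fun s => g1 s + h1 s) (g2 + h2) := by
  refine ⟨?_, H.2.add K.2⟩
  filter_upwards [H.1, K.1] with s a b
  exact a.add b

theorem sub (H : HasD2 g g1 g2) (K : HasD2 h h1 h2) :
    HasD2 (fun s => g s - h s) (fun s => g1 s - h1 s) (g2 - h2) := by
  refine ⟨?_, H.2.sub K.2⟩
  filter_upwards [H.1, K.1] with s a b
  exact a.sub b

theorem const_mul (c : ℝ) (H : HasD2 g g1 g2) :
    HasD2 (fun s => c * g s) (fun s => c * g1 s) (c * g2) := by
  refine ⟨?_, H.2.const_mul c⟩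
  filter_upwards [H.1] with s a
  exact a.const_mul c

theorem const (c : ℝ) : HasD2 (fun _ => c) (fun _ => 0) 0 :=
  ⟨Eventually.of_forall fun s => hasDerivAt_const s c, hasDerivAt_const _ _⟩

theorem mul (H : HasD2 g g1 g2) (K : HasD2 h h1 h2) :
    HasD2 (fun s => g s * h s) (fun s => g1 s * h s + g s * h1 s)
      (g2 * h 0 + 2 * (g1 0 * h1 0) + g 0 * h2) := by
  refine ⟨?_, ?_⟩
  · filter_upwards [H.1, K.1] with s a b
    exact a.mul b
  · exact ((H.2.mul K.self).add (H.self.mul K.2)).congr_deriv (by ring)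

/-- second order condition at a local minimum. -/
theorem nonneg_of_min (H : HasD2 g g1 g2) (hmin : IsLocalMin g 0) : 0 ≤ g2 := by
  by_contra hneg
  push Not at hneg
  have h0 : g1 0 = 0 := hmin.hasDerivAt_eq_zero H.self
  have hs := H.2.tendsto_slope_zero_right
  simp only [zero_add, h0, sub_zero, smul_eq_mul] at hs
  have hev := hs.eventually (gt_mem_nhds hneg)
  have hev' : ∀ᶠ s in 𝓝[>] (0:ℝ), g1 s < 0 := by
    filter_upwards [hev, self_mem_nhdsWithin] with s hs hs0
    have hs0' : (0 : ℝ) < s := hs0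
    have := mul_neg_of_pos_of_neg hs0' hs
    rwa [← mul_assoc, mul_inv_cancel₀ hs0'.ne', one_mul] at this
  obtain ⟨ε, hε, hball⟩ := mem_nhdsGT_iff_exists_Ioo_subset.1 hev'
  obtain ⟨δ, hδ, hball2⟩ := Metric.eventually_nhds_iff.1 (H.1.and hmin)
  have hε' : (0:ℝ) < ε := hε
  set t := min ε δ / 2 with ht
  have ht0 : 0 < t := by positivity
  have htε : t < ε := by
    have := min_le_left ε δ
    have h3 : 0 < min ε δ := by positivity
    linarith
  have htδ : t < δ := by
    have := min_le_right ε δ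
    have h3 : 0 < min ε δ := by positivity
    linarith
  have hd : ∀ s ∈ Icc 0 t, HasDerivAt g (g1 s) s := by
    intro s hs
    apply (hball2 (y := s) _).1
    rw [Real.dist_eq, sub_zero, abs_of_nonneg hs.1]
    linarith [hs.2]
  obtain ⟨c, hc, hc2⟩ := exists_hasDerivAt_eq_slope g g1 ht0
    (fun s hs => (hd s hs).continuousAt.continuousWithinAt)
    (fun s hs => hd s ⟨hs.1.le, hs.2.le⟩)
  have hcneg : g1 c < 0 := hball ⟨hc.1, by linarith [hc.2]⟩
  rw [hc2, sub_zero, div_neg_iff] at hcneg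
  have hgt : g 0 ≤ g t := by
    apply (hball2 (y := t) _).2
    rw [Real.dist_eq, sub_zero, abs_of_nonneg ht0.le]
    exact htδ
  rcases hcneg with h | h <;> linarith [h.1, h.2]

theorem nonpos_of_max (H : HasD2 g g1 g2) (hmax : IsLocalMax g 0) : g2 ≤ 0 := by
  have h1 := (H.const_mul (-1)).nonneg_of_min (by
    filter_upwards [hmax] with s hs
    linarith)
  linarith

end HasD2

variable {n : ℕ}

/-- second derivative of a `C²` function along a line. -/
theorem hasD2_line {f : EuclideanSpace ℝ (Fin n) → ℝ} {x : EuclideanSpace ℝ (Fin n)}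
    (hf : ContDiffAt ℝ 2 f x) (e : EuclideanSpace ℝ (Fin n)) :
    HasD2 (fun s : ℝ => f (x + s • e)) (fun s => fderiv ℝ f (x + s • e) e)
      (iteratedFDeriv ℝ 2 f x ![e, e]) := by
  have hline : ∀ s : ℝ, HasDerivAt (fun s : ℝ => x + s • e) e s := by
    intro s
    simpa using ((hasDerivAt_id s).smul_const e).const_add x
  have hcl : Tendsto (fun s : ℝ => x + s • e) (𝓝 0) (𝓝 x) := by
    have := (hline 0).continuousAt.tendsto
    simpa using this
  constructor
  · have h1 : ∀ᶠ y in 𝓝 x, DifferentiableAt ℝ f y :=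
      (hf.eventually (by simp)).mono (fun y hy => hy.differentiableAt (by simp))
    filter_upwards [hcl.eventually h1] with s hs
    exact hs.hasFDerivAt.comp_hasDerivAt s (hline s)
  · have h2 : DifferentiableAt ℝ (fderiv ℝ f) x :=
      (hf.fderiv_right (m := 1) (by norm_num)).differentiableAt (by simp)
    rw [iteratedFDeriv_two_apply]
    have h3 : HasFDerivAt (fderiv ℝ f) (fderiv ℝ (fderiv ℝ f) x) (x + (0:ℝ) • e) := by
      simpa using h2.hasFDerivAt
    have h4 := h3.comp_hasDerivAt (0:ℝ) (hline 0)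
    have h5 := h4.clm_apply (hasDerivAt_const (0:ℝ) e)
    simpa using h5

/-- the Laplacian as the sum of second line derivatives in the directions of an orthonormal
basis. -/
theorem laplacian_eq_sum {ι : Type*} [Fintype ι] (f : EuclideanSpace ℝ (Fin n) → ℝ)
    (x : EuclideanSpace ℝ (Fin n)) (b : OrthonormalBasis ι ℝ (EuclideanSpace ℝ (Fin n))) :
    Δ f x = ∑ k, iteratedFDeriv ℝ 2 f x ![b k, b k] := by
  rw [InnerProductSpace.laplacian_eq_iteratedFDeriv_orthonormalBasis f b]

end Run7.h350
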