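import Mathlib

/-!
Basic definitions: bounded domains with smooth boundary, the Neumann condition,
steady states and trajectories of the N-species competition system.
-/

open Set Filter Topology MeasureTheory
open scoped ContDiff Laplacian

namespace Run7.h350

/-- `Ω` is a bounded domain with smooth boundary: the bounded connected sublevel set of a smooth
defining function `ρ` whose gradient does not vanish on `{ρ = 0}`. The outer normal at a
boundary point `x` is a positive multiple of the gradient of `ρ` at `x`. -/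
structure SmoothDomain {n : ℕ} (Ω : Set (EuclideanSpace ℝ (Fin n)))
    (ρ : EuclideanSpace ℝ (Fin n) → ℝ) : Prop where
  smooth : ContDiff ℝ ∞ ρ
  eq_sublevel : Ω = {x | ρ x < 0}
  connected : IsConnected Ω
  bounded : Bornology.IsBounded Ω
  grad_ne : ∀ x, ρ x = 0 → gradient ρ x ≠ 0

/-- `f` is of class `C¹` up to the boundary of `Ω` and its normal derivative vanishes there. -/
def NeumannC1 {n : ℕ} (Ω : Set (EuclideanSpace ℝ (Fin n)))
    (ρ f : EuclideanSpace ℝ (Fin n) → ℝ) : Prop :=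
  ∃ G : EuclideanSpace ℝ (Fin n) → (EuclideanSpace ℝ (Fin n) →L[ℝ] ℝ),
    ContinuousOn G (closure Ω) ∧
    (∀ x ∈ closure Ω, HasFDerivWithinAt f (G x) (closure Ω) x) ∧
    ∀ x ∈ frontier Ω, G x (gradient ρ x) = 0

/-- `θ` is a positive classical solution of `d Δθ + θ (m - θ) = 0` in `Ω` with Neumann boundary
condition. -/
structure IsSteady {n : ℕ} (Ω : Set (EuclideanSpace ℝ (Fin n)))
    (ρ m : EuclideanSpace ℝ (Fin n) → ℝ) (d : ℝ) (θ : EuclideanSpace ℝ (Fin n) → ℝ) : Prop where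
  pos : ∀ x ∈ Ω, 0 < θ x
  neumann : NeumannC1 Ω ρ θ
  smooth : ContDiffOn ℝ 2 θ Ω
  pde : ∀ x ∈ Ω, d * Δ θ x + θ x * (m x - θ x) = 0

/-- `u` is a nonnegative classical solution of the competition system on the time interval `I`
(continuous on `I × closure Ω`; for `t` in the interior of `I`, differentiable in time with
continuous time derivative up to the boundary, `C²` in `Ω`, `C¹` up to the boundary, with the
Neumann boundary condition). -/
structure IsTrajectory {n N : ℕ} (I : Set ℝ) (Ω : Set (EuclideanSpace ℝ (Fin n)))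
    (ρ m : EuclideanSpace ℝ (Fin n) → ℝ) (d : Fin N → ℝ)
    (u : Fin N → ℝ → EuclideanSpace ℝ (Fin n) → ℝ) : Prop where
  cont : ∀ i, ContinuousOn (fun p : ℝ × EuclideanSpace ℝ (Fin n) => u i p.1 p.2)
    (I ×ˢ closure Ω)
  nonneg : ∀ i, ∀ t ∈ I, ∀ x ∈ closure Ω, 0 ≤ u i t x
  neumann : ∀ i, ∀ t ∈ interior I, NeumannC1 Ω ρ (u i t)
  smooth : ∀ i, ∀ t ∈ interior I, ContDiffOn ℝ 2 (u i t) Ω
  time_diff : ∀ i, ∀ t ∈ interior I, ∀ x ∈ closure Ω, DifferentiableAt ℝ (fun s => u i s x) t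
  time_cont : ∀ i, ContinuousOn
    (fun p : ℝ × EuclideanSpace ℝ (Fin n) => deriv (fun s => u i s p.2) p.1)
    (interior I ×ˢ closure Ω)
  pde : ∀ i, ∀ t ∈ interior I, ∀ x ∈ Ω,
    deriv (fun s => u i s x) t = d i * Δ (u i t) x + u i t x * (m x - ∑ j, u j t x)

/-- The equilibria: for `k < N` the state with `θ k` in slot `k` and zero elsewhere; for `k = N`
the zero state. -/
noncomputable def equil {n N : ℕ} (θ : Fin N → EuclideanSpace ℝ (Fin n) → ℝ) (k : Fin (N + 1))
    (i : Fin N) (x : EuclideanSpace ℝ (Fin n)) : ℝ := if i.castSucc = k then θ i x else 0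

/-- `u` converges to the state `w` along the filter `l`, uniformly on the closure of `Ω`. -/
def ConvergesTo {n N : ℕ} (l : Filter ℝ) (Ω : Set (EuclideanSpace ℝ (Fin n)))
    (u : Fin N → ℝ → EuclideanSpace ℝ (Fin n) → ℝ)
    (w : Fin N → EuclideanSpace ℝ (Fin n) → ℝ) : Prop :=
  ∀ i, TendstoUniformlyOn (u i) (w i) l (closure Ω)

/-- The equilibria, in the order `E_1, ..., E_N, 0`, form a Morse decomposition. -/
def IsMorse {n N : ℕ} (Ω : Set (EuclideanSpace ℝ (Fin n)))
    (ρ m : EuclideanSpace ℝ (Fin n) → ℝ) (d : Fin N → ℝ)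
    (θ : Fin N → EuclideanSpace ℝ (Fin n) → ℝ) : Prop :=
  (∀ k, IsTrajectory univ Ω ρ m d (fun i _ => equil θ k i)) ∧
  (∀ k l, k ≠ l → ∃ i, ∃ x ∈ Ω, equil θ k i x ≠ equil θ l i x) ∧
  (∀ u, IsTrajectory (Ici 0) Ω ρ m d u →
      (∃ M, ∀ i, ∀ t ∈ Ici (0 : ℝ), ∀ x ∈ closure Ω, u i t x ≤ M) →
      ∃ k, ConvergesTo atTop Ω u (equil θ k)) ∧
  (∀ u, IsTrajectory univ Ω ρ m d u →
      (∃ M, ∀ i, ∀ t ∈ (univ : Set ℝ), ∀ x ∈ closure Ω, u i t x ≤ M) →
      (∃ k, ∀ i t, ∀ x ∈ closure Ω, u i t x = equil θ k i x) ∨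
      ∃ k l, k < l ∧ ConvergesTo atTop Ω u (equil θ k) ∧ ConvergesTo atBot Ω u (equil θ l))

end Run7.h350
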