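import Pool.Agent.Run7.h350.Defs

open Set Filter Topology MeasureTheory
open scoped ContDiff Laplacian

namespace Run7.h350

variable {n : ℕ} {Ω : Set (EuclideanSpace ℝ (Fin n))} {ρ : EuclideanSpace ℝ (Fin n) → ℝ}

theorem fderiv_eq_inner {f : EuclideanSpace ℝ (Fin n) → ℝ} (x v : EuclideanSpace ℝ (Fin n)) :
    fderiv ℝ f x v = inner ℝ (gradient f x) v := by
  simp [gradient]

namespace SmoothDomain

theorem differentiable (h : SmoothDomain Ω ρ) : Differentiable ℝ ρ :=
  h.smooth.differentiable (by simp)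

theorem continuous (h : SmoothDomain Ω ρ) : Continuous ρ := h.smooth.continuous

theorem isOpen (h : SmoothDomain Ω ρ) : IsOpen Ω := by
  rw [h.eq_sublevel]
  exact isOpen_lt h.continuous continuous_const

theorem mem_iff (h : SmoothDomain Ω ρ) {x : EuclideanSpace ℝ (Fin n)} : x ∈ Ω ↔ ρ x < 0 := by
  rw [h.eq_sublevel]; rfl

theorem closure_le (h : SmoothDomain Ω ρ) {x : EuclideanSpace ℝ (Fin n)} (hx : x ∈ closure Ω) :
    ρ x ≤ 0 := by
  have : closure Ω ⊆ {x | ρ x ≤ 0} := by
    apply closure_minimal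
    · intro y hy; exact (h.mem_iff.1 hy).le
    · exact isClosed_le h.continuous continuous_const
  exact this hx

theorem frontier_eq_zero (h : SmoothDomain Ω ρ) {x : EuclideanSpace ℝ (Fin n)}
    (hx : x ∈ frontier Ω) : ρ x = 0 := by
  have h1 := h.closure_le hx.1
  have h2 : x ∉ Ω := by
    have := hx.2
    rwa [h.isOpen.interior_eq] at this
  rw [h.mem_iff] at h2
  linarith [not_lt.1 h2]

theorem mem_or_frontier (h : SmoothDomain Ω ρ) {x : EuclideanSpace ℝ (Fin n)}
    (hx : x ∈ closure Ω) : x ∈ Ω ∨ x ∈ frontier Ω := by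
  by_cases hxx : x ∈ Ω
  · exact Or.inl hxx
  · right
    refine ⟨hx, ?_⟩
    rwa [h.isOpen.interior_eq]

theorem isCompact_closure (h : SmoothDomain Ω ρ) : IsCompact (closure Ω) :=
  h.bounded.isCompact_closure

theorem subset_closure' (_h : SmoothDomain Ω ρ) : Ω ⊆ closure Ω := subset_closure

/-- moving from a boundary point in the direction `-∇ρ` enters the domain. -/
theorem eventually_inward (h : SmoothDomain Ω ρ) {x : EuclideanSpace ℝ (Fin n)}
    (hx : ρ x = 0) : ∀ᶠ s : ℝ in 𝓝[>] 0, x + s • (-(gradient ρ x)) ∈ Ω := by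
  have hg := h.grad_ne x hx
  have hd : HasDerivAt (fun s : ℝ => ρ (x + s • (-(gradient ρ x))))
      (fderiv ℝ ρ x (-(gradient ρ x))) 0 := by
    have h1 : HasDerivAt (fun s : ℝ => x + s • (-(gradient ρ x))) (-(gradient ρ x)) 0 := by
      simpa using ((hasDerivAt_id (0 : ℝ)).smul_const (-(gradient ρ x))).const_add x
    have h2 : HasFDerivAt ρ (fderiv ℝ ρ x) (x + (0 : ℝ) • (-(gradient ρ x))) := by
      simpa using (h.differentiable x).hasFDerivAt
    exact h2.comp_hasDerivAt (0 : ℝ) h1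
  have hneg : fderiv ℝ ρ x (-(gradient ρ x)) < 0 := by
    rw [fderiv_eq_inner, inner_neg_right, real_inner_self_eq_norm_sq]
    have : 0 < ‖gradient ρ x‖ := norm_pos_iff.2 hg
    nlinarith [this]
  have hslope := hd.tendsto_slope_zero_right
  have hev := (hslope.eventually (gt_mem_nhds hneg))
  filter_upwards [hev, self_mem_nhdsWithin] with s hs hs0
  have hs0' : (0 : ℝ) < s := hs0
  rw [h.mem_iff]
  simp only [zero_add, zero_smul, add_zero, hx, sub_zero, smul_eq_mul] at hs
  have := mul_neg_of_pos_of_neg hs0' hs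
  rwa [← mul_assoc, mul_inv_cancel₀ hs0'.ne', one_mul] at this

theorem mem_closure_of_le (h : SmoothDomain Ω ρ) {x : EuclideanSpace ℝ (Fin n)}
    (hx : ρ x ≤ 0) : x ∈ closure Ω := by
  rcases lt_or_eq_of_le hx with h1 | h1
  · exact subset_closure (h.mem_iff.2 h1)
  · rw [mem_closure_iff_frequently]
    have h2 := (h.eventually_inward h1)
    have h3 : Tendsto (fun s : ℝ => x + s • (-(gradient ρ x))) (𝓝[>] 0) (𝓝 x) := by
      have : Tendsto (fun s : ℝ => x + s • (-(gradient ρ x))) (𝓝 0)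
          (𝓝 (x + (0 : ℝ) • (-(gradient ρ x)))) :=
        Continuous.tendsto (by fun_prop) 0
      simp only [zero_smul, add_zero] at this
      exact this.mono_left nhdsWithin_le_nhds
    exact h3.frequently h2.frequently

theorem frontier_iff (h : SmoothDomain Ω ρ) {x : EuclideanSpace ℝ (Fin n)} :
    x ∈ frontier Ω ↔ ρ x = 0 := by
  constructor
  · exact h.frontier_eq_zero
  · intro hx
    refine ⟨h.mem_closure_of_le hx.le, ?_⟩
    rw [h.isOpen.interior_eq, h.mem_iff]
    simp [hx]

theorem isClosed_frontier' (h : SmoothDomain Ω ρ) : IsCompact (frontier Ω) :=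
  h.isCompact_closure.of_isClosed_subset isClosed_frontier frontier_subset_closure

theorem neg_grad_mem_tangent (h : SmoothDomain Ω ρ) {x : EuclideanSpace ℝ (Fin n)}
    (hx : x ∈ frontier Ω) : -(gradient ρ x) ∈ posTangentConeAt (closure Ω) x := by
  apply mem_posTangentConeAt_of_frequently_mem
  exact ((h.eventually_inward (h.frontier_eq_zero hx)).mono
    (fun s hs => subset_closure hs)).frequently

/-- at a boundary minimum over the closure, the derivative in the direction of the outer normal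
is nonpositive. -/
theorem boundary_min (h : SmoothDomain Ω ρ) {x : EuclideanSpace ℝ (Fin n)}
    (hx : x ∈ frontier Ω) {f : EuclideanSpace ℝ (Fin n) → ℝ}
    {f' : EuclideanSpace ℝ (Fin n) →L[ℝ] ℝ} (hf : HasFDerivWithinAt f f' (closure Ω) x)
    (hmin : IsLocalMinOn f (closure Ω) x) : f' (gradient ρ x) ≤ 0 := by
  have := hmin.hasFDerivWithinAt_nonneg hf (h.neg_grad_mem_tangent hx)
  simp only [map_neg] at this
  linarith

/-- a point in the closure has a lower bound for the outward component towards other points. -/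
theorem exists_taylor (h : SmoothDomain Ω ρ) : ∃ C : ℝ, 0 ≤ C ∧ ∀ x ∈ frontier Ω,
    ∀ y ∈ closure Ω, -(C * ‖x - y‖ ^ 2) ≤ fderiv ℝ ρ x (x - y) := by
  obtain ⟨R, hR⟩ := h.isCompact_closure.isBounded.subset_closedBall (0 : EuclideanSpace ℝ (Fin n))
  have hcd : ContDiff ℝ 1 (fderiv ℝ ρ) := h.smooth.fderiv_right (by
    norm_cast)
  have hcont : Continuous (fderiv ℝ (fderiv ℝ ρ)) := hcd.continuous_fderiv (by norm_num)
  have hcomp : IsCompact (Metric.closedBall (0 : EuclideanSpace ℝ (Fin n)) R) :=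
    isCompact_closedBall _ _
  obtain ⟨K, hK⟩ := hcomp.exists_bound_of_continuousOn (f := fderiv ℝ (fderiv ℝ ρ)) hcont.continuousOn
  refine ⟨max K 0, le_max_right _ _, ?_⟩
  intro x hx y hy
  have hx' := hR hx.1
  have hy' := hR hy
  have hconv : Convex ℝ (Metric.closedBall (0 : EuclideanSpace ℝ (Fin n)) R) := convex_closedBall _ _
  have hseg : segment ℝ x y ⊆ Metric.closedBall (0 : EuclideanSpace ℝ (Fin n)) R :=
    hconv.segment_subset hx' hy'
  have hb : ∀ z ∈ segment ℝ x y, ‖fderiv ℝ ρ z - fderiv ℝ ρ x‖ ≤ (max K 0) * ‖y - x‖ := by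
    intro z hz
    have h1 : ‖fderiv ℝ ρ z - fderiv ℝ ρ x‖ ≤ (max K 0) * ‖z - x‖ := by
      apply hconv.norm_image_sub_le_of_norm_fderiv_le (𝕜 := ℝ) (f := fderiv ℝ ρ) _ _ hx' (hseg hz)
      · intro w _
        exact (hcd.differentiable (by norm_num)) w
      · intro w hw
        exact (hK w hw).trans (le_max_left _ _)
    have h2 : ‖z - x‖ ≤ ‖y - x‖ := by
      obtain ⟨a, b, ha, hb, hab, rfl⟩ := hz
      have : a • x + b • y - x = b • (y - x) := by
        have : a = 1 - b := by linarith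
        subst this
        module
      rw [this, norm_smul, Real.norm_of_nonneg hb]
      have : b ≤ 1 := by linarith
      nlinarith [norm_nonneg (y - x)]
    exact h1.trans (by gcongr)
  have hmv := (convex_segment x y).norm_image_sub_le_of_norm_fderiv_le' (𝕜 := ℝ) (f := ρ)
    (φ := fderiv ℝ ρ x) (C := (max K 0) * ‖y - x‖) (fun z _ => h.differentiable z) hb
    (left_mem_segment ℝ x y) (right_mem_segment ℝ x y)
  have hρx : ρ x = 0 := h.frontier_eq_zero hx
  have hρy : ρ y ≤ 0 := h.closure_le hy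
  rw [Real.norm_eq_abs, abs_le] at hmv
  have h3 := hmv.2
  have h4 := hmv.1
  have h5 : fderiv ℝ ρ x (x - y) = - fderiv ℝ ρ x (y - x) := by
    rw [← map_neg]; congr 1; abel
  rw [h5, norm_sub_rev x y]
  nlinarith [h3, h4]

theorem exists_grad_lower (h : SmoothDomain Ω ρ) :
    ∃ p : ℝ, 0 < p ∧ ∀ x ∈ frontier Ω, p ≤ ‖gradient ρ x‖ := by
  have hc : Continuous (fun x => ‖gradient ρ x‖) := by
    have : Continuous (fderiv ℝ ρ) := h.smooth.continuous_fderiv (by simp)
    simp only [gradient]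
    fun_prop
  by_cases hne : (frontier Ω).Nonempty
  · obtain ⟨x, hx, hmin⟩ := h.isClosed_frontier'.exists_isMinOn hne hc.continuousOn
    refine ⟨‖gradient ρ x‖, norm_pos_iff.2 (h.grad_ne x (h.frontier_eq_zero hx)), ?_⟩
    intro y hy
    exact hmin hy
  · refine ⟨1, one_pos, ?_⟩
    intro x hx
    exact absurd ⟨x, hx⟩ hne

end SmoothDomain

end Run7.h350
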