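import Pool.Agent.Run7.h350.Lip

open Set Filter Topology MeasureTheory
open scoped ContDiff Laplacian

namespace Run7.h350

variable {n : ℕ} {Ω : Set (EuclideanSpace ℝ (Fin n))} {ρ : EuclideanSpace ℝ (Fin n) → ℝ}

theorem double_boundary (hΩ : SmoothDomain Ω ρ) {κ r0 p A a ι t : ℝ} (hκ : 0 < κ)
    (hr0 : 0 < r0) (hA0 : 0 < A) (hp : 0 < p)
    (hgrad : ∀ x ∈ frontier Ω, p ≤ ‖gradient ρ x‖)
    (hbd : ∀ x ∈ frontier Ω, ∀ y ∈ closure Ω,
        ‖x - y‖ ^ 2 ≤ 2 * fderiv ℝ ρ x (x - y) + κ * ‖x - y‖ ^ 2 * ‖gradient ρ x‖ ^ 2)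
    {v v' : ℝ → EuclideanSpace ℝ (Fin n) → ℝ} (hv : Par Ω ρ a (a + 1) v v')
    (hι : 0 < ι) (ht : t ∈ Ioc a (a + 1))
    {x y : EuclideanSpace ℝ (Fin n)} (hx : x ∈ closure Ω) (hy : y ∈ closure Ω)
    (hxy : 0 < ‖x - y‖) (hxyr : ‖x - y‖ < r0)
    (hmax : ∀ s ∈ Icc a (a + 1), ∀ z ∈ closure Ω, ∀ w ∈ closure Ω, ‖z - w‖ ≤ r0 →
        Phi v κ r0 ρ A a ι s z w ≤ Phi v κ r0 ρ A a ι t x y) : x ∈ Ω ∧ y ∈ Ω := by
  have htI : t ∈ Icc a (a + 1) := ⟨ht.1.le, ht.2⟩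
  have htpos : 0 < t - a + ι := by linarith [ht.1]
  obtain ⟨c, hc⟩ : ∃ c, c = A * (1 / (t - a + ι)) := ⟨_, rfl⟩
  have hc0 : 0 < c := by rw [hc]; positivity
  have hnear : ∀ᶠ q : EuclideanSpace ℝ (Fin n) × EuclideanSpace ℝ (Fin n) in 𝓝 (x, y),
      ‖q.1 - q.2‖ < r0 := by
    have h1 : Continuous (fun q : EuclideanSpace ℝ (Fin n) × EuclideanSpace ℝ (Fin n) =>
      ‖q.1 - q.2‖) := (continuous_fst.sub continuous_snd).norm
    have h2 : Tendsto (fun q : EuclideanSpace ℝ (Fin n) × EuclideanSpace ℝ (Fin n) =>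
      ‖q.1 - q.2‖) (𝓝 (x, y)) (𝓝 ‖x - y‖) := h1.tendsto (x, y)
    exact h2.eventually (gt_mem_nhds hxyr)
  obtain ⟨Gv, -, hGv, hGv2⟩ := hv.neumann t ht
  constructor
  · rcases hΩ.mem_or_frontier hx with hxΩ | hxf
    · exact hxΩ
    exfalso
    obtain ⟨G, hG, hGpos⟩ := penalty_boundary hΩ hκ hr0
      (lt_of_lt_of_le hp (hgrad x hxf)) (hbd x hxf y hy) hxy hxyr.le
    have h1 := ((hG.hasFDerivWithinAt (s := closure Ω)).const_mul (c * wt κ ρ y)).sub (hGv x hx)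
    have h2 := hΩ.boundary_min hxf h1 (by
      have hn : ∀ᶠ z in 𝓝[closure Ω] x, ‖z - y‖ < r0 := by
        apply mem_nhdsWithin_of_mem_nhds
        have hcc : Tendsto (fun z : EuclideanSpace ℝ (Fin n) => (z, y)) (𝓝 x) (𝓝 (x, y)) := by
          exact (Continuous.tendsto (by fun_prop) x)
        exact hcc.eventually hnear
      filter_upwards [hn, self_mem_nhdsWithin] with z hz hzc
      have := hmax t htI z hzc y hy hz.le
      simp only [Phi, ← hc] at this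
      simp only [Pi.sub_apply]
      linarith)
    simp only [sub_apply, smul_apply, hGv2 x hxf, smul_eq_mul, sub_zero] at h2
    have h3 : 0 < wt κ ρ y := Real.exp_pos _
    have h4 : 0 < c * wt κ ρ y * G (gradient ρ x) := by positivity
    linarith
  · rcases hΩ.mem_or_frontier hy with hyΩ | hyf
    · exact hyΩ
    exfalso
    have hyx : ‖y - x‖ = ‖x - y‖ := norm_sub_rev _ _
    obtain ⟨G, hG, hGpos⟩ := penalty_boundary hΩ hκ hr0
      (lt_of_lt_of_le hp (hgrad y hyf)) (hbd y hyf x hx) (by rw [hyx]; exact hxy)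
      (by rw [hyx]; exact hxyr.le)
    have h1 := ((hG.hasFDerivWithinAt (s := closure Ω)).const_mul (c * wt κ ρ x)).add (hGv y hy)
    have h2 := hΩ.boundary_min hyf h1 (by
      have hn : ∀ᶠ z in 𝓝[closure Ω] y, ‖x - z‖ < r0 := by
        apply mem_nhdsWithin_of_mem_nhds
        have hcc : Tendsto (fun z : EuclideanSpace ℝ (Fin n) => (x, z)) (𝓝 y) (𝓝 (x, y)) := by
          exact (Continuous.tendsto (by fun_prop) y)
        exact hcc.eventually hnear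
      filter_upwards [hn, self_mem_nhdsWithin] with z hz hzc
      have := hmax t htI x hx z hzc hz.le
      simp only [Phi, ← hc] at this
      simp only [Pi.add_apply]
      rw [norm_sub_rev z x, norm_sub_rev y x]
      linarith)
    simp only [add_apply, smul_apply, hGv2 y hyf, smul_eq_mul, add_zero] at h2
    have h3 : 0 < wt κ ρ x := Real.exp_pos _
    have h4 : 0 < c * wt κ ρ x * G (gradient ρ y) := by positivity
    linarith

theorem penalty_bounds {em g A r X Y ψ : ℝ} (hX : em ≤ X) (hX1 : X ≤ 1) (hY : em ≤ Y)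
    (hY1 : Y ≤ 1) (hem : 0 < em) (hg : 0 < g) (hA : 0 < A) (hr : 0 ≤ r) (hψ0 : r / 2 ≤ ψ)
    (hψ1 : ψ ≤ r) :
    A * g * (em ^ 2 * (r / 2)) ≤ A * g * (X * Y * ψ) ∧ A * g * (X * Y * ψ) ≤ A * g * r := by
  have h1 : em ^ 2 ≤ X * Y := by
    rw [sq]; exact mul_le_mul hX hY hem.le (hem.le.trans hX)
  have h2 : X * Y ≤ 1 := mul_le_one₀ hX1 (hem.le.trans hY) hY1
  have h3 : 0 ≤ X * Y := le_trans (by positivity) h1
  have h4 : em ^ 2 * (r / 2) ≤ X * Y * ψ := mul_le_mul h1 hψ0 (by positivity) h3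
  have h5 : X * Y * ψ ≤ 1 * r := mul_le_mul h2 hψ1 (le_trans (by positivity) hψ0) zero_le_one
  rw [one_mul] at h5
  have hAg : 0 ≤ A * g := by positivity
  exact ⟨mul_le_mul_of_nonneg_left h4 hAg, mul_le_mul_of_nonneg_left h5 hAg⟩

theorem Phi_continuousOn (hΩ : SmoothDomain Ω ρ) {κ r0 A a ι : ℝ} (hι : 0 < ι)
    {v v' : ℝ → EuclideanSpace ℝ (Fin n) → ℝ} (hv : Par Ω ρ a (a + 1) v v') :
    ContinuousOn (fun q : ℝ × EuclideanSpace ℝ (Fin n) × EuclideanSpace ℝ (Fin n) =>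
      Phi v κ r0 ρ A a ι q.1 q.2.1 q.2.2) (Icc a (a + 1) ×ˢ (closure Ω ×ˢ closure Ω)) := by
  unfold Phi
  have hwtc : Continuous (wt κ ρ) := (wt_contDiff hΩ κ).continuous
  have h1 : ContinuousOn (fun q : ℝ × EuclideanSpace ℝ (Fin n) × EuclideanSpace ℝ (Fin n) =>
      v q.1 q.2.1) (Icc a (a + 1) ×ˢ (closure Ω ×ˢ closure Ω)) := by
    have : ContinuousOn (fun q : ℝ × EuclideanSpace ℝ (Fin n) × EuclideanSpace ℝ (Fin n) =>
      (q.1, q.2.1)) (Icc a (a + 1) ×ˢ (closure Ω ×ˢ closure Ω)) := by fun_prop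
    exact hv.cont.comp this (fun q hq => ⟨hq.1, hq.2.1⟩)
  have h2 : ContinuousOn (fun q : ℝ × EuclideanSpace ℝ (Fin n) × EuclideanSpace ℝ (Fin n) =>
      v q.1 q.2.2) (Icc a (a + 1) ×ˢ (closure Ω ×ˢ closure Ω)) := by
    have : ContinuousOn (fun q : ℝ × EuclideanSpace ℝ (Fin n) × EuclideanSpace ℝ (Fin n) =>
      (q.1, q.2.2)) (Icc a (a + 1) ×ˢ (closure Ω ×ˢ closure Ω)) := by fun_prop
    exact hv.cont.comp this (fun q hq => ⟨hq.1, hq.2.2⟩)
  have h3 : ContinuousOn (fun q : ℝ × EuclideanSpace ℝ (Fin n) × EuclideanSpace ℝ (Fin n) =>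
      1 / (q.1 - a + ι)) (Icc a (a + 1) ×ˢ (closure Ω ×ˢ closure Ω)) := by
    apply ContinuousOn.div continuousOn_const (by fun_prop)
    intro q hq
    have : 0 < q.1 - a + ι := by linarith [hq.1.1]
    exact this.ne'
  have h4 : Continuous (fun q : ℝ × EuclideanSpace ℝ (Fin n) × EuclideanSpace ℝ (Fin n) =>
      wt κ ρ q.2.1 * wt κ ρ q.2.2 * psi r0 ‖q.2.1 - q.2.2‖) := by
    unfold psi; fun_prop
  exact (h1.sub h2).sub ((continuousOn_const.mul h3).mul h4.continuousOn)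

theorem lipschitz (hΩ : SmoothDomain Ω ρ) {d M B : ℝ} (hd : 0 < d) (hM : 0 ≤ M) (hB : 0 ≤ B) :
    ∃ L, 0 ≤ L ∧ ∀ (a : ℝ) (v v' : ℝ → EuclideanSpace ℝ (Fin n) → ℝ), Par Ω ρ a (a + 1) v v' →
      (∀ t ∈ Icc a (a + 1), ∀ x ∈ closure Ω, |v t x| ≤ M) →
      (∀ t ∈ Ioc a (a + 1), ∀ x ∈ Ω, |v' t x - d * Δ (v t) x| ≤ B) →
      ∀ x ∈ closure Ω, ∀ y ∈ closure Ω, |v (a + 1) x - v (a + 1) y| ≤ L * ‖x - y‖ := by
  obtain ⟨κ, em, B1, B2, Dm, P2, C, p, hκ, hem, hem1, hB1, hB2, hDm, hP2, hC, hp, hpt, hdist,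
    hgrad, hbd⟩ := exists_consts hΩ
  obtain ⟨C3, hC3⟩ : ∃ C3, C3 = (n : ℝ) * (2 * B2 + 2 * B1 ^ 2) := ⟨_, rfl⟩
  have hC30 : 0 ≤ C3 := by rw [hC3]; positivity
  obtain ⟨C4, hC4⟩ : ∃ C4, C4 = (n : ℝ) * (8 * B1) := ⟨_, rfl⟩
  have hC40 : 0 ≤ C4 := by rw [hC4]; positivity
  obtain ⟨r0, hr0⟩ : ∃ r0, r0 = min 1 (2 * em ^ 2 / (C3 + C4 + 1)) := ⟨_, rfl⟩
  have hr00 : 0 < r0 := by rw [hr0]; positivity
  have hr01 : r0 ≤ 1 := by rw [hr0]; exact min_le_left _ _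
  have hr02 : C3 * r0 + C4 ≤ 2 * em ^ 2 / r0 := by
    rw [le_div_iff₀ hr00]
    have h1 : r0 ≤ 2 * em ^ 2 / (C3 + C4 + 1) := by rw [hr0]; exact min_le_right _ _
    rw [le_div_iff₀ (by positivity)] at h1
    have h2 : C3 * r0 * r0 ≤ C3 * r0 * 1 := mul_le_mul_of_nonneg_left hr01 (by positivity)
    nlinarith
  obtain ⟨A, hA⟩ : ∃ A, A = (2 * B + M) * r0 / (d * em ^ 2) + 8 * M / (em ^ 2 * r0) + 1 := ⟨_, rfl⟩
  have hAa : 0 ≤ (2 * B + M) * r0 / (d * em ^ 2) := by positivity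
  have hAb : 0 ≤ 8 * M / (em ^ 2 * r0) := by positivity
  have hA0 : 0 < A := by rw [hA]; linarith
  have hA1 : (2 * B + M) * r0 / (d * em ^ 2) < A := by rw [hA]; linarith
  have hA2 : 8 * M < A * (em ^ 2 * r0) := by
    rw [← div_lt_iff₀ (by positivity)]
    rw [hA]; linarith
  clear hA hr0
  have hMr : 0 ≤ 2 * M / r0 := by positivity
  refine ⟨A + 2 * M / r0, by linarith, ?_⟩
  intro a v v' hv hbM hbB
  -- the main estimate
  have hmain : ∀ ε > 0, ∀ x ∈ closure Ω, ∀ y ∈ closure Ω, ‖x - y‖ ≤ r0 →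
      v (a + 1) x - v (a + 1) y ≤ ε + A * ‖x - y‖ := by
    intro ε hε x1 hx1 y1 hy1 hxy1
    by_contra hcon
    push Not at hcon
    -- uniform continuity at the initial time
    have hunif : ∃ δ > 0, ∀ x ∈ closure Ω, ∀ y ∈ closure Ω, ε < v a x - v a y → δ ≤ ‖x - y‖ := by
      have h1 : ContinuousOn (v a) (closure Ω) := by
        have : ContinuousOn (fun x : EuclideanSpace ℝ (Fin n) => (a, x)) (closure Ω) := by fun_prop
        exact hv.cont.comp this (fun x hx => ⟨⟨le_rfl, by linarith⟩, hx⟩)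
      have h2 := hΩ.isCompact_closure.uniformContinuousOn_of_continuous h1
      rw [Metric.uniformContinuousOn_iff] at h2
      obtain ⟨δ, hδ, h3⟩ := h2 ε hε
      refine ⟨δ, hδ, ?_⟩
      intro x hx y hy hlt
      by_contra hcon2
      push Not at hcon2
      have h4 := h3 x hx y hy (by rwa [dist_eq_norm])
      rw [Real.dist_eq] at h4
      linarith [le_abs_self (v a x - v a y)]
    obtain ⟨δ, hδ, hδ2⟩ := hunif
    obtain ⟨ι, hι⟩ : ∃ ι, ι = min 1 (A * em ^ 2 * δ / (4 * M + 1)) := ⟨_, rfl⟩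
    have hι0 : 0 < ι := by rw [hι]; positivity
    have hι1 : ι ≤ 1 := by rw [hι]; exact min_le_left _ _
    have hι2 : 4 * M * ι < A * em ^ 2 * δ := by
      have h1 : ι ≤ A * em ^ 2 * δ / (4 * M + 1) := by rw [hι]; exact min_le_right _ _
      rw [le_div_iff₀ (by positivity)] at h1
      linarith
    -- the compact set
    obtain ⟨K, hK⟩ : ∃ K : Set (ℝ × EuclideanSpace ℝ (Fin n) × EuclideanSpace ℝ (Fin n)),
      K = (Icc a (a + 1) ×ˢ (closure Ω ×ˢ closure Ω)) ∩ {q | ‖q.2.1 - q.2.2‖ ≤ r0} := ⟨_, rfl⟩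
    have hKc : IsCompact K := by
      rw [hK]
      apply (isCompact_Icc.prod (hΩ.isCompact_closure.prod hΩ.isCompact_closure)).inter_right
      exact isClosed_le ((continuous_snd.fst.sub continuous_snd.snd).norm) continuous_const
    have hΦc : ContinuousOn (fun q : ℝ × EuclideanSpace ℝ (Fin n) × EuclideanSpace ℝ (Fin n) =>
      Phi v κ r0 ρ A a ι q.1 q.2.1 q.2.2) K := by
      rw [hK]
      exact (Phi_continuousOn hΩ hι0 hv).mono inter_subset_left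
    have hq1 : ((a + 1, x1, y1) : ℝ × EuclideanSpace ℝ (Fin n) × EuclideanSpace ℝ (Fin n)) ∈ K := by
      rw [hK]
      exact ⟨⟨⟨by linarith, le_rfl⟩, hx1, hy1⟩, hxy1⟩
    obtain ⟨⟨t, x, y⟩, hq, hmax⟩ := hKc.exists_isMaxOn ⟨_, hq1⟩ hΦc
    have hq' : (t ∈ Icc a (a + 1) ∧ x ∈ closure Ω ∧ y ∈ closure Ω) ∧ ‖x - y‖ ≤ r0 := by
      rw [hK] at hq
      exact hq
    obtain ⟨⟨ht, hx, hy⟩, hxyr⟩ := hq'
    have hmax' : ∀ s ∈ Icc a (a + 1), ∀ z ∈ closure Ω, ∀ w ∈ closure Ω, ‖z - w‖ ≤ r0 →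
        Phi v κ r0 ρ A a ι s z w ≤ Phi v κ r0 ρ A a ι t x y := by
      intro s hs z hz w hw hzw
      have hmem : ((s, z, w) : ℝ × EuclideanSpace ℝ (Fin n) × EuclideanSpace ℝ (Fin n)) ∈ K := by
        rw [hK]
        exact ⟨⟨hs, hz, hw⟩, hzw⟩
      exact hmax hmem
    have hpsi : ∀ z w : EuclideanSpace ℝ (Fin n), ‖z - w‖ ≤ r0 → ‖z - w‖ / 2 ≤ psi r0 ‖z - w‖ ∧
        psi r0 ‖z - w‖ ≤ ‖z - w‖ := fun z w h =>
      ⟨psi_ge hr00 (norm_nonneg _) h, psi_le hr00⟩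
    have hΦpos : ε < Phi v κ r0 ρ A a ι t x y := by
      have h1 := hmax' (a + 1) ⟨by linarith, le_rfl⟩ x1 hx1 y1 hy1 hxy1
      have hps := hpsi x1 y1 hxy1
      have hg0 : (0:ℝ) < 1 / (a + 1 - a + ι) := by
        have : 0 < a + 1 - a + ι := by linarith
        positivity
      have hg1 : 1 / (a + 1 - a + ι) ≤ 1 := by
        rw [div_le_one (by linarith)]
        linarith
      have h2 := (penalty_bounds (hpt x1 hx1).1 (hpt x1 hx1).2.1 (hpt y1 hy1).1 (hpt y1 hy1).2.1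
        hem hg0 hA0 (norm_nonneg (x1 - y1)) hps.1 hps.2).2
      have h3 : A * (1 / (a + 1 - a + ι)) * ‖x1 - y1‖ ≤ A * 1 * ‖x1 - y1‖ := by gcongr
      simp only [Phi] at h1 ⊢
      linarith
    have hΦval : Phi v κ r0 ρ A a ι t x y =
      v t x - v t y - (A * (1 / (t - a + ι))) * (wt κ ρ x * wt κ ρ y * psi r0 ‖x - y‖) := rfl
    have htpos : 0 < t - a + ι := by linarith [ht.1]
    have hgt0 : 0 < 1 / (t - a + ι) := by positivity
    have hghalf : 1 / 2 ≤ 1 / (t - a + ι) := by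
      apply one_div_le_one_div_of_le htpos
      linarith [ht.2]
    have hpen := (penalty_bounds (hpt x hx).1 (hpt x hx).2.1 (hpt y hy).1 (hpt y hy).2.1
        hem hgt0 hA0 (norm_nonneg (x - y)) (hpsi x y hxyr).1 (hpsi x y hxyr).2).1
    have hv1 := abs_le.1 (hbM t ht x hx)
    have hv2 := abs_le.1 (hbM t ht y hy)
    rw [hΦval] at hΦpos
    have hrpos : 0 < ‖x - y‖ := by
      rcases eq_or_lt_of_le (norm_nonneg (x - y)) with h | h
      · exfalso
        have hxy : x = y := by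
          rw [← sub_eq_zero, ← norm_eq_zero]; exact h.symm
        have hps0 : psi r0 0 = 0 := by simp [psi]
        rw [hxy, sub_self y, norm_zero, hps0, mul_zero, mul_zero] at hΦpos
        linarith
      · exact h
    have hrlt : ‖x - y‖ < r0 := by
      rcases lt_or_eq_of_le hxyr with h | h
      · exact h
      · exfalso
        have h1 : A * (1 / 2) * (em ^ 2 * (‖x - y‖ / 2)) ≤
            A * (1 / (t - a + ι)) * (em ^ 2 * (‖x - y‖ / 2)) := by gcongr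
        rw [h] at h1
        rw [h] at hpen hΦpos
        linarith
    have hta : a < t := by
      rcases lt_or_eq_of_le ht.1 with h | h
      · exact h
      · exfalso
        subst h
        have h3 : 1 / (a - a + ι) = 1 / ι := by rw [sub_self, zero_add]
        rw [h3] at hpen hΦpos
        have h00 : 0 ≤ A * (1 / ι) * (em ^ 2 * (‖x - y‖ / 2)) := by positivity
        have h1 := hδ2 x hx y hy (by linarith)
        have h2 : A * (1 / ι) * (em ^ 2 * (δ / 2)) ≤ A * (1 / ι) * (em ^ 2 * (‖x - y‖ / 2)) := by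
          gcongr
        have h4 : 2 * M < A * (1 / ι) * (em ^ 2 * (δ / 2)) := by
          have : A * (1 / ι) * (em ^ 2 * (δ / 2)) = A * em ^ 2 * δ / 2 / ι := by
            field_simp
          rw [this, lt_div_iff₀ hι0]
          linarith
        linarith
    have ht' : t ∈ Ioc a (a + 1) := ⟨hta, ht.2⟩
    obtain ⟨hxΩ, hyΩ⟩ := double_boundary hΩ hκ hr00 hA0 hp hgrad hbd hv hι0 ht' hx hy hrpos
      hrlt hmax'
    exact double_interior hΩ hd hB hB1 hB2 hem hr00 hA0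
      (fun x hx => ⟨(hpt x hx).1, (hpt x hx).2.1, (hpt x hx).2.2.1, (hpt x hx).2.2.2.1⟩)
      hC3 hC4 hr02 hA1 hv hbM hbB hι0 hι1 ht' hxΩ hyΩ hrpos hrlt
      (by rw [hΦval]; linarith) hmax'
  -- conclusion
  have hle : ∀ x ∈ closure Ω, ∀ y ∈ closure Ω,
      v (a + 1) x - v (a + 1) y ≤ (A + 2 * M / r0) * ‖x - y‖ := by
    intro x hx y hy
    have hn := norm_nonneg (x - y)
    by_cases hxy : ‖x - y‖ ≤ r0
    · have h1 : v (a + 1) x - v (a + 1) y ≤ A * ‖x - y‖ := by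
        apply le_of_forall_pos_le_add
        intro ε hε
        have := hmain ε hε x hx y hy hxy
        linarith
      have h2 : 0 ≤ 2 * M / r0 * ‖x - y‖ := mul_nonneg hMr hn
      linarith [h1, h2]
    · push Not at hxy
      have h1 := abs_le.1 (hbM (a + 1) ⟨by linarith, le_rfl⟩ x hx)
      have h2 := abs_le.1 (hbM (a + 1) ⟨by linarith, le_rfl⟩ y hy)
      have h3 : 2 * M ≤ 2 * M / r0 * ‖x - y‖ := by
        rw [div_mul_eq_mul_div, le_div_iff₀ hr00]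
        exact mul_le_mul_of_nonneg_left hxy.le (by linarith)
      have h4 : 0 ≤ A * ‖x - y‖ := by positivity
      linarith
  intro x hx y hy
  rw [abs_le]
  constructor
  · have := hle y hy x hx
    rw [norm_sub_rev] at this
    linarith
  · exact hle x hx y hy

end Run7.h350
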