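import Pool.Agent.Run7.h350.Spread

open Set Filter Topology MeasureTheory
open scoped ContDiff Laplacian

namespace Run7.h350

variable {n : ℕ} {Ω : Set (EuclideanSpace ℝ (Fin n))} {ρ : EuclideanSpace ℝ (Fin n) → ℝ}

/-- Quantitative positivity: a nonnegative supersolution which is at least `δ` near one point
at the initial time is bounded below on the whole closure at a later time. -/
theorem positivity (hΩ : SmoothDomain Ω ρ) {d K0 r δ T : ℝ} (hd : 0 < d) (hK0 : 0 ≤ K0)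
    (hr : 0 < r) (hδ : 0 < δ) (hT : 0 < T) :
    ∃ c > 0, ∀ (a : ℝ) (v v' : ℝ → EuclideanSpace ℝ (Fin n) → ℝ),
    Super Ω ρ d K0 a (a + T) v v' → ∀ x0 ∈ closure Ω,
    (∀ x ∈ closure Ω, ‖x - x0‖ < r → δ ≤ v a x) →
    ∀ x ∈ closure Ω, c ≤ v (a + T) x := by
  obtain ⟨r1, hr1, hstep⟩ := one_step hΩ
  -- the spreading relation
  let P : EuclideanSpace ℝ (Fin n) → EuclideanSpace ℝ (Fin n) → Prop := fun x y =>
    ∀ r > 0, ∀ δ > 0, ∀ T > 0, ∃ δ' > 0, ∀ (a : ℝ) (v v' : ℝ → EuclideanSpace ℝ (Fin n) → ℝ),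
      Super Ω ρ d K0 a (a + T) v v' → (∀ z ∈ closure Ω, ‖z - x‖ < r → δ ≤ v a z) →
      ∀ z ∈ closure Ω, ‖z - y‖ < r1 / 2 → δ' ≤ v (a + T) z
  have hPnear : ∀ x ∈ closure Ω, ∀ y, ‖y - x‖ < r1 / 2 → P x y := by
    intro x hx y hy r hr δ hδ T hT
    obtain ⟨δ', hδ', h⟩ := hstep d hd K0 hK0 r hr δ hδ T hT
    refine ⟨δ', hδ', ?_⟩
    intro a v v' hv hin z hz hzy
    apply h a v v' hv x hx hin z hz
    calc ‖z - x‖ = ‖(z - y) + (y - x)‖ := by congr 1; abel
      _ ≤ ‖z - y‖ + ‖y - x‖ := norm_add_le _ _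
      _ < r1 := by linarith
  have hPtrans : ∀ x y z, x ∈ closure Ω → y ∈ closure Ω → z ∈ closure Ω → P x y → P y z →
      P x z := by
    intro x y z _ _ _ hxy hyz r hr δ hδ T hT
    obtain ⟨δ1, hδ1, h1⟩ := hxy r hr δ hδ (T / 2) (by positivity)
    obtain ⟨δ2, hδ2, h2⟩ := hyz (r1 / 2) (by positivity) δ1 hδ1 (T / 2) (by positivity)
    refine ⟨δ2, hδ2, ?_⟩
    intro a v v' hv hin w hw hwz
    have h3 := h1 a v v' (hv.mono le_rfl (by linarith)) hin
    have h4 := h2 (a + T / 2) v v' (hv.mono (by linarith) (by linarith)) h3 w hw hwz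
    rwa [add_assoc, add_halves] at h4
  have hP : ∀ x ∈ closure Ω, ∀ y ∈ closure Ω, P x y := by
    intro x hx y hy
    apply hΩ.connected.closure.isPreconnected.induction₂' P ?_ hPtrans hx hy
    intro z hz
    have h1 : ∀ᶠ w in 𝓝[closure Ω] z, ‖w - z‖ < r1 / 2 := by
      apply mem_nhdsWithin_of_mem_nhds
      have := Metric.ball_mem_nhds z (show (0:ℝ) < r1 / 2 by positivity)
      filter_upwards [this] with w hw
      rwa [mem_ball_iff_norm] at hw
    filter_upwards [h1, self_mem_nhdsWithin] with w hw hwc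
    refine ⟨hPnear z hz w hw, hPnear w hwc z ?_⟩
    rwa [norm_sub_rev]
  -- uniformity by compactness
  have hcomp : IsCompact (closure Ω ×ˢ closure Ω) := hΩ.isCompact_closure.prod hΩ.isCompact_closure
  let Q : Set (EuclideanSpace ℝ (Fin n) × EuclideanSpace ℝ (Fin n)) → Prop := fun s =>
    ∃ c > 0, ∀ (a : ℝ) (v v' : ℝ → EuclideanSpace ℝ (Fin n) → ℝ),
    Super Ω ρ d K0 a (a + T) v v' → ∀ p ∈ s, p.1 ∈ closure Ω → p.2 ∈ closure Ω →
    (∀ x ∈ closure Ω, ‖x - p.1‖ < r → δ ≤ v a x) → c ≤ v (a + T) p.2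
  have hQ : Q (closure Ω ×ˢ closure Ω) := by
    apply hcomp.induction_on (p := Q)
    · exact ⟨1, one_pos, fun a v v' _ p hp => absurd hp (by simp)⟩
    · rintro s t hst ⟨c, hc, h⟩
      exact ⟨c, hc, fun a v v' hv p hp => h a v v' hv p (hst hp)⟩
    · rintro s t ⟨c1, hc1, h1⟩ ⟨c2, hc2, h2⟩
      refine ⟨min c1 c2, lt_min hc1 hc2, ?_⟩
      rintro a v v' hv p (hp | hp) hp1 hp2 hin
      · exact (min_le_left _ _).trans (h1 a v v' hv p hp hp1 hp2 hin)
      · exact (min_le_right _ _).trans (h2 a v v' hv p hp hp1 hp2 hin)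
    · rintro ⟨x, y⟩ ⟨hx, hy⟩
      obtain ⟨δ', hδ', h⟩ := hP x hx y hy (r / 2) (by positivity) δ hδ T hT
      refine ⟨Metric.ball x (r / 2) ×ˢ Metric.ball y (r1 / 2), ?_, δ', hδ', ?_⟩
      · apply mem_nhdsWithin_of_mem_nhds
        exact prod_mem_nhds (Metric.ball_mem_nhds _ (by positivity))
          (Metric.ball_mem_nhds _ (by positivity))
      · rintro a v v' hv ⟨x', y'⟩ ⟨hx', hy'⟩ hx'c hy'c hin
        simp only [mem_ball_iff_norm] at hx' hy'
        apply h a v v' hv _ y' hy'c hy'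
        intro z hz hzx
        apply hin z hz
        calc ‖z - x'‖ = ‖(z - x) + (x - x')‖ := by congr 1; abel
          _ ≤ ‖z - x‖ + ‖x - x'‖ := norm_add_le _ _
          _ < r := by rw [norm_sub_rev x x']; linarith
  obtain ⟨c, hc, h⟩ := hQ
  exact ⟨c, hc, fun a v v' hv x0 hx0 hin x hx => h a v v' hv (x0, x) ⟨hx0, hx⟩ hx0 hx hin⟩

end Run7.h350
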