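import Pool.Agent.Run7.h350.LaSalle2
import Pool.Agent.Run7.h350.Posit
import Pool.Agent.Run7.h350.Lip2

open Set Filter Topology MeasureTheory
open scoped ContDiff Laplacian

namespace Run7.h350

variable {n N : ℕ} {Ω : Set (EuclideanSpace ℝ (Fin n))} {ρ : EuclideanSpace ℝ (Fin n) → ℝ}

/-- bounded regular trajectory on an open, upward closed set of times `J`. -/
structure RTraj (J : Set ℝ) (Ω : Set (EuclideanSpace ℝ (Fin n)))
    (ρ m : EuclideanSpace ℝ (Fin n) → ℝ) (d : Fin N → ℝ) (M : ℝ)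
    (u u' : Fin N → ℝ → EuclideanSpace ℝ (Fin n) → ℝ) : Prop where
  isOpen : IsOpen J
  up : ∀ t ∈ J, ∀ s, t ≤ s → s ∈ J
  cont : ∀ j, ContinuousOn (fun p : ℝ × EuclideanSpace ℝ (Fin n) => u j p.1 p.2) (J ×ˢ closure Ω)
  cont' : ∀ j, ContinuousOn (fun p : ℝ × EuclideanSpace ℝ (Fin n) => u' j p.1 p.2)
    (J ×ˢ closure Ω)
  nonneg : ∀ j, ∀ t ∈ J, ∀ x ∈ closure Ω, 0 ≤ u j t x
  bound : ∀ j, ∀ t ∈ J, ∀ x ∈ closure Ω, u j t x ≤ M
  neumann : ∀ j, ∀ t ∈ J, NeumannC1 Ω ρ (u j t)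
  smooth : ∀ j, ∀ t ∈ J, ContDiffOn ℝ 2 (u j t) Ω
  hasDeriv : ∀ j, ∀ t ∈ J, ∀ x ∈ closure Ω, HasDerivAt (fun s => u j s x) (u' j t x) t
  pde : ∀ j, ∀ t ∈ J, ∀ x ∈ Ω, u' j t x = d j * Δ (u j t) x + u j t x * (m x - ∑ i, u i t x)

namespace RTraj

variable {J : Set ℝ} {m : EuclideanSpace ℝ (Fin n) → ℝ} {d : Fin N → ℝ} {M : ℝ}
  {u u' : Fin N → ℝ → EuclideanSpace ℝ (Fin n) → ℝ}

theorem par (h : RTraj J Ω ρ m d M u u') (j : Fin N) {a b : ℝ} (ha : a ∈ J) :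
    Par Ω ρ a b (u j) (u' j) where
  cont := (h.cont j).mono (prod_mono (fun t ht => h.up a ha t ht.1) Subset.rfl)
  neumann := fun t ht => h.neumann j t (h.up a ha t ht.1.le)
  smooth := fun t ht => h.smooth j t (h.up a ha t ht.1.le)
  time := fun t ht x hx => h.hasDeriv j t (h.up a ha t ht.1.le) x (subset_closure hx)

theorem sum_bound (h : RTraj J Ω ρ m d M u u') {t : ℝ} (ht : t ∈ J)
    {x : EuclideanSpace ℝ (Fin n)} (hx : x ∈ closure Ω) :
    0 ≤ ∑ i, u i t x ∧ ∑ i, u i t x ≤ N * M := by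
  constructor
  · exact Finset.sum_nonneg fun i _ => h.nonneg i t ht x hx
  · calc ∑ i, u i t x ≤ ∑ _i : Fin N, M := Finset.sum_le_sum fun i _ => h.bound i t ht x hx
      _ = N * M := by simp

theorem exists_growth (h : RTraj J Ω ρ m d M u u') (hΩ : SmoothDomain Ω ρ)
    (hm : ContinuousOn m (closure Ω)) (hM : 0 ≤ M) :
    ∃ K0 ≥ 0, ∀ t ∈ J, ∀ x ∈ closure Ω, |m x - ∑ i, u i t x| ≤ K0 := by
  obtain ⟨C, hC⟩ := hΩ.isCompact_closure.exists_bound_of_continuousOn (f := m) hm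
  refine ⟨max C 0 + N * M, by positivity, ?_⟩
  intro t ht x hx
  have h1 := h.sum_bound ht hx
  calc |m x - ∑ i, u i t x| ≤ |m x| + |∑ i, u i t x| := abs_sub _ _
    _ ≤ max C 0 + N * M := by
        rw [abs_of_nonneg h1.1]
        exact add_le_add ((hC x hx).trans (le_max_left _ _)) h1.2

theorem super (h : RTraj J Ω ρ m d M u u') (j : Fin N) {K0 a b : ℝ} (ha : a ∈ J)
    (hK : ∀ t ∈ J, ∀ x ∈ closure Ω, |m x - ∑ i, u i t x| ≤ K0) :
    Super Ω ρ (d j) K0 a b (u j) (u' j) where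
  par := h.par j ha
  nonneg := fun t ht x hx => h.nonneg j t (h.up a ha t ht.1) x hx
  ineq := fun t ht x hx => by
    have htJ := h.up a ha t ht.1.le
    have hxc := subset_closure hx
    rw [h.pde j t htJ x hx]
    have h1 := (abs_le.1 (hK t htJ x hxc)).1
    have h2 := mul_le_mul_of_nonneg_left h1 (h.nonneg j t htJ x hxc)
    linarith

/-- once present, a species is positive everywhere. -/
theorem pos_of_pos (h : RTraj J Ω ρ m d M u u') (hΩ : SmoothDomain Ω ρ)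
    (hm : ContinuousOn m (closure Ω)) (hM : 0 ≤ M) (j : Fin N) (hd : 0 < d j) {t1 : ℝ}
    (ht1 : t1 ∈ J) {x1 : EuclideanSpace ℝ (Fin n)} (hx1 : x1 ∈ closure Ω) (hpos : 0 < u j t1 x1)
    {t : ℝ} (ht : t1 < t) : ∀ x ∈ closure Ω, 0 < u j t x := by
  obtain ⟨K0, hK0, hK⟩ := h.exists_growth hΩ hm hM
  have hc : ContinuousOn (u j t1) (closure Ω) := by
    have : ContinuousOn (fun x : EuclideanSpace ℝ (Fin n) => (t1, x)) (closure Ω) := by fun_prop
    exact (h.cont j).comp this fun x hx => ⟨ht1, hx⟩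
  have hev : ∀ᶠ x in 𝓝[closure Ω] x1, u j t1 x1 / 2 < u j t1 x :=
    (hc x1 hx1).eventually (lt_mem_nhds (by linarith))
  obtain ⟨r, hr, hball⟩ := Metric.mem_nhdsWithin_iff.1 hev
  obtain ⟨c, hc0, hcpos⟩ := positivity hΩ hd hK0 hr (show 0 < u j t1 x1 / 2 by linarith)
    (sub_pos.2 ht)
  intro x hx
  have := hcpos t1 (u j) (u' j) (h.super j ht1 hK) x1 hx1 (fun y hy hyr => by
    have : y ∈ Metric.ball x1 r ∩ closure Ω := ⟨by rwa [mem_ball_iff_norm], hy⟩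
    exact (hball this).le) x hx
  rw [add_sub_cancel] at this
  linarith

/-- uniform Lipschitz bound after unit time. -/
theorem exists_lip (h : RTraj J Ω ρ m d M u u') (hΩ : SmoothDomain Ω ρ)
    (hm : ContinuousOn m (closure Ω)) (hM : 0 ≤ M) (hd : ∀ j, 0 < d j) :
    ∃ L ≥ 0, ∀ j, ∀ t, t - 1 ∈ J → ∀ x ∈ closure Ω, ∀ y ∈ closure Ω,
      |u j t x - u j t y| ≤ L * ‖x - y‖ := by
  obtain ⟨K0, hK0, hK⟩ := h.exists_growth hΩ hm hM
  have h1 : ∀ j, ∃ L, 0 ≤ L ∧ ∀ t, t - 1 ∈ J → ∀ x ∈ closure Ω, ∀ y ∈ closure Ω,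
      |u j t x - u j t y| ≤ L * ‖x - y‖ := by
    intro j
    obtain ⟨L, hL, hlip⟩ := lipschitz hΩ (hd j) hM (B := M * K0) (by positivity)
    refine ⟨L, hL, ?_⟩
    intro t ht x hx y hy
    have h2 := hlip (t - 1) (u j) (u' j) (h.par j ht) (fun s hs x hx => by
        have hsJ := h.up _ ht s hs.1
        rw [abs_of_nonneg (h.nonneg j s hsJ x hx)]
        exact h.bound j s hsJ x hx) (fun s hs x hx => by
        have hsJ := h.up _ ht s hs.1.le
        have hxc := subset_closure hx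
        rw [h.pde j s hsJ x hx, add_sub_cancel_left, abs_mul,
          abs_of_nonneg (h.nonneg j s hsJ x hxc)]
        exact mul_le_mul (h.bound j s hsJ x hxc) (hK s hsJ x hxc) (abs_nonneg _) hM) x hx y hy
    rwa [sub_add_cancel] at h2
  choose L hL hlip using h1
  refine ⟨∑ j, L j, Finset.sum_nonneg fun j _ => hL j, ?_⟩
  intro j t ht x hx y hy
  refine (hlip j t ht x hx y hy).trans ?_
  apply mul_le_mul_of_nonneg_right _ (norm_nonneg _)
  exact Finset.single_le_sum (f := L) (fun i _ => hL i) (Finset.mem_univ j)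

end RTraj

/-- a nonconstant environment makes the steady state nonconstant. -/
theorem steady_nonconst (hΩ : SmoothDomain Ω ρ) {m θ : EuclideanSpace ℝ (Fin n) → ℝ} {dk : ℝ}
    {Dθ : EuclideanSpace ℝ (Fin n) → (EuclideanSpace ℝ (Fin n) →L[ℝ] ℝ)}
    (hθ : C1N Ω ρ θ Dθ) (hθ0 : ∀ x ∈ closure Ω, 0 < θ x)
    (hpde : ∀ x ∈ Ω, dk * Δ θ x + θ x * (m x - θ x) = 0)
    (hmne : ¬ ∃ c, ∀ x ∈ Ω, m x = c) : ∃ x ∈ Ω, ∃ c, Dθ x (ev n c) ≠ 0 := by
  by_contra hcon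
  push Not at hcon
  apply hmne
  have hD0 : ∀ x ∈ Ω, fderiv ℝ θ x = 0 := by
    intro x hx
    rw [(hθ.hasFDerivAt hΩ hx).fderiv]
    ext v
    have h1 := clm_sq_le (Dθ x) v
    have h2 : ∑ k, (Dθ x (EuclideanSpace.basisFun (Fin n) ℝ k)) ^ 2 = 0 := by
      apply Finset.sum_eq_zero
      intro c _
      have := hcon x hx c
      unfold ev at this
      rw [this]; norm_num
    rw [h2, zero_mul] at h1
    have h3 : (Dθ x v) ^ 2 = 0 := le_antisymm h1 (sq_nonneg _)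
    simpa using h3
  obtain ⟨x0, hx0⟩ := hΩ.connected.nonempty
  refine ⟨θ x0, ?_⟩
  have hconst : ∀ x ∈ Ω, θ x = θ x0 := by
    intro x hx
    have hdiff : DifferentiableOn ℝ θ Ω := fun y hy =>
      (hθ.hasFDerivAt hΩ hy).differentiableAt.differentiableWithinAt
    exact hΩ.isOpen.is_const_of_fderiv_eq_zero hΩ.connected.isPreconnected hdiff
      (fun y hy => hD0 y hy) hx hx0
  intro x hx
  have hΔ0 : Δ θ x = 0 := by
    rw [laplacian_eq_pd]
    apply Finset.sum_eq_zero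
    intro c _
    rw [iteratedFDeriv_two_apply]
    have h1 : fderiv ℝ θ =ᶠ[𝓝 x] fun _ => 0 := by
      filter_upwards [hΩ.isOpen.mem_nhds hx] with y hy
      exact hD0 y hy
    rw [h1.fderiv_eq]
    simp
  have h2 := hpde x hx
  rw [hΔ0, mul_zero, zero_add] at h2
  have h3 := (mul_eq_zero.1 h2).resolve_left (hθ0 x (subset_closure hx)).ne'
  rw [← hconst x hx]
  linarith

end Run7.h350
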