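import Pool.Agent.Run7.h350.Dyn

open Set Filter Topology MeasureTheory
open scoped ContDiff Laplacian

namespace Run7.h350

variable {n N : ℕ} {Ω : Set (EuclideanSpace ℝ (Fin n))} {ρ : EuclideanSpace ℝ (Fin n) → ℝ}

/-- upper bound of the time derivative of the functional -/
theorem V_deriv (hΩ : SmoothDomain Ω ρ) {k : Fin N} {A : Finset (Fin N)} (hkA : k ∉ A)
    {d : Fin N → ℝ} (F : HFun k A d) {m θ : EuclideanSpace ℝ (Fin n) → ℝ}
    {Dθ : EuclideanSpace ℝ (Fin n) → (EuclideanSpace ℝ (Fin n) →L[ℝ] ℝ)}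
    (hd : 0 < d k) (hm : ContinuousOn m (closure Ω))
    (hθ : C1N Ω ρ θ Dθ) (hθ0 : ∀ x ∈ closure Ω, 0 < θ x)
    (hpde : ∀ x ∈ Ω, d k * Δ θ x + θ x * (m x - θ x) = 0)
    {J : Set ℝ} {M : ℝ} (hM : 0 ≤ M) (hdj : ∀ j, 0 < d j)
    {u u' : Fin N → ℝ → EuclideanSpace ℝ (Fin n) → ℝ} (h : RTraj J Ω ρ m d M u u')
    {J' : Set ℝ} (hJ'o : IsOpen J') (hJ' : J' ⊆ J)
    (hpos : ∀ t ∈ J', ∀ x ∈ closure Ω, 0 < u k t x) :
    ∃ CV ≥ 0, ∀ t ∈ J', ∀ r ≥ 0, (∀ x ∈ closure Ω, ∑ j ∈ (insert k A)ᶜ, u j t x ≤ r) →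
      ∃ V', HasDerivAt (fun t => Vf F Ω θ (fun j => u j t)) V' t ∧
        ∀ Dw, (∀ j, C1N Ω ρ (u j t) (Dw j)) →
          V' ≤ - dis F Ω θ Dθ (fun j => u j t) Dw + CV * r := by
  have hθc := hθ.continuousOn
  obtain ⟨θ0, hθ00, hθlow⟩ := exists_lower hΩ hθc hθ0
  obtain ⟨C1, hC1⟩ := (isCompact_univ_pi fun _ : Fin N =>
      isCompact_Icc (a := (0:ℝ)) (b := M / θ0)).exists_bound_of_continuousOn
      (f := F.Gc) F.Gc_cont.continuousOn
  obtain ⟨C2, hC2⟩ := hΩ.isCompact_closure.exists_bound_of_continuousOn (f := fun x => θ x ^ 2)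
    (hθc.pow 2)
  obtain ⟨K0, hK0, hK⟩ := h.exists_growth hΩ hm hM
  have hvol : volume Ω < ⊤ := hΩ.bounded.measure_lt_top
  obtain ⟨Cb, hCb⟩ : ∃ Cb, Cb = max C2 0 * max C1 0 := ⟨_, rfl⟩
  have hCb0 : 0 ≤ Cb := by rw [hCb]; positivity
  refine ⟨Cb * volume.real Ω, by positivity, ?_⟩
  intro t ht r hr0 hr
  have htJ := hJ' ht
  have hV := V_hasDerivAt hΩ F hJ'o hθc hθ0 (u := u) (u' := u')
    (fun j => (h.cont j).mono (prod_mono hJ' Subset.rfl))
    (fun j => (h.cont' j).mono (prod_mono hJ' Subset.rfl))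
    (fun j s hs => h.hasDeriv j s (hJ' hs)) (fun j s hs => h.nonneg j s (hJ' hs)) hpos ht
  refine ⟨_, hV, ?_⟩
  intro Dw hDw
  have hslice : ∀ (f : ℝ × EuclideanSpace ℝ (Fin n) → ℝ), ContinuousOn f (J ×ˢ closure Ω) →
      ContinuousOn (fun x => f (t, x)) (closure Ω) := by
    intro f hf
    have : ContinuousOn (fun x : EuclideanSpace ℝ (Fin n) => (t, x)) (closure Ω) := by fun_prop
    exact hf.comp this fun x hx => ⟨htJ, hx⟩
  have hΔ : ∀ j, ∃ C, ∀ x ∈ Ω, |Δ (u j t) x| ≤ C := by
    intro j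
    obtain ⟨C, hC⟩ := hΩ.isCompact_closure.exists_bound_of_continuousOn (hslice _ (h.cont' j))
    refine ⟨(C + M * K0) / d j, fun x hx => ?_⟩
    have hxc := subset_closure hx
    have h1 := h.pde j t htJ x hx
    have h2 : Δ (u j t) x = (u' j t x - u j t x * (m x - ∑ i, u i t x)) / d j := by
      rw [h1]
      have := (hdj j).ne'
      field_simp
      ring
    rw [h2, abs_div, abs_of_pos (hdj j)]
    apply div_le_div_of_nonneg_right _ (hdj j).le
    calc |u' j t x - u j t x * (m x - ∑ i, u i t x)|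
        ≤ |u' j t x| + |u j t x * (m x - ∑ i, u i t x)| := abs_sub _ _
      _ ≤ C + M * K0 := by
          apply add_le_add (hC x hxc)
          rw [abs_mul, abs_of_nonneg (h.nonneg j t htJ x hxc)]
          exact mul_le_mul (h.bound j t htJ x hxc) (hK t htJ x hxc) (abs_nonneg _) hM
  have hen := energy_identity hΩ F hd hm hθ hθ0 hpde hDw (fun j => h.nonneg j t htJ)
    (hpos t ht) hΔ
  have hwc : ∀ j, ContinuousOn (u j t) (closure Ω) := fun j => (hDw j).continuousOn
  have hrc : ContinuousOn (rel θ fun j => u j t) (closure Ω) := rel_continuousOn hθc hθ0 hwc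
  have hrpos : ∀ x ∈ closure Ω, 0 < rel θ (fun j => u j t) x k ∧
      ∀ j, 0 ≤ rel θ (fun j => u j t) x j := fun x hx =>
    ⟨div_pos (hpos t ht x hx) (hθ0 x hx), fun j => div_nonneg (h.nonneg j t htJ x hx) (hθ0 x hx).le⟩
  -- the remainder
  obtain ⟨R, hR⟩ : ∃ R : EuclideanSpace ℝ (Fin n) → ℝ, R = fun x => ∑ j ∈ (insert k A)ᶜ, u j t x :=
    ⟨_, rfl⟩
  have hRc : ContinuousOn R (closure Ω) := by
    rw [hR]; exact continuousOn_finsetSum _ fun j _ => hwc j
  have hR0 : ∀ x ∈ closure Ω, 0 ≤ R x := by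
    intro x hx; rw [hR]
    exact Finset.sum_nonneg fun j _ => h.nonneg j t htJ x hx
  have hRr : ∀ x ∈ closure Ω, R x ≤ r := by rw [hR]; exact hr
  have hsplit : ∀ x, ∑ i, u i t x = (u k t x + ∑ j ∈ A, u j t x) + R x := by
    intro x
    have h1 := Finset.sum_insert (f := fun j => u j t x) hkA
    have h2 := Finset.sum_add_sum_compl (insert k A) (fun j => u j t x)
    simp only [hR]
    linarith
  have hGRc : ContinuousOn (fun x => θ x ^ 2 * F.Gc (rel θ (fun j => u j t) x) * R x)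
      (closure Ω) :=
    ((hθc.pow 2).mul (F.Gc_cont.comp_continuousOn hrc)).mul hRc
  have hpt : ∀ x ∈ Ω, ∑ j, θ x * F.h j (rel θ (fun j => u j t) x) * u' j t x =
      ∑ j, θ x * F.h j (rel θ (fun j => u j t) x) * (d j * Δ (u j t) x
        + u j t x * (m x - (u k t x + ∑ j ∈ A, u j t x)))
      - θ x ^ 2 * F.Gc (rel θ (fun j => u j t) x) * R x := by
    intro x hx
    have hxc := subset_closure hx
    rw [← F.Gc_eq _ (hrpos x hxc).1 (hrpos x hxc).2]
    have h1 : θ x ^ 2 * (∑ j, rel θ (fun j => u j t) x j * F.h j (rel θ (fun j => u j t) x)) * R x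
        = ∑ j, θ x * F.h j (rel θ (fun j => u j t) x) * (u j t x * R x) := by
      rw [Finset.mul_sum, Finset.sum_mul]
      apply Finset.sum_congr rfl
      intro j _
      have h2 : u j t x = θ x * rel θ (fun j => u j t) x j := by
        simp only [rel]
        field_simp [(hθ0 x hxc).ne']
      rw [h2]; ring
    rw [h1, ← Finset.sum_sub_distrib]
    apply Finset.sum_congr rfl
    intro j _
    rw [h.pde j t htJ x hx, hsplit x]
    ring
  have hhc : ∀ j, ContinuousOn (fun x => F.h j (rel θ (fun j => u j t) x)) (closure Ω) := fun j =>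
    (F.h_cont j).comp hrc fun x hx => F.dom _ (hrpos x hx).1 (hrpos x hx).2
  have hint0 : IntegrableOn (fun x => ∑ j, θ x * F.h j (rel θ (fun j => u j t) x) * u' j t x)
      Ω volume :=
    continuous_integrableOn hΩ (continuousOn_finsetSum _ fun j _ =>
      (hθc.mul (hhc j)).mul (hslice _ (h.cont' j)))
  have hint2 : IntegrableOn (fun x => θ x ^ 2 * F.Gc (rel θ (fun j => u j t) x) * R x) Ω volume :=
    continuous_integrableOn hΩ hGRc
  have hint1 : IntegrableOn (fun x => ∑ j, θ x * F.h j (rel θ (fun j => u j t) x) *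
      (d j * Δ (u j t) x + u j t x * (m x - (u k t x + ∑ j ∈ A, u j t x)))) Ω volume := by
    have h1 := hint0.add hint2
    refine h1.congr_fun ?_ hΩ.isOpen.measurableSet
    intro x hx
    simp only [Pi.add_apply]
    rw [hpt x hx]
    ring
  rw [setIntegral_congr_fun hΩ.isOpen.measurableSet hpt, integral_sub hint1 hint2, hen]
  -- lower bound of the form
  have hform : F.κ * (∫ x in Ω, gpart A θ Dθ (fun j => u j t) Dw x) ≤
      ∫ x in Ω, dform F θ Dθ (fun j => u j t) Dw x := by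
    rw [← integral_const_mul]
    have hgc := gpart_continuousOn (A := A) hθ hθ0 hDw
    have hrjc : ∀ j, ContinuousOn (fun x => rel θ (fun j => u j t) x j) (closure Ω) := fun j =>
      (continuousOn_pi.1 hrc) j
    have hDθc : ∀ c, ContinuousOn (fun x => Dθ x (ev n c)) (closure Ω) := fun c =>
      hθ.cont.clm_apply continuousOn_const
    have hDwc : ∀ j c, ContinuousOn (fun x => Dw j x (ev n c)) (closure Ω) := fun j c =>
      (hDw j).cont.clm_apply continuousOn_const
    have hxic : ∀ c j, ContinuousOn (fun x => xi θ Dθ (fun j => u j t) Dw x c j) (closure Ω) :=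
      fun c j => (hDwc j c).sub ((hrjc j).mul (hDθc c))
    have hhhc : ∀ i j, ContinuousOn (fun x => F.hh i j (rel θ (fun j => u j t) x))
        (closure Ω) := fun i j =>
      (F.hh_cont i j).comp hrc fun x hx => F.dom _ (hrpos x hx).1 (hrpos x hx).2
    have hdh : ∀ j c, ContinuousOn (fun x => ∑ l, F.hh j l (rel θ (fun j => u j t) x) *
        xi θ Dθ (fun j => u j t) Dw x c l) (closure Ω) := fun j c =>
      continuousOn_finsetSum _ fun l _ => (hhhc j l).mul (hxic c l)
    have hdc : ContinuousOn (dform F θ Dθ (fun j => u j t) Dw) (closure Ω) := by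
      unfold dform
      apply continuousOn_finsetSum
      intro c _
      apply ContinuousOn.add
      · exact continuousOn_const.mul (continuousOn_finsetSum _ fun i _ => (hdh i c).mul (hxic c i))
      · apply continuousOn_finsetSum
        intro j _
        exact (continuousOn_const.mul ((hxic c j).add ((hDθc c).mul (hrjc j)))).mul
          ((hdh j c).add ((hDθc c).mul (hhc j)))
    apply setIntegral_mono_on ((continuous_integrableOn hΩ hgc).const_mul _)
      (continuous_integrableOn hΩ hdc) hΩ.isOpen.measurableSet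
    intro x hx
    exact dform_ge F (hrpos x (subset_closure hx)).1 (hrpos x (subset_closure hx)).2
  have hrem : |∫ x in Ω, θ x ^ 2 * F.Gc (rel θ (fun j => u j t) x) * R x| ≤
      Cb * volume.real Ω * r := by
    have h1 : ‖∫ x in Ω, θ x ^ 2 * F.Gc (rel θ (fun j => u j t) x) * R x‖ ≤
        (Cb * r) * volume.real Ω := by
      apply norm_setIntegral_le_of_norm_le_const hvol
      intro x hx
      have hxc := subset_closure hx
      rw [norm_mul, norm_mul, Real.norm_of_nonneg (hR0 x hxc)]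
      apply mul_le_mul _ (hRr x hxc) (hR0 x hxc) hCb0
      rw [hCb]
      apply mul_le_mul ((hC2 x hxc).trans (le_max_left _ _)) _ (norm_nonneg _) (le_max_right _ _)
      refine (hC1 _ ?_).trans (le_max_left _ _)
      rw [Set.mem_univ_pi]
      intro j
      exact ⟨(hrpos x hxc).2 j, div_le_div₀ hM (h.bound j t htJ x hxc) hθ00 (hθlow x hxc)⟩
    rw [Real.norm_eq_abs] at h1
    linarith
  unfold dis rpart
  have := (abs_le.1 hrem).1
  linarith

/-- a differentiable function that decreases at a definite rate above level `c`. -/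
theorem decay {V V' : ℝ → ℝ} {a b c δ : ℝ} (hab : a ≤ b) (hδ : 0 < δ)
    (hV : ∀ t ∈ Icc a b, HasDerivAt V (V' t) t) (hdec : ∀ t ∈ Icc a b, c ≤ V t → V' t ≤ -δ) :
    V b ≤ c ∨ V b ≤ V a - δ * (b - a) := by
  by_cases hex : ∃ s ∈ Icc a b, V s ≤ c
  · left
    obtain ⟨s, hs, hVs⟩ := hex
    have h1 := image_le_of_deriv_right_lt_deriv_boundary (f := V) (f' := V') (a := s) (b := b)
      (B := fun _ => c) (B' := fun _ => 0)
      (fun t ht => (hV t ⟨hs.1.trans ht.1, ht.2⟩).continuousAt.continuousWithinAt)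
      (fun t ht => (hV t ⟨hs.1.trans ht.1, ht.2.le⟩).hasDerivWithinAt) hVs
      (fun t => hasDerivAt_const t c)
      (fun t ht heq => by
        have := hdec t ⟨hs.1.trans ht.1, ht.2.le⟩ heq.ge
        linarith)
    exact h1 ⟨hs.2, le_rfl⟩
  · right
    push Not at hex
    have h1 := image_le_of_deriv_right_le_deriv_boundary (f := V) (f' := V') (a := a) (b := b)
      (B := fun t => V a - δ * (t - a)) (B' := fun _ => -δ)
      (fun t ht => (hV t ht).continuousAt.continuousWithinAt)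
      (fun t ht => (hV t ⟨ht.1, ht.2.le⟩).hasDerivWithinAt) (by simp)
      (by fun_prop)
      (fun t ht => by
        have := (((hasDerivAt_id t).sub_const a).const_mul δ).const_sub (V a)
        exact (this.congr_deriv (by ring)).hasDerivWithinAt)
      (fun t ht => hdec t ⟨ht.1, ht.2.le⟩ (hex t ⟨ht.1, ht.2.le⟩).le)
    exact h1 ⟨hab, le_rfl⟩

end Run7.h350
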