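import Pool.Agent.Run7.h350.Dyn2

open Set Filter Topology MeasureTheory
open scoped ContDiff Laplacian

namespace Run7.h350

variable {n N : ℕ} {Ω : Set (EuclideanSpace ℝ (Fin n))} {ρ : EuclideanSpace ℝ (Fin n) → ℝ}

theorem RTraj.exists_C1N {J : Set ℝ} {m : EuclideanSpace ℝ (Fin n) → ℝ} {d : Fin N → ℝ} {M : ℝ}
    {u u' : Fin N → ℝ → EuclideanSpace ℝ (Fin n) → ℝ} (h : RTraj J Ω ρ m d M u u') {t : ℝ}
    (ht : t ∈ J) (j : Fin N) : ∃ D, C1N Ω ρ (u j t) D := by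
  obtain ⟨G, h1, h2, h3⟩ := h.neumann j t ht
  exact ⟨G, h1, h2, h3, h.smooth j t ht⟩

/-- uniform dissipation above a positive level -/
theorem key_dissip (hΩ : SmoothDomain Ω ρ) {k : Fin N} {A : Finset (Fin N)} (hkA : k ∉ A)
    {d : Fin N → ℝ} (F : HFun k A d) {m θ : EuclideanSpace ℝ (Fin n) → ℝ}
    {Dθ : EuclideanSpace ℝ (Fin n) → (EuclideanSpace ℝ (Fin n) →L[ℝ] ℝ)}
    (hm : ContinuousOn m (closure Ω))
    (hθ : C1N Ω ρ θ Dθ) (hθ0 : ∀ x ∈ closure Ω, 0 < θ x)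
    (hpde : ∀ x ∈ Ω, d k * Δ θ x + θ x * (m x - θ x) = 0)
    (hne : ∃ x ∈ Ω, ∃ c, Dθ x (ev n c) ≠ 0)
    {J : Set ℝ} {M : ℝ} (hM : 0 ≤ M) (hdj : ∀ j, 0 < d j)
    {u u' : Fin N → ℝ → EuclideanSpace ℝ (Fin n) → ℝ} (h : RTraj J Ω ρ m d M u u')
    {J' : Set ℝ} (hJ'o : IsOpen J') (hJ' : ∀ t ∈ J', t - 1 ∈ J)
    (hpos : ∀ t ∈ J', ∀ x ∈ closure Ω, 0 < u k t x) {c : ℝ} (hc : 0 < c) :
    ∃ δ > 0, ∃ r0 > 0, ∀ t ∈ J', (∀ x ∈ closure Ω, ∑ j ∈ (insert k A)ᶜ, u j t x ≤ r0) →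
      DifferentiableAt ℝ (fun t => Vf F Ω θ (fun j => u j t)) t ∧
      (c ≤ Vf F Ω θ (fun j => u j t) → deriv (fun t => Vf F Ω θ (fun j => u j t)) t ≤ -δ) := by
  have hθc := hθ.continuousOn
  have hJ'J : J' ⊆ J := fun t ht => h.up _ (hJ' t ht) t (by linarith)
  obtain ⟨L, hL0, hL⟩ := h.exists_lip hΩ hm hM hdj
  obtain ⟨δ1, hδ1, hsmall⟩ := Vf_small hΩ F hθc hθ0 (M := M) (L := L) hc
  obtain ⟨δD, hδD, hlas⟩ := lasalle hΩ F hθ hθ0 hne (M := M) (L := L) hδ1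
  obtain ⟨CV, hCV0, hCV⟩ := V_deriv hΩ hkA F (hdj k) hm hθ hθ0 hpde hM hdj h hJ'o hJ'J hpos
  refine ⟨δD / 2, by positivity, δD / (2 * (CV + 1)), by positivity, ?_⟩
  intro t ht hr
  obtain ⟨V', hV', hVle⟩ := hCV t ht (δD / (2 * (CV + 1))) (by positivity) hr
  refine ⟨hV'.differentiableAt, ?_⟩
  intro hcV
  rw [hV'.deriv]
  have htJ := hJ'J ht
  choose Dw hDw using fun j => h.exists_C1N htJ j
  have hadm : Adm Ω ρ k M L (fun j => u j t) Dw :=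
    ⟨hDw, fun j x hx => ⟨h.nonneg j t htJ x hx, h.bound j t htJ x hx⟩,
      fun j => hL j t (hJ' t ht), hpos t ht⟩
  have h1 : δD ≤ dis F Ω θ Dθ (fun j => u j t) Dw := by
    by_contra hlt
    push Not at hlt
    have h2 := hlas _ _ hadm hlt
    have h3 := hsmall _ _ hadm h2
    linarith
  have h2 := hVle Dw hDw
  have h3 : CV * (δD / (2 * (CV + 1))) ≤ δD / 2 := by
    rw [mul_div_assoc', div_le_div_iff₀ (by positivity) (by norm_num)]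
    nlinarith
  linarith

/-- the functional is nonnegative along a trajectory -/
theorem V_nonneg (hΩ : SmoothDomain Ω ρ) {k : Fin N} {A : Finset (Fin N)}
    {d : Fin N → ℝ} (F : HFun k A d) {θ : EuclideanSpace ℝ (Fin n) → ℝ}
    (hθ0 : ∀ x ∈ closure Ω, 0 < θ x) {w : Fin N → EuclideanSpace ℝ (Fin n) → ℝ}
    (hnn : ∀ j, ∀ x ∈ closure Ω, 0 ≤ w j x) (hpos : ∀ x ∈ closure Ω, 0 < w k x) :
    0 ≤ Vf F Ω θ w := by
  apply setIntegral_nonneg hΩ.isOpen.measurableSet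
  intro x hx
  have hxc := subset_closure hx
  apply mul_nonneg (sq_nonneg _)
  have h1 : 0 < rel θ w x k := div_pos (hpos x hxc) (hθ0 x hxc)
  have h2 : ∀ j, 0 ≤ rel θ w x j := fun j => div_nonneg (hnn j x hxc) (hθ0 x hxc).le
  exact (F.Hb_nonneg _ h2).trans (F.Hb_le _ h1 h2)

/-- **Forward convergence**: if only species in `insert k A` are present and species `k` is
present, the state converges to `E_k`. -/
theorem forward (hΩ : SmoothDomain Ω ρ) {k : Fin N} {A : Finset (Fin N)} (hkA : k ∉ A)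
    {d : Fin N → ℝ} (F : HFun k A d) {m θ : EuclideanSpace ℝ (Fin n) → ℝ}
    {Dθ : EuclideanSpace ℝ (Fin n) → (EuclideanSpace ℝ (Fin n) →L[ℝ] ℝ)}
    (hm : ContinuousOn m (closure Ω))
    (hθ : C1N Ω ρ θ Dθ) (hθ0 : ∀ x ∈ closure Ω, 0 < θ x)
    (hpde : ∀ x ∈ Ω, d k * Δ θ x + θ x * (m x - θ x) = 0)
    (hne : ∃ x ∈ Ω, ∃ c, Dθ x (ev n c) ≠ 0)
    {J : Set ℝ} {M : ℝ} (hM : 0 ≤ M) (hdj : ∀ j, 0 < d j)
    {u u' : Fin N → ℝ → EuclideanSpace ℝ (Fin n) → ℝ} (h : RTraj J Ω ρ m d M u u')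
    (hzero : ∀ j, j ∉ insert k A → ∀ t ∈ J, ∀ x ∈ closure Ω, u j t x = 0)
    {t1 : ℝ} (ht1 : t1 ∈ J) {x1 : EuclideanSpace ℝ (Fin n)} (hx1 : x1 ∈ closure Ω)
    (hx1p : 0 < u k t1 x1) {ε : ℝ} (hε : 0 < ε) :
    ∃ T ∈ J, ∀ t, T ≤ t → ∀ x ∈ closure Ω, |u k t x - θ x| < ε ∧ ∀ j ∈ A, u j t x < ε := by
  have hθc := hθ.continuousOn
  have hJ' : ∀ t ∈ Ioi (t1 + 1), t - 1 ∈ J := fun t ht =>
    h.up t1 ht1 _ (by rw [mem_Ioi] at ht; linarith)
  have hpos : ∀ t ∈ Ioi (t1 + 1), ∀ x ∈ closure Ω, 0 < u k t x := fun t ht =>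
    h.pos_of_pos hΩ hm hM k (hdj k) ht1 hx1 hx1p (by rw [mem_Ioi] at ht; linarith)
  have hJ'J : Ioi (t1 + 1) ⊆ J := fun t ht => h.up _ (hJ' t ht) t (by linarith)
  obtain ⟨L, hL0, hL⟩ := h.exists_lip hΩ hm hM hdj
  obtain ⟨c, hc, hclose⟩ := close_of_Vf_small hΩ F hθc hθ0 (M := M) (L := L) hε
  obtain ⟨δ, hδ, r0, hr0, hkey⟩ := key_dissip hΩ hkA F hm hθ hθ0 hpde hne hM hdj h isOpen_Ioi
    hJ' hpos (half_pos hc)
  have hrem : ∀ t ∈ Ioi (t1 + 1), ∀ x ∈ closure Ω, ∑ j ∈ (insert k A)ᶜ, u j t x ≤ r0 := by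
    intro t ht x hx
    rw [Finset.sum_eq_zero fun j hj => hzero j (by simpa using hj) t (hJ'J ht) x hx]
    exact hr0.le
  obtain ⟨V, hV⟩ : ∃ V : ℝ → ℝ, V = fun t => Vf F Ω θ (fun j => u j t) := ⟨_, rfl⟩
  obtain ⟨a, ha⟩ : ∃ a, a = t1 + 2 := ⟨_, rfl⟩
  refine ⟨a + (V a + 1) / δ, ?_, ?_⟩
  · apply hJ'J
    rw [mem_Ioi, ha]
    have h1 : 0 ≤ V (t1 + 2) := by
      rw [hV]
      have hmem : t1 + 2 ∈ Ioi (t1 + 1) := by rw [mem_Ioi]; linarith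
      exact V_nonneg hΩ F hθ0 (fun j => h.nonneg j _ (hJ'J hmem)) (hpos _ hmem)
    have : 0 ≤ (V (t1 + 2) + 1) / δ := by positivity
    linarith
  intro t ht
  have hVa : 0 ≤ V a := by
    rw [hV, ha]
    have hmem : t1 + 2 ∈ Ioi (t1 + 1) := by rw [mem_Ioi]; linarith
    exact V_nonneg hΩ F hθ0 (fun j => h.nonneg j _ (hJ'J hmem)) (hpos _ hmem)
  have hat : a < t := by
    have : 0 < (V a + 1) / δ := by positivity
    linarith
  have htmem : t ∈ Ioi (t1 + 1) := by rw [mem_Ioi]; linarith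
  have hIcc : ∀ s ∈ Icc a t, s ∈ Ioi (t1 + 1) := fun s hs => by
    rw [mem_Ioi]; linarith [hs.1]
  have hdec := decay (V := V) (V' := deriv V) hat.le hδ (c := c / 2)
    (fun s hs => by
      rw [hV]
      exact (hkey s (hIcc s hs) (hrem s (hIcc s hs))).1.hasDerivAt)
    (fun s hs => by
      rw [hV]
      exact (hkey s (hIcc s hs) (hrem s (hIcc s hs))).2)
  have hVt0 : 0 ≤ V t := by
    rw [hV]
    exact V_nonneg hΩ F hθ0 (fun j => h.nonneg j _ (hJ'J htmem)) (hpos _ htmem)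
  have hVt : V t ≤ c / 2 := by
    rcases hdec with h1 | h1
    · exact h1
    · exfalso
      have h2 : δ * ((V a + 1) / δ) ≤ δ * (t - a) :=
        mul_le_mul_of_nonneg_left (by linarith) hδ.le
      rw [mul_div_cancel₀ _ hδ.ne'] at h2
      linarith
  have htJ := hJ'J htmem
  choose Dw hDw using fun j => h.exists_C1N htJ j
  have hadm : Adm Ω ρ k M L (fun j => u j t) Dw :=
    ⟨hDw, fun j x hx => ⟨h.nonneg j t htJ x hx, h.bound j t htJ x hx⟩,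
      fun j => hL j t (hJ' t htmem), hpos t htmem⟩
  apply hclose _ _ hadm
  rw [hV] at hVt
  simp only at hVt
  linarith

/-- the functional is bounded along a sequence of times going to `-∞`. -/
theorem V_bounded_backward (hΩ : SmoothDomain Ω ρ) {k : Fin N} {A : Finset (Fin N)}
    {d : Fin N → ℝ} (F : HFun k A d) {m θ : EuclideanSpace ℝ (Fin n) → ℝ}
    {Dθ : EuclideanSpace ℝ (Fin n) → (EuclideanSpace ℝ (Fin n) →L[ℝ] ℝ)}
    (hm : ContinuousOn m (closure Ω))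
    (hθ : C1N Ω ρ θ Dθ) (hθ0 : ∀ x ∈ closure Ω, 0 < θ x)
    {M : ℝ} (hM : 0 ≤ M) (hdj : ∀ j, 0 < d j)
    {u u' : Fin N → ℝ → EuclideanSpace ℝ (Fin n) → ℝ} (h : RTraj univ Ω ρ m d M u u')
    {δ0 : ℝ} (hδ0 : 0 < δ0)
    (hfreq : ∀ T, ∃ t ≤ T, ∃ x ∈ closure Ω, δ0 ≤ u k t x) :
    ∃ C0, ∀ T, ∃ t ≤ T, Vf F Ω θ (fun j => u j t) ≤ C0 := by
  have hθc := hθ.continuousOn
  obtain ⟨θ0, hθ00, hθlow⟩ := exists_lower hΩ hθc hθ0
  obtain ⟨Θ, hΘ⟩ := hΩ.isCompact_closure.exists_bound_of_continuousOn hθc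
  obtain ⟨K0, hK0, hK⟩ := h.exists_growth hΩ hm hM
  obtain ⟨L, hL0, hL⟩ := h.exists_lip hΩ hm hM hdj
  obtain ⟨c, hc0, hcpos⟩ := positivity hΩ (hdj k) hK0 (r := δ0 / (2 * (L + 1))) (by positivity)
    (half_pos hδ0) one_pos
  obtain ⟨x00, hx00⟩ := hΩ.connected.nonempty.mono (subset_closure (s := Ω))
  have hΘ0 : 0 < Θ := lt_of_lt_of_le (hθ0 x00 hx00) ((le_abs_self _).trans (hΘ x00 hx00))
  -- compact set of relative densities
  obtain ⟨S, hS⟩ : ∃ S : Set (Fin N → ℝ), S = Set.pi univ fun j : Fin N =>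
      Icc (if j = k then c / Θ else 0) (M / θ0) := ⟨_, rfl⟩
  have hScomp : IsCompact S := by
    rw [hS]; exact isCompact_univ_pi fun _ => isCompact_Icc
  have hSU : S ⊆ F.U := by
    intro s hs
    rw [hS, mem_univ_pi] at hs
    apply F.dom
    · have := (hs k).1
      rw [if_pos rfl] at this
      exact lt_of_lt_of_le (by positivity) this
    · intro j
      have := (hs j).1
      by_cases hj : j = k
      · rw [if_pos hj] at this
        exact le_trans (by positivity) this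
      · rwa [if_neg hj] at this
  obtain ⟨CH, hCH⟩ := hScomp.exists_bound_of_continuousOn (F.H_cont.mono hSU)
  refine ⟨Θ ^ 2 * max CH 0 * volume.real Ω, ?_⟩
  intro T
  obtain ⟨t, htT, x1, hx1, hx1δ⟩ := hfreq (T - 1)
  refine ⟨t + 1, by linarith, ?_⟩
  have hlow : ∀ x ∈ closure Ω, c ≤ u k (t + 1) x := by
    apply hcpos t (u k) (u' k) (h.super k (mem_univ t) hK) x1 hx1
    intro x hx hxr
    have h1 := (abs_le.1 (hL k t (mem_univ _) x hx x1 hx1)).1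
    have h2 : L * ‖x - x1‖ ≤ δ0 / 2 := by
      have h3 : L * ‖x - x1‖ ≤ L * (δ0 / (2 * (L + 1))) :=
        mul_le_mul_of_nonneg_left hxr.le hL0
      have h4 : L * (δ0 / (2 * (L + 1))) ≤ δ0 / 2 := by
        rw [mul_div_assoc', div_le_div_iff₀ (by positivity) (by norm_num)]
        nlinarith
      linarith
    linarith
  have hvol : volume Ω < ⊤ := hΩ.bounded.measure_lt_top
  have h1 : ‖∫ x in Ω, θ x ^ 2 * F.H (rel θ (fun j => u j (t + 1)) x)‖ ≤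
      (Θ ^ 2 * max CH 0) * volume.real Ω := by
    apply norm_setIntegral_le_of_norm_le_const hvol
    intro x hx
    have hxc := subset_closure hx
    rw [norm_mul]
    apply mul_le_mul _ _ (norm_nonneg _) (by positivity)
    · rw [Real.norm_eq_abs, abs_pow]
      exact pow_le_pow_left₀ (abs_nonneg _) (hΘ x hxc) 2
    · refine (hCH _ ?_).trans (le_max_left _ _)
      rw [hS, mem_univ_pi]
      intro j
      refine ⟨?_, div_le_div₀ hM (h.bound j _ (mem_univ _) x hxc) hθ00 (hθlow x hxc)⟩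
      by_cases hj : j = k
      · rw [if_pos hj, hj]
        have h5 : θ x ≤ Θ := (le_abs_self _).trans (hΘ x hxc)
        exact div_le_div₀ (hc0.le.trans (hlow x hxc)) (hlow x hxc) (hθ0 x hxc) h5
      · rw [if_neg hj]
        exact div_nonneg (h.nonneg j _ (mem_univ _) x hxc) (hθ0 x hxc).le
  rw [Real.norm_eq_abs] at h1
  exact (le_abs_self _).trans h1

/-- **Backward convergence**. -/
theorem backward (hΩ : SmoothDomain Ω ρ) {k : Fin N} {A : Finset (Fin N)} (hkA : k ∉ A)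
    {d : Fin N → ℝ} (F : HFun k A d) {m θ : EuclideanSpace ℝ (Fin n) → ℝ}
    {Dθ : EuclideanSpace ℝ (Fin n) → (EuclideanSpace ℝ (Fin n) →L[ℝ] ℝ)}
    (hm : ContinuousOn m (closure Ω))
    (hθ : C1N Ω ρ θ Dθ) (hθ0 : ∀ x ∈ closure Ω, 0 < θ x)
    (hpde : ∀ x ∈ Ω, d k * Δ θ x + θ x * (m x - θ x) = 0)
    (hne : ∃ x ∈ Ω, ∃ c, Dθ x (ev n c) ≠ 0)
    {M : ℝ} (hM : 0 ≤ M) (hdj : ∀ j, 0 < d j)
    {u u' : Fin N → ℝ → EuclideanSpace ℝ (Fin n) → ℝ} (h : RTraj univ Ω ρ m d M u u')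
    {δ0 : ℝ} (hδ0 : 0 < δ0)
    (hfreq : ∀ T, ∃ t ≤ T, ∃ x ∈ closure Ω, δ0 ≤ u k t x) {ε : ℝ} (hε : 0 < ε) :
    ∃ r0 > 0, ∀ T0, (∀ t ≤ T0, ∀ x ∈ closure Ω, ∑ j ∈ (insert k A)ᶜ, u j t x ≤ r0) →
      ∀ t ≤ T0, ∀ x ∈ closure Ω, |u k t x - θ x| < ε ∧ ∀ j ∈ A, u j t x < ε := by
  have hθc := hθ.continuousOn
  have hpos : ∀ t ∈ (univ : Set ℝ), ∀ x ∈ closure Ω, 0 < u k t x := by
    intro t _
    obtain ⟨t1, ht1, x1, hx1, hx1δ⟩ := hfreq (t - 1)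
    exact h.pos_of_pos hΩ hm hM k (hdj k) (mem_univ t1) hx1 (lt_of_lt_of_le hδ0 hx1δ)
      (by linarith)
  obtain ⟨L, hL0, hL⟩ := h.exists_lip hΩ hm hM hdj
  obtain ⟨c, hc, hclose⟩ := close_of_Vf_small hΩ F hθc hθ0 (M := M) (L := L) hε
  obtain ⟨δ, hδ, r0, hr0, hkey⟩ := key_dissip hΩ hkA F hm hθ hθ0 hpde hne hM hdj h isOpen_univ
    (fun t _ => mem_univ _) hpos (half_pos hc)
  obtain ⟨C0, hC0⟩ := V_bounded_backward hΩ F hm hθ hθ0 hM hdj h hδ0 hfreq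
  refine ⟨r0, hr0, ?_⟩
  intro T0 hrem t ht
  obtain ⟨V, hV⟩ : ∃ V : ℝ → ℝ, V = fun t => Vf F Ω θ (fun j => u j t) := ⟨_, rfl⟩
  obtain ⟨a, ha, hVa⟩ := hC0 (min t (t - (C0 + 1) / δ))
  have hat : a ≤ t := ha.trans (min_le_left _ _)
  have hat2 : a ≤ t - (C0 + 1) / δ := ha.trans (min_le_right _ _)
  have hdec := decay (V := V) (V' := deriv V) hat hδ (c := c / 2)
    (fun s hs => by
      rw [hV]
      exact (hkey s (mem_univ s) (hrem s (hs.2.trans ht))).1.hasDerivAt)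
    (fun s hs => by
      rw [hV]
      exact (hkey s (mem_univ s) (hrem s (hs.2.trans ht))).2)
  have hVt0 : 0 ≤ V t := by
    rw [hV]
    exact V_nonneg hΩ F hθ0 (fun j => h.nonneg j _ (mem_univ _)) (hpos _ (mem_univ _))
  have hVt : V t ≤ c / 2 := by
    rcases hdec with h1 | h1
    · exact h1
    · exfalso
      have h2 : δ * ((C0 + 1) / δ) ≤ δ * (t - a) :=
        mul_le_mul_of_nonneg_left (by linarith) hδ.le
      rw [mul_div_cancel₀ _ hδ.ne'] at h2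
      have h3 : V a ≤ C0 := by rw [hV]; exact hVa
      linarith
  choose Dw hDw using fun j => h.exists_C1N (mem_univ t) j
  have hadm : Adm Ω ρ k M L (fun j => u j t) Dw :=
    ⟨hDw, fun j x hx => ⟨h.nonneg j t (mem_univ t) x hx, h.bound j t (mem_univ t) x hx⟩,
      fun j => hL j t (mem_univ _), hpos t (mem_univ t)⟩
  apply hclose _ _ hadm
  rw [hV] at hVt
  simp only at hVt
  linarith

end Run7.h350
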