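import Pool.Agent.Run7.h350.Func

open Set Filter Topology MeasureTheory
open scoped ContDiff Laplacian

namespace Run7.h350

variable {n N : ℕ} {Ω : Set (EuclideanSpace ℝ (Fin n))} {ρ : EuclideanSpace ℝ (Fin n) → ℝ}

/-- `f` is `C²` inside and `C¹` up to the boundary with derivative `Df`, Neumann condition. -/
structure C1N (Ω : Set (EuclideanSpace ℝ (Fin n))) (ρ f : EuclideanSpace ℝ (Fin n) → ℝ)
    (Df : EuclideanSpace ℝ (Fin n) → (EuclideanSpace ℝ (Fin n) →L[ℝ] ℝ)) : Prop where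
  cont : ContinuousOn Df (closure Ω)
  deriv : ∀ x ∈ closure Ω, HasFDerivWithinAt f (Df x) (closure Ω) x
  neumann : ∀ x ∈ frontier Ω, Df x (gradient ρ x) = 0
  smooth : ContDiffOn ℝ 2 f Ω

theorem C1N.neumannC1 {f : EuclideanSpace ℝ (Fin n) → ℝ}
    {Df : EuclideanSpace ℝ (Fin n) → (EuclideanSpace ℝ (Fin n) →L[ℝ] ℝ)}
    (h : C1N Ω ρ f Df) : NeumannC1 Ω ρ f := ⟨Df, h.cont, h.deriv, h.neumann⟩

theorem C1N.continuousOn {f : EuclideanSpace ℝ (Fin n) → ℝ}
    {Df : EuclideanSpace ℝ (Fin n) → (EuclideanSpace ℝ (Fin n) →L[ℝ] ℝ)}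
    (h : C1N Ω ρ f Df) : ContinuousOn f (closure Ω) := fun x hx => (h.deriv x hx).continuousWithinAt

theorem C1N.hasFDerivAt (hΩ : SmoothDomain Ω ρ) {f : EuclideanSpace ℝ (Fin n) → ℝ}
    {Df : EuclideanSpace ℝ (Fin n) → (EuclideanSpace ℝ (Fin n) →L[ℝ] ℝ)}
    (h : C1N Ω ρ f Df) {x : EuclideanSpace ℝ (Fin n)} (hx : x ∈ Ω) : HasFDerivAt f (Df x) x :=
  (h.deriv x (subset_closure hx)).hasFDerivAt
      (mem_of_superset (hΩ.isOpen.mem_nhds hx) subset_closure)

theorem contDiffOn_one_of_hasFDerivAt (hΩ : IsOpen Ω) {f : EuclideanSpace ℝ (Fin n) → ℝ}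
    {f' : EuclideanSpace ℝ (Fin n) → (EuclideanSpace ℝ (Fin n) →L[ℝ] ℝ)}
    (h : ∀ x ∈ Ω, HasFDerivAt f (f' x) x) (hc : ContinuousOn f' Ω) : ContDiffOn ℝ 1 f Ω := by
  have h1 : ContDiffOn ℝ (0 + 1) f Ω := by
    rw [contDiffOn_succ_iff_fderiv_of_isOpen hΩ]
    refine ⟨fun x hx => (h x hx).differentiableAt.differentiableWithinAt, by simp, ?_⟩
    rw [contDiffOn_zero]
    exact hc.congr fun x hx => (h x hx).fderiv
  simpa using h1

/-- `k`-th coordinate vector -/
noncomputable def ev (n : ℕ) (c : Fin n) : EuclideanSpace ℝ (Fin n) := EuclideanSpace.basisFun (Fin n) ℝ c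

/-- relative densities -/
noncomputable def rel (θ : EuclideanSpace ℝ (Fin n) → ℝ) (w : Fin N → EuclideanSpace ℝ (Fin n) → ℝ)
    (x : EuclideanSpace ℝ (Fin n)) : Fin N → ℝ := fun j => w j x / θ x

/-- the vector `ξ` in the direction `c` -/
noncomputable def xi (θ : EuclideanSpace ℝ (Fin n) → ℝ)
    (Dθ : EuclideanSpace ℝ (Fin n) → (EuclideanSpace ℝ (Fin n) →L[ℝ] ℝ))
    (w : Fin N → EuclideanSpace ℝ (Fin n) → ℝ)
    (Dw : Fin N → EuclideanSpace ℝ (Fin n) → (EuclideanSpace ℝ (Fin n) →L[ℝ] ℝ))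
    (x : EuclideanSpace ℝ (Fin n)) (c : Fin n) : Fin N → ℝ := fun j =>
  Dw j x (ev n c) - rel θ w x j * Dθ x (ev n c)

/-- the dissipation form summed over the directions -/
noncomputable def dform {k : Fin N} {A : Finset (Fin N)} {d : Fin N → ℝ} (F : HFun k A d)
    (θ : EuclideanSpace ℝ (Fin n) → ℝ)
    (Dθ : EuclideanSpace ℝ (Fin n) → (EuclideanSpace ℝ (Fin n) →L[ℝ] ℝ))
    (w : Fin N → EuclideanSpace ℝ (Fin n) → ℝ)
    (Dw : Fin N → EuclideanSpace ℝ (Fin n) → (EuclideanSpace ℝ (Fin n) →L[ℝ] ℝ))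
    (x : EuclideanSpace ℝ (Fin n)) : ℝ :=
  ∑ c, (d k * ∑ i, (∑ l, F.hh i l (rel θ w x) * xi θ Dθ w Dw x c l) * xi θ Dθ w Dw x c i
      + ∑ j, (d j - d k) * (xi θ Dθ w Dw x c j + Dθ x (ev n c) * rel θ w x j) *
        (∑ l, F.hh j l (rel θ w x) * xi θ Dθ w Dw x c l + Dθ x (ev n c) * F.h j (rel θ w x)))

theorem rel_continuousOn {θ : EuclideanSpace ℝ (Fin n) → ℝ}
    {w : Fin N → EuclideanSpace ℝ (Fin n) → ℝ} (hθ : ContinuousOn θ (closure Ω))
    (hθ0 : ∀ x ∈ closure Ω, 0 < θ x) (hw : ∀ j, ContinuousOn (w j) (closure Ω)) :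
    ContinuousOn (rel θ w) (closure Ω) := by
  rw [continuousOn_pi]
  intro j
  exact (hw j).div hθ fun x hx => (hθ0 x hx).ne'

theorem energy_identity (hΩ : SmoothDomain Ω ρ) {k : Fin N} {A : Finset (Fin N)} {d : Fin N → ℝ}
    (F : HFun k A d) {m θ : EuclideanSpace ℝ (Fin n) → ℝ}
    {Dθ : EuclideanSpace ℝ (Fin n) → (EuclideanSpace ℝ (Fin n) →L[ℝ] ℝ)}
    {w : Fin N → EuclideanSpace ℝ (Fin n) → ℝ}
    {Dw : Fin N → EuclideanSpace ℝ (Fin n) → (EuclideanSpace ℝ (Fin n) →L[ℝ] ℝ)}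
    (hd : 0 < d k) (hm : ContinuousOn m (closure Ω))
    (hθ : C1N Ω ρ θ Dθ) (hθ0 : ∀ x ∈ closure Ω, 0 < θ x)
    (hpde : ∀ x ∈ Ω, d k * Δ θ x + θ x * (m x - θ x) = 0)
    (hw : ∀ j, C1N Ω ρ (w j) (Dw j)) (hnn : ∀ j, ∀ x ∈ closure Ω, 0 ≤ w j x)
    (hpos : ∀ x ∈ closure Ω, 0 < w k x)
    (hΔ : ∀ j, ∃ C, ∀ x ∈ Ω, |Δ (w j) x| ≤ C) :
    ∫ x in Ω, ∑ j, θ x * F.h j (rel θ w x) * (d j * Δ (w j) x
      + w j x * (m x - (w k x + ∑ j ∈ A, w j x))) =
    - (∫ x in Ω, dform F θ Dθ w Dw x)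
      - ∫ x in Ω, θ x ^ 3 * ((tot k A (rel θ w x) - 1) * F.Gc (rel θ w x)) := by
  have hθc := hθ.continuousOn
  have hwc := fun j => (hw j).continuousOn
  have hrc : ContinuousOn (rel θ w) (closure Ω) := rel_continuousOn hθc hθ0 hwc
  have hrpos : ∀ x ∈ closure Ω, 0 < rel θ w x k ∧ ∀ j, 0 ≤ rel θ w x j := fun x hx =>
    ⟨div_pos (hpos x hx) (hθ0 x hx), fun j => div_nonneg (hnn j x hx) (hθ0 x hx).le⟩
  have hrU : ∀ x ∈ closure Ω, rel θ w x ∈ F.U := fun x hx =>
    F.dom _ (hrpos x hx).1 (hrpos x hx).2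
  have hhc : ∀ j, ContinuousOn (fun x => F.h j (rel θ w x)) (closure Ω) := fun j =>
    (F.h_cont j).comp hrc hrU
  have hhhc : ∀ i j, ContinuousOn (fun x => F.hh i j (rel θ w x)) (closure Ω) := fun i j =>
    (F.hh_cont i j).comp hrc hrU
  have hDθc : ∀ c, ContinuousOn (fun x => Dθ x (ev n c)) (closure Ω) := fun c =>
    hθ.cont.clm_apply continuousOn_const
  have hDwc : ∀ j c, ContinuousOn (fun x => Dw j x (ev n c)) (closure Ω) := fun j c =>
    (hw j).cont.clm_apply continuousOn_const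
  have hrjc : ∀ j, ContinuousOn (fun x => rel θ w x j) (closure Ω) := fun j =>
    (continuousOn_pi.1 hrc) j
  have hxic : ∀ c j, ContinuousOn (fun x => xi θ Dθ w Dw x c j) (closure Ω) := fun c j =>
    (hDwc j c).sub ((hrjc j).mul (hDθc c))
  have hdh : ∀ j c, ContinuousOn (fun x => ∑ l, F.hh j l (rel θ w x) * xi θ Dθ w Dw x c l)
      (closure Ω) := fun j c => continuousOn_finsetSum _ fun l _ => (hhhc j l).mul (hxic c l)
  -- derivatives of the relative densities
  have hrd : ∀ x ∈ Ω, ∀ j, HasFDerivAt (fun y => rel θ w y j)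
      ((1 / θ x) • (Dw j x - rel θ w x j • Dθ x)) x := by
    intro x hx j
    have hθx := (hθ0 x (subset_closure hx)).ne'
    have h0 := (hasDerivAt_inv hθx).comp_hasFDerivAt x (hθ.hasFDerivAt hΩ hx)
    have h1 := ((hw j).hasFDerivAt hΩ hx).mul h0
    have h2 : (fun y => rel θ w y j) = (w j) * (Inv.inv ∘ θ) := by
      ext y
      simp only [rel, div_eq_mul_inv, Pi.mul_apply, Function.comp]
    rw [h2]
    refine h1.congr_fderiv ?_
    ext v
    simp only [smul_apply, add_apply, sub_apply, smul_eq_mul, rel, Function.comp]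
    field_simp
    ring
  have hxi : ∀ x ∈ Ω, ∀ j c, θ x * ((1 / θ x) • (Dw j x - rel θ w x j • Dθ x)) (ev n c)
      = xi θ Dθ w Dw x c j := by
    intro x hx j c
    have hθx := (hθ0 x (subset_closure hx)).ne'
    simp only [smul_apply, sub_apply, smul_eq_mul, xi]
    field_simp
  -- derivative of f_j
  have hfd : ∀ x ∈ Ω, ∀ j, HasFDerivAt (fun y => θ y * F.h j (rel θ w y))
      (θ x • (∑ l, F.hh j l (rel θ w x) • ((1 / θ x) • (Dw l x - rel θ w x l • Dθ x)))
        + F.h j (rel θ w x) • Dθ x) x := by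
    intro x hx j
    exact (hθ.hasFDerivAt hΩ hx).mul (F.dh_comp j (hrd x hx) (hrU x (subset_closure hx)))
  have hfpd : ∀ x ∈ Ω, ∀ j c, pd c (fun y => θ y * F.h j (rel θ w y)) x =
      Dθ x (ev n c) * F.h j (rel θ w x) + ∑ l, F.hh j l (rel θ w x) * xi θ Dθ w Dw x c l := by
    intro x hx j c
    unfold pd
    rw [(hfd x hx j).fderiv]
    simp only [add_apply, smul_apply, smul_eq_mul, sum_apply]
    have : (EuclideanSpace.basisFun (Fin n) ℝ) c = ev n c := rfl
    rw [this, Finset.mul_sum, add_comm]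
    congr 1
    · ring
    · apply Finset.sum_congr rfl
      intro l _
      rw [← hxi x hx l c]
      simp only [smul_apply, smul_eq_mul]
      ring
  have hfC1 : ∀ j, ContDiffOn ℝ 1 (fun y => θ y * F.h j (rel θ w y)) Ω := by
    intro j
    apply contDiffOn_one_of_hasFDerivAt hΩ.isOpen (fun x hx => hfd x hx j)
    have hsub : Ω ⊆ closure Ω := subset_closure
    apply ContinuousOn.add
    · apply ContinuousOn.smul (hθc.mono hsub)
      apply continuousOn_finsetSum
      intro l _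
      have hinv : ContinuousOn (fun x => 1 / θ x) Ω :=
        continuousOn_const.div (hθc.mono hsub) fun x hx => (hθ0 x (hsub hx)).ne'
      exact ((hhhc j l).mono hsub).smul (hinv.smul (((hw l).cont.mono hsub).sub
        (((hrjc l).mono hsub).smul (hθ.cont.mono hsub))))
    · exact ((hhc j).mono hsub).smul (hθ.cont.mono hsub)
  -- derivative of g
  have hgd : ∀ x ∈ Ω, HasFDerivAt (fun y => θ y * ∑ j, rel θ w y j * F.h j (rel θ w y))
      (θ x • (∑ j, (rel θ w x j • (∑ l, F.hh j l (rel θ w x) •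
          ((1 / θ x) • (Dw l x - rel θ w x l • Dθ x)))
        + F.h j (rel θ w x) • ((1 / θ x) • (Dw j x - rel θ w x j • Dθ x))))
        + (∑ j, rel θ w x j * F.h j (rel θ w x)) • Dθ x) x := by
    intro x hx
    have h1 : HasFDerivAt (fun y => ∑ j, rel θ w y j * F.h j (rel θ w y))
        (∑ j, (rel θ w x j • (∑ l, F.hh j l (rel θ w x) •
          ((1 / θ x) • (Dw l x - rel θ w x l • Dθ x)))
        + F.h j (rel θ w x) • ((1 / θ x) • (Dw j x - rel θ w x j • Dθ x)))) x := by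
      apply HasFDerivAt.fun_sum
      intro j _
      exact (hrd x hx j).mul (F.dh_comp j (hrd x hx) (hrU x (subset_closure hx)))
    exact (hθ.hasFDerivAt hΩ hx).mul h1
  have hgpd : ∀ x ∈ Ω, ∀ c, pd c (fun y => θ y * ∑ j, rel θ w y j * F.h j (rel θ w y)) x =
      Dθ x (ev n c) * (∑ j, rel θ w x j * F.h j (rel θ w x))
      + ∑ j, (xi θ Dθ w Dw x c j * F.h j (rel θ w x)
        + rel θ w x j * ∑ l, F.hh j l (rel θ w x) * xi θ Dθ w Dw x c l) := by
    intro x hx c
    unfold pd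
    rw [(hgd x hx).fderiv]
    simp only [add_apply, smul_apply, smul_eq_mul, sum_apply]
    have : (EuclideanSpace.basisFun (Fin n) ℝ) c = ev n c := rfl
    rw [this, Finset.mul_sum, add_comm]
    congr 1
    · ring
    · apply Finset.sum_congr rfl
      intro j _
      rw [← hxi x hx j c]
      have h2 : ∑ l, F.hh j l (rel θ w x) * xi θ Dθ w Dw x c l
        = θ x * ∑ l, F.hh j l (rel θ w x) * ((1 / θ x) • (Dw l x - rel θ w x l • Dθ x)) (ev n c) := by
        rw [Finset.mul_sum]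
        apply Finset.sum_congr rfl
        intro l _
        rw [← hxi x hx l c]; ring
      rw [h2]
      simp only [smul_apply, smul_eq_mul]
      ring
  have hgC1 : ContDiffOn ℝ 1 (fun y => θ y * ∑ j, rel θ w y j * F.h j (rel θ w y)) Ω := by
    apply contDiffOn_one_of_hasFDerivAt hΩ.isOpen hgd
    have hsub : Ω ⊆ closure Ω := subset_closure
    have hinv : ContinuousOn (fun x => 1 / θ x) Ω :=
      continuousOn_const.div (hθc.mono hsub) fun x hx => (hθ0 x (hsub hx)).ne'
    have hr' : ∀ l, ContinuousOn (fun x => (1 / θ x) • (Dw l x - rel θ w x l • Dθ x)) Ω :=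
      fun l => hinv.smul (((hw l).cont.mono hsub).sub
        (((hrjc l).mono hsub).smul (hθ.cont.mono hsub)))
    apply ContinuousOn.add
    · apply ContinuousOn.smul (hθc.mono hsub)
      apply continuousOn_finsetSum
      intro j _
      apply ContinuousOn.add
      · apply ContinuousOn.smul ((hrjc j).mono hsub)
        apply continuousOn_finsetSum
        intro l _
        exact ((hhhc j l).mono hsub).smul (hr' l)
      · exact ((hhc j).mono hsub).smul (hr' j)
    · have h1 : ContinuousOn (fun x => ∑ j, rel θ w x j * F.h j (rel θ w x)) Ω :=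
        continuousOn_finsetSum _ fun j _ => ((hrjc j).mono hsub).mul ((hhc j).mono hsub)
      exact h1.smul (hθ.cont.mono hsub)
  -- boundedness helpers
  have hbdd : ∀ f : EuclideanSpace ℝ (Fin n) → ℝ, ContinuousOn f (closure Ω) →
      ∃ C, ∀ x ∈ closure Ω, |f x| ≤ C := fun f hf =>
    hΩ.isCompact_closure.exists_bound_of_continuousOn (f := f) hf
  have hbddc : ∀ f : Fin n → EuclideanSpace ℝ (Fin n) → ℝ,
      (∀ c, ContinuousOn (f c) (closure Ω)) →
      ∃ C, 0 ≤ C ∧ ∀ c, ∀ x ∈ closure Ω, |f c x| ≤ C := by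
    intro f hf
    choose C hC using fun c => hbdd (f c) (hf c)
    refine ⟨∑ c, |C c|, Finset.sum_nonneg fun c _ => abs_nonneg _, ?_⟩
    intro c x hx
    calc |f c x| ≤ C c := hC c x hx
      _ ≤ |C c| := le_abs_self _
      _ ≤ ∑ c, |C c| := Finset.single_le_sum (f := fun c => |C c|)
          (fun i _ => abs_nonneg _) (Finset.mem_univ c)
  have hfc : ∀ j, ContinuousOn (fun y => θ y * F.h j (rel θ w y)) (closure Ω) := fun j =>
    hθc.mul (hhc j)
  have hgc : ContinuousOn (fun y => θ y * ∑ j, rel θ w y j * F.h j (rel θ w y)) (closure Ω) :=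
    hθc.mul (continuousOn_finsetSum _ fun j _ => (hrjc j).mul (hhc j))
  have hfpc : ∀ j c, ContinuousOn (fun x => Dθ x (ev n c) * F.h j (rel θ w x)
      + ∑ l, F.hh j l (rel θ w x) * xi θ Dθ w Dw x c l) (closure Ω) := fun j c =>
    ((hDθc c).mul (hhc j)).add (hdh j c)
  have hgpc : ∀ c, ContinuousOn (fun x => Dθ x (ev n c) * (∑ j, rel θ w x j * F.h j (rel θ w x))
      + ∑ j, (xi θ Dθ w Dw x c j * F.h j (rel θ w x)
        + rel θ w x j * ∑ l, F.hh j l (rel θ w x) * xi θ Dθ w Dw x c l)) (closure Ω) := fun c =>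
    ((hDθc c).mul (continuousOn_finsetSum _ fun j _ => (hrjc j).mul (hhc j))).add
      (continuousOn_finsetSum _ fun j _ => ((hxic c j).mul (hhc j)).add
        ((hrjc j).mul (hdh j c)))
  -- bound of the Laplacian of θ
  have hΔθ : ∃ C, ∀ x ∈ Ω, |Δ θ x| ≤ C := by
    obtain ⟨C, hC⟩ := hbdd (fun x => θ x * (m x - θ x)) (hθc.mul (hm.sub hθc))
    refine ⟨C / d k, fun x hx => ?_⟩
    have h1 := hpde x hx
    have h2 : Δ θ x = -(θ x * (m x - θ x)) / d k := by
      field_simp; linarith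
    rw [h2, abs_div, abs_neg, abs_of_pos hd]
    exact div_le_div_of_nonneg_right (hC x (subset_closure hx)) hd.le
  -- Green identities
  have hG1 : ∀ j, ∫ x in Ω, (∑ c, pd c (fun y => θ y * F.h j (rel θ w y)) x * pd c (w j) x
      + θ x * F.h j (rel θ w x) * Δ (w j) x) = 0 := by
    intro j
    obtain ⟨C1, hC1⟩ := hbdd _ (hfc j)
    obtain ⟨C2, hC20, hC2⟩ := hbddc _ (hfpc j)
    obtain ⟨C3, hC3⟩ := hΔ j
    apply green hΩ (Cf := max C1 C2) (hfC1 j) _ (hw j).neumannC1 (hw j).smooth hC3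
    intro x hx
    refine ⟨(hC1 x (subset_closure hx)).trans (le_max_left _ _), fun c => ?_⟩
    rw [hfpd x hx j c]
    exact (hC2 c x (subset_closure hx)).trans (le_max_right _ _)
  have hG2 : ∫ x in Ω, (∑ c, pd c (fun y => θ y * ∑ j, rel θ w y j * F.h j (rel θ w y)) x
      * pd c θ x + (θ x * ∑ j, rel θ w x j * F.h j (rel θ w x)) * Δ θ x) = 0 := by
    obtain ⟨C1, hC1⟩ := hbdd _ hgc
    obtain ⟨C2, hC20, hC2⟩ := hbddc _ hgpc
    obtain ⟨C3, hC3⟩ := hΔθ
    apply green hΩ (Cf := max C1 C2) hgC1 _ hθ.neumannC1 hθ.smooth hC3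
    intro x hx
    refine ⟨(hC1 x (subset_closure hx)).trans (le_max_left _ _), fun c => ?_⟩
    rw [hgpd x hx c]
    exact (hC2 c x (subset_closure hx)).trans (le_max_right _ _)
  -- integrability of the Green integrands
  have hsub : Ω ⊆ closure Ω := subset_closure
  have hpdw : ∀ j c, ∀ x ∈ Ω, pd c (w j) x = Dw j x (ev n c) := by
    intro j c x hx
    unfold pd
    rw [((hw j).hasFDerivAt hΩ hx).fderiv]
    rfl
  have hpdθ : ∀ c, ∀ x ∈ Ω, pd c θ x = Dθ x (ev n c) := by
    intro c x hx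
    unfold pd
    rw [(hθ.hasFDerivAt hΩ hx).fderiv]
    rfl
  have hI1 : ∀ j, IntegrableOn (fun x => ∑ c, pd c (fun y => θ y * F.h j (rel θ w y)) x
      * pd c (w j) x + θ x * F.h j (rel θ w x) * Δ (w j) x) Ω volume := by
    intro j
    apply Integrable.add
    · have h1 : IntegrableOn (fun x => ∑ c, (Dθ x (ev n c) * F.h j (rel θ w x)
        + ∑ l, F.hh j l (rel θ w x) * xi θ Dθ w Dw x c l) * Dw j x (ev n c)) Ω volume :=
        continuous_integrableOn hΩ (continuousOn_finsetSum _ fun c _ =>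
          (hfpc j c).mul (hDwc j c))
      refine h1.congr_fun ?_ hΩ.isOpen.measurableSet
      intro x hx
      apply Finset.sum_congr rfl
      intro c _
      rw [hfpd x hx j c, hpdw j c x hx]
    · obtain ⟨C1, hC1⟩ := hbdd _ (hfc j)
      obtain ⟨C3, hC3⟩ := hΔ j
      apply integrableOn_of_continuousOn_bounded (C := C1 * C3) hΩ.isOpen hΩ.bounded
      · exact ((hfc j).mono hsub).mul (ContDiffOn.laplacian_continuousOn hΩ.isOpen (hw j).smooth)
      · intro x hx
        rw [abs_mul]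
        exact mul_le_mul (hC1 x (hsub hx)) (hC3 x hx) (abs_nonneg _)
          ((abs_nonneg _).trans (hC1 x (hsub hx)))
  have hI2 : IntegrableOn (fun x => ∑ c, pd c (fun y => θ y * ∑ j, rel θ w y j *
      F.h j (rel θ w y)) x * pd c θ x + (θ x * ∑ j, rel θ w x j * F.h j (rel θ w x)) * Δ θ x)
      Ω volume := by
    apply Integrable.add
    · have h1 : IntegrableOn (fun x => ∑ c, (Dθ x (ev n c) *
        (∑ j, rel θ w x j * F.h j (rel θ w x))
        + ∑ j, (xi θ Dθ w Dw x c j * F.h j (rel θ w x)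
        + rel θ w x j * ∑ l, F.hh j l (rel θ w x) * xi θ Dθ w Dw x c l)) * Dθ x (ev n c)) Ω volume :=
        continuous_integrableOn hΩ (continuousOn_finsetSum _ fun c _ =>
          (hgpc c).mul (hDθc c))
      refine h1.congr_fun ?_ hΩ.isOpen.measurableSet
      intro x hx
      apply Finset.sum_congr rfl
      intro c _
      rw [hgpd x hx c, hpdθ c x hx]
    · obtain ⟨C1, hC1⟩ := hbdd _ hgc
      obtain ⟨C3, hC3⟩ := hΔθ
      apply integrableOn_of_continuousOn_bounded (C := C1 * C3) hΩ.isOpen hΩ.bounded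
      · exact (hgc.mono hsub).mul (ContDiffOn.laplacian_continuousOn hΩ.isOpen hθ.smooth)
      · intro x hx
        rw [abs_mul]
        exact mul_le_mul (hC1 x (hsub hx)) (hC3 x hx) (abs_nonneg _)
          ((abs_nonneg _).trans (hC1 x (hsub hx)))
  -- the combined identity
  have hcomb : ∫ x in Ω, ((∑ j, d j * (∑ c, pd c (fun y => θ y * F.h j (rel θ w y)) x
      * pd c (w j) x + θ x * F.h j (rel θ w x) * Δ (w j) x))
      - d k * (∑ c, pd c (fun y => θ y * ∑ j, rel θ w y j * F.h j (rel θ w y)) x * pd c θ x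
        + (θ x * ∑ j, rel θ w x j * F.h j (rel θ w x)) * Δ θ x)) = 0 := by
    rw [integral_sub, integral_finsetSum, integral_const_mul, hG2, mul_zero, sub_zero]
    · apply Finset.sum_eq_zero
      intro j _
      rw [integral_const_mul, hG1 j, mul_zero]
    · intro j _
      exact (hI1 j).const_mul _
    · exact integrable_finsetSum _ fun j _ => (hI1 j).const_mul _
    · exact hI2.const_mul _
  have hIcomb : IntegrableOn (fun x => (∑ j, d j * (∑ c, pd c (fun y => θ y * F.h j (rel θ w y)) x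
      * pd c (w j) x + θ x * F.h j (rel θ w x) * Δ (w j) x))
      - d k * (∑ c, pd c (fun y => θ y * ∑ j, rel θ w y j * F.h j (rel θ w y)) x * pd c θ x
        + (θ x * ∑ j, rel θ w x j * F.h j (rel θ w x)) * Δ θ x)) Ω volume :=
    (integrable_finsetSum _ fun j _ => (hI1 j).const_mul _).sub (hI2.const_mul _)
  have hIform : IntegrableOn (dform F θ Dθ w Dw) Ω volume := by
    apply continuous_integrableOn hΩ
    unfold dform
    apply continuousOn_finsetSum
    intro c _
    apply ContinuousOn.add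
    · exact continuousOn_const.mul (continuousOn_finsetSum _ fun i _ => (hdh i c).mul (hxic c i))
    · apply continuousOn_finsetSum
      intro j _
      exact (continuousOn_const.mul ((hxic c j).add ((hDθc c).mul (hrjc j)))).mul
        ((hdh j c).add ((hDθc c).mul (hhc j)))
  have hIG : IntegrableOn (fun x => θ x ^ 3 * ((tot k A (rel θ w x) - 1) * F.Gc (rel θ w x)))
      Ω volume := by
    apply continuous_integrableOn hΩ
    apply (hθc.pow 3).mul
    apply ContinuousOn.mul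
    · unfold tot
      exact ((hrjc k).add (continuousOn_finsetSum _ fun j _ => hrjc j)).sub continuousOn_const
    · exact F.Gc_cont.comp_continuousOn hrc
  -- pointwise identity
  have hpt : ∀ x ∈ Ω, ∑ j, θ x * F.h j (rel θ w x) * (d j * Δ (w j) x
      + w j x * (m x - (w k x + ∑ j ∈ A, w j x))) =
      ((∑ j, d j * (∑ c, pd c (fun y => θ y * F.h j (rel θ w y)) x
      * pd c (w j) x + θ x * F.h j (rel θ w x) * Δ (w j) x))
      - d k * (∑ c, pd c (fun y => θ y * ∑ j, rel θ w y j * F.h j (rel θ w y)) x * pd c θ x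
        + (θ x * ∑ j, rel θ w x j * F.h j (rel θ w x)) * Δ θ x))
      - dform F θ Dθ w Dw x
      - θ x ^ 3 * ((tot k A (rel θ w x) - 1) * F.Gc (rel θ w x)) := by
    intro x hx
    have hxc := hsub hx
    have hθx := (hθ0 x hxc).ne'
    rw [← F.Gc_eq _ (hrpos x hxc).1 (hrpos x hxc).2]
    have hUA : w k x + ∑ j ∈ A, w j x = θ x * tot k A (rel θ w x) := by
      simp only [tot, rel]
      rw [mul_add, Finset.mul_sum]
      congr 1
      · field_simp
      · apply Finset.sum_congr rfl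
        intro j _
        field_simp
    have hwj : ∀ j, w j x = θ x * rel θ w x j := by
      intro j
      simp only [rel]; field_simp
    have hΔθx : d k * Δ θ x = -(θ x * (m x - θ x)) := by linarith [hpde x hx]
    -- the gradient part
    have hgrad : ∀ c, -(∑ j, d j * (pd c (fun y => θ y * F.h j (rel θ w y)) x * pd c (w j) x))
        + d k * (pd c (fun y => θ y * ∑ j, rel θ w y j * F.h j (rel θ w y)) x * pd c θ x)
        = -(d k * ∑ i, (∑ l, F.hh i l (rel θ w x) * xi θ Dθ w Dw x c l) * xi θ Dθ w Dw x c i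
      + ∑ j, (d j - d k) * (xi θ Dθ w Dw x c j + Dθ x (ev n c) * rel θ w x j) *
        (∑ l, F.hh j l (rel θ w x) * xi θ Dθ w Dw x c l + Dθ x (ev n c) * F.h j (rel θ w x))) := by
      intro c
      have h1 := form_algebra (d k) d (rel θ w x) (fun j => F.h j (rel θ w x))
        (fun j => xi θ Dθ w Dw x c j) (fun j => ∑ l, F.hh j l (rel θ w x) * xi θ Dθ w Dw x c l)
        (Dθ x (ev n c))
      rw [← h1]
      congr 1
      · congr 1
        apply Finset.sum_congr rfl
        intro j _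
        rw [hfpd x hx j c, hpdw j c x hx]
        have : Dw j x (ev n c) = xi θ Dθ w Dw x c j + Dθ x (ev n c) * rel θ w x j := by
          simp only [xi]; ring
        rw [← this]
      · rw [hgpd x hx c, hpdθ c x hx]
    have hsumgrad : dform F θ Dθ w Dw x = (∑ j, d j * ∑ c, pd c (fun y => θ y *
        F.h j (rel θ w y)) x * pd c (w j) x)
        - d k * ∑ c, pd c (fun y => θ y * ∑ j, rel θ w y j * F.h j (rel θ w y)) x * pd c θ x := by
      unfold dform
      have h1 : (∑ j, d j * ∑ c, pd c (fun y => θ y * F.h j (rel θ w y)) x * pd c (w j) x)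
          = ∑ c, ∑ j, d j * (pd c (fun y => θ y * F.h j (rel θ w y)) x * pd c (w j) x) := by
        rw [Finset.sum_comm]
        apply Finset.sum_congr rfl
        intro j _
        rw [Finset.mul_sum]
      rw [h1, Finset.mul_sum, ← Finset.sum_sub_distrib]
      apply Finset.sum_congr rfl
      intro c _
      linarith [hgrad c]
    rw [hsumgrad, hUA]
    have h2 : ∑ j, θ x * F.h j (rel θ w x) * (d j * Δ (w j) x
        + w j x * (m x - θ x * tot k A (rel θ w x)))
        = ∑ j, d j * (θ x * F.h j (rel θ w x) * Δ (w j) x)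
          + θ x ^ 2 * (m x - θ x * tot k A (rel θ w x)) * ∑ j, rel θ w x j * F.h j (rel θ w x) := by
      rw [Finset.mul_sum, ← Finset.sum_add_distrib]
      apply Finset.sum_congr rfl
      intro j _
      rw [hwj j]; ring
    have h3 : ∑ j, d j * (∑ c, pd c (fun y => θ y * F.h j (rel θ w y)) x
      * pd c (w j) x + θ x * F.h j (rel θ w x) * Δ (w j) x)
      = (∑ j, d j * ∑ c, pd c (fun y => θ y * F.h j (rel θ w y)) x * pd c (w j) x)
        + ∑ j, d j * (θ x * F.h j (rel θ w x) * Δ (w j) x) := by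
      rw [← Finset.sum_add_distrib]
      apply Finset.sum_congr rfl
      intro j _
      ring
    rw [h2, h3]
    have h4 : d k * (∑ c, pd c (fun y => θ y * ∑ j, rel θ w y j * F.h j (rel θ w y)) x * pd c θ x
        + (θ x * ∑ j, rel θ w x j * F.h j (rel θ w x)) * Δ θ x)
        = d k * ∑ c, pd c (fun y => θ y * ∑ j, rel θ w y j * F.h j (rel θ w y)) x * pd c θ x
        + (θ x * ∑ j, rel θ w x j * F.h j (rel θ w x)) * (d k * Δ θ x) := by ring
    rw [h4, hΔθx]
    ring
  have hI12 : IntegrableOn (fun x => ((∑ j, d j * (∑ c, pd c (fun y => θ y *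
      F.h j (rel θ w y)) x * pd c (w j) x + θ x * F.h j (rel θ w x) * Δ (w j) x))
      - d k * (∑ c, pd c (fun y => θ y * ∑ j, rel θ w y j * F.h j (rel θ w y)) x * pd c θ x
        + (θ x * ∑ j, rel θ w x j * F.h j (rel θ w x)) * Δ θ x))
      - dform F θ Dθ w Dw x) Ω volume := hIcomb.sub hIform
  rw [setIntegral_congr_fun hΩ.isOpen.measurableSet hpt, integral_sub hI12 hIG,
    integral_sub hIcomb hIform, hcomb]
  ring

end Run7.h350
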