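import Pool.Agent.Run7.h350.Energy

open Set Filter Topology MeasureTheory
open scoped ContDiff Laplacian

namespace Run7.h350

variable {n N : ℕ} {Ω : Set (EuclideanSpace ℝ (Fin n))} {ρ : EuclideanSpace ℝ (Fin n) → ℝ}

/-- the Lyapunov functional -/
noncomputable def Vf {k : Fin N} {A : Finset (Fin N)} {d : Fin N → ℝ} (F : HFun k A d)
    (Ω : Set (EuclideanSpace ℝ (Fin n))) (θ : EuclideanSpace ℝ (Fin n) → ℝ)
    (w : Fin N → EuclideanSpace ℝ (Fin n) → ℝ) : ℝ :=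
  ∫ x in Ω, θ x ^ 2 * F.H (rel θ w x)

theorem relp_continuousOn {J : Set ℝ} {θ : EuclideanSpace ℝ (Fin n) → ℝ}
    {u : Fin N → ℝ → EuclideanSpace ℝ (Fin n) → ℝ} (hθ : ContinuousOn θ (closure Ω))
    (hθ0 : ∀ x ∈ closure Ω, 0 < θ x)
    (hu : ∀ j, ContinuousOn (fun p : ℝ × EuclideanSpace ℝ (Fin n) => u j p.1 p.2)
      (J ×ˢ closure Ω)) :
    ContinuousOn (fun p : ℝ × EuclideanSpace ℝ (Fin n) => rel θ (fun j => u j p.1) p.2)
      (J ×ˢ closure Ω) := by
  rw [continuousOn_pi]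
  intro j
  have h1 : ContinuousOn (fun p : ℝ × EuclideanSpace ℝ (Fin n) => θ p.2) (J ×ˢ closure Ω) :=
    hθ.comp continuousOn_snd (fun p hp => hp.2)
  exact (hu j).div h1 fun p hp => (hθ0 p.2 hp.2).ne'

theorem V_hasDerivAt (hΩ : SmoothDomain Ω ρ) {k : Fin N} {A : Finset (Fin N)} {d : Fin N → ℝ}
    (F : HFun k A d) {J : Set ℝ} (hJ : IsOpen J) {θ : EuclideanSpace ℝ (Fin n) → ℝ}
    (hθ : ContinuousOn θ (closure Ω)) (hθ0 : ∀ x ∈ closure Ω, 0 < θ x)
    {u u' : Fin N → ℝ → EuclideanSpace ℝ (Fin n) → ℝ}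
    (hu : ∀ j, ContinuousOn (fun p : ℝ × EuclideanSpace ℝ (Fin n) => u j p.1 p.2)
      (J ×ˢ closure Ω))
    (hu' : ∀ j, ContinuousOn (fun p : ℝ × EuclideanSpace ℝ (Fin n) => u' j p.1 p.2)
      (J ×ˢ closure Ω))
    (hder : ∀ j, ∀ t ∈ J, ∀ x ∈ closure Ω, HasDerivAt (fun s => u j s x) (u' j t x) t)
    (hnn : ∀ j, ∀ t ∈ J, ∀ x ∈ closure Ω, 0 ≤ u j t x)
    (hpos : ∀ t ∈ J, ∀ x ∈ closure Ω, 0 < u k t x) {t : ℝ} (ht : t ∈ J) :
    HasDerivAt (fun t => Vf F Ω θ (fun j => u j t))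
      (∫ x in Ω, ∑ j, θ x * F.h j (rel θ (fun j => u j t) x) * u' j t x) t := by
  obtain ⟨ε, hε, hball⟩ := Metric.isOpen_iff.1 hJ t ht
  have hsub : Icc (t - ε / 2) (t + ε / 2) ⊆ J := by
    intro s hs
    apply hball
    rw [Metric.mem_ball, Real.dist_eq, abs_lt]
    constructor <;> linarith [hs.1, hs.2]
  have hnhds : Icc (t - ε / 2) (t + ε / 2) ∈ 𝓝 t := Icc_mem_nhds (by linarith) (by linarith)
  have hrc := relp_continuousOn hθ hθ0 hu
  have hrpos : ∀ s ∈ J, ∀ x ∈ closure Ω, rel θ (fun j => u j s) x ∈ F.U := fun s hs x hx =>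
    F.dom _ (div_pos (hpos s hs x hx) (hθ0 x hx)) fun j => div_nonneg (hnn j s hs x hx)
      (hθ0 x hx).le
  have hθp : ContinuousOn (fun p : ℝ × EuclideanSpace ℝ (Fin n) => θ p.2) (J ×ˢ closure Ω) :=
    hθ.comp continuousOn_snd (fun p hp => hp.2)
  have hFc : ContinuousOn (fun p : ℝ × EuclideanSpace ℝ (Fin n) =>
      θ p.2 ^ 2 * F.H (rel θ (fun j => u j p.1) p.2)) (J ×ˢ closure Ω) :=
    (hθp.pow 2).mul (F.H_cont.comp hrc fun p hp => hrpos p.1 hp.1 p.2 hp.2)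
  have hPc : ContinuousOn (fun p : ℝ × EuclideanSpace ℝ (Fin n) =>
      ∑ j, θ p.2 * F.h j (rel θ (fun j => u j p.1) p.2) * u' j p.1 p.2) (J ×ˢ closure Ω) :=
    continuousOn_finsetSum _ fun j _ =>
      (hθp.mul ((F.h_cont j).comp hrc fun p hp => hrpos p.1 hp.1 p.2 hp.2)).mul (hu' j)
  have hslice : ∀ (f : ℝ × EuclideanSpace ℝ (Fin n) → ℝ), ContinuousOn f (J ×ˢ closure Ω) →
      ∀ s ∈ J, ContinuousOn (fun x => f (s, x)) (closure Ω) := by
    intro f hf s hs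
    have : ContinuousOn (fun x : EuclideanSpace ℝ (Fin n) => (s, x)) (closure Ω) := by fun_prop
    exact hf.comp this fun x hx => ⟨hs, hx⟩
  obtain ⟨C, hC⟩ := (isCompact_Icc.prod hΩ.isCompact_closure).exists_bound_of_continuousOn
    (hPc.mono (prod_mono hsub Subset.rfl))
  have hkey := hasDerivAt_integral_of_dominated_loc_of_deriv_le (μ := volume.restrict Ω)
    (F := fun s x => θ x ^ 2 * F.H (rel θ (fun j => u j s) x))
    (F' := fun s x => ∑ j, θ x * F.h j (rel θ (fun j => u j s) x) * u' j s x)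
    (x₀ := t) (bound := fun _ => C) hnhds ?_ ?_ ?_ ?_ ?_ ?_
  · exact hkey.2
  · filter_upwards [hJ.mem_nhds ht] with s hs
    exact ((hslice _ hFc s hs).mono subset_closure).aestronglyMeasurable hΩ.isOpen.measurableSet
  · exact continuous_integrableOn hΩ (hslice _ hFc t ht)
  · exact ((hslice _ hPc t ht).mono subset_closure).aestronglyMeasurable hΩ.isOpen.measurableSet
  · filter_upwards [ae_restrict_mem hΩ.isOpen.measurableSet] with x hx s hs
    exact hC (s, x) ⟨hs, subset_closure hx⟩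
  · exact integrableOn_const hΩ.bounded.measure_lt_top.ne
  · filter_upwards [ae_restrict_mem hΩ.isOpen.measurableSet] with x hx s hs
    have hxc := subset_closure hx
    have hsJ := hsub hs
    have hθx := (hθ0 x hxc).ne'
    have h1 : HasDerivAt (fun s => rel θ (fun j => u j s) x) (fun j => u' j s x / θ x) s := by
      rw [hasDerivAt_pi]
      intro j
      exact (hder j s hsJ x hxc).div_const (θ x)
    have h2 := ((F.dH _ (hrpos s hsJ x hxc)).comp_hasDerivAt s h1).const_mul (θ x ^ 2)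
    refine h2.congr_deriv ?_
    simp only [sum_apply, smul_apply, ContinuousLinearMap.proj_apply, smul_eq_mul]
    rw [Finset.mul_sum]
    apply Finset.sum_congr rfl
    intro j _
    field_simp

end Run7.h350
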