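import Pool.Agent.Run7.h350.Green2

open Set Filter Topology MeasureTheory
open scoped ContDiff Laplacian

namespace Run7.h350

/-- total relative density of the community `{k} ∪ A` -/
def tot {N : ℕ} (k : Fin N) (A : Finset (Fin N)) (s : Fin N → ℝ) : ℝ := s k + ∑ j ∈ A, s j

/-- a local Lyapunov density with leader `k` and other species `A` for the rates `d`. -/
structure HFun {N : ℕ} (k : Fin N) (A : Finset (Fin N)) (d : Fin N → ℝ) where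
  H : (Fin N → ℝ) → ℝ
  h : Fin N → (Fin N → ℝ) → ℝ
  hh : Fin N → Fin N → (Fin N → ℝ) → ℝ
  U : Set (Fin N → ℝ)
  U_open : IsOpen U
  dom : ∀ s : Fin N → ℝ, 0 < s k → (∀ j, 0 ≤ s j) → s ∈ U
  dH : ∀ s ∈ U, HasFDerivAt H
    (∑ i, h i s • (ContinuousLinearMap.proj i : (Fin N → ℝ) →L[ℝ] ℝ)) s
  dh : ∀ i, ∀ s ∈ U, HasFDerivAt (h i)
    (∑ j, hh i j s • (ContinuousLinearMap.proj j : (Fin N → ℝ) →L[ℝ] ℝ)) s
  hh_cont : ∀ i j, ContinuousOn (hh i j) U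
  κ : ℝ
  κ_pos : 0 < κ
  form : ∀ s : Fin N → ℝ, 0 < s k → (∀ j, 0 ≤ s j) → ∀ (ξ : Fin N → ℝ) (η : ℝ),
    κ * ((∑ j ∈ A, ξ j) ^ 2 + (∑ j ∈ A, (ξ j + η * s j)) ^ 2) ≤
      d k * ∑ i, (∑ l, hh i l s * ξ l) * ξ i
      + ∑ j, (d j - d k) * (ξ j + η * s j) * (∑ l, hh j l s * ξ l + η * h j s)
  Gc : (Fin N → ℝ) → ℝ
  Gc_cont : Continuous Gc
  Gc_eq : ∀ s : Fin N → ℝ, 0 < s k → (∀ j, 0 ≤ s j) → ∑ j, s j * h j s = Gc s
  Gc_nonneg : ∀ s : Fin N → ℝ, (∀ j, 0 ≤ s j) → 0 ≤ (tot k A s - 1) * Gc s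
  Gc_strict : ∀ s : Fin N → ℝ, (∀ j, 0 ≤ s j) → (tot k A s - 1) * Gc s = 0 → tot k A s = 1
  Hb : (Fin N → ℝ) → ℝ
  Hb_cont : Continuous Hb
  Hb_nonneg : ∀ s : Fin N → ℝ, (∀ j, 0 ≤ s j) → 0 ≤ Hb s
  Hb_le : ∀ s : Fin N → ℝ, 0 < s k → (∀ j, 0 ≤ s j) → Hb s ≤ H s
  Hb_strict : ∀ s : Fin N → ℝ, (∀ j, 0 ≤ s j) → Hb s = 0 → s k = 1 ∧ ∀ j ∈ A, s j = 0
  H_zero : ∀ s : Fin N → ℝ, (∀ j, 0 ≤ s j) → s k = 1 → (∀ j ∈ A, s j = 0) → H s = 0

variable {n N : ℕ} {Ω : Set (EuclideanSpace ℝ (Fin n))} {ρ : EuclideanSpace ℝ (Fin n) → ℝ}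

namespace HFun

variable {k : Fin N} {A : Finset (Fin N)} {d : Fin N → ℝ} (F : HFun k A d)

theorem h_cont (i : Fin N) : ContinuousOn (F.h i) F.U := fun s hs =>
  (F.dh i s hs).continuousAt.continuousWithinAt

theorem H_cont : ContinuousOn F.H F.U := fun s hs =>
  (F.dH s hs).continuousAt.continuousWithinAt

/-- derivative of `h i` along a differentiable vector field -/
theorem dh_comp (i : Fin N) {s : EuclideanSpace ℝ (Fin n) → Fin N → ℝ}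
    {s' : Fin N → (EuclideanSpace ℝ (Fin n) →L[ℝ] ℝ)} {x : EuclideanSpace ℝ (Fin n)}
    (hs : ∀ j, HasFDerivAt (fun y => s y j) (s' j) x) (hU : s x ∈ F.U) :
    HasFDerivAt (fun y => F.h i (s y)) (∑ j, F.hh i j (s x) • s' j) x := by
  have h1 : HasFDerivAt s (ContinuousLinearMap.pi s') x := hasFDerivAt_pi.2 hs
  have h2 := (F.dh i (s x) hU).comp x h1
  refine h2.congr_fderiv ?_
  ext v
  simp [ContinuousLinearMap.comp_apply]

end HFun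

/-- the pointwise algebra behind the energy identity -/
theorem form_algebra {N : ℕ} (dk : ℝ) (d s h ξ δh : Fin N → ℝ) (η : ℝ) :
    -(∑ j, d j * ((η * h j + δh j) * (ξ j + η * s j)))
      + dk * ((η * (∑ j, s j * h j) + ∑ j, (ξ j * h j + s j * δh j)) * η)
    = -(dk * ∑ i, δh i * ξ i + ∑ j, (d j - dk) * (ξ j + η * s j) * (δh j + η * h j)) := by
  rw [← Finset.sum_neg_distrib]
  have e1 : dk * ((η * (∑ j, s j * h j) + ∑ j, (ξ j * h j + s j * δh j)) * η)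
      = ∑ j, dk * ((η * (s j * h j) + (ξ j * h j + s j * δh j)) * η) := by
    rw [Finset.mul_sum, ← Finset.sum_add_distrib, Finset.sum_mul, Finset.mul_sum]
  have e2 : -(dk * ∑ i, δh i * ξ i + ∑ j, (d j - dk) * (ξ j + η * s j) * (δh j + η * h j))
      = ∑ j, -(dk * (δh j * ξ j) + (d j - dk) * (ξ j + η * s j) * (δh j + η * h j)) := by
    rw [Finset.sum_neg_distrib, Finset.sum_add_distrib, Finset.mul_sum]
  rw [e1, e2, ← Finset.sum_add_distrib]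
  apply Finset.sum_congr rfl
  intro j _
  ring

end Run7.h350
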