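import Pool.Agent.Run7.h350.Consts

open Set Filter Topology MeasureTheory
open scoped ContDiff Laplacian

namespace Run7.h350

variable {n : ℕ} {Ω : Set (EuclideanSpace ℝ (Fin n))} {ρ : EuclideanSpace ℝ (Fin n) → ℝ}

/-- directional derivative along the `k`-th coordinate vector -/
noncomputable def pd (k : Fin n) (f : EuclideanSpace ℝ (Fin n) → ℝ)
    (x : EuclideanSpace ℝ (Fin n)) : ℝ :=
  fderiv ℝ f x (EuclideanSpace.basisFun (Fin n) ℝ k)

theorem laplacian_eq_pd (f : EuclideanSpace ℝ (Fin n) → ℝ) (x : EuclideanSpace ℝ (Fin n)) :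
    Δ f x = ∑ k, iteratedFDeriv ℝ 2 f x ![EuclideanSpace.basisFun (Fin n) ℝ k,
      EuclideanSpace.basisFun (Fin n) ℝ k] :=
  laplacian_eq_sum _ _ _

theorem integrableOn_of_continuousOn_bounded (hΩ : IsOpen Ω) (hb : Bornology.IsBounded Ω)
    {F : EuclideanSpace ℝ (Fin n) → ℝ} {C : ℝ} (hF : ContinuousOn F Ω) (hC : ∀ x ∈ Ω, |F x| ≤ C) :
    IntegrableOn F Ω volume := by
  refine ⟨hF.aestronglyMeasurable hΩ.measurableSet, ?_⟩
  apply HasFiniteIntegral.restrict_of_bounded (C := C) hb.measure_lt_top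
  filter_upwards [ae_restrict_mem hΩ.measurableSet] with x hx
  exact hC x hx

theorem ContDiffOn.pd_continuousOn (hΩ : IsOpen Ω) {f : EuclideanSpace ℝ (Fin n) → ℝ}
    (hf : ContDiffOn ℝ 1 f Ω) (k : Fin n) : ContinuousOn (pd k f) Ω := by
  unfold pd
  have := hf.continuousOn_fderiv_of_isOpen hΩ (by norm_num)
  exact this.clm_apply continuousOn_const

theorem ContDiffOn.d2_continuousOn (hΩ : IsOpen Ω) {f : EuclideanSpace ℝ (Fin n) → ℝ}
    (hf : ContDiffOn ℝ 2 f Ω) (e : EuclideanSpace ℝ (Fin n)) :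
    ContinuousOn (fun x => iteratedFDeriv ℝ 2 f x ![e, e]) Ω := by
  have h1 : ContDiffOn ℝ 1 (fderiv ℝ f) Ω := hf.fderiv_of_isOpen hΩ (by norm_num)
  have h2 := h1.continuousOn_fderiv_of_isOpen hΩ (by norm_num)
  have h3 : ContinuousOn (fun x => fderiv ℝ (fderiv ℝ f) x e e) Ω :=
    (h2.clm_apply continuousOn_const).clm_apply continuousOn_const
  refine h3.congr ?_
  intro x _
  show iteratedFDeriv ℝ 2 f x ![e, e] = fderiv ℝ (fderiv ℝ f) x e e
  rw [iteratedFDeriv_two_apply]
  rfl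

theorem ContDiffOn.laplacian_continuousOn (hΩ : IsOpen Ω) {f : EuclideanSpace ℝ (Fin n) → ℝ}
    (hf : ContDiffOn ℝ 2 f Ω) : ContinuousOn (Δ f) Ω := by
  have h1 : ContinuousOn (fun x => ∑ k, iteratedFDeriv ℝ 2 f x
      ![EuclideanSpace.basisFun (Fin n) ℝ k, EuclideanSpace.basisFun (Fin n) ℝ k]) Ω :=
    continuousOn_finsetSum _ fun k _ => ContDiffOn.d2_continuousOn hΩ hf _
  refine h1.congr ?_
  intro x _
  exact laplacian_eq_pd f x

theorem hasFDerivAt_pd (hΩ : IsOpen Ω) {f : EuclideanSpace ℝ (Fin n) → ℝ}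
    (hf : ContDiffOn ℝ 2 f Ω) (k : Fin n) {x : EuclideanSpace ℝ (Fin n)} (hx : x ∈ Ω) :
    HasFDerivAt (pd k f)
      ((ContinuousLinearMap.apply ℝ ℝ (EuclideanSpace.basisFun (Fin n) ℝ k)).comp
        (fderiv ℝ (fderiv ℝ f) x)) x := by
  have h1 : ContDiffOn ℝ 1 (fderiv ℝ f) Ω := hf.fderiv_of_isOpen hΩ (by norm_num)
  have h2 : DifferentiableAt ℝ (fderiv ℝ f) x :=
    (h1.contDiffAt (hΩ.mem_nhds hx)).differentiableAt (by norm_num)
  exact ((ContinuousLinearMap.apply ℝ ℝ
    (EuclideanSpace.basisFun (Fin n) ℝ k)).hasFDerivAt).comp x h2.hasFDerivAt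

theorem cutoff_ibp (hΩ : IsOpen Ω) {φ f g : EuclideanSpace ℝ (Fin n) → ℝ}
    (hφ : ContDiff ℝ 1 φ) (hK : IsCompact (tsupport φ)) (hKΩ : tsupport φ ⊆ Ω)
    (hf : ContDiffOn ℝ 1 f Ω) (hg : ContDiffOn ℝ 2 g Ω) :
    ∫ x in Ω, φ x * (∑ k, pd k f x * pd k g x + f x * Δ g x) =
      - ∫ x in Ω, f x * ∑ k, pd k φ x * pd k g x := by
  have hfc : ContinuousOn f Ω := hf.continuousOn
  have hpf := fun k => ContDiffOn.pd_continuousOn hΩ hf k
  have hg1 : ContDiffOn ℝ 1 g Ω := hg.of_le (by norm_num)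
  have hpg := fun k => ContDiffOn.pd_continuousOn hΩ hg1 k
  have hd2 := fun k => ContDiffOn.d2_continuousOn hΩ hg (EuclideanSpace.basisFun (Fin n) ℝ k)
  have hφc : Continuous φ := hφ.continuous
  have hφ1 : Continuous (fderiv ℝ φ) := hφ.continuous_fderiv (by norm_num)
  have hφk : ∀ k, Continuous (pd k φ) := fun k => by
    unfold pd; exact hφ1.clm_apply continuous_const
  have hφ0 : ∀ x, x ∉ tsupport φ → φ x = 0 := fun x hx => image_eq_zero_of_notMem_tsupport hx
  have hφk0 : ∀ k x, x ∉ tsupport φ → pd k φ x = 0 := by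
    intro k x hx
    have h1 : x ∉ tsupport (fderiv ℝ φ) := fun h => hx (tsupport_fderiv_subset ℝ h)
    unfold pd
    rw [image_eq_zero_of_notMem_tsupport h1]
    rfl
  -- integrability of functions vanishing outside the support
  have hint : ∀ F : EuclideanSpace ℝ (Fin n) → ℝ, ContinuousOn F Ω →
      (∀ x, x ∉ tsupport φ → F x = 0) → Integrable F volume := by
    intro F hF h0
    have h1 : IntegrableOn F (tsupport φ) volume := (hF.mono hKΩ).integrableOn_compact hK
    rwa [integrableOn_iff_integrable_of_support_subset] at h1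
    intro x hx
    by_contra hcon
    exact hx (h0 x hcon)
  have hset : ∀ F : EuclideanSpace ℝ (Fin n) → ℝ, (∀ x, x ∉ tsupport φ → F x = 0) →
      ∫ x in Ω, F x = ∫ x, F x := by
    intro F h0
    apply setIntegral_eq_integral_of_forall_compl_eq_zero
    intro x hx
    exact h0 x (fun h => hx (hKΩ h))
  have hk : ∀ k, ∫ x in Ω, φ x * (pd k f x * pd k g x + f x * iteratedFDeriv ℝ 2 g x
      ![EuclideanSpace.basisFun (Fin n) ℝ k, EuclideanSpace.basisFun (Fin n) ℝ k]) =
      - ∫ x in Ω, f x * (pd k φ x * pd k g x) := by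
    intro k
    have hder : ∀ x ∈ Ω, fderiv ℝ (fun x => f x * pd k g x) x (EuclideanSpace.basisFun (Fin n) ℝ k)
        = pd k f x * pd k g x + f x * iteratedFDeriv ℝ 2 g x
      ![EuclideanSpace.basisFun (Fin n) ℝ k, EuclideanSpace.basisFun (Fin n) ℝ k] := by
      intro x hx
      have h1 : HasFDerivAt f (fderiv ℝ f x) x :=
        ((hf.contDiffAt (hΩ.mem_nhds hx)).differentiableAt (by norm_num)).hasFDerivAt
      have h2 : HasFDerivAt (fun x => f x * pd k g x) _ x := h1.mul (hasFDerivAt_pd hΩ hg k hx)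
      rw [h2.fderiv, iteratedFDeriv_two_apply]
      simp only [add_apply, smul_apply, smul_eq_mul, ContinuousLinearMap.comp_apply,
        ContinuousLinearMap.apply_apply, Matrix.cons_val_zero, Matrix.cons_val_one]
      unfold pd
      ring
    have hdiff : ∀ x ∈ tsupport φ, DifferentiableAt ℝ (fun x => f x * pd k g x) x := by
      intro x hx
      have h1 : HasFDerivAt f (fderiv ℝ f x) x :=
        ((hf.contDiffAt (hΩ.mem_nhds (hKΩ hx))).differentiableAt (by norm_num)).hasFDerivAt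
      exact (h1.mul (hasFDerivAt_pd hΩ hg k (hKΩ hx))).differentiableAt
    have hA : ∀ x, φ x * fderiv ℝ (fun x => f x * pd k g x) x
        (EuclideanSpace.basisFun (Fin n) ℝ k) =
        φ x * (pd k f x * pd k g x + f x * iteratedFDeriv ℝ 2 g x
      ![EuclideanSpace.basisFun (Fin n) ℝ k, EuclideanSpace.basisFun (Fin n) ℝ k]) := by
      intro x
      by_cases hx : x ∈ tsupport φ
      · rw [hder x (hKΩ hx)]
      · rw [hφ0 x hx, zero_mul, zero_mul]
    have hI1 : Integrable (fun x => φ x * (pd k f x * pd k g x + f x * iteratedFDeriv ℝ 2 g x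
      ![EuclideanSpace.basisFun (Fin n) ℝ k, EuclideanSpace.basisFun (Fin n) ℝ k])) volume := by
      apply hint
      · exact hφc.continuousOn.mul (((hpf k).mul (hpg k)).add (hfc.mul (hd2 k)))
      · intro x hx; rw [hφ0 x hx, zero_mul]
    have hI2 : Integrable (fun x => fderiv ℝ φ x (EuclideanSpace.basisFun (Fin n) ℝ k) *
        (f x * pd k g x)) volume := by
      apply hint
      · exact (hφk k).continuousOn.mul (hfc.mul (hpg k))
      · intro x hx
        have := hφk0 k x hx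
        unfold pd at this
        rw [this, zero_mul]
    have hI3 : Integrable (fun x => φ x * (f x * pd k g x)) volume := by
      apply hint
      · exact hφc.continuousOn.mul (hfc.mul (hpg k))
      · intro x hx; rw [hφ0 x hx, zero_mul]
    have hmain := integral_mul_fderiv_eq_neg_fderiv_mul_of_integrable (μ := volume)
      (f := φ) (g := fun x => f x * pd k g x) (v := EuclideanSpace.basisFun (Fin n) ℝ k)
      hI2 (by simp_rw [hA]; exact hI1) hI3
      (fun x _ => (hφ.differentiable (by norm_num)) x) hdiff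
    simp_rw [hA] at hmain
    rw [hset _ (fun x hx => by rw [hφ0 x hx, zero_mul]), hmain,
      hset _ (fun x hx => by rw [hφk0 k x hx, zero_mul, mul_zero])]
    congr 1
    apply integral_congr_ae
    refine Eventually.of_forall fun x => ?_
    simp only [pd]
    ring
  -- sum over coordinates
  have hL : ∫ x in Ω, φ x * (∑ k, pd k f x * pd k g x + f x * Δ g x) =
      ∑ k, ∫ x in Ω, φ x * (pd k f x * pd k g x + f x * iteratedFDeriv ℝ 2 g x
      ![EuclideanSpace.basisFun (Fin n) ℝ k, EuclideanSpace.basisFun (Fin n) ℝ k]) := by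
    rw [← integral_finsetSum]
    · apply integral_congr_ae
      refine Eventually.of_forall fun x => ?_
      simp only
      rw [laplacian_eq_pd, ← Finset.mul_sum, Finset.sum_add_distrib, Finset.mul_sum]
    · intro k _
      apply Integrable.integrableOn
      apply hint
      · exact hφc.continuousOn.mul (((hpf k).mul (hpg k)).add (hfc.mul (hd2 k)))
      · intro x hx; rw [hφ0 x hx, zero_mul]
  have hR : ∫ x in Ω, f x * ∑ k, pd k φ x * pd k g x =
      ∑ k, ∫ x in Ω, f x * (pd k φ x * pd k g x) := by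
    rw [← integral_finsetSum]
    · apply integral_congr_ae
      refine Eventually.of_forall fun x => ?_
      simp only
      rw [Finset.mul_sum]
    · intro k _
      apply Integrable.integrableOn
      apply hint
      · exact hfc.mul ((hφk k).continuousOn.mul (hpg k))
      · intro x hx; rw [hφk0 k x hx, zero_mul, mul_zero]
  rw [hL, hR, ← Finset.sum_neg_distrib]
  exact Finset.sum_congr rfl fun k _ => hk k

/-- the cutoff function -/
noncomputable def cut (ρ : EuclideanSpace ℝ (Fin n) → ℝ) (ε : ℝ) (x : EuclideanSpace ℝ (Fin n)) : ℝ :=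
  Real.smoothTransition (-(ρ x) / ε - 1)

theorem cut_contDiff (hΩ : SmoothDomain Ω ρ) (ε : ℝ) : ContDiff ℝ 1 (cut ρ ε) := by
  unfold cut
  have h1 : ContDiff ℝ 1 (fun x => -(ρ x) / ε - 1) := by
    have : ContDiff ℝ 1 ρ := hΩ.smooth.of_le (by norm_cast)
    fun_prop
  have h2 : ContDiff ℝ 1 Real.smoothTransition := Real.smoothTransition.contDiff (n := 1)
  exact h2.comp h1

theorem cut_fderiv (hΩ : SmoothDomain Ω ρ) (ε : ℝ) (x v : EuclideanSpace ℝ (Fin n)) :
    fderiv ℝ (cut ρ ε) x v =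
      -(1 / ε * deriv Real.smoothTransition (-(ρ x) / ε - 1)) * fderiv ℝ ρ x v := by
  have h1 : HasFDerivAt (fun x => -(ρ x) / ε - 1) ((-(1 / ε)) • fderiv ℝ ρ x) x := by
    have h2 : HasFDerivAt (fun x => (-(1 / ε)) * ρ x) ((-(1 / ε)) • fderiv ℝ ρ x) x :=
      (hΩ.differentiable x).hasFDerivAt.const_mul _
    have h3 := h2.sub_const 1
    have h4 : (fun x => -(ρ x) / ε - 1) = fun x => (-(1 / ε)) * ρ x - 1 := by
      ext y; ring
    rw [h4]
    exact h3
  have h5 : HasDerivAt Real.smoothTransition (deriv Real.smoothTransition (-(ρ x) / ε - 1))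
      (-(ρ x) / ε - 1) :=
    ((Real.smoothTransition.contDiff (n := 1)).differentiable (by norm_num) _).hasDerivAt
  have h6 : HasFDerivAt (cut ρ ε) _ x := h5.comp_hasFDerivAt x h1
  rw [h6.fderiv]
  simp only [smul_apply, smul_eq_mul]
  ring

theorem cut_zero {ε : ℝ} (hε : 0 < ε) {x : EuclideanSpace ℝ (Fin n)} (hx : -(ρ x) ≤ ε) :
    cut ρ ε x = 0 := by
  unfold cut
  apply Real.smoothTransition.zero_of_nonpos
  rw [sub_nonpos, div_le_one hε]
  exact hx

theorem cut_one {ε : ℝ} (hε : 0 < ε) {x : EuclideanSpace ℝ (Fin n)} (hx : 2 * ε ≤ -(ρ x)) :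
    cut ρ ε x = 1 := by
  unfold cut
  apply Real.smoothTransition.one_of_one_le
  rw [le_sub_iff_add_le, le_div_iff₀ hε]
  linarith

theorem cut_tsupport (hΩ : SmoothDomain Ω ρ) {ε : ℝ} (hε : 0 < ε) :
    tsupport (cut ρ ε) ⊆ {x | ε ≤ -(ρ x)} := by
  apply closure_minimal
  · intro x hx
    by_contra hcon
    exact hx (cut_zero hε (not_le.1 hcon).le)
  · exact isClosed_le continuous_const hΩ.continuous.neg

theorem deriv_transition_zero {s : ℝ} (hs : s < 0 ∨ 1 < s) : deriv Real.smoothTransition s = 0 := by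
  rcases hs with hs | hs
  · have : Real.smoothTransition =ᶠ[𝓝 s] fun _ => 0 := by
      filter_upwards [gt_mem_nhds hs] with y hy
      exact Real.smoothTransition.zero_of_nonpos (le_of_lt hy)
    rw [this.deriv_eq, deriv_const]
  · have : Real.smoothTransition =ᶠ[𝓝 s] fun _ => 1 := by
      filter_upwards [lt_mem_nhds hs] with y hy
      exact Real.smoothTransition.one_of_one_le (le_of_lt hy)
    rw [this.deriv_eq, deriv_const]

theorem deriv_transition_nonneg (s : ℝ) : 0 ≤ deriv Real.smoothTransition s :=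
  Real.smoothTransition.monotone.deriv_nonneg

/-- near the boundary: a continuous function vanishing on the boundary is small. -/
theorem small_near_boundary (hΩ : SmoothDomain Ω ρ) {b : EuclideanSpace ℝ (Fin n) → ℝ}
    (hb : ContinuousOn b (closure Ω)) (hb0 : ∀ x ∈ frontier Ω, b x = 0) {δ : ℝ} (hδ : 0 < δ) :
    ∃ ε0 > 0, ∀ x ∈ closure Ω, -(ρ x) ≤ ε0 → |b x| ≤ δ := by
  by_contra hcon
  push Not at hcon
  have h1 : ∀ j : ℕ, ∃ x ∈ closure Ω, -(ρ x) ≤ 1 / ((j : ℝ) + 1) ∧ δ < |b x| := fun j =>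
    hcon (1 / ((j : ℝ) + 1)) (by positivity)
  choose x hx hx1 hx2 using h1
  obtain ⟨y, hy, φ, hφ, hlim⟩ := hΩ.isCompact_closure.tendsto_subseq hx
  have h2 : Tendsto (fun j => ρ (x (φ j))) atTop (𝓝 (ρ y)) :=
    (hΩ.continuous.tendsto y).comp hlim
  have h3 : Tendsto (fun j : ℕ => -(1 / ((φ j : ℝ) + 1))) atTop (𝓝 0) := by
    have h4 := (tendsto_one_div_add_atTop_nhds_zero_nat (𝕜 := ℝ)).comp hφ.tendsto_atTop
    have := h4.neg
    simpa using this
  have h5 : 0 ≤ ρ y := by
    apply le_of_tendsto_of_tendsto' h3 h2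
    intro j
    have := hx1 (φ j)
    linarith
  have h6 : ρ y = 0 := le_antisymm (hΩ.closure_le hy) h5
  have h7 : y ∈ frontier Ω := hΩ.frontier_iff.2 h6
  have h8 : Tendsto (fun j => |b (x (φ j))|) atTop (𝓝 |b y|) := by
    have h9 : Tendsto (fun j => b (x (φ j))) atTop (𝓝 (b y)) := by
      have h10 := hb y hy
      apply h10.tendsto.comp
      apply tendsto_nhdsWithin_of_tendsto_nhds_of_eventually_within
      · exact hlim
      · exact Eventually.of_forall fun j => hx (φ j)
    exact h9.abs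
  have h9 : δ ≤ |b y| := ge_of_tendsto' h8 fun j => (hx2 (φ j)).le
  rw [hb0 y h7, abs_zero] at h9
  linarith

theorem grad_lower_near (hΩ : SmoothDomain Ω ρ) :
    ∃ ε0 > 0, ∃ p > 0, ∀ x ∈ closure Ω, -(ρ x) ≤ ε0 → p ≤ ‖gradient ρ x‖ ^ 2 := by
  obtain ⟨p, hp, hpl⟩ := hΩ.exists_grad_lower
  have hc : Continuous (fun x => ‖gradient ρ x‖ ^ 2) := by
    have : Continuous (fderiv ℝ ρ) := hΩ.smooth.continuous_fderiv (by simp)
    simp only [gradient]
    fun_prop
  have hb : ContinuousOn (fun x => min (‖gradient ρ x‖ ^ 2 - p ^ 2) 0) (closure Ω) := by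
    exact (hc.sub continuous_const).min continuous_const |>.continuousOn
  obtain ⟨ε0, hε0, h⟩ := small_near_boundary hΩ hb (by
    intro x hx
    apply min_eq_right
    have := hpl x hx
    have : p ^ 2 ≤ ‖gradient ρ x‖ ^ 2 := by gcongr
    linarith) (δ := p ^ 2 / 2) (by positivity)
  refine ⟨ε0, hε0, p ^ 2 / 2, by positivity, ?_⟩
  intro x hx hxε
  have h1 := (abs_le.1 (h x hx hxε)).1
  have h2 := min_le_left (‖gradient ρ x‖ ^ 2 - p ^ 2) 0
  linarith

theorem sum_pd_mul (f g : EuclideanSpace ℝ (Fin n) → ℝ) (L : EuclideanSpace ℝ (Fin n) →L[ℝ] ℝ)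
    (x : EuclideanSpace ℝ (Fin n)) (hL : ∀ k, pd k g x = L (EuclideanSpace.basisFun (Fin n) ℝ k)) :
    ∑ k, pd k f x * pd k g x = L (gradient f x) := by
  have h1 : gradient f x = ∑ k, pd k f x • EuclideanSpace.basisFun (Fin n) ℝ k := by
    conv_lhs => rw [← (EuclideanSpace.basisFun (Fin n) ℝ).sum_repr (gradient f x)]
    apply Finset.sum_congr rfl
    intro k _
    congr 1
    rw [OrthonormalBasis.repr_apply_apply, real_inner_comm, ← fderiv_eq_inner]
    rfl
  rw [h1, map_sum]
  apply Finset.sum_congr rfl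
  intro k _
  rw [map_smul, hL k, smul_eq_mul]

end Run7.h350
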