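import Pool.Agent.Run7.h350.Green

open Set Filter Topology MeasureTheory
open scoped ContDiff Laplacian

namespace Run7.h350

variable {n : ℕ} {Ω : Set (EuclideanSpace ℝ (Fin n))} {ρ : EuclideanSpace ℝ (Fin n) → ℝ}

/-- the density of the layer -/
noncomputable def lay (ρ : EuclideanSpace ℝ (Fin n) → ℝ) (ε : ℝ) (x : EuclideanSpace ℝ (Fin n)) : ℝ :=
  1 / ε * deriv Real.smoothTransition (-(ρ x) / ε - 1)

theorem lay_continuous (hΩ : SmoothDomain Ω ρ) (ε : ℝ) : Continuous (lay ρ ε) := by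
  unfold lay
  have h1 : Continuous (deriv Real.smoothTransition) :=
    (Real.smoothTransition.contDiff (n := 1)).continuous_deriv (by norm_num)
  have h2 : Continuous ρ := hΩ.continuous
  fun_prop

theorem lay_nonneg {ε : ℝ} (hε : 0 < ε) (x : EuclideanSpace ℝ (Fin n)) : 0 ≤ lay ρ ε x :=
  mul_nonneg (by positivity) (deriv_transition_nonneg _)

theorem lay_zero {ε : ℝ} (hε : 0 < ε) {x : EuclideanSpace ℝ (Fin n)}
    (hx : 2 * ε < -(ρ x)) : lay ρ ε x = 0 := by
  unfold lay
  rw [deriv_transition_zero, mul_zero]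
  right
  rw [lt_sub_iff_add_lt, lt_div_iff₀ hε]
  linarith

theorem continuous_integrableOn (hΩ : SmoothDomain Ω ρ) {F : EuclideanSpace ℝ (Fin n) → ℝ}
    (hF : ContinuousOn F (closure Ω)) : IntegrableOn F Ω volume :=
  (hF.integrableOn_compact hΩ.isCompact_closure).mono_set subset_closure

theorem cut_compact (hΩ : SmoothDomain Ω ρ) {ε : ℝ} (hε : 0 < ε) :
    IsCompact (tsupport (cut ρ ε)) ∧ tsupport (cut ρ ε) ⊆ Ω := by
  have h1 : tsupport (cut ρ ε) ⊆ Ω := by
    intro x hx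
    have := cut_tsupport hΩ hε hx
    rw [hΩ.mem_iff]
    have h2 : ε ≤ -(ρ x) := this
    linarith
  exact ⟨hΩ.isCompact_closure.of_isClosed_subset (isClosed_tsupport _)
    (h1.trans subset_closure), h1⟩

theorem pd_cut (hΩ : SmoothDomain Ω ρ) (ε : ℝ) (k : Fin n) (x : EuclideanSpace ℝ (Fin n)) :
    pd k (cut ρ ε) x = -(lay ρ ε x) * pd k ρ x := by
  unfold pd lay
  rw [cut_fderiv hΩ]

theorem layer_bound (hΩ : SmoothDomain Ω ρ) : ∃ CL : ℝ, ∃ ε0 > 0, ∀ ε, 0 < ε → 2 * ε ≤ ε0 →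
    ∫ x in Ω, lay ρ ε x ≤ CL := by
  obtain ⟨ε0, hε0, p, hp, hgl⟩ := grad_lower_near hΩ
  have hρ2 : ContDiff ℝ 2 ρ := hΩ.smooth.of_le (by norm_cast)
  have hΔc : Continuous (Δ ρ) := by
    rw [← continuousOn_univ]
    exact ContDiffOn.laplacian_continuousOn isOpen_univ hρ2.contDiffOn
  obtain ⟨C, hC⟩ := hΩ.isCompact_closure.exists_bound_of_continuousOn (f := Δ ρ) hΔc.continuousOn
  have hvol : volume Ω < ⊤ := hΩ.bounded.measure_lt_top
  refine ⟨(max C 0 * volume.real Ω) / p, ε0, hε0, ?_⟩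
  intro ε hε hεε
  obtain ⟨hcomp, hsub⟩ := cut_compact hΩ hε
  have h1 := cutoff_ibp hΩ.isOpen (cut_contDiff hΩ ε) hcomp hsub (f := fun _ => (1:ℝ)) (g := ρ)
    contDiffOn_const hρ2.contDiffOn
  have h2 : ∀ x, ∑ k, pd k (cut ρ ε) x * pd k ρ x = -(lay ρ ε x * ‖gradient ρ x‖ ^ 2) := by
    intro x
    have h3 : ∑ k, pd k ρ x * pd k ρ x = ‖gradient ρ x‖ ^ 2 := by
      rw [sum_pd_mul ρ ρ (fderiv ℝ ρ x) x (fun k => rfl), fderiv_eq_inner,
        real_inner_self_eq_norm_sq]
    rw [← h3, Finset.mul_sum, ← Finset.sum_neg_distrib]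
    apply Finset.sum_congr rfl
    intro k _
    rw [pd_cut hΩ]; ring
  have h3 : ∀ x, ∑ k, pd k (fun _ : EuclideanSpace ℝ (Fin n) => (1:ℝ)) x * pd k ρ x = 0 := by
    intro x
    apply Finset.sum_eq_zero
    intro k _
    simp [pd]
  simp only [h2, h3, zero_add, one_mul] at h1
  rw [integral_neg, neg_neg] at h1
  have hgc : Continuous (fun x => ‖gradient ρ x‖ ^ 2) := by
    have : Continuous (fderiv ℝ ρ) := hΩ.smooth.continuous_fderiv (by simp)
    simp only [gradient]
    fun_prop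
  have hI1 : IntegrableOn (fun x => lay ρ ε x * ‖gradient ρ x‖ ^ 2) Ω volume :=
    continuous_integrableOn hΩ ((lay_continuous hΩ ε).mul hgc).continuousOn
  have hI2 : IntegrableOn (fun x => lay ρ ε x * p) Ω volume :=
    continuous_integrableOn hΩ ((lay_continuous hΩ ε).mul continuous_const).continuousOn
  have h4 : ∫ x in Ω, lay ρ ε x * p ≤ ∫ x in Ω, lay ρ ε x * ‖gradient ρ x‖ ^ 2 := by
    apply setIntegral_mono_on hI2 hI1 hΩ.isOpen.measurableSet
    intro x hx
    by_cases hcase : 2 * ε < -(ρ x)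
    · rw [lay_zero hε hcase]; simp
    · push Not at hcase
      exact mul_le_mul_of_nonneg_left (hgl x (subset_closure hx) (by linarith)) (lay_nonneg hε x)
  have h5 : ∫ x in Ω, cut ρ ε x * Δ ρ x ≤ max C 0 * volume.real Ω := by
    have h6 : ‖∫ x in Ω, cut ρ ε x * Δ ρ x‖ ≤ max C 0 * volume.real Ω := by
      apply norm_setIntegral_le_of_norm_le_const hvol
      intro x hx
      rw [norm_mul]
      have h7 : ‖cut ρ ε x‖ ≤ 1 := by
        rw [Real.norm_eq_abs, abs_of_nonneg (a := cut ρ ε x) (Real.smoothTransition.nonneg _)]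
        exact Real.smoothTransition.le_one _
      have h8 := hC x (subset_closure hx)
      calc ‖cut ρ ε x‖ * ‖Δ ρ x‖ ≤ 1 * C := mul_le_mul h7 h8 (norm_nonneg _) zero_le_one
        _ ≤ max C 0 := by rw [one_mul]; exact le_max_left _ _
    exact (le_abs_self _).trans h6
  rw [integral_mul_const] at h4
  rw [le_div_iff₀ hp]
  calc (∫ x in Ω, lay ρ ε x) * p ≤ _ := h4
    _ = ∫ x in Ω, cut ρ ε x * Δ ρ x := h1.symm
    _ ≤ _ := h5

/-- **Green's identity** for a function satisfying the Neumann condition. -/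
theorem green (hΩ : SmoothDomain Ω ρ) {f g : EuclideanSpace ℝ (Fin n) → ℝ} {Cf Cg : ℝ}
    (hf : ContDiffOn ℝ 1 f Ω) (hfb : ∀ x ∈ Ω, |f x| ≤ Cf ∧ ∀ k, |pd k f x| ≤ Cf)
    (hg : NeumannC1 Ω ρ g) (hg2 : ContDiffOn ℝ 2 g Ω) (hΔ : ∀ x ∈ Ω, |Δ g x| ≤ Cg) :
    ∫ x in Ω, (∑ k, pd k f x * pd k g x + f x * Δ g x) = 0 := by
  obtain ⟨G, hGc, hGd, hG0⟩ := hg
  have hvol : volume Ω < ⊤ := hΩ.bounded.measure_lt_top
  obtain ⟨CL, ε0, hε0, hlay⟩ := layer_bound hΩ
  have hGΩ : ∀ x ∈ Ω, fderiv ℝ g x = G x := by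
    intro x hx
    have := (hGd x (subset_closure hx)).hasFDerivAt
      (mem_of_superset (hΩ.isOpen.mem_nhds hx) subset_closure)
    exact this.fderiv
  obtain ⟨CG, hCG⟩ := hΩ.isCompact_closure.exists_bound_of_continuousOn (f := G) hGc
  have hpg : ∀ x ∈ Ω, ∀ k, |pd k g x| ≤ max CG 0 := by
    intro x hx k
    unfold pd
    rw [hGΩ x hx]
    have h1 := (G x).le_opNorm (EuclideanSpace.basisFun (Fin n) ℝ k)
    rw [(EuclideanSpace.basisFun (Fin n) ℝ).orthonormal.1 k, mul_one, Real.norm_eq_abs] at h1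
    exact (h1.trans (hCG x (subset_closure hx))).trans (le_max_left _ _)
  -- the boundary function
  obtain ⟨b, hb⟩ : ∃ b : EuclideanSpace ℝ (Fin n) → ℝ, b = fun x => G x (gradient ρ x) := ⟨_, rfl⟩
  have hgradc : Continuous (gradient ρ) := by
    have : Continuous (fderiv ℝ ρ) := hΩ.smooth.continuous_fderiv (by simp)
    unfold gradient
    fun_prop
  have hbc : ContinuousOn b (closure Ω) := by
    rw [hb]; exact hGc.clm_apply hgradc.continuousOn
  have hb0 : ∀ x ∈ frontier Ω, b x = 0 := by rw [hb]; exact hG0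
  have hsum : ∀ ε, ∀ x ∈ Ω, ∑ k, pd k (cut ρ ε) x * pd k g x = -(lay ρ ε x * b x) := by
    intro ε x hx
    have h1 : ∑ k, pd k ρ x * pd k g x = b x := by
      rw [sum_pd_mul ρ g (G x) x (fun k => by unfold pd; rw [hGΩ x hx]), hb]
    rw [← h1, Finset.mul_sum, ← Finset.sum_neg_distrib]
    apply Finset.sum_congr rfl
    intro k _
    rw [pd_cut hΩ]; ring
  -- the integrand
  obtain ⟨F, hF⟩ : ∃ F : EuclideanSpace ℝ (Fin n) → ℝ,
    F = fun x => ∑ k, pd k f x * pd k g x + f x * Δ g x := ⟨_, rfl⟩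
  have hFc : ContinuousOn F Ω := by
    rw [hF]
    apply ContinuousOn.add
    · exact continuousOn_finsetSum _ fun k _ =>
        (ContDiffOn.pd_continuousOn hΩ.isOpen hf k).mul
          (ContDiffOn.pd_continuousOn hΩ.isOpen (hg2.of_le (by norm_num)) k)
    · exact hf.continuousOn.mul (ContDiffOn.laplacian_continuousOn hΩ.isOpen hg2)
  have hFb : ∀ x ∈ Ω, |F x| ≤ n * (Cf * max CG 0) + Cf * Cg := by
    intro x hx
    obtain ⟨h1, h2⟩ := hfb x hx
    have hCf : 0 ≤ Cf := (abs_nonneg _).trans h1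
    rw [hF]
    have h3 : |∑ k, pd k f x * pd k g x| ≤ n * (Cf * max CG 0) := by
      calc |∑ k, pd k f x * pd k g x| ≤ ∑ k, |pd k f x * pd k g x| :=
            Finset.abs_sum_le_sum_abs _ _
        _ ≤ ∑ _k : Fin n, Cf * max CG 0 := by
            apply Finset.sum_le_sum
            intro k _
            rw [abs_mul]
            exact mul_le_mul (h2 k) (hpg x hx k) (abs_nonneg _) hCf
        _ = n * (Cf * max CG 0) := by simp
    have h4 : |f x * Δ g x| ≤ Cf * Cg := by
      rw [abs_mul]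
      exact mul_le_mul h1 (hΔ x hx) (abs_nonneg _) hCf
    exact (abs_add_le _ _).trans (add_le_add h3 h4)
  have hFint : IntegrableOn F Ω volume := integrableOn_of_continuousOn_bounded hΩ.isOpen
    hΩ.bounded hFc hFb
  -- sequence of cutoffs
  obtain ⟨e, he⟩ : ∃ e : ℕ → ℝ, e = fun j : ℕ => 1 / ((j : ℝ) + 1) := ⟨_, rfl⟩
  have hepos : ∀ j, 0 < e j := fun j => by rw [he]; positivity
  have helim : Tendsto e atTop (𝓝 0) := by
    rw [he]; exact tendsto_one_div_add_atTop_nhds_zero_nat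
  have hid : ∀ j, ∫ x in Ω, cut ρ (e j) x * F x = ∫ x in Ω, f x * (lay ρ (e j) x * b x) := by
    intro j
    obtain ⟨hcomp, hsub⟩ := cut_compact hΩ (hepos j)
    have h1 := cutoff_ibp hΩ.isOpen (cut_contDiff hΩ (e j)) hcomp hsub hf hg2
    rw [hF, h1, ← integral_neg]
    apply setIntegral_congr_fun hΩ.isOpen.measurableSet
    intro x hx
    simp only
    rw [hsum (e j) x hx]; ring
  -- left side
  have hL : Tendsto (fun j => ∫ x in Ω, cut ρ (e j) x * F x) atTop (𝓝 (∫ x in Ω, F x)) := by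
    apply tendsto_integral_of_dominated_convergence (bound := fun x => |F x|)
    · intro j
      exact (((cut_contDiff hΩ (e j)).continuous.continuousOn.mul hFc).aestronglyMeasurable
        hΩ.isOpen.measurableSet)
    · exact hFint.norm
    · intro j
      refine Eventually.of_forall fun x => ?_
      rw [norm_mul, Real.norm_eq_abs, Real.norm_eq_abs,
        abs_of_nonneg (a := cut ρ (e j) x) (Real.smoothTransition.nonneg _)]
      exact mul_le_of_le_one_left (abs_nonneg _) (Real.smoothTransition.le_one _)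
    · filter_upwards [ae_restrict_mem hΩ.isOpen.measurableSet] with x hx
      apply tendsto_const_nhds.congr'
      have hρx : 0 < -(ρ x) / 2 := by
        have := hΩ.mem_iff.1 hx
        linarith
      filter_upwards [helim.eventually (gt_mem_nhds hρx)] with j hj
      rw [cut_one (hepos j) (by linarith), one_mul]
  -- right side
  have hR : Tendsto (fun j => ∫ x in Ω, f x * (lay ρ (e j) x * b x)) atTop (𝓝 0) := by
    rw [Metric.tendsto_atTop]
    intro δ hδ
    obtain ⟨ε1, hε1, hsmall⟩ := small_near_boundary hΩ hbc hb0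
      (δ := δ / (2 * ((max Cf 0 + 1) * (max CL 0 + 1)))) (by positivity)
    have hev := helim.eventually (gt_mem_nhds (show (0:ℝ) < min ε0 ε1 / 2 by positivity))
    obtain ⟨J, hJ⟩ := eventually_atTop.1 hev
    refine ⟨J, fun j hj => ?_⟩
    have hej := hJ j hj
    have h1 : 2 * e j ≤ ε0 := by
      have := min_le_left ε0 ε1
      linarith
    have h2 : 2 * e j ≤ ε1 := by
      have := min_le_right ε0 ε1
      linarith
    rw [dist_zero_right]
    obtain ⟨δ1, hδ1⟩ : ∃ δ1, δ1 = δ / (2 * ((max Cf 0 + 1) * (max CL 0 + 1))) := ⟨_, rfl⟩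
    rw [← hδ1] at hsmall
    have hδ10 : 0 < δ1 := by rw [hδ1]; positivity
    have hbound : ∀ x ∈ Ω, ‖f x * (lay ρ (e j) x * b x)‖ ≤ (max Cf 0 * δ1) * lay ρ (e j) x := by
      intro x hx
      have hl := lay_nonneg (ρ := ρ) (hepos j) x
      rw [norm_mul, norm_mul, Real.norm_eq_abs, Real.norm_eq_abs, Real.norm_eq_abs,
        abs_of_nonneg hl]
      by_cases hcase : 2 * e j < -(ρ x)
      · rw [lay_zero (hepos j) hcase]; simp
      · push Not at hcase
        have hb1 := hsmall x (subset_closure hx) (by linarith)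
        have hf1 : |f x| ≤ max Cf 0 := (hfb x hx).1.trans (le_max_left _ _)
        calc |f x| * (lay ρ (e j) x * |b x|) ≤ max Cf 0 * (lay ρ (e j) x * δ1) := by
              apply mul_le_mul hf1 _ (by positivity) (le_max_right _ _)
              exact mul_le_mul_of_nonneg_left hb1 hl
          _ = (max Cf 0 * δ1) * lay ρ (e j) x := by ring
    have hI : IntegrableOn (fun x => (max Cf 0 * δ1) * lay ρ (e j) x) Ω volume :=
      continuous_integrableOn hΩ (continuous_const.mul (lay_continuous hΩ _)).continuousOn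
    have h3 : ‖∫ x in Ω, f x * (lay ρ (e j) x * b x)‖ ≤
        ∫ x in Ω, (max Cf 0 * δ1) * lay ρ (e j) x := by
      apply norm_integral_le_of_norm_le hI
      filter_upwards [ae_restrict_mem hΩ.isOpen.measurableSet] with x hx
      exact hbound x hx
    rw [integral_const_mul] at h3
    have h4 := hlay (e j) (hepos j) h1
    have h5 : ∫ x in Ω, lay ρ (e j) x ≤ max CL 0 := h4.trans (le_max_left _ _)
    calc ‖∫ x in Ω, f x * (lay ρ (e j) x * b x)‖ ≤ (max Cf 0 * δ1) * ∫ x in Ω, lay ρ (e j) x := h3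
      _ ≤ (max Cf 0 * δ1) * max CL 0 := by
          apply mul_le_mul_of_nonneg_left h5 (by positivity)
      _ ≤ (max Cf 0 + 1) * (max CL 0 + 1) * δ1 := by
          have a1 : 0 ≤ max Cf 0 := le_max_right _ _
          have a2 : 0 ≤ max CL 0 := le_max_right _ _
          nlinarith [mul_nonneg a1 hδ10.le, mul_nonneg a2 hδ10.le]
      _ = δ / 2 := by rw [hδ1]; field_simp
      _ < δ := by linarith
  have hR' : Tendsto (fun j => ∫ x in Ω, cut ρ (e j) x * F x) atTop (𝓝 0) := by
    simp_rw [hid]; exact hR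
  have := tendsto_nhds_unique hL hR'
  rw [hF] at this
  exact this

end Run7.h350
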