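import Pool.Agent.Run7.h350.D2

/-!
Maximum principle on the whole space and exponential barriers.
-/

open Set Filter Topology
open scoped ContDiff Laplacian

namespace Run7.h350.KP

open Run7.h350

variable {n : ℕ}


/-- regularity class: continuous in `(t,x)`, differentiable in `t`, `C²` in `x`. -/
structure C12 (u : ℝ → EuclideanSpace ℝ (Fin n) → ℝ) : Prop where
  cont : Continuous (fun p : ℝ × EuclideanSpace ℝ (Fin n) => u p.1 p.2)
  diff : ∀ t x, DifferentiableAt ℝ (fun s => u s x) t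
  smooth : ∀ t, ContDiff ℝ 2 (u t)

/-- left time derivative at a weighted maximum -/
theorem deriv_ge_of_weighted {g : ℝ → ℝ} {g' a t Γ : ℝ} (hat : a < t) (hg : HasDerivAt g g' t)
    (hmax : ∀ s ∈ Icc a t, Real.exp (-Γ * s) * g s ≤ Real.exp (-Γ * t) * g t) :
    Γ * g t ≤ g' := by
  have h1 : HasDerivAt (fun s => -(Real.exp (-Γ * s) * g s))
      (-(Real.exp (-Γ * t) * (-Γ) * g t + Real.exp (-Γ * t) * g')) t := by
    have h2 : HasDerivAt (fun s : ℝ => -Γ * s) (-Γ) t := by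
      simpa using (hasDerivAt_id t).const_mul (-Γ)
    exact (h2.exp.mul hg).neg
  have h3 : HasDerivWithinAt (fun s => -(Real.exp (-Γ * s) * g s))
      (-(Real.exp (-Γ * t) * (-Γ) * g t + Real.exp (-Γ * t) * g')) (Icc a t) t :=
    h1.hasDerivWithinAt
  have h4 : (a - t) ∈ posTangentConeAt (Icc a t) t := by
    apply mem_posTangentConeAt_of_segment_subset
    rw [add_sub_cancel]
    rw [segment_symm, segment_eq_Icc hat.le]
  have h5 : IsLocalMinOn (fun s => -(Real.exp (-Γ * s) * g s)) (Icc a t) t := by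
    filter_upwards [self_mem_nhdsWithin] with s hs
    have := hmax s hs
    linarith
  have h6 := h5.hasFDerivWithinAt_nonneg h3.hasFDerivWithinAt h4
  simp only [ContinuousLinearMap.toSpanSingleton_apply, smul_eq_mul] at h6
  have h7 : 0 < Real.exp (-Γ * t) := Real.exp_pos _
  have h8 : (t - a) * (Real.exp (-Γ * t) * (g' - Γ * g t)) ≥ 0 := by nlinarith
  have h9 : 0 ≤ Real.exp (-Γ * t) * (g' - Γ * g t) := nonneg_of_mul_nonneg_right h8 (by linarith)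
  have h10 := nonneg_of_mul_nonneg_right h9 h7
  linarith

/-- **Maximum principle** on the whole space. -/
theorem maxP {a b Γ : ℝ} {Z : ℝ → EuclideanSpace ℝ (Fin n) → ℝ}
    (hZ : ContinuousOn (fun p : ℝ × EuclideanSpace ℝ (Fin n) => Z p.1 p.2) (Icc a b ×ˢ univ))
    (h0 : ∀ x, Z a x ≤ 0) (hR : ∃ R, ∀ t ∈ Icc a b, ∀ x, R ≤ ‖x‖ → Z t x ≤ 0)
    (hin : ∀ t ∈ Ioc a b, ∀ x, 0 < Z t x →
      ∃ (Zt : ℝ) (g1 : Fin n → ℝ → ℝ) (g2 : Fin n → ℝ),
        HasDerivAt (fun s => Z s x) Zt t ∧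
        (∀ k, HasD2 (fun s => Z t (x + s • EuclideanSpace.basisFun (Fin n) ℝ k)) (g1 k) (g2 k)) ∧
        ((∀ k, g1 k 0 = 0) → (∀ k, g2 k ≤ 0) → Zt < Γ * Z t x)) :
    ∀ t ∈ Icc a b, ∀ x, Z t x ≤ 0 := by
  intro t0 ht0 x0
  by_contra hcon
  push Not at hcon
  obtain ⟨R, hR⟩ := hR
  obtain ⟨R', hR'⟩ : ∃ R', R' = max R ‖x0‖ := ⟨_, rfl⟩
  have hcomp : IsCompact (Icc a b ×ˢ Metric.closedBall (0 : EuclideanSpace ℝ (Fin n)) R') :=
    isCompact_Icc.prod (isCompact_closedBall _ _)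
  have hx0 : x0 ∈ Metric.closedBall (0 : EuclideanSpace ℝ (Fin n)) R' := by
    rw [mem_closedBall_zero_iff, hR']; exact le_max_right _ _
  have hcW : ContinuousOn (fun p : ℝ × EuclideanSpace ℝ (Fin n) =>
      Real.exp (-Γ * p.1) * Z p.1 p.2)
      (Icc a b ×ˢ Metric.closedBall (0 : EuclideanSpace ℝ (Fin n)) R') := by
    apply ContinuousOn.mul (Continuous.continuousOn (by fun_prop))
    exact hZ.mono (prod_mono Subset.rfl (subset_univ _))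
  obtain ⟨⟨t, x⟩, ⟨ht, hx⟩, hmax⟩ := hcomp.exists_isMaxOn ⟨(t0, x0), ht0, hx0⟩ hcW
  simp only at ht hx
  have hmax' : ∀ s ∈ Icc a b, ∀ y ∈ Metric.closedBall (0 : EuclideanSpace ℝ (Fin n)) R',
      Real.exp (-Γ * s) * Z s y ≤ Real.exp (-Γ * t) * Z t x := fun s hs y hy =>
    hmax (show (s, y) ∈ Icc a b ×ˢ Metric.closedBall (0 : EuclideanSpace ℝ (Fin n)) R' from
      ⟨hs, hy⟩)
  have hpos : 0 < Z t x := by
    have h1 := hmax' t0 ht0 x0 hx0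
    have h2 : 0 < Real.exp (-Γ * t0) * Z t0 x0 := mul_pos (Real.exp_pos _) hcon
    have h3 : 0 < Real.exp (-Γ * t) * Z t x := by linarith
    exact (pos_iff_pos_of_mul_pos h3).1 (Real.exp_pos _)
  have hta : a < t := by
    rcases lt_or_eq_of_le ht.1 with h | h
    · exact h
    · exfalso
      rw [← h] at hpos
      linarith [h0 x]
  obtain ⟨Zt, g1, g2, hZt, hg, hlt⟩ := hin t ⟨hta, ht.2⟩ x hpos
  have htime : Γ * Z t x ≤ Zt := by
    apply deriv_ge_of_weighted hta hZt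
    intro s hs
    exact hmax' s ⟨hs.1, hs.2.trans ht.2⟩ x hx
  have hspace : ∀ y, Z t y ≤ Z t x := by
    intro y
    by_cases hy : y ∈ Metric.closedBall (0 : EuclideanSpace ℝ (Fin n)) R'
    · have h1 := hmax' t ht y hy
      exact le_of_mul_le_mul_left h1 (Real.exp_pos _)
    · rw [mem_closedBall_zero_iff, not_le] at hy
      have h1 : R ≤ ‖y‖ := by
        have := le_max_left R ‖x0‖
        rw [hR'] at hy; linarith
      linarith [hR t ht y h1]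
  have hloc : ∀ k, IsLocalMax (fun s : ℝ => Z t (x + s • EuclideanSpace.basisFun (Fin n) ℝ k)) 0 := by
    intro k
    filter_upwards with s
    simpa using hspace _
  have h1 : ∀ k, g1 k 0 = 0 := fun k => (hloc k).hasDerivAt_eq_zero (hg k).self
  have h2 : ∀ k, g2 k ≤ 0 := fun k => (hg k).nonpos_of_max (hloc k)
  linarith [hlt h1 h2]

/-- an exponential sum -/
noncomputable def ES (F : Finset (EuclideanSpace ℝ (Fin n))) (A b : EuclideanSpace ℝ (Fin n) → ℝ)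
    (t : ℝ) (x : EuclideanSpace ℝ (Fin n)) : ℝ :=
  ∑ ξ ∈ F, A ξ * Real.exp (inner ℝ ξ x + b ξ * t)

section ES

variable {F : Finset (EuclideanSpace ℝ (Fin n))} {A b : EuclideanSpace ℝ (Fin n) → ℝ}

theorem ES_cont : Continuous (fun p : ℝ × EuclideanSpace ℝ (Fin n) => ES F A b p.1 p.2) := by
  unfold ES
  fun_prop

theorem ES_nonneg (hA : ∀ ξ ∈ F, 0 ≤ A ξ) (t : ℝ) (x : EuclideanSpace ℝ (Fin n)) :
    0 ≤ ES F A b t x :=
  Finset.sum_nonneg fun ξ hξ => mul_nonneg (hA ξ hξ) (Real.exp_pos _).le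

theorem ES_term (hA : ∀ ξ ∈ F, 0 ≤ A ξ) {ξ : EuclideanSpace ℝ (Fin n)} (hξ : ξ ∈ F) (t : ℝ)
    (x : EuclideanSpace ℝ (Fin n)) : A ξ * Real.exp (inner ℝ ξ x + b ξ * t) ≤ ES F A b t x :=
  Finset.single_le_sum (f := fun ξ => A ξ * Real.exp (inner ℝ ξ x + b ξ * t))
    (fun ξ hξ => mul_nonneg (hA ξ hξ) (Real.exp_pos _).le) hξ

theorem ES_time (t : ℝ) (x : EuclideanSpace ℝ (Fin n)) :
    HasDerivAt (fun s => ES F A b s x) (∑ ξ ∈ F, A ξ * (b ξ * Real.exp (inner ℝ ξ x + b ξ * t))) t := by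
  unfold ES
  apply HasDerivAt.fun_sum
  intro ξ _
  have h1 : HasDerivAt (fun s : ℝ => inner ℝ ξ x + b ξ * s) (b ξ) t := by
    simpa using ((hasDerivAt_id t).const_mul (b ξ)).const_add (inner ℝ ξ x)
  exact (h1.exp.const_mul (A ξ)).congr_deriv (by ring)

theorem ES_space (t : ℝ) (x e : EuclideanSpace ℝ (Fin n)) :
    HasD2 (fun s => ES F A b t (x + s • e))
      (fun s => ∑ ξ ∈ F, A ξ * (inner ℝ ξ e * Real.exp (inner ℝ ξ (x + s • e) + b ξ * t)))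
      (∑ ξ ∈ F, A ξ * ((inner ℝ ξ e) ^ 2 * Real.exp (inner ℝ ξ x + b ξ * t))) := by
  have hl : ∀ (ξ : EuclideanSpace ℝ (Fin n)) (s : ℝ),
      HasDerivAt (fun s : ℝ => inner ℝ ξ (x + s • e) + b ξ * t) (inner ℝ ξ e) s := by
    intro ξ s
    have h1 : (fun s : ℝ => inner ℝ ξ (x + s • e) + b ξ * t) =
        fun s : ℝ => (inner ℝ ξ x + b ξ * t) + s * inner ℝ ξ e := by
      funext s
      rw [inner_add_right, inner_smul_right]; ring
    rw [h1]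
    simpa using ((hasDerivAt_id s).mul_const (inner ℝ ξ e)).const_add (inner ℝ ξ x + b ξ * t)
  refine ⟨Eventually.of_forall fun s => ?_, ?_⟩
  · unfold ES
    apply HasDerivAt.fun_sum
    intro ξ _
    exact ((hl ξ s).exp.const_mul (A ξ)).congr_deriv (by ring)
  · apply HasDerivAt.fun_sum
    intro ξ _
    have h1 := (((hl ξ 0).exp).const_mul (inner ℝ ξ e)).const_mul (A ξ)
    refine h1.congr_deriv ?_
    rw [zero_smul, add_zero]; ring

theorem sum_inner_sq (ξ : EuclideanSpace ℝ (Fin n)) :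
    ∑ k, (inner ℝ ξ (EuclideanSpace.basisFun (Fin n) ℝ k)) ^ 2 = ‖ξ‖ ^ 2 := by
  have := (EuclideanSpace.basisFun (Fin n) ℝ).sum_sq_norm_inner_left ξ
  simpa using this

theorem ES_lap (t : ℝ) (x : EuclideanSpace ℝ (Fin n)) :
    ∑ k, ∑ ξ ∈ F, A ξ * ((inner ℝ ξ (EuclideanSpace.basisFun (Fin n) ℝ k)) ^ 2 *
      Real.exp (inner ℝ ξ x + b ξ * t)) =
    ∑ ξ ∈ F, A ξ * (‖ξ‖ ^ 2 * Real.exp (inner ℝ ξ x + b ξ * t)) := by
  rw [Finset.sum_comm]
  apply Finset.sum_congr rfl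
  intro ξ _
  rw [← Finset.mul_sum, ← Finset.sum_mul, sum_inner_sq]

/-- growth of an exponential sum at infinity, uniform on bounded time intervals -/
theorem ES_growth (hA : ∀ ξ ∈ F, 0 < A ξ) {c : ℝ} (hc : 0 < c)
    (hF : ∀ x, ∃ ξ ∈ F, c * ‖x‖ ≤ inner ℝ ξ x) (a' b' M : ℝ) :
    ∃ R, ∀ t ∈ Icc a' b', ∀ x, R ≤ ‖x‖ → M ≤ ES F A b t x := by
  obtain ⟨m, hm, hmA⟩ : ∃ m : ℝ, 0 < m ∧ ∀ ξ ∈ F, m ≤ A ξ := by
    by_cases hne : F.Nonempty
    · obtain ⟨ξ0, hξ0, hmin⟩ := F.exists_min_image A hne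
      exact ⟨A ξ0, hA ξ0 hξ0, hmin⟩
    · rw [Finset.not_nonempty_iff_eq_empty] at hne
      exact ⟨1, one_pos, by simp [hne]⟩
  obtain ⟨B, hB⟩ : ∃ B : ℝ, ∀ ξ ∈ F, ∀ t ∈ Icc a' b', -B ≤ b ξ * t := by
    refine ⟨(∑ ξ ∈ F, |b ξ|) * (|a'| + |b'|), ?_⟩
    intro ξ hξ t ht
    have h1 : |b ξ| ≤ ∑ ξ ∈ F, |b ξ| :=
      Finset.single_le_sum (f := fun ξ => |b ξ|) (fun _ _ => abs_nonneg _) hξ
    have h2 : |t| ≤ |a'| + |b'| := by
      rw [abs_le]
      constructor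
      · linarith [ht.1, neg_abs_le a', abs_nonneg b']
      · linarith [ht.2, le_abs_self b', abs_nonneg a']
    have h3 : |b ξ * t| ≤ (∑ ξ ∈ F, |b ξ|) * (|a'| + |b'|) := by
      rw [abs_mul]
      exact mul_le_mul h1 h2 (abs_nonneg _) (Finset.sum_nonneg fun _ _ => abs_nonneg _)
    linarith [(abs_le.1 h3).1]
  refine ⟨(|M| / m + B) / c, ?_⟩
  intro t ht x hx
  obtain ⟨ξ, hξ, hξx⟩ := hF x
  rw [div_le_iff₀ hc] at hx
  have h1 := ES_term (b := b) (fun ξ hξ => (hA ξ hξ).le) hξ t x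
  have h2 : |M| / m ≤ inner ℝ ξ x + b ξ * t := by
    linarith [hB ξ hξ t ht]
  have h3 : |M| / m ≤ Real.exp (inner ℝ ξ x + b ξ * t) := by
    linarith [Real.add_one_le_exp (inner ℝ ξ x + b ξ * t)]
  have h4 : m * (|M| / m) ≤ A ξ * Real.exp (inner ℝ ξ x + b ξ * t) :=
    mul_le_mul (hmA ξ hξ) h3 (by positivity) (hA ξ hξ).le
  rw [mul_div_cancel₀ _ hm.ne'] at h4
  linarith [le_abs_self M]

end ES

/-- **Upper bound** by exponential sums. -/
theorem cmpES {u : ℝ → EuclideanSpace ℝ (Fin n) → ℝ} (hu : C12 u) {L M : ℝ}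
    {F : Finset (EuclideanSpace ℝ (Fin n))} {A b : EuclideanSpace ℝ (Fin n) → ℝ} {t0 t1 : ℝ}
    (hpde : ∀ t ∈ Ioc t0 t1, ∀ x, 0 < u t x → deriv (fun s => u s x) t - Δ (u t) x ≤ L * u t x)
    (hM : ∀ t ∈ Icc t0 t1, ∀ x, u t x ≤ M)
    (hA : ∀ ξ ∈ F, 0 < A ξ) {c : ℝ} (hc : 0 < c)
    (hF : ∀ x, ∃ ξ ∈ F, c * ‖x‖ ≤ inner ℝ ξ x) (hb : ∀ ξ ∈ F, L + ‖ξ‖ ^ 2 ≤ b ξ)
    (hinit : ∀ x, u t0 x ≤ ES F A b t0 x) :
    ∀ t ∈ Icc t0 t1, ∀ x, u t x ≤ ES F A b t x := by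
  have hmain := maxP (a := t0) (b := t1) (Γ := L + 1) (Z := fun t x => u t x - ES F A b t x)
    ((hu.cont.sub ES_cont).continuousOn) (fun x => by linarith [hinit x]) ?_ ?_
  · intro t ht x
    linarith [hmain t ht x]
  · obtain ⟨R, hR⟩ := ES_growth (b := b) hA hc hF t0 t1 M
    exact ⟨R, fun t ht x hx => by linarith [hM t ht x, hR t ht x hx]⟩
  · intro t ht x hpos
    refine ⟨_, _, _, ((hu.diff t x).hasDerivAt.sub (ES_time t x)), fun k =>
      (hasD2_line (hu.smooth t).contDiffAt (EuclideanSpace.basisFun (Fin n) ℝ k)).sub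
        (ES_space t x _), ?_⟩
    intro _ h2
    have hsum : ∑ k, (iteratedFDeriv ℝ 2 (u t) x ![EuclideanSpace.basisFun (Fin n) ℝ k,
        EuclideanSpace.basisFun (Fin n) ℝ k] - ∑ ξ ∈ F, A ξ * ((inner ℝ ξ
          (EuclideanSpace.basisFun (Fin n) ℝ k)) ^ 2 * Real.exp (inner ℝ ξ x + b ξ * t))) ≤ 0 :=
      Finset.sum_nonpos fun k _ => h2 k
    rw [Finset.sum_sub_distrib, ES_lap, ← laplacian_eq_sum] at hsum
    have hEn := ES_nonneg (b := b) (fun ξ hξ => (hA ξ hξ).le) t x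
    have hupos : 0 < u t x := by linarith
    have h3 := hpde t ht x hupos
    have h4 : L * ES F A b t x ≤ ∑ ξ ∈ F, A ξ * (b ξ * Real.exp (inner ℝ ξ x + b ξ * t)) -
        ∑ ξ ∈ F, A ξ * (‖ξ‖ ^ 2 * Real.exp (inner ℝ ξ x + b ξ * t)) := by
      unfold ES
      rw [← Finset.sum_sub_distrib, Finset.mul_sum]
      apply Finset.sum_le_sum
      intro ξ hξ
      have h5 : 0 < A ξ * Real.exp (inner ℝ ξ x + b ξ * t) :=
        mul_pos (hA ξ hξ) (Real.exp_pos _)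
      nlinarith [mul_le_mul_of_nonneg_right (hb ξ hξ) h5.le]
    nlinarith

/-- finite nets of balls -/
theorem exists_net (n : ℕ) {R κ : ℝ} (hR : 0 ≤ R) (hκ : 0 < κ) :
    ∃ F : Finset (EuclideanSpace ℝ (Fin n)), (∀ ξ ∈ F, ‖ξ‖ ≤ R) ∧
      (∀ y : EuclideanSpace ℝ (Fin n), ‖y‖ ≤ R → ∃ ξ ∈ F, ‖ξ - y‖ ≤ κ) := by
  obtain ⟨t, hts, htf, hcov⟩ :=
    (isCompact_closedBall (0 : EuclideanSpace ℝ (Fin n)) R).finite_cover_balls hκ
  refine ⟨htf.toFinset, fun ξ hξ => ?_, fun y hy => ?_⟩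
  · rw [Set.Finite.mem_toFinset] at hξ
    simpa using hts hξ
  · have h1 : y ∈ ⋃ x ∈ t, Metric.ball x κ := hcov (by simpa using hy)
    simp only [mem_iUnion, exists_prop] at h1
    obtain ⟨ξ, hξ, hyξ⟩ := h1
    refine ⟨ξ, by rwa [Set.Finite.mem_toFinset], ?_⟩
    rw [Metric.mem_ball, dist_comm, dist_eq_norm] at hyξ
    exact hyξ.le

theorem net_growth {F : Finset (EuclideanSpace ℝ (Fin n))} {R κ : ℝ} (hR : 0 ≤ R)
    (hF : ∀ y : EuclideanSpace ℝ (Fin n), ‖y‖ ≤ R → ∃ ξ ∈ F, ‖ξ - y‖ ≤ κ)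
    (x : EuclideanSpace ℝ (Fin n)) : ∃ ξ ∈ F, (R - κ) * ‖x‖ ≤ inner ℝ ξ x := by
  by_cases hx : x = 0
  · obtain ⟨ξ, hξ, _⟩ := hF 0 (by simpa using hR)
    exact ⟨ξ, hξ, by simp [hx]⟩
  · have hx' : 0 < ‖x‖ := norm_pos_iff.2 hx
    obtain ⟨ξ, hξ, hd⟩ := hF ((R / ‖x‖) • x) (by
      rw [norm_smul, Real.norm_eq_abs, abs_of_nonneg (by positivity)]
      rw [div_mul_cancel₀ _ hx'.ne'])
    refine ⟨ξ, hξ, ?_⟩
    have h1 : inner ℝ ξ x = inner ℝ ((R / ‖x‖) • x) x + inner ℝ (ξ - (R / ‖x‖) • x) x := by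
      rw [← inner_add_left]; congr 1; abel
    have h2 : inner ℝ ((R / ‖x‖) • x) x = R * ‖x‖ := by
      rw [real_inner_smul_left, real_inner_self_eq_norm_sq]
      field_simp
    have h3 : |inner ℝ (ξ - (R / ‖x‖) • x) x| ≤ κ * ‖x‖ :=
      (abs_real_inner_le_norm _ _).trans (mul_le_mul_of_nonneg_right hd hx'.le)
    rw [h1, h2]
    have := (abs_le.1 h3).1
    linarith

/-- comparison for functions bounded above -/
theorem cmpB {a b L M : ℝ} {Z : ℝ → EuclideanSpace ℝ (Fin n) → ℝ}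
    (hZ : ContinuousOn (fun p : ℝ × EuclideanSpace ℝ (Fin n) => Z p.1 p.2) (Icc a b ×ˢ univ))
    (hM : ∀ t ∈ Icc a b, ∀ x, Z t x ≤ M) (h0 : ∀ x, Z a x ≤ 0)
    (hin : ∀ t ∈ Ioc a b, ∀ x, 0 < Z t x →
      ∃ (Zt : ℝ) (g1 : Fin n → ℝ → ℝ) (g2 : Fin n → ℝ),
        HasDerivAt (fun s => Z s x) Zt t ∧
        (∀ k, HasD2 (fun s => Z t (x + s • EuclideanSpace.basisFun (Fin n) ℝ k)) (g1 k) (g2 k)) ∧
        Zt - ∑ k, g2 k ≤ L * Z t x) :
    ∀ t ∈ Icc a b, ∀ x, Z t x ≤ 0 := by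
  obtain ⟨F, hFR, hF⟩ := exists_net n (R := 2) (κ := 1) (by norm_num) one_pos
  have hgr : ∀ x, ∃ ξ ∈ F, 1 * ‖x‖ ≤ inner ℝ ξ x := by
    intro x
    obtain ⟨ξ, hξ, h⟩ := net_growth (by norm_num) hF x
    exact ⟨ξ, hξ, by linarith⟩
  obtain ⟨B, hB⟩ : ∃ B : EuclideanSpace ℝ (Fin n) → ℝ, ∀ ξ, B ξ = L + ‖ξ‖ ^ 2 :=
    ⟨fun ξ => L + ‖ξ‖ ^ 2, fun ξ => rfl⟩
  have key : ∀ κ > 0, ∀ t ∈ Icc a b, ∀ x, Z t x ≤ ES F (fun _ => κ) B t x := by
    intro κ hκ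
    have hmain := maxP (a := a) (b := b) (Γ := L + 1)
      (Z := fun t x => Z t x - ES F (fun _ => κ) B t x)
      (hZ.sub ES_cont.continuousOn)
      (fun x => by
        have := ES_nonneg (F := F) (A := fun _ => κ) (b := B) (fun _ _ => hκ.le) a x
        linarith [h0 x]) ?_ ?_
    · intro t ht x
      linarith [hmain t ht x]
    · obtain ⟨R, hR⟩ := ES_growth (F := F) (A := fun _ => κ) (b := B) (fun _ _ => hκ) one_pos hgr a b M
      exact ⟨R, fun t ht x hx => by linarith [hM t ht x, hR t ht x hx]⟩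
    · intro t ht x hpos
      have hEn := ES_nonneg (F := F) (A := fun _ => κ) (b := B) (fun _ _ => hκ.le) t x
      obtain ⟨Zt, g1, g2, h1, h2, h3⟩ := hin t ht x (by linarith)
      refine ⟨_, _, _, h1.sub (ES_time t x), fun k => (h2 k).sub (ES_space t x _), ?_⟩
      intro _ h5
      have hsum : ∑ k, (g2 k - ∑ ξ ∈ F, κ * ((inner ℝ ξ
            (EuclideanSpace.basisFun (Fin n) ℝ k)) ^ 2 * Real.exp (inner ℝ ξ x + B ξ * t))) ≤ 0 :=
        Finset.sum_nonpos fun k _ => h5 k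
      rw [Finset.sum_sub_distrib, ES_lap (A := fun _ => κ)] at hsum
      have h4 : L * ES F (fun _ => κ) B t x = ∑ ξ ∈ F, κ * (B ξ * Real.exp (inner ℝ ξ x + B ξ * t)) -
          ∑ ξ ∈ F, κ * (‖ξ‖ ^ 2 * Real.exp (inner ℝ ξ x + B ξ * t)) := by
        unfold ES
        rw [← Finset.sum_sub_distrib, Finset.mul_sum]
        apply Finset.sum_congr rfl
        intro ξ hξ
        rw [hB]; ring
      nlinarith
  intro t ht x
  by_contra hcon
  push Not at hcon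
  obtain ⟨S, hS⟩ : ∃ S, S = ES F (fun _ => 1) B t x := ⟨_, rfl⟩
  have hS0 : 0 ≤ S := by rw [hS]; exact ES_nonneg (fun _ _ => zero_le_one) t x
  have h1 := key (Z t x / (2 * (S + 1))) (by positivity) t ht x
  have h2 : ES F (fun _ => Z t x / (2 * (S + 1))) B t x = Z t x / (2 * (S + 1)) * S := by
    rw [hS]; unfold ES
    rw [Finset.mul_sum]
    apply Finset.sum_congr rfl
    intro ξ _; ring
  rw [h2] at h1
  have h3 : Z t x / (2 * (S + 1)) * S ≤ Z t x / 2 := by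
    rw [div_mul_eq_mul_div, div_le_div_iff₀ (by positivity) (by norm_num)]
    nlinarith
  linarith

end Run7.h350.KP
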