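import Pool.Agent.Run7.h350.Compact

open Set Filter Topology MeasureTheory
open scoped ContDiff Laplacian

namespace Run7.h350

variable {n N : ℕ} {Ω : Set (EuclideanSpace ℝ (Fin n))} {ρ : EuclideanSpace ℝ (Fin n) → ℝ}

theorem pd_measurable (c : Fin n) (f : EuclideanSpace ℝ (Fin n) → ℝ) : Measurable (pd c f) := by
  unfold pd
  exact measurable_fderiv_apply_const ℝ f _

/-- squared integral bounded by the integral of the square on `[0,1]` -/
theorem sq_integral_le {g : ℝ → ℝ} (hg : ContinuousOn g (Icc 0 1)) :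
    (∫ τ in (0:ℝ)..1, g τ) ^ 2 ≤ ∫ τ in (0:ℝ)..1, g τ ^ 2 := by
  obtain ⟨c, hc⟩ : ∃ c, c = ∫ τ in (0:ℝ)..1, g τ := ⟨_, rfl⟩
  have hu : uIcc (0:ℝ) 1 = Icc 0 1 := uIcc_of_le zero_le_one
  have hi : IntervalIntegrable g volume 0 1 := (by rw [← hu] at hg; exact hg.intervalIntegrable)
  have hi2 : IntervalIntegrable (fun τ => g τ ^ 2) volume 0 1 := by
    have : ContinuousOn (fun τ => g τ ^ 2) (uIcc 0 1) := by rw [hu]; exact hg.pow 2
    exact this.intervalIntegrable
  have h0 : 0 ≤ ∫ τ in (0:ℝ)..1, (g τ - c) ^ 2 := by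
    apply intervalIntegral.integral_nonneg zero_le_one
    intro τ _; positivity
  have h1 : ∫ τ in (0:ℝ)..1, (g τ - c) ^ 2 = (∫ τ in (0:ℝ)..1, g τ ^ 2) - c ^ 2 := by
    have h2 : ∀ τ, (g τ - c) ^ 2 = g τ ^ 2 - 2 * c * g τ + c ^ 2 := fun τ => by ring
    simp_rw [h2]
    rw [intervalIntegral.integral_add (hi2.sub (hi.const_mul _)) (by simp),
      intervalIntegral.integral_sub hi2 (hi.const_mul _), intervalIntegral.integral_const_mul,
      ← hc]
    simp
    ring
  rw [← hc]
  linarith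

theorem translate_bound (hΩ : IsOpen Ω) (hb : Bornology.IsBounded Ω)
    {f : EuclideanSpace ℝ (Fin n) → ℝ} (hf : ContDiffOn ℝ 1 f Ω) {C : ℝ}
    (hC : ∀ x ∈ Ω, ∀ c, |pd c f x| ≤ C) {v : EuclideanSpace ℝ (Fin n)}
    {S : Set (EuclideanSpace ℝ (Fin n))} (hS : MeasurableSet S)
    (hSv : ∀ x ∈ S, ∀ τ ∈ Icc (0:ℝ) 1, x + τ • v ∈ Ω) :
    ∫ x in S, (f (x + v) - f x) ^ 2 ≤ ‖v‖ ^ 2 * ∫ x in Ω, ∑ c, (pd c f x) ^ 2 := by
  have hSΩ : S ⊆ Ω := fun x hx => by simpa using hSv x hx 0 ⟨le_rfl, zero_le_one⟩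
  have hvS : volume S < ⊤ := (hb.subset hSΩ).measure_lt_top
  obtain ⟨G, hG⟩ : ∃ G : EuclideanSpace ℝ (Fin n) → ℝ, G = Ω.indicator fun x => ∑ c, (pd c f x) ^ 2 :=
    ⟨_, rfl⟩
  have hGm : Measurable G := by
    rw [hG]
    apply Measurable.indicator _ hΩ.measurableSet
    exact Finset.measurable_sum _ fun c _ => (pd_measurable c f).pow_const 2
  have hG0 : ∀ x, 0 ≤ G x := by
    intro x; rw [hG]
    apply indicator_nonneg
    intro y _
    exact Finset.sum_nonneg fun c _ => sq_nonneg _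
  have hGb : ∀ x, G x ≤ n * C ^ 2 := by
    intro x; rw [hG]
    by_cases hx : x ∈ Ω
    · rw [indicator_of_mem hx]
      calc ∑ c, (pd c f x) ^ 2 ≤ ∑ _c : Fin n, C ^ 2 := by
            apply Finset.sum_le_sum
            intro c _
            have := hC x hx c
            rw [← sq_abs]
            gcongr
        _ = n * C ^ 2 := by simp
    · rw [indicator_of_notMem hx]; positivity
  -- pointwise bound
  have hpt : ∀ x ∈ S, (f (x + v) - f x) ^ 2 ≤ ‖v‖ ^ 2 * ∫ τ in Icc (0:ℝ) 1, G (x + τ • v) := by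
    intro x hx
    have hline : ∀ τ : ℝ, HasDerivAt (fun τ : ℝ => x + τ • v) v τ := by
      intro τ
      simpa using ((hasDerivAt_id τ).smul_const v).const_add x
    have hder : ∀ τ ∈ uIcc (0:ℝ) 1, HasDerivAt (fun τ : ℝ => f (x + τ • v))
        (fderiv ℝ f (x + τ • v) v) τ := by
      intro τ hτ
      rw [uIcc_of_le zero_le_one] at hτ
      have h1 : HasFDerivAt f (fderiv ℝ f (x + τ • v)) (x + τ • v) :=
        ((hf.contDiffAt (hΩ.mem_nhds (hSv x hx τ hτ))).differentiableAt (by norm_num)).hasFDerivAt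
      exact h1.comp_hasDerivAt τ (hline τ)
    have hlc : Continuous (fun τ : ℝ => x + τ • v) := by fun_prop
    have hdc : ContinuousOn (fun τ : ℝ => fderiv ℝ f (x + τ • v) v) (Icc 0 1) := by
      have h1 := hf.continuousOn_fderiv_of_isOpen hΩ (by norm_num)
      have h2 : ContinuousOn (fun τ : ℝ => fderiv ℝ f (x + τ • v)) (Icc 0 1) :=
        h1.comp hlc.continuousOn fun τ hτ => hSv x hx τ hτ
      exact h2.clm_apply continuousOn_const
    have hu : uIcc (0:ℝ) 1 = Icc 0 1 := uIcc_of_le zero_le_one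
    have hFTC := intervalIntegral.integral_eq_sub_of_hasDerivAt hder
      ((by rw [← hu] at hdc; exact hdc.intervalIntegrable))
    simp only [one_smul, zero_smul, add_zero] at hFTC
    rw [← hFTC]
    refine (sq_integral_le hdc).trans ?_
    rw [intervalIntegral.integral_of_le zero_le_one, ← integral_Icc_eq_integral_Ioc,
      ← integral_const_mul]
    have hGi : IntegrableOn (fun τ : ℝ => ‖v‖ ^ 2 * G (x + τ • v)) (Icc 0 1) volume := by
      refine Measure.integrableOn_of_bounded (M := ‖v‖ ^ 2 * (n * C ^ 2)) ?_ ?_ ?_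
      · rw [Real.volume_Icc]; exact ENNReal.ofReal_ne_top
      · exact ((hGm.comp hlc.measurable).const_mul _).aestronglyMeasurable
      · refine Eventually.of_forall fun τ => ?_
        rw [Real.norm_eq_abs, abs_of_nonneg (mul_nonneg (by positivity) (hG0 _))]
        exact mul_le_mul_of_nonneg_left (hGb _) (by positivity)
    apply setIntegral_mono_on ((hdc.pow 2).integrableOn_compact isCompact_Icc) hGi measurableSet_Icc
    intro τ hτ
    have h3 := clm_sq_le (fderiv ℝ f (x + τ • v)) v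
    have h4 : G (x + τ • v) = ∑ c, (pd c f (x + τ • v)) ^ 2 := by
      rw [hG, indicator_of_mem (hSv x hx τ hτ)]
    rw [h4, mul_comm (‖v‖ ^ 2)]
    exact h3
  -- integrability on the product
  have hprod : Integrable (Function.uncurry fun (x : EuclideanSpace ℝ (Fin n)) (τ : ℝ) =>
      ‖v‖ ^ 2 * G (x + τ • v)) ((volume.restrict S).prod (volume.restrict (Icc (0:ℝ) 1))) := by
    have hfin : IsFiniteMeasure (volume.restrict S) := ⟨by simpa using hvS⟩
    have hm : Measurable (Function.uncurry fun (x : EuclideanSpace ℝ (Fin n)) (τ : ℝ) =>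
      ‖v‖ ^ 2 * G (x + τ • v)) := by
      apply Measurable.const_mul
      apply hGm.comp
      have : Continuous (fun p : EuclideanSpace ℝ (Fin n) × ℝ => p.1 + p.2 • v) := by fun_prop
      exact this.measurable
    apply Integrable.of_bound hm.aestronglyMeasurable (‖v‖ ^ 2 * (n * C ^ 2))
    refine Eventually.of_forall fun p => ?_
    simp only [Function.uncurry]
    rw [Real.norm_eq_abs, abs_of_nonneg (mul_nonneg (by positivity) (hG0 _))]
    exact mul_le_mul_of_nonneg_left (hGb _) (by positivity)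
  have h1 : ∫ x in S, (f (x + v) - f x) ^ 2 ≤
      ∫ x in S, ∫ τ in Icc (0:ℝ) 1, ‖v‖ ^ 2 * G (x + τ • v) := by
    apply integral_mono_of_nonneg
    · exact Eventually.of_forall fun x => sq_nonneg _
    · exact hprod.integral_prod_left
    · filter_upwards [ae_restrict_mem hS] with x hx
      rw [integral_const_mul]
      exact hpt x hx
  refine h1.trans ?_
  rw [integral_integral_swap hprod]
  have hGint : Integrable G volume := by
    rw [hG, integrable_indicator_iff hΩ.measurableSet]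
    apply integrableOn_of_continuousOn_bounded (C := n * C ^ 2) hΩ hb
    · exact continuousOn_finsetSum _ fun c _ => (ContDiffOn.pd_continuousOn hΩ hf c).pow 2
    · intro x hx
      have h2 := hGb x
      rw [hG, indicator_of_mem hx] at h2
      rw [abs_of_nonneg (Finset.sum_nonneg fun c _ => sq_nonneg _)]
      exact h2
  have h2 : ∀ τ : ℝ, ∫ x in S, ‖v‖ ^ 2 * G (x + τ • v) ≤ ‖v‖ ^ 2 * ∫ x in Ω, ∑ c, (pd c f x) ^ 2 := by
    intro τ
    rw [integral_const_mul]
    apply mul_le_mul_of_nonneg_left _ (by positivity)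
    calc ∫ x in S, G (x + τ • v) ≤ ∫ x, G (x + τ • v) := by
          apply setIntegral_le_integral (hGint.comp_add_right _)
          exact Eventually.of_forall fun x => hG0 _
      _ = ∫ x, G x := integral_add_right_eq_self (μ := volume) G (τ • v)
      _ = ∫ x in Ω, ∑ c, (pd c f x) ^ 2 := by
          rw [hG, integral_indicator hΩ.measurableSet]
  calc ∫ τ in Icc (0:ℝ) 1, ∫ x in S, ‖v‖ ^ 2 * G (x + τ • v)
      ≤ ∫ _τ in Icc (0:ℝ) 1, ‖v‖ ^ 2 * ∫ x in Ω, ∑ c, (pd c f x) ^ 2 := by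
        apply setIntegral_mono
        · exact hprod.integral_prod_right
        · exact integrableOn_const (by rw [Real.volume_Icc]; exact ENNReal.ofReal_ne_top)
        · exact h2
    _ = ‖v‖ ^ 2 * ∫ x in Ω, ∑ c, (pd c f x) ^ 2 := by simp

/-- limits of functions whose gradients tend to zero in `L²` are constant. -/
theorem const_of_grad_tendsto (hΩ : IsOpen Ω) (hconn : IsConnected Ω)
    (hb : Bornology.IsBounded Ω) {f : ℕ → EuclideanSpace ℝ (Fin n) → ℝ}
    {g : EuclideanSpace ℝ (Fin n) → ℝ} {M : ℝ} (hf : ∀ m, ContDiffOn ℝ 1 (f m) Ω)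
    (hC : ∀ m, ∃ C, ∀ x ∈ Ω, ∀ c, |pd c (f m) x| ≤ C)
    (hM : ∀ m, ∀ x ∈ Ω, |f m x| ≤ M)
    (hlim : ∀ x ∈ Ω, Tendsto (fun m => f m x) atTop (𝓝 (g x))) (hg : ContinuousOn g Ω)
    (hgrad : Tendsto (fun m => ∫ x in Ω, ∑ c, (pd c (f m) x) ^ 2) atTop (𝓝 0)) :
    ∀ x ∈ Ω, ∀ y ∈ Ω, g x = g y := by
  have hloc : ∀ x0 ∈ Ω, ∀ᶠ y in 𝓝[Ω] x0, g x0 = g y := by
    intro x0 hx0
    obtain ⟨r, hr, hball⟩ := Metric.isOpen_iff.1 hΩ x0 hx0
    have hnear : ∀ᶠ y in 𝓝[Ω] x0, ‖y - x0‖ < r / 2 := by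
      apply mem_nhdsWithin_of_mem_nhds
      have := Metric.ball_mem_nhds x0 (show (0:ℝ) < r / 2 by positivity)
      filter_upwards [this] with w hw
      rwa [mem_ball_iff_norm] at hw
    filter_upwards [hnear] with y hy
    obtain ⟨v, hv⟩ : ∃ v, v = y - x0 := ⟨_, rfl⟩
    rw [← hv] at hy
    have hyv : y = x0 + v := by rw [hv]; abel
    obtain ⟨S, hS⟩ : ∃ S, S = Metric.ball x0 (r / 2) := ⟨_, rfl⟩
    have hSo : IsOpen S := by rw [hS]; exact Metric.isOpen_ball
    have hx0S : x0 ∈ S := by rw [hS]; exact Metric.mem_ball_self (by positivity)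
    have hSv : ∀ x ∈ S, ∀ τ ∈ Icc (0:ℝ) 1, x + τ • v ∈ Ω := by
      intro x hx τ hτ
      apply hball
      rw [hS, mem_ball_iff_norm] at hx
      rw [mem_ball_iff_norm]
      calc ‖x + τ • v - x0‖ = ‖(x - x0) + τ • v‖ := by congr 1; abel
        _ ≤ ‖x - x0‖ + ‖τ • v‖ := norm_add_le _ _
        _ ≤ ‖x - x0‖ + ‖v‖ := by
            rw [norm_smul, Real.norm_of_nonneg hτ.1]
            have := mul_le_mul_of_nonneg_right hτ.2 (norm_nonneg v)
            linarith
        _ < r := by linarith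
    have hSΩ : S ⊆ Ω := fun x hx => by simpa using hSv x hx 0 ⟨le_rfl, zero_le_one⟩
    have hSv1 : ∀ x ∈ S, x + v ∈ Ω := fun x hx => by
      simpa using hSv x hx 1 ⟨zero_le_one, le_rfl⟩
    have hvS : volume S < ⊤ := (hb.subset hSΩ).measure_lt_top
    have hshift : Continuous (fun x : EuclideanSpace ℝ (Fin n) => x + v) := by fun_prop
    have hlim1 : Tendsto (fun m => ∫ x in S, (f m (x + v) - f m x) ^ 2) atTop
        (𝓝 (∫ x in S, (g (x + v) - g x) ^ 2)) := by
      apply tendsto_integral_of_dominated_convergence (bound := fun _ => (2 * M) ^ 2)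
      · intro m
        apply ContinuousOn.aestronglyMeasurable _ hSo.measurableSet
        exact (((hf m).continuousOn.comp hshift.continuousOn hSv1).sub
          ((hf m).continuousOn.mono hSΩ)).pow 2
      · exact integrableOn_const hvS.ne
      · intro m
        filter_upwards [ae_restrict_mem hSo.measurableSet] with x hx
        rw [Real.norm_eq_abs, abs_of_nonneg (sq_nonneg _), ← sq_abs]
        have h1 := hM m _ (hSv1 x hx)
        have h2 := hM m x (hSΩ hx)
        have h3 : |f m (x + v) - f m x| ≤ 2 * M := by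
          calc |f m (x + v) - f m x| ≤ |f m (x + v)| + |f m x| := abs_sub _ _
            _ ≤ 2 * M := by linarith
        gcongr
      · filter_upwards [ae_restrict_mem hSo.measurableSet] with x hx
        exact ((hlim _ (hSv1 x hx)).sub (hlim x (hSΩ hx))).pow 2
    have hlim2 : Tendsto (fun m => ∫ x in S, (f m (x + v) - f m x) ^ 2) atTop (𝓝 0) := by
      have hz : Tendsto (fun m => ‖v‖ ^ 2 * ∫ x in Ω, ∑ c, (pd c (f m) x) ^ 2) atTop (𝓝 0) := by
        simpa using hgrad.const_mul (‖v‖ ^ 2)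
      refine squeeze_zero (fun m => integral_nonneg fun x => sq_nonneg _) (fun m => ?_) hz
      obtain ⟨C, hC'⟩ := hC m
      exact translate_bound hΩ hb (hf m) hC' hSo.measurableSet hSv
    have h0 := tendsto_nhds_unique hlim1 hlim2
    have hgc1 : ContinuousOn (fun x => (g (x + v) - g x) ^ 2) S :=
      ((hg.comp hshift.continuousOn hSv1).sub (hg.mono hSΩ)).pow 2
    have hint : IntegrableOn (fun x => (g (x + v) - g x) ^ 2) S volume := by
      apply integrableOn_of_continuousOn_bounded (C := (2 * M) ^ 2) hSo (hb.subset hSΩ) hgc1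
      intro x hx
      have hgM : ∀ z ∈ Ω, |g z| ≤ M := fun z hz =>
        le_of_tendsto' (hlim z hz).abs fun m => hM m z hz
      rw [abs_of_nonneg (sq_nonneg _), ← sq_abs]
      have h3 : |g (x + v) - g x| ≤ 2 * M := by
        calc |g (x + v) - g x| ≤ |g (x + v)| + |g x| := abs_sub _ _
          _ ≤ 2 * M := by linarith [hgM _ (hSv1 x hx), hgM x (hSΩ hx)]
      gcongr
    have hae := (integral_eq_zero_iff_of_nonneg (fun x => sq_nonneg _) hint).1 h0
    have heq := Measure.eqOn_open_of_ae_eq hae hSo hgc1 continuousOn_const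
    have := heq hx0S
    simp only [Pi.zero_apply] at this
    have h5 : g (x0 + v) - g x0 = 0 := by
      exact pow_eq_zero_iff (two_ne_zero) |>.1 this
    rw [hyv]; linarith
  intro x hx y hy
  exact hconn.isPreconnected.induction₂ (fun x y => g x = g y) hloc
    (fun _ _ _ _ _ _ h1 h2 => h1.trans h2) (fun _ _ _ _ h => h.symm) hx hy

end Run7.h350
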