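import Pool.Agent.Run7.h350.KP9
import Pool.Agent.Run7.h350.Transl

/-!
The supersolution built from the segment average of `log v`.
-/

open Set Filter Topology MeasureTheory
open scoped ContDiff Laplacian

namespace Run7.h350.KP

open Run7.h350

variable {n : ℕ} {f : ℝ → ℝ} {μ L : ℝ} {v : ℝ → EuclideanSpace ℝ (Fin n) → ℝ}

theorem line2 {u : EuclideanSpace ℝ (Fin n) → ℝ} (hu : ContDiff ℝ 2 u)
    (x e : EuclideanSpace ℝ (Fin n)) (s : ℝ) :
    HasDerivAt (fun r : ℝ => u (x + r • e)) (fderiv ℝ u (x + s • e) e) s ∧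
    HasDerivAt (fun r : ℝ => fderiv ℝ u (x + r • e) e)
      (iteratedFDeriv ℝ 2 u (x + s • e) ![e, e]) s := by
  have hline : HasDerivAt (fun r : ℝ => x + r • e) e s := by
    simpa using ((hasDerivAt_id s).smul_const e).const_add x
  refine ⟨?_, ?_⟩
  · exact ((hu.differentiable (by simp)) _).hasFDerivAt.comp_hasDerivAt s hline
  · have h2 : DifferentiableAt ℝ (fderiv ℝ u) (x + s • e) :=
      ((hu.fderiv_right (m := 1) (by norm_num)).differentiable (by simp)) _
    rw [iteratedFDeriv_two_apply]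
    have h4 := h2.hasFDerivAt.comp_hasDerivAt s hline
    have h5 := h4.clm_apply (hasDerivAt_const s e)
    simpa using h5

theorem cont_d2 {u : EuclideanSpace ℝ (Fin n) → ℝ} (hu : ContDiff ℝ 2 u)
    (e : EuclideanSpace ℝ (Fin n)) : Continuous (fun z => iteratedFDeriv ℝ 2 u z ![e, e]) := by
  have h1 : ContDiff ℝ 1 (fderiv ℝ u) := hu.fderiv_right (m := 1) (by norm_num)
  have h2 : Continuous (fderiv ℝ (fderiv ℝ u)) := h1.continuous_fderiv (by simp)
  simp_rw [iteratedFDeriv_two_apply]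
  exact (h2.clm_apply continuous_const).clm_apply continuous_const

theorem cont_d1 {u : EuclideanSpace ℝ (Fin n) → ℝ} (hu : ContDiff ℝ 2 u)
    (e : EuclideanSpace ℝ (Fin n)) : Continuous (fun z => fderiv ℝ u z e) :=
  (hu.continuous_fderiv (by simp)).clm_apply continuous_const

/-- segment average of `log v` -/
noncomputable def Lam (v : ℝ → EuclideanSpace ℝ (Fin n) → ℝ) (a : EuclideanSpace ℝ (Fin n))
    (τ : ℝ) (x : EuclideanSpace ℝ (Fin n)) : ℝ :=
  ∫ y in Icc (0:ℝ) 1, Real.log (v τ (x + y • a))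

theorem Lam_cont (hv : Ent f v) (hpos : ∀ t x, 0 < v t x) (a : EuclideanSpace ℝ (Fin n)) :
    Continuous (fun p : ℝ × EuclideanSpace ℝ (Fin n) => Lam v a p.1 p.2) := by
  unfold Lam
  apply continuous_parametric_integral_of_continuous _ isCompact_Icc
  apply Continuous.log
  · exact hv.cont.comp (f := fun q : (ℝ × EuclideanSpace ℝ (Fin n)) × ℝ =>
      (q.1.1, q.1.2 + q.2 • a)) (by fun_prop)
  · intro q
    exact (hpos _ _).ne'

theorem Lam_time (hv : Ent f v) (hpos : ∀ t x, 0 < v t x) (a : EuclideanSpace ℝ (Fin n))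
    (τ : ℝ) (x : EuclideanSpace ℝ (Fin n)) :
    HasDerivAt (fun s => Lam v a s x)
      (∫ y in Icc (0:ℝ) 1, deriv (fun s => v s (x + y • a)) τ / v τ (x + y • a)) τ := by
  unfold Lam
  have hvc : Continuous (fun p : ℝ × ℝ => v p.1 (x + p.2 • a)) :=
    hv.cont.comp (f := fun p : ℝ × ℝ => (p.1, x + p.2 • a)) (by fun_prop)
  have hdc : Continuous (fun p : ℝ × ℝ => deriv (fun s => v s (x + p.2 • a)) p.1) :=
    hv.dcont.comp (f := fun p : ℝ × ℝ => (p.1, x + p.2 • a)) (by fun_prop)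
  refine hasDerivAt_integral_compact (ν := volume) isCompact_Icc measurableSet_Icc
    (F := fun s y => Real.log (v s (x + y • a)))
    (F' := fun s y => deriv (fun s => v s (x + y • a)) s / v s (x + y • a)) one_pos ?_ ?_ ?_
  · intro s _ y _
    exact (hv.diff s (x + y • a)).hasDerivAt.log (hpos _ _).ne'
  · intro s _
    apply Continuous.continuousOn
    apply Continuous.log _ (fun y => (hpos _ _).ne')
    exact (hv.continuous_t s).comp (by fun_prop)
  · apply Continuous.continuousOn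
    exact hdc.div hvc (fun p => (hpos _ _).ne')

theorem Lam_space (hv : Ent f v) (hpos : ∀ t x, 0 < v t x) (a e : EuclideanSpace ℝ (Fin n))
    (τ : ℝ) (x : EuclideanSpace ℝ (Fin n)) :
    HasD2 (fun s => Lam v a τ (x + s • e))
      (fun s => ∫ y in Icc (0:ℝ) 1, fderiv ℝ (v τ) (x + s • e + y • a) e /
        v τ (x + s • e + y • a))
      (∫ y in Icc (0:ℝ) 1, (iteratedFDeriv ℝ 2 (v τ) (x + y • a) ![e, e] / v τ (x + y • a) -
        (fderiv ℝ (v τ) (x + y • a) e / v τ (x + y • a)) ^ 2)) := by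
  have hu := hv.smooth τ
  have hvc : Continuous (fun p : ℝ × ℝ => v τ (x + p.1 • e + p.2 • a)) :=
    (hv.continuous_t τ).comp (by fun_prop)
  have hd1 : Continuous (fun p : ℝ × ℝ => fderiv ℝ (v τ) (x + p.1 • e + p.2 • a) e) :=
    (cont_d1 hu e).comp (by fun_prop)
  have hd2 : Continuous (fun p : ℝ × ℝ =>
      iteratedFDeriv ℝ 2 (v τ) (x + p.1 • e + p.2 • a) ![e, e]) :=
    (cont_d2 hu e).comp (by fun_prop)
  have hder1 : ∀ s y : ℝ, HasDerivAt (fun s => v τ (x + s • e + y • a))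
      (fderiv ℝ (v τ) (x + s • e + y • a) e) s := by
    intro s y
    have h1 := (line2 hu (x + y • a) e s).1
    have h2 : ∀ s : ℝ, x + y • a + s • e = x + s • e + y • a := fun s => by abel
    simp_rw [h2] at h1
    exact h1
  have hder2 : ∀ s y : ℝ, HasDerivAt (fun s => fderiv ℝ (v τ) (x + s • e + y • a) e)
      (iteratedFDeriv ℝ 2 (v τ) (x + s • e + y • a) ![e, e]) s := by
    intro s y
    have h1 := (line2 hu (x + y • a) e s).2
    have h2 : ∀ s : ℝ, x + y • a + s • e = x + s • e + y • a := fun s => by abel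
    simp_rw [h2] at h1
    exact h1
  refine ⟨Eventually.of_forall fun s0 => ?_, ?_⟩
  · unfold Lam
    refine hasDerivAt_integral_compact (ν := volume) isCompact_Icc measurableSet_Icc
      (F := fun s y => Real.log (v τ (x + s • e + y • a)))
      (F' := fun s y => fderiv ℝ (v τ) (x + s • e + y • a) e / v τ (x + s • e + y • a))
      one_pos ?_ ?_ ?_
    · intro s _ y _
      exact (hder1 s y).log (hpos _ _).ne'
    · intro s _
      apply Continuous.continuousOn
      apply Continuous.log _ (fun y => (hpos _ _).ne')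
      exact (hv.continuous_t τ).comp (by fun_prop)
    · apply Continuous.continuousOn
      exact hd1.div hvc (fun p => (hpos _ _).ne')
  · have h1 := hasDerivAt_integral_compact (ν := (volume : Measure ℝ)) (K := Icc (0:ℝ) 1)
      isCompact_Icc measurableSet_Icc (s0 := 0) (F := fun s y => fderiv ℝ (v τ) (x + s • e + y • a) e / v τ (x + s • e + y • a))
      (F' := fun s y => iteratedFDeriv ℝ 2 (v τ) (x + s • e + y • a) ![e, e] /
        v τ (x + s • e + y • a) -
        (fderiv ℝ (v τ) (x + s • e + y • a) e / v τ (x + s • e + y • a)) ^ 2)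
      one_pos ?_ ?_ ?_
    · simpa using h1
    · intro s _ y _
      have hp := (hpos τ (x + s • e + y • a)).ne'
      refine ((hder2 s y).div (hder1 s y) hp).congr_deriv ?_
      field_simp
    · intro s _
      apply Continuous.continuousOn
      apply Continuous.div _ _ (fun y => (hpos _ _).ne')
      · exact (cont_d1 hu e).comp (by fun_prop)
      · exact (hv.continuous_t τ).comp (by fun_prop)
    · apply Continuous.continuousOn
      exact (hd2.div hvc (fun p => (hpos _ _).ne')).sub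
        ((hd1.div hvc (fun p => (hpos _ _).ne')).pow 2)

theorem icc_integral (g : ℝ → ℝ) : ∫ y in Icc (0:ℝ) 1, g y = ∫ y in (0:ℝ)..1, g y := by
  rw [intervalIntegral.integral_of_le zero_le_one, integral_Icc_eq_integral_Ioc]

theorem sq_icc_le {g : ℝ → ℝ} (hg : Continuous g) :
    (∫ y in Icc (0:ℝ) 1, g y) ^ 2 ≤ ∫ y in Icc (0:ℝ) 1, g y ^ 2 := by
  rw [icc_integral, icc_integral]
  exact sq_integral_le hg.continuousOn

/-- the key pointwise inequality -/
theorem Lam_ineq (hv : Ent f v) (hpos : ∀ t x, 0 < v t x) {a : EuclideanSpace ℝ (Fin n)}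
    (ha : a ≠ 0) {b τ : ℝ} {x : EuclideanSpace ℝ (Fin n)}
    (hb : ∀ y ∈ Icc (0:ℝ) 1, b * v τ (x + y • a) ≤ f (v τ (x + y • a))) :
    b / 2 + (Real.log (v τ (x + a)) - Real.log (v τ x)) ^ 2 / (4 * ‖a‖ ^ 2) ≤
    (∫ y in Icc (0:ℝ) 1, deriv (fun s => v s (x + y • a)) τ / v τ (x + y • a)) / 2 -
      ∑ k, ((∫ y in Icc (0:ℝ) 1, (iteratedFDeriv ℝ 2 (v τ) (x + y • a)
        ![EuclideanSpace.basisFun (Fin n) ℝ k, EuclideanSpace.basisFun (Fin n) ℝ k] /
          v τ (x + y • a) -
        (fderiv ℝ (v τ) (x + y • a) (EuclideanSpace.basisFun (Fin n) ℝ k) /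
          v τ (x + y • a)) ^ 2)) / 2 +
        (∫ y in Icc (0:ℝ) 1, fderiv ℝ (v τ) (x + y • a) (EuclideanSpace.basisFun (Fin n) ℝ k) /
          v τ (x + y • a)) ^ 2 / 4) := by
  have hu := hv.smooth τ
  obtain ⟨w, hw⟩ : ∃ w : ℝ → ℝ, ∀ y, w y = v τ (x + y • a) := ⟨_, fun _ => rfl⟩
  obtain ⟨g1, hg1⟩ : ∃ g1 : Fin n → ℝ → ℝ, ∀ k y, g1 k y =
    fderiv ℝ (v τ) (x + y • a) (EuclideanSpace.basisFun (Fin n) ℝ k) := ⟨_, fun _ _ => rfl⟩
  obtain ⟨g2, hg2⟩ : ∃ g2 : Fin n → ℝ → ℝ, ∀ k y, g2 k y = iteratedFDeriv ℝ 2 (v τ) (x + y • a)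
        ![EuclideanSpace.basisFun (Fin n) ℝ k, EuclideanSpace.basisFun (Fin n) ℝ k] :=
    ⟨_, fun _ _ => rfl⟩
  obtain ⟨g3, hg3⟩ : ∃ g3 : ℝ → ℝ, ∀ y, g3 y = deriv (fun s => v s (x + y • a)) τ :=
    ⟨_, fun _ => rfl⟩
  have hwc : Continuous w := by
    have : w = fun y => v τ (x + y • a) := funext hw
    rw [this]
    exact (hv.continuous_t τ).comp (by fun_prop)
  have hwp : ∀ y, 0 < w y := fun y => by rw [hw]; exact hpos _ _
  have hg1c : ∀ k, Continuous (g1 k) := fun k => by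
    have : g1 k = fun y => fderiv ℝ (v τ) (x + y • a) (EuclideanSpace.basisFun (Fin n) ℝ k) :=
      funext (hg1 k)
    rw [this]
    exact (cont_d1 hu _).comp (by fun_prop)
  have hg2c : ∀ k, Continuous (g2 k) := fun k => by
    have : g2 k = fun y => iteratedFDeriv ℝ 2 (v τ) (x + y • a)
        ![EuclideanSpace.basisFun (Fin n) ℝ k, EuclideanSpace.basisFun (Fin n) ℝ k] :=
      funext (hg2 k)
    rw [this]
    exact (cont_d2 hu _).comp (by fun_prop)
  have hg3c : Continuous g3 := by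
    have : g3 = fun y => deriv (fun s => v s (x + y • a)) τ := funext hg3
    rw [this]
    exact hv.dcont.comp (f := fun y : ℝ => (τ, x + y • a)) (by fun_prop)
  simp_rw [← hw, ← hg1, ← hg2, ← hg3]
  simp_rw [← hw] at hb
  have hint : ∀ {g : ℝ → ℝ}, Continuous g → IntegrableOn g (Icc 0 1) := fun hg =>
    hg.continuousOn.integrableOn_compact isCompact_Icc
  -- pointwise identity
  have hpt : ∀ y ∈ Icc (0:ℝ) 1, b + ∑ k, (g1 k y / w y) ^ 2 ≤ g3 y / w y -
      ∑ k, (g2 k y / w y - (g1 k y / w y) ^ 2) := by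
    intro y hy
    have h1 : g3 y = ∑ k, g2 k y + f (w y) := by
      rw [hg3, hv.pde, laplacian_eq_sum _ _ (EuclideanSpace.basisFun (Fin n) ℝ), hw]
      congr 1
      exact Finset.sum_congr rfl fun k _ => (hg2 k y).symm
    have h2 : b ≤ f (w y) / w y := by
      rw [le_div_iff₀ (hwp y)]; exact hb y hy
    rw [h1, Finset.sum_sub_distrib, ← Finset.sum_div, add_div]
    linarith
  have hI1 : ∫ y in Icc (0:ℝ) 1, (b + ∑ k, (g1 k y / w y) ^ 2) ≤
      ∫ y in Icc (0:ℝ) 1, (g3 y / w y - ∑ k, (g2 k y / w y - (g1 k y / w y) ^ 2)) := by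
    apply setIntegral_mono_on _ _ measurableSet_Icc hpt
    · apply hint
      exact continuous_const.add (continuous_finsetSum _ fun k _ =>
        ((hg1c k).div hwc (fun y => (hwp y).ne')).pow 2)
    · apply hint
      exact (hg3c.div hwc (fun y => (hwp y).ne')).sub (continuous_finsetSum _ fun k _ =>
        ((hg2c k).div hwc (fun y => (hwp y).ne')).sub
        (((hg1c k).div hwc (fun y => (hwp y).ne')).pow 2))
  have hc1 : ∀ k, Continuous (fun y => g1 k y / w y) := fun k =>
    (hg1c k).div hwc (fun y => (hwp y).ne')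
  have hc2 : ∀ k, Continuous (fun y => g2 k y / w y - (g1 k y / w y) ^ 2) := fun k =>
    ((hg2c k).div hwc (fun y => (hwp y).ne')).sub ((hc1 k).pow 2)
  have hcsq : ∀ k, Continuous (fun y => (g1 k y / w y) ^ 2) := fun k => (hc1 k).pow 2
  have hc3 : Continuous (fun y => g3 y / w y) := hg3c.div hwc (fun y => (hwp y).ne')
  have hI2 : ∫ y in Icc (0:ℝ) 1, (b + ∑ k, (g1 k y / w y) ^ 2) =
      b + ∑ k, ∫ y in Icc (0:ℝ) 1, (g1 k y / w y) ^ 2 := by
    rw [integral_add (hint continuous_const) (hint (continuous_finsetSum _ fun k _ =>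
        hcsq k)), integral_finsetSum _ (fun k _ => hint (hcsq k))]
    simp
  have hI3 : ∫ y in Icc (0:ℝ) 1, (g3 y / w y - ∑ k, (g2 k y / w y - (g1 k y / w y) ^ 2)) =
      (∫ y in Icc (0:ℝ) 1, g3 y / w y) -
      ∑ k, ∫ y in Icc (0:ℝ) 1, (g2 k y / w y - (g1 k y / w y) ^ 2) := by
    rw [integral_sub (hint hc3) (hint (continuous_finsetSum _ fun k _ => hc2 k)),
      integral_finsetSum _ (fun k _ => hint (hc2 k))]
  rw [hI2, hI3] at hI1
  obtain ⟨c, hc⟩ : ∃ c : Fin n → ℝ, ∀ k, c k = ∫ y in Icc (0:ℝ) 1, g1 k y / w y :=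
    ⟨_, fun _ => rfl⟩
  have hsq : ∑ k, c k ^ 2 ≤ ∑ k, ∫ y in Icc (0:ℝ) 1, (g1 k y / w y) ^ 2 := by
    apply Finset.sum_le_sum
    intro k _
    rw [hc]
    exact sq_icc_le (hc1 k)
  -- fundamental theorem of calculus
  have hftc : ∑ k, a k * c k = Real.log (v τ (x + a)) - Real.log (v τ x) := by
    have h1 : ∀ y : ℝ, HasDerivAt (fun y => Real.log (w y)) (∑ k, a k * (g1 k y / w y)) y := by
      intro y
      have h2 := (line2 hu x a y).1
      have h3 := h2.log (hpos _ _).ne'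
      have h4 : (fun y => Real.log (w y)) = fun r => Real.log (v τ (x + r • a)) := by
        funext r; rw [hw]
      rw [h4]
      refine h3.congr_deriv ?_
      rw [fderiv_apply_sum, Finset.sum_div]
      apply Finset.sum_congr rfl
      intro k _
      rw [hg1, hw]; ring
    have h5 : ∫ y in (0:ℝ)..1, (∑ k, a k * (g1 k y / w y)) = Real.log (w 1) - Real.log (w 0) := by
      apply intervalIntegral.integral_eq_sub_of_hasDerivAt (fun y _ => h1 y)
      apply Continuous.intervalIntegrable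
      exact continuous_finsetSum _ fun k _ => (hc1 k).const_mul (a k)
    rw [← icc_integral, integral_finsetSum _ (fun k _ => hint ((hc1 k).const_mul (a k))), hw, hw]
      at h5
    simp only [one_smul, zero_smul, add_zero] at h5
    rw [← h5]
    apply Finset.sum_congr rfl
    intro k _
    rw [hc, integral_const_mul]
  have hCS : (∑ k, a k * c k) ^ 2 ≤ ‖a‖ ^ 2 * ∑ k, c k ^ 2 := by
    rw [norm_sq_eq]
    exact Finset.sum_mul_sq_le_sq_mul_sq _ _ _
  have hna : 0 < ‖a‖ ^ 2 := by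
    have := norm_pos_iff.2 ha
    positivity
  have hCS2 : (Real.log (v τ (x + a)) - Real.log (v τ x)) ^ 2 / (4 * ‖a‖ ^ 2) ≤
      (∑ k, c k ^ 2) / 4 := by
    rw [hftc] at hCS
    rw [div_le_div_iff₀ (by positivity) (by norm_num)]
    nlinarith
  simp_rw [← hc]
  rw [Finset.sum_add_distrib, ← Finset.sum_div, ← Finset.sum_div]
  linarith

end Run7.h350.KP
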