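import Pool.Agent.Run7.h350.KP10

/-!
Comparison of translates.
-/

open Set Filter Topology MeasureTheory
open scoped ContDiff Laplacian

namespace Run7.h350

theorem HasD2.exp {g g1 : ℝ → ℝ} {g2 : ℝ} (H : HasD2 g g1 g2) :
    HasD2 (fun s => Real.exp (g s)) (fun s => Real.exp (g s) * g1 s)
      (Real.exp (g 0) * (g2 + g1 0 ^ 2)) := by
  refine ⟨?_, ?_⟩
  · filter_upwards [H.1] with s a
    exact a.exp
  · exact (H.self.exp.mul H.2).congr_deriv (by ring)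

end Run7.h350

namespace Run7.h350.KP

open Run7.h350

variable {n : ℕ} {f : ℝ → ℝ} {μ L : ℝ} {v : ℝ → EuclideanSpace ℝ (Fin n) → ℝ}

/-- `u` is differentiable at `(τ, x)` in the parabolic sense and `u_t - Δ u = l` there -/
def PD (u : ℝ → EuclideanSpace ℝ (Fin n) → ℝ) (τ : ℝ) (x : EuclideanSpace ℝ (Fin n))
    (l : ℝ) : Prop :=
  ∃ (Ut : ℝ) (g1 : Fin n → ℝ → ℝ) (g2 : Fin n → ℝ), HasDerivAt (fun s => u s x) Ut τ ∧
    (∀ k, HasD2 (fun s => u τ (x + s • EuclideanSpace.basisFun (Fin n) ℝ k)) (g1 k) (g2 k)) ∧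
    Ut - ∑ k, g2 k = l

theorem PD.sub {u w : ℝ → EuclideanSpace ℝ (Fin n) → ℝ} {τ : ℝ} {x : EuclideanSpace ℝ (Fin n)}
    {l m : ℝ} (hu : PD u τ x l) (hw : PD w τ x m) :
    PD (fun t x => u t x - w t x) τ x (l - m) := by
  obtain ⟨Ut, g1, g2, h1, h2, h3⟩ := hu
  obtain ⟨Wt, k1, k2, h4, h5, h6⟩ := hw
  refine ⟨_, _, _, h1.fun_sub h4, fun k => (h2 k).sub (h5 k), ?_⟩
  rw [Finset.sum_sub_distrib]
  linarith

theorem cmpPD {a b L M : ℝ} {Z : ℝ → EuclideanSpace ℝ (Fin n) → ℝ}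
    (hZ : Continuous (fun p : ℝ × EuclideanSpace ℝ (Fin n) => Z p.1 p.2))
    (hM : ∀ t ∈ Icc a b, ∀ x, Z t x ≤ M) (h0 : ∀ x, Z a x ≤ 0)
    (hin : ∀ t ∈ Ioc a b, ∀ x, 0 < Z t x → ∃ l, PD Z t x l ∧ l ≤ L * Z t x) :
    ∀ t ∈ Icc a b, ∀ x, Z t x ≤ 0 := by
  refine cmpB (L := L) hZ.continuousOn hM h0 (fun t ht x hx => ?_)
  obtain ⟨l, ⟨Ut, g1, g2, h1, h2, h3⟩, hl⟩ := hin t ht x hx
  exact ⟨Ut, g1, g2, h1, h2, by rw [h3]; exact hl⟩

theorem Ent.pd (hv : Ent f v) (τ : ℝ) (x : EuclideanSpace ℝ (Fin n)) : PD v τ x (f (v τ x)) := by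
  refine ⟨_, _, _, (hv.diff τ x).hasDerivAt, fun k => hasD2_line (hv.smooth τ).contDiffAt _, ?_⟩
  rw [← laplacian_eq_sum, hv.pde]
  ring

theorem pd_ES (F : Finset (EuclideanSpace ℝ (Fin n))) (A b : EuclideanSpace ℝ (Fin n) → ℝ)
    (τ : ℝ) (x : EuclideanSpace ℝ (Fin n)) :
    PD (ES F A b) τ x (∑ ξ ∈ F, (b ξ - ‖ξ‖ ^ 2) * (A ξ * Real.exp (inner ℝ ξ x + b ξ * τ))) := by
  refine ⟨_, _, _, ES_time τ x, fun k => ES_space τ x _, ?_⟩
  rw [ES_lap, ← Finset.sum_sub_distrib]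
  exact Finset.sum_congr rfl fun ξ _ => by ring

/-- the supersolution -/
noncomputable def PP (v : ℝ → EuclideanSpace ℝ (Fin n) → ℝ) (a : EuclideanSpace ℝ (Fin n))
    (c0 c1 τ : ℝ) (x : EuclideanSpace ℝ (Fin n)) : ℝ :=
  Real.exp (Lam v a τ x / 2 + (c0 + c1 * τ))

theorem PP_cont (hv : Ent f v) (hpos : ∀ t x, 0 < v t x) (a : EuclideanSpace ℝ (Fin n))
    (c0 c1 : ℝ) : Continuous (fun p : ℝ × EuclideanSpace ℝ (Fin n) => PP v a c0 c1 p.1 p.2) := by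
  unfold PP
  have h1 := Lam_cont hv hpos a
  have h2 : Continuous (fun p : ℝ × EuclideanSpace ℝ (Fin n) => c0 + c1 * p.1) := by fun_prop
  exact ((h1.div_const 2).add h2).rexp

theorem PP_pd (hv : Ent f v) (hpos : ∀ t x, 0 < v t x) {a : EuclideanSpace ℝ (Fin n)}
    (ha : a ≠ 0) {b c0 c1 τ : ℝ} {x : EuclideanSpace ℝ (Fin n)}
    (hb : ∀ y ∈ Icc (0:ℝ) 1, b * v τ (x + y • a) ≤ f (v τ (x + y • a))) :
    ∃ l, PD (PP v a c0 c1) τ x l ∧ PP v a c0 c1 τ x * (c1 + b / 2 +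
      (Real.log (v τ (x + a)) - Real.log (v τ x)) ^ 2 / (4 * ‖a‖ ^ 2)) ≤ l := by
  have h1 : HasDerivAt (fun s => PP v a c0 c1 s x) (PP v a c0 c1 τ x *
      ((∫ y in Icc (0:ℝ) 1, deriv (fun s => v s (x + y • a)) τ / v τ (x + y • a)) / 2 + c1)) τ := by
    have h2 := (Lam_time hv hpos a τ x).div_const 2
    have h3 : HasDerivAt (fun s : ℝ => c0 + c1 * s) c1 τ := by
      simpa using ((hasDerivAt_id τ).const_mul c1).const_add c0
    exact (h2.fun_add h3).exp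
  have h2 : ∀ k : Fin n, ∃ g1, HasD2
      (fun s => PP v a c0 c1 τ (x + s • EuclideanSpace.basisFun (Fin n) ℝ k)) g1
      (PP v a c0 c1 τ x * ((∫ y in Icc (0:ℝ) 1, (iteratedFDeriv ℝ 2 (v τ) (x + y • a)
        ![EuclideanSpace.basisFun (Fin n) ℝ k, EuclideanSpace.basisFun (Fin n) ℝ k] /
          v τ (x + y • a) -
        (fderiv ℝ (v τ) (x + y • a) (EuclideanSpace.basisFun (Fin n) ℝ k) /
          v τ (x + y • a)) ^ 2)) / 2 +
        (∫ y in Icc (0:ℝ) 1, fderiv ℝ (v τ) (x + y • a) (EuclideanSpace.basisFun (Fin n) ℝ k) /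
          v τ (x + y • a)) ^ 2 / 4)) := by
    intro k
    have h3 := (Lam_space hv hpos a (EuclideanSpace.basisFun (Fin n) ℝ k) τ x).const_mul (1 / 2)
    have h4 := (h3.add (HasD2.const (c0 + c1 * τ))).exp
    have h5 := h4.congr (h := fun s => PP v a c0 c1 τ (x + s • EuclideanSpace.basisFun (Fin n) ℝ k))
      (Eventually.of_forall fun s => by
        simp only [PP]
        congr 1
        ring)
    refine ⟨_, h5.1, h5.2.congr_deriv ?_⟩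
    simp only [zero_smul, add_zero]
    unfold PP
    congr 1
    · congr 1
      ring
    · ring
  choose g1 hg1 using h2
  have h3 := Lam_ineq hv hpos ha hb
  have hP : 0 < PP v a c0 c1 τ x := Real.exp_pos _
  refine ⟨_, ⟨_, _, _, h1, hg1, rfl⟩, ?_⟩
  rw [← Finset.mul_sum, ← mul_sub]
  apply mul_le_mul_of_nonneg_left _ hP.le
  linarith

/-- the comparison -/
theorem DQ (hv : Ent f v) (hpos : ∀ t x, 0 < v t x) {a : EuclideanSpace ℝ (Fin n)}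
    (ha : a ≠ 0) {h η γ c0 B s S : ℝ} {F : Finset (EuclideanSpace ℝ (Fin n))}
    (hB : ∀ ξ ∈ F, μ + η + ‖ξ‖ ^ 2 ≤ B) (hηγ : 3 * η / 2 ≤ γ)
    (hviol : ∀ τ ∈ Ioc (-s) (-S), ∀ x, ES F (fun _ => 1) (fun _ => B) τ x < v τ (x + a) →
      v (τ + h) x < v τ (x + a) →
      (∀ y ∈ Icc (0:ℝ) 1, (μ - η) * v τ (x + y • a) ≤ f (v τ (x + y • a))) ∧
      f (v τ (x + a)) - f (v (τ + h) x) ≤ (μ + η) * (v τ (x + a) - v (τ + h) x) ∧
      2 * γ ≤ (Real.log (v τ (x + a)) - Real.log (v τ x)) ^ 2 / (4 * ‖a‖ ^ 2))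
    (hinit : ∀ x, v (-s) (x + a) - v (-s + h) x ≤ PP v a c0 (μ / 2 - γ) (-s) x +
      ES F (fun _ => 1) (fun _ => B) (-s) x) :
    ∀ τ ∈ Icc (-s) (-S), ∀ x, v τ (x + a) - v (τ + h) x ≤ PP v a c0 (μ / 2 - γ) τ x +
      ES F (fun _ => 1) (fun _ => B) τ x := by
  obtain ⟨E2, hE2⟩ : ∃ E2 : ℝ → EuclideanSpace ℝ (Fin n) → ℝ,
    E2 = ES F (fun _ => 1) (fun _ => B) := ⟨_, rfl⟩
  have hEc : Continuous (fun p : ℝ × EuclideanSpace ℝ (Fin n) => E2 p.1 p.2) := by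
    rw [hE2]; exact ES_cont
  have hE0 : ∀ s y, 0 ≤ E2 s y := fun s y => by
    rw [hE2]; exact ES_nonneg (fun _ _ => zero_le_one) s y
  have hEpd : ∀ s y, ∃ l, PD E2 s y l ∧ (μ + η) * E2 s y ≤ l := by
    intro s y
    rw [hE2]
    refine ⟨_, pd_ES F _ _ s y, ?_⟩
    unfold ES
    rw [Finset.mul_sum]
    apply Finset.sum_le_sum
    intro ξ hξ
    apply mul_le_mul_of_nonneg_right _ (by positivity)
    linarith [hB ξ hξ]
  rw [← hE2] at hviol hinit ⊢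
  have hP0 : ∀ τ x, 0 < PP v a c0 (μ / 2 - γ) τ x := fun τ x => Real.exp_pos _
  have hVc := (hv.translate 0 a).cont
  have hHc := (hv.translate h 0).cont
  simp only [add_zero] at hVc hHc
  have hcmp := cmpPD (a := -s) (b := -S) (L := μ + η) (M := 1)
    (Z := fun τ x => v τ (x + a) - v (τ + h) x - PP v a c0 (μ / 2 - γ) τ x - E2 τ x)
    (((hVc.sub hHc).sub (PP_cont hv hpos a c0 _)).sub hEc) (fun τ _ x => by
      linarith [(hv.mem τ (x + a)).2, (hv.mem (τ + h) x).1, hP0 τ x, hE0 τ x])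
    (fun x => by linarith [hinit x]) ?_
  · intro τ hτ x
    linarith [hcmp τ hτ x]
  · intro τ hτ x hZ
    obtain ⟨h1, h2, h3⟩ := hviol τ hτ x (by linarith [(hv.mem (τ + h) x).1, hP0 τ x])
      (by linarith [hP0 τ x, hE0 τ x])
    obtain ⟨l1, hl1, hl1'⟩ := PP_pd hv hpos ha (c0 := c0) (c1 := μ / 2 - γ) h1
    obtain ⟨l2, hl2, hl2'⟩ := hEpd τ x
    have hV := (hv.translate 0 a).pd τ x
    have hH := (hv.translate h 0).pd τ x
    simp only [add_zero] at hV hH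
    refine ⟨_, ((hV.sub hH).sub hl1).sub hl2, ?_⟩
    have h4 : PP v a c0 (μ / 2 - γ) τ x * (μ + η) ≤ PP v a c0 (μ / 2 - γ) τ x *
        (μ / 2 - γ + (μ - η) / 2 +
          (Real.log (v τ (x + a)) - Real.log (v τ x)) ^ 2 / (4 * ‖a‖ ^ 2)) :=
      mul_le_mul_of_nonneg_left (by linarith) (hP0 τ x).le
    linarith

end Run7.h350.KP
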