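import Pool.Agent.Run7.h350.KP11

/-!
In the complementary case the solution is constant in space.
-/

open Set Filter Topology MeasureTheory
open scoped ContDiff Laplacian

namespace Run7.h350.KP

open Run7.h350

variable {n : ℕ} {f : ℝ → ℝ} {μ L : ℝ} {v : ℝ → EuclideanSpace ℝ (Fin n) → ℝ}

theorem Lam_le_zero (hv : Ent f v) (hpos : ∀ t x, 0 < v t x) (a : EuclideanSpace ℝ (Fin n))
    (τ : ℝ) (x : EuclideanSpace ℝ (Fin n)) : Lam v a τ x ≤ 0 := by
  unfold Lam
  apply integral_nonpos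
  intro y
  exact Real.log_nonpos (hpos _ _).le (hv.mem _ _).2

theorem Lam_ge (hf : KF f μ L) (hv : Ent f v) (hpos : ∀ t x, 0 < v t x)
    (a : EuclideanSpace ℝ (Fin n)) {p : ℝ} (hp : 1 < p) (τ : ℝ) (x : EuclideanSpace ℝ (Fin n)) :
    p * Real.log (v τ (x + a)) - (p * ‖a‖ ^ 2 / (4 * (p - 1)) + p * μ) ≤ Lam v a τ x := by
  have h0 : ∀ y ∈ Icc (0:ℝ) 1, p * Real.log (v τ (x + a)) -
      (p * ‖a‖ ^ 2 / (4 * (p - 1)) + p * μ) ≤ Real.log (v τ (x + y • a)) := by
    intro y hy
    have h1 := hv.PH hf hp τ (x + y • a) ((1 - y) • a)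
    have h2 : x + y • a + (1 - y) • a = x + a := by
      rw [sub_smul, one_smul]; abel
    rw [h2] at h1
    have h3 := Real.log_le_log (Real.rpow_pos_of_pos (hpos _ _) p) h1
    rw [Real.log_rpow (hpos _ _), Real.log_mul (Real.exp_pos _).ne' (hpos _ _).ne',
      Real.log_exp] at h3
    have h4 : p * ‖(1 - y) • a‖ ^ 2 / (4 * (p - 1)) ≤ p * ‖a‖ ^ 2 / (4 * (p - 1)) := by
      apply div_le_div_of_nonneg_right _ (by linarith)
      apply mul_le_mul_of_nonneg_left _ (by linarith)
      apply pow_le_pow_left₀ (norm_nonneg _)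
      rw [norm_smul, Real.norm_eq_abs, abs_of_nonneg (by linarith [hy.2])]
      have := norm_nonneg a
      nlinarith [hy.1]
    linarith
  have h1 : ∫ _y in Icc (0:ℝ) 1, (p * Real.log (v τ (x + a)) -
      (p * ‖a‖ ^ 2 / (4 * (p - 1)) + p * μ)) ≤ Lam v a τ x := by
    unfold Lam
    apply setIntegral_mono_on _ _ measurableSet_Icc h0
    · exact continuous_const.continuousOn.integrableOn_compact isCompact_Icc
    · have hc : Continuous (fun y : ℝ => Real.log (v τ (x + y • a))) := by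
        apply Continuous.log _ (fun y => (hpos _ _).ne')
        exact (hv.continuous_t τ).comp (by fun_prop)
      exact hc.continuousOn.integrableOn_compact isCompact_Icc
  simpa using h1

/-- translates are comparable up to a tiny barrier at large negative times -/
theorem DE (hf : KF f μ L) (hv : Ent f v) (hpos : ∀ t x, 0 < v t x)
    (hUB : ∀ K > 0, ∀ ε0 > 0, ∃ S, 1 ≤ S ∧ ∀ s ≥ S, ∀ y : EuclideanSpace ℝ (Fin n),
      ‖y‖ ≤ K * s → v (-s) y ≤ Real.exp (-μ * s + ε0 * s))
    {a : EuclideanSpace ℝ (Fin n)} (ha : a ≠ 0) {h : ℝ} (hh : 0 < h)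
    {F : Finset (EuclideanSpace ℝ (Fin n))} (hFR : ∀ ξ ∈ F, ‖ξ‖ ≤ 2)
    (hgr : ∀ x, ∃ ξ ∈ F, 1 * ‖x‖ ≤ inner ℝ ξ x) :
    ∃ B, L + 5 ≤ B ∧ ∃ S, 1 ≤ S ∧ ∀ r ≥ S, ∀ x, v (-r) (x + a) - v (-r + h) x ≤
      ES F (fun _ => 1) (fun _ => B) (-r) x := by
  have hμ := hf.μpos
  have hL := hf.Lpos
  have hna : 0 < ‖a‖ := norm_pos_iff.2 ha
  obtain ⟨γ, hγ⟩ : ∃ γ, γ = (μ * h / 4) ^ 2 / (4 * ‖a‖ ^ 2) / 2 := ⟨_, rfl⟩
  have hγ0 : 0 < γ := by rw [hγ]; positivity
  obtain ⟨η, hη⟩ : ∃ η, η = γ / 2 := ⟨_, rfl⟩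
  have hη0 : 0 < η := by rw [hη]; positivity
  obtain ⟨B, hB⟩ : ∃ B, B = L + μ + η + 5 := ⟨_, rfl⟩
  have hB0 : 0 < B := by rw [hB]; linarith
  obtain ⟨δ1, hδ1, hδ11, hlow⟩ := hf.low (μ - η) (by linarith)
  obtain ⟨δ2, hδ2, hδ21, hup⟩ := hf.up η hη0
  obtain ⟨δ, hδ⟩ : ∃ δ, δ = min δ1 δ2 := ⟨_, rfl⟩
  have hδ0 : 0 < δ := by rw [hδ]; positivity
  obtain ⟨S1, hS1, hU1⟩ := hUB (B + ‖a‖) (by positivity) (μ / 2) (by positivity)
  obtain ⟨S2, hS2, hT⟩ := TM hf hv hUB (h := h) (B := B + 1) (K := B) hh (by linarith) hB0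
  obtain ⟨S3, hS3⟩ : ∃ S3, S3 = -(2 * Real.log δ) / μ := ⟨_, rfl⟩
  obtain ⟨S4, hS4⟩ : ∃ S4, S4 = μ * h / 2 - Real.log (μ * h / 4) := ⟨_, rfl⟩
  obtain ⟨S5, hS5, hU2⟩ := hUB (B + ‖a‖) (by positivity) (γ / 2) (by positivity)
  obtain ⟨p, hp1, hp2, hpB⟩ : ∃ p : ℝ, 1 < p ∧ p ≤ 2 ∧ (p - 1) * B ≤ γ / 2 := by
    refine ⟨1 + min 1 (γ / (2 * B)), ?_, ?_, ?_⟩
    · have : 0 < min 1 (γ / (2 * B)) := by positivity
      linarith
    · linarith [min_le_left 1 (γ / (2 * B))]
    · have h1 := mul_le_mul_of_nonneg_right (min_le_right 1 (γ / (2 * B))) hB0.le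
      have h2 : γ / (2 * B) * B = γ / 2 := by field_simp
      rw [add_sub_cancel_left]
      linarith
  obtain ⟨Cp, hCp⟩ : ∃ Cp, Cp = p * ‖a‖ ^ 2 / (4 * (p - 1)) + p * μ := ⟨_, rfl⟩
  refine ⟨B, by rw [hB]; linarith, max (max S1 S2) (max S3 S4), ?_, ?_⟩
  · exact hS1.trans ((le_max_left _ _).trans (le_max_left _ _))
  intro S hS x
  have hSS1 : S1 ≤ S := ((le_max_left _ _).trans (le_max_left _ _)).trans hS
  have hSS2 : S2 ≤ S := ((le_max_right _ _).trans (le_max_left _ _)).trans hS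
  have hSS3 : S3 ≤ S := ((le_max_left _ _).trans (le_max_right _ _)).trans hS
  have hSS4 : S4 ≤ S := ((le_max_right _ _).trans (le_max_right _ _)).trans hS
  have hS1' : 1 ≤ S := hS1.trans hSS1
  -- size information from the barrier
  have hsize : ∀ τ x, τ ≤ 0 → ES F (fun _ => 1) (fun _ => B) τ x < v τ (x + a) →
      ‖x‖ ≤ B * (-τ) ∧ Real.exp (B * τ) < v τ (x + a) := by
    intro τ x hτ hlt
    obtain ⟨ξ, hξ, hξx⟩ := hgr x
    have h1 := ES_term (b := fun _ : EuclideanSpace ℝ (Fin n) => B) (A := fun _ => 1)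
      (fun _ _ => zero_le_one) hξ τ x
    rw [one_mul] at h1 hξx
    have h2 : Real.exp (inner ℝ ξ x + B * τ) < v τ (x + a) := h1.trans_lt hlt
    constructor
    · have h3 : Real.exp (inner ℝ ξ x + B * τ) < 1 := h2.trans_le (hv.mem _ _).2
      rw [Real.exp_lt_one_iff] at h3
      linarith
    · refine lt_of_le_of_lt (Real.exp_le_exp.2 ?_) h2
      linarith [norm_nonneg x]
  have hmain : ∀ s, max S S5 ≤ s → v (-S) (x + a) - v (-S + h) x ≤
      PP v a (-(γ / 2 * s) + Cp / 2) (μ / 2 - γ) (-S) x +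
      ES F (fun _ => 1) (fun _ => B) (-S) x := by
    intro s hs
    have hsS : S ≤ s := (le_max_left _ _).trans hs
    have hsS5 : S5 ≤ s := (le_max_right _ _).trans hs
    have hs0 : 0 < s := by linarith
    refine DQ hv hpos ha (h := h) (η := η) (γ := γ) (c0 := -(γ / 2 * s) + Cp / 2) (B := B)
      (s := s) (S := S) (F := F) (μ := μ) ?_ ?_ ?_ ?_ (-S) ⟨by linarith, le_rfl⟩ x
    · intro ξ hξ
      have h4 : ‖ξ‖ ^ 2 ≤ 2 ^ 2 := pow_le_pow_left₀ (norm_nonneg _) (hFR ξ hξ) 2
      rw [hB]; linarith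
    · rw [hη]; linarith
    · intro τ hτ x hE hlt
      obtain ⟨r, hr⟩ : ∃ r, r = -τ := ⟨_, rfl⟩
      have hτr : τ = -r := by rw [hr]; ring
      have hrS : S ≤ r := by rw [hr]; linarith [hτ.2]
      have hr1 : 1 ≤ r := by linarith
      have hr0 : 0 < r := by linarith
      obtain ⟨hx1, hx2⟩ := hsize τ x (by linarith) hE
      rw [← hr] at hx1
      rw [hτr] at hx2 hlt ⊢
      have hsmall : ∀ z : EuclideanSpace ℝ (Fin n), ‖z‖ ≤ B * r + ‖a‖ → v (-r) z ≤ δ := by
        intro z hz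
        refine (hU1 r (hSS1.trans hrS) z ?_).trans ?_
        · nlinarith
        · rw [← Real.exp_log hδ0]
          apply Real.exp_le_exp.2
          have h1 : S3 ≤ r := hSS3.trans hrS
          rw [hS3, div_le_iff₀ hμ] at h1
          linarith
      have hsm : ∀ y ∈ Icc (0:ℝ) 1, v (-r) (x + y • a) ≤ δ := by
        intro y hy
        apply hsmall
        refine (norm_add_le _ _).trans ?_
        rw [norm_smul, Real.norm_eq_abs, abs_of_nonneg hy.1]
        nlinarith [hy.2]
      have hVδ : v (-r) (x + a) ≤ δ := by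
        have := hsm 1 ⟨zero_le_one, le_rfl⟩
        simpa using this
      refine ⟨?_, ?_, ?_⟩
      · intro y hy
        exact hlow _ ⟨(hpos _ _).le, (hsm y hy).trans (by rw [hδ]; exact min_le_left _ _)⟩
      · exact hup _ _ (hpos _ _).le hlt.le (hVδ.trans (by rw [hδ]; exact min_le_right _ _))
      · have hTM := hT r (hSS2.trans hrS) x hx1
        -- difference of logarithms
        have hdiff : μ * h / 4 ≤ Real.log (v (-r) (x + a)) - Real.log (v (-r) x) := by
          by_contra hcon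
          push Not at hcon
          obtain ⟨V, hV⟩ : ∃ V, V = v (-r) (x + a) := ⟨_, rfl⟩
          have hV0 : 0 < V := by rw [hV]; exact hpos _ _
          rw [← hV] at hcon hlt hx2
          have h1 : V * Real.exp (-(μ * h / 4)) ≤ v (-r) x := by
            rw [← Real.exp_log hV0, ← Real.exp_add, ← Real.exp_log (hpos (-r) x)]
            apply Real.exp_le_exp.2
            linarith
          have h2 : Real.exp (-(B + 1) * r) ≤ Real.exp (-r) * V := by
            have h3 : Real.exp (-(B + 1) * r) = Real.exp (-r) * Real.exp (B * -r) := by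
              rw [← Real.exp_add]; congr 1; ring
            rw [h3]
            exact mul_le_mul_of_nonneg_left hx2.le (Real.exp_pos _).le
          have h3 : Real.exp (μ * h / 2) * (V * Real.exp (-(μ * h / 4)) - Real.exp (-r) * V) ≤
              v (-r + h) x := by
            refine le_trans ?_ hTM
            apply mul_le_mul_of_nonneg_left _ (Real.exp_pos _).le
            linarith
          have h4 : Real.exp (μ * h / 2) * (V * Real.exp (-(μ * h / 4)) - Real.exp (-r) * V) =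
              V * (Real.exp (μ * h / 4) - Real.exp (μ * h / 2 - r)) := by
            have e1 : Real.exp (μ * h / 4) = Real.exp (μ * h / 2) * Real.exp (-(μ * h / 4)) := by
              rw [← Real.exp_add]; congr 1; ring
            have e2 : Real.exp (μ * h / 2 - r) = Real.exp (μ * h / 2) * Real.exp (-r) := by
              rw [← Real.exp_add]; congr 1
            rw [e1, e2]; ring
          rw [h4] at h3
          have h5 : 1 ≤ Real.exp (μ * h / 4) - Real.exp (μ * h / 2 - r) := by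
            have e1 := Real.add_one_le_exp (μ * h / 4)
            have e2 : Real.exp (μ * h / 2 - r) ≤ μ * h / 4 := by
              rw [← Real.exp_log (show 0 < μ * h / 4 by positivity)]
              apply Real.exp_le_exp.2
              have h6 : S4 ≤ r := hSS4.trans hrS
              rw [hS4] at h6
              linarith
            linarith
          nlinarith
        have h1 : (μ * h / 4) ^ 2 ≤ (Real.log (v (-r) (x + a)) - Real.log (v (-r) x)) ^ 2 :=
          pow_le_pow_left₀ (by positivity) hdiff 2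
        have h2 : 2 * γ = (μ * h / 4) ^ 2 / (4 * ‖a‖ ^ 2) := by rw [hγ]; ring
        rw [h2]
        exact div_le_div_of_nonneg_right h1 (by positivity)
    · intro x
      have hHp := hpos (-s + h) x
      by_cases hE : ES F (fun _ => 1) (fun _ => B) (-s) x < v (-s) (x + a)
      · obtain ⟨hx1, hx2⟩ := hsize (-s) x (by linarith) hE
        rw [neg_neg] at hx1
        have hEn := ES_nonneg (F := F) (A := fun _ => 1) (b := fun _ => B)
          (fun _ _ => zero_le_one) (-s) x
        have hVP : v (-s) (x + a) ≤ PP v a (-(γ / 2 * s) + Cp / 2) (μ / 2 - γ) (-s) x := by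
          unfold PP
          rw [← Real.exp_log (hpos (-s) (x + a))]
          apply Real.exp_le_exp.2
          have h1 := Lam_ge hf hv hpos a hp1 (-s) x
          rw [← hCp] at h1
          obtain ⟨lV, hlV⟩ : ∃ lV, lV = Real.log (v (-s) (x + a)) := ⟨_, rfl⟩
          rw [← hlV] at h1 ⊢
          have h2 : lV ≤ -μ * s + γ / 2 * s := by
            rw [hlV]
            have h3 := hU2 s hsS5 (x + a) (by
              refine (norm_add_le _ _).trans ?_
              nlinarith)
            have h4 := Real.log_le_log (hpos _ _) h3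
            rwa [Real.log_exp] at h4
          have h3 : -lV ≤ B * s := by
            have h4 := Real.log_lt_log (Real.exp_pos _) hx2
            rw [Real.log_exp, ← hlV] at h4
            linarith
          have h5 : (p - 1) * (-lV) ≤ (p - 1) * (B * s) :=
            mul_le_mul_of_nonneg_left h3 (by linarith)
          have h6 : (p - 1) * B * s ≤ γ / 2 * s := mul_le_mul_of_nonneg_right hpB hs0.le
          nlinarith
        linarith
      · push Not at hE
        have : 0 < PP v a (-(γ / 2 * s) + Cp / 2) (μ / 2 - γ) (-s) x := Real.exp_pos _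
        linarith
  -- let `s → ∞`
  apply le_of_forall_pos_le_add
  intro ε hε
  obtain ⟨s, hs⟩ : ∃ s, s = max (max S S5) (2 / γ * (Cp / 2 + γ * S - Real.log ε)) := ⟨_, rfl⟩
  have h1 := hmain s (by rw [hs]; exact le_max_left _ _)
  have h2 : PP v a (-(γ / 2 * s) + Cp / 2) (μ / 2 - γ) (-S) x ≤ ε := by
    unfold PP
    rw [← Real.exp_log hε]
    apply Real.exp_le_exp.2
    have h3 := Lam_le_zero hv hpos a (-S) x
    have h4 : 2 / γ * (Cp / 2 + γ * S - Real.log ε) ≤ s := by rw [hs]; exact le_max_right _ _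
    have h5 : Cp / 2 + γ * S - Real.log ε ≤ γ / 2 * s := by
      have h6 := mul_le_mul_of_nonneg_left h4 (by positivity : 0 ≤ γ / 2)
      have h7 : γ / 2 * (2 / γ * (Cp / 2 + γ * S - Real.log ε)) = Cp / 2 + γ * S - Real.log ε := by
        field_simp
      linarith
    nlinarith
  linarith

/-- comparison of translates at time `0` -/
theorem trans_le (hf : KF f μ L) (hv : Ent f v) (hpos : ∀ t x, 0 < v t x)
    (hUB : ∀ K > 0, ∀ ε0 > 0, ∃ S, 1 ≤ S ∧ ∀ s ≥ S, ∀ y : EuclideanSpace ℝ (Fin n),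
      ‖y‖ ≤ K * s → v (-s) y ≤ Real.exp (-μ * s + ε0 * s))
    {a : EuclideanSpace ℝ (Fin n)} (ha : a ≠ 0) {h : ℝ} (hh : 0 < h)
    (x : EuclideanSpace ℝ (Fin n)) : v 0 (x + a) ≤ v h x := by
  obtain ⟨F, hFR, hF⟩ := exists_net n (R := 2) (κ := 1) (by norm_num) one_pos
  have hgr : ∀ x, ∃ ξ ∈ F, 1 * ‖x‖ ≤ inner ℝ ξ x := by
    intro x
    obtain ⟨ξ, hξ, h⟩ := net_growth (by norm_num) hF x
    exact ⟨ξ, hξ, by linarith⟩
  obtain ⟨B, hB, S0, hS0, hDE⟩ := DE hf hv hpos hUB ha hh hFR hgr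
  obtain ⟨N, hN⟩ : ∃ N, N = ∑ ξ ∈ F, Real.exp (inner ℝ ξ x) := ⟨_, rfl⟩
  have hN0 : 0 ≤ N := by rw [hN]; exact Finset.sum_nonneg fun _ _ => (Real.exp_pos _).le
  have hkey : ∀ S ≥ S0, v 0 (x + a) - v h x ≤ Real.exp (-S) * N := by
    intro S hS
    have hS' : 1 ≤ S := hS0.trans hS
    obtain ⟨c, hc⟩ : ∃ c, c = Real.exp ((L + 4 - B) * S) := ⟨_, rfl⟩
    have hc0 : 0 < c := by rw [hc]; positivity
    obtain ⟨E3, hE3⟩ : ∃ E3 : ℝ → EuclideanSpace ℝ (Fin n) → ℝ,
      E3 = ES F (fun _ => c) (fun _ => L + 4) := ⟨_, rfl⟩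
    have hEc : Continuous (fun p : ℝ × EuclideanSpace ℝ (Fin n) => E3 p.1 p.2) := by
      rw [hE3]; exact ES_cont
    have hE0 : ∀ s y, 0 ≤ E3 s y := fun s y => by
      rw [hE3]; exact ES_nonneg (fun _ _ => hc0.le) s y
    have hEpd : ∀ s y, ∃ l, PD E3 s y l ∧ L * E3 s y ≤ l := by
      intro s y
      rw [hE3]
      refine ⟨_, pd_ES F _ _ s y, ?_⟩
      unfold ES
      rw [Finset.mul_sum]
      apply Finset.sum_le_sum
      intro ξ hξ
      apply mul_le_mul_of_nonneg_right _ (by positivity)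
      have h4 : ‖ξ‖ ^ 2 ≤ 2 ^ 2 := pow_le_pow_left₀ (norm_nonneg _) (hFR ξ hξ) 2
      linarith
    have hVc := (hv.translate 0 a).cont
    have hHc := (hv.translate h 0).cont
    simp only [add_zero] at hVc hHc
    have hcmp := cmpPD (a := -S) (b := 0) (L := L) (M := 1)
      (Z := fun τ x => v τ (x + a) - v (τ + h) x - E3 τ x)
      ((hVc.sub hHc).sub hEc) (fun τ _ x => by
        linarith [(hv.mem τ (x + a)).2, (hv.mem (τ + h) x).1, hE0 τ x])
      (fun x => by
        have h1 := hDE S hS x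
        have h2 : E3 (-S) x = ES F (fun _ => 1) (fun _ => B) (-S) x := by
          rw [hE3]
          unfold ES
          apply Finset.sum_congr rfl
          intro ξ _
          rw [hc, one_mul, ← Real.exp_add]
          congr 1
          ring
        linarith) (fun τ _ x hZ => by
        obtain ⟨l2, hl2, hl2'⟩ := hEpd τ x
        have hV := (hv.translate 0 a).pd τ x
        have hH := (hv.translate h 0).pd τ x
        simp only [add_zero] at hV hH
        refine ⟨_, (hV.sub hH).sub hl2, ?_⟩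
        have h1 := hf.lip _ (hv.mem (τ + h) x) _ (hv.mem τ (x + a)) (by
          linarith [hE0 τ x])
        linarith) 0 ⟨by linarith, le_rfl⟩ x
    rw [zero_add] at hcmp
    have h2 : E3 0 x ≤ Real.exp (-S) * N := by
      rw [hE3, hN]
      unfold ES
      rw [Finset.mul_sum]
      apply Finset.sum_le_sum
      intro ξ _
      rw [mul_zero, add_zero]
      apply mul_le_mul_of_nonneg_right _ (Real.exp_pos _).le
      rw [hc]
      apply Real.exp_le_exp.2
      nlinarith
    linarith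
  have hlim : Tendsto (fun S : ℝ => Real.exp (-S) * N) atTop (𝓝 (0 * N)) :=
    (Real.tendsto_exp_neg_atTop_nhds_zero).mul_const N
  rw [zero_mul] at hlim
  have h1 : v 0 (x + a) - v h x ≤ 0 :=
    ge_of_tendsto hlim ((eventually_ge_atTop S0).mono fun S hS => hkey S hS)
  linarith

/-- spatial constancy -/
theorem const_of_UB (hf : KF f μ L) (hv : Ent f v) (hpos : ∀ t x, 0 < v t x)
    (hUB : ∀ K > 0, ∀ ε0 > 0, ∃ S, 1 ≤ S ∧ ∀ s ≥ S, ∀ y : EuclideanSpace ℝ (Fin n),
      ‖y‖ ≤ K * s → v (-s) y ≤ Real.exp (-μ * s + ε0 * s))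
    (x y : EuclideanSpace ℝ (Fin n)) : v 0 x = v 0 y := by
  have hle : ∀ x a : EuclideanSpace ℝ (Fin n), v 0 (x + a) ≤ v 0 x := by
    intro x a
    by_cases ha : a = 0
    · rw [ha, add_zero]
    · have h1 : ContinuousAt (fun h : ℝ => v h x) 0 := (hv.diff 0 x).continuousAt
      have h2 : Tendsto (fun h : ℝ => v h x) (𝓝[>] 0) (𝓝 (v 0 x)) :=
        h1.tendsto.mono_left nhdsWithin_le_nhds
      apply ge_of_tendsto h2
      filter_upwards [self_mem_nhdsWithin] with h hh
      exact trans_le hf hv hpos hUB ha hh x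
  apply le_antisymm
  · have := hle y (x - y)
    rwa [add_sub_cancel] at this
  · have := hle x (y - x)
    rwa [add_sub_cancel] at this

/-- **Dichotomy**: away from case A the solution is constant in space. -/
theorem const_of_not_caseA (hf : KF f μ L) (hv : Ent f v) {t : ℝ}
    {x0 : EuclideanSpace ℝ (Fin n)} (h0 : 0 < v t x0) (h1 : v t x0 < 1)
    (hB : ¬ CaseA μ v t x0) (x y : EuclideanSpace ℝ (Fin n)) : v t x = v t y := by
  have hv' := hv.translate t x0
  have h0' : 0 < (fun s z => v (s + t) (z + x0)) 0 0 := by simpa using h0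
  have h1' : (fun s z => v (s + t) (z + x0)) 0 0 < 1 := by simpa using h1
  have hB' : ¬ CaseA μ (fun s z => v (s + t) (z + x0)) 0 0 := by
    intro hA
    apply hB
    obtain ⟨δ, hδ, h⟩ := hA
    refine ⟨δ, hδ, fun ε hε S => ?_⟩
    obtain ⟨s, hs, z, hz1, hz2⟩ := h ε hε S
    refine ⟨s, hs, z + x0, by simpa using hz1, ?_⟩
    rw [add_sub_cancel_right]
    rw [sub_zero] at hz2
    have h3 : t - s = -s + t := by ring
    rw [h3]
    simpa using hz2
  have hpos := hv'.pos hf h0'
  have := const_of_UB hf hv' hpos (fun K hK ε0 hε0 => UB0 hf hv' h1' hB' hK hε0) (x - x0) (y - x0)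
  simpa using this

end Run7.h350.KP
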