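import Pool.Agent.Run7.h350.KP12

/-!
One-dimensionality; verification of the abstract hypotheses for Fisher-KPP nonlinearities.
-/

open Set Filter Topology MeasureTheory
open scoped ContDiff Laplacian

namespace Run7.h350.KP

open Run7.h350

variable {n : ℕ} {f : ℝ → ℝ} {μ L : ℝ} {v : ℝ → EuclideanSpace ℝ (Fin n) → ℝ}

theorem midpoint_ge {w : EuclideanSpace ℝ (Fin n) → ℝ} (hq : ∀ l : ℝ, Convex ℝ {x | l < w x})
    {p q : EuclideanSpace ℝ (Fin n)} {m : ℝ} (hp : m ≤ w p) (hq' : m ≤ w q)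
    {z : EuclideanSpace ℝ (Fin n)} (hz : (1 / 2 : ℝ) • p + (1 / 2 : ℝ) • q = z) : m ≤ w z := by
  apply le_of_forall_lt
  intro l hl
  have h1 := hq l (x := p) (show l < w p from hl.trans_le hp) (y := q)
    (show l < w q from hl.trans_le hq') (a := 1 / 2) (b := 1 / 2) (by norm_num) (by norm_num)
    (by norm_num)
  rw [hz] at h1
  exact h1

theorem uniq1 {w : EuclideanSpace ℝ (Fin n) → ℝ} (hq : ∀ l : ℝ, Convex ℝ {x | l < w x})
    {y1 y2 e1 e2 z : EuclideanSpace ℝ (Fin n)} (h12 : w y1 ≤ w y2) (hz : w z < w y1)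
    (he1 : ‖e1‖ = 1) (he2 : ‖e2‖ = 1) (h1 : ∀ x, 0 < inner ℝ (x - y1) e1 → w y1 ≤ w x)
    (h2 : ∀ x, 0 < inner ℝ (x - y2) e2 → w y2 ≤ w x) : e1 = e2 := by
  by_contra hne
  obtain ⟨c, hc⟩ : ∃ c : ℝ, c = inner ℝ e1 e2 := ⟨_, rfl⟩
  have hc1 : c < 1 := by
    have h3 : 0 < ‖e1 - e2‖ ^ 2 := by
      have := norm_pos_iff.2 (sub_ne_zero.2 hne)
      positivity
    rw [norm_sub_sq_real, he1, he2, ← hc] at h3
    linarith
  obtain ⟨T, hT⟩ : ∃ T : ℝ, T = (|inner ℝ (z - y1) e1| + |inner ℝ (z - y2) e2| + 1) / (1 - c) :=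
    ⟨_, rfl⟩
  have hT1 : T * (1 - c) = |inner ℝ (z - y1) e1| + |inner ℝ (z - y2) e2| + 1 := by
    rw [hT]; field_simp [show 1 - c ≠ 0 by linarith]
  have hp1 : w y1 ≤ w (z + T • (e1 - e2)) := by
    apply h1
    have e : z + T • (e1 - e2) - y1 = (z - y1) + T • (e1 - e2) := by abel
    have hc' : inner ℝ e2 e1 = c := by rw [hc]; exact real_inner_comm _ _
    rw [e, inner_add_left, real_inner_smul_left, inner_sub_left e1 e2 e1,
      real_inner_self_eq_norm_sq, he1, hc', one_pow, hT1]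
    have := neg_abs_le (inner ℝ (z - y1) e1 : ℝ)
    have := abs_nonneg (inner ℝ (z - y2) e2 : ℝ)
    linarith
  have hp2 : w y2 ≤ w (z - T • (e1 - e2)) := by
    apply h2
    have e : z - T • (e1 - e2) - y2 = (z - y2) - T • (e1 - e2) := by abel
    rw [e, inner_sub_left (z - y2), real_inner_smul_left, inner_sub_left e1 e2 e2,
      real_inner_self_eq_norm_sq, he2, ← hc, one_pow]
    have := neg_abs_le (inner ℝ (z - y2) e2 : ℝ)
    have := abs_nonneg (inner ℝ (z - y1) e1 : ℝ)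
    have e3 : T * (c - 1) = -(T * (1 - c)) := by ring
    rw [e3, hT1]
    linarith
  have := midpoint_ge hq hp1 (h12.trans hp2) (z := z) (by
    rw [← smul_add]
    have : z + T • (e1 - e2) + (z - T • (e1 - e2)) = (2:ℝ) • z := by
      rw [two_smul]; abel
    rw [this, smul_smul]
    norm_num)
  linarith

theorem ivt_seg {w : EuclideanSpace ℝ (Fin n) → ℝ} (hw : Continuous w)
    {p q : EuclideanSpace ℝ (Fin n)} (h : w p < w q) :
    ∃ s : ℝ, w p < w (p + s • (q - p)) ∧ w (p + s • (q - p)) < w q := by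
  have hc : ContinuousOn (fun s : ℝ => w (p + s • (q - p))) (Icc 0 1) :=
    (hw.comp (by fun_prop)).continuousOn
  have h1 := intermediate_value_Icc (zero_le_one (α := ℝ)) hc
  simp only [zero_smul, add_zero, one_smul, add_sub_cancel] at h1
  obtain ⟨s, _, hs⟩ := h1 (show (w p + w q) / 2 ∈ Icc (w p) (w q) from
    ⟨by linarith, by linarith⟩)
  simp only at hs
  exact ⟨s, by rw [hs]; linarith, by rw [hs]; linarith⟩

theorem oned (hf : KF f μ L) (hv : Ent f v) (hn : 0 < n) {t : ℝ}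
    (hq : ∀ l : ℝ, Convex ℝ {x | l < v t x}) :
    ∃ e : EuclideanSpace ℝ (Fin n), ‖e‖ = 1 ∧ ∃ g : ℝ → ℝ, ∀ x, v t x = g (inner ℝ x e) := by
  by_cases hconst : ∀ x y, v t x = v t y
  · exact ⟨EuclideanSpace.basisFun (Fin n) ℝ ⟨0, hn⟩, by simp, fun _ => v t 0,
      fun x => hconst x 0⟩
  have hHS : ∀ y, 0 < v t y → v t y < 1 → ∃ e : EuclideanSpace ℝ (Fin n), ‖e‖ = 1 ∧
      ∀ x, 0 < inner ℝ (x - y) e → v t y ≤ v t x := by
    intro y h0 h1
    by_cases hA : CaseA μ v t y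
    · exact caseA_HS hf hv hq h0 h1 hA
    · exact absurd (fun x y => const_of_not_caseA hf hv h0 h1 hA x y) hconst
  have hw : Continuous (v t) := hv.continuous_t t
  push Not at hconst
  obtain ⟨p, q, hpq⟩ : ∃ p q, v t p < v t q := by
    obtain ⟨x, y, hxy⟩ := hconst
    rcases lt_or_gt_of_ne hxy with h | h
    · exact ⟨x, y, h⟩
    · exact ⟨y, x, h⟩
  obtain ⟨s0, hs1, hs2⟩ := ivt_seg hw hpq
  obtain ⟨y0, hy0⟩ : ∃ y0, y0 = p + s0 • (q - p) := ⟨_, rfl⟩
  rw [← hy0] at hs1 hs2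
  obtain ⟨e, he, hHe⟩ := hHS y0 (lt_of_le_of_lt (hv.mem t p).1 hs1)
    (lt_of_lt_of_le hs2 (hv.mem t q).2)
  have key : ∀ x y, inner ℝ x e = (inner ℝ y e : ℝ) → ¬ v t x < v t y := by
    intro x y hxy hlt
    obtain ⟨s, h1, h2⟩ := ivt_seg hw hlt
    obtain ⟨y', hy'⟩ : ∃ y', y' = x + s • (y - x) := ⟨_, rfl⟩
    rw [← hy'] at h1 h2
    obtain ⟨e', he', hHe'⟩ := hHS y' (lt_of_le_of_lt (hv.mem t x).1 h1)
      (lt_of_lt_of_le h2 (hv.mem t y).2)
    have hee : e' = e := by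
      rcases le_total (v t y') (v t y0) with h | h
      · exact uniq1 hq h h1 he' he hHe' hHe
      · exact (uniq1 hq h hs1 he he' hHe hHe').symm
    rw [hee] at hHe'
    have hlim : Tendsto (fun ε : ℝ => v t (x + ε • e)) (𝓝[>] 0) (𝓝 (v t x)) := by
      have h3 : Continuous (fun ε : ℝ => v t (x + ε • e)) := hw.comp (by fun_prop)
      have h4 := h3.tendsto 0
      simp only [zero_smul, add_zero] at h4
      exact h4.mono_left nhdsWithin_le_nhds
    have h5 : v t y' ≤ v t x := by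
      apply ge_of_tendsto hlim
      filter_upwards [self_mem_nhdsWithin] with ε hε
      apply hHe'
      have h6 : inner ℝ (x + ε • e - y') e = ε := by
        rw [hy', inner_sub_left, inner_add_left, inner_add_left, real_inner_smul_left,
          real_inner_smul_left, inner_sub_left, real_inner_self_eq_norm_sq, he, hxy]
        ring
      rw [h6]
      exact hε
    linarith
  refine ⟨e, he, fun r => v t (r • e), fun x => ?_⟩
  have h1 : inner ℝ x e = (inner ℝ ((inner ℝ x e : ℝ) • e) e : ℝ) := by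
    rw [real_inner_smul_left, real_inner_self_eq_norm_sq, he]; ring
  exact le_antisymm (not_lt.1 (key _ _ h1.symm)) (not_lt.1 (key _ _ h1))

/-- Fisher-KPP nonlinearities satisfy the abstract hypotheses. -/
theorem kf_of_kpp (hc : ContDiffOn ℝ 1 f (Icc 0 1)) (f0 : f 0 = 0) (f1 : f 1 = 0)
    (hμ : 0 < derivWithin f (Icc 0 1) 0)
    (hpos : ∀ s ∈ Ioo (0:ℝ) 1, 0 < f s)
    (hle : ∀ s ∈ Ioo (0:ℝ) 1, f s ≤ derivWithin f (Icc 0 1) 0 * s) :
    ∃ L, KF f (derivWithin f (Icc 0 1) 0) L := by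
  obtain ⟨μ, hμd⟩ : ∃ μ, μ = derivWithin f (Icc 0 1) 0 := ⟨_, rfl⟩
  rw [← hμd] at hμ hle ⊢
  have hud : UniqueDiffOn ℝ (Icc (0:ℝ) 1) := uniqueDiffOn_Icc one_pos
  have hdc : ContinuousOn (derivWithin f (Icc 0 1)) (Icc 0 1) :=
    hc.continuousOn_derivWithin hud (by simp)
  have hcont := hc.continuousOn
  obtain ⟨C, hC⟩ := isCompact_Icc.exists_bound_of_continuousOn hdc
  have hC0 : 0 ≤ C := (norm_nonneg _).trans (hC 0 ⟨le_rfl, zero_le_one⟩)
  have hdiff : ∀ x ∈ Ioo (0:ℝ) 1, DifferentiableAt ℝ f x ∧ deriv f x = derivWithin f (Icc 0 1) x := by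
    intro x hx
    have hn : Icc (0:ℝ) 1 ∈ 𝓝 x := Icc_mem_nhds hx.1 hx.2
    refine ⟨?_, (derivWithin_of_mem_nhds hn).symm⟩
    exact ((hc.differentiableOn (by simp)) x ⟨hx.1.le, hx.2.le⟩).differentiableAt hn
  have hmvt : ∀ δ ≤ (1:ℝ), ∀ M : ℝ, (∀ x ∈ Ioo (0:ℝ) δ, derivWithin f (Icc 0 1) x ≤ M) →
      ∀ u ∈ Icc (0:ℝ) δ, ∀ w ∈ Icc (0:ℝ) δ, u ≤ w → f w - f u ≤ M * (w - u) := by
    intro δ hδ M hM u hu w hw huw
    refine (convex_Icc (0:ℝ) δ).image_sub_le_mul_sub_of_deriv_le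
      (hcont.mono (Icc_subset_Icc_right hδ)) ?_ ?_ u hu w hw huw
    · intro x hx
      rw [interior_Icc] at hx
      exact (hdiff x ⟨hx.1, hx.2.trans_le hδ⟩).1.differentiableWithinAt
    · intro x hx
      rw [interior_Icc] at hx
      rw [(hdiff x ⟨hx.1, hx.2.trans_le hδ⟩).2]
      exact hM x hx
  have h00 : (0:ℝ) ∈ Icc (0:ℝ) 1 := ⟨le_rfl, zero_le_one⟩
  refine ⟨C, hμ, f0, hpos, ?_, ?_, hcont, hC0, ?_, ?_, ?_⟩
  · intro s hs
    rcases eq_or_lt_of_le hs.1 with h | h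
    · rw [← h, f0]; simp
    · rcases eq_or_lt_of_le hs.2 with h' | h'
      · rw [h', f1]; linarith
      · exact hle s ⟨h, h'⟩
  · intro s hs
    rcases eq_or_lt_of_le hs.1 with h | h
    · rw [← h, f0]
    · rcases eq_or_lt_of_le hs.2 with h' | h'
      · rw [h', f1]
      · exact (hpos s ⟨h, h'⟩).le
  · intro u hu w hw huw
    refine hmvt 1 le_rfl C (fun x hx => ?_) u hu w hw huw
    exact (le_abs_self _).trans (hC x ⟨hx.1.le, hx.2.le⟩)
  · intro b hb
    have hd : HasDerivWithinAt f μ (Icc 0 1) 0 := by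
      rw [hμd]
      exact ((hc.differentiableOn (by simp)) 0 h00).hasDerivWithinAt
    have hs := hasDerivWithinAt_iff_tendsto_slope.1 hd
    have hev := hs.eventually (lt_mem_nhds hb)
    rw [eventually_nhdsWithin_iff, Metric.eventually_nhds_iff] at hev
    obtain ⟨ε, hε, hball⟩ := hev
    refine ⟨min (ε / 2) (1 / 2), by positivity, ?_, ?_⟩
    · exact (min_le_right _ _).trans_lt (by norm_num)
    · intro u hu
      rcases eq_or_lt_of_le hu.1 with h | h
      · rw [← h, f0]; simp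
      · have hu1 : u ≤ ε / 2 := hu.2.trans (min_le_left _ _)
        have hu2 : u ≤ 1 / 2 := hu.2.trans (min_le_right _ _)
        have := hball (y := u) (by rw [Real.dist_eq, sub_zero, abs_of_pos h]; linarith)
          ⟨⟨h.le, by linarith⟩, by simp; exact h.ne'⟩
        rw [slope_def_field, f0, sub_zero, sub_zero, lt_div_iff₀ h] at this
        exact this.le
  · intro η hη
    have hev := (hdc 0 h00).eventually (gt_mem_nhds (show derivWithin f (Icc 0 1) 0 < μ + η by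
      rw [← hμd]; linarith))
    rw [eventually_nhdsWithin_iff, Metric.eventually_nhds_iff] at hev
    obtain ⟨ε, hε, hball⟩ := hev
    refine ⟨min (ε / 2) (1 / 2), by positivity, ?_, ?_⟩
    · exact (min_le_right _ _).trans_lt (by norm_num)
    · intro u w hu huw hw
      have hδ1 : min (ε / 2) (1 / 2) ≤ 1 := (min_le_right _ _).trans (by norm_num)
      refine hmvt (min (ε / 2) (1 / 2)) hδ1 (μ + η) (fun x hx => ?_) u ⟨hu, huw.trans hw⟩ w
        ⟨hu.trans huw, hw⟩ huw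
      have hx1 : x ≤ ε / 2 := hx.2.le.trans (min_le_left _ _)
      have hx2 : x ≤ 1 / 2 := hx.2.le.trans (min_le_right _ _)
      exact (hball (y := x) (by rw [Real.dist_eq, sub_zero, abs_of_pos hx.1]; linarith)
        ⟨hx.1.le, by linarith⟩).le

end Run7.h350.KP
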