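import Pool.Agent.Run7.h350.KP1

/-!
Abstract KPP nonlinearities, entire solutions, the same-time Harnack inequality.
-/

open Set Filter Topology
open scoped ContDiff Laplacian

namespace Run7.h350

namespace HasD2

variable {g g1 h : ℝ → ℝ} {g2 : ℝ}

theorem congr (H : HasD2 g g1 g2) (he : h =ᶠ[𝓝 0] g) : HasD2 h g1 g2 := by
  refine ⟨?_, H.2⟩
  have h1 := eventually_eventually_nhds.2 he
  filter_upwards [H.1, h1] with s a b
  exact a.congr_of_eventuallyEq b

theorem log (H : HasD2 g g1 g2) (h0 : 0 < g 0) :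
    HasD2 (fun s => Real.log (g s)) (fun s => g1 s / g s) (g2 / g 0 - (g1 0 / g 0) ^ 2) := by
  have hc : ∀ᶠ s in 𝓝 (0:ℝ), 0 < g s := H.self.continuousAt.eventually (lt_mem_nhds h0)
  refine ⟨?_, ?_⟩
  · filter_upwards [H.1, hc] with s a b
    exact a.log b.ne'
  · refine (H.2.div H.self h0.ne').congr_deriv ?_
    field_simp

end HasD2

end Run7.h350

namespace Run7.h350.KP

open Run7.h350

variable {n : ℕ}

/-- abstract data for the nonlinearity -/
structure KF (f : ℝ → ℝ) (μ L : ℝ) : Prop where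
  μpos : 0 < μ
  f0 : f 0 = 0
  pos : ∀ s ∈ Ioo (0:ℝ) 1, 0 < f s
  le : ∀ s ∈ Icc (0:ℝ) 1, f s ≤ μ * s
  nonneg : ∀ s ∈ Icc (0:ℝ) 1, 0 ≤ f s
  cont : ContinuousOn f (Icc 0 1)
  Lpos : 0 ≤ L
  lip : ∀ u ∈ Icc (0:ℝ) 1, ∀ w ∈ Icc (0:ℝ) 1, u ≤ w → f w - f u ≤ L * (w - u)
  low : ∀ b < μ, ∃ δ, 0 < δ ∧ δ < 1 ∧ ∀ u ∈ Icc (0:ℝ) δ, b * u ≤ f u
  up : ∀ η > 0, ∃ δ, 0 < δ ∧ δ < 1 ∧ ∀ u w, 0 ≤ u → u ≤ w → w ≤ δ →
    f w - f u ≤ (μ + η) * (w - u)

/-- entire solutions -/
structure Ent (f : ℝ → ℝ) (v : ℝ → EuclideanSpace ℝ (Fin n) → ℝ) : Prop where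
  mem : ∀ t x, v t x ∈ Icc (0:ℝ) 1
  cont : Continuous (fun p : ℝ × EuclideanSpace ℝ (Fin n) => v p.1 p.2)
  diff : ∀ t x, DifferentiableAt ℝ (fun s => v s x) t
  dcont : Continuous (fun p : ℝ × EuclideanSpace ℝ (Fin n) => deriv (fun s => v s p.2) p.1)
  smooth : ∀ t, ContDiff ℝ 2 (v t)
  pde : ∀ t x, deriv (fun s => v s x) t = Δ (v t) x + f (v t x)

theorem laplacian_comp_add (u : EuclideanSpace ℝ (Fin n) → ℝ) (a x : EuclideanSpace ℝ (Fin n)) :
    Δ (fun y => u (y + a)) x = Δ u (x + a) := by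
  rw [laplacian_eq_sum _ _ (EuclideanSpace.basisFun (Fin n) ℝ),
    laplacian_eq_sum _ _ (EuclideanSpace.basisFun (Fin n) ℝ)]
  apply Finset.sum_congr rfl
  intro k _
  rw [iteratedFDeriv_comp_add_right]

variable {f : ℝ → ℝ} {μ L : ℝ} {v : ℝ → EuclideanSpace ℝ (Fin n) → ℝ}

theorem Ent.translate (hv : Ent f v) (t0 : ℝ) (x0 : EuclideanSpace ℝ (Fin n)) :
    Ent f (fun t x => v (t + t0) (x + x0)) := by
  have hd : ∀ t x, deriv (fun s => v (s + t0) (x + x0)) t = deriv (fun s => v s (x + x0)) (t + t0) :=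
    fun t x => deriv_comp_add_const (f := fun s => v s (x + x0)) t0 t
  refine ⟨fun t x => hv.mem _ _, ?_, fun t x => ?_, ?_, fun t => ?_, fun t x => ?_⟩
  · exact hv.cont.comp (f := fun p : ℝ × EuclideanSpace ℝ (Fin n) => (p.1 + t0, p.2 + x0))
      (by fun_prop)
  · have h1 : HasDerivAt (fun s : ℝ => v (s + t0) (x + x0))
        (deriv (fun s => v s (x + x0)) (t + t0)) t :=
      HasDerivAt.comp_add_const (f := fun s => v s (x + x0)) t t0 (hv.diff _ _).hasDerivAt
    exact h1.differentiableAt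
  · simp_rw [hd]
    exact hv.dcont.comp (f := fun p : ℝ × EuclideanSpace ℝ (Fin n) => (p.1 + t0, p.2 + x0))
      (by fun_prop)
  · exact (hv.smooth (t + t0)).comp (contDiff_id.add contDiff_const)
  · rw [hd, hv.pde, laplacian_comp_add]

theorem Ent.c12 (hv : Ent f v) : C12 v := ⟨hv.cont, hv.diff, hv.smooth⟩

theorem Ent.continuous_t (hv : Ent f v) (t : ℝ) : Continuous (v t) := (hv.smooth t).continuous

/-- chain rule along a differentiable path -/
theorem Ent.hasDerivAt_path (hv : Ent f v) {y : ℝ → EuclideanSpace ℝ (Fin n)}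
    {y' : EuclideanSpace ℝ (Fin n)} {τ : ℝ} (hy : HasDerivAt y y' τ) :
    HasDerivAt (fun s => v s (y s))
      (deriv (fun s => v s (y τ)) τ + fderiv ℝ (v τ) (y τ) y') τ := by
  have h2 : HasDerivAt (fun s => v τ (y s)) (fderiv ℝ (v τ) (y τ) y') τ :=
    (((hv.smooth τ).differentiable (by simp)) (y τ)).hasFDerivAt.comp_hasDerivAt τ hy
  have h1 : HasDerivAt (fun s => v s (y s) - v τ (y s)) (deriv (fun s => v s (y τ)) τ) τ := by
    rw [hasDerivAt_iff_isLittleO, Asymptotics.isLittleO_iff]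
    intro ε hε
    obtain ⟨d, hd⟩ : ∃ d, d = deriv (fun s => v s (y τ)) τ := ⟨_, rfl⟩
    rw [← hd]
    have hc := hv.dcont.continuousAt (x := (τ, y τ))
    rw [Metric.continuousAt_iff] at hc
    obtain ⟨δ, hδ, hball⟩ := hc ε hε
    have hyc := hy.continuousAt
    rw [Metric.continuousAt_iff] at hyc
    obtain ⟨δ', hδ', hball'⟩ := hyc δ hδ
    filter_upwards [Metric.ball_mem_nhds τ (lt_min hδ hδ')] with s hs
    rw [Metric.mem_ball] at hs
    have hs1 : dist s τ < δ := hs.trans_le (min_le_left _ _)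
    have hs2 : dist s τ < δ' := hs.trans_le (min_le_right _ _)
    have hys := hball' hs2
    have hb : ∀ r ∈ uIcc τ s, ‖deriv (fun s' => v s' (y s)) r - d‖ ≤ ε := by
      intro r hr
      have hrd : dist r τ < δ := by
        have h3 : dist r τ ≤ dist s τ := by
          rw [Real.dist_eq, Real.dist_eq]
          exact abs_sub_left_of_mem_uIcc hr
        linarith
      have h4 := hball (x := (r, y s)) (by
        rw [Prod.dist_eq]; exact max_lt hrd hys)
      rw [dist_eq_norm] at h4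
      rw [hd]; exact h4.le
    have h5 : ∀ r ∈ uIcc τ s, HasDerivWithinAt (fun r => v r (y s) - d * r)
        (deriv (fun s' => v s' (y s)) r - d) (uIcc τ s) r := by
      intro r _
      have h6 : HasDerivAt (fun r : ℝ => d * r) d r := by
        simpa using (hasDerivAt_id r).const_mul d
      exact ((hv.diff r (y s)).hasDerivAt.sub h6).hasDerivWithinAt
    have h7 := (convex_uIcc τ s).norm_image_sub_le_of_norm_hasDerivWithin_le h5 hb
      left_mem_uIcc right_mem_uIcc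
    simp only [sub_self, sub_zero, smul_eq_mul]
    have h8 : v s (y s) - v τ (y s) - (s - τ) * d = v s (y s) - d * s - (v τ (y s) - d * τ) := by
      ring
    rw [h8]
    exact h7
  have h3 := h1.add h2
  refine h3.congr_of_eventuallyEq (Eventually.of_forall fun s => ?_)
  simp

theorem fderiv_apply_sum (u : EuclideanSpace ℝ (Fin n) → ℝ) (x a : EuclideanSpace ℝ (Fin n)) :
    fderiv ℝ u x a = ∑ k, a k * fderiv ℝ u x (EuclideanSpace.basisFun (Fin n) ℝ k) := by
  have h := (EuclideanSpace.basisFun (Fin n) ℝ).sum_repr a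
  conv_lhs => rw [← h]
  rw [map_sum]
  apply Finset.sum_congr rfl
  intro k _
  rw [map_smul, smul_eq_mul]
  simp

theorem norm_sq_eq (a : EuclideanSpace ℝ (Fin n)) : ‖a‖ ^ 2 = ∑ k, a k ^ 2 := by
  rw [EuclideanSpace.norm_sq_eq]
  simp

end Run7.h350.KP
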