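import Pool.Agent.Run7.h350.KP2

/-!
The same-time Harnack inequality (power form).
-/

open Set Filter Topology
open scoped ContDiff Laplacian

namespace Run7.h350.KP

open Run7.h350

variable {n : ℕ} {f : ℝ → ℝ} {μ L : ℝ} {v : ℝ → EuclideanSpace ℝ (Fin n) → ℝ}

theorem PH0 (hf : KF f μ L) (hv : Ent f v) {p κ : ℝ} (hp : 1 < p)
    (a : EuclideanSpace ℝ (Fin n)) (hκ : κ = p * ‖a‖ ^ 2 / (4 * (p - 1)) + p * μ)
    {F : Finset (EuclideanSpace ℝ (Fin n))} {ε : ℝ} (hε : 0 < ε)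
    (hF : ∀ x, ∃ ξ ∈ F, 1 * ‖x‖ ≤ inner ℝ ξ x) :
    ∀ τ ∈ Icc (0:ℝ) 1, ∀ x, v τ (x + τ • a) ^ p ≤
      Real.exp (κ * τ) * (v τ x + ES F (fun _ => ε) (fun ξ => ‖ξ‖ ^ 2) τ x) := by
  obtain ⟨S, hS⟩ : ∃ S : ℝ → EuclideanSpace ℝ (Fin n) → ℝ, S = ES F (fun _ => ε) (fun ξ => ‖ξ‖ ^ 2) :=
    ⟨_, rfl⟩
  rw [← hS]
  have hp0 : 0 < p := by linarith
  have hSpos : ∀ τ x, 0 < S τ x := by
    intro τ x
    obtain ⟨ξ, hξ, _⟩ := hF x
    have h1 := ES_term (b := fun ξ : EuclideanSpace ℝ (Fin n) => ‖ξ‖ ^ 2) (A := fun _ => ε)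
      (fun _ _ => hε.le) hξ τ x
    rw [hS]
    exact lt_of_lt_of_le (by positivity) h1
  obtain ⟨G, hG⟩ : ∃ G : ℝ → EuclideanSpace ℝ (Fin n) → ℝ, ∀ τ x, G τ x = v τ x + S τ x :=
    ⟨fun τ x => v τ x + S τ x, fun _ _ => rfl⟩
  have hGpos : ∀ τ x, 0 < G τ x := fun τ x => by
    rw [hG]; linarith [hSpos τ x, (hv.mem τ x).1]
  have hGc : Continuous (fun q : ℝ × EuclideanSpace ℝ (Fin n) => G q.1 q.2) := by
    simp_rw [hG, hS]
    exact hv.cont.add ES_cont
  have hVc : Continuous (fun q : ℝ × EuclideanSpace ℝ (Fin n) => v q.1 (q.2 + q.1 • a)) :=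
    hv.cont.comp (f := fun q : ℝ × EuclideanSpace ℝ (Fin n) => (q.1, q.2 + q.1 • a)) (by fun_prop)
  obtain ⟨R, hR⟩ : ∃ R : ℝ → EuclideanSpace ℝ (Fin n) → ℝ, ∀ τ x,
      R τ x = v τ (x + τ • a) ^ p / (Real.exp (κ * τ) * G τ x) :=
    ⟨fun τ x => v τ (x + τ • a) ^ p / (Real.exp (κ * τ) * G τ x), fun _ _ => rfl⟩
  have hRc : Continuous (fun q : ℝ × EuclideanSpace ℝ (Fin n) => R q.1 q.2) := by
    simp_rw [hR]
    apply Continuous.div
    · exact hVc.rpow_const (fun _ => Or.inr hp0.le)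
    · exact (by fun_prop : Continuous fun q : ℝ × EuclideanSpace ℝ (Fin n) => Real.exp (κ * q.1)).mul hGc
    · intro q
      exact (mul_pos (Real.exp_pos _) (hGpos _ _)).ne'
  obtain ⟨W, hW⟩ : ∃ W : ℝ → EuclideanSpace ℝ (Fin n) → ℝ, ∀ τ x,
      W τ x = p * Real.log (v τ (x + τ • a)) - κ * τ - Real.log (G τ x) :=
    ⟨fun τ x => p * Real.log (v τ (x + τ • a)) - κ * τ - Real.log (G τ x), fun _ _ => rfl⟩
  have hVpos : ∀ τ x, 1 < R τ x → 0 < v τ (x + τ • a) := by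
    intro τ x h
    rcases (hv.mem τ (x + τ • a)).1.lt_or_eq with h1 | h1
    · exact h1
    · rw [hR, ← h1, Real.zero_rpow hp0.ne', zero_div] at h
      linarith
  have hZW : ∀ τ x, 1 < R τ x → Real.log (max (R τ x) 1) = W τ x := by
    intro τ x h
    have hV := hVpos τ x h
    rw [max_eq_left h.le, hW, hR, Real.log_div (Real.rpow_pos_of_pos hV _).ne'
      (mul_pos (Real.exp_pos _) (hGpos _ _)).ne', Real.log_rpow hV,
      Real.log_mul (Real.exp_pos _).ne' (hGpos _ _).ne', Real.log_exp]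
    ring
  have hZpos : ∀ τ x, 0 < Real.log (max (R τ x) 1) → 1 < R τ x := by
    intro τ x h
    by_contra hcon
    push Not at hcon
    rw [max_eq_right hcon, Real.log_one] at h
    exact lt_irrefl _ h
  have hmain := maxP (a := 0) (b := 1) (Γ := 1) (Z := fun τ x => Real.log (max (R τ x) 1))
    ?_ ?_ ?_ ?_
  · intro τ hτ x
    have h1 := hmain τ hτ x
    have h2 : R τ x ≤ 1 := by
      by_contra hcon
      push Not at hcon
      have h3 : 0 < Real.log (max (R τ x) 1) := Real.log_pos (lt_max_of_lt_left hcon)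
      linarith
    rw [hR, div_le_one (mul_pos (Real.exp_pos _) (hGpos _ _)), hG] at h2
    exact h2
  · apply Continuous.continuousOn
    apply Continuous.log
    · exact hRc.max continuous_const
    · intro q
      exact (lt_of_lt_of_le one_pos (le_max_right _ _)).ne'
  · intro x
    have h1 : R 0 x ≤ 1 := by
      rw [hR, div_le_one (mul_pos (Real.exp_pos _) (hGpos _ _))]
      simp only [zero_smul, add_zero, mul_zero, Real.exp_zero, one_mul]
      have h2 : v 0 x ^ p ≤ v 0 x ^ (1:ℝ) :=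
        Real.rpow_le_rpow_of_exponent_ge' (hv.mem 0 x).1 (hv.mem 0 x).2 zero_le_one hp.le
      rw [Real.rpow_one] at h2
      rw [hG]
      linarith [hSpos 0 x]
    rw [max_eq_right h1, Real.log_one]
  · obtain ⟨R0, hR0⟩ := ES_growth (F := F) (A := fun _ => ε) (b := fun ξ => ‖ξ‖ ^ 2)
      (fun _ _ => hε) one_pos hF 0 1 1
    refine ⟨R0, fun τ hτ x hx => ?_⟩
    have h1 : R τ x ≤ 1 := by
      rw [hR, div_le_one (mul_pos (Real.exp_pos _) (hGpos _ _))]
      have h2 : v τ (x + τ • a) ^ p ≤ 1 := Real.rpow_le_one (hv.mem _ _).1 (hv.mem _ _).2 hp0.le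
      have h3 : 1 ≤ G τ x := by
        rw [hG, hS]; linarith [hR0 τ hτ x hx, (hv.mem τ x).1]
      have hκ0 : 0 ≤ κ := by
        rw [hκ]
        have := hf.μpos
        have : 0 < p - 1 := by linarith
        positivity
      have h4 : 1 ≤ Real.exp (κ * τ) := Real.one_le_exp (mul_nonneg hκ0 hτ.1)
      nlinarith
    rw [max_eq_right h1, Real.log_one]
  · intro τ hτ x hpos
    have hR1 := hZpos τ x hpos
    have hV := hVpos τ x hR1
    have hopen : ∀ᶠ q : ℝ × EuclideanSpace ℝ (Fin n) in 𝓝 (τ, x), 1 < R q.1 q.2 :=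
      hRc.continuousAt.eventually (lt_mem_nhds hR1)
    obtain ⟨y, hy⟩ : ∃ y, y = x + τ • a := ⟨_, rfl⟩
    obtain ⟨V, hVd⟩ : ∃ V, V = v τ y := ⟨_, rfl⟩
    rw [← hy, ← hVd] at hV
    -- time derivative
    have hpath : HasDerivAt (fun s : ℝ => x + s • a) a τ := by
      simpa using ((hasDerivAt_id τ).smul_const a).const_add x
    have ht1 := hv.hasDerivAt_path hpath
    rw [← hy] at ht1
    have hG1 : HasDerivAt (fun s => G s x) (deriv (fun s => v s x) τ +
        ∑ ξ ∈ F, ε * (‖ξ‖ ^ 2 * Real.exp (inner ℝ ξ x + ‖ξ‖ ^ 2 * τ))) τ := by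
      have h1 := (hv.diff τ x).hasDerivAt.add
        (ES_time (F := F) (A := fun _ => ε) (b := fun ξ => ‖ξ‖ ^ 2) τ x)
      refine h1.congr_of_eventuallyEq (Eventually.of_forall fun s => ?_)
      simp only [hG, hS, Pi.add_apply]
    have hWt : HasDerivAt (fun s => W s x)
        (p * ((deriv (fun s => v s y) τ + fderiv ℝ (v τ) y a) / V) - κ -
          (deriv (fun s => v s x) τ +
            ∑ ξ ∈ F, ε * (‖ξ‖ ^ 2 * Real.exp (inner ℝ ξ x + ‖ξ‖ ^ 2 * τ))) / G τ x) τ := by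
      have h1 := ((ht1.log (by rw [← hy, ← hVd]; exact hV.ne')).const_mul p)
      have h2 : HasDerivAt (fun s : ℝ => κ * s) κ τ := by
        simpa using (hasDerivAt_id τ).const_mul κ
      have h3 := hG1.log (hGpos τ x).ne'
      have h4 := (h1.sub h2).sub h3
      rw [← hy, ← hVd] at h4
      refine h4.congr_of_eventuallyEq (Eventually.of_forall fun s => ?_)
      simp only [hW, Pi.sub_apply]
    have hZt := hWt.congr_of_eventuallyEq (f₁ := fun s => Real.log (max (R s x) 1)) (by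
      have hc : Tendsto (fun s : ℝ => (s, x)) (𝓝 τ) (𝓝 (τ, x)) :=
        (Continuous.prodMk_left x).tendsto τ
      filter_upwards [hc.eventually hopen] with s hs
      exact hZW s x hs)
    -- space derivatives
    have hWx : ∀ k, HasD2 (fun s => W τ (x + s • EuclideanSpace.basisFun (Fin n) ℝ k))
        (fun s => p * (fderiv ℝ (v τ) (y + s • EuclideanSpace.basisFun (Fin n) ℝ k)
          (EuclideanSpace.basisFun (Fin n) ℝ k) /
            v τ (y + s • EuclideanSpace.basisFun (Fin n) ℝ k)) - 0 -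
          (fderiv ℝ (v τ) (x + s • EuclideanSpace.basisFun (Fin n) ℝ k)
            (EuclideanSpace.basisFun (Fin n) ℝ k) +
            ∑ ξ ∈ F, ε * (inner ℝ ξ (EuclideanSpace.basisFun (Fin n) ℝ k) *
              Real.exp (inner ℝ ξ (x + s • EuclideanSpace.basisFun (Fin n) ℝ k) + ‖ξ‖ ^ 2 * τ))) /
            G τ (x + s • EuclideanSpace.basisFun (Fin n) ℝ k))
        (p * (iteratedFDeriv ℝ 2 (v τ) y ![EuclideanSpace.basisFun (Fin n) ℝ k,
            EuclideanSpace.basisFun (Fin n) ℝ k] / V -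
              (fderiv ℝ (v τ) y (EuclideanSpace.basisFun (Fin n) ℝ k) / V) ^ 2) - 0 -
          ((iteratedFDeriv ℝ 2 (v τ) x ![EuclideanSpace.basisFun (Fin n) ℝ k,
            EuclideanSpace.basisFun (Fin n) ℝ k] +
            ∑ ξ ∈ F, ε * ((inner ℝ ξ (EuclideanSpace.basisFun (Fin n) ℝ k)) ^ 2 *
              Real.exp (inner ℝ ξ x + ‖ξ‖ ^ 2 * τ))) / G τ x -
            ((fderiv ℝ (v τ) x (EuclideanSpace.basisFun (Fin n) ℝ k) +
            ∑ ξ ∈ F, ε * (inner ℝ ξ (EuclideanSpace.basisFun (Fin n) ℝ k) *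
              Real.exp (inner ℝ ξ x + ‖ξ‖ ^ 2 * τ))) / G τ x) ^ 2)) := by
      intro k
      have h1 := (hasD2_line (hv.smooth τ).contDiffAt (x := y)
        (EuclideanSpace.basisFun (Fin n) ℝ k)).log (by simpa [← hVd] using hV)
      have h2 := ((hasD2_line (hv.smooth τ).contDiffAt (x := x)
        (EuclideanSpace.basisFun (Fin n) ℝ k)).add
        (ES_space (F := F) (A := fun _ => ε) (b := fun ξ => ‖ξ‖ ^ 2) τ x
          (EuclideanSpace.basisFun (Fin n) ℝ k)))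
      rw [← hS] at h2
      have h3 := h2.log (by
        simp only [zero_smul, add_zero]
        rw [← hG]; exact hGpos _ _)
      have h4 := ((h1.const_mul p).sub (HasD2.const (κ * τ))).sub h3
      simp only [zero_smul, add_zero, ← hVd, ← hG] at h4
      refine h4.congr (Eventually.of_forall fun s => ?_)
      simp only [hW, hy]
      rw [show x + s • EuclideanSpace.basisFun (Fin n) ℝ k + τ • a =
          x + τ • a + s • EuclideanSpace.basisFun (Fin n) ℝ k by abel]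
    have hZx := fun k => (hWx k).congr
      (h := fun s => Real.log (max (R τ (x + s • EuclideanSpace.basisFun (Fin n) ℝ k)) 1)) (by
      have hc : Tendsto (fun s : ℝ => (τ, x + s • EuclideanSpace.basisFun (Fin n) ℝ k)) (𝓝 0)
          (𝓝 (τ, x)) := by
        have h1 : Continuous (fun s : ℝ => (τ, x + s • EuclideanSpace.basisFun (Fin n) ℝ k)) := by
          fun_prop
        have h2 := h1.tendsto 0
        simpa using h2
      filter_upwards [hc.eventually hopen] with s hs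
      exact hZW τ _ hs)
    refine ⟨_, _, _, hZt, hZx, ?_⟩
    intro hg1 hg2
    simp only [zero_smul, add_zero] at hg1
    rw [← hVd] at hg1
    -- abbreviations
    obtain ⟨V1, hV1⟩ : ∃ V1 : Fin n → ℝ, ∀ k, V1 k =
      fderiv ℝ (v τ) y (EuclideanSpace.basisFun (Fin n) ℝ k) / V := ⟨_, fun _ => rfl⟩
    obtain ⟨V2, hV2⟩ : ∃ V2 : Fin n → ℝ, ∀ k, V2 k =
      iteratedFDeriv ℝ 2 (v τ) y ![EuclideanSpace.basisFun (Fin n) ℝ k,
            EuclideanSpace.basisFun (Fin n) ℝ k] / V := ⟨_, fun _ => rfl⟩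
    obtain ⟨H1, hH1⟩ : ∃ H1 : Fin n → ℝ, ∀ k, H1 k =
      (fderiv ℝ (v τ) x (EuclideanSpace.basisFun (Fin n) ℝ k) +
            ∑ ξ ∈ F, ε * (inner ℝ ξ (EuclideanSpace.basisFun (Fin n) ℝ k) *
              Real.exp (inner ℝ ξ x + ‖ξ‖ ^ 2 * τ))) / G τ x := ⟨_, fun _ => rfl⟩
    obtain ⟨H2, hH2⟩ : ∃ H2 : Fin n → ℝ, ∀ k, H2 k =
      (iteratedFDeriv ℝ 2 (v τ) x ![EuclideanSpace.basisFun (Fin n) ℝ k,
            EuclideanSpace.basisFun (Fin n) ℝ k] +
            ∑ ξ ∈ F, ε * ((inner ℝ ξ (EuclideanSpace.basisFun (Fin n) ℝ k)) ^ 2 *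
              Real.exp (inner ℝ ξ x + ‖ξ‖ ^ 2 * τ))) / G τ x := ⟨_, fun _ => rfl⟩
    have e1 : ∀ k, p * V1 k = H1 k := by
      intro k
      have := hg1 k
      rw [← hV1, ← hH1] at this
      linarith
    have e2 : ∀ k, p * V2 k - p * V1 k ^ 2 + H1 k ^ 2 ≤ H2 k := by
      intro k
      have := hg2 k
      rw [← hV1, ← hH1, ← hV2, ← hH2] at this
      linarith
    have hp1 : 0 < p - 1 := by linarith
    have e3 : ∀ k, p * V2 k + p * (a k * V1 k) ≤ H2 k + p * a k ^ 2 / (4 * (p - 1)) := by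
      intro k
      have h1 := e2 k
      rw [← e1 k] at h1
      have h2 : p * (a k * V1 k) - p * (p - 1) * V1 k ^ 2 ≤ p * a k ^ 2 / (4 * (p - 1)) := by
        rw [le_div_iff₀ (by positivity)]
        nlinarith [sq_nonneg (a k - 2 * (p - 1) * V1 k), mul_nonneg hp0.le
          (sq_nonneg (a k - 2 * (p - 1) * V1 k))]
      nlinarith
    have e4 : p * ∑ k, V2 k + p * ∑ k, a k * V1 k ≤ ∑ k, H2 k + p * ‖a‖ ^ 2 / (4 * (p - 1)) := by
      rw [norm_sq_eq, Finset.mul_sum, Finset.mul_sum, ← Finset.sum_add_distrib, Finset.mul_sum,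
        Finset.sum_div, ← Finset.sum_add_distrib]
      exact Finset.sum_le_sum fun k _ => e3 k
    have e5 : deriv (fun s => v s y) τ / V = ∑ k, V2 k + f V / V := by
      rw [hv.pde, laplacian_eq_sum _ _ (EuclideanSpace.basisFun (Fin n) ℝ), add_div, ← hVd,
        Finset.sum_div]
      congr 1
      exact Finset.sum_congr rfl fun k _ => (hV2 k).symm
    have e6 : fderiv ℝ (v τ) y a / V = ∑ k, a k * V1 k := by
      rw [fderiv_apply_sum, Finset.sum_div]
      exact Finset.sum_congr rfl fun k _ => by rw [hV1]; ring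
    have e7 : ∑ k, H2 k ≤ (deriv (fun s => v s x) τ +
            ∑ ξ ∈ F, ε * (‖ξ‖ ^ 2 * Real.exp (inner ℝ ξ x + ‖ξ‖ ^ 2 * τ))) / G τ x := by
      have h1 : ∑ k, H2 k = (Δ (v τ) x +
            ∑ ξ ∈ F, ε * (‖ξ‖ ^ 2 * Real.exp (inner ℝ ξ x + ‖ξ‖ ^ 2 * τ))) / G τ x := by
        rw [laplacian_eq_sum _ _ (EuclideanSpace.basisFun (Fin n) ℝ),
          ← ES_lap (A := fun _ => ε) (b := fun ξ => ‖ξ‖ ^ 2), ← Finset.sum_add_distrib,
          Finset.sum_div]
        exact Finset.sum_congr rfl fun k _ => hH2 k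
      rw [h1, hv.pde]
      apply div_le_div_of_nonneg_right _ (hGpos τ x).le
      linarith [hf.nonneg _ (hv.mem τ x)]
    have e8 : f V / V ≤ μ := by
      rw [div_le_iff₀ hV, hVd]
      exact hf.le _ (hv.mem τ y)
    rw [add_div, e5, e6]
    have e9 : p * (∑ k, V2 k + f V / V + ∑ k, a k * V1 k) - κ ≤ ∑ k, H2 k := by
      rw [hκ]
      nlinarith [mul_le_mul_of_nonneg_left e8 hp0.le]
    linarith

/-- **Same-time Harnack inequality** (power form) for entire solutions. -/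
theorem Ent.PH (hf : KF f μ L) (hv : Ent f v) {p : ℝ} (hp : 1 < p) (t : ℝ)
    (x a : EuclideanSpace ℝ (Fin n)) :
    v t (x + a) ^ p ≤ Real.exp (p * ‖a‖ ^ 2 / (4 * (p - 1)) + p * μ) * v t x := by
  obtain ⟨F, hFR, hF⟩ := exists_net n (R := 2) (κ := 1) (by norm_num) one_pos
  have hgr : ∀ x, ∃ ξ ∈ F, 1 * ‖x‖ ≤ inner ℝ ξ x := by
    intro x
    obtain ⟨ξ, hξ, h⟩ := net_growth (by norm_num) hF x
    exact ⟨ξ, hξ, by linarith⟩
  obtain ⟨κ, hκ⟩ : ∃ κ, κ = p * ‖a‖ ^ 2 / (4 * (p - 1)) + p * μ := ⟨_, rfl⟩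
  rw [← hκ]
  have key : ∀ ε > 0, v t (x + a) ^ p ≤ Real.exp κ * (v t x + ε *
      ES F (fun _ => 1) (fun ξ => ‖ξ‖ ^ 2) 1 x) := by
    intro ε hε
    have h1 := PH0 hf (hv.translate (t - 1) 0) hp a hκ (F := F) hε hgr 1
      ⟨zero_le_one, le_rfl⟩ x
    simp only [add_zero, one_smul, mul_one] at h1
    rw [show (1 : ℝ) + (t - 1) = t by ring] at h1
    have h2 : ES F (fun _ => ε) (fun ξ => ‖ξ‖ ^ 2) 1 x = ε *
      ES F (fun _ => 1) (fun ξ => ‖ξ‖ ^ 2) 1 x := by
      unfold ES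
      rw [Finset.mul_sum]
      exact Finset.sum_congr rfl fun ξ _ => by ring
    rwa [h2] at h1
  apply le_of_forall_pos_le_add
  intro δ hδ
  obtain ⟨M, hM⟩ : ∃ M, M = ES F (fun _ => 1) (fun ξ => ‖ξ‖ ^ 2) 1 x := ⟨_, rfl⟩
  rw [← hM] at key
  have hM0 : 0 ≤ M := by rw [hM]; exact ES_nonneg (fun _ _ => zero_le_one) 1 x
  have h1 := key (δ / (Real.exp κ * (M + 1))) (by positivity)
  have h2 : Real.exp κ * (δ / (Real.exp κ * (M + 1)) * M) ≤ δ := by
    have h3 : Real.exp κ * (δ / (Real.exp κ * (M + 1)) * M) = δ * (M / (M + 1)) := by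
      field_simp
    rw [h3]
    have h4 : M / (M + 1) ≤ 1 := by
      rw [div_le_one (by positivity)]; linarith
    nlinarith
  nlinarith

end Run7.h350.KP
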