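import Pool.Agent.Run7.h350.KP3

/-!
Moving bumps, the hair-trigger lemma.
-/

open Set Filter Topology
open scoped ContDiff Laplacian

namespace Run7.h350.KP

open Run7.h350

variable {n : ℕ} {f : ℝ → ℝ} {μ L : ℝ} {v : ℝ → EuclideanSpace ℝ (Fin n) → ℝ}

/-- the moving bump -/
noncomputable def bmp (A κ ρ : ℝ) (q x1 : EuclideanSpace ℝ (Fin n)) (σ : ℝ)
    (x : EuclideanSpace ℝ (Fin n)) : ℝ :=
  A * Real.exp (κ * σ - inner ℝ q (x - x1 - σ • q) / 2) *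
    (max (ρ ^ 2 - ‖x - x1 - σ • q‖ ^ 2) 0) ^ 2

theorem bmp_cont (A κ ρ : ℝ) (q x1 : EuclideanSpace ℝ (Fin n)) :
    Continuous (fun p : ℝ × EuclideanSpace ℝ (Fin n) => bmp A κ ρ q x1 p.1 p.2) := by
  unfold bmp
  fun_prop

theorem sum_inner_mul (u w : EuclideanSpace ℝ (Fin n)) :
    ∑ k, inner ℝ u (EuclideanSpace.basisFun (Fin n) ℝ k) *
      inner ℝ w (EuclideanSpace.basisFun (Fin n) ℝ k) = inner ℝ u w := by
  have := (EuclideanSpace.basisFun (Fin n) ℝ).sum_inner_mul_inner u w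
  rw [← this]
  apply Finset.sum_congr rfl
  intro k _
  rw [real_inner_comm w]

theorem bmp_time {A κ ρ : ℝ} {q x1 : EuclideanSpace ℝ (Fin n)} {σ : ℝ}
    {x : EuclideanSpace ℝ (Fin n)} (hx : 0 < ρ ^ 2 - ‖x - x1 - σ • q‖ ^ 2) :
    HasDerivAt (fun s => bmp A κ ρ q x1 s x)
      (A * Real.exp (κ * σ - inner ℝ q (x - x1 - σ • q) / 2) *
        ((κ + ‖q‖ ^ 2 / 2) * (ρ ^ 2 - ‖x - x1 - σ • q‖ ^ 2) ^ 2 +
        4 * (ρ ^ 2 - ‖x - x1 - σ • q‖ ^ 2) * inner ℝ (x - x1 - σ • q) q)) σ := by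
  have hz : HasDerivAt (fun s : ℝ => x - x1 - s • q) (-q) σ := by
    have := ((hasDerivAt_id σ).smul_const q).const_sub (x - x1)
    simpa using this
  have h1 : HasDerivAt (fun s : ℝ => inner ℝ q (x - x1 - s • q)) (-‖q‖ ^ 2) σ := by
    have := (hasDerivAt_const σ q).inner ℝ hz
    simpa using this
  have h2 : HasDerivAt (fun s : ℝ => ‖x - x1 - s • q‖ ^ 2) (-(2 * inner ℝ (x - x1 - σ • q) q)) σ := by
    have := hz.norm_sq
    simpa using this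
  have h3 : HasDerivAt (fun s : ℝ => κ * s - inner ℝ q (x - x1 - s • q) / 2)
      (κ - (-‖q‖ ^ 2) / 2) σ := by
    have h4 : HasDerivAt (fun s : ℝ => κ * s) κ σ := by simpa using (hasDerivAt_id σ).const_mul κ
    exact h4.sub (h1.div_const 2)
  have h5 := (h3.exp.const_mul A).mul ((h2.const_sub (ρ ^ 2)).pow 2)
  have h6 : (fun s => bmp A κ ρ q x1 s x) =ᶠ[𝓝 σ] fun s =>
      A * Real.exp (κ * s - inner ℝ q (x - x1 - s • q) / 2) *
        (ρ ^ 2 - ‖x - x1 - s • q‖ ^ 2) ^ 2 := by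
    have hc : ContinuousAt (fun s : ℝ => ρ ^ 2 - ‖x - x1 - s • q‖ ^ 2) σ := by fun_prop
    filter_upwards [hc.eventually (lt_mem_nhds hx)] with s hs
    unfold bmp
    rw [max_eq_left hs.le]
  refine (HasDerivAt.congr_of_eventuallyEq ?_ h6)
  refine h5.congr_deriv ?_
  simp only [Pi.pow_apply, Nat.cast_ofNat, Nat.add_one_sub_one, pow_one]
  ring

theorem bmp_space {A κ ρ : ℝ} {q x1 : EuclideanSpace ℝ (Fin n)} {σ : ℝ}
    {x e : EuclideanSpace ℝ (Fin n)} (he : ‖e‖ = 1) (hx : 0 < ρ ^ 2 - ‖x - x1 - σ • q‖ ^ 2) :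
    ∃ g1, HasD2 (fun s => bmp A κ ρ q x1 σ (x + s • e)) g1
      (A * Real.exp (κ * σ - inner ℝ q (x - x1 - σ • q) / 2) *
        ((inner ℝ q e) ^ 2 / 4 * (ρ ^ 2 - ‖x - x1 - σ • q‖ ^ 2) ^ 2 +
        4 * (inner ℝ q e * inner ℝ (x - x1 - σ • q) e) * (ρ ^ 2 - ‖x - x1 - σ • q‖ ^ 2) +
        8 * (inner ℝ (x - x1 - σ • q) e) ^ 2 - 4 * (ρ ^ 2 - ‖x - x1 - σ • q‖ ^ 2))) := by
  obtain ⟨z, hz⟩ : ∃ z, z = x - x1 - σ • q := ⟨_, rfl⟩
  rw [← hz] at hx ⊢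
  obtain ⟨θ, hθ⟩ : ∃ θ : ℝ, θ = inner ℝ q e := ⟨_, rfl⟩
  obtain ⟨ζ, hζ⟩ : ∃ ζ : ℝ, ζ = inner ℝ z e := ⟨_, rfl⟩
  obtain ⟨c0, hc0⟩ : ∃ c0 : ℝ, c0 = κ * σ - inner ℝ q z / 2 := ⟨_, rfl⟩
  obtain ⟨P, hP⟩ : ∃ P : ℝ, P = ρ ^ 2 - ‖z‖ ^ 2 := ⟨_, rfl⟩
  rw [← hθ, ← hζ, ← hc0, ← hP]
  rw [← hP] at hx
  have hE : HasD2 (fun s : ℝ => Real.exp (c0 - s * θ / 2))
      (fun s => Real.exp (c0 - s * θ / 2) * (-(θ / 2))) (Real.exp c0 * (θ ^ 2 / 4)) := by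
    have hl : ∀ s : ℝ, HasDerivAt (fun s : ℝ => c0 - s * θ / 2) (-(θ / 2)) s := by
      intro s
      have := (((hasDerivAt_id s).mul_const θ).div_const 2).const_sub c0
      simpa using this
    refine ⟨Eventually.of_forall fun s => (hl s).exp, ?_⟩
    refine ((hl 0).exp.mul_const (-(θ / 2))).congr_deriv ?_
    simp; ring
  have hQ : HasD2 (fun s : ℝ => P - 2 * ζ * s - s ^ 2) (fun s => -(2 * ζ) - 2 * s) (-2) := by
    refine ⟨Eventually.of_forall fun s => ?_, ?_⟩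
    · have h1 : HasDerivAt (fun s : ℝ => P - 2 * ζ * s) (-(2 * ζ)) s := by
        simpa using ((hasDerivAt_id s).const_mul (2 * ζ)).const_sub P
      have h2 : HasDerivAt (fun s : ℝ => s ^ 2) (2 * s) s := by
        simpa using hasDerivAt_pow 2 s
      exact h1.sub h2
    · simpa using ((hasDerivAt_id (0:ℝ)).const_mul (2:ℝ)).const_sub (-(2 * ζ))
  have hall := (hE.mul (hQ.mul hQ)).const_mul A
  have heq : (fun s => bmp A κ ρ q x1 σ (x + s • e)) =ᶠ[𝓝 0] fun s =>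
      A * (Real.exp (c0 - s * θ / 2) * ((P - 2 * ζ * s - s ^ 2) * (P - 2 * ζ * s - s ^ 2))) := by
    have hc : ContinuousAt (fun s : ℝ => P - 2 * ζ * s - s ^ 2) 0 := by fun_prop
    have hx' : 0 < P - 2 * ζ * 0 - 0 ^ 2 := by linarith
    filter_upwards [hc.eventually (lt_mem_nhds hx')] with s hs
    have h1 : x + s • e - x1 - σ • q = z + s • e := by rw [hz]; abel
    have h2 : ρ ^ 2 - ‖z + s • e‖ ^ 2 = P - 2 * ζ * s - s ^ 2 := by
      rw [norm_add_sq_real, inner_smul_right, norm_smul, he, hP, hζ]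
      simp only [Real.norm_eq_abs, mul_one, sq_abs]
      ring
    have h3 : κ * σ - inner ℝ q (z + s • e) / 2 = c0 - s * θ / 2 := by
      rw [inner_add_right, inner_smul_right, hc0, hθ]; ring
    unfold bmp
    rw [h1, h2, h3, max_eq_left hs.le]
    ring
  refine ⟨_, (hall.congr heq).1, (hall.congr heq).2.congr_deriv ?_⟩
  simp only [zero_mul, zero_div, sub_zero, mul_zero, ne_eq, OfNat.ofNat_ne_zero,
    not_false_eq_true, zero_pow]
  ring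

theorem bump0 (hv : Ent f v) {b δ0 A κ ρ ℓ : ℝ}
    {q x1 : EuclideanSpace ℝ (Fin n)} (hb : ∀ u ∈ Icc (0:ℝ) δ0, b * u ≤ f u) (hA : 0 ≤ A)
    (hρ : 0 < ρ) (hκ : κ + ‖q‖ ^ 2 / 4 + ((n:ℝ) + 2) ^ 2 / (2 * ρ ^ 2) ≤ b)
    (hw : ∀ σ ∈ Icc (0:ℝ) ℓ, ∀ x, bmp A κ ρ q x1 σ x ≤ δ0)
    (hinit : ∀ x, bmp A κ ρ q x1 0 x ≤ v 0 x) :
    ∀ σ ∈ Icc (0:ℝ) ℓ, ∀ x, bmp A κ ρ q x1 σ x ≤ v σ x := by
  have hmain := cmpB (a := 0) (b := ℓ) (L := b) (M := δ0) (Z := fun σ x => bmp A κ ρ q x1 σ x - v σ x)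
    ((bmp_cont A κ ρ q x1).sub hv.cont).continuousOn
    (fun σ hσ x => by linarith [hw σ hσ x, (hv.mem σ x).1]) (fun x => by linarith [hinit x]) ?_
  · intro σ hσ x
    linarith [hmain σ hσ x]
  · intro σ hσ x hpos
    have hσ' : σ ∈ Icc (0:ℝ) ℓ := ⟨hσ.1.le, hσ.2⟩
    have hwpos : 0 < bmp A κ ρ q x1 σ x := by linarith [(hv.mem σ x).1]
    have hx : 0 < ρ ^ 2 - ‖x - x1 - σ • q‖ ^ 2 := by
      by_contra hcon
      push Not at hcon
      unfold bmp at hwpos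
      rw [max_eq_right hcon] at hwpos
      simp at hwpos
    have hsp := fun k : Fin n => bmp_space (A := A) (κ := κ) (e := EuclideanSpace.basisFun (Fin n) ℝ k)
      (by simp) hx
    choose g1 hg1 using hsp
    refine ⟨_, _, _, (bmp_time hx).sub (hv.diff σ x).hasDerivAt, fun k => (hg1 k).sub
      (hasD2_line (hv.smooth σ).contDiffAt (EuclideanSpace.basisFun (Fin n) ℝ k)), ?_⟩
    rw [Finset.sum_sub_distrib, ← laplacian_eq_sum]
    obtain ⟨z, hz⟩ : ∃ z, z = x - x1 - σ • q := ⟨_, rfl⟩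
    rw [← hz] at hx ⊢
    obtain ⟨P, hP⟩ : ∃ P : ℝ, P = ρ ^ 2 - ‖z‖ ^ 2 := ⟨_, rfl⟩
    obtain ⟨c0, hc0⟩ : ∃ c0 : ℝ, c0 = κ * σ - inner ℝ q z / 2 := ⟨_, rfl⟩
    rw [← hP] at hx ⊢
    rw [← hc0]
    have hsum : ∑ k : Fin n, (A * Real.exp c0 *
        ((inner ℝ q (EuclideanSpace.basisFun (Fin n) ℝ k)) ^ 2 / 4 * P ^ 2 +
        4 * (inner ℝ q (EuclideanSpace.basisFun (Fin n) ℝ k) *
          inner ℝ z (EuclideanSpace.basisFun (Fin n) ℝ k)) * P +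
        8 * (inner ℝ z (EuclideanSpace.basisFun (Fin n) ℝ k)) ^ 2 - 4 * P)) =
        A * Real.exp c0 * (‖q‖ ^ 2 / 4 * P ^ 2 + 4 * inner ℝ q z * P + 8 * ‖z‖ ^ 2 - 4 * n * P) := by
      rw [← Finset.mul_sum, Finset.sum_sub_distrib, Finset.sum_add_distrib, Finset.sum_add_distrib,
        ← Finset.sum_mul, ← Finset.sum_div, sum_inner_sq, ← Finset.sum_mul, ← Finset.mul_sum,
        sum_inner_mul, ← Finset.mul_sum, sum_inner_sq]
      simp only [Finset.sum_const, Finset.card_univ, Fintype.card_fin, nsmul_eq_mul]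
      ring
    rw [hsum]
    have hbw : bmp A κ ρ q x1 σ x = A * Real.exp c0 * P ^ 2 := by
      unfold bmp
      rw [← hz, ← hP, max_eq_left hx.le, ← hc0]
    have hpde := hv.pde σ x
    have hv0 := hv.mem σ x
    have hfb : b * v σ x ≤ f (v σ x) := hb _ ⟨hv0.1, by linarith [hw σ hσ' x]⟩
    have hz2 : ‖z‖ ^ 2 = ρ ^ 2 - P := by rw [hP]; ring
    have hcomm : inner ℝ z q = inner ℝ q z := real_inner_comm _ _
    have hkey : (κ + ‖q‖ ^ 2 / 2) * P ^ 2 + 4 * P * inner ℝ z q -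
        (‖q‖ ^ 2 / 4 * P ^ 2 + 4 * inner ℝ q z * P + 8 * ‖z‖ ^ 2 - 4 * n * P) ≤ b * P ^ 2 := by
      rw [hz2, hcomm]
      have h1 : 0 ≤ (((n:ℝ) + 2) * P - 4 * ρ ^ 2) ^ 2 / (2 * ρ ^ 2) := by positivity
      have h2 : (((n:ℝ) + 2) * P - 4 * ρ ^ 2) ^ 2 / (2 * ρ ^ 2) =
          ((n:ℝ) + 2) ^ 2 / (2 * ρ ^ 2) * P ^ 2 - 4 * (n + 2) * P + 8 * ρ ^ 2 := by
        field_simp
        ring
      have h3 := mul_le_mul_of_nonneg_right hκ (sq_nonneg P)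
      nlinarith
    have hAe : 0 ≤ A * Real.exp c0 := mul_nonneg hA (Real.exp_pos _).le
    have h4 := mul_le_mul_of_nonneg_left hkey hAe
    rw [hbw]
    nlinarith

/-- the bump lemma in the form used below -/
theorem LR (hv : Ent f v) {b δ0 η1 ρ ℓ : ℝ} {t : ℝ}
    {x1 z1 : EuclideanSpace ℝ (Fin n)} (hb : ∀ u ∈ Icc (0:ℝ) δ0, b * u ≤ f u) (hη : 0 < η1)
    (hηδ : η1 ≤ δ0) (hρ : 0 < ρ) (hℓ : 0 < ℓ) (hlow : ∀ x, ‖x - x1‖ ≤ ρ → η1 ≤ v t x)
    (hlog : Real.log (δ0 / η1) ≤ (b - ((n:ℝ) + 2) ^ 2 / (2 * ρ ^ 2)) * ℓ -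
      ‖z1 - x1‖ ^ 2 / (4 * ℓ)) :
    δ0 * Real.exp (-(‖z1 - x1‖ / ℓ * ρ / 2)) ≤ v (t + ℓ) z1 := by
  obtain ⟨q, hq⟩ : ∃ q, q = (1 / ℓ) • (z1 - x1) := ⟨_, rfl⟩
  have hqn : ‖q‖ = ‖z1 - x1‖ / ℓ := by
    rw [hq, norm_smul, Real.norm_eq_abs, abs_of_pos (by positivity)]
    ring
  rw [← hqn]
  obtain ⟨κ, hκ⟩ : ∃ κ, κ = Real.log (δ0 / η1) / ℓ := ⟨_, rfl⟩
  have hκ0 : 0 ≤ κ := by
    rw [hκ]
    apply div_nonneg _ hℓ.le
    apply Real.log_nonneg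
    rwa [le_div_iff₀ hη, one_mul]
  obtain ⟨A, hA⟩ : ∃ A, A = η1 / ρ ^ 4 * Real.exp (-(‖q‖ * ρ / 2)) := ⟨_, rfl⟩
  have hA0 : 0 ≤ A := by rw [hA]; positivity
  -- upper bound for the bump
  have hup : ∀ σ : ℝ, 0 ≤ σ → ∀ x, bmp A κ ρ q x1 σ x ≤ η1 * Real.exp (κ * σ) := by
    intro σ hσ x
    unfold bmp
    by_cases hx : 0 < ρ ^ 2 - ‖x - x1 - σ • q‖ ^ 2
    · rw [max_eq_left hx.le]
      have hxr : ‖x - x1 - σ • q‖ ≤ ρ := by
        by_contra hcon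
        push Not at hcon
        nlinarith [norm_nonneg (x - x1 - σ • q)]
      have h1 : -(inner ℝ q (x - x1 - σ • q) / 2) ≤ ‖q‖ * ρ / 2 := by
        have h2 := (abs_le.1 (abs_real_inner_le_norm q (x - x1 - σ • q))).1
        have h3 := mul_le_mul_of_nonneg_left hxr (norm_nonneg q)
        linarith
      have h4 : Real.exp (κ * σ - inner ℝ q (x - x1 - σ • q) / 2) ≤
          Real.exp (κ * σ) * Real.exp (‖q‖ * ρ / 2) := by
        rw [← Real.exp_add]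
        apply Real.exp_le_exp.2
        linarith
      have h5 : (ρ ^ 2 - ‖x - x1 - σ • q‖ ^ 2) ^ 2 ≤ ρ ^ 4 := by
        have h6 : ρ ^ 2 - ‖x - x1 - σ • q‖ ^ 2 ≤ ρ ^ 2 := by
          linarith [sq_nonneg ‖x - x1 - σ • q‖]
        calc (ρ ^ 2 - ‖x - x1 - σ • q‖ ^ 2) ^ 2 ≤ (ρ ^ 2) ^ 2 := pow_le_pow_left₀ hx.le h6 2
          _ = ρ ^ 4 := by ring
      calc A * Real.exp (κ * σ - inner ℝ q (x - x1 - σ • q) / 2) *
            (ρ ^ 2 - ‖x - x1 - σ • q‖ ^ 2) ^ 2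
          ≤ A * (Real.exp (κ * σ) * Real.exp (‖q‖ * ρ / 2)) * ρ ^ 4 := by
            apply mul_le_mul _ h5 (by positivity) (by positivity)
            exact mul_le_mul_of_nonneg_left h4 hA0
        _ = η1 * Real.exp (κ * σ) * (Real.exp (-(‖q‖ * ρ / 2)) * Real.exp (‖q‖ * ρ / 2)) := by
            rw [hA]; field_simp
        _ = η1 * Real.exp (κ * σ) := by
            rw [← Real.exp_add]; simp
    · push Not at hx
      rw [max_eq_right hx]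
      simp
      positivity
  have hmain := bump0 (hv.translate t 0) (ℓ := ℓ) (q := q) (x1 := x1) (κ := κ) hb hA0 hρ ?_ ?_ ?_ ℓ
    ⟨hℓ.le, le_rfl⟩ z1
  · have h1 : bmp A κ ρ q x1 ℓ z1 = δ0 * Real.exp (-(‖q‖ * ρ / 2)) := by
      have h2 : z1 - x1 - ℓ • q = 0 := by
        rw [hq, smul_smul, mul_one_div_cancel hℓ.ne', one_smul, sub_self]
      unfold bmp
      rw [h2]
      have h3 : κ * ℓ = Real.log (δ0 / η1) := by rw [hκ]; field_simp
      rw [h3]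
      simp only [inner_zero_right, zero_div, sub_zero, norm_zero, ne_eq, OfNat.ofNat_ne_zero,
        not_false_eq_true, zero_pow]
      rw [Real.exp_log (div_pos (hη.trans_le hηδ) hη), max_eq_left (by positivity), hA]
      field_simp
    rw [h1] at hmain
    simpa [add_comm] using hmain
  · rw [hqn, hκ]
    have h1 : Real.log (δ0 / η1) / ℓ ≤ ((b - ((n:ℝ) + 2) ^ 2 / (2 * ρ ^ 2)) * ℓ -
      ‖z1 - x1‖ ^ 2 / (4 * ℓ)) / ℓ := div_le_div_of_nonneg_right hlog hℓ.le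
    have h2 : ((b - ((n:ℝ) + 2) ^ 2 / (2 * ρ ^ 2)) * ℓ - ‖z1 - x1‖ ^ 2 / (4 * ℓ)) / ℓ =
      b - ((n:ℝ) + 2) ^ 2 / (2 * ρ ^ 2) - (‖z1 - x1‖ / ℓ) ^ 2 / 4 := by
      field_simp
    linarith
  · intro σ hσ x
    refine (hup σ hσ.1 x).trans ?_
    have h1 : κ * σ ≤ Real.log (δ0 / η1) := by
      have h3 : κ * ℓ = Real.log (δ0 / η1) := by rw [hκ]; field_simp
      rw [← h3]
      exact mul_le_mul_of_nonneg_left hσ.2 hκ0
    have h2 : Real.exp (κ * σ) ≤ δ0 / η1 := by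
      rw [← Real.exp_log (div_pos (hη.trans_le hηδ) hη)]
      exact Real.exp_le_exp.2 h1
    calc η1 * Real.exp (κ * σ) ≤ η1 * (δ0 / η1) := mul_le_mul_of_nonneg_left h2 hη.le
      _ = δ0 := by field_simp
  · intro x
    simp only [zero_add, add_zero]
    by_cases hx : ‖x - x1‖ ≤ ρ
    · have h1 := hup 0 le_rfl x
      simp only [mul_zero, Real.exp_zero, mul_one] at h1
      exact h1.trans (hlow x hx)
    · push Not at hx
      have h1 : bmp A κ ρ q x1 0 x = 0 := by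
        unfold bmp
        rw [zero_smul, sub_zero, max_eq_right (by nlinarith)]
        simp
      rw [h1]
      exact (hv.mem _ _).1

/-- hair-trigger lemma -/
theorem HT (hv : Ent f v) {δ1 θ1 m0 R T1 : ℝ} {t : ℝ}
    {z0 : EuclideanSpace ℝ (Fin n)} (hδ1 : 0 < δ1) (hθ1 : θ1 < 1) (hδθ : δ1 ≤ θ1) (hm : 0 < m0)
    (hmf : ∀ u ∈ Icc δ1 θ1, m0 ≤ f u) (hR0 : 0 < R) (hR : 8 * n / m0 ≤ R ^ 2)
    (hT : T1 = 2 * (θ1 - δ1) / m0)
    (hlow : ∀ σ ∈ Icc (0:ℝ) T1, ∀ x, ‖x - z0‖ ≤ R → δ1 ≤ v (t + σ) x) :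
    θ1 ≤ v (t + T1) z0 := by
  have hT0 : 0 ≤ T1 := by
    rw [hT]; apply div_nonneg _ hm.le; linarith
  have hmT : m0 / 2 * T1 = θ1 - δ1 := by rw [hT]; field_simp
  have hmain := cmpB (a := 0) (b := T1) (L := 0) (M := θ1)
    (Z := fun σ x => (δ1 + m0 / 2 * σ - 2 / R ^ 2 * ‖x - z0‖ ^ 2) - v (t + σ) x)
    (Continuous.continuousOn (by
      apply Continuous.sub (by fun_prop)
      exact hv.cont.comp (f := fun p : ℝ × EuclideanSpace ℝ (Fin n) => (t + p.1, p.2)) (by fun_prop)))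
    ?_ ?_ ?_ T1 ⟨hT0, le_rfl⟩ z0
  · simp only [sub_self, norm_zero, ne_eq, OfNat.ofNat_ne_zero, not_false_eq_true, zero_pow,
      mul_zero, sub_zero] at hmain
    linarith
  · intro σ hσ x
    have h1 : m0 / 2 * σ ≤ m0 / 2 * T1 := mul_le_mul_of_nonneg_left hσ.2 (by positivity)
    have h2 : 0 ≤ 2 / R ^ 2 * ‖x - z0‖ ^ 2 := by positivity
    linarith [(hv.mem (t + σ) x).1]
  · intro x
    by_cases hx : ‖x - z0‖ ≤ R
    · have h1 := hlow 0 ⟨le_rfl, hT0⟩ x hx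
      have h2 : 0 ≤ 2 / R ^ 2 * ‖x - z0‖ ^ 2 := by positivity
      linarith
    · push Not at hx
      have h2 : 2 < 2 / R ^ 2 * ‖x - z0‖ ^ 2 := by
        rw [div_mul_eq_mul_div, lt_div_iff₀ (by positivity)]
        nlinarith
      linarith [(hv.mem (t + 0) x).1]
  · intro σ hσ x hpos
    have hσ' : σ ∈ Icc (0:ℝ) T1 := ⟨hσ.1.le, hσ.2⟩
    have h1 : m0 / 2 * σ ≤ m0 / 2 * T1 := mul_le_mul_of_nonneg_left hσ.2 (by positivity)
    have h2 : 0 ≤ 2 / R ^ 2 * ‖x - z0‖ ^ 2 := by positivity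
    have hx : ‖x - z0‖ ≤ R := by
      by_contra hcon
      push Not at hcon
      have h2 : 2 < 2 / R ^ 2 * ‖x - z0‖ ^ 2 := by
        rw [div_mul_eq_mul_div, lt_div_iff₀ (by positivity)]
        nlinarith
      linarith [(hv.mem (t + σ) x).1]
    have hvl := hlow σ hσ' x hx
    have hvu : v (t + σ) x ≤ θ1 := by linarith
    have hfv := hmf _ ⟨hvl, hvu⟩
    have hd : HasDerivAt (fun s => (δ1 + m0 / 2 * s - 2 / R ^ 2 * ‖x - z0‖ ^ 2) - v (t + s) x)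
        (m0 / 2 - deriv (fun s => v s x) (t + σ)) σ := by
      have h3 : HasDerivAt (fun s : ℝ => δ1 + m0 / 2 * s - 2 / R ^ 2 * ‖x - z0‖ ^ 2) (m0 / 2) σ := by
        have := (((hasDerivAt_id σ).const_mul (m0 / 2)).const_add δ1).sub_const
          (2 / R ^ 2 * ‖x - z0‖ ^ 2)
        simpa using this
      have h4 : HasDerivAt (fun s : ℝ => v (t + s) x) (deriv (fun s => v s x) (t + σ)) σ :=
        HasDerivAt.comp_const_add (f := fun s => v s x) t σ (hv.diff _ _).hasDerivAt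
      exact h3.sub h4
    have hs : ∀ k, HasD2 (fun s => (δ1 + m0 / 2 * σ - 2 / R ^ 2 *
        ‖(x + s • EuclideanSpace.basisFun (Fin n) ℝ k) - z0‖ ^ 2) -
          v (t + σ) (x + s • EuclideanSpace.basisFun (Fin n) ℝ k))
        (fun s => -(2 / R ^ 2 * (2 * inner ℝ (x - z0) (EuclideanSpace.basisFun (Fin n) ℝ k) + 2 * s)) -
          fderiv ℝ (v (t + σ)) (x + s • EuclideanSpace.basisFun (Fin n) ℝ k)
            (EuclideanSpace.basisFun (Fin n) ℝ k))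
        (-(2 / R ^ 2 * 2) - iteratedFDeriv ℝ 2 (v (t + σ)) x ![EuclideanSpace.basisFun (Fin n) ℝ k,
          EuclideanSpace.basisFun (Fin n) ℝ k]) := by
      intro k
      refine HasD2.sub ?_ (hasD2_line (hv.smooth _).contDiffAt _)
      have heq : (fun s : ℝ => δ1 + m0 / 2 * σ - 2 / R ^ 2 *
          ‖(x + s • EuclideanSpace.basisFun (Fin n) ℝ k) - z0‖ ^ 2) = fun s : ℝ =>
          δ1 + m0 / 2 * σ - 2 / R ^ 2 * (‖x - z0‖ ^ 2 +
          2 * inner ℝ (x - z0) (EuclideanSpace.basisFun (Fin n) ℝ k) * s + s ^ 2) := by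
        funext s
        have h5 : x + s • EuclideanSpace.basisFun (Fin n) ℝ k - z0 =
          (x - z0) + s • EuclideanSpace.basisFun (Fin n) ℝ k := by abel
        have h6 : ‖EuclideanSpace.basisFun (Fin n) ℝ k‖ = 1 := by simp
        rw [h5, norm_add_sq_real, inner_smul_right, norm_smul, h6]
        simp only [Real.norm_eq_abs, mul_one, sq_abs]
        ring
      rw [heq]
      refine ⟨Eventually.of_forall fun s => ?_, ?_⟩
      · have h1 : HasDerivAt (fun s : ℝ => 2 * inner ℝ (x - z0) (EuclideanSpace.basisFun (Fin n) ℝ k) * s)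
            (2 * inner ℝ (x - z0) (EuclideanSpace.basisFun (Fin n) ℝ k)) s := by
          simpa using ((hasDerivAt_id s).const_mul
            (2 * inner ℝ (x - z0) (EuclideanSpace.basisFun (Fin n) ℝ k)))
        have h2 : HasDerivAt (fun s : ℝ => s ^ 2) (2 * s) s := by
          simpa using hasDerivAt_pow 2 s
        exact (((h1.const_add (‖x - z0‖ ^ 2)).add h2).const_mul (2 / R ^ 2)).const_sub
          (δ1 + m0 / 2 * σ)
      · have h3 : HasDerivAt (fun s : ℝ => 2 * inner ℝ (x - z0) (EuclideanSpace.basisFun (Fin n) ℝ k) + 2 * s)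
            2 0 := by
          simpa using ((hasDerivAt_id (0:ℝ)).const_mul (2:ℝ)).const_add
            (2 * inner ℝ (x - z0) (EuclideanSpace.basisFun (Fin n) ℝ k))
        exact (h3.const_mul (2 / R ^ 2)).neg
    refine ⟨_, _, _, hd, hs, ?_⟩
    rw [Finset.sum_sub_distrib, ← laplacian_eq_sum, hv.pde]
    simp only [Finset.sum_const, Finset.card_univ, Fintype.card_fin, nsmul_eq_mul, zero_mul]
    have h5 : (n:ℝ) * (2 / R ^ 2 * 2) ≤ m0 / 2 := by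
      rw [div_le_iff₀ hm] at hR
      have h6 : (n:ℝ) * (2 / R ^ 2 * 2) = (4 * n) / R ^ 2 := by ring
      rw [h6, div_le_iff₀ (by positivity)]
      nlinarith
    linarith

end Run7.h350.KP
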