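import Pool.Agent.Run7.h350.KP4

/-!
Spreading from exponentially small values.
-/

open Set Filter Topology
open scoped ContDiff Laplacian

namespace Run7.h350.KP

open Run7.h350

variable {n : ℕ} {f : ℝ → ℝ} {μ L : ℝ}

theorem sq_div_le {d R Q s T ℓ : ℝ} (hd : 0 ≤ d) (hR : 0 ≤ R) (hdQ : d ≤ Q * s)
    (hs1 : 1 ≤ s) (hT : 0 ≤ T) (hsT : 2 * T ≤ s) (hℓ : s - T ≤ ℓ) :
    (d + R) ^ 2 / (4 * ℓ) ≤ d ^ 2 / (4 * s) + (4 * Q * R + 2 * R ^ 2 + 2 * T * Q ^ 2) / 4 := by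
  have hs0 : 0 < s := by linarith
  have hℓ0 : 0 < ℓ := by linarith
  have hsT0 : 0 < s - T := by linarith
  have hQ : 0 ≤ Q := by
    by_contra hcon
    push Not at hcon
    nlinarith
  have h1 : (d + R) ^ 2 / (4 * ℓ) ≤ (d + R) ^ 2 / (4 * (s - T)) := by
    apply div_le_div_of_nonneg_left (by positivity) (by positivity) (by linarith)
  refine h1.trans ?_
  rw [← sub_nonneg]
  have h2 : d ^ 2 / (4 * s) + (4 * Q * R + 2 * R ^ 2 + 2 * T * Q ^ 2) / 4 -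
      (d + R) ^ 2 / (4 * (s - T)) = ((4 * Q * R + 2 * R ^ 2 + 2 * T * Q ^ 2) * (s * (s - T)) -
      (s * (2 * d * R + R ^ 2) + T * d ^ 2)) / (4 * (s * (s - T))) := by
    field_simp
    ring
  rw [h2]
  apply div_nonneg _ (by positivity)
  have h3 : s ^ 2 ≤ 2 * (s * (s - T)) := by nlinarith
  have h4 : d ^ 2 ≤ Q ^ 2 * s ^ 2 := by
    have := mul_self_le_mul_self hd hdQ
    nlinarith
  have h5 : s * (2 * d * R) ≤ 2 * Q * R * s ^ 2 := by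
    have h6 : s * (2 * d * R) = (2 * s * R) * d := by ring
    rw [h6]
    nlinarith [mul_le_mul_of_nonneg_left hdQ (by positivity : 0 ≤ 2 * s * R)]
  have h6 : s * R ^ 2 ≤ R ^ 2 * s ^ 2 := by nlinarith [sq_nonneg R, mul_nonneg (sq_nonneg R) (by linarith : 0 ≤ s - 1)]
  have h7 : T * d ^ 2 ≤ T * Q ^ 2 * s ^ 2 := by nlinarith [mul_le_mul_of_nonneg_left h4 hT]
  have h8 : 0 ≤ 4 * Q * R + 2 * R ^ 2 + 2 * T * Q ^ 2 := by positivity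
  nlinarith [mul_le_mul_of_nonneg_left h3 h8]

theorem SPH (n : ℕ) (hf : KF f μ L) {c2 Q θ1 : ℝ} (hc2 : 0 < c2) (hQ : 0 ≤ Q) (hθ0 : 0 < θ1)
    (hθ : θ1 < 1) :
    ∃ S0, 1 ≤ S0 ∧ ∀ v : ℝ → EuclideanSpace ℝ (Fin n) → ℝ, Ent f v → ∀ s ≥ S0, ∀ t y z,
      ‖z - y‖ ≤ Q * s →
      Real.exp (-μ * s + ‖z - y‖ ^ 2 / (4 * s) + c2 * s) ≤ v (t - s) y → θ1 ≤ v t z := by
  have hμ := hf.μpos
  obtain ⟨δ0, hδ0, hδ01, hlow⟩ := hf.low (μ - c2 / 8) (by linarith)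
  obtain ⟨ρ, hρ, hρc⟩ : ∃ ρ : ℝ, 0 < ρ ∧ ((n:ℝ) + 2) ^ 2 / (2 * ρ ^ 2) ≤ c2 / 8 := by
    refine ⟨2 * ((n:ℝ) + 2) / Real.sqrt c2, by positivity, ?_⟩
    rw [div_pow, Real.sq_sqrt hc2.le]
    apply le_of_eq
    field_simp
    norm_num
  obtain ⟨p, hp1, hp2, hpμ⟩ : ∃ p : ℝ, 1 < p ∧ p ≤ 2 ∧ (p - 1) * μ ≤ c2 / 8 := by
    refine ⟨1 + min 1 (c2 / (8 * μ)), ?_, ?_, ?_⟩
    · have : 0 < min 1 (c2 / (8 * μ)) := by positivity
      linarith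
    · linarith [min_le_left 1 (c2 / (8 * μ))]
    · have h1 := mul_le_mul_of_nonneg_right (min_le_right 1 (c2 / (8 * μ))) hμ.le
      have h2 : c2 / (8 * μ) * μ = c2 / 8 := by field_simp
      rw [add_sub_cancel_left]
      linarith
  obtain ⟨Cp, hCp⟩ : ∃ Cp, Cp = p * ρ ^ 2 / (4 * (p - 1)) + p * μ := ⟨_, rfl⟩
  have hp10 : 0 < p - 1 := by linarith
  have hCp0 : 0 ≤ Cp := by rw [hCp]; positivity
  obtain ⟨δ1, hδ1⟩ : ∃ δ1, δ1 = min (δ0 * Real.exp (-((Q + 1) * ρ / 2))) θ1 := ⟨_, rfl⟩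
  have hδ10 : 0 < δ1 := by rw [hδ1]; positivity
  have hδ1θ : δ1 ≤ θ1 := by rw [hδ1]; exact min_le_right _ _
  obtain ⟨m0, hm0, hmf⟩ : ∃ m0, 0 < m0 ∧ ∀ u ∈ Icc δ1 θ1, m0 ≤ f u := by
    have hcont : ContinuousOn f (Icc δ1 θ1) :=
      hf.cont.mono (Icc_subset_Icc hδ10.le hθ.le)
    obtain ⟨u0, hu0, hmin⟩ := isCompact_Icc.exists_isMinOn ⟨δ1, left_mem_Icc.2 hδ1θ⟩ hcont
    exact ⟨f u0, hf.pos u0 ⟨hδ10.trans_le hu0.1, hu0.2.trans_lt hθ⟩, fun u hu => hmin hu⟩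
  obtain ⟨R, hR⟩ : ∃ R : ℝ, R = 8 * n / m0 + 1 := ⟨_, rfl⟩
  have hR0 : 0 < R := by rw [hR]; positivity
  have hRR : 8 * n / m0 ≤ R ^ 2 := by
    have h0 : 0 ≤ 8 * (n:ℝ) / m0 := by positivity
    rw [hR]; nlinarith
  obtain ⟨T1, hT1⟩ : ∃ T1, T1 = 2 * (θ1 - δ1) / m0 := ⟨_, rfl⟩
  have hT10 : 0 ≤ T1 := by
    rw [hT1]; apply div_nonneg _ hm0.le; linarith
  obtain ⟨C3, hC3⟩ : ∃ C3, C3 = (4 * Q * R + 2 * R ^ 2 + 2 * T1 * Q ^ 2) / 4 := ⟨_, rfl⟩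
  have hC30 : 0 ≤ C3 := by rw [hC3]; positivity
  obtain ⟨S0, hS0⟩ : ∃ S0, S0 = 1 + 2 * T1 + R + (Q + 1) * T1 + 2 * (Cp + μ * T1 + C3) / c2 :=
    ⟨_, rfl⟩
  have hS1 : 0 ≤ 2 * (Cp + μ * T1 + C3) / c2 := by positivity
  have hQT : 0 ≤ (Q + 1) * T1 := by positivity
  refine ⟨S0, by rw [hS0]; linarith, ?_⟩
  intro v hv s hs t y z hyz hval
  have hs' : S0 ≤ s := hs
  rw [hS0] at hs'
  have hs1 : 1 ≤ s := by linarith
  have hs0 : 0 < s := by linarith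
  have hs2T : 2 * T1 ≤ s := by linarith
  have hsR : R + (Q + 1) * T1 ≤ s := by linarith
  have hsC : Cp + μ * T1 + C3 ≤ c2 / 2 * s := by
    have h1 : 2 * (Cp + μ * T1 + C3) / c2 ≤ s := by linarith
    rw [div_le_iff₀ hc2] at h1
    linarith
  obtain ⟨d, hd⟩ : ∃ d, d = ‖z - y‖ := ⟨_, rfl⟩
  have hd0 : 0 ≤ d := by rw [hd]; exact norm_nonneg _
  rw [← hd] at hyz hval
  obtain ⟨D, hD⟩ : ∃ D, D = d ^ 2 / (4 * s) := ⟨_, rfl⟩
  have hD0 : 0 ≤ D := by rw [hD]; positivity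
  rw [← hD] at hval
  have hE : -μ * s + D + c2 * s ≤ 0 := by
    have h1 : Real.exp (-μ * s + D + c2 * s) ≤ 1 := hval.trans (hv.mem _ _).2
    rwa [Real.exp_le_one_iff] at h1
  have hc2μ : c2 ≤ μ := by nlinarith
  -- lower bound on a ball
  have hball : ∀ x, ‖x - y‖ ≤ ρ → Real.exp (-μ * s + D + 7 / 8 * c2 * s - Cp) ≤ v (t - s) x := by
    intro x hx
    have h1 := hv.PH hf hp1 (t - s) x (y - x)
    rw [add_sub_cancel] at h1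
    have h2 : Real.exp (p * (-μ * s + D + c2 * s)) ≤ v (t - s) y ^ p := by
      rw [mul_comm, Real.exp_mul]
      exact Real.rpow_le_rpow (Real.exp_pos _).le hval (by linarith)
    have h3 : p * ‖y - x‖ ^ 2 / (4 * (p - 1)) + p * μ ≤ Cp := by
      rw [hCp]
      have h4 : ‖y - x‖ ^ 2 ≤ ρ ^ 2 := by
        rw [norm_sub_rev]
        exact pow_le_pow_left₀ (norm_nonneg _) hx 2
      have : p * ‖y - x‖ ^ 2 / (4 * (p - 1)) ≤ p * ρ ^ 2 / (4 * (p - 1)) := by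
        apply div_le_div_of_nonneg_right _ (by positivity)
        exact mul_le_mul_of_nonneg_left h4 (by linarith)
      linarith
    have h5 : Real.exp (p * (-μ * s + D + c2 * s)) ≤ Real.exp Cp * v (t - s) x := by
      refine h2.trans (h1.trans ?_)
      exact mul_le_mul_of_nonneg_right (Real.exp_le_exp.2 h3) (hv.mem _ _).1
    have h6 : -μ * s + D + 7 / 8 * c2 * s - Cp ≤ p * (-μ * s + D + c2 * s) - Cp := by
      have h7 : (p - 1) * (-μ * s) ≤ (p - 1) * (-μ * s + D + c2 * s) :=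
        mul_le_mul_of_nonneg_left (by nlinarith) hp10.le
      nlinarith
    have h8 : Real.exp (p * (-μ * s + D + c2 * s) - Cp) ≤ v (t - s) x := by
      rw [Real.exp_sub, div_le_iff₀ (Real.exp_pos _), mul_comm (v (t - s) x)]
      exact h5
    exact (Real.exp_le_exp.2 h6).trans h8
  obtain ⟨η1, hη1⟩ : ∃ η1, η1 = min δ0 (Real.exp (-μ * s + D + 7 / 8 * c2 * s - Cp)) := ⟨_, rfl⟩
  have hη10 : 0 < η1 := by rw [hη1]; positivity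
  have hη1δ : η1 ≤ δ0 := by rw [hη1]; exact min_le_left _ _
  have hfin := HT hv (t := t - T1) (z0 := z) hδ10 hθ hδ1θ hm0 hmf hR0 hRR hT1 ?_
  · rwa [sub_add_cancel] at hfin
  · intro σ hσ x hx
    obtain ⟨ℓ, hℓ⟩ : ∃ ℓ, ℓ = s - T1 + σ := ⟨_, rfl⟩
    have hℓ1 : s - T1 ≤ ℓ := by rw [hℓ]; linarith [hσ.1]
    have hℓ2 : ℓ ≤ s := by rw [hℓ]; linarith [hσ.2]
    have hℓ0 : 0 < ℓ := by linarith
    have hxy : ‖x - y‖ ≤ d + R := by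
      have h1 : x - y = (x - z) + (z - y) := by abel
      rw [h1]
      refine (norm_add_le _ _).trans ?_
      rw [← hd]; linarith
    have hsq := sq_div_le hd0 hR0.le hyz hs1 hT10 hs2T hℓ1
    rw [← hC3, ← hD] at hsq
    have hsq' : ‖x - y‖ ^ 2 / (4 * ℓ) ≤ D + C3 := by
      refine le_trans ?_ hsq
      apply div_le_div_of_nonneg_right _ (by positivity)
      exact pow_le_pow_left₀ (norm_nonneg _) hxy 2
    have hb' : (μ - c2 / 4) * s - μ * T1 ≤ (μ - c2 / 8 - ((n:ℝ) + 2) ^ 2 / (2 * ρ ^ 2)) * ℓ := by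
      have h1 : μ - c2 / 4 ≤ μ - c2 / 8 - ((n:ℝ) + 2) ^ 2 / (2 * ρ ^ 2) := by linarith
      have h2 : (μ - c2 / 4) * ℓ ≤ (μ - c2 / 8 - ((n:ℝ) + 2) ^ 2 / (2 * ρ ^ 2)) * ℓ :=
        mul_le_mul_of_nonneg_right h1 hℓ0.le
      have h3 : (μ - c2 / 4) * (s - T1) ≤ (μ - c2 / 4) * ℓ :=
        mul_le_mul_of_nonneg_left hℓ1 (by linarith)
      nlinarith
    have hlog : Real.log (δ0 / η1) ≤ (μ - c2 / 8 - ((n:ℝ) + 2) ^ 2 / (2 * ρ ^ 2)) * ℓ -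
        ‖x - y‖ ^ 2 / (4 * ℓ) := by
      have hrhs : (μ - c2 / 4) * s - μ * T1 - D - C3 ≤
          (μ - c2 / 8 - ((n:ℝ) + 2) ^ 2 / (2 * ρ ^ 2)) * ℓ - ‖x - y‖ ^ 2 / (4 * ℓ) := by linarith
      refine le_trans ?_ hrhs
      rcases le_total δ0 (Real.exp (-μ * s + D + 7 / 8 * c2 * s - Cp)) with h | h
      · rw [hη1, min_eq_left h, div_self hδ0.ne', Real.log_one]
        nlinarith
      · rw [hη1, min_eq_right h, Real.log_div hδ0.ne' (Real.exp_pos _).ne', Real.log_exp]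
        have h1 : Real.log δ0 ≤ 0 := Real.log_nonpos hδ0.le hδ01.le
        nlinarith
    have hLR := LR hv (t := t - s) (x1 := y) (z1 := x) hlow hη10 hη1δ hρ hℓ0
      (fun x' hx' => (min_le_right _ _ |>.trans_eq' hη1.symm |>.trans (hball x' hx'))) hlog
    have ht : t - s + ℓ = t - T1 + σ := by rw [hℓ]; ring
    rw [ht] at hLR
    refine le_trans ?_ hLR
    rw [hδ1]
    refine (min_le_left _ _).trans ?_
    apply mul_le_mul_of_nonneg_left _ hδ0.le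
    apply Real.exp_le_exp.2
    have h1 : ‖x - y‖ / ℓ ≤ Q + 1 := by
      rw [div_le_iff₀ hℓ0]
      have h2 : (Q + 1) * (s - T1) ≤ (Q + 1) * ℓ := mul_le_mul_of_nonneg_left hℓ1 (by linarith)
      nlinarith
    have h3 : ‖x - y‖ / ℓ * ρ ≤ (Q + 1) * ρ := mul_le_mul_of_nonneg_right h1 hρ.le
    linarith

end Run7.h350.KP
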