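import Pool.Agent.Run7.h350.KP5

/-!
The dichotomy for entire solutions.
-/

open Set Filter Topology
open scoped ContDiff Laplacian

namespace Run7.h350.KP

open Run7.h350

variable {n : ℕ} {f : ℝ → ℝ} {μ L : ℝ} {v : ℝ → EuclideanSpace ℝ (Fin n) → ℝ}

/-- the solution is large at far away points of the past -/
def CaseA (μ : ℝ) (v : ℝ → EuclideanSpace ℝ (Fin n) → ℝ) (t : ℝ)
    (x0 : EuclideanSpace ℝ (Fin n)) : Prop :=
  ∃ δ > 0, ∀ ε > 0, ∀ S : ℝ, ∃ s ≥ S, ∃ y, δ * s ≤ ‖y - x0‖ ∧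
    Real.exp (-μ * s + ‖y - x0‖ ^ 2 / (4 * s) - ε * s) ≤ v (t - s) y

theorem caseA_HS (hf : KF f μ L) (hv : Ent f v) {t : ℝ} {x0 : EuclideanSpace ℝ (Fin n)}
    (hq : ∀ l : ℝ, Convex ℝ {x | l < v t x}) (hx0 : 0 < v t x0) (hx1 : v t x0 < 1)
    (hA : CaseA μ v t x0) :
    ∃ e : EuclideanSpace ℝ (Fin n), ‖e‖ = 1 ∧ ∀ x, 0 < inner ℝ (x - x0) e → v t x0 ≤ v t x := by
  have hμ := hf.μpos
  obtain ⟨δ, hδ, hA⟩ := hA
  have hA' : ∀ k : ℕ, ∃ s y, (k:ℝ) + 1 ≤ s ∧ δ * s ≤ ‖y - x0‖ ∧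
      Real.exp (-μ * s + ‖y - x0‖ ^ 2 / (4 * s) - 1 / ((k:ℝ) + 1) * s) ≤ v (t - s) y := by
    intro k
    obtain ⟨s, hs, y, h1, h2⟩ := hA (1 / ((k:ℝ) + 1)) (by positivity) (k + 1)
    exact ⟨s, y, hs, h1, h2⟩
  choose s y hs hy hval using hA'
  have hs0 : ∀ k, 0 < s k := fun k => by
    have := hs k
    have h2 : (0:ℝ) ≤ k := Nat.cast_nonneg k
    linarith
  have hyn : ∀ k, 0 < ‖y k - x0‖ := fun k => lt_of_lt_of_le (mul_pos hδ (hs0 k)) (hy k)
  obtain ⟨e, he, φ, hφ, hlim⟩ := (isCompact_sphere (0 : EuclideanSpace ℝ (Fin n)) 1).tendsto_subseq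
    (x := fun k => (1 / ‖y k - x0‖) • (y k - x0)) (fun k => by
      rw [mem_sphere_zero_iff_norm, norm_smul, Real.norm_eq_abs, abs_of_pos (by
        have := hyn k; positivity), one_div_mul_cancel (hyn k).ne'])
  refine ⟨e, by simpa using he, ?_⟩
  intro x hx
  obtain ⟨r, hr⟩ : ∃ r, r = inner ℝ (x - x0) e / 2 := ⟨_, rfl⟩
  have hr0 : 0 < r := by rw [hr]; linarith
  have hX : 0 < ‖x - x0‖ := by
    rw [norm_pos_iff]
    intro h
    rw [h, inner_zero_left] at hx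
    exact lt_irrefl _ hx
  obtain ⟨κ, hκ⟩ : ∃ κ, κ = δ * r / ‖x - x0‖ ^ 2 := ⟨_, rfl⟩
  have hκ0 : 0 < κ := by rw [hκ]; positivity
  have hκX : κ * ‖x - x0‖ ^ 2 = δ * r := by rw [hκ]; field_simp
  obtain ⟨c2, hc2⟩ : ∃ c2, c2 = κ * δ * r / 8 := ⟨_, rfl⟩
  have hc20 : 0 < c2 := by rw [hc2]; positivity
  obtain ⟨S0, hS0, hSPH⟩ := SPH n hf hc20 (Q := 2 * (μ + 1)) (by linarith) hx0 hx1
  -- choose an index
  have hev1 : ∀ᶠ k in atTop, r < inner ℝ (x - x0) ((1 / ‖y (φ k) - x0‖) • (y (φ k) - x0)) := by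
    have h1 : Tendsto (fun k => inner ℝ (x - x0) ((1 / ‖y (φ k) - x0‖) • (y (φ k) - x0))) atTop
        (𝓝 (inner ℝ (x - x0) e)) := tendsto_const_nhds.inner hlim
    exact h1.eventually (lt_mem_nhds (by rw [hr]; linarith))
  obtain ⟨M, hM⟩ := exists_nat_gt (max S0 (max (1 / κ) (1 / c2)))
  obtain ⟨k, hk, hk1⟩ := ((hev1.and (eventually_ge_atTop M))).exists
  obtain ⟨j, hj⟩ : ∃ j, j = φ k := ⟨_, rfl⟩
  rw [← hj] at hk
  have hjM : (M:ℝ) ≤ j := by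
    have h1 : k ≤ φ k := hφ.id_le k
    rw [hj]
    exact_mod_cast hk1.trans h1
  have hsj := hs j
  have hs0j := hs0 j
  have hyj := hy j
  have hvalj := hval j
  have hynj := hyn j
  obtain ⟨σ, hσ⟩ : ∃ σ, σ = s j := ⟨_, rfl⟩
  obtain ⟨w, hw⟩ : ∃ w, w = y j - x0 := ⟨_, rfl⟩
  rw [← hσ, ← hw] at hvalj
  rw [← hσ] at hsj hs0j
  rw [← hw] at hk hynj
  rw [← hσ, ← hw] at hyj
  have hσM : max S0 (max (1 / κ) (1 / c2)) < σ := by linarith
  have hσS : S0 ≤ σ := (le_max_left _ _).trans hσM.le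
  have hσκ : 1 / κ ≤ σ := (le_max_left _ _).trans ((le_max_right _ _).trans hσM.le)
  have hjc : 1 / ((j:ℝ) + 1) ≤ c2 := by
    have h1 : 1 / c2 < (j:ℝ) + 1 := by
      have := (le_max_right _ _).trans ((le_max_right S0 (max (1 / κ) (1 / c2))))
      linarith
    rw [div_lt_iff₀ hc20] at h1
    rw [div_le_iff₀ (by positivity)]
    linarith
  have hin : δ * σ * r ≤ inner ℝ (x - x0) w := by
    rw [inner_smul_right] at hk
    have h1 : r * ‖w‖ ≤ inner ℝ (x - x0) w := by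
      have h2 := mul_le_mul_of_nonneg_left hk.le hynj.le
      have h3 : ‖w‖ * (1 / ‖w‖ * inner ℝ (x - x0) w) = inner ℝ (x - x0) w := by
        field_simp
      linarith
    nlinarith
  obtain ⟨z, hz⟩ : ∃ z, z = x0 + (κ * σ) • (x - x0) := ⟨_, rfl⟩
  have hzy : ‖z - y j‖ ^ 2 ≤ ‖w‖ ^ 2 - κ * δ * r * σ ^ 2 := by
    have h1 : z - y j = (κ * σ) • (x - x0) - w := by rw [hz, hw]; abel
    rw [h1, norm_sub_sq_real, norm_smul, real_inner_smul_left, Real.norm_eq_abs,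
      abs_of_pos (by positivity), mul_pow]
    have h2 : (κ * σ) ^ 2 * ‖x - x0‖ ^ 2 = κ * σ ^ 2 * (κ * ‖x - x0‖ ^ 2) := by ring
    rw [h2, hκX]
    have h3 := mul_le_mul_of_nonneg_left hin (by positivity : 0 ≤ κ * σ)
    nlinarith
  have hE : -μ * σ + ‖w‖ ^ 2 / (4 * σ) - 1 / ((j:ℝ) + 1) * σ ≤ 0 := by
    have h1 := hvalj.trans (hv.mem _ _).2
    rwa [Real.exp_le_one_iff] at h1
  have hw2 : ‖w‖ ^ 2 ≤ 4 * (μ + 1) * σ ^ 2 := by
    have h1 : ‖w‖ ^ 2 / (4 * σ) ≤ (μ + 1) * σ := by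
      have h2 : 1 / ((j:ℝ) + 1) ≤ 1 := by
        rw [div_le_iff₀ (by positivity)]
        have : (0:ℝ) ≤ j := Nat.cast_nonneg j
        linarith
      nlinarith
    rw [div_le_iff₀ (by positivity)] at h1
    nlinarith
  have hvz : v t x0 ≤ v t z := by
    refine hSPH v hv σ hσS t (y j) z ?_ ?_
    · have h1 : ‖z - y j‖ ^ 2 ≤ (2 * (μ + 1) * σ) ^ 2 := by
        have h2 : 0 ≤ κ * δ * r * σ ^ 2 := by positivity
        have h3 : 4 * (μ + 1) * σ ^ 2 ≤ (2 * (μ + 1) * σ) ^ 2 := by nlinarith [sq_nonneg σ]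
        linarith
      exact (abs_le_of_sq_le_sq' h1 (by positivity)).2
    · refine le_trans (Real.exp_le_exp.2 ?_) hvalj
      have h1 : ‖z - y j‖ ^ 2 / (4 * σ) ≤ ‖w‖ ^ 2 / (4 * σ) - 2 * c2 * σ := by
        rw [div_le_iff₀ (by positivity)]
        have h2 : (‖w‖ ^ 2 / (4 * σ) - 2 * c2 * σ) * (4 * σ) = ‖w‖ ^ 2 - κ * δ * r * σ ^ 2 := by
          rw [hc2]; field_simp; ring
        rw [h2]; exact hzy
      have h3 := mul_le_mul_of_nonneg_right hjc hs0j.le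
      linarith
  -- convexity
  apply le_of_forall_lt
  intro l hl
  have hκσ : 1 ≤ κ * σ := by
    rw [div_le_iff₀ hκ0] at hσκ
    linarith
  have hcx := hq l (x := x0) hl (y := z) (show l < v t z from hl.trans_le hvz)
    (a := 1 - 1 / (κ * σ)) (b := 1 / (κ * σ)) (by
      rw [sub_nonneg, div_le_one (by positivity)]; exact hκσ) (by positivity) (by ring)
  have hxe : (1 - 1 / (κ * σ)) • x0 + (1 / (κ * σ)) • z = x := by
    rw [hz, smul_add, smul_smul, one_div_mul_cancel (by positivity), one_smul, sub_smul, one_smul]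
    abel
  rw [hxe] at hcx
  exact hcx

/-- upper bound in the complementary case -/
theorem UB0 (hf : KF f μ L) (hv : Ent f v) (h1 : v 0 0 < 1) (hB : ¬ CaseA μ v 0 0) {K ε0 : ℝ}
    (hK : 0 < K) (hε0 : 0 < ε0) :
    ∃ S, 1 ≤ S ∧ ∀ s ≥ S, ∀ y : EuclideanSpace ℝ (Fin n), ‖y‖ ≤ K * s →
      v (-s) y ≤ Real.exp (-μ * s + ε0 * s) := by
  have hμ := hf.μpos
  have hB' : ∀ δ > 0, ∃ ε > 0, ∃ S : ℝ, ∀ s ≥ S, ∀ y, δ * s ≤ ‖y‖ →
      v (-s) y < Real.exp (-μ * s + ‖y‖ ^ 2 / (4 * s) - ε * s) := by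
    unfold CaseA at hB
    push Not at hB
    intro δ hδ
    obtain ⟨ε, hε, S, h⟩ := hB δ hδ
    refine ⟨ε, hε, S, fun s hs y hy => ?_⟩
    have := h s hs y (by simpa using hy)
    simpa using this
  obtain ⟨R, hR⟩ : ∃ R, R = μ + 3 := ⟨_, rfl⟩
  obtain ⟨δ, hδ⟩ : ∃ δ, δ = ε0 / (4 * K) := ⟨_, rfl⟩
  have hδ0 : 0 < δ := by rw [hδ]; positivity
  obtain ⟨εδ, hεδ, Sδ, hSδ⟩ := hB' δ hδ0
  obtain ⟨η2, hη2⟩ : ∃ η2, η2 = min (εδ / 2) 1 := ⟨_, rfl⟩
  have hη20 : 0 < η2 := by rw [hη2]; positivity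
  have hη2a : η2 ≤ εδ / 2 := by rw [hη2]; exact min_le_left _ _
  have hη2b : η2 ≤ 1 := by rw [hη2]; exact min_le_right _ _
  obtain ⟨C, hC⟩ : ∃ C, C = R * K / η2 + 1 := ⟨_, rfl⟩
  have hR0 : 0 < R := by rw [hR]; linarith
  have hC1 : 1 ≤ C := by
    rw [hC]
    have : 0 ≤ R * K / η2 := by positivity
    linarith
  have hC0 : 0 < C := by linarith
  have hCη : R * K ≤ η2 * C := by
    rw [hC]
    have : η2 * (R * K / η2 + 1) = R * K + η2 := by field_simp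
    linarith
  obtain ⟨η1, hη1⟩ : ∃ η1, η1 = ε0 / (4 * C) := ⟨_, rfl⟩
  have hη10 : 0 < η1 := by rw [hη1]; positivity
  obtain ⟨κ, hκ⟩ : ∃ κ, κ = min 1 (min (δ / 2) (min (η1 / 2) (εδ / 2))) := ⟨_, rfl⟩
  have hκ0 : 0 < κ := by rw [hκ]; positivity
  have hκ1 : κ ≤ 1 := by rw [hκ]; exact min_le_left _ _
  have hκδ : κ ≤ δ / 2 := by rw [hκ]; exact (min_le_right _ _).trans (min_le_left _ _)
  have hκη : κ ≤ η1 / 2 := by
    rw [hκ]; exact (min_le_right _ _).trans ((min_le_right _ _).trans (min_le_left _ _))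
  have hκε : κ ≤ εδ / 2 := by
    rw [hκ]; exact (min_le_right _ _).trans ((min_le_right _ _).trans (min_le_right _ _))
  have hκ2 : κ ^ 2 ≤ κ := by nlinarith
  obtain ⟨c2, hc2⟩ : ∃ c2, c2 = η1 / 2 := ⟨_, rfl⟩
  have hc20 : 0 < c2 := by rw [hc2]; positivity
  have hv0 := hv.mem 0 0
  obtain ⟨S0, hS0, hSPH⟩ := SPH n hf hc20 (Q := 2 * (μ + 1)) (θ1 := (v 0 0 + 1) / 2) (by linarith)
    (by linarith [hv0.1]) (by linarith)
  -- global upper bound at exponential scale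
  have hglob : ∀ s ≥ S0, ∀ y, v (-s) y ≤ Real.exp (-μ * s + ‖y‖ ^ 2 / (4 * s) + c2 * s) := by
    intro s hs y
    have hs0 : 0 < s := by linarith
    by_cases hy : ‖y‖ ≤ 2 * (μ + 1) * s
    · by_contra hcon
      push Not at hcon
      have h2 := hSPH v hv s hs 0 y 0 (by simpa using hy) (by simpa using hcon.le)
      linarith
    · push Not at hy
      refine (hv.mem _ _).2.trans (Real.one_le_exp ?_)
      have h2 : μ * s ≤ ‖y‖ ^ 2 / (4 * s) := by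
        rw [le_div_iff₀ (by positivity)]
        have h3 : (2 * (μ + 1) * s) ^ 2 ≤ ‖y‖ ^ 2 := pow_le_pow_left₀ (by positivity) hy.le 2
        nlinarith [sq_nonneg s]
      nlinarith
  obtain ⟨F, hFR, hF⟩ := exists_net n (R := R) (κ := κ) hR0.le hκ0
  have hgr : ∀ x, ∃ ξ ∈ F, (R - κ) * ‖x‖ ≤ inner ℝ ξ x := net_growth hR0.le hF
  obtain ⟨A, hA⟩ : ∃ A : ℝ → EuclideanSpace ℝ (Fin n) → ℝ, ∀ T ξ, A T ξ =
    if ‖ξ‖ ≤ δ then Real.exp (η1 * T) else Real.exp (-(η2 * T)) := ⟨_, fun _ _ => rfl⟩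
  have hA0 : ∀ T ξ, 0 < A T ξ := by
    intro T ξ; rw [hA]; split_ifs <;> positivity
  have hAlow : ∀ T, 0 ≤ T → ∀ ξ, Real.exp (-(η2 * T)) ≤ A T ξ := by
    intro T hT ξ
    rw [hA]
    split_ifs
    · apply Real.exp_le_exp.2; nlinarith
    · exact le_rfl
  -- initial comparison
  have hinit : ∀ T, S0 ≤ T → Sδ ≤ T → ∀ y,
      v (-T) y ≤ ES F (A T) (fun ξ => μ + ‖ξ‖ ^ 2) (-T) y := by
    intro T hT1 hT2 y
    have hT0 : 0 < T := by linarith
    by_cases hy : ‖y‖ ≤ 2 * R * T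
    · obtain ⟨ξ, hξ, hξd⟩ := hF ((1 / (2 * T)) • y) (by
        rw [norm_smul, Real.norm_eq_abs, abs_of_pos (by positivity), one_div, ← div_eq_inv_mul,
          div_le_iff₀ (by positivity)]
        linarith)
      have hterm := ES_term (b := fun ξ : EuclideanSpace ℝ (Fin n) => μ + ‖ξ‖ ^ 2) (A := A T)
        (fun ξ _ => (hA0 T ξ).le) hξ (-T) y
      have hexp : ‖y‖ ^ 2 / (4 * T) - κ ^ 2 * T ≤ inner ℝ ξ y - ‖ξ‖ ^ 2 * T := by
        have h2 : ‖ξ - (1 / (2 * T)) • y‖ ^ 2 ≤ κ ^ 2 := pow_le_pow_left₀ (norm_nonneg _) hξd 2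
        rw [norm_sub_sq_real, inner_smul_right, norm_smul, Real.norm_eq_abs,
          abs_of_pos (by positivity)] at h2
        have h3 := mul_le_mul_of_nonneg_left h2 hT0.le
        have h4 : T * (‖ξ‖ ^ 2 - 2 * (1 / (2 * T) * inner ℝ ξ y) + (1 / (2 * T) * ‖y‖) ^ 2) =
            ‖ξ‖ ^ 2 * T - inner ℝ ξ y + ‖y‖ ^ 2 / (4 * T) := by
          field_simp
          ring
        rw [h4] at h3
        linarith
      by_cases hyδ : δ * T ≤ ‖y‖
      · refine (hSδ T hT2 y hyδ).le.trans (le_trans ?_ hterm)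
        have h2 := hAlow T hT0.le ξ
        refine le_trans ?_ (mul_le_mul_of_nonneg_right h2 (Real.exp_pos _).le)
        rw [← Real.exp_add]
        apply Real.exp_le_exp.2
        have h3 : (η2 + κ ^ 2) * T ≤ εδ * T :=
          mul_le_mul_of_nonneg_right (by linarith) hT0.le
        nlinarith
      · push Not at hyδ
        have hξδ : ‖ξ‖ ≤ δ := by
          have h2 : ‖ξ‖ ≤ ‖ξ - (1 / (2 * T)) • y‖ + ‖(1 / (2 * T)) • y‖ := by
            have := norm_add_le (ξ - (1 / (2 * T)) • y) ((1 / (2 * T)) • y)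
            simpa using this
          have h3 : ‖(1 / (2 * T)) • y‖ ≤ δ / 2 := by
            rw [norm_smul, Real.norm_eq_abs, abs_of_pos (by positivity), one_div,
              ← div_eq_inv_mul, div_le_iff₀ (by positivity)]
            linarith
          linarith
        refine (hglob T hT1 y).trans (le_trans ?_ hterm)
        rw [hA, if_pos hξδ, ← Real.exp_add]
        apply Real.exp_le_exp.2
        have h3 : (c2 + κ ^ 2) * T ≤ η1 * T :=
          mul_le_mul_of_nonneg_right (by rw [hc2]; linarith) hT0.le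
        nlinarith
    · push Not at hy
      obtain ⟨ξ, hξ, hξd⟩ := hgr y
      have hterm := ES_term (b := fun ξ : EuclideanSpace ℝ (Fin n) => μ + ‖ξ‖ ^ 2) (A := A T)
        (fun ξ _ => (hA0 T ξ).le) hξ (-T) y
      refine (hv.mem _ _).2.trans (le_trans ?_ hterm)
      refine le_trans ?_ (mul_le_mul_of_nonneg_right (hAlow T hT0.le ξ) (Real.exp_pos _).le)
      rw [← Real.exp_add]
      apply Real.one_le_exp
      have h2 : ‖ξ‖ ^ 2 ≤ R ^ 2 := pow_le_pow_left₀ (norm_nonneg _) (hFR ξ hξ) 2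
      have h3 : (R - 1) * (2 * R * T) ≤ (R - κ) * ‖y‖ := by
        apply mul_le_mul (by linarith) hy.le (by positivity)
        rw [hR]; linarith
      have h4 : ‖ξ‖ ^ 2 * T ≤ R ^ 2 * T := mul_le_mul_of_nonneg_right h2 hT0.le
      have h5 : η2 * T ≤ 1 * T := mul_le_mul_of_nonneg_right hη2b hT0.le
      have h6 : 0 ≤ (R ^ 2 - 2 * R - μ - 1) * T := by
        apply mul_nonneg _ hT0.le
        rw [hR]; nlinarith
      nlinarith
  obtain ⟨N, hN⟩ : ∃ N : ℝ, N = (F.card : ℝ) := ⟨_, rfl⟩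
  have hN0 : 0 ≤ N := by rw [hN]; positivity
  refine ⟨max (max 1 S0) (max Sδ (2 * N / ε0)), (le_max_left _ _).trans (le_max_left _ _), ?_⟩
  intro s hs y hy
  have hs1 : 1 ≤ s := ((le_max_left _ _).trans (le_max_left _ _)).trans hs
  have hsS0 : S0 ≤ s := ((le_max_right _ _).trans (le_max_left _ _)).trans hs
  have hsSδ : Sδ ≤ s := ((le_max_left _ _).trans (le_max_right _ _)).trans hs
  have hsN : 2 * N / ε0 ≤ s := ((le_max_right _ _).trans (le_max_right _ _)).trans hs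
  have hs0 : 0 < s := by linarith
  have hCs : s ≤ C * s := by nlinarith
  have hcmp := cmpES hv.c12 (L := μ) (M := 1) (F := F) (A := A (C * s))
    (b := fun ξ => μ + ‖ξ‖ ^ 2) (t0 := -(C * s)) (t1 := 0)
    (fun t _ x _ => by rw [hv.pde]; linarith [hf.le _ (hv.mem t x)])
    (fun t _ x => (hv.mem t x).2) (fun ξ _ => hA0 _ ξ) (c := R - κ)
    (by rw [hR]; linarith) hgr (fun ξ _ => le_rfl)
    (hinit (C * s) (hsS0.trans hCs) (hsSδ.trans hCs)) (-s) ⟨by linarith, by linarith⟩ y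
  refine hcmp.trans ?_
  have hbound : ES F (A (C * s)) (fun ξ => μ + ‖ξ‖ ^ 2) (-s) y ≤
      ∑ _ξ ∈ F, Real.exp (-μ * s + ε0 / 2 * s) := by
    unfold ES
    apply Finset.sum_le_sum
    intro ξ hξ
    have hin : inner ℝ ξ y ≤ ‖ξ‖ * ‖y‖ := real_inner_le_norm _ _
    rw [hA]
    split_ifs with hξδ
    · rw [← Real.exp_add]
      apply Real.exp_le_exp.2
      have h2 : ‖ξ‖ * ‖y‖ ≤ δ * (K * s) := mul_le_mul hξδ hy (norm_nonneg _) hδ0.le
      have h3 : δ * (K * s) = ε0 / 4 * s := by rw [hδ]; field_simp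
      have h4 : η1 * (C * s) = ε0 / 4 * s := by rw [hη1]; field_simp
      have h5 : 0 ≤ ‖ξ‖ ^ 2 * s := by positivity
      nlinarith
    · rw [← Real.exp_add]
      apply Real.exp_le_exp.2
      have h2 : ‖ξ‖ * ‖y‖ ≤ R * (K * s) := mul_le_mul (hFR ξ hξ) hy (norm_nonneg _) hR0.le
      have h3 := mul_le_mul_of_nonneg_right hCη hs0.le
      have h5 : 0 ≤ ‖ξ‖ ^ 2 * s := by positivity
      have h6 : 0 ≤ ε0 / 2 * s := by positivity
      nlinarith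
  refine hbound.trans ?_
  rw [Finset.sum_const, nsmul_eq_mul, ← hN]
  have h2 : N ≤ Real.exp (ε0 / 2 * s) := by
    rw [div_le_iff₀ hε0] at hsN
    have := Real.add_one_le_exp (ε0 / 2 * s)
    linarith
  calc N * Real.exp (-μ * s + ε0 / 2 * s) ≤ Real.exp (ε0 / 2 * s) *
        Real.exp (-μ * s + ε0 / 2 * s) := mul_le_mul_of_nonneg_right h2 (Real.exp_pos _).le
    _ = Real.exp (-μ * s + ε0 * s) := by rw [← Real.exp_add]; ring_nf

end Run7.h350.KP
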