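import Pool.Agent.Run7.h350.KP6

/-!
The heat semigroup on compactly supported data.
-/

open Set Filter Topology MeasureTheory
open scoped ContDiff Laplacian

namespace Run7.h350.KP

open Run7.h350

variable {n : ℕ}

/-- differentiation under the integral sign on a compact set -/
theorem hasDerivAt_integral_compact {Y : Type*} [TopologicalSpace Y] [T2Space Y] [MeasurableSpace Y]
    [OpensMeasurableSpace Y] {ν : Measure Y} [IsFiniteMeasureOnCompacts ν]
    {K : Set Y} (hK : IsCompact K) (hKm : MeasurableSet K) {F F' : ℝ → Y → ℝ} {s0 ε : ℝ}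
    (hε : 0 < ε) (hF : ∀ s ∈ Metric.ball s0 ε, ∀ z ∈ K, HasDerivAt (fun s => F s z) (F' s z) s)
    (hFc : ∀ s ∈ Metric.ball s0 ε, ContinuousOn (F s) K)
    (hF'c : ContinuousOn (fun p : ℝ × Y => F' p.1 p.2) (Metric.closedBall s0 ε ×ˢ K)) :
    HasDerivAt (fun s => ∫ z in K, F s z ∂ν) (∫ z in K, F' s0 z ∂ν) s0 := by
  have hcomp : IsCompact (Metric.closedBall s0 ε ×ˢ K) :=
    (isCompact_closedBall s0 ε).prod hK
  obtain ⟨C, hC⟩ := hcomp.exists_bound_of_continuousOn hF'c
  have hs0 : s0 ∈ Metric.ball s0 ε := Metric.mem_ball_self hε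
  have hF'0 : ContinuousOn (F' s0) K := by
    have h1 : ContinuousOn (fun z : Y => (s0, z)) K := by fun_prop
    exact hF'c.comp h1 (fun z hz => ⟨Metric.mem_closedBall_self hε.le, hz⟩)
  refine (hasDerivAt_integral_of_dominated_loc_of_deriv_le (μ := ν.restrict K)
    (bound := fun _ => C) (Metric.ball_mem_nhds s0 hε) ?_ ?_ ?_ ?_ ?_ ?_).2
  · filter_upwards [Metric.ball_mem_nhds s0 hε] with s hs
    exact (hFc s hs).aestronglyMeasurable hKm
  · exact (hFc s0 hs0).integrableOn_compact hK
  · exact hF'0.aestronglyMeasurable hKm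
  · filter_upwards [ae_restrict_mem hKm] with z hz s hs
    exact hC (s, z) ⟨Metric.ball_subset_closedBall hs, hz⟩
  · have : IsFiniteMeasure (ν.restrict K) :=
      ⟨by rw [Measure.restrict_apply_univ]; exact hK.measure_lt_top⟩
    exact integrable_const C
  · filter_upwards [ae_restrict_mem hKm] with z hz s hs
    exact hF s hs z hz

/-- the (unnormalised) heat kernel -/
noncomputable def hk (n : ℕ) (σ : ℝ) (u : EuclideanSpace ℝ (Fin n)) : ℝ :=
  Real.exp (-((n:ℝ) / 2) * Real.log σ - ‖u‖ ^ 2 / (4 * σ))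

theorem hk_pos (σ : ℝ) (u : EuclideanSpace ℝ (Fin n)) : 0 < hk n σ u := Real.exp_pos _

theorem hk_time {σ : ℝ} (hσ : 0 < σ) (u : EuclideanSpace ℝ (Fin n)) :
    HasDerivAt (fun s => hk n s u) (hk n σ u * (‖u‖ ^ 2 / (4 * σ ^ 2) - (n:ℝ) / (2 * σ))) σ := by
  unfold hk
  have h1 : HasDerivAt (fun s : ℝ => -((n:ℝ) / 2) * Real.log s - ‖u‖ ^ 2 / (4 * s))
      (-((n:ℝ) / 2) * (1 / σ) - -(‖u‖ ^ 2 / (4 * σ ^ 2))) σ := by
    have h2 : HasDerivAt (fun s : ℝ => Real.log s) (1 / σ) σ := by
      simpa using Real.hasDerivAt_log hσ.ne'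
    have h3 : HasDerivAt (fun s : ℝ => ‖u‖ ^ 2 / (4 * s)) (-(‖u‖ ^ 2 / (4 * σ ^ 2))) σ := by
      have h4 : HasDerivAt (fun s : ℝ => 4 * s) 4 σ := by
        simpa using (hasDerivAt_id σ).const_mul (4:ℝ)
      refine ((hasDerivAt_const σ (‖u‖ ^ 2)).div h4 (by positivity)).congr_deriv ?_
      field_simp
      ring
    exact (h2.const_mul _).sub h3
  refine h1.exp.congr_deriv ?_
  congr 1
  field_simp
  ring

theorem hk_space {σ : ℝ} (hσ : 0 < σ) (u : EuclideanSpace ℝ (Fin n))
    {e : EuclideanSpace ℝ (Fin n)} (he : ‖e‖ = 1) (s : ℝ) :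
    HasDerivAt (fun s => hk n σ (u + s • e))
      (hk n σ (u + s • e) * (-((inner ℝ u e + s) / (2 * σ)))) s := by
  unfold hk
  have heq : ∀ s : ℝ, ‖u + s • e‖ ^ 2 = ‖u‖ ^ 2 + 2 * inner ℝ u e * s + s ^ 2 := by
    intro s
    rw [norm_add_sq_real, inner_smul_right, norm_smul, he]
    simp only [Real.norm_eq_abs, mul_one, sq_abs]
    ring
  have h1 : HasDerivAt (fun s : ℝ => ‖u + s • e‖ ^ 2) (2 * inner ℝ u e + 2 * s) s := by
    simp_rw [heq]
    have h2 : HasDerivAt (fun s : ℝ => 2 * inner ℝ u e * s) (2 * inner ℝ u e) s := by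
      simpa using (hasDerivAt_id s).const_mul (2 * inner ℝ u e)
    have h3 : HasDerivAt (fun s : ℝ => s ^ 2) (2 * s) s := by
      simpa using hasDerivAt_pow 2 s
    exact (h2.const_add (‖u‖ ^ 2)).add h3
  have h4 := (((h1.div_const (4 * σ)).const_sub (-((n:ℝ) / 2) * Real.log σ))).exp
  refine h4.congr_deriv ?_
  congr 1
  field_simp
  ring

theorem hk_space2 {σ : ℝ} (hσ : 0 < σ) (u : EuclideanSpace ℝ (Fin n))
    {e : EuclideanSpace ℝ (Fin n)} (he : ‖e‖ = 1) (s : ℝ) :
    HasDerivAt (fun s => hk n σ (u + s • e) * (-((inner ℝ u e + s) / (2 * σ))))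
      (hk n σ (u + s • e) * ((inner ℝ u e + s) ^ 2 / (4 * σ ^ 2) - 1 / (2 * σ))) s := by
  have h1 : HasDerivAt (fun s : ℝ => -((inner ℝ u e + s) / (2 * σ))) (-(1 / (2 * σ))) s := by
    exact (((hasDerivAt_id s).const_add (inner ℝ u e)).div_const (2 * σ)).neg
  refine ((hk_space hσ u he s).mul h1).congr_deriv ?_
  field_simp
  ring

theorem hk_cont : ContinuousOn (fun p : ℝ × EuclideanSpace ℝ (Fin n) => hk n p.1 p.2)
    (Ioi 0 ×ˢ univ) := by
  unfold hk
  apply ContinuousOn.rexp
  apply ContinuousOn.sub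
  · apply ContinuousOn.mul continuousOn_const
    apply ContinuousOn.log continuousOn_fst
    intro p hp
    exact (ne_of_gt (show (0:ℝ) < p.1 from hp.1))
  · apply ContinuousOn.div (by fun_prop) (by fun_prop)
    intro p hp
    have : (0:ℝ) < p.1 := hp.1
    positivity

theorem gauss_integrable (n : ℕ) :
    Integrable (fun z : EuclideanSpace ℝ (Fin n) => Real.exp (-(1 / 4 : ℝ) * ‖z‖ ^ 2)) ∧
    0 < ∫ z : EuclideanSpace ℝ (Fin n), Real.exp (-(1 / 4 : ℝ) * ‖z‖ ^ 2) := by
  have h1 := GaussianFourier.integral_rexp_neg_mul_sq_norm (V := EuclideanSpace ℝ (Fin n))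
    (b := 1 / 4) (by norm_num)
  have h2 : 0 < ∫ z : EuclideanSpace ℝ (Fin n), Real.exp (-(1 / 4 : ℝ) * ‖z‖ ^ 2) := by
    rw [h1]; positivity
  exact ⟨Integrable.of_integral_ne_zero h2.ne', h2⟩

/-- existence of a heat flow -/
theorem heat {φ : EuclideanSpace ℝ (Fin n) → ℝ} (hφc : Continuous φ) (hφs : HasCompactSupport φ)
    (hφ0 : ∀ x, 0 ≤ φ x) {M : ℝ} (hφM : ∀ x, φ x ≤ M) :
    ∃ W : ℝ → EuclideanSpace ℝ (Fin n) → ℝ,
      Continuous (fun p : ℝ × EuclideanSpace ℝ (Fin n) => W p.1 p.2) ∧
      (∀ y, W 0 y = φ y) ∧ (∀ σ y, 0 ≤ W σ y ∧ W σ y ≤ M) ∧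
      (∀ σ > 0, ∀ y, ∃ (g1 : Fin n → ℝ → ℝ) (g2 : Fin n → ℝ),
        HasDerivAt (fun s => W s y) (∑ k, g2 k) σ ∧
        ∀ k, HasD2 (fun s => W σ (y + s • EuclideanSpace.basisFun (Fin n) ℝ k)) (g1 k) (g2 k)) ∧
      (∀ σ > 0, ∀ h ≥ 0, ∀ y, Real.exp (-((n:ℝ) * h / (2 * σ))) * W σ y ≤ W (σ + h) y) ∧
      ((∃ x, 0 < φ x) → ∀ σ > 0, ∀ y, 0 < W σ y) := by
  obtain ⟨hgi, hgp⟩ := gauss_integrable n
  obtain ⟨I, hI⟩ : ∃ I, I = ∫ z : EuclideanSpace ℝ (Fin n), Real.exp (-(1 / 4 : ℝ) * ‖z‖ ^ 2) :=
    ⟨_, rfl⟩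
  rw [← hI] at hgp
  have hM0 : 0 ≤ M := (hφ0 0).trans (hφM 0)
  obtain ⟨W, hW⟩ : ∃ W : ℝ → EuclideanSpace ℝ (Fin n) → ℝ, ∀ σ y, W σ y =
    I⁻¹ * ∫ z, Real.exp (-(1 / 4 : ℝ) * ‖z‖ ^ 2) * φ (y - Real.sqrt σ • z) :=
    ⟨_, fun _ _ => rfl⟩
  have hint : ∀ σ y, Integrable (fun z : EuclideanSpace ℝ (Fin n) =>
      Real.exp (-(1 / 4 : ℝ) * ‖z‖ ^ 2) * φ (y - Real.sqrt σ • z)) := by
    intro σ y
    refine Integrable.mono' (hgi.mul_const M) ?_ ?_
    · apply Continuous.aestronglyMeasurable
      fun_prop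
    · filter_upwards with z
      rw [Real.norm_eq_abs, abs_of_nonneg (mul_nonneg (Real.exp_pos _).le (hφ0 _))]
      exact mul_le_mul_of_nonneg_left (hφM _) (Real.exp_pos _).le
  -- representation with the kernel
  obtain ⟨K, hK⟩ : ∃ K, K = tsupport φ := ⟨_, rfl⟩
  have hKc : IsCompact K := by rw [hK]; exact hφs
  have hKm : MeasurableSet K := hKc.isClosed.measurableSet
  have hrep : ∀ σ > 0, ∀ y, W σ y = ∫ z in K, I⁻¹ * (hk n σ (y - z) * φ z) := by
    intro σ hσ y
    have hs : 0 < Real.sqrt σ := Real.sqrt_pos.2 hσ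
    have h1 : ∀ z : EuclideanSpace ℝ (Fin n), Real.exp (-(1 / 4 : ℝ) * ‖z‖ ^ 2) *
        φ (y - Real.sqrt σ • z) = (fun u => Real.exp (-(‖u‖ ^ 2 / (4 * σ))) * φ (y - u))
          (Real.sqrt σ • z) := by
      intro z
      simp only
      rw [norm_smul, Real.norm_eq_abs, abs_of_pos hs, mul_pow, Real.sq_sqrt hσ.le]
      congr 2
      field_simp
    have h2 := Measure.integral_comp_smul (volume : Measure (EuclideanSpace ℝ (Fin n)))
      (fun u => Real.exp (-(‖u‖ ^ 2 / (4 * σ))) * φ (y - u)) (Real.sqrt σ)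
    rw [hW, integral_congr_ae (Eventually.of_forall h1), h2]
    rw [← integral_sub_left_eq_self (fun u => Real.exp (-(‖u‖ ^ 2 / (4 * σ))) * φ (y - u)) _ y]
    simp only [sub_sub_cancel]
    rw [integral_const_mul]
    congr 1
    rw [setIntegral_eq_integral_of_forall_compl_eq_zero (fun z hz => by
      have : φ z = 0 := by
        by_contra hcon
        exact hz (by rw [hK]; exact subset_tsupport _ hcon)
      rw [this, mul_zero]), smul_eq_mul, ← integral_const_mul]
    apply integral_congr_ae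
    filter_upwards with z
    unfold hk
    rw [finrank_euclideanSpace_fin, abs_of_pos (by positivity), ← mul_assoc]
    congr 1
    rw [← Real.exp_log (pow_pos hs n), ← Real.exp_neg, Real.log_pow, Real.log_sqrt hσ.le,
      ← Real.exp_add]
    congr 1
    ring
  refine ⟨W, ?_, ?_, ?_, ?_, ?_, ?_⟩
  · simp_rw [hW]
    apply Continuous.mul continuous_const
    refine continuous_of_dominated (bound := fun z => Real.exp (-(1 / 4 : ℝ) * ‖z‖ ^ 2) * M)
      (fun p => (hint p.1 p.2).aestronglyMeasurable) (fun p => ?_) (hgi.mul_const M) ?_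
    · filter_upwards with z
      rw [Real.norm_eq_abs, abs_of_nonneg (mul_nonneg (Real.exp_pos _).le (hφ0 _))]
      exact mul_le_mul_of_nonneg_left (hφM _) (Real.exp_pos _).le
    · filter_upwards with z
      fun_prop
  · intro y
    rw [hW, Real.sqrt_zero]
    simp only [zero_smul, sub_zero]
    rw [integral_mul_const, ← hI]
    field_simp
  · intro σ y
    rw [hW]
    constructor
    · apply mul_nonneg (by positivity)
      exact integral_nonneg fun z => mul_nonneg (Real.exp_pos _).le (hφ0 _)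
    · rw [inv_mul_le_iff₀ hgp, hI, ← integral_mul_const]
      apply integral_mono (hint σ y) (hgi.mul_const M)
      intro z
      exact mul_le_mul_of_nonneg_left (hφM _) (Real.exp_pos _).le
  · intro σ hσ y
    have hcont1 : ∀ {X : Type} [TopologicalSpace X] {a : X → ℝ} {b : X → EuclideanSpace ℝ (Fin n)}
        {S : Set X}, ContinuousOn a S → ContinuousOn b S → (∀ x ∈ S, 0 < a x) →
        ContinuousOn (fun x => hk n (a x) (b x)) S := by
      intro X _ a b S ha hb hpos
      exact hk_cont.comp (f := fun x => (a x, b x)) (ha.prodMk hb) (fun x hx => ⟨hpos x hx, mem_univ _⟩)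
    -- time derivative
    have ht : HasDerivAt (fun s => W s y) (∫ z in K, I⁻¹ * (hk n σ (y - z) *
        (‖y - z‖ ^ 2 / (4 * σ ^ 2) - (n:ℝ) / (2 * σ)) * φ z)) σ := by
      have h1 := hasDerivAt_integral_compact (ν := volume) hKc hKm (s0 := σ) (ε := σ / 2)
        (F := fun s z => I⁻¹ * (hk n s (y - z) * φ z))
        (F' := fun s z => I⁻¹ * (hk n s (y - z) *
          (‖y - z‖ ^ 2 / (4 * s ^ 2) - (n:ℝ) / (2 * s)) * φ z)) (by positivity) ?_ ?_ ?_
      · refine h1.congr_of_eventuallyEq ?_
        filter_upwards [lt_mem_nhds hσ] with s hs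
        exact hrep s hs y
      · intro s hs z _
        rw [Metric.mem_ball, Real.dist_eq, abs_lt] at hs
        exact ((hk_time (by linarith) (y - z)).mul_const (φ z)).const_mul _
      · intro s hs
        rw [Metric.mem_ball, Real.dist_eq, abs_lt] at hs
        refine continuousOn_const.mul ((hcont1 continuousOn_const (by fun_prop)
          (fun _ _ => by linarith)).mul hφc.continuousOn)
      · have hpos : ∀ p ∈ Metric.closedBall σ (σ / 2) ×ˢ K, (0:ℝ) < p.1 := by
          intro p hp
          have := hp.1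
          rw [Metric.mem_closedBall, Real.dist_eq, abs_le] at this
          linarith
        apply continuousOn_const.mul
        apply ContinuousOn.mul
        · apply ContinuousOn.mul
          · exact hcont1 continuousOn_fst (by fun_prop) hpos
          · apply ContinuousOn.sub
            · apply ContinuousOn.div (by fun_prop) (by fun_prop)
              intro p hp; have := hpos p hp; positivity
            · apply ContinuousOn.div (by fun_prop) (by fun_prop)
              intro p hp; have := hpos p hp; positivity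
        · exact (hφc.comp continuous_snd).continuousOn
    have hsp : ∀ k : Fin n, HasD2 (fun s => W σ (y + s • EuclideanSpace.basisFun (Fin n) ℝ k))
        (fun s => ∫ z in K, I⁻¹ * (hk n σ (y - z + s • EuclideanSpace.basisFun (Fin n) ℝ k) *
          (-((inner ℝ (y - z) (EuclideanSpace.basisFun (Fin n) ℝ k) + s) / (2 * σ))) * φ z))
        (∫ z in K, I⁻¹ * (hk n σ (y - z) *
          ((inner ℝ (y - z) (EuclideanSpace.basisFun (Fin n) ℝ k)) ^ 2 / (4 * σ ^ 2) -
            1 / (2 * σ)) * φ z)) := by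
      intro k
      obtain ⟨e, he⟩ : ∃ e, e = EuclideanSpace.basisFun (Fin n) ℝ k := ⟨_, rfl⟩
      have hen : ‖e‖ = 1 := by rw [he]; simp
      rw [← he]
      constructor
      · refine Eventually.of_forall fun s0 => ?_
        have h1 := hasDerivAt_integral_compact (ν := volume) hKc hKm (s0 := s0) (ε := 1)
          (F := fun s z => I⁻¹ * (hk n σ (y - z + s • e) * φ z))
          (F' := fun s z => I⁻¹ * (hk n σ (y - z + s • e) *
            (-((inner ℝ (y - z) e + s) / (2 * σ))) * φ z)) one_pos ?_ ?_ ?_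
        · refine h1.congr_of_eventuallyEq (Eventually.of_forall fun s => ?_)
          simp only
          rw [hrep σ hσ]
          apply integral_congr_ae
          filter_upwards with z
          rw [show y + s • e - z = y - z + s • e by abel]
        · intro s _ z _
          exact ((hk_space hσ (y - z) hen s).mul_const (φ z)).const_mul _
        · intro s _
          refine continuousOn_const.mul ((hcont1 continuousOn_const (by fun_prop)
            (fun _ _ => hσ)).mul hφc.continuousOn)
        · apply continuousOn_const.mul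
          apply ContinuousOn.mul
          · apply ContinuousOn.mul
            · exact hcont1 continuousOn_const (by fun_prop) (fun _ _ => hσ)
            · apply Continuous.continuousOn
              fun_prop
          · exact (hφc.comp continuous_snd).continuousOn
      · have h1 := hasDerivAt_integral_compact (ν := volume) hKc hKm (s0 := 0) (ε := 1)
          (F := fun s z => I⁻¹ * (hk n σ (y - z + s • e) *
            (-((inner ℝ (y - z) e + s) / (2 * σ))) * φ z))
          (F' := fun s z => I⁻¹ * (hk n σ (y - z + s • e) *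
            ((inner ℝ (y - z) e + s) ^ 2 / (4 * σ ^ 2) - 1 / (2 * σ)) * φ z)) one_pos ?_ ?_ ?_
        · simpa using h1
        · intro s _ z _
          exact ((hk_space2 hσ (y - z) hen s).mul_const (φ z)).const_mul _
        · intro s _
          apply continuousOn_const.mul
          apply ContinuousOn.mul
          · apply ContinuousOn.mul
            · exact hcont1 continuousOn_const (by fun_prop) (fun _ _ => hσ)
            · apply Continuous.continuousOn
              fun_prop
          · exact hφc.continuousOn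
        · apply continuousOn_const.mul
          apply ContinuousOn.mul
          · apply ContinuousOn.mul
            · exact hcont1 continuousOn_const (by fun_prop) (fun _ _ => hσ)
            · apply Continuous.continuousOn
              fun_prop
          · exact (hφc.comp continuous_snd).continuousOn
    refine ⟨_, _, ?_, hsp⟩
    refine ht.congr_deriv ?_
    rw [← integral_finsetSum]
    · apply integral_congr_ae
      filter_upwards with z
      have h1 : ∀ k : Fin n, I⁻¹ * (hk n σ (y - z) *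
          ((inner ℝ (y - z) (EuclideanSpace.basisFun (Fin n) ℝ k)) ^ 2 / (4 * σ ^ 2) -
            1 / (2 * σ)) * φ z) = (I⁻¹ * hk n σ (y - z) * φ z) *
          ((inner ℝ (y - z) (EuclideanSpace.basisFun (Fin n) ℝ k)) ^ 2 / (4 * σ ^ 2) -
            1 / (2 * σ)) := fun k => by ring
      simp_rw [h1]
      rw [← Finset.mul_sum, Finset.sum_sub_distrib, ← Finset.sum_div, sum_inner_sq]
      simp only [Finset.sum_const, Finset.card_univ, Fintype.card_fin, nsmul_eq_mul]
      ring
    · intro k _
      apply ContinuousOn.integrableOn_compact hKc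
      apply continuousOn_const.mul
      apply ContinuousOn.mul
      · apply ContinuousOn.mul
        · exact hcont1 continuousOn_const (by fun_prop) (fun _ _ => hσ)
        · apply Continuous.continuousOn
          fun_prop
      · exact hφc.continuousOn
  · intro σ hσ h hh y
    rw [hrep σ hσ, hrep (σ + h) (by linarith), ← integral_const_mul]
    have hIci : ∀ σ > 0, IntegrableOn (fun z => I⁻¹ * (hk n σ (y - z) * φ z)) K := by
      intro σ hσ
      apply ContinuousOn.integrableOn_compact hKc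
      apply continuousOn_const.mul
      apply ContinuousOn.mul _ hφc.continuousOn
      exact hk_cont.comp (f := fun z => (σ, y - z)) (by fun_prop) (fun z _ => ⟨hσ, mem_univ _⟩)
    apply setIntegral_mono ((hIci σ hσ).const_mul _) (hIci (σ + h) (by linarith))
    intro z
    have h1 : Real.exp (-((n:ℝ) * h / (2 * σ))) * hk n σ (y - z) ≤ hk n (σ + h) (y - z) := by
      unfold hk
      rw [← Real.exp_add]
      apply Real.exp_le_exp.2
      have h2 : Real.log (σ + h) ≤ Real.log σ + h / σ := by
        have h3 : σ + h = σ * (1 + h / σ) := by field_simp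
        rw [h3, Real.log_mul hσ.ne' (by positivity)]
        have := Real.log_le_sub_one_of_pos (show 0 < 1 + h / σ by positivity)
        linarith
      have h4 : (n:ℝ) / 2 * Real.log (σ + h) ≤ (n:ℝ) / 2 * (Real.log σ + h / σ) :=
        mul_le_mul_of_nonneg_left h2 (by positivity)
      have h5 : (n:ℝ) / 2 * (h / σ) = (n:ℝ) * h / (2 * σ) := by field_simp
      have h6 : ‖y - z‖ ^ 2 / (4 * (σ + h)) ≤ ‖y - z‖ ^ 2 / (4 * σ) := by
        apply div_le_div_of_nonneg_left (by positivity) (by positivity) (by linarith)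
      nlinarith
    have h2 : 0 ≤ I⁻¹ * φ z := mul_nonneg (by positivity) (hφ0 z)
    have h3 := mul_le_mul_of_nonneg_left h1 h2
    calc Real.exp (-((n:ℝ) * h / (2 * σ))) * (I⁻¹ * (hk n σ (y - z) * φ z))
        = I⁻¹ * φ z * (Real.exp (-((n:ℝ) * h / (2 * σ))) * hk n σ (y - z)) := by ring
      _ ≤ I⁻¹ * φ z * hk n (σ + h) (y - z) := h3
      _ = I⁻¹ * (hk n (σ + h) (y - z) * φ z) := by ring
  · rintro ⟨x1, hx1⟩ σ hσ y
    rw [hW]
    apply mul_pos (by positivity)
    have hs : 0 < Real.sqrt σ := Real.sqrt_pos.2 hσ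
    have hcont : Continuous (fun z : EuclideanSpace ℝ (Fin n) =>
      Real.exp (-(1 / 4 : ℝ) * ‖z‖ ^ 2) * φ (y - Real.sqrt σ • z)) := by fun_prop
    rw [integral_pos_iff_support_of_nonneg (fun z => mul_nonneg (Real.exp_pos _).le (hφ0 _))
      (hint σ y)]
    apply IsOpen.measure_pos
    · exact hcont.isOpen_support
    · refine ⟨(1 / Real.sqrt σ) • (y - x1), ?_⟩
      rw [Function.mem_support, smul_smul, mul_one_div_cancel hs.ne', one_smul, sub_sub_cancel]
      positivity

end Run7.h350.KP
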