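import Pool.Agent.Run7.h350.KP7

/-!
Positivity and approximate time monotonicity.
-/

open Set Filter Topology
open scoped ContDiff Laplacian

namespace Run7.h350.KP

open Run7.h350

variable {n : ℕ} {f : ℝ → ℝ} {μ L : ℝ} {v : ℝ → EuclideanSpace ℝ (Fin n) → ℝ}

/-- a compactly supported cutoff -/
noncomputable def cut (x : EuclideanSpace ℝ (Fin n)) (ρ : ℝ) (z : EuclideanSpace ℝ (Fin n)) : ℝ :=
  max 0 (min 1 (2 - ‖z - x‖ / ρ))

theorem cut_cont (x : EuclideanSpace ℝ (Fin n)) (ρ : ℝ) : Continuous (cut x ρ) := by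
  unfold cut
  fun_prop

theorem cut_nonneg (x : EuclideanSpace ℝ (Fin n)) (ρ : ℝ) (z) : 0 ≤ cut x ρ z := le_max_left _ _

theorem cut_le_one (x : EuclideanSpace ℝ (Fin n)) (ρ : ℝ) (z) : cut x ρ z ≤ 1 :=
  max_le zero_le_one (min_le_left _ _)

theorem cut_eq_one {x : EuclideanSpace ℝ (Fin n)} {ρ : ℝ} (hρ : 0 < ρ) {z}
    (hz : ‖z - x‖ ≤ ρ) : cut x ρ z = 1 := by
  unfold cut
  have h1 : ‖z - x‖ / ρ ≤ 1 := by rw [div_le_one hρ]; exact hz
  rw [min_eq_left (by linarith), max_eq_right zero_le_one]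

theorem cut_eq_zero {x : EuclideanSpace ℝ (Fin n)} {ρ : ℝ} (hρ : 0 < ρ) {z}
    (hz : 2 * ρ ≤ ‖z - x‖) : cut x ρ z = 0 := by
  unfold cut
  have h1 : 2 ≤ ‖z - x‖ / ρ := by rw [le_div_iff₀ hρ]; exact hz
  rw [max_eq_left]
  exact (min_le_right _ _).trans (by linarith)

theorem cut_supp {x : EuclideanSpace ℝ (Fin n)} {ρ : ℝ} (hρ : 0 < ρ)
    (g : EuclideanSpace ℝ (Fin n) → ℝ) : HasCompactSupport (fun z => cut x ρ z * g z) := by
  apply HasCompactSupport.of_support_subset_isCompact (isCompact_closedBall x (2 * ρ))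
  intro z hz
  rw [Metric.mem_closedBall, dist_eq_norm]
  by_contra hcon
  push Not at hcon
  rw [Function.mem_support] at hz
  apply hz
  rw [cut_eq_zero hρ hcon.le, zero_mul]

/-- entire solutions which do not vanish identically at time `0` are positive. -/
theorem Ent.pos (hf : KF f μ L) (hv : Ent f v) {x0 : EuclideanSpace ℝ (Fin n)}
    (h0 : 0 < v 0 x0) : ∀ t x, 0 < v t x := by
  -- nonvanishing at all earlier times
  obtain ⟨F, hFR, hF⟩ := exists_net n (R := 2) (κ := 1) (by norm_num) one_pos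
  have hgr : ∀ x, ∃ ξ ∈ F, 1 * ‖x‖ ≤ inner ℝ ξ x := by
    intro x
    obtain ⟨ξ, hξ, h⟩ := net_growth (by norm_num) hF x
    exact ⟨ξ, hξ, by linarith⟩
  have hfwd : ∀ t1 t2, t1 ≤ t2 → (∀ x, v t1 x ≤ 0) → ∀ x, v t2 x ≤ 0 := by
    intro t1 t2 h12 hz x
    have := cmpB (a := t1) (b := t2) (L := μ) (M := 1) (Z := v) hv.cont.continuousOn
      (fun t _ x => (hv.mem t x).2) hz (fun t _ x _ => ⟨_, _, _, (hv.diff t x).hasDerivAt,
        fun k => hasD2_line (hv.smooth t).contDiffAt (EuclideanSpace.basisFun (Fin n) ℝ k), by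
          rw [← laplacian_eq_sum, hv.pde]
          linarith [hf.le _ (hv.mem t x)]⟩) t2 ⟨h12, le_rfl⟩ x
    exact this
  -- propagation of positivity
  have hprop : ∀ t1 x1, 0 < v t1 x1 → ∀ σ > 0, ∀ y, 0 < v (t1 + σ) y := by
    intro t1 x1 h1 σ hσ y
    have hφc : Continuous (fun z => cut x1 1 z * v t1 z) :=
      (cut_cont x1 1).mul (hv.continuous_t t1)
    obtain ⟨W, hWc, hW0, hWb, hWd, hWm, hWp⟩ := heat hφc (cut_supp one_pos _)
      (fun z => mul_nonneg (cut_nonneg _ _ _) (hv.mem _ _).1) (M := 1)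
      (fun z => mul_le_one₀ (cut_le_one _ _ _) (hv.mem _ _).1 (hv.mem _ _).2)
    have hWpos := hWp ⟨x1, by
      rw [cut_eq_one one_pos (by simp), one_mul]; exact h1⟩ σ hσ y
    have hcmp := cmpB (a := 0) (b := σ) (L := 0) (M := 1) (Z := fun s y => W s y - v (t1 + s) y)
      (hWc.sub (hv.cont.comp (f := fun p : ℝ × EuclideanSpace ℝ (Fin n) => (t1 + p.1, p.2))
        (by fun_prop))).continuousOn
      (fun s _ x => by linarith [(hWb s x).2, (hv.mem (t1 + s) x).1])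
      (fun x => by
        rw [hW0, add_zero]
        nlinarith [cut_le_one x1 1 x, (hv.mem t1 x).1])
      (fun s hs x _ => by
        obtain ⟨g1, g2, hd1, hd2⟩ := hWd s hs.1 x
        have h4 : HasDerivAt (fun s' : ℝ => v (t1 + s') x) (deriv (fun s => v s x) (t1 + s)) s :=
          HasDerivAt.comp_const_add (f := fun s => v s x) t1 s (hv.diff _ _).hasDerivAt
        refine ⟨_, _, _, hd1.sub h4, fun k => (hd2 k).sub (hasD2_line (hv.smooth _).contDiffAt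
          (EuclideanSpace.basisFun (Fin n) ℝ k)), ?_⟩
        rw [Finset.sum_sub_distrib, ← laplacian_eq_sum, hv.pde]
        linarith [hf.nonneg _ (hv.mem (t1 + s) x)]) σ ⟨hσ.le, le_rfl⟩ y
    linarith
  intro t x
  obtain ⟨t1, ht1⟩ : ∃ t1, t1 = min t 0 - 1 := ⟨_, rfl⟩
  have ht1t : t1 < t := by rw [ht1]; linarith [min_le_left t 0]
  have ht10 : t1 < 0 := by rw [ht1]; linarith [min_le_right t 0]
  obtain ⟨x1, hx1⟩ : ∃ x1, 0 < v t1 x1 := by
    by_contra hcon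
    push Not at hcon
    have := hfwd t1 0 ht10.le hcon x0
    linarith
  have := hprop t1 x1 hx1 (t - t1) (by linarith) x
  rwa [add_sub_cancel] at this

/-- heat flows -/
structure HFl (W : ℝ → EuclideanSpace ℝ (Fin n) → ℝ) : Prop where
  cont : Continuous (fun p : ℝ × EuclideanSpace ℝ (Fin n) => W p.1 p.2)
  nonneg : ∀ σ y, 0 ≤ W σ y
  der : ∀ σ > 0, ∀ y, ∃ (g1 : Fin n → ℝ → ℝ) (g2 : Fin n → ℝ),
        HasDerivAt (fun s => W s y) (∑ k, g2 k) σ ∧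
        ∀ k, HasD2 (fun s => W σ (y + s • EuclideanSpace.basisFun (Fin n) ℝ k)) (g1 k) (g2 k)

theorem hasDerivAt_expc (c s : ℝ) :
    HasDerivAt (fun s : ℝ => Real.exp (c * s)) (c * Real.exp (c * s)) s := by
  have h1 : HasDerivAt (fun s : ℝ => c * s) c s := by simpa using (hasDerivAt_id s).const_mul c
  exact h1.exp.congr_deriv (by ring)

theorem Ent.vd (hv : Ent f v) (t0 s : ℝ) (x : EuclideanSpace ℝ (Fin n)) :
    HasDerivAt (fun s' : ℝ => v (t0 + s') x) (deriv (fun s => v s x) (t0 + s)) s :=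
  HasDerivAt.comp_const_add (f := fun s => v s x) t0 s (hv.diff _ _).hasDerivAt

theorem Ent.vc (hv : Ent f v) (t0 : ℝ) :
    Continuous (fun p : ℝ × EuclideanSpace ℝ (Fin n) => v (t0 + p.1) p.2) :=
  hv.cont.comp (f := fun p : ℝ × EuclideanSpace ℝ (Fin n) => (t0 + p.1, p.2)) (by fun_prop)

theorem cmp_low (hv : Ent f v) {W : ℝ → EuclideanSpace ℝ (Fin n) → ℝ} (hW : HFl W)
    {b δ0 T t0 : ℝ} (hb : ∀ u ∈ Icc (0:ℝ) δ0, b * u ≤ f u)
    (hub : ∀ σ ∈ Icc (0:ℝ) T, ∀ y, Real.exp (b * σ) * W σ y ≤ δ0)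
    (hinit : ∀ y, W 0 y ≤ v t0 y) :
    ∀ σ ∈ Icc (0:ℝ) T, ∀ y, Real.exp (b * σ) * W σ y ≤ v (t0 + σ) y := by
  have hcmp := cmpB (a := 0) (b := T) (L := b) (M := δ0)
      (Z := fun s y => Real.exp (b * s) * W s y - v (t0 + s) y)
      (((by fun_prop : Continuous fun p : ℝ × EuclideanSpace ℝ (Fin n) =>
        Real.exp (b * p.1)).mul hW.cont).sub (hv.vc t0)).continuousOn
      (fun s hs y => by linarith [hub s hs y, (hv.mem (t0 + s) y).1])
      (fun y => by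
        rw [add_zero, mul_zero, Real.exp_zero, one_mul]
        linarith [hinit y]) ?_
  · intro σ hσ y
    linarith [hcmp σ hσ y]
  · intro s hs y hpos
    obtain ⟨g1, g2, hd1, hd2⟩ := hW.der s hs.1 y
    refine ⟨_, _, _, ((hasDerivAt_expc b s).mul hd1).sub (hv.vd t0 s y), fun k =>
          ((hd2 k).const_mul (Real.exp (b * s))).sub (hasD2_line (hv.smooth _).contDiffAt
          (EuclideanSpace.basisFun (Fin n) ℝ k)), ?_⟩
    rw [Finset.sum_sub_distrib, ← laplacian_eq_sum, hv.pde, ← Finset.mul_sum]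
    have h1 := hub s ⟨hs.1.le, hs.2⟩ y
    have h2 := hb (v (t0 + s) y) ⟨(hv.mem _ _).1, by linarith⟩
    obtain ⟨a, ha⟩ : ∃ a, a = Real.exp (b * s) := ⟨_, rfl⟩
    obtain ⟨c, hc⟩ : ∃ c, c = W s y := ⟨_, rfl⟩
    rw [← ha, ← hc]
    have h3 : b * a * c + a * ∑ k, g2 k - (Δ (v (t0 + s)) y + f (v (t0 + s) y)) -
        (a * ∑ k, g2 k - Δ (v (t0 + s)) y) = b * (a * c) - f (v (t0 + s) y) := by ring
    rw [h3]
    linarith


theorem cmp_up (hv : Ent f v) {W : ℝ → EuclideanSpace ℝ (Fin n) → ℝ} (hW : HFl W)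
    {F : Finset (EuclideanSpace ℝ (Fin n))} {A : EuclideanSpace ℝ (Fin n) → ℝ}
    (hA0 : ∀ ξ ∈ F, 0 ≤ A ξ) {μ T t0 : ℝ} (hb : ∀ u ∈ Icc (0:ℝ) 1, f u ≤ μ * u)
    (hinit : ∀ y, v t0 y ≤ W 0 y + ES F A (fun ξ => μ + ‖ξ‖ ^ 2) 0 y) :
    ∀ σ ∈ Icc (0:ℝ) T, ∀ y, v (t0 + σ) y ≤ Real.exp (μ * σ) * W σ y +
      ES F A (fun ξ => μ + ‖ξ‖ ^ 2) σ y := by
  obtain ⟨E2, hE2⟩ : ∃ E2 : ℝ → EuclideanSpace ℝ (Fin n) → ℝ,
    E2 = ES F A (fun ξ => μ + ‖ξ‖ ^ 2) := ⟨_, rfl⟩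
  have hEc : Continuous (fun p : ℝ × EuclideanSpace ℝ (Fin n) => E2 p.1 p.2) := by
    rw [hE2]; exact ES_cont
  have hE0 : ∀ s y, 0 ≤ E2 s y := fun s y => by rw [hE2]; exact ES_nonneg hA0 s y
  have hEt : ∀ s y, HasDerivAt (fun s => E2 s y)
      (∑ ξ ∈ F, A ξ * ((μ + ‖ξ‖ ^ 2) * Real.exp (inner ℝ ξ y + (μ + ‖ξ‖ ^ 2) * s))) s := by
    intro s y; rw [hE2]; exact ES_time s y
  have hEx : ∀ s y k, HasD2 (fun r => E2 s (y + r • EuclideanSpace.basisFun (Fin n) ℝ k))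
      (fun r => ∑ ξ ∈ F, A ξ * (inner ℝ ξ (EuclideanSpace.basisFun (Fin n) ℝ k) *
        Real.exp (inner ℝ ξ (y + r • EuclideanSpace.basisFun (Fin n) ℝ k) +
          (μ + ‖ξ‖ ^ 2) * s)))
      (∑ ξ ∈ F, A ξ * ((inner ℝ ξ (EuclideanSpace.basisFun (Fin n) ℝ k)) ^ 2 *
        Real.exp (inner ℝ ξ y + (μ + ‖ξ‖ ^ 2) * s))) := by
    intro s y k
    have := ES_space (F := F) (A := A) (b := fun ξ => μ + ‖ξ‖ ^ 2) s y
      (EuclideanSpace.basisFun (Fin n) ℝ k)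
    rw [← hE2] at this
    exact this
  have hEl : ∀ s y, ∑ ξ ∈ F, A ξ * ((μ + ‖ξ‖ ^ 2) * Real.exp (inner ℝ ξ y + (μ + ‖ξ‖ ^ 2) * s)) -
      ∑ k, ∑ ξ ∈ F, A ξ * ((inner ℝ ξ (EuclideanSpace.basisFun (Fin n) ℝ k)) ^ 2 *
        Real.exp (inner ℝ ξ y + (μ + ‖ξ‖ ^ 2) * s)) = μ * E2 s y := by
    intro s y
    have h0 := ES_lap (F := F) (A := A) (b := fun ξ => μ + ‖ξ‖ ^ 2) s y
    rw [h0, hE2]
    unfold ES
    rw [← Finset.sum_sub_distrib, Finset.mul_sum]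
    apply Finset.sum_congr rfl
    intro ξ _; ring
  rw [← hE2] at hinit ⊢
  have hc : Continuous (fun p : ℝ × EuclideanSpace ℝ (Fin n) =>
      v (t0 + p.1) p.2 - Real.exp (μ * p.1) * W p.1 p.2 - E2 p.1 p.2) := by
    apply Continuous.sub _ hEc
    apply Continuous.sub (hv.vc t0)
    exact Continuous.mul (by fun_prop) hW.cont
  have hcmp := cmpB (a := 0) (b := T) (L := μ) (M := 1)
      (Z := fun s y => v (t0 + s) y - Real.exp (μ * s) * W s y - E2 s y) hc.continuousOn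
      (fun s hs y => by
        have h2 : 0 ≤ Real.exp (μ * s) * W s y := mul_nonneg (Real.exp_pos _).le (hW.nonneg s y)
        linarith [(hv.mem (t0 + s) y).2, hE0 s y])
      (fun y => by
        rw [add_zero, mul_zero, Real.exp_zero, one_mul]
        linarith [hinit y]) ?_
  · intro σ hσ y
    linarith [hcmp σ hσ y]
  · intro s hs y hpos
    obtain ⟨g1, g2, hd1, hd2⟩ := hW.der s hs.1 y
    refine ⟨_, _, _, ((hv.vd t0 s y).fun_sub ((hasDerivAt_expc μ s).fun_mul hd1)).fun_sub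
        (hEt s y),
      fun k => ((hasD2_line (hv.smooth _).contDiffAt (EuclideanSpace.basisFun (Fin n) ℝ k)).sub
        ((hd2 k).const_mul (Real.exp (μ * s)))).sub (hEx s y k), ?_⟩
    have h2 := hEl s y
    obtain ⟨X1, hX1⟩ : ∃ X1, X1 = ∑ ξ ∈ F, A ξ * ((μ + ‖ξ‖ ^ 2) *
      Real.exp (inner ℝ ξ y + (μ + ‖ξ‖ ^ 2) * s)) := ⟨_, rfl⟩
    rw [Finset.sum_sub_distrib, Finset.sum_sub_distrib, ← laplacian_eq_sum, hv.pde,
          ← Finset.mul_sum]
    rw [← hX1] at h2 ⊢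
    have h1 := hb _ (hv.mem (t0 + s) y)
    linarith

end Run7.h350.KP
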