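import Pool.Agent.Run7.h350.KP8

/-!
Approximate time monotonicity.
-/

open Set Filter Topology
open scoped ContDiff Laplacian

namespace Run7.h350.KP

open Run7.h350

variable {n : ℕ} {f : ℝ → ℝ} {μ L : ℝ} {v : ℝ → EuclideanSpace ℝ (Fin n) → ℝ}

/-- approximate time monotonicity at large negative times -/
theorem TM (hf : KF f μ L) (hv : Ent f v)
    (hUB : ∀ K > 0, ∀ ε0 > 0, ∃ S, 1 ≤ S ∧ ∀ s ≥ S, ∀ y : EuclideanSpace ℝ (Fin n),
      ‖y‖ ≤ K * s → v (-s) y ≤ Real.exp (-μ * s + ε0 * s)) {h B K : ℝ} (hh : 0 < h) (hB : 0 < B)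
    (hK : 0 < K) :
    ∃ S, 1 ≤ S ∧ ∀ r ≥ S, ∀ x : EuclideanSpace ℝ (Fin n), ‖x‖ ≤ K * r →
      Real.exp (μ * h / 2) * (v (-r) x - Real.exp (-B * r)) ≤ v (-r + h) x := by
  have hμ := hf.μpos
  obtain ⟨ℓ, hℓ⟩ : ∃ ℓ, ℓ = 4 * (n:ℝ) / μ + 1 := ⟨_, rfl⟩
  have hℓ0 : 0 < ℓ := by rw [hℓ]; positivity
  have hnℓ : (n:ℝ) * h / (2 * ℓ) ≤ μ * h / 8 := by
    rw [div_le_div_iff₀ (by positivity) (by norm_num)]
    have h1 : μ * ℓ = 4 * n + μ := by rw [hℓ]; field_simp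
    nlinarith
  obtain ⟨η, hη⟩ : ∃ η, η = μ * h / (8 * (ℓ + h)) := ⟨_, rfl⟩
  have hη0 : 0 < η := by rw [hη]; positivity
  have hηℓ : η * (ℓ + h) = μ * h / 8 := by rw [hη]; field_simp
  obtain ⟨δ0, hδ0, hδ01, hlow⟩ := hf.low (μ - η) (by linarith)
  obtain ⟨F, hFR, hF⟩ := exists_net n (R := 2) (κ := 1) (by norm_num) one_pos
  have hgr : ∀ x, ∃ ξ ∈ F, 1 * ‖x‖ ≤ inner ℝ ξ x := by
    intro x
    obtain ⟨ξ, hξ, h⟩ := net_growth (by norm_num) hF x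
    exact ⟨ξ, hξ, by linarith⟩
  obtain ⟨M, hM⟩ : ∃ M, M = B + 1 := ⟨_, rfl⟩
  have hM0 : 0 < M := by rw [hM]; linarith
  obtain ⟨S1, hS1, hUB1⟩ := hUB (K + 2 * M) (by positivity) (μ / 2) (by positivity)
  obtain ⟨N, hN⟩ : ∃ N : ℝ, N = (F.card : ℝ) * Real.exp ((μ + 4) * ℓ) := ⟨_, rfl⟩
  have hN0 : 0 ≤ N := by rw [hN]; positivity
  obtain ⟨S3, hS3⟩ : ∃ S3, S3 = 2 * (μ * (ℓ + h) - Real.log δ0) / μ := ⟨_, rfl⟩
  refine ⟨max (max S1 N) (max 1 S3), (le_max_left _ _).trans (le_max_right _ _), ?_⟩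
  intro r hr x hx
  have hrS1 : S1 ≤ r := ((le_max_left _ _).trans (le_max_left _ _)).trans hr
  have hrN : N ≤ r := ((le_max_right _ _).trans (le_max_left _ _)).trans hr
  have hr1 : 1 ≤ r := ((le_max_left _ _).trans (le_max_right _ _)).trans hr
  have hrS3 : S3 ≤ r := ((le_max_right _ _).trans (le_max_right _ _)).trans hr
  have hr0 : 0 < r := by linarith
  obtain ⟨t0, ht0⟩ : ∃ t0, t0 = -(r + ℓ) := ⟨_, rfl⟩
  obtain ⟨ρ, hρ⟩ : ∃ ρ, ρ = M * r := ⟨_, rfl⟩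
  have hρ0 : 0 < ρ := by rw [hρ]; positivity
  obtain ⟨m, hm⟩ : ∃ m, m = Real.exp (-μ * (r + ℓ) + μ / 2 * (r + ℓ)) := ⟨_, rfl⟩
  have hm0 : 0 < m := by rw [hm]; positivity
  have hmδ : Real.exp (μ * (ℓ + h)) * m ≤ δ0 := by
    rw [hm, ← Real.exp_add, ← Real.exp_log hδ0]
    apply Real.exp_le_exp.2
    rw [hS3, div_le_iff₀ hμ] at hrS3
    nlinarith [mul_pos hμ hℓ0]
  have hφc : Continuous (fun z => cut x ρ z * v t0 z) := (cut_cont x ρ).mul (hv.continuous_t t0)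
  have hφm : ∀ z, cut x ρ z * v t0 z ≤ m := by
    intro z
    by_cases hz : 2 * ρ ≤ ‖z - x‖
    · rw [cut_eq_zero hρ0 hz, zero_mul]; exact hm0.le
    · push Not at hz
      have h1 : ‖z‖ ≤ (K + 2 * M) * (r + ℓ) := by
        have h2 : z = (z - x) + x := by abel
        have h3 : ‖z‖ ≤ ‖z - x‖ + ‖x‖ := by
          conv_lhs => rw [h2]
          exact norm_add_le _ _
        have h4 : 0 ≤ (K + 2 * M) * ℓ := by positivity
        rw [hρ] at hz
        nlinarith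
      have h2 := hUB1 (r + ℓ) (by linarith) z h1
      rw [← ht0, ← hm] at h2
      calc cut x ρ z * v t0 z ≤ 1 * v t0 z :=
            mul_le_mul_of_nonneg_right (cut_le_one _ _ _) (hv.mem _ _).1
        _ = v t0 z := one_mul _
        _ ≤ m := h2
  obtain ⟨W, hWc, hW0, hWb, hWd, hWm, hWp⟩ := heat hφc (cut_supp hρ0 _)
      (fun z => mul_nonneg (cut_nonneg _ _ _) (hv.mem _ _).1) (M := m) hφm
  have hWF : HFl W := ⟨hWc, fun σ y => (hWb σ y).1, hWd⟩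
  -- lower bound
  have hlow1 : Real.exp ((μ - η) * (ℓ + h)) * W (ℓ + h) x ≤ v (-r + h) x := by
    have hub : ∀ σ ∈ Icc (0:ℝ) (ℓ + h), ∀ y, Real.exp ((μ - η) * σ) * W σ y ≤ δ0 := by
      intro σ hσ y
      refine le_trans ?_ hmδ
      apply mul_le_mul _ (hWb σ y).2 (hWb σ y).1 (Real.exp_pos _).le
      apply Real.exp_le_exp.2
      have h1 : μ * σ ≤ μ * (ℓ + h) := mul_le_mul_of_nonneg_left hσ.2 hμ.le
      have h2 : 0 ≤ η * σ := mul_nonneg hη0.le hσ.1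
      nlinarith
    have hcmp := cmp_low hv hWF hlow hub (t0 := t0) (fun y => by
      rw [hW0]
      nlinarith [cut_le_one x ρ y, (hv.mem t0 y).1]) (ℓ + h) ⟨by linarith, le_rfl⟩ x
    have h1 : t0 + (ℓ + h) = -r + h := by rw [ht0]; ring
    rwa [h1] at hcmp
  -- upper bound
  have hup1 : v (-r) x ≤ Real.exp (μ * ℓ) * W ℓ x + Real.exp (-B * r) := by
    obtain ⟨A, hA⟩ : ∃ A : EuclideanSpace ℝ (Fin n) → ℝ, ∀ ξ, A ξ =
      Real.exp (-ρ - inner ℝ ξ x) := ⟨_, fun _ => rfl⟩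
    have hA0 : ∀ ξ ∈ F, 0 ≤ A ξ := fun ξ _ => by rw [hA]; positivity
    have hcmp := cmp_up hv hWF (A := A) (F := F) (μ := μ) (T := ℓ) (t0 := t0) hA0 hf.le
      (fun y => by
        rw [hW0]
        by_cases hy : ‖y - x‖ ≤ ρ
        · have h1 := ES_nonneg (b := fun ξ : EuclideanSpace ℝ (Fin n) => μ + ‖ξ‖ ^ 2) hA0 0 y
          rw [cut_eq_one hρ0 hy]
          linarith
        · push Not at hy
          obtain ⟨ξ, hξ, hξd⟩ := hgr (y - x)
          have h1 := ES_term (b := fun ξ : EuclideanSpace ℝ (Fin n) => μ + ‖ξ‖ ^ 2) hA0 hξ 0 y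
          rw [hA, ← Real.exp_add] at h1
          have h2 : 1 ≤ Real.exp (-ρ - inner ℝ ξ x + (inner ℝ ξ y + (μ + ‖ξ‖ ^ 2) * 0)) := by
            apply Real.one_le_exp
            rw [inner_sub_right] at hξd
            linarith
          have h3 : 0 ≤ cut x ρ y * v t0 y := mul_nonneg (cut_nonneg _ _ _) (hv.mem _ _).1
          linarith [(hv.mem t0 y).2]) ℓ ⟨hℓ0.le, le_rfl⟩ x
    have h1 : t0 + ℓ = -r := by rw [ht0]; ring
    rw [h1] at hcmp
    have h2 : ES F A (fun ξ => μ + ‖ξ‖ ^ 2) ℓ x ≤ Real.exp (-B * r) := by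
      have h3 : ES F A (fun ξ => μ + ‖ξ‖ ^ 2) ℓ x ≤ ∑ _ξ ∈ F, Real.exp (-ρ + (μ + 4) * ℓ) := by
        unfold ES
        apply Finset.sum_le_sum
        intro ξ hξ
        rw [hA, ← Real.exp_add]
        apply Real.exp_le_exp.2
        have h4 : ‖ξ‖ ^ 2 ≤ 2 ^ 2 := pow_le_pow_left₀ (norm_nonneg _) (hFR ξ hξ) 2
        have h5 : ‖ξ‖ ^ 2 * ℓ ≤ 4 * ℓ := mul_le_mul_of_nonneg_right (by linarith) hℓ0.le
        nlinarith
      refine h3.trans ?_
      rw [Finset.sum_const, nsmul_eq_mul, Real.exp_add, mul_comm (Real.exp (-ρ)), ← mul_assoc,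
        ← hN]
      have h6 : N ≤ Real.exp r := by
        have := Real.add_one_le_exp r
        linarith
      calc N * Real.exp (-ρ) ≤ Real.exp r * Real.exp (-ρ) :=
            mul_le_mul_of_nonneg_right h6 (Real.exp_pos _).le
        _ = Real.exp (-B * r) := by
            rw [← Real.exp_add, hρ, hM]; ring_nf
    linarith
  by_cases hneg : v (-r) x - Real.exp (-B * r) ≤ 0
  · exact (mul_nonpos_of_nonneg_of_nonpos (Real.exp_pos _).le hneg).trans (hv.mem _ _).1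
  · push Not at hneg
    refine le_trans ?_ hlow1
    have h1 := hWm ℓ hℓ0 h hh.le x
    have h2 : Real.exp (-(μ * ℓ)) * (v (-r) x - Real.exp (-B * r)) ≤ W ℓ x := by
      rw [Real.exp_neg, inv_mul_le_iff₀ (Real.exp_pos _)]
      linarith
    have h3 : Real.exp ((μ - η) * (ℓ + h)) * (Real.exp (-((n:ℝ) * h / (2 * ℓ))) *
        (Real.exp (-(μ * ℓ)) * (v (-r) x - Real.exp (-B * r)))) ≤
        Real.exp ((μ - η) * (ℓ + h)) * W (ℓ + h) x := by
      apply mul_le_mul_of_nonneg_left _ (Real.exp_pos _).le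
      exact (mul_le_mul_of_nonneg_left h2 (Real.exp_pos _).le).trans h1
    refine le_trans ?_ h3
    rw [← mul_assoc, ← mul_assoc, ← Real.exp_add, ← Real.exp_add]
    apply mul_le_mul_of_nonneg_right _ hneg.le
    apply Real.exp_le_exp.2
    nlinarith

end Run7.h350.KP
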