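import Pool.Agent.Run7.h350.Transl

open Set Filter Topology MeasureTheory
open scoped ContDiff Laplacian

namespace Run7.h350

variable {n N : ℕ} {Ω : Set (EuclideanSpace ℝ (Fin n))} {ρ : EuclideanSpace ℝ (Fin n) → ℝ}

/-- admissible states: bounded by `M`, `L`-Lipschitz, regular, leader positive -/
structure Adm (Ω : Set (EuclideanSpace ℝ (Fin n))) (ρ : EuclideanSpace ℝ (Fin n) → ℝ) (k : Fin N)
    (M L : ℝ) (w : Fin N → EuclideanSpace ℝ (Fin n) → ℝ)
    (Dw : Fin N → EuclideanSpace ℝ (Fin n) → (EuclideanSpace ℝ (Fin n) →L[ℝ] ℝ)) : Prop where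
  c1n : ∀ j, C1N Ω ρ (w j) (Dw j)
  mem : ∀ j, ∀ x ∈ closure Ω, w j x ∈ Icc 0 M
  lip : ∀ j, ∀ x ∈ closure Ω, ∀ y ∈ closure Ω, |w j x - w j y| ≤ L * ‖x - y‖
  pos : ∀ x ∈ closure Ω, 0 < w k x

/-- gradient part of the dissipation -/
noncomputable def gpart (A : Finset (Fin N)) (θ : EuclideanSpace ℝ (Fin n) → ℝ)
    (Dθ : EuclideanSpace ℝ (Fin n) → (EuclideanSpace ℝ (Fin n) →L[ℝ] ℝ))
    (w : Fin N → EuclideanSpace ℝ (Fin n) → ℝ)
    (Dw : Fin N → EuclideanSpace ℝ (Fin n) → (EuclideanSpace ℝ (Fin n) →L[ℝ] ℝ))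
    (x : EuclideanSpace ℝ (Fin n)) : ℝ :=
  ∑ c, ((∑ j ∈ A, xi θ Dθ w Dw x c j) ^ 2 + (∑ j ∈ A, Dw j x (ev n c)) ^ 2)

/-- reaction part of the dissipation -/
noncomputable def rpart {k : Fin N} {A : Finset (Fin N)} {d : Fin N → ℝ} (F : HFun k A d)
    (θ : EuclideanSpace ℝ (Fin n) → ℝ) (w : Fin N → EuclideanSpace ℝ (Fin n) → ℝ)
    (x : EuclideanSpace ℝ (Fin n)) : ℝ :=
  θ x ^ 3 * ((tot k A (rel θ w x) - 1) * F.Gc (rel θ w x))

/-- the dissipation -/
noncomputable def dis {k : Fin N} {A : Finset (Fin N)} {d : Fin N → ℝ} (F : HFun k A d)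
    (Ω : Set (EuclideanSpace ℝ (Fin n))) (θ : EuclideanSpace ℝ (Fin n) → ℝ)
    (Dθ : EuclideanSpace ℝ (Fin n) → (EuclideanSpace ℝ (Fin n) →L[ℝ] ℝ))
    (w : Fin N → EuclideanSpace ℝ (Fin n) → ℝ)
    (Dw : Fin N → EuclideanSpace ℝ (Fin n) → (EuclideanSpace ℝ (Fin n) →L[ℝ] ℝ)) : ℝ :=
  F.κ * (∫ x in Ω, gpart A θ Dθ w Dw x) + ∫ x in Ω, rpart F θ w x

theorem gpart_continuousOn {A : Finset (Fin N)} {θ : EuclideanSpace ℝ (Fin n) → ℝ}
    {Dθ : EuclideanSpace ℝ (Fin n) → (EuclideanSpace ℝ (Fin n) →L[ℝ] ℝ)}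
    {w : Fin N → EuclideanSpace ℝ (Fin n) → ℝ}
    {Dw : Fin N → EuclideanSpace ℝ (Fin n) → (EuclideanSpace ℝ (Fin n) →L[ℝ] ℝ)}
    (hθ : C1N Ω ρ θ Dθ) (hθ0 : ∀ x ∈ closure Ω, 0 < θ x) (hw : ∀ j, C1N Ω ρ (w j) (Dw j)) :
    ContinuousOn (gpart A θ Dθ w Dw) (closure Ω) := by
  have hrc : ContinuousOn (rel θ w) (closure Ω) := rel_continuousOn hθ.continuousOn hθ0
    fun j => (hw j).continuousOn
  have hrjc : ∀ j, ContinuousOn (fun x => rel θ w x j) (closure Ω) := fun j =>
    (continuousOn_pi.1 hrc) j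
  have hDθc : ∀ c, ContinuousOn (fun x => Dθ x (ev n c)) (closure Ω) := fun c =>
    hθ.cont.clm_apply continuousOn_const
  have hDwc : ∀ j c, ContinuousOn (fun x => Dw j x (ev n c)) (closure Ω) := fun j c =>
    (hw j).cont.clm_apply continuousOn_const
  unfold gpart
  apply continuousOn_finsetSum
  intro c _
  apply ContinuousOn.add
  · exact (continuousOn_finsetSum _ fun j _ => (hDwc j c).sub ((hrjc j).mul (hDθc c))).pow 2
  · exact (continuousOn_finsetSum _ fun j _ => hDwc j c).pow 2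

theorem rpart_continuousOn {k : Fin N} {A : Finset (Fin N)} {d : Fin N → ℝ} (F : HFun k A d)
    {θ : EuclideanSpace ℝ (Fin n) → ℝ} {w : Fin N → EuclideanSpace ℝ (Fin n) → ℝ}
    (hθ : ContinuousOn θ (closure Ω)) (hθ0 : ∀ x ∈ closure Ω, 0 < θ x)
    (hw : ∀ j, ContinuousOn (w j) (closure Ω)) : ContinuousOn (rpart F θ w) (closure Ω) := by
  have hrc : ContinuousOn (rel θ w) (closure Ω) := rel_continuousOn hθ hθ0 hw
  have hrjc : ∀ j, ContinuousOn (fun x => rel θ w x j) (closure Ω) := fun j =>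
    (continuousOn_pi.1 hrc) j
  unfold rpart
  apply (hθ.pow 3).mul
  apply ContinuousOn.mul
  · unfold tot
    exact ((hrjc k).add (continuousOn_finsetSum _ fun j _ => hrjc j)).sub continuousOn_const
  · exact F.Gc_cont.comp_continuousOn hrc

theorem dform_ge {k : Fin N} {A : Finset (Fin N)} {d : Fin N → ℝ} (F : HFun k A d)
    {θ : EuclideanSpace ℝ (Fin n) → ℝ}
    {Dθ : EuclideanSpace ℝ (Fin n) → (EuclideanSpace ℝ (Fin n) →L[ℝ] ℝ)}
    {w : Fin N → EuclideanSpace ℝ (Fin n) → ℝ}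
    {Dw : Fin N → EuclideanSpace ℝ (Fin n) → (EuclideanSpace ℝ (Fin n) →L[ℝ] ℝ)}
    {x : EuclideanSpace ℝ (Fin n)} (h0 : 0 < rel θ w x k) (h1 : ∀ j, 0 ≤ rel θ w x j) :
    F.κ * gpart A θ Dθ w Dw x ≤ dform F θ Dθ w Dw x := by
  unfold gpart dform
  rw [Finset.mul_sum]
  apply Finset.sum_le_sum
  intro c _
  have := F.form (rel θ w x) h0 h1 (xi θ Dθ w Dw x c) (Dθ x (ev n c))
  refine le_trans (le_of_eq ?_) this
  congr 3
  apply Finset.sum_congr rfl
  intro j _
  simp only [xi]; ring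

/-- **LaSalle-type compactness.** -/
theorem lasalle (hΩ : SmoothDomain Ω ρ) {k : Fin N} {A : Finset (Fin N)} {d : Fin N → ℝ}
    (F : HFun k A d) {θ : EuclideanSpace ℝ (Fin n) → ℝ}
    {Dθ : EuclideanSpace ℝ (Fin n) → (EuclideanSpace ℝ (Fin n) →L[ℝ] ℝ)}
    (hθ : C1N Ω ρ θ Dθ) (hθ0 : ∀ x ∈ closure Ω, 0 < θ x)
    (hne : ∃ x ∈ Ω, ∃ c, Dθ x (ev n c) ≠ 0) {M L : ℝ} {ε : ℝ} (hε : 0 < ε) :
    ∃ δ > 0, ∀ w Dw, Adm Ω ρ k M L w Dw → dis F Ω θ Dθ w Dw < δ →
      ∀ x ∈ closure Ω, |w k x - θ x| < ε ∧ ∀ j ∈ A, w j x < ε := by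
  by_contra hcon
  push Not at hcon
  have h1 : ∀ m : ℕ, ∃ w Dw, Adm Ω ρ k M L w Dw ∧ dis F Ω θ Dθ w Dw < 1 / ((m : ℝ) + 1) ∧
      ∃ x ∈ closure Ω, |w k x - θ x| < ε → ∃ j ∈ A, ε ≤ w j x := fun m =>
    hcon (1 / ((m : ℝ) + 1)) (by positivity)
  choose w Dw hadm hdis hbad using h1
  -- a bound for θ from below and above
  have hθc := hθ.continuousOn
  obtain ⟨x00, hx00⟩ := hΩ.connected.nonempty.mono (subset_closure (s := Ω))
  obtain ⟨xm, hxm, hxmin⟩ := hΩ.isCompact_closure.exists_isMinOn ⟨x00, hx00⟩ hθc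
  obtain ⟨θ0, hθ0e⟩ : ∃ θ0, θ0 = θ xm := ⟨_, rfl⟩
  have hθ00 : 0 < θ0 := by rw [hθ0e]; exact hθ0 xm hxm
  have hθlow : ∀ x ∈ closure Ω, θ0 ≤ θ x := fun x hx => by rw [hθ0e]; exact hxmin hx
  have hM0 : 0 ≤ M := by
    have := (hadm 0).mem k x00 hx00
    exact this.1.trans this.2
  -- subsequence
  obtain ⟨φ, hφ, g, hgc, hlimu⟩ := compact_seq (X := EuclideanSpace ℝ (Fin n)) (N := N)
    hΩ.isCompact_closure (M := M) (L := L) (fun m x j => w m j x)
    (fun m x hx j => (hadm m).mem j x hx)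
    (fun m x hx y hy j => by rw [dist_eq_norm]; exact (hadm m).lip j x hx y hy)
  have hlim : ∀ x ∈ closure Ω, ∀ j, Tendsto (fun m => w (φ m) j x) atTop (𝓝 (g x j)) := by
    intro x hx j
    have h2 := hlimu.tendsto_at hx
    exact (tendsto_pi_nhds.1 h2) j
  have hgjc : ∀ j, ContinuousOn (fun x => g x j) (closure Ω) := fun j =>
    (continuousOn_pi.1 hgc) j
  have hg0 : ∀ x ∈ closure Ω, ∀ j, g x j ∈ Icc 0 M := by
    intro x hx j
    exact isClosed_Icc.mem_of_tendsto (hlim x hx j)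
      (Eventually.of_forall fun m => (hadm (φ m)).mem j x hx)
  have hdis0 : Tendsto (fun m => dis F Ω θ Dθ (w (φ m)) (Dw (φ m))) atTop (𝓝 0) ∧
      Tendsto (fun m => ∫ x in Ω, gpart A θ Dθ (w (φ m)) (Dw (φ m)) x) atTop (𝓝 0) ∧
      Tendsto (fun m => ∫ x in Ω, rpart F θ (w (φ m)) x) atTop (𝓝 0) := by
    have hgp : ∀ m, 0 ≤ ∫ x in Ω, gpart A θ Dθ (w (φ m)) (Dw (φ m)) x := fun m => by
      apply integral_nonneg
      intro x
      exact Finset.sum_nonneg fun c _ => by positivity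
    have hrp : ∀ m, 0 ≤ ∫ x in Ω, rpart F θ (w (φ m)) x := fun m => by
      apply setIntegral_nonneg hΩ.isOpen.measurableSet
      intro x hx
      have hxc := subset_closure hx
      apply mul_nonneg (pow_nonneg (hθ0 x hxc).le 3)
      apply F.Gc_nonneg
      intro j
      exact div_nonneg ((hadm (φ m)).mem j x hxc).1 (hθ0 x hxc).le
    have hto : Tendsto (fun m : ℕ => 1 / ((φ m : ℝ) + 1)) atTop (𝓝 0) :=
      (tendsto_one_div_add_atTop_nhds_zero_nat (𝕜 := ℝ)).comp hφ.tendsto_atTop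
    have h2 : ∀ m, dis F Ω θ Dθ (w (φ m)) (Dw (φ m)) ≤ 1 / ((φ m : ℝ) + 1) := fun m =>
      (hdis (φ m)).le
    refine ⟨?_, ?_, ?_⟩
    · refine squeeze_zero (fun m => ?_) h2 hto
      exact add_nonneg (mul_nonneg F.κ_pos.le (hgp m)) (hrp m)
    · have hto2 : Tendsto (fun m : ℕ => (1 / F.κ) * (1 / ((φ m : ℝ) + 1))) atTop (𝓝 0) := by
        simpa using hto.const_mul (1 / F.κ)
      refine squeeze_zero hgp (fun m => ?_) hto2
      have h3 := h2 m
      unfold dis at h3
      have h4 := hrp m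
      rw [one_div_mul_eq_div, le_div_iff₀ F.κ_pos]
      linarith
    · refine squeeze_zero hrp (fun m => ?_) hto
      have h3 := h2 m
      unfold dis at h3
      have h4 := mul_nonneg F.κ_pos.le (hgp m)
      linarith
  obtain ⟨-, hgp0, hrp0⟩ := hdis0
  -- total relative density of the limit is one
  obtain ⟨gg, hgg⟩ : ∃ gg : Fin N → EuclideanSpace ℝ (Fin n) → ℝ, gg = fun j x => g x j := ⟨_, rfl⟩
  have hggc : ∀ j, ContinuousOn (gg j) (closure Ω) := by rw [hgg]; exact hgjc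
  have hbox : ∃ CG, ∀ w' : Fin N → EuclideanSpace ℝ (Fin n) → ℝ, ∀ x ∈ closure Ω,
      (∀ j, w' j x ∈ Icc 0 M) → |rpart F θ w' x| ≤ CG := by
    obtain ⟨C1, hC1⟩ := (isCompact_univ_pi fun _ : Fin N =>
      isCompact_Icc (a := (0:ℝ)) (b := M / θ0)).exists_bound_of_continuousOn
      (f := fun s : Fin N → ℝ => (tot k A s - 1) * F.Gc s) (by
        apply Continuous.continuousOn
        apply Continuous.mul _ F.Gc_cont
        unfold tot
        fun_prop)
    obtain ⟨C2, hC2⟩ := hΩ.isCompact_closure.exists_bound_of_continuousOn (f := fun x => θ x ^ 3)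
      (hθc.pow 3)
    refine ⟨C2 * C1, ?_⟩
    intro w' x hx hw'
    unfold rpart
    rw [abs_mul]
    apply mul_le_mul (hC2 x hx) _ (abs_nonneg _) ((norm_nonneg _).trans (hC2 x hx))
    apply hC1
    rw [Set.mem_univ_pi]
    intro j
    have h3 := hw' j
    refine ⟨div_nonneg h3.1 (hθ0 x hx).le, ?_⟩
    exact div_le_div₀ hM0 h3.2 hθ00 (hθlow x hx)
  obtain ⟨CG, hCG⟩ := hbox
  have hrlim : ∀ x ∈ closure Ω, Tendsto (fun m => rel θ (w (φ m)) x) atTop (𝓝 (rel θ gg x)) := by
    intro x hx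
    rw [tendsto_pi_nhds]
    intro j
    rw [hgg]
    exact (hlim x hx j).div_const (θ x)
  have hr0 : ∫ x in Ω, rpart F θ gg x = 0 := by
    have h3 : Tendsto (fun m => ∫ x in Ω, rpart F θ (w (φ m)) x) atTop
        (𝓝 (∫ x in Ω, rpart F θ gg x)) := by
      apply tendsto_integral_of_dominated_convergence (bound := fun _ => CG)
      · intro m
        exact ((rpart_continuousOn F hθc hθ0 fun j =>
          ((hadm (φ m)).c1n j).continuousOn).mono subset_closure).aestronglyMeasurable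
          hΩ.isOpen.measurableSet
      · exact integrableOn_const hΩ.bounded.measure_lt_top.ne
      · intro m
        filter_upwards [ae_restrict_mem hΩ.isOpen.measurableSet] with x hx
        exact hCG _ x (subset_closure hx) fun j => (hadm (φ m)).mem j x (subset_closure hx)
      · filter_upwards [ae_restrict_mem hΩ.isOpen.measurableSet] with x hx
        unfold rpart
        apply Tendsto.const_mul
        have hct : Continuous (fun s : Fin N → ℝ => (tot k A s - 1) * F.Gc s) := by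
          apply Continuous.mul _ F.Gc_cont
          unfold tot
          fun_prop
        exact (hct.tendsto _).comp (hrlim x (subset_closure hx))
    exact tendsto_nhds_unique h3 hrp0
  have hggrel : ∀ x ∈ closure Ω, ∀ j, 0 ≤ rel θ gg x j := by
    intro x hx j
    rw [hgg]
    exact div_nonneg (hg0 x hx j).1 (hθ0 x hx).le
  have htot : ∀ x ∈ Ω, tot k A (rel θ gg x) = 1 := by
    have hc := (rpart_continuousOn F hθc hθ0 hggc)
    have hnn : ∀ x ∈ Ω, 0 ≤ rpart F θ gg x := by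
      intro x hx
      exact mul_nonneg (pow_nonneg (hθ0 x (subset_closure hx)).le 3)
        (F.Gc_nonneg _ (hggrel x (subset_closure hx)))
    have hae := (setIntegral_eq_zero_iff_of_nonneg_ae
      ((ae_restrict_mem hΩ.isOpen.measurableSet).mono hnn)
      (continuous_integrableOn hΩ hc)).1 hr0
    have heq := Measure.eqOn_open_of_ae_eq hae hΩ.isOpen (hc.mono subset_closure) continuousOn_const
    intro x hx
    have h4 := heq hx
    simp only [Pi.zero_apply, rpart] at h4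
    have h5 : θ x ^ 3 ≠ 0 := (pow_pos (hθ0 x (subset_closure hx)) 3).ne'
    exact F.Gc_strict _ (hggrel x (subset_closure hx)) ((mul_eq_zero.1 h4).resolve_left h5)
  -- the sum over A is constant
  obtain ⟨W, hW⟩ : ∃ W : ℕ → EuclideanSpace ℝ (Fin n) → ℝ, W = fun m x => ∑ j ∈ A, w (φ m) j x :=
    ⟨_, rfl⟩
  have hWd : ∀ m, ∀ x ∈ Ω, HasFDerivAt (W m) (∑ j ∈ A, Dw (φ m) j x) x := by
    intro m x hx
    rw [hW]
    exact HasFDerivAt.fun_sum fun j _ => ((hadm (φ m)).c1n j).hasFDerivAt hΩ hx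
  have hWpd : ∀ m, ∀ x ∈ Ω, ∀ c, pd c (W m) x = ∑ j ∈ A, Dw (φ m) j x (ev n c) := by
    intro m x hx c
    unfold pd
    rw [(hWd m x hx).fderiv, sum_apply]
    rfl
  have hWconst := const_of_grad_tendsto hΩ.isOpen hΩ.connected hΩ.bounded (f := W)
    (g := fun x => ∑ j ∈ A, g x j) (M := A.card * M)
    (fun m => by
      apply contDiffOn_one_of_hasFDerivAt hΩ.isOpen (hWd m)
      exact continuousOn_finsetSum _ fun j _ => ((hadm (φ m)).c1n j).cont.mono subset_closure)
    (fun m => by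
      have h3 : ∀ c, ∃ C, ∀ x ∈ closure Ω, |∑ j ∈ A, Dw (φ m) j x (ev n c)| ≤ C := fun c =>
        hΩ.isCompact_closure.exists_bound_of_continuousOn
          (f := fun x => ∑ j ∈ A, Dw (φ m) j x (ev n c))
          (continuousOn_finsetSum _ fun j _ =>
            ((hadm (φ m)).c1n j).cont.clm_apply continuousOn_const)
      choose C hC using h3
      refine ⟨∑ c, |C c|, fun x hx c => ?_⟩
      rw [hWpd m x hx c]
      calc _ ≤ C c := hC c x (subset_closure hx)
        _ ≤ |C c| := le_abs_self _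
        _ ≤ ∑ c, |C c| := Finset.single_le_sum (f := fun c => |C c|)
            (fun i _ => abs_nonneg _) (Finset.mem_univ c))
    (fun m x hx => by
      rw [hW]
      calc |∑ j ∈ A, w (φ m) j x| ≤ ∑ j ∈ A, |w (φ m) j x| := Finset.abs_sum_le_sum_abs _ _
        _ ≤ ∑ _j ∈ A, M := by
            apply Finset.sum_le_sum
            intro j _
            have := (hadm (φ m)).mem j x (subset_closure hx)
            rw [abs_of_nonneg this.1]
            exact this.2
        _ = A.card * M := by simp)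
    (fun x hx => by
      rw [hW]
      exact tendsto_finsetSum _ fun j _ => hlim x (subset_closure hx) j)
    (continuousOn_finsetSum _ fun j _ => (hgjc j).mono subset_closure)
    (by
      refine squeeze_zero (fun m => integral_nonneg fun x =>
        Finset.sum_nonneg fun c _ => sq_nonneg _) (fun m => ?_) hgp0
      apply integral_mono_of_nonneg
      · exact Eventually.of_forall fun x => Finset.sum_nonneg fun c _ => sq_nonneg _
      · exact continuous_integrableOn hΩ (gpart_continuousOn hθ hθ0 (hadm (φ m)).c1n)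
      · filter_upwards [ae_restrict_mem hΩ.isOpen.measurableSet] with x hx
        unfold gpart
        apply Finset.sum_le_sum
        intro c _
        rw [hWpd m x hx c]
        linarith [sq_nonneg (∑ j ∈ A, xi θ Dθ (w (φ m)) (Dw (φ m)) x c j)])
  -- the constant vanishes
  obtain ⟨x1, hx1, c1, hc1⟩ := hne
  have hDθc : ∀ c, ContinuousOn (fun x => Dθ x (ev n c)) (closure Ω) := fun c =>
    hθ.cont.clm_apply continuousOn_const
  obtain ⟨q, hq⟩ : ∃ q : (EuclideanSpace ℝ (Fin n) → ℝ) → EuclideanSpace ℝ (Fin n) → ℝ,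
    q = fun f x => (f x / θ x) ^ 2 * (Dθ x (ev n c1)) ^ 2 := ⟨_, rfl⟩
  have hqc : ∀ f : EuclideanSpace ℝ (Fin n) → ℝ, ContinuousOn f (closure Ω) →
      ContinuousOn (q f) (closure Ω) := by
    intro f hf
    rw [hq]
    exact ((hf.div hθc fun x hx => (hθ0 x hx).ne').pow 2).mul ((hDθc c1).pow 2)
  have hWc : ∀ m, ContinuousOn (W m) (closure Ω) := by
    intro m; rw [hW]
    exact continuousOn_finsetSum _ fun j _ => ((hadm (φ m)).c1n j).continuousOn
  have hgWc : ContinuousOn (fun x => ∑ j ∈ A, g x j) (closure Ω) :=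
    continuousOn_finsetSum _ fun j _ => hgjc j
  have hWb : ∀ m, ∀ x ∈ closure Ω, |W m x| ≤ A.card * M := by
    intro m x hx
    rw [hW]
    calc |∑ j ∈ A, w (φ m) j x| ≤ ∑ j ∈ A, |w (φ m) j x| := Finset.abs_sum_le_sum_abs _ _
      _ ≤ ∑ _j ∈ A, M := by
          apply Finset.sum_le_sum
          intro j _
          have := (hadm (φ m)).mem j x hx
          rw [abs_of_nonneg this.1]
          exact this.2
      _ = A.card * M := by simp
  have hq0 : ∫ x in Ω, q (fun x => ∑ j ∈ A, g x j) x = 0 := by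
    have hqm0 : Tendsto (fun m => ∫ x in Ω, q (W m) x) atTop (𝓝 0) := by
      have hto2 : Tendsto (fun m => 2 * ∫ x in Ω, gpart A θ Dθ (w (φ m)) (Dw (φ m)) x) atTop
          (𝓝 0) := by simpa using hgp0.const_mul 2
      refine squeeze_zero (fun m => integral_nonneg fun x => by rw [hq]; positivity) (fun m => ?_) hto2
      rw [← integral_const_mul]
      apply integral_mono_of_nonneg
      · exact Eventually.of_forall fun x => by
          show 0 ≤ q (W m) x
          rw [hq]; positivity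
      · exact (continuous_integrableOn hΩ
          (gpart_continuousOn hθ hθ0 (hadm (φ m)).c1n)).const_mul 2
      · filter_upwards [ae_restrict_mem hΩ.isOpen.measurableSet] with x hx
        have h3 : (∑ j ∈ A, xi θ Dθ (w (φ m)) (Dw (φ m)) x c1 j) ^ 2
            + (∑ j ∈ A, Dw (φ m) j x (ev n c1)) ^ 2 ≤ gpart A θ Dθ (w (φ m)) (Dw (φ m)) x := by
          unfold gpart
          exact Finset.single_le_sum (f := fun c =>
            (∑ j ∈ A, xi θ Dθ (w (φ m)) (Dw (φ m)) x c j) ^ 2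
            + (∑ j ∈ A, Dw (φ m) j x (ev n c)) ^ 2) (fun i _ => by positivity) (Finset.mem_univ c1)
        have h4 : W m x / θ x * Dθ x (ev n c1) = (∑ j ∈ A, Dw (φ m) j x (ev n c1))
            - ∑ j ∈ A, xi θ Dθ (w (φ m)) (Dw (φ m)) x c1 j := by
          rw [← Finset.sum_sub_distrib, hW]
          simp only [xi, sub_sub_cancel, rel]
          rw [Finset.sum_div, Finset.sum_mul]
        rw [hq]
        have h5 : (W m x / θ x) ^ 2 * (Dθ x (ev n c1)) ^ 2 = (W m x / θ x * Dθ x (ev n c1)) ^ 2 := by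
          ring
        show (W m x / θ x) ^ 2 * (Dθ x (ev n c1)) ^ 2 ≤ 2 * gpart A θ Dθ (w (φ m)) (Dw (φ m)) x
        rw [h5, h4]
        nlinarith [sq_nonneg ((∑ j ∈ A, Dw (φ m) j x (ev n c1))
            + ∑ j ∈ A, xi θ Dθ (w (φ m)) (Dw (φ m)) x c1 j)]
    have hqlim : Tendsto (fun m => ∫ x in Ω, q (W m) x) atTop
        (𝓝 (∫ x in Ω, q (fun x => ∑ j ∈ A, g x j) x)) := by
      obtain ⟨C2, hC2⟩ := hΩ.isCompact_closure.exists_bound_of_continuousOn
        (f := fun x => (Dθ x (ev n c1)) ^ 2) ((hDθc c1).pow 2)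
      apply tendsto_integral_of_dominated_convergence
        (bound := fun _ => (A.card * M / θ0) ^ 2 * C2)
      · intro m
        exact ((hqc _ (hWc m)).mono subset_closure).aestronglyMeasurable hΩ.isOpen.measurableSet
      · exact integrableOn_const hΩ.bounded.measure_lt_top.ne
      · intro m
        filter_upwards [ae_restrict_mem hΩ.isOpen.measurableSet] with x hx
        have hxc := subset_closure hx
        rw [hq]
        simp only
        rw [norm_mul, norm_pow, Real.norm_eq_abs, abs_div, abs_of_pos (hθ0 x hxc)]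
        have h3 : |W m x| / θ x ≤ A.card * M / θ0 :=
          div_le_div₀ (by positivity) (hWb m x hxc) hθ00 (hθlow x hxc)
        have h4 : 0 ≤ |W m x| / θ x := div_nonneg (abs_nonneg _) (hθ0 x hxc).le
        exact mul_le_mul (pow_le_pow_left₀ h4 h3 2) (hC2 x hxc) (norm_nonneg _) (by positivity)
      · filter_upwards [ae_restrict_mem hΩ.isOpen.measurableSet] with x hx
        rw [hq]
        apply Tendsto.mul_const
        apply Tendsto.pow
        apply Tendsto.div_const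
        rw [hW]
        exact tendsto_finsetSum _ fun j _ => hlim x (subset_closure hx) j
    exact tendsto_nhds_unique hqlim hqm0
  have hWzero : ∑ j ∈ A, g x1 j = 0 := by
    have hae := (integral_eq_zero_iff_of_nonneg (fun x => by rw [hq]; positivity)
      (continuous_integrableOn hΩ (hqc _ hgWc))).1 hq0
    have heq := Measure.eqOn_open_of_ae_eq hae hΩ.isOpen ((hqc _ hgWc).mono subset_closure)
      continuousOn_const
    have h3 := heq hx1
    simp only [Pi.zero_apply, hq] at h3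
    have h4 : (Dθ x1 (ev n c1)) ^ 2 ≠ 0 := pow_ne_zero 2 hc1
    have h5 := (mul_eq_zero.1 h3).resolve_right h4
    have h6 := (pow_eq_zero_iff two_ne_zero).1 h5
    exact (div_eq_zero_iff.1 h6).resolve_right (hθ0 x1 (subset_closure hx1)).ne'
  have hgA : ∀ x ∈ Ω, ∀ j ∈ A, g x j = 0 := by
    intro x hx j hj
    have h3 : ∑ j ∈ A, g x j = 0 := by
      have := hWconst x hx x1 hx1
      rw [this]; exact hWzero
    exact (Finset.sum_eq_zero_iff_of_nonneg fun i _ => (hg0 x (subset_closure hx) i).1).1 h3 j hj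
  have hgk : ∀ x ∈ Ω, g x k = θ x := by
    intro x hx
    have h3 := htot x hx
    simp only [tot, rel, hgg] at h3
    rw [Finset.sum_eq_zero (fun j hj => by rw [hgA x hx j hj, zero_div]), add_zero,
      div_eq_one_iff_eq (hθ0 x (subset_closure hx)).ne'] at h3
    exact h3
  -- on the closure
  have hgAc : ∀ j ∈ A, ∀ x ∈ closure Ω, g x j = 0 := by
    intro j hj x hx
    have : EqOn (fun x => g x j) (fun _ => (0:ℝ)) (closure Ω) :=
      EqOn.of_subset_closure (fun x hx => hgA x hx j hj) (hgjc j) continuousOn_const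
        subset_closure Subset.rfl
    exact this hx
  have hgkc : ∀ x ∈ closure Ω, g x k = θ x := by
    intro x hx
    have : EqOn (fun x => g x k) θ (closure Ω) :=
      EqOn.of_subset_closure (fun x hx => hgk x hx) (hgjc k) hθc
        subset_closure Subset.rfl
    exact this hx
  rw [Metric.tendstoUniformlyOn_iff] at hlimu
  obtain ⟨m, hm⟩ := (hlimu ε hε).exists
  obtain ⟨x, hx, hxbad⟩ := hbad (φ m)
  have h3 := hm x hx
  rw [dist_pi_lt_iff hε] at h3
  have h4 := h3 k
  rw [Real.dist_eq, hgkc x hx, abs_sub_comm] at h4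
  obtain ⟨j, hj, hj2⟩ := hxbad h4
  have h5 := h3 j
  rw [Real.dist_eq, hgAc j hj x hx, abs_sub_comm, sub_zero] at h5
  linarith [le_abs_self (w (φ m) j x)]

end Run7.h350
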