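import Pool.Agent.Run7.h350.LaSalle

open Set Filter Topology MeasureTheory
open scoped ContDiff Laplacian

namespace Run7.h350

variable {n N : ℕ} {Ω : Set (EuclideanSpace ℝ (Fin n))} {ρ : EuclideanSpace ℝ (Fin n) → ℝ}

theorem exists_lower (hΩ : SmoothDomain Ω ρ) {θ : EuclideanSpace ℝ (Fin n) → ℝ}
    (hθc : ContinuousOn θ (closure Ω)) (hθ0 : ∀ x ∈ closure Ω, 0 < θ x) :
    ∃ θ0 > 0, ∀ x ∈ closure Ω, θ0 ≤ θ x := by
  obtain ⟨x00, hx00⟩ := hΩ.connected.nonempty.mono (subset_closure (s := Ω))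
  obtain ⟨xm, hxm, hxmin⟩ := hΩ.isCompact_closure.exists_isMinOn ⟨x00, hx00⟩ hθc
  exact ⟨θ xm, hθ0 xm hxm, fun x hx => hxmin hx⟩

theorem Vf_nonneg (hΩ : SmoothDomain Ω ρ) {k : Fin N} {A : Finset (Fin N)} {d : Fin N → ℝ}
    (F : HFun k A d) {θ : EuclideanSpace ℝ (Fin n) → ℝ} (hθ0 : ∀ x ∈ closure Ω, 0 < θ x)
    {M L : ℝ} {w Dw} (hw : Adm Ω ρ k M L w Dw) : 0 ≤ Vf F Ω θ w := by
  apply setIntegral_nonneg hΩ.isOpen.measurableSet
  intro x hx
  have hxc := subset_closure hx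
  apply mul_nonneg (sq_nonneg _)
  have h1 : 0 < rel θ w x k := div_pos (hw.pos x hxc) (hθ0 x hxc)
  have h2 : ∀ j, 0 ≤ rel θ w x j := fun j => div_nonneg (hw.mem j x hxc).1 (hθ0 x hxc).le
  exact (F.Hb_nonneg _ h2).trans (F.Hb_le _ h1 h2)

/-- the functional is small near the equilibrium. -/
theorem Vf_small (hΩ : SmoothDomain Ω ρ) {k : Fin N} {A : Finset (Fin N)} {d : Fin N → ℝ}
    (F : HFun k A d) {θ : EuclideanSpace ℝ (Fin n) → ℝ}
    (hθc : ContinuousOn θ (closure Ω)) (hθ0 : ∀ x ∈ closure Ω, 0 < θ x)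
    {M L : ℝ} {ε : ℝ} (hε : 0 < ε) :
    ∃ δ > 0, ∀ w Dw, Adm Ω ρ k M L w Dw →
      (∀ x ∈ closure Ω, |w k x - θ x| < δ ∧ ∀ j ∈ A, w j x < δ) → Vf F Ω θ w < ε := by
  by_contra hcon
  push Not at hcon
  obtain ⟨θ0, hθ00, hθlow⟩ := exists_lower hΩ hθc hθ0
  have h1 : ∀ m : ℕ, ∃ w Dw, Adm Ω ρ k M L w Dw ∧
      (∀ x ∈ closure Ω, |w k x - θ x| < θ0 / 2 / ((m : ℝ) + 1) ∧
        ∀ j ∈ A, w j x < θ0 / 2 / ((m : ℝ) + 1)) ∧ ε ≤ Vf F Ω θ w := fun m =>
    hcon (θ0 / 2 / ((m : ℝ) + 1)) (by positivity)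
  choose w Dw hadm hclose hbad using h1
  have hM0 : 0 ≤ M := by
    obtain ⟨x00, hx00⟩ := hΩ.connected.nonempty.mono (subset_closure (s := Ω))
    have := (hadm 0).mem k x00 hx00
    exact this.1.trans this.2
  obtain ⟨φ, hφ, g, hgc, hlimu⟩ := compact_seq (X := EuclideanSpace ℝ (Fin n)) (N := N)
    hΩ.isCompact_closure (M := M) (L := L) (fun m x j => w m j x)
    (fun m x hx j => (hadm m).mem j x hx)
    (fun m x hx y hy j => by rw [dist_eq_norm]; exact (hadm m).lip j x hx y hy)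
  have hlim : ∀ x ∈ closure Ω, ∀ j, Tendsto (fun m => w (φ m) j x) atTop (𝓝 (g x j)) := by
    intro x hx j
    have h2 := hlimu.tendsto_at hx
    exact (tendsto_pi_nhds.1 h2) j
  have hg0 : ∀ x ∈ closure Ω, ∀ j, g x j ∈ Icc 0 M := by
    intro x hx j
    exact isClosed_Icc.mem_of_tendsto (hlim x hx j)
      (Eventually.of_forall fun m => (hadm (φ m)).mem j x hx)
  have hto : Tendsto (fun m : ℕ => θ0 / 2 / ((φ m : ℝ) + 1)) atTop (𝓝 0) := by
    have h2 := ((tendsto_one_div_add_atTop_nhds_zero_nat (𝕜 := ℝ)).comp hφ.tendsto_atTop).const_mul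
      (θ0 / 2)
    simp only [mul_zero] at h2
    refine h2.congr fun m => ?_
    simp only [Function.comp]
    ring
  have hgk : ∀ x ∈ closure Ω, g x k = θ x := by
    intro x hx
    have h2 : Tendsto (fun m => |w (φ m) k x - θ x|) atTop (𝓝 |g x k - θ x|) :=
      ((hlim x hx k).sub_const _).abs
    have h3 : |g x k - θ x| ≤ 0 := le_of_tendsto_of_tendsto' h2 hto
      fun m => ((hclose (φ m) x hx).1).le
    have h4 := abs_nonpos_iff.1 h3
    linarith
  have hgA : ∀ x ∈ closure Ω, ∀ j ∈ A, g x j = 0 := by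
    intro x hx j hj
    have h3 : g x j ≤ 0 := le_of_tendsto_of_tendsto' (hlim x hx j) hto
      fun m => ((hclose (φ m) x hx).2 j hj).le
    exact le_antisymm h3 (hg0 x hx j).1
  obtain ⟨gg, hgg⟩ : ∃ gg : Fin N → EuclideanSpace ℝ (Fin n) → ℝ, gg = fun j x => g x j := ⟨_, rfl⟩
  have hrlim : ∀ x ∈ closure Ω, Tendsto (fun m => rel θ (w (φ m)) x) atTop (𝓝 (rel θ gg x)) := by
    intro x hx
    rw [tendsto_pi_nhds]
    intro j
    rw [hgg]
    exact (hlim x hx j).div_const (θ x)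
  have hggk : ∀ x ∈ closure Ω, rel θ gg x k = 1 := by
    intro x hx
    simp only [rel, hgg]
    rw [hgk x hx, div_self (hθ0 x hx).ne']
  have hggnn : ∀ x ∈ closure Ω, ∀ j, 0 ≤ rel θ gg x j := by
    intro x hx j
    rw [hgg]
    exact div_nonneg (hg0 x hx j).1 (hθ0 x hx).le
  have hH0 : ∀ x ∈ closure Ω, F.H (rel θ gg x) = 0 := by
    intro x hx
    apply F.H_zero _ (hggnn x hx) (hggk x hx)
    intro j hj
    simp only [rel, hgg]
    rw [hgA x hx j hj, zero_div]
  -- compact box where H is bounded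
  obtain ⟨B, hB⟩ : ∃ B : Set (Fin N → ℝ), B = (Set.pi univ fun _ : Fin N =>
    Icc (0:ℝ) (M / θ0)) ∩ {s | 1 / 2 ≤ s k} := ⟨_, rfl⟩
  have hBc : IsCompact B := by
    rw [hB]
    apply (isCompact_univ_pi fun _ => isCompact_Icc).inter_right
    exact isClosed_le continuous_const (continuous_apply k)
  have hBU : B ⊆ F.U := by
    rw [hB]
    rintro s ⟨hs1, hs2⟩
    rw [Set.mem_univ_pi] at hs1
    have hs3 : 1 / 2 ≤ s k := hs2
    exact F.dom s (by linarith) fun j => (hs1 j).1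
  obtain ⟨C1, hC1⟩ := hBc.exists_bound_of_continuousOn (F.H_cont.mono hBU)
  obtain ⟨C2, hC2⟩ := hΩ.isCompact_closure.exists_bound_of_continuousOn (f := fun x => θ x ^ 2)
    (hθc.pow 2)
  have hmemB : ∀ m, ∀ x ∈ closure Ω, rel θ (w m) x ∈ B := by
    intro m x hx
    rw [hB]
    constructor
    · rw [Set.mem_univ_pi]
      intro j
      have h3 := (hadm m).mem j x hx
      exact ⟨div_nonneg h3.1 (hθ0 x hx).le, div_le_div₀ hM0 h3.2 hθ00 (hθlow x hx)⟩
    · show 1 / 2 ≤ rel θ (w m) x k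
      have h3 := (hclose m x hx).1
      have h4 : θ0 / 2 / ((m : ℝ) + 1) ≤ θ0 / 2 := by
        apply div_le_self (by positivity)
        have : (0:ℝ) ≤ m := Nat.cast_nonneg m
        linarith
      have h5 := (abs_lt.1 h3).1
      have h6 := hθlow x hx
      simp only [rel]
      rw [le_div_iff₀ (hθ0 x hx)]
      linarith
  have hlimV : Tendsto (fun m => Vf F Ω θ (w (φ m))) atTop (𝓝 (∫ x in Ω, θ x ^ 2 * F.H (rel θ gg x))) := by
    apply tendsto_integral_of_dominated_convergence (bound := fun _ => C2 * C1)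
    · intro m
      have hrc := rel_continuousOn hθc hθ0 fun j => ((hadm (φ m)).c1n j).continuousOn
      have h3 : ContinuousOn (fun x => θ x ^ 2 * F.H (rel θ (w (φ m)) x)) (closure Ω) :=
        (hθc.pow 2).mul (F.H_cont.comp hrc fun x hx => hBU (hmemB (φ m) x hx))
      exact (h3.mono subset_closure).aestronglyMeasurable hΩ.isOpen.measurableSet
    · exact integrableOn_const hΩ.bounded.measure_lt_top.ne
    · intro m
      filter_upwards [ae_restrict_mem hΩ.isOpen.measurableSet] with x hx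
      have hxc := subset_closure hx
      rw [norm_mul]
      exact mul_le_mul (hC2 x hxc) (hC1 _ (hmemB (φ m) x hxc)) (norm_nonneg _)
        ((norm_nonneg _).trans (hC2 x hxc))
    · filter_upwards [ae_restrict_mem hΩ.isOpen.measurableSet] with x hx
      have hxc := subset_closure hx
      apply Tendsto.const_mul
      have hgU : rel θ gg x ∈ F.U := F.dom _ (by rw [hggk x hxc]; exact one_pos) (hggnn x hxc)
      have h3 : ContinuousAt F.H (rel θ gg x) := (F.dH _ hgU).continuousAt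
      exact h3.tendsto.comp (hrlim x hxc)
  have hz : ∫ x in Ω, θ x ^ 2 * F.H (rel θ gg x) = 0 := by
    apply setIntegral_eq_zero_of_forall_eq_zero
    intro x hx
    rw [hH0 x (subset_closure hx), mul_zero]
  rw [hz] at hlimV
  have h5 : ε ≤ 0 := ge_of_tendsto' hlimV fun m => hbad (φ m)
  linarith

/-- small functional implies closeness to the equilibrium -/
theorem close_of_Vf_small (hΩ : SmoothDomain Ω ρ) {k : Fin N} {A : Finset (Fin N)} {d : Fin N → ℝ}
    (F : HFun k A d) {θ : EuclideanSpace ℝ (Fin n) → ℝ}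
    (hθc : ContinuousOn θ (closure Ω)) (hθ0 : ∀ x ∈ closure Ω, 0 < θ x)
    {M L : ℝ} {ε : ℝ} (hε : 0 < ε) :
    ∃ δ > 0, ∀ w Dw, Adm Ω ρ k M L w Dw → Vf F Ω θ w < δ →
      ∀ x ∈ closure Ω, |w k x - θ x| < ε ∧ ∀ j ∈ A, w j x < ε := by
  by_contra hcon
  push Not at hcon
  obtain ⟨θ0, hθ00, hθlow⟩ := exists_lower hΩ hθc hθ0
  have h1 : ∀ m : ℕ, ∃ w Dw, Adm Ω ρ k M L w Dw ∧ Vf F Ω θ w < 1 / ((m : ℝ) + 1) ∧
      ∃ x ∈ closure Ω, |w k x - θ x| < ε → ∃ j ∈ A, ε ≤ w j x := fun m =>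
    hcon (1 / ((m : ℝ) + 1)) (by positivity)
  choose w Dw hadm hV hbad using h1
  have hM0 : 0 ≤ M := by
    obtain ⟨x00, hx00⟩ := hΩ.connected.nonempty.mono (subset_closure (s := Ω))
    have := (hadm 0).mem k x00 hx00
    exact this.1.trans this.2
  obtain ⟨φ, hφ, g, hgc, hlimu⟩ := compact_seq (X := EuclideanSpace ℝ (Fin n)) (N := N)
    hΩ.isCompact_closure (M := M) (L := L) (fun m x j => w m j x)
    (fun m x hx j => (hadm m).mem j x hx)
    (fun m x hx y hy j => by rw [dist_eq_norm]; exact (hadm m).lip j x hx y hy)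
  have hlim : ∀ x ∈ closure Ω, ∀ j, Tendsto (fun m => w (φ m) j x) atTop (𝓝 (g x j)) := by
    intro x hx j
    have h2 := hlimu.tendsto_at hx
    exact (tendsto_pi_nhds.1 h2) j
  have hgjc : ∀ j, ContinuousOn (fun x => g x j) (closure Ω) := fun j =>
    (continuousOn_pi.1 hgc) j
  have hg0 : ∀ x ∈ closure Ω, ∀ j, g x j ∈ Icc 0 M := by
    intro x hx j
    exact isClosed_Icc.mem_of_tendsto (hlim x hx j)
      (Eventually.of_forall fun m => (hadm (φ m)).mem j x hx)
  obtain ⟨gg, hgg⟩ : ∃ gg : Fin N → EuclideanSpace ℝ (Fin n) → ℝ, gg = fun j x => g x j := ⟨_, rfl⟩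
  have hggc : ∀ j, ContinuousOn (gg j) (closure Ω) := by rw [hgg]; exact hgjc
  have hrlim : ∀ x ∈ closure Ω, Tendsto (fun m => rel θ (w (φ m)) x) atTop (𝓝 (rel θ gg x)) := by
    intro x hx
    rw [tendsto_pi_nhds]
    intro j
    rw [hgg]
    exact (hlim x hx j).div_const (θ x)
  have hggnn : ∀ x ∈ closure Ω, ∀ j, 0 ≤ rel θ gg x j := by
    intro x hx j
    rw [hgg]
    exact div_nonneg (hg0 x hx j).1 (hθ0 x hx).le
  obtain ⟨C1, hC1⟩ := (isCompact_univ_pi fun _ : Fin N =>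
      isCompact_Icc (a := (0:ℝ)) (b := M / θ0)).exists_bound_of_continuousOn
      (f := F.Hb) F.Hb_cont.continuousOn
  obtain ⟨C2, hC2⟩ := hΩ.isCompact_closure.exists_bound_of_continuousOn (f := fun x => θ x ^ 2)
    (hθc.pow 2)
  have hmemB : ∀ m, ∀ x ∈ closure Ω, rel θ (w m) x ∈ Set.pi univ fun _ : Fin N =>
      Icc (0:ℝ) (M / θ0) := by
    intro m x hx
    rw [Set.mem_univ_pi]
    intro j
    have h3 := (hadm m).mem j x hx
    exact ⟨div_nonneg h3.1 (hθ0 x hx).le, div_le_div₀ hM0 h3.2 hθ00 (hθlow x hx)⟩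
  have hcont : ∀ w' : Fin N → EuclideanSpace ℝ (Fin n) → ℝ,
      (∀ j, ContinuousOn (w' j) (closure Ω)) →
      ContinuousOn (fun x => θ x ^ 2 * F.Hb (rel θ w' x)) (closure Ω) := fun w' hw' =>
    (hθc.pow 2).mul (F.Hb_cont.comp_continuousOn (rel_continuousOn hθc hθ0 hw'))
  have hlimV : Tendsto (fun m => ∫ x in Ω, θ x ^ 2 * F.Hb (rel θ (w (φ m)) x)) atTop
      (𝓝 (∫ x in Ω, θ x ^ 2 * F.Hb (rel θ gg x))) := by
    apply tendsto_integral_of_dominated_convergence (bound := fun _ => C2 * C1)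
    · intro m
      exact ((hcont _ fun j => ((hadm (φ m)).c1n j).continuousOn).mono
        subset_closure).aestronglyMeasurable hΩ.isOpen.measurableSet
    · exact integrableOn_const hΩ.bounded.measure_lt_top.ne
    · intro m
      filter_upwards [ae_restrict_mem hΩ.isOpen.measurableSet] with x hx
      have hxc := subset_closure hx
      rw [norm_mul]
      exact mul_le_mul (hC2 x hxc) (hC1 _ (hmemB (φ m) x hxc)) (norm_nonneg _)
        ((norm_nonneg _).trans (hC2 x hxc))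
    · filter_upwards [ae_restrict_mem hΩ.isOpen.measurableSet] with x hx
      exact Tendsto.const_mul _ ((F.Hb_cont.tendsto _).comp (hrlim x (subset_closure hx)))
  have hlimV0 : Tendsto (fun m => ∫ x in Ω, θ x ^ 2 * F.Hb (rel θ (w (φ m)) x)) atTop (𝓝 0) := by
    have hto : Tendsto (fun m : ℕ => 1 / ((φ m : ℝ) + 1)) atTop (𝓝 0) :=
      (tendsto_one_div_add_atTop_nhds_zero_nat (𝕜 := ℝ)).comp hφ.tendsto_atTop
    refine squeeze_zero (fun m => ?_) (fun m => ?_) hto
    · apply setIntegral_nonneg hΩ.isOpen.measurableSet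
      intro x hx
      exact mul_nonneg (sq_nonneg _) (F.Hb_nonneg _ fun j =>
        div_nonneg ((hadm (φ m)).mem j x (subset_closure hx)).1 (hθ0 x (subset_closure hx)).le)
    · refine le_trans ?_ (hV (φ m)).le
      have hrc := rel_continuousOn hθc hθ0 fun j => ((hadm (φ m)).c1n j).continuousOn
      have hrpos : ∀ x ∈ closure Ω, 0 < rel θ (w (φ m)) x k ∧ ∀ j, 0 ≤ rel θ (w (φ m)) x j :=
        fun x hx => ⟨div_pos ((hadm (φ m)).pos x hx) (hθ0 x hx),
          fun j => div_nonneg ((hadm (φ m)).mem j x hx).1 (hθ0 x hx).le⟩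
      have hHc : ContinuousOn (fun x => θ x ^ 2 * F.H (rel θ (w (φ m)) x)) (closure Ω) :=
        (hθc.pow 2).mul (F.H_cont.comp hrc fun x hx => F.dom _ (hrpos x hx).1 (hrpos x hx).2)
      apply setIntegral_mono_on (continuous_integrableOn hΩ
        (hcont _ fun j => ((hadm (φ m)).c1n j).continuousOn)) (continuous_integrableOn hΩ hHc)
        hΩ.isOpen.measurableSet
      intro x hx
      have hxc := subset_closure hx
      exact mul_le_mul_of_nonneg_left (F.Hb_le _ (hrpos x hxc).1 (hrpos x hxc).2) (sq_nonneg _)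
  have h0 := tendsto_nhds_unique hlimV hlimV0
  have hHb0 : ∀ x ∈ Ω, F.Hb (rel θ gg x) = 0 := by
    have hae := (setIntegral_eq_zero_iff_of_nonneg_ae
      ((ae_restrict_mem hΩ.isOpen.measurableSet).mono fun x hx =>
        mul_nonneg (sq_nonneg (θ x)) (F.Hb_nonneg _ (hggnn x (subset_closure hx))))
      (continuous_integrableOn hΩ (hcont gg hggc))).1 h0
    have heq := Measure.eqOn_open_of_ae_eq hae hΩ.isOpen ((hcont gg hggc).mono subset_closure)
      continuousOn_const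
    intro x hx
    have h4 := heq hx
    simp only [Pi.zero_apply] at h4
    exact (mul_eq_zero.1 h4).resolve_left (pow_pos (hθ0 x (subset_closure hx)) 2).ne'
  have hgk : ∀ x ∈ Ω, g x k = θ x := by
    intro x hx
    have h3 := (F.Hb_strict _ (hggnn x (subset_closure hx)) (hHb0 x hx)).1
    simp only [rel, hgg] at h3
    rwa [div_eq_one_iff_eq (hθ0 x (subset_closure hx)).ne'] at h3
  have hgA : ∀ x ∈ Ω, ∀ j ∈ A, g x j = 0 := by
    intro x hx j hj
    have h3 := (F.Hb_strict _ (hggnn x (subset_closure hx)) (hHb0 x hx)).2 j hj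
    simp only [rel, hgg] at h3
    exact (div_eq_zero_iff.1 h3).resolve_right (hθ0 x (subset_closure hx)).ne'
  -- on the closure
  have hgAc : ∀ j ∈ A, ∀ x ∈ closure Ω, g x j = 0 := by
    intro j hj x hx
    have : EqOn (fun x => g x j) (fun _ => (0:ℝ)) (closure Ω) :=
      EqOn.of_subset_closure (fun x hx => hgA x hx j hj) (hgjc j) continuousOn_const
        subset_closure Subset.rfl
    exact this hx
  have hgkc : ∀ x ∈ closure Ω, g x k = θ x := by
    intro x hx
    have : EqOn (fun x => g x k) θ (closure Ω) :=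
      EqOn.of_subset_closure (fun x hx => hgk x hx) (hgjc k) hθc
        subset_closure Subset.rfl
    exact this hx
  rw [Metric.tendstoUniformlyOn_iff] at hlimu
  obtain ⟨m, hm⟩ := (hlimu ε hε).exists
  obtain ⟨x, hx, hxbad⟩ := hbad (φ m)
  have h3 := hm x hx
  rw [dist_pi_lt_iff hε] at h3
  have h4 := h3 k
  rw [Real.dist_eq, hgkc x hx, abs_sub_comm] at h4
  obtain ⟨j, hj, hj2⟩ := hxbad h4
  have h5 := h3 j
  rw [Real.dist_eq, hgAc j hj x hx, abs_sub_comm, sub_zero] at h5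
  linarith [le_abs_self (w (φ m) j x)]

end Run7.h350
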