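import Pool.Agent.Run7.h350.Spread

open Set Filter Topology MeasureTheory
open scoped ContDiff Laplacian

namespace Run7.h350

variable {n : ℕ} {Ω : Set (EuclideanSpace ℝ (Fin n))} {ρ : EuclideanSpace ℝ (Fin n) → ℝ}

/-- the concave modulus -/
noncomputable def psi (r0 r : ℝ) : ℝ := r - r ^ 2 / (2 * r0)

theorem psi_ge {r0 r : ℝ} (h0 : 0 < r0) (hr : 0 ≤ r) (hr0 : r ≤ r0) : r / 2 ≤ psi r0 r := by
  unfold psi
  have h1 : r ^ 2 / (2 * r0) ≤ r / 2 := by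
    rw [div_le_div_iff₀ (by positivity) (by norm_num)]
    nlinarith
  linarith

theorem psi_le {r0 r : ℝ} (h0 : 0 < r0) : psi r0 r ≤ r := by
  unfold psi
  have : 0 ≤ r ^ 2 / (2 * r0) := by positivity
  linarith

theorem psi_hasDerivAt (r0 r : ℝ) : HasDerivAt (psi r0) (1 - r / r0) r := by
  unfold psi
  have h1 : HasDerivAt (fun r : ℝ => r ^ 2) (2 * r) r := by simpa using hasDerivAt_pow 2 r
  have h2 := (hasDerivAt_id r).sub (h1.div_const (2 * r0))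
  exact h2.congr_deriv (by ring)

theorem norm_hasFDerivAt {x y : EuclideanSpace ℝ (Fin n)} (hxy : 0 < ‖x - y‖) :
    HasFDerivAt (fun z => ‖z - y‖) ((1 / ‖x - y‖) • innerSL ℝ (x - y)) x := by
  have h1 : HasFDerivAt (fun z => ‖z - y‖ ^ 2) (2 • innerSL ℝ (x - y)) x := by
    have := ((hasFDerivAt_id x).sub_const y).norm_sq
    simpa using this
  have h2 := h1.sqrt (by positivity)
  have h3 : (fun z => √(‖z - y‖ ^ 2)) = fun z => ‖z - y‖ := by
    ext z; exact Real.sqrt_sq (norm_nonneg _)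
  rw [h3, Real.sqrt_sq (norm_nonneg _)] at h2
  have h4 : (1 / (2 * ‖x - y‖)) • (2 • (innerSL ℝ) (x - y)) = (1 / ‖x - y‖) • innerSL ℝ (x - y) := by
    ext w
    simp only [smul_apply, smul_eq_mul, nsmul_eq_mul]
    push_cast
    field_simp
  rw [h4] at h2
  exact h2

/-- the penalty in one variable has positive outward derivative at the boundary. -/
theorem penalty_boundary (hΩ : SmoothDomain Ω ρ) {κ r0 : ℝ} (hκ : 0 < κ) (hr0 : 0 < r0)
    {x y : EuclideanSpace ℝ (Fin n)} (hg : 0 < ‖gradient ρ x‖)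
    (hbd : ‖x - y‖ ^ 2 ≤ 2 * fderiv ℝ ρ x (x - y) + κ * ‖x - y‖ ^ 2 * ‖gradient ρ x‖ ^ 2)
    (hxy : 0 < ‖x - y‖) (hxyr : ‖x - y‖ ≤ r0) :
    ∃ G : EuclideanSpace ℝ (Fin n) →L[ℝ] ℝ,
      HasFDerivAt (fun z => wt κ ρ z * psi r0 ‖z - y‖) G x ∧ 0 < G (gradient ρ x) := by
  have h1 : HasFDerivAt (wt κ ρ) (fderiv ℝ (wt κ ρ) x) x :=
    ((wt_contDiff hΩ κ).differentiable (by simp) x).hasFDerivAt
  have h2 := (psi_hasDerivAt r0 ‖x - y‖).comp_hasFDerivAt x (norm_hasFDerivAt hxy)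
  refine ⟨_, h1.mul h2, ?_⟩
  have hw : 0 < wt κ ρ x := Real.exp_pos _
  simp only [add_apply, smul_apply, smul_eq_mul, innerSL_apply_apply, wt_fderiv hΩ]
  rw [fderiv_eq_inner x (gradient ρ x), real_inner_self_eq_norm_sq,
    real_inner_comm (gradient ρ x) (x - y), ← fderiv_eq_inner]
  set r := ‖x - y‖ with hr
  set F := fderiv ℝ ρ x (x - y) with hF
  set N := ‖gradient ρ x‖ with hN
  have hψ' : 0 ≤ 1 - r / r0 := by
    rw [sub_nonneg, div_le_one hr0]; exact hxyr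
  have h3 : (r - κ * r * N ^ 2) / 2 ≤ 1 / r * F := by
    rw [div_mul_eq_mul_div, le_div_iff₀ hxy]
    nlinarith
  have h4 : (1 - r / r0) * ((r - κ * r * N ^ 2) / 2) ≤ (1 - r / r0) * (1 / r * F) :=
    mul_le_mul_of_nonneg_left h3 hψ'
  have h5 : psi r0 r = r / 2 + (1 - r / r0) * (r / 2) := by
    unfold psi; field_simp; ring
  have h6 : 0 < κ * N ^ 2 * (r / 2) := by positivity
  have h7 : 0 ≤ (1 - r / r0) * (r / 2) := by positivity
  have h8 : 0 < (1 - r / r0) * (1 / r * F) + psi r0 r * (κ * N ^ 2) := by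
    rw [h5]
    nlinarith
  have h9 : wt κ ρ x * ((1 - r / r0) * (1 / r * F)) + psi r0 r * (wt κ ρ x * (κ * N ^ 2))
    = wt κ ρ x * ((1 - r / r0) * (1 / r * F) + psi r0 r * (κ * N ^ 2)) := by ring
  rw [h9]
  positivity

/-- real arithmetic at an interior maximum of the doubled function. -/
theorem real_double {d M B em A g r0 Ew psr LX LY vX vY V1 V2 : ℝ} (hd : 0 < d)
    (hB : 0 ≤ B) (hem : 0 < em) (hr0 : 0 < r0)
    (hg : 1 / 2 ≤ g) (hA : (2 * B + M) * r0 / (d * em ^ 2) < A)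
    (hlap : LX - LY ≤ -(A * g * (2 * em ^ 2 / r0)))
    (htime : 0 ≤ vX - vY + A * g ^ 2 * (Ew * psr))
    (hX : |vX - d * LX| ≤ B) (hY : |vY - d * LY| ≤ B)
    (hpos : A * g * (Ew * psr) < V1 - V2) (hV : V1 - V2 ≤ 2 * M) : False := by
  have hX' := (abs_le.1 hX).2
  have hY' := (abs_le.1 hY).1
  have hg0 : 0 < g := by linarith
  have h1 : A * g ^ 2 * (Ew * psr) ≤ g * (2 * M) := by
    have : A * g ^ 2 * (Ew * psr) = g * (A * g * (Ew * psr)) := by ring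
    rw [this]
    exact mul_le_mul_of_nonneg_left (hpos.le.trans hV) hg0.le
  have h2 : d * (LX - LY) ≤ d * (-(A * g * (2 * em ^ 2 / r0))) :=
    mul_le_mul_of_nonneg_left hlap hd.le
  rw [div_lt_iff₀ (by positivity)] at hA
  have h3 : 2 * (2 * B + M) < d * A * (2 * em ^ 2 / r0) := by
    rw [mul_div_assoc', lt_div_iff₀ hr0]
    nlinarith
  have h4 : g * (2 * (2 * B + M)) < g * (d * A * (2 * em ^ 2 / r0)) :=
    mul_lt_mul_of_pos_left h3 hg0
  have h5 : 2 * B ≤ g * (4 * B) := by nlinarith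
  nlinarith

/-- second derivative along the coupled direction -/
theorem coupled_second (hΩ : SmoothDomain Ω ρ) {κ r0 c : ℝ} {x y e e' : EuclideanSpace ℝ (Fin n)}
    {f : EuclideanSpace ℝ (Fin n) → ℝ} (hfx : ContDiffAt ℝ 2 f x) (hfy : ContDiffAt ℝ 2 f y)
    {u : EuclideanSpace ℝ (Fin n)} {r nk : ℝ} (hr : 0 < r) (hu : ‖u‖ = 1) (hxy : x - y = r • u)
    (hee : e - e' = (2 * nk) • u)
    (hmax : ∀ᶠ s in 𝓝 (0 : ℝ),
      f (x + s • e) - f (y + s • e')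
        - c * (wt κ ρ (x + s • e) * wt κ ρ (y + s • e') * psi r0 ‖x + s • e - (y + s • e')‖)
      ≤ f x - f y - c * (wt κ ρ x * wt κ ρ y * psi r0 ‖x - y‖)) :
    iteratedFDeriv ℝ 2 f x ![e, e] - iteratedFDeriv ℝ 2 f y ![e', e']
      - c * ((iteratedFDeriv ℝ 2 (wt κ ρ) x ![e, e] * wt κ ρ y
          + 2 * (fderiv ℝ (wt κ ρ) x e * fderiv ℝ (wt κ ρ) y e')
          + wt κ ρ x * iteratedFDeriv ℝ 2 (wt κ ρ) y ![e', e']) * psi r0 r
        + 2 * ((fderiv ℝ (wt κ ρ) x e * wt κ ρ y + wt κ ρ x * fderiv ℝ (wt κ ρ) y e')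
          * ((1 - r / r0) * (2 * nk)))
        + wt κ ρ x * wt κ ρ y * (-(4 * nk ^ 2 / r0))) ≤ 0 := by
  have hw2 : ∀ z, ContDiffAt ℝ 2 (wt κ ρ) z := fun z =>
    ((wt_contDiff hΩ κ).contDiffAt.of_le (by norm_cast))
  have h1 := (hasD2_line hfx e).sub (hasD2_line hfy e')
  have h2 := (hasD2_line (hw2 x) e).mul (hasD2_line (hw2 y) e')
  have h3 : HasD2 (fun s : ℝ => psi r0 (r + 2 * nk * s)) (fun s => (1 - (r + 2 * nk * s) / r0) * (2 * nk))
      (-(4 * nk ^ 2 / r0)) := by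
    have hl : ∀ s : ℝ, HasDerivAt (fun s : ℝ => r + 2 * nk * s) (2 * nk) s := by
      intro s
      have := ((hasDerivAt_id s).const_mul (2 * nk)).const_add r
      exact this.congr_deriv (by ring)
    constructor
    · refine Eventually.of_forall fun s => ?_
      exact (psi_hasDerivAt r0 (r + 2 * nk * s)).comp s (hl s)
    · have h4 : HasDerivAt (fun s : ℝ => 1 - (r + 2 * nk * s) / r0) (-(2 * nk / r0)) 0 := by
        have := ((hl 0).div_const r0).const_sub 1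
        exact this
      exact (h4.mul_const (2 * nk)).congr_deriv (by ring)
  have h5 := h1.sub ((h2.mul h3).const_mul c)
  have hev : ∀ᶠ s in 𝓝 (0:ℝ), 0 < r + 2 * nk * s := by
    have : Continuous (fun s : ℝ => r + 2 * nk * s) := by fun_prop
    exact this.continuousAt.eventually (lt_mem_nhds (by simpa using hr))
  have hnorm : ∀ᶠ s in 𝓝 (0:ℝ), ‖x + s • e - (y + s • e')‖ = r + 2 * nk * s := by
    filter_upwards [hev] with s hs
    have h6 : x + s • e - (y + s • e') = (r + 2 * nk * s) • u := by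
      have : x + s • e - (y + s • e') = (x - y) + s • (e - e') := by
        rw [smul_sub]; abel
      rw [this, hxy, hee, smul_smul, ← add_smul]
      congr 1; ring
    rw [h6, norm_smul, hu, mul_one, Real.norm_of_nonneg hs.le]
  have hxyn : ‖x - y‖ = r := by
    rw [hxy, norm_smul, hu, mul_one, Real.norm_of_nonneg hr.le]
  have h7 := h5.nonpos_of_max (by
    filter_upwards [hmax, hnorm] with s hs hs2
    rw [hs2, hxyn] at hs
    simpa using hs)
  simpa using h7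

/-- the doubled function -/
noncomputable def Phi (v : ℝ → EuclideanSpace ℝ (Fin n) → ℝ) (κ r0 : ℝ)
    (ρ : EuclideanSpace ℝ (Fin n) → ℝ) (A a ι : ℝ) (t : ℝ)
    (x y : EuclideanSpace ℝ (Fin n)) : ℝ :=
  v t x - v t y - (A * (1 / (t - a + ι))) * (wt κ ρ x * wt κ ρ y * psi r0 ‖x - y‖)

theorem sum_coupled_bound {N : ℕ} {em B1 B2 r0 r C3 C4 X Y ψ : ℝ} (hB1 : 0 ≤ B1) (hB2 : 0 ≤ B2)
    (hX : 0 ≤ X) (hX1 : X ≤ 1) (hY : 0 ≤ Y) (hY1 : Y ≤ 1) (hXY : em ^ 2 ≤ X * Y)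
    (hr0 : 0 < r0) (hr : 0 ≤ r) (hrr : r ≤ r0) (hψ0 : 0 ≤ ψ) (hψ : ψ ≤ r)
    (hC3 : C3 = N * (2 * B2 + 2 * B1 ^ 2)) (hC4 : C4 = N * (8 * B1))
    (hr02 : C3 * r0 + C4 ≤ 2 * em ^ 2 / r0)
    (a2 b2 a1 b1 nk : Fin N → ℝ) (ha2 : ∀ k, |a2 k| ≤ B2) (hb2 : ∀ k, |b2 k| ≤ B2)
    (ha1 : ∀ k, |a1 k| ≤ B1) (hb1 : ∀ k, |b1 k| ≤ B1) (hnk : ∑ k, nk k ^ 2 = 1) :
    ∑ k, ((a2 k * Y + 2 * (a1 k * b1 k) + X * b2 k) * ψ
        + 2 * ((a1 k * Y + X * b1 k) * ((1 - r / r0) * (2 * nk k)))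
        + X * Y * (-(4 * nk k ^ 2 / r0))) ≤ -(2 * em ^ 2 / r0) := by
  have hnk1 : ∀ k, |nk k| ≤ 1 := by
    intro k
    have h1 : nk k ^ 2 ≤ ∑ k, nk k ^ 2 := Finset.single_le_sum (f := fun k => nk k ^ 2)
      (fun i _ => sq_nonneg _) (Finset.mem_univ k)
    rw [hnk] at h1
    exact (sq_le_one_iff_abs_le_one _).1 h1
  have hψ' : 0 ≤ 1 - r / r0 ∧ 1 - r / r0 ≤ 1 := by
    constructor
    · rw [sub_nonneg, div_le_one hr0]; exact hrr
    · have : 0 ≤ r / r0 := by positivity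
      linarith
  have hk : ∀ k, ((a2 k * Y + 2 * (a1 k * b1 k) + X * b2 k) * ψ
        + 2 * ((a1 k * Y + X * b1 k) * ((1 - r / r0) * (2 * nk k)))
        + X * Y * (-(4 * nk k ^ 2 / r0)))
        ≤ (2 * B2 + 2 * B1 ^ 2) * r0 + 8 * B1 - X * Y * 4 / r0 * nk k ^ 2 := by
    intro k
    have h1 : |a2 k * Y| ≤ B2 := by
      rw [abs_mul, abs_of_nonneg hY]
      calc |a2 k| * Y ≤ B2 * 1 := mul_le_mul (ha2 k) hY1 hY hB2
        _ = B2 := mul_one _
    have h2 : |X * b2 k| ≤ B2 := by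
      rw [abs_mul, abs_of_nonneg hX]
      calc X * |b2 k| ≤ 1 * B2 := mul_le_mul hX1 (hb2 k) (abs_nonneg _) zero_le_one
        _ = B2 := one_mul _
    have h3 : |a1 k * b1 k| ≤ B1 ^ 2 := by
      rw [abs_mul, sq]
      exact mul_le_mul (ha1 k) (hb1 k) (abs_nonneg _) hB1
    have h4 : (a2 k * Y + 2 * (a1 k * b1 k) + X * b2 k) ≤ 2 * B2 + 2 * B1 ^ 2 := by
      linarith [(abs_le.1 h1).2, (abs_le.1 h2).2, (abs_le.1 h3).2]
    have h5 : (a2 k * Y + 2 * (a1 k * b1 k) + X * b2 k) * ψ ≤ (2 * B2 + 2 * B1 ^ 2) * r0 := by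
      have h6 : (a2 k * Y + 2 * (a1 k * b1 k) + X * b2 k) * ψ ≤ (2 * B2 + 2 * B1 ^ 2) * ψ :=
        mul_le_mul_of_nonneg_right h4 hψ0
      have h7 : (2 * B2 + 2 * B1 ^ 2) * ψ ≤ (2 * B2 + 2 * B1 ^ 2) * r0 :=
        mul_le_mul_of_nonneg_left (hψ.trans hrr) (by positivity)
      exact h6.trans h7
    have h8 : |a1 k * Y + X * b1 k| ≤ 2 * B1 := by
      have h9 : |a1 k * Y| ≤ B1 := by
        rw [abs_mul, abs_of_nonneg hY]
        calc |a1 k| * Y ≤ B1 * 1 := mul_le_mul (ha1 k) hY1 hY hB1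
          _ = B1 := mul_one _
      have h10 : |X * b1 k| ≤ B1 := by
        rw [abs_mul, abs_of_nonneg hX]
        calc X * |b1 k| ≤ 1 * B1 := mul_le_mul hX1 (hb1 k) (abs_nonneg _) zero_le_one
          _ = B1 := one_mul _
      linarith [abs_add_le (a1 k * Y) (X * b1 k)]
    have h11 : |(1 - r / r0) * (2 * nk k)| ≤ 2 := by
      rw [abs_mul, abs_of_nonneg hψ'.1, abs_mul, abs_of_pos (by norm_num : (0:ℝ) < 2)]
      calc (1 - r / r0) * (2 * |nk k|) ≤ 1 * (2 * 1) :=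
            mul_le_mul hψ'.2 (by linarith [hnk1 k]) (by positivity) zero_le_one
        _ = 2 := by norm_num
    have h12 : (a1 k * Y + X * b1 k) * ((1 - r / r0) * (2 * nk k)) ≤ 2 * B1 * 2 := by
      apply (le_abs_self _).trans
      rw [abs_mul]
      exact mul_le_mul h8 h11 (abs_nonneg _) (by positivity)
    have h13 : X * Y * (-(4 * nk k ^ 2 / r0)) = - (X * Y * 4 / r0 * nk k ^ 2) := by ring
    rw [h13]
    linarith
  calc _ ≤ ∑ k, ((2 * B2 + 2 * B1 ^ 2) * r0 + 8 * B1 - X * Y * 4 / r0 * nk k ^ 2) :=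
        Finset.sum_le_sum fun k _ => hk k
    _ = C3 * r0 + C4 - X * Y * 4 / r0 := by
        rw [Finset.sum_sub_distrib, ← Finset.mul_sum, hnk, Finset.sum_const, Finset.card_univ,
          Fintype.card_fin, nsmul_eq_mul, hC3, hC4]
        ring
    _ ≤ -(2 * em ^ 2 / r0) := by
        have : em ^ 2 * 4 / r0 ≤ X * Y * 4 / r0 := by gcongr
        have h2 : em ^ 2 * 4 / r0 = 2 * (2 * em ^ 2 / r0) := by ring
        linarith

/-- there is no interior-in-time positive maximum of the doubled function. -/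
theorem double_interior (hΩ : SmoothDomain Ω ρ) {d M B κ r0 em B1 B2 C3 C4 A a ι t : ℝ} (hd : 0 < d)
    (hB : 0 ≤ B) (hB1 : 0 ≤ B1) (hB2 : 0 ≤ B2)
    (hem : 0 < em) (hr0 : 0 < r0) (hA0 : 0 < A)
    (hpt : ∀ x ∈ closure Ω, em ≤ wt κ ρ x ∧ wt κ ρ x ≤ 1 ∧ ‖fderiv ℝ (wt κ ρ) x‖ ≤ B1 ∧
        (∀ e : EuclideanSpace ℝ (Fin n), |iteratedFDeriv ℝ 2 (wt κ ρ) x ![e, e]| ≤ B2 * ‖e‖ ^ 2))
    (hC3 : C3 = n * (2 * B2 + 2 * B1 ^ 2)) (hC4 : C4 = n * (8 * B1))
    (hr02 : C3 * r0 + C4 ≤ 2 * em ^ 2 / r0)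
    (hA1 : (2 * B + M) * r0 / (d * em ^ 2) < A)
    {v v' : ℝ → EuclideanSpace ℝ (Fin n) → ℝ} (hv : Par Ω ρ a (a + 1) v v')
    (hbM : ∀ t ∈ Icc a (a + 1), ∀ x ∈ closure Ω, |v t x| ≤ M)
    (hbB : ∀ t ∈ Ioc a (a + 1), ∀ x ∈ Ω, |v' t x - d * Δ (v t) x| ≤ B)
    (hι : 0 < ι) (hι1 : ι ≤ 1) (ht : t ∈ Ioc a (a + 1))
    {x y : EuclideanSpace ℝ (Fin n)} (hx : x ∈ Ω) (hy : y ∈ Ω) (hxy : 0 < ‖x - y‖)
    (hxyr : ‖x - y‖ < r0) (hpos : 0 < Phi v κ r0 ρ A a ι t x y)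
    (hmax : ∀ s ∈ Icc a (a + 1), ∀ z ∈ closure Ω, ∀ w ∈ closure Ω, ‖z - w‖ ≤ r0 →
        Phi v κ r0 ρ A a ι s z w ≤ Phi v κ r0 ρ A a ι t x y) : False := by
  have hxc := subset_closure hx
  have hyc := subset_closure hy
  obtain ⟨hx1, hx2, hx3, hx4⟩ := hpt x hxc
  obtain ⟨hy1, hy2, hy3, hy4⟩ := hpt y hyc
  have htI : t ∈ Icc a (a + 1) := ⟨ht.1.le, ht.2⟩
  have htpos : 0 < t - a + ι := by linarith [ht.1]
  -- the direction
  obtain ⟨r, hr⟩ : ∃ r, r = ‖x - y‖ := ⟨_, rfl⟩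
  obtain ⟨u, hu⟩ : ∃ u, u = (1 / r) • (x - y) := ⟨_, rfl⟩
  rw [← hr] at hxy hxyr
  have hun : ‖u‖ = 1 := by
    rw [hu, norm_smul, ← hr, Real.norm_of_nonneg (by positivity)]
    field_simp
  have hxyu : x - y = r • u := by
    rw [hu, smul_smul]
    have : r * (1 / r) = 1 := by field_simp
    rw [this, one_smul]
  -- orthonormal bases
  let b := EuclideanSpace.basisFun (Fin n) ℝ
  let R : EuclideanSpace ℝ (Fin n) ≃ₗᵢ[ℝ] EuclideanSpace ℝ (Fin n) := (ℝ ∙ u)ᗮ.reflection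
  let b' := b.map R
  have hR : ∀ k, b' k = b k - (2 * inner ℝ u (b k)) • u := by
    intro k
    simp only [b', OrthonormalBasis.map_apply, R]
    rw [Submodule.reflection_orthogonal_apply, Submodule.reflection_singleton_apply, hun]
    simp only [RCLike.ofReal_real_eq_id, id, one_pow, div_one, neg_sub, sub_right_inj]
    rw [two_smul, mul_smul, two_smul]
  have hbn : ∀ k, ‖b k‖ = 1 := fun k => b.orthonormal.1 k
  have hbn' : ∀ k, ‖b' k‖ = 1 := fun k => b'.orthonormal.1 k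
  have hnk : ∑ k, (inner ℝ u (b k)) ^ 2 = 1 := by
    have h1 := b.sum_sq_norm_inner_right u
    rw [hun, one_pow] at h1
    rw [← h1]
    apply Finset.sum_congr rfl
    intro k _
    rw [Real.norm_eq_abs, sq_abs, real_inner_comm]
  have hcx : ContDiffAt ℝ 2 (v t) x := (hv.smooth t ht).contDiffAt (hΩ.isOpen.mem_nhds hx)
  have hcy : ContDiffAt ℝ 2 (v t) y := (hv.smooth t ht).contDiffAt (hΩ.isOpen.mem_nhds hy)
  obtain ⟨c, hc⟩ : ∃ c, c = A * (1 / (t - a + ι)) := ⟨_, rfl⟩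
  have hc0 : 0 < c := by rw [hc]; positivity
  have hsec : ∀ k, iteratedFDeriv ℝ 2 (v t) x ![b k, b k]
      - iteratedFDeriv ℝ 2 (v t) y ![b' k, b' k]
      - c * ((iteratedFDeriv ℝ 2 (wt κ ρ) x ![b k, b k] * wt κ ρ y
          + 2 * (fderiv ℝ (wt κ ρ) x (b k) * fderiv ℝ (wt κ ρ) y (b' k))
          + wt κ ρ x * iteratedFDeriv ℝ 2 (wt κ ρ) y ![b' k, b' k]) * psi r0 r
        + 2 * ((fderiv ℝ (wt κ ρ) x (b k) * wt κ ρ y + wt κ ρ x * fderiv ℝ (wt κ ρ) y (b' k))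
          * ((1 - r / r0) * (2 * inner ℝ u (b k))))
        + wt κ ρ x * wt κ ρ y * (-(4 * (inner ℝ u (b k)) ^ 2 / r0))) ≤ 0 := by
    intro k
    apply coupled_second hΩ hcx hcy hxy hun hxyu
    · rw [hR k, sub_sub_cancel]
    · have hcl1 : Tendsto (fun s : ℝ => x + s • b k) (𝓝 0) (𝓝 x) := by
        have : Tendsto (fun s : ℝ => x + s • b k) (𝓝 0) (𝓝 (x + (0 : ℝ) • b k)) :=
          Continuous.tendsto (by fun_prop) 0
        simpa using this
      have hcl2 : Tendsto (fun s : ℝ => y + s • b' k) (𝓝 0) (𝓝 y) := by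
        have : Tendsto (fun s : ℝ => y + s • b' k) (𝓝 0) (𝓝 (y + (0 : ℝ) • b' k)) :=
          Continuous.tendsto (by fun_prop) 0
        simpa using this
      have hcl3 : ∀ᶠ s in 𝓝 (0:ℝ), ‖x + s • b k - (y + s • b' k)‖ < r0 := by
        have := (hcl1.sub hcl2).norm
        rw [← hr] at this
        exact this.eventually (gt_mem_nhds hxyr)
      filter_upwards [hcl1.eventually (hΩ.isOpen.mem_nhds hx),
        hcl2.eventually (hΩ.isOpen.mem_nhds hy), hcl3] with s hs1 hs2 hs3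
      have := hmax t htI _ (subset_closure hs1) _ (subset_closure hs2) hs3.le
      simp only [Phi] at this
      rw [hc]
      exact this
  have hlapx : Δ (v t) x = ∑ k, iteratedFDeriv ℝ 2 (v t) x ![b k, b k] := laplacian_eq_sum _ _ b
  have hlapy : Δ (v t) y = ∑ k, iteratedFDeriv ℝ 2 (v t) y ![b' k, b' k] :=
    laplacian_eq_sum _ _ b'
  have hψnn : 0 ≤ psi r0 r := le_trans (by positivity) (psi_ge hr0 hxy.le hxyr.le)
  have hEw : em ^ 2 ≤ wt κ ρ x * wt κ ρ y := by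
    rw [sq]; exact mul_le_mul hx1 hy1 hem.le (hem.le.trans hx1)
  have hsum := sum_coupled_bound (N := n) (em := em) (B1 := B1) (B2 := B2) (r0 := r0) (r := r)
    (C3 := C3) (C4 := C4) (X := wt κ ρ x) (Y := wt κ ρ y) (ψ := psi r0 r) hB1 hB2
    (hem.le.trans hx1) hx2 (hem.le.trans hy1) hy2 hEw
    hr0 hxy.le hxyr.le hψnn (psi_le hr0) hC3 hC4 hr02
    (fun k => iteratedFDeriv ℝ 2 (wt κ ρ) x ![b k, b k])
    (fun k => iteratedFDeriv ℝ 2 (wt κ ρ) y ![b' k, b' k])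
    (fun k => fderiv ℝ (wt κ ρ) x (b k)) (fun k => fderiv ℝ (wt κ ρ) y (b' k))
    (fun k => inner ℝ u (b k))
    (fun k => by have := hx4 (b k); rw [hbn k] at this; simpa using this)
    (fun k => by have := hy4 (b' k); rw [hbn' k] at this; simpa using this)
    (fun k => by
      have := (fderiv ℝ (wt κ ρ) x).le_opNorm (b k)
      rw [hbn k, mul_one, Real.norm_eq_abs] at this
      exact this.trans hx3)
    (fun k => by
      have := (fderiv ℝ (wt κ ρ) y).le_opNorm (b' k)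
      rw [hbn' k, mul_one, Real.norm_eq_abs] at this
      exact this.trans hy3)
    hnk
  have hlap : Δ (v t) x - Δ (v t) y ≤ -(A * (1 / (t - a + ι)) * (2 * em ^ 2 / r0)) := by
    have h1 := Finset.sum_le_sum (s := Finset.univ) (fun k _ => hsec k)
    simp only [Finset.sum_const_zero, Finset.sum_sub_distrib, ← Finset.mul_sum] at h1
    rw [← hlapx, ← hlapy] at h1
    have h2 := mul_le_mul_of_nonneg_left hsum hc0.le
    rw [← hc]
    linarith
  have htime : 0 ≤ v' t x - v' t y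
      + A * (1 / (t - a + ι)) ^ 2 * (wt κ ρ x * wt κ ρ y * psi r0 r) := by
    have h1 := (hv.time t ht x hx)
    have h2 := (hv.time t ht y hy)
    have h3 : HasDerivAt (fun s : ℝ => 1 / (s - a + ι)) (-(1 / (t - a + ι)) ^ 2) t := by
      have h4 : HasDerivAt (fun s : ℝ => s - a + ι) 1 t :=
        ((hasDerivAt_id t).sub_const a).add_const ι
      have h5 := (hasDerivAt_const t (1:ℝ)).div h4 htpos.ne'
      exact h5.congr_deriv (by field_simp; ring)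
    have h4 := ((h1.sub h2).sub (((h3.const_mul A)).mul_const
      (wt κ ρ x * wt κ ρ y * psi r0 r))).neg
    have h5 := deriv_nonpos_of_left_min ht.1 h4 (by
      intro s hs
      have h6 := hmax s ⟨hs.1, hs.2.trans ht.2⟩ x hxc y hyc (by rw [← hr]; exact hxyr.le)
      simp only [Phi, ← hr] at h6
      simp only [Pi.neg_apply, Pi.sub_apply]
      linarith)
    linarith
  have hΦ : A * (1 / (t - a + ι)) * (wt κ ρ x * wt κ ρ y * psi r0 r) < v t x - v t y := by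
    simp only [Phi, ← hr] at hpos
    linarith
  have hghalf : 1 / 2 ≤ 1 / (t - a + ι) := by
    apply one_div_le_one_div_of_le htpos
    linarith [ht.2]
  have hv1 := abs_le.1 (hbM t htI x hxc)
  have hv2 := abs_le.1 (hbM t htI y hyc)
  exact real_double hd hB hem hr0 hghalf hA1 hlap htime (hbB t ht x hx) (hbB t ht y hy) hΦ
    (by linarith)

end Run7.h350
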