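import Pool.Agent.Run7.h350.Morse

open Set Filter Topology MeasureTheory
open scoped ContDiff Laplacian

namespace Run7.h350

variable {n N : ℕ} {Ω : Set (EuclideanSpace ℝ (Fin n))} {ρ : EuclideanSpace ℝ (Fin n) → ℝ}

theorem laplacian_const_mul' (c : ℝ) {f : EuclideanSpace ℝ (Fin n) → ℝ}
    {x : EuclideanSpace ℝ (Fin n)} (hf : ContDiffAt ℝ 2 f x) :
    Δ (fun y => c * f y) x = c * Δ f x := by
  have hl := laplacian_eq_sum (fun y => c * f y) x (EuclideanSpace.basisFun (Fin n) ℝ)
  have hr := laplacian_eq_sum f x (EuclideanSpace.basisFun (Fin n) ℝ)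
  rw [hl, hr, Finset.mul_sum]
  apply Finset.sum_congr rfl
  intro k _
  have h1 : (fun y => c * f y) = c • f := by ext y; simp
  rw [h1, iteratedFDeriv_const_smul_apply hf]
  simp

theorem NeumannC1.const_mul' {f : EuclideanSpace ℝ (Fin n) → ℝ} (h : NeumannC1 Ω ρ f) (c : ℝ) :
    NeumannC1 Ω ρ (fun y => c * f y) := by
  obtain ⟨G, h1, h2, h3⟩ := h
  refine ⟨fun x => c • G x, h1.const_smul c, fun x hx => (h2 x hx).const_mul c, ?_⟩
  intro x hx
  simp [h3 x hx]

theorem NeumannC1.const_sub' {f : EuclideanSpace ℝ (Fin n) → ℝ} (h : NeumannC1 Ω ρ f) (c : ℝ) :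
    NeumannC1 Ω ρ (fun y => c - f y) := by
  obtain ⟨G, h1, h2, h3⟩ := h
  refine ⟨fun x => - G x, h1.neg, fun x hx => (h2 x hx).const_sub c, ?_⟩
  intro x hx
  simp [h3 x hx]

theorem NeumannC1.sub' {f g : EuclideanSpace ℝ (Fin n) → ℝ} (h : NeumannC1 Ω ρ f)
    (h' : NeumannC1 Ω ρ g) : NeumannC1 Ω ρ (fun y => f y - g y) := by
  obtain ⟨G, h1, h2, h3⟩ := h
  obtain ⟨G', h1', h2', h3'⟩ := h'
  refine ⟨fun x => G x - G' x, h1.sub h1', fun x hx => (h2 x hx).sub (h2' x hx), ?_⟩
  intro x hx
  simp [h3 x hx, h3' x hx]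

theorem NeumannC1.const_add' {f : EuclideanSpace ℝ (Fin n) → ℝ} (h : NeumannC1 Ω ρ f) (c : ℝ) :
    NeumannC1 Ω ρ (fun y => c + f y) := by
  obtain ⟨G, h1, h2, h3⟩ := h
  exact ⟨G, h1, fun x hx => (h2 x hx).const_add c, h3⟩

/-- **Weak maximum principle** for supersolutions of linear equations. -/
theorem Par.nonneg_of_super (hΩ : SmoothDomain Ω ρ) {d a b K : ℝ} (hd : 0 < d)
    {v v' : ℝ → EuclideanSpace ℝ (Fin n) → ℝ} (hv : Par Ω ρ a b v v')
    (hinit : ∀ x ∈ closure Ω, 0 ≤ v a x)
    (hsup : ∀ t ∈ Ioc a b, ∀ x ∈ Ω, v t x < 0 → K * v t x ≤ v' t x - d * Δ (v t) x) :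
    ∀ t ∈ Icc a b, ∀ x ∈ closure Ω, 0 ≤ v t x := by
  -- bounds for the defining function
  obtain ⟨C0, hC0⟩ := hΩ.isCompact_closure.exists_bound_of_continuousOn (f := ρ)
    hΩ.continuous.continuousOn
  have hlapc : Continuous (fun x => Δ ρ x) := by
    have h1 : (fun x => Δ ρ x) = fun x => ∑ k, iteratedFDeriv ℝ 2 ρ x
        ![EuclideanSpace.basisFun (Fin n) ℝ k, EuclideanSpace.basisFun (Fin n) ℝ k] := by
      funext x; exact laplacian_eq_sum _ _ _
    rw [h1]
    have h2 : Continuous (fun x => iteratedFDeriv ℝ 2 ρ x) :=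
      hΩ.smooth.continuous_iteratedFDeriv (m := 2) (by norm_cast)
    fun_prop
  obtain ⟨B0, hB0⟩ := hΩ.isCompact_closure.exists_bound_of_continuousOn (f := fun x => Δ ρ x)
    hlapc.continuousOn
  obtain ⟨C, hC⟩ : ∃ C, C = C0 + 1 := ⟨_, rfl⟩
  obtain ⟨K', hK'⟩ : ∃ K', K' = d * |B0| + 1 := ⟨_, rfl⟩
  have hK'0 : 0 < K' := by rw [hK']; positivity
  have hCρ : ∀ x ∈ closure Ω, 1 ≤ C + ρ x := by
    intro x hx
    have h1 := (abs_le.1 (hC0 x hx)).1
    rw [hC]; linarith
  -- the rescaled function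
  have hg : ∀ t, HasDerivAt (fun s => Real.exp (-K * (s - a))) (-K * Real.exp (-K * (t - a))) t := by
    intro t
    have h1 : HasDerivAt (fun s : ℝ => -K * (s - a)) (-K) t := by
      simpa using ((hasDerivAt_id t).sub_const a).const_mul (-K)
    exact h1.exp.congr_deriv (by ring)
  have hpar : Par Ω ρ a b (fun t x => Real.exp (-K * (t - a)) * v t x)
      (fun t x => Real.exp (-K * (t - a)) * (v' t x - K * v t x)) := by
    refine ⟨?_, ?_, ?_, ?_⟩
    · apply ContinuousOn.mul _ hv.cont
      exact Continuous.continuousOn (by fun_prop)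
    · intro t ht; exact (hv.neumann t ht).const_mul' _
    · intro t ht; exact contDiffOn_const.mul (hv.smooth t ht)
    · intro t ht x hx
      exact ((hg t).mul (hv.time t ht x hx)).congr_deriv (by ring)
  intro t0 ht0 x0 hx0
  have hkey : ∀ ε > 0, -(ε * Real.exp (K' * (t0 - a)) * (C + ρ x0)) ≤
      Real.exp (-K * (t0 - a)) * v t0 x0 := by
    intro ε hε
    have hcomp := hpar.comparison hΩ hd
      (fun t x => -(ε * Real.exp (K' * (t - a))) * (C + ρ x)) ?_ ?_ ?_ ?_ t0 ht0 x0 hx0
    · linarith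
    · apply Continuous.continuousOn
      have := hΩ.continuous
      fun_prop
    · intro x hx
      simp only [sub_self, mul_zero, Real.exp_zero, mul_one, one_mul]
      have h1 := hCρ x hx
      have h2 := hinit x hx
      have h3 : 0 ≤ ε * (C + ρ x) := by positivity
      linarith
    · intro t ht x hx _
      refine ⟨(-(ε * Real.exp (K' * (t - a)))) • fderiv ℝ ρ x, ?_, ?_⟩
      · exact (((hΩ.differentiable x).hasFDerivAt.const_add C).const_mul _).hasFDerivWithinAt
      · simp only [smul_apply, smul_eq_mul]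
        rw [fderiv_eq_inner, real_inner_self_eq_norm_sq]
        have hgr := hΩ.grad_ne x (hΩ.frontier_eq_zero hx)
        have h1 : 0 < ‖gradient ρ x‖ ^ 2 := by positivity
        have h2 : 0 < ε * Real.exp (K' * (t - a)) := by positivity
        nlinarith [mul_pos h2 h1]
    · intro t ht x hx hlt
      have hxc := subset_closure hx
      have hE : 0 < ε * Real.exp (K' * (t - a)) := by positivity
      have hvneg : v t x < 0 := by
        have h1 := hCρ x hxc
        have h2 : 0 < ε * Real.exp (K' * (t - a)) * (C + ρ x) := by positivity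
        have h3 : Real.exp (-K * (t - a)) * v t x < 0 := by linarith
        by_contra hcon
        push Not at hcon
        have : 0 ≤ Real.exp (-K * (t - a)) * v t x := by positivity
        linarith
      refine ⟨-(ε * (K' * Real.exp (K' * (t - a)))) * (C + ρ x),
        fun k s => -(ε * Real.exp (K' * (t - a))) * (0 + fderiv ℝ ρ
          (x + s • EuclideanSpace.basisFun (Fin n) ℝ k) (EuclideanSpace.basisFun (Fin n) ℝ k)),
        fun k => -(ε * Real.exp (K' * (t - a))) * (0 + iteratedFDeriv ℝ 2 ρ x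
          ![EuclideanSpace.basisFun (Fin n) ℝ k, EuclideanSpace.basisFun (Fin n) ℝ k]),
        ?_, ?_, ?_⟩
      · have h1 : HasDerivAt (fun s : ℝ => K' * (s - a)) K' t := by
          simpa using ((hasDerivAt_id t).sub_const a).const_mul K'
        exact ((((h1.exp).const_mul ε).neg).mul_const (C + ρ x)).congr_deriv (by ring)
      · intro k
        have h1 := hasD2_line (f := ρ) (x := x) (hΩ.smooth.contDiffAt.of_le (by norm_cast)) (EuclideanSpace.basisFun (Fin n) ℝ k)
        exact ((HasD2.const C).add h1).const_mul _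
      · have hsum : ∑ k, -(ε * Real.exp (K' * (t - a))) * (0 + iteratedFDeriv ℝ 2 ρ x
          ![EuclideanSpace.basisFun (Fin n) ℝ k, EuclideanSpace.basisFun (Fin n) ℝ k]) =
          -(ε * Real.exp (K' * (t - a))) * Δ ρ x := by
          rw [laplacian_eq_sum ρ x (EuclideanSpace.basisFun (Fin n) ℝ), Finset.mul_sum]
          apply Finset.sum_congr rfl
          intro k _
          rw [zero_add]
        rw [hsum, laplacian_const_mul' _ ((hv.smooth t ht).contDiffAt (hΩ.isOpen.mem_nhds hx))]
        have h1 := hsup t ht x hx hvneg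
        have h2 : 0 ≤ Real.exp (-K * (t - a)) * (v' t x - K * v t x - d * Δ (v t) x) :=
          mul_nonneg (Real.exp_pos _).le (by linarith)
        have h3 : d * Δ ρ x < K' * (C + ρ x) := by
          have e1 : Δ ρ x ≤ |B0| := (le_abs_self _).trans ((hB0 x hxc).trans (le_abs_self _))
          have e2 := mul_le_mul_of_nonneg_left e1 hd.le
          have e3 := mul_le_mul_of_nonneg_left (hCρ x hxc) hK'0.le
          rw [hK'] at e3 ⊢
          linarith
        have h4 := mul_lt_mul_of_pos_left h3 hE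
        nlinarith
  have hlim : 0 ≤ Real.exp (-K * (t0 - a)) * v t0 x0 := by
    apply le_of_forall_pos_le_add
    intro η hη
    have hP : 0 < Real.exp (K' * (t0 - a)) * (C + ρ x0) := by
      have := hCρ x0 hx0
      positivity
    have h1 := hkey (η / (Real.exp (K' * (t0 - a)) * (C + ρ x0))) (by positivity)
    have h2 : η / (Real.exp (K' * (t0 - a)) * (C + ρ x0)) * Real.exp (K' * (t0 - a)) *
        (C + ρ x0) = η := by
      rw [mul_assoc]; exact div_mul_cancel₀ _ hP.ne'
    rw [h2] at h1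
    linarith
  exact nonneg_of_mul_nonneg_right hlim (Real.exp_pos _)

end Run7.h350
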