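import Pool.Agent.Run7.h350.Dyn3

open Set Filter Topology MeasureTheory
open scoped ContDiff Laplacian

namespace Run7.h350

variable {n N : ℕ} {Ω : Set (EuclideanSpace ℝ (Fin n))} {ρ : EuclideanSpace ℝ (Fin n) → ℝ}

theorem NeumannC1.continuousOn {f : EuclideanSpace ℝ (Fin n) → ℝ} (h : NeumannC1 Ω ρ f) :
    ContinuousOn f (closure Ω) := by
  obtain ⟨G, _, h2, _⟩ := h
  exact fun x hx => (h2 x hx).continuousWithinAt

/-- a bounded trajectory is a regular trajectory on the interior of its interval of times -/
theorem IsTrajectory.rtraj {I : Set ℝ} {m : EuclideanSpace ℝ (Fin n) → ℝ} {d : Fin N → ℝ}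
    {u : Fin N → ℝ → EuclideanSpace ℝ (Fin n) → ℝ} (h : IsTrajectory I Ω ρ m d u) {M : ℝ}
    (hM : ∀ i, ∀ t ∈ I, ∀ x ∈ closure Ω, u i t x ≤ M)
    (hup : ∀ t ∈ interior I, ∀ s, t ≤ s → s ∈ interior I) :
    RTraj (interior I) Ω ρ m d M u (fun i t x => deriv (fun s => u i s x) t) where
  isOpen := isOpen_interior
  up := hup
  cont := fun j => (h.cont j).mono (prod_mono interior_subset Subset.rfl)
  cont' := h.time_cont
  nonneg := fun j t ht => h.nonneg j t (interior_subset ht)
  bound := fun j t ht => hM j t (interior_subset ht)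
  neumann := h.neumann
  smooth := h.smooth
  hasDeriv := fun j t ht x hx => (h.time_diff j t ht x hx).hasDerivAt
  pde := h.pde

/-- steady states are positive up to the boundary -/
theorem IsSteady.pos_closure (hΩ : SmoothDomain Ω ρ) {m θ : EuclideanSpace ℝ (Fin n) → ℝ}
    (hm : ContinuousOn m (closure Ω)) {d : ℝ} (hd : 0 < d) (h : IsSteady Ω ρ m d θ) :
    ∀ x ∈ closure Ω, 0 < θ x := by
  have hc := h.neumann.continuousOn
  have hnn : ∀ x ∈ closure Ω, 0 ≤ θ x := by
    intro x hx
    exact closure_minimal (s := Ω) (t := closure Ω ∩ θ ⁻¹' Ici 0)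
      (fun y hy => ⟨subset_closure hy, (h.pos y hy).le⟩)
      (hc.preimage_isClosed_of_isClosed isClosed_closure isClosed_Ici) hx |>.2
  obtain ⟨M, hM⟩ := hΩ.isCompact_closure.exists_bound_of_continuousOn hc
  obtain ⟨x0, hx0⟩ := hΩ.connected.nonempty
  have hM0 : 0 ≤ M := (norm_nonneg _).trans (hM x0 (subset_closure hx0))
  have hR : RTraj (N := 1) univ Ω ρ m (fun _ => d) M (fun _ _ x => θ x) (fun _ _ _ => 0) := by
    refine ⟨isOpen_univ, fun _ _ _ _ => mem_univ _, ?_, ?_, ?_, ?_, ?_, ?_, ?_, ?_⟩
    · intro j
      exact hc.comp continuousOn_snd fun p hp => hp.2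
    · intro j; exact continuousOn_const
    · intro j t _ x hx; exact hnn x hx
    · intro j t _ x hx; exact (le_abs_self _).trans (hM x hx)
    · intro j t _; exact h.neumann
    · intro j t _; exact h.smooth
    · intro j t _ x hx; exact hasDerivAt_const _ _
    · intro j t _ x hx
      have := h.pde x hx
      simp only [Finset.univ_unique, Finset.sum_const, Finset.card_singleton, one_smul]
      linarith
  intro x hx
  exact hR.pos_of_pos hΩ hm hM0 0 hd (mem_univ 0) (subset_closure hx0) (h.pos x0 hx0) one_pos x hx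

/-- **The abstract Morse decomposition theorem**: if local Lyapunov densities exist for every
leader, the equilibria form a Morse decomposition. -/
theorem morse_of_HFun (hΩ : SmoothDomain Ω ρ) {m : EuclideanSpace ℝ (Fin n) → ℝ}
    (hm : ContinuousOn m (closure Ω)) (hmne : ¬ ∃ c, ∀ x ∈ Ω, m x = c)
    {d : Fin N → ℝ} (hd : ∀ i, 0 < d i) {θ : Fin N → EuclideanSpace ℝ (Fin n) → ℝ}
    (hθ : ∀ i, IsSteady Ω ρ m (d i) (θ i))
    (hF : ∀ k, Nonempty (HFun k (Finset.Ioi k) d)) : IsMorse Ω ρ m d θ := by
  have hθ0 : ∀ i, ∀ x ∈ closure Ω, 0 < θ i x := fun i => (hθ i).pos_closure hΩ hm (hd i)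
  have hC1 : ∀ i, ∃ D, C1N Ω ρ (θ i) D := fun i => by
    obtain ⟨G, h1, h2, h3⟩ := (hθ i).neumann
    exact ⟨G, h1, h2, h3, (hθ i).smooth⟩
  choose Dθ hDθ using hC1
  have hne : ∀ i, ∃ x ∈ Ω, ∃ c, Dθ i x (ev n c) ≠ 0 := fun i =>
    steady_nonconst hΩ (hDθ i) (hθ0 i) (hθ i).pde hmne
  obtain ⟨x0, hx0⟩ := hΩ.connected.nonempty
  have hx0c : x0 ∈ closure Ω := subset_closure hx0
  have hIoi : ∀ k : Fin N, k ∉ Finset.Ioi k := fun k => by simp
  have hins : ∀ k j : Fin N, j ∉ insert k (Finset.Ioi k) → j < k := by
    intro k j hj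
    rw [Finset.mem_insert, Finset.mem_Ioi, not_or, not_lt] at hj
    exact lt_of_le_of_ne hj.2 hj.1
  -- the equilibria as slots
  have heq_self : ∀ (k : Fin N) (x : EuclideanSpace ℝ (Fin n)), equil θ k.castSucc k x = θ k x := by
    intro k x; simp [equil]
  have heq_ne : ∀ (k i : Fin N), i ≠ k → ∀ x : EuclideanSpace ℝ (Fin n),
      equil θ k.castSucc i x = 0 := by
    intro k i hik x
    simp [equil, hik]
  have heq_last : ∀ (i : Fin N) (x : EuclideanSpace ℝ (Fin n)), equil θ (Fin.last N) i x = 0 := by
    intro i x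
    have : i.castSucc ≠ Fin.last N := (Fin.castSucc_lt_last i).ne
    simp [equil, this]
  refine ⟨?_, ?_, ?_, ?_⟩
  · -- equilibria
    intro k
    have hcase : ∀ i : Fin N, equil θ k i = θ i ∨ equil θ k i = fun _ => 0 := by
      intro i
      by_cases hi : i.castSucc = k
      · left; funext x; simp [equil, hi]
      · right; funext x; simp [equil, hi]
    have hN : ∀ i, NeumannC1 Ω ρ (equil θ k i) := by
      intro i
      rcases hcase i with h | h
      · rw [h]; exact (hθ i).neumann
      · rw [h]
        exact ⟨fun _ => 0, continuousOn_const, fun x _ => hasFDerivWithinAt_const _ _ _,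
          fun x _ => rfl⟩
    have hS : ∀ i, ContDiffOn ℝ 2 (equil θ k i) Ω := by
      intro i
      rcases hcase i with h | h
      · rw [h]; exact (hθ i).smooth
      · rw [h]; exact contDiffOn_const
    have hnn : ∀ i, ∀ x ∈ closure Ω, 0 ≤ equil θ k i x := by
      intro i x hx
      rcases hcase i with h | h
      · rw [h]; exact (hθ0 i x hx).le
      · rw [h]
    refine ⟨fun i => ?_, fun i t _ => hnn i, fun i t _ => hN i, fun i t _ => hS i, ?_, ?_, ?_⟩
    · exact (hN i).continuousOn.comp continuousOn_snd fun p hp => hp.2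
    · intro i t _ x _; exact differentiableAt_const _
    · intro i
      simp only [deriv_const]
      exact continuousOn_const
    · intro i t _ x hx
      rw [deriv_const]
      rcases hcase i with h | h
      · by_cases hi : i.castSucc = k
        · have hsum : ∑ j, equil θ k j x = θ i x := by
            rw [Finset.sum_eq_single i]
            · rw [h]
            · intro j _ hji
              have : j.castSucc ≠ k := by
                rw [← hi]
                exact fun hc => hji (Fin.castSucc_injective _ hc)
              simp [equil, this]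
            · intro hcon; exact absurd (Finset.mem_univ i) hcon
          have h1 := (hθ i).pde x hx
          rw [hsum, h]
          linarith
        · exfalso
          have h1 : equil θ k i x0 = 0 := by simp [equil, hi]
          rw [h] at h1
          have h2 := hθ0 i x0 hx0c
          linarith
      · rw [h]
        have hΔ : Δ (fun _ : EuclideanSpace ℝ (Fin n) => (0:ℝ)) x = 0 := by
          rw [laplacian_eq_pd]
          apply Finset.sum_eq_zero
          intro c _
          rw [iteratedFDeriv_two_apply]
          simp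
        rw [hΔ]
        ring
  · -- distinctness
    intro k l hkl
    rcases Fin.eq_castSucc_or_eq_last k with ⟨k', rfl⟩ | rfl
    · refine ⟨k', x0, hx0, ?_⟩
      have h2 : equil θ l k' x0 = 0 := by
        simp [equil, hkl]
      rw [heq_self, h2]
      exact (hθ0 k' x0 hx0c).ne'
    · rcases Fin.eq_castSucc_or_eq_last l with ⟨l', rfl⟩ | rfl
      · refine ⟨l', x0, hx0, ?_⟩
        rw [heq_self, heq_last]
        exact (hθ0 l' x0 hx0c).ne
      · exact absurd rfl hkl
  · -- forward trajectories
    rintro u hu ⟨M0, hM0⟩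
    obtain ⟨M, hM⟩ : ∃ M, M = max M0 0 := ⟨_, rfl⟩
    have hMn : 0 ≤ M := by rw [hM]; exact le_max_right _ _
    have hR := hu.rtraj (M := M) (fun i t ht x hx => by
      rw [hM]; exact (hM0 i t ht x hx).trans (le_max_left _ _)) (by
        rw [interior_Ici]; intro t ht s hs; exact lt_of_lt_of_le ht hs)
    rw [interior_Ici] at hR
    by_cases hall : ∀ i, ∀ t ∈ Ioi (0:ℝ), ∀ x ∈ closure Ω, u i t x = 0
    · refine ⟨Fin.last N, ?_⟩
      intro i
      rw [Metric.tendstoUniformlyOn_iff]
      intro ε hε
      filter_upwards [eventually_gt_atTop 0] with t ht x hx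
      rw [heq_last, hall i t ht x hx, dist_self]
      exact hε
    · push Not at hall
      -- minimal present species
      obtain ⟨k, hk, hkmin⟩ : ∃ k : Fin N, (∃ t ∈ Ioi (0:ℝ), ∃ x ∈ closure Ω, u k t x ≠ 0) ∧
          ∀ j < k, ∀ t ∈ Ioi (0:ℝ), ∀ x ∈ closure Ω, u j t x = 0 := by
        have hwf := (wellFounded_lt (α := Fin N)).has_min
          {k | ∃ t ∈ Ioi (0:ℝ), ∃ x ∈ closure Ω, u k t x ≠ 0} hall
        obtain ⟨k, hk, hmin⟩ := hwf
        refine ⟨k, hk, ?_⟩
        intro j hj t ht x hx
        by_contra hcon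
        exact hmin j ⟨t, ht, x, hx, hcon⟩ hj
      obtain ⟨t1, ht1, x1, hx1, hne1⟩ := hk
      have hpos1 : 0 < u k t1 x1 := lt_of_le_of_ne (hR.nonneg k t1 ht1 x1 hx1) hne1.symm
      obtain ⟨F⟩ := hF k
      have hzero : ∀ j, j ∉ insert k (Finset.Ioi k) → ∀ t ∈ Ioi (0:ℝ), ∀ x ∈ closure Ω,
          u j t x = 0 := fun j hj => hkmin j (hins k j hj)
      refine ⟨k.castSucc, ?_⟩
      intro i
      rw [Metric.tendstoUniformlyOn_iff]
      intro ε hε
      obtain ⟨T, hT, hclose⟩ := forward hΩ (hIoi k) F hm (hDθ k) (hθ0 k) (hθ k).pde (hne k) hMn hd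
        hR hzero ht1 hx1 hpos1 hε
      filter_upwards [eventually_ge_atTop T] with t ht x hx
      obtain ⟨h1, h2⟩ := hclose t ht x hx
      have htJ : t ∈ Ioi (0:ℝ) := lt_of_lt_of_le hT ht
      rcases lt_trichotomy i k with hi | hi | hi
      · rw [heq_ne k i hi.ne, hkmin i hi t htJ x hx, dist_self]
        exact hε
      · rw [hi, heq_self, dist_comm, Real.dist_eq]
        exact h1
      · rw [heq_ne k i hi.ne', Real.dist_eq, zero_sub, abs_neg,
          abs_of_nonneg (hR.nonneg i t htJ x hx)]
        exact h2 i (Finset.mem_Ioi.2 hi)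
  · -- entire trajectories
    rintro u hu ⟨M0, hM0⟩
    obtain ⟨M, hM⟩ : ∃ M, M = max M0 0 := ⟨_, rfl⟩
    have hMn : 0 ≤ M := by rw [hM]; exact le_max_right _ _
    have hR := hu.rtraj (M := M) (fun i t ht x hx => by
      rw [hM]; exact (hM0 i t ht x hx).trans (le_max_left _ _)) (by
        rw [interior_univ]; intro t ht s hs; exact mem_univ _)
    rw [interior_univ] at hR
    by_cases hall : ∀ i, ∀ t : ℝ, ∀ x ∈ closure Ω, u i t x = 0
    · left
      refine ⟨Fin.last N, ?_⟩
      intro i t x hx
      rw [heq_last, hall i t x hx]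
    · push Not at hall
      -- minimal present species
      obtain ⟨i0, hi0, himin⟩ : ∃ k : Fin N, (∃ t : ℝ, ∃ x ∈ closure Ω, u k t x ≠ 0) ∧
          ∀ j < k, ∀ t : ℝ, ∀ x ∈ closure Ω, u j t x = 0 := by
        have hwf := (wellFounded_lt (α := Fin N)).has_min
          {k | ∃ t : ℝ, ∃ x ∈ closure Ω, u k t x ≠ 0} hall
        obtain ⟨k, hk, hmin⟩ := hwf
        refine ⟨k, hk, ?_⟩
        intro j hj t x hx
        by_contra hcon
        exact hmin j ⟨t, x, hx, hcon⟩ hj
      obtain ⟨t1, x1, hx1, hne1⟩ := hi0
      have hpos1 : 0 < u i0 t1 x1 :=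
        lt_of_le_of_ne (hR.nonneg i0 t1 (mem_univ _) x1 hx1) hne1.symm
      have hfwd : ConvergesTo atTop Ω u (equil θ i0.castSucc) := by
        obtain ⟨F⟩ := hF i0
        have hzero : ∀ j, j ∉ insert i0 (Finset.Ioi i0) → ∀ t ∈ (univ : Set ℝ), ∀ x ∈ closure Ω,
            u j t x = 0 := fun j hj t _ => himin j (hins i0 j hj) t
        intro i
        rw [Metric.tendstoUniformlyOn_iff]
        intro ε hε
        obtain ⟨T, hT, hclose⟩ := forward hΩ (hIoi i0) F hm (hDθ i0) (hθ0 i0) (hθ i0).pde (hne i0)
          hMn hd hR hzero (mem_univ t1) hx1 hpos1 hε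
        filter_upwards [eventually_ge_atTop T] with t ht x hx
        obtain ⟨h1, h2⟩ := hclose t ht x hx
        rcases lt_trichotomy i i0 with hi | hi | hi
        · rw [heq_ne i0 i hi.ne, himin i hi t x hx, dist_self]
          exact hε
        · rw [hi, heq_self, dist_comm, Real.dist_eq]
          exact h1
        · rw [heq_ne i0 i hi.ne', Real.dist_eq, zero_sub, abs_neg,
            abs_of_nonneg (hR.nonneg i t (mem_univ _) x hx)]
          exact h2 i (Finset.mem_Ioi.2 hi)
      -- backward
      by_cases hvan : ∀ k : Fin N, ∀ δ > 0, ∃ T : ℝ, ∀ t ≤ T, ∀ x ∈ closure Ω, u k t x < δ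
      · right
        refine ⟨i0.castSucc, Fin.last N, Fin.castSucc_lt_last i0, hfwd, ?_⟩
        intro i
        rw [Metric.tendstoUniformlyOn_iff]
        intro ε hε
        obtain ⟨T, hT⟩ := hvan i ε hε
        filter_upwards [eventually_le_atBot T] with t ht x hx
        rw [heq_last, Real.dist_eq, zero_sub, abs_neg,
          abs_of_nonneg (hR.nonneg i t (mem_univ _) x hx)]
        exact hT t ht x hx
      · push Not at hvan
        obtain ⟨k, hk, hkmin⟩ : ∃ k : Fin N,
            (∃ δ > 0, ∀ T : ℝ, ∃ t ≤ T, ∃ x ∈ closure Ω, δ ≤ u k t x) ∧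
            ∀ j < k, ∀ δ > 0, ∃ T : ℝ, ∀ t ≤ T, ∀ x ∈ closure Ω, u j t x < δ := by
          have hwf := (wellFounded_lt (α := Fin N)).has_min
            {k | ∃ δ > 0, ∀ T : ℝ, ∃ t ≤ T, ∃ x ∈ closure Ω, δ ≤ u k t x} hvan
          obtain ⟨k, hk, hmin⟩ := hwf
          refine ⟨k, hk, ?_⟩
          intro j hj
          by_contra hcon
          push Not at hcon
          exact hmin j hcon hj
        obtain ⟨δ0, hδ0, hfreq⟩ := hk
        have hik : i0 ≤ k := by
          by_contra hlt
          push Not at hlt
          obtain ⟨t, _, x, hx, hux⟩ := hfreq 0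
          rw [himin k hlt t x hx] at hux
          linarith
        obtain ⟨F⟩ := hF k
        have hback := fun ε (hε : 0 < ε) => backward hΩ (hIoi k) F hm (hDθ k) (hθ0 k) (hθ k).pde
          (hne k) hMn hd hR hδ0 hfreq (ε := ε) hε
        rcases hik.lt_or_eq with hlt | heq
        · -- heteroclinic
          right
          refine ⟨i0.castSucc, k.castSucc, Fin.castSucc_lt_castSucc_iff.2 hlt, hfwd, ?_⟩
          intro i
          rw [Metric.tendstoUniformlyOn_iff]
          intro ε hε
          obtain ⟨r0, hr0, hb⟩ := hback ε hε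
          -- the remainder is small
          have hrem : ∃ T0, (∀ t ≤ T0, ∀ x ∈ closure Ω,
              ∑ j ∈ (insert k (Finset.Ioi k))ᶜ, u j t x ≤ r0) ∧
              ∀ j < k, ∀ t ≤ T0, ∀ x ∈ closure Ω, u j t x < ε := by
            have h1 : ∀ j : Fin N, ∃ T : ℝ, j < k → ∀ t ≤ T, ∀ x ∈ closure Ω,
                u j t x < min ε (r0 / N) := by
              intro j
              by_cases hj : j < k
              · have hN : (0 : ℝ) < N := by
                  have : 0 < N := lt_of_le_of_lt (Nat.zero_le _) j.isLt
                  exact_mod_cast this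
                obtain ⟨T, hT⟩ := hkmin j hj (min ε (r0 / N)) (lt_min hε (by positivity))
                exact ⟨T, fun _ => hT⟩
              · exact ⟨0, fun h => absurd h hj⟩
            choose T hT using h1
            have hN : (0 : ℝ) < N := by
              have : 0 < N := lt_of_le_of_lt (Nat.zero_le _) k.isLt
              exact_mod_cast this
            refine ⟨- ∑ j, |T j|, ?_, ?_⟩
            · intro t ht x hx
              have h2 : ∀ j ∈ (insert k (Finset.Ioi k))ᶜ, u j t x ≤ r0 / N := by
                intro j hj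
                have hjk : j < k := hins k j (by simpa using hj)
                have h3 : -∑ j, |T j| ≤ T j := by
                  have := Finset.single_le_sum (f := fun j => |T j|) (fun i _ => abs_nonneg _)
                    (Finset.mem_univ j)
                  have h4 := neg_abs_le (T j)
                  linarith
                exact ((hT j hjk t (ht.trans h3) x hx).trans_le (min_le_right _ _)).le
              calc ∑ j ∈ (insert k (Finset.Ioi k))ᶜ, u j t x
                  ≤ ∑ _j ∈ (insert k (Finset.Ioi k))ᶜ, r0 / N := Finset.sum_le_sum h2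
                _ ≤ ∑ _j : Fin N, r0 / N := by
                    apply Finset.sum_le_sum_of_subset_of_nonneg (Finset.subset_univ _)
                    intro _ _ _; positivity
                _ = r0 := by
                    simp only [Finset.sum_const, Finset.card_univ, Fintype.card_fin, nsmul_eq_mul]
                    field_simp
            · intro j hjk t ht x hx
              have h3 : -∑ j, |T j| ≤ T j := by
                have := Finset.single_le_sum (f := fun j => |T j|) (fun i _ => abs_nonneg _)
                  (Finset.mem_univ j)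
                have h4 := neg_abs_le (T j)
                linarith
              exact (hT j hjk t (ht.trans h3) x hx).trans_le (min_le_left _ _)
          obtain ⟨T0, hT0, hsmall⟩ := hrem
          filter_upwards [eventually_le_atBot T0] with t ht x hx
          obtain ⟨h1, h2⟩ := hb T0 hT0 t ht x hx
          rcases lt_trichotomy i k with hi | hi | hi
          · rw [heq_ne k i hi.ne, Real.dist_eq, zero_sub, abs_neg,
              abs_of_nonneg (hR.nonneg i t (mem_univ _) x hx)]
            exact hsmall i hi t ht x hx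
          · rw [hi, heq_self, dist_comm, Real.dist_eq]
            exact h1
          · rw [heq_ne k i hi.ne', Real.dist_eq, zero_sub, abs_neg,
              abs_of_nonneg (hR.nonneg i t (mem_univ _) x hx)]
            exact h2 i (Finset.mem_Ioi.2 hi)
        · -- the trajectory is an equilibrium
          left
          refine ⟨k.castSucc, ?_⟩
          subst heq
          have hrem0 : ∀ r0 : ℝ, 0 < r0 → ∀ T0 : ℝ, ∀ t ≤ T0, ∀ x ∈ closure Ω,
              ∑ j ∈ (insert i0 (Finset.Ioi i0))ᶜ, u j t x ≤ r0 := by
            intro r0 hr0 T0 t _ x hx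
            rw [Finset.sum_eq_zero fun j hj => himin j (hins i0 j (by simpa using hj)) t x hx]
            exact hr0.le
          have hclose : ∀ t : ℝ, ∀ x ∈ closure Ω, ∀ ε > 0,
              |u i0 t x - θ i0 x| < ε ∧ ∀ j ∈ Finset.Ioi i0, u j t x < ε := by
            intro t x hx ε hε
            obtain ⟨r0, hr0, hb⟩ := hback ε hε
            exact hb t (hrem0 r0 hr0 t) t le_rfl x hx
          intro i t x hx
          rcases lt_trichotomy i i0 with hi | hi | hi
          · rw [heq_ne i0 i hi.ne, himin i hi t x hx]
          · rw [hi, heq_self]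
            have h1 : |u i0 t x - θ i0 x| ≤ 0 :=
              le_of_forall_pos_lt_add fun ε hε => by
                rw [zero_add]; exact (hclose t x hx ε hε).1
            have h2 := abs_eq_zero.1 (le_antisymm h1 (abs_nonneg _))
            linarith
          · rw [heq_ne i0 i hi.ne']
            have h1 : u i t x ≤ 0 :=
              le_of_forall_pos_lt_add fun ε hε => by
                rw [zero_add]; exact (hclose t x hx ε hε).2 i (Finset.mem_Ioi.2 hi)
            exact le_antisymm h1 (hR.nonneg i t (mem_univ _) x hx)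

end Run7.h350
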