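import Pool.Agent.Run7.h350.D2

open Set Filter Topology MeasureTheory
open scoped ContDiff Laplacian

namespace Run7.h350

variable {n : ℕ} {Ω : Set (EuclideanSpace ℝ (Fin n))} {ρ : EuclideanSpace ℝ (Fin n) → ℝ}

/-- regularity of a scalar component on `[a,b]` (with time derivative `v'`). -/
structure Par (Ω : Set (EuclideanSpace ℝ (Fin n))) (ρ : EuclideanSpace ℝ (Fin n) → ℝ)
    (a b : ℝ) (v v' : ℝ → EuclideanSpace ℝ (Fin n) → ℝ) : Prop where
  cont : ContinuousOn (fun p : ℝ × EuclideanSpace ℝ (Fin n) => v p.1 p.2)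
    (Icc a b ×ˢ closure Ω)
  neumann : ∀ t ∈ Ioc a b, NeumannC1 Ω ρ (v t)
  smooth : ∀ t ∈ Ioc a b, ContDiffOn ℝ 2 (v t) Ω
  time : ∀ t ∈ Ioc a b, ∀ x ∈ Ω, HasDerivAt (fun s => v s x) (v' t x) t

theorem Par.mono {a b a' b' : ℝ} {v v' : ℝ → EuclideanSpace ℝ (Fin n) → ℝ}
    (h : Par Ω ρ a b v v') (ha : a ≤ a') (hb : b' ≤ b) : Par Ω ρ a' b' v v' where
  cont := h.cont.mono (prod_mono (Icc_subset_Icc ha hb) Subset.rfl)
  neumann := fun t ht => h.neumann t (Ioc_subset_Ioc ha hb ht)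
  smooth := fun t ht => h.smooth t (Ioc_subset_Ioc ha hb ht)
  time := fun t ht => h.time t (Ioc_subset_Ioc ha hb ht)

/-- left derivative at a point where the function is minimal on the left. -/
theorem deriv_nonpos_of_left_min {f : ℝ → ℝ} {f' a t : ℝ} (hat : a < t)
    (hf : HasDerivAt f f' t) (hmin : ∀ s ∈ Icc a t, f t ≤ f s) : f' ≤ 0 := by
  have h1 : HasDerivWithinAt f f' (Icc a t) t := hf.hasDerivWithinAt
  have h2 : (a - t) ∈ posTangentConeAt (Icc a t) t := by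
    apply mem_posTangentConeAt_of_segment_subset
    rw [add_sub_cancel]
    rw [segment_symm, segment_eq_Icc hat.le]
  have h3 : IsLocalMinOn f (Icc a t) t := by
    filter_upwards [self_mem_nhdsWithin] with s hs
    exact hmin s hs
  have h4 := h3.hasFDerivWithinAt_nonneg h1.hasFDerivWithinAt h2
  simp only [ContinuousLinearMap.toSpanSingleton_apply, smul_eq_mul] at h4
  by_contra hcon
  push Not at hcon
  nlinarith [mul_pos hcon (sub_pos.2 hat)]

theorem Par.comparison (hΩ : SmoothDomain Ω ρ) {d a b : ℝ} (hd : 0 < d)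
    {v v' : ℝ → EuclideanSpace ℝ (Fin n) → ℝ} (hv : Par Ω ρ a b v v')
    (W : ℝ → EuclideanSpace ℝ (Fin n) → ℝ)
    (hW : ContinuousOn (fun p : ℝ × EuclideanSpace ℝ (Fin n) => W p.1 p.2)
      (Icc a b ×ˢ closure Ω))
    (hinit : ∀ x ∈ closure Ω, W a x ≤ v a x)
    (hbdry : ∀ t ∈ Ioc a b, ∀ x ∈ frontier Ω, v t x < W t x →
      ∃ G : EuclideanSpace ℝ (Fin n) →L[ℝ] ℝ,
        HasFDerivWithinAt (W t) G (closure Ω) x ∧ G (gradient ρ x) < 0)
    (hint : ∀ t ∈ Ioc a b, ∀ x ∈ Ω, v t x < W t x →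
      ∃ (Wt : ℝ) (W1 : Fin n → ℝ → ℝ) (W2 : Fin n → ℝ),
        HasDerivAt (fun s => W s x) Wt t ∧
        (∀ k, HasD2 (fun s => W t (x + s • EuclideanSpace.basisFun (Fin n) ℝ k)) (W1 k) (W2 k)) ∧
        Wt - d * ∑ k, W2 k < v' t x - d * Δ (v t) x) :
    ∀ t ∈ Icc a b, ∀ x ∈ closure Ω, W t x ≤ v t x := by
  intro t0 ht0 x0 hx0
  by_contra hcon
  push Not at hcon
  have hcomp : IsCompact (Icc a b ×ˢ closure Ω) := isCompact_Icc.prod hΩ.isCompact_closure
  obtain ⟨⟨t, x⟩, ⟨ht, hx⟩, hmin⟩ := hcomp.exists_isMinOn ⟨(t0, x0), ht0, hx0⟩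
    (hv.cont.sub hW)
  simp only at ht hx
  have hmin' : ∀ s ∈ Icc a b, ∀ y ∈ closure Ω, v t x - W t x ≤ v s y - W s y := by
    intro s hs y hy
    exact hmin (show (s, y) ∈ Icc a b ×ˢ closure Ω from ⟨hs, hy⟩)
  have hneg : v t x < W t x := by
    have := hmin' t0 ht0 x0 hx0
    linarith
  have hta : a < t := by
    rcases lt_or_eq_of_le ht.1 with h | h
    · exact h
    · exfalso
      subst h
      linarith [hinit x hx]
  have ht' : t ∈ Ioc a b := ⟨hta, ht.2⟩
  rcases hΩ.mem_or_frontier hx with hxΩ | hxf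
  · obtain ⟨Wt, W1, W2, hWt, hW2, hlt⟩ := hint t ht' x hxΩ hneg
    have htime : v' t x - Wt ≤ 0 := by
      apply deriv_nonpos_of_left_min hta ((hv.time t ht' x hxΩ).sub hWt)
      intro s hs
      exact hmin' s ⟨hs.1, hs.2.trans ht.2⟩ x hx
    have hlap : Δ (v t) x = ∑ k, iteratedFDeriv ℝ 2 (v t) x
        ![EuclideanSpace.basisFun (Fin n) ℝ k, EuclideanSpace.basisFun (Fin n) ℝ k] :=
      laplacian_eq_sum _ _ _
    have hspace : ∀ k, 0 ≤ iteratedFDeriv ℝ 2 (v t) x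
        ![EuclideanSpace.basisFun (Fin n) ℝ k, EuclideanSpace.basisFun (Fin n) ℝ k] - W2 k := by
      intro k
      have hc : ContDiffAt ℝ 2 (v t) x := (hv.smooth t ht').contDiffAt (hΩ.isOpen.mem_nhds hxΩ)
      have hD := (hasD2_line hc (EuclideanSpace.basisFun (Fin n) ℝ k)).sub (hW2 k)
      apply hD.nonneg_of_min
      have hcl : Tendsto (fun s : ℝ => x + s • EuclideanSpace.basisFun (Fin n) ℝ k) (𝓝 0)
          (𝓝 x) := by
        have : Tendsto (fun s : ℝ => x + s • EuclideanSpace.basisFun (Fin n) ℝ k) (𝓝 0)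
          (𝓝 (x + (0 : ℝ) • EuclideanSpace.basisFun (Fin n) ℝ k)) :=
          Continuous.tendsto (by fun_prop) 0
        simpa using this
      filter_upwards [hcl.eventually (hΩ.isOpen.mem_nhds hxΩ)] with s hs
      have := hmin' t ht _ (subset_closure hs)
      simpa using this
    have hsum : ∑ k, W2 k ≤ Δ (v t) x := by
      rw [hlap]
      apply Finset.sum_le_sum
      intro k _
      linarith [hspace k]
    nlinarith [hsum, hd, htime, hlt]
  · obtain ⟨G, hG, hG2⟩ := hbdry t ht' x hxf hneg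
    obtain ⟨Gv, -, hGv, hGv2⟩ := hv.neumann t ht'
    have h1 := hΩ.boundary_min hxf ((hGv x hx).sub hG) (by
      filter_upwards [self_mem_nhdsWithin] with y hy
      have := hmin' t ht y hy
      simpa using this)
    simp only [sub_apply, hGv2 x hxf] at h1
    linarith

end Run7.h350
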