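import Pool.Agent.Run7.h350.Consts

open Set Filter Topology MeasureTheory
open scoped ContDiff Laplacian

namespace Run7.h350

variable {n : ℕ} {Ω : Set (EuclideanSpace ℝ (Fin n))} {ρ : EuclideanSpace ℝ (Fin n) → ℝ}

theorem HasD2.congr {g g1 h : ℝ → ℝ} {g2 : ℝ} (H : HasD2 g g1 g2)
    (he : ∀ᶠ s in 𝓝 (0 : ℝ), h s = g s) : HasD2 h g1 g2 := by
  refine ⟨?_, H.2⟩
  have he' := he.eventually_nhds
  filter_upwards [H.1, he'] with s a b
  exact a.congr_of_eventuallyEq b

theorem HasD2.congr_d2 {g g1 : ℝ → ℝ} {g2 g2' : ℝ} (H : HasD2 g g1 g2) (h : g2 = g2') :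
    HasD2 g g1 g2' := h ▸ H

/-- squared distance along a line -/
theorem hasD2_normSq (x x0 e : EuclideanSpace ℝ (Fin n)) (he : ‖e‖ = 1) :
    HasD2 (fun s : ℝ => ‖x + s • e - x0‖ ^ 2) (fun s => 2 * inner ℝ (x + s • e - x0) e) 2 := by
  have hline : ∀ s : ℝ, HasDerivAt (fun s : ℝ => x + s • e - x0) e s := by
    intro s
    simpa using (((hasDerivAt_id s).smul_const e).const_add x).sub_const x0
  constructor
  · refine Eventually.of_forall fun s => ?_
    exact (hline s).norm_sq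
  · have h1 := ((hline 0).inner ℝ (hasDerivAt_const (0:ℝ) e)).const_mul 2
    exact h1.congr_deriv (by rw [real_inner_self_eq_norm_sq, he]; simp)

/-- the data of a nonnegative supersolution. -/
structure Super (Ω : Set (EuclideanSpace ℝ (Fin n))) (ρ : EuclideanSpace ℝ (Fin n) → ℝ)
    (d K0 a b : ℝ) (v v' : ℝ → EuclideanSpace ℝ (Fin n) → ℝ) : Prop where
  par : Par Ω ρ a b v v'
  nonneg : ∀ t ∈ Icc a b, ∀ x ∈ closure Ω, 0 ≤ v t x
  ineq : ∀ t ∈ Ioc a b, ∀ x ∈ Ω, -(K0 * v t x) ≤ v' t x - d * Δ (v t) x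

theorem Super.mono {d K0 a b a' b' : ℝ} {v v' : ℝ → EuclideanSpace ℝ (Fin n) → ℝ}
    (h : Super Ω ρ d K0 a b v v') (ha : a ≤ a') (hb : b' ≤ b) : Super Ω ρ d K0 a' b' v v' where
  par := h.par.mono ha hb
  nonneg := fun t ht => h.nonneg t (Icc_subset_Icc ha hb ht)
  ineq := fun t ht => h.ineq t (Ioc_subset_Ioc ha hb ht)

theorem real_key {K0 K y V d Q2 Q L2 g η S σ0 R0 N em : ℝ} (hd : 0 < d) (hy : 0 < y) (hη : 0 < η)
    (hS : S = V + d * Q2) (hQ : |Q| ≤ Q2) (hS0 : 0 ≤ S)
    (hK : K = K0 + (2 * S + 1) / η) (hηg : 2 * η * S ≤ g) (hL2 : 0 ≤ L2)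
    (hsum : em ^ 2 * N ≤ L2) (hN : y ≤ η → R0 / 2 ≤ N) (hg : g = d * em ^ 2 * R0 / 2)
    (hσg : σ0 ≤ g) (hση : σ0 ≤ η) :
    (K0 - K) * y ^ 2 + 2 * y * (V - d * (-Q)) - 2 * d * L2 ≤ -σ0 := by
  have hQabs := abs_le.1 hQ
  have hA1 : 2 * y * (V - d * (-Q)) ≤ 2 * y * S := by
    have h1 : V - d * (-Q) ≤ S := by
      rw [hS]
      have := mul_le_mul_of_nonneg_left hQabs.2 hd.le
      linarith
    exact mul_le_mul_of_nonneg_left h1 (by linarith)
  have hK' : K0 - K = -((2 * S + 1) / η) := by rw [hK]; ring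
  have hdiv : 0 ≤ (2 * S + 1) / η := by positivity
  by_cases hyη : y ≤ η
  · have h1 : (K0 - K) * y ^ 2 ≤ 0 := by
      rw [hK']
      have := mul_nonneg hdiv (sq_nonneg y)
      linarith
    have h2 : 2 * y * S ≤ g := by
      have : 2 * y * S ≤ 2 * η * S := by gcongr
      linarith
    have h4 : em ^ 2 * (R0 / 2) ≤ L2 := by
      have := mul_le_mul_of_nonneg_left (hN hyη) (sq_nonneg em)
      linarith
    have h5 : 2 * g ≤ 2 * d * L2 := by
      have := mul_le_mul_of_nonneg_left h4 (by linarith : 0 ≤ 2 * d)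
      rw [hg]
      linarith
    linarith
  · push Not at hyη
    have h1 : (K0 - K) * y ^ 2 + 2 * y * S ≤ -y := by
      rw [hK']
      have h3 : (2 * S + 1) ≤ (2 * S + 1) / η * y := by
        rw [div_mul_eq_mul_div, le_div_iff₀ hη]
        exact mul_le_mul_of_nonneg_left hyη.le (by linarith)
      have h4 := mul_le_mul_of_nonneg_right h3 hy.le
      nlinarith [h4]
    have h2 : 0 ≤ 2 * d * L2 := by positivity
    linarith

theorem real_final {c K K0 y V d Q L2 σ0 ι Rr nP v vt Δv A E : ℝ}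
    (hkey : (K0 - K) * y ^ 2 + 2 * y * (V - d * (-Q)) - 2 * d * L2 ≤ -σ0)
    (hc : 0 < c) (hK0 : 0 ≤ K0) (hvW : v ≤ c * y ^ 2) (hι : 0 < ι) (hd : 0 < d)
    (hRr : Rr ≤ nP) (hcE : A * E ≤ c) (hσ0 : 0 < σ0)
    (hι1 : ι * (d * nP) < A * E * σ0)
    (hsup : -(K0 * v) ≤ vt - d * Δv) :
    c * (-K) * y ^ 2 + c * (2 * y * V) - d * (c * (2 * L2 - 2 * y * Q) - ι * Rr) <
      vt - d * Δv := by
  have h1 := mul_le_mul_of_nonneg_left hkey hc.le
  have h2 : K0 * v ≤ K0 * (c * y ^ 2) := mul_le_mul_of_nonneg_left hvW hK0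
  have h3 : ι * (d * Rr) ≤ ι * (d * nP) := by gcongr
  have h4 : A * E * σ0 ≤ c * σ0 := by gcongr
  have e1 : c * (-K) * y ^ 2 + c * (2 * y * V) - d * (c * (2 * L2 - 2 * y * Q) - ι * Rr)
    = c * ((K0 - K) * y ^ 2 + 2 * y * (V - d * (-Q)) - 2 * d * L2) - K0 * (c * y ^ 2)
      + ι * (d * Rr) := by ring
  rw [e1]
  linarith

theorem real_Lq {em N w F n0 : ℝ} (hN : N = n0 ^ 2) (hw : em ≤ w) (hn0 : 0 < n0)
    (hF : |F| ≤ em) (hem : 0 < em) {L Ls : ℝ} (hL : L = N * (2 * w + F)) (hLs : L ^ 2 ≤ Ls * N) :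
    em ^ 2 * N ≤ Ls := by
  have hN0 : 0 < N := by rw [hN]; positivity
  have h1 := (abs_le.1 hF).1
  have h4 : em * N ≤ L := by
    rw [hL]
    have : em ≤ 2 * w + F := by linarith
    have := mul_le_mul_of_nonneg_left this hN0.le
    linarith
  have h5 : (em * N) ^ 2 ≤ L ^ 2 := by gcongr
  have h6 : em ^ 2 * N * N ≤ Ls * N := by
    calc em ^ 2 * N * N = (em * N) ^ 2 := by ring
      _ ≤ _ := h5
      _ ≤ _ := hLs
  exact le_of_mul_le_mul_right h6 hN0

theorem one_step (hΩ : SmoothDomain Ω ρ) : ∃ r1 : ℝ, 0 < r1 ∧ ∀ d > 0, ∀ K0 ≥ 0, ∀ r > 0,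
    ∀ δ > 0, ∀ T > 0, ∃ δ' > 0, ∀ (a : ℝ) (v v' : ℝ → EuclideanSpace ℝ (Fin n) → ℝ),
    Super Ω ρ d K0 a (a + T) v v' → ∀ x0 ∈ closure Ω,
    (∀ x ∈ closure Ω, ‖x - x0‖ < r → δ ≤ v a x) →
    ∀ x ∈ closure Ω, ‖x - x0‖ < r1 → δ' ≤ v (a + T) x := by
  obtain ⟨κ, em, B1, B2, Dm, P2, C, p, hκ, hem, hem1, hB1, hB2, hDm, hP2, hC, hp, hpt, hdist,
    hgrad, hbd⟩ := exists_consts hΩ
  set rs := em / (B1 + 1) with hrs
  have hrs0 : 0 < rs := by positivity
  have hBrs : B1 * rs ≤ em := by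
    rw [hrs]
    have : B1 * (em / (B1 + 1)) = em * (B1 / (B1 + 1)) := by ring
    rw [this]
    have h1 : B1 / (B1 + 1) ≤ 1 := by
      rw [div_le_one (by positivity)]; linarith
    nlinarith
  set R1 := em * rs ^ 2 with hR1
  have hR10 : 0 < R1 := by positivity
  refine ⟨rs * em / 2, by positivity, ?_⟩
  intro d hd K0 hK0 r hr δ hδ T hT
  set R0 := min R1 (em * r ^ 2) with hR0
  have hR00 : 0 < R0 := by positivity
  have hR01 : R0 ≤ R1 := min_le_left _ _
  have hR0r : R0 ≤ em * r ^ 2 := min_le_right _ _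
  set A := δ / R0 ^ 2 with hA
  have hA0 : 0 < A := by positivity
  set V := (R1 - R0) / T with hV
  have hV0 : 0 ≤ V := div_nonneg (by linarith) hT.le
  set Q2 := (n : ℝ) * (2 + 4 * Dm * B1 + Dm ^ 2 * B2) with hQ2
  have hQ20 : 0 ≤ Q2 := by positivity
  set S := V + d * Q2 with hS
  have hS0 : 0 ≤ S := by positivity
  set g := d * em ^ 2 * R0 / 2 with hg
  have hg0 : 0 < g := by positivity
  set η := min (R0 / 2) (g / (2 * S + 1)) with hη
  have hη0 : 0 < η := by positivity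
  have hηR : η ≤ R0 / 2 := min_le_left _ _
  have hηg : 2 * η * S ≤ g := by
    have h1 : η ≤ g / (2 * S + 1) := min_le_right _ _
    rw [le_div_iff₀ (by positivity)] at h1
    nlinarith
  set K := K0 + (2 * S + 1) / η with hK
  set σ0 := min g η with hσ0
  have hσ00 : 0 < σ0 := lt_min hg0 hη0
  set E := Real.exp (-(K * T)) with hE
  have hE0 : 0 < E := Real.exp_pos _
  have hKnn : 0 ≤ K := by positivity
  set δ' := A * E * R1 ^ 2 / 8 with hδ'
  have hδ'0 : 0 < δ' := by positivity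
  set ι := min (A * E * σ0 / (d * (n * P2) + 1) / 2) (δ' / (C + 1)) with hι
  have hι0 : 0 < ι := by positivity
  have hι1 : ι * (d * (n * P2)) < A * E * σ0 := by
    have h1 : ι ≤ A * E * σ0 / (d * (n * P2) + 1) / 2 := min_le_left _ _
    have h2 : 0 < A * E * σ0 := by positivity
    have h3 : 0 ≤ d * (n * P2) := by positivity
    have h4 : ι * (d * (n * P2) + 1) ≤ A * E * σ0 / 2 := by
      calc ι * (d * (n * P2) + 1) ≤ A * E * σ0 / (d * (n * P2) + 1) / 2 * (d * (n * P2) + 1) := by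
            gcongr
        _ = A * E * σ0 / 2 := by field_simp
    nlinarith
  have hι2 : ι * C ≤ δ' := by
    have h1 : ι ≤ δ' / (C + 1) := min_le_right _ _
    rw [le_div_iff₀ (by positivity)] at h1
    nlinarith
  refine ⟨δ', hδ'0, ?_⟩
  intro a v v' hv x0 hx0 hinit
  -- the barrier
  set q : EuclideanSpace ℝ (Fin n) → ℝ := fun x => ‖x - x0‖ ^ 2 * wt κ ρ x with hq
  set Rt : ℝ → ℝ := fun t => R0 + V * (t - a) with hRt
  set W : ℝ → EuclideanSpace ℝ (Fin n) → ℝ := fun t x =>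
    A * Real.exp (-(K * (t - a))) * (max (Rt t - q x) 0) ^ 2 - ι * (ρ x + C) with hW
  have hVT : V * T = R1 - R0 := by rw [hV]; field_simp
  have hRt0 : ∀ t ∈ Icc a (a + T), R0 ≤ Rt t := by
    intro t ht
    have : 0 ≤ V * (t - a) := mul_nonneg hV0 (by linarith [ht.1])
    simp only [hRt]; linarith
  have hRt1 : ∀ t ∈ Icc a (a + T), Rt t ≤ R1 := by
    intro t ht
    have : V * (t - a) ≤ V * T := mul_le_mul_of_nonneg_left (by linarith [ht.2]) hV0
    simp only [hRt]; linarith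
  have hwtc : Continuous (wt κ ρ) := (wt_contDiff hΩ κ).continuous
  have hρc : Continuous ρ := hΩ.continuous
  have hqc : Continuous q := by
    simp only [hq]; fun_prop
  have hWc : Continuous (fun p : ℝ × EuclideanSpace ℝ (Fin n) => W p.1 p.2) := by
    simp only [hW, hRt]; fun_prop
  have hρC : ∀ x ∈ closure Ω, 0 ≤ ρ x + C := fun x hx => by
    have := (hpt x hx).2.2.2.2.2
    linarith
  have hqle : ∀ x ∈ closure Ω, q x ≤ ‖x - x0‖ ^ 2 := by
    intro x hx
    have := (hpt x hx).2.1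
    simp only [hq]
    nlinarith [sq_nonneg ‖x - x0‖]
  have hqge : ∀ x ∈ closure Ω, em * ‖x - x0‖ ^ 2 ≤ q x := by
    intro x hx
    have := (hpt x hx).1
    simp only [hq]
    nlinarith [sq_nonneg ‖x - x0‖]
  -- positivity region of the barrier
  have hpos : ∀ t ∈ Icc a (a + T), ∀ x ∈ closure Ω, v t x < W t x → 0 < Rt t - q x := by
    intro t ht x hx hlt
    by_contra hcon
    push Not at hcon
    have h1 : max (Rt t - q x) 0 = 0 := max_eq_right hcon
    have h2 := hv.nonneg t ht x hx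
    have h3 : 0 ≤ ι * (ρ x + C) := mul_nonneg hι0.le (hρC x hx)
    simp only [hW, h1] at hlt
    linarith [hlt]
  have hnear : ∀ t ∈ Icc a (a + T), ∀ x ∈ closure Ω, 0 < Rt t - q x → ‖x - x0‖ ≤ rs := by
    intro t ht x hx hlt
    have h1 := hRt1 t ht
    have h2 := hqge x hx
    have h3 : em * ‖x - x0‖ ^ 2 < em * rs ^ 2 := by linarith
    have h4 : ‖x - x0‖ ^ 2 < rs ^ 2 := lt_of_mul_lt_mul_left h3 hem.le
    exact (lt_of_pow_lt_pow_left₀ 2 hrs0.le h4).le
  have hcomp := hv.par.comparison hΩ hd W hWc.continuousOn ?_ ?_ ?_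
  · -- conclusion
    intro x hx hxr
    have h1 := hcomp (a + T) ⟨by linarith, le_rfl⟩ x hx
    have h2 : q x ≤ R1 / 2 := by
      have h3 := hqle x hx
      have h4 : ‖x - x0‖ ^ 2 ≤ (rs * em / 2) ^ 2 := by gcongr
      have h5 : (rs * em / 2) ^ 2 ≤ R1 / 2 := by
        rw [hR1]
        have : (rs * em / 2) ^ 2 = em * rs ^ 2 * (em / 4) := by ring
        rw [this]
        have h6 : 0 < em * rs ^ 2 := by positivity
        nlinarith
      linarith
    have h3 : Rt (a + T) = R1 := by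
      simp only [hRt]; rw [add_sub_cancel_left]; linarith
    have h4 : R1 / 2 ≤ max (Rt (a + T) - q x) 0 := by
      rw [h3]; exact le_max_of_le_left (by linarith)
    have h5 : (R1 / 2) ^ 2 ≤ (max (Rt (a + T) - q x) 0) ^ 2 := by gcongr
    have h6 : A * E * (R1 / 2) ^ 2 ≤ A * E * (max (Rt (a + T) - q x) 0) ^ 2 := by gcongr
    have h7 : ι * (ρ x + C) ≤ ι * C := by
      have := hΩ.closure_le hx
      gcongr
      linarith
    have h8 : W (a + T) x = A * E * (max (Rt (a + T) - q x) 0) ^ 2 - ι * (ρ x + C) := by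
      simp only [hW, hE]
      rw [add_sub_cancel_left]
    rw [h8] at h1
    have h9 : A * E * (R1 / 2) ^ 2 = 2 * δ' := by rw [hδ']; ring
    linarith
  · -- initial condition
    intro x hx
    have h0 : W a x = A * (max (R0 - q x) 0) ^ 2 - ι * (ρ x + C) := by
      simp only [hW, hRt]; simp
    rw [h0]
    have h3 : 0 ≤ ι * (ρ x + C) := mul_nonneg hι0.le (hρC x hx)
    by_cases hlt : q x < R0
    · have h1 : em * ‖x - x0‖ ^ 2 < em * r ^ 2 := by linarith [hqge x hx]
      have h2 : ‖x - x0‖ ^ 2 < r ^ 2 := lt_of_mul_lt_mul_left h1 hem.le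
      have h4 := hinit x hx (lt_of_pow_lt_pow_left₀ 2 hr.le h2)
      have h5 : max (R0 - q x) 0 ≤ R0 := by
        apply max_le _ hR00.le
        have : 0 ≤ q x := le_trans (by positivity) (hqge x hx)
        linarith
      have h6 : (max (R0 - q x) 0) ^ 2 ≤ R0 ^ 2 := by
        have : 0 ≤ max (R0 - q x) 0 := le_max_right _ _
        gcongr
      have h7 : A * (max (R0 - q x) 0) ^ 2 ≤ A * R0 ^ 2 := by gcongr
      have h8 : A * R0 ^ 2 = δ := by rw [hA]; field_simp
      linarith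
    · have h1 : max (R0 - q x) 0 = 0 := max_eq_right (by linarith [not_lt.1 hlt])
      rw [h1]
      have := hv.nonneg a ⟨le_rfl, by linarith⟩ x hx
      linarith
  · -- boundary condition
    intro t ht x hx hlt
    have hxc : x ∈ closure Ω := hx.1
    have htI : t ∈ Icc a (a + T) := ⟨ht.1.le, ht.2⟩
    have hy := hpos t htI x hxc hlt
    set Lq : EuclideanSpace ℝ (Fin n) →L[ℝ] ℝ :=
      ‖x - x0‖ ^ 2 • fderiv ℝ (wt κ ρ) x + wt κ ρ x • (2 • (innerSL ℝ (x - x0))) with hLq
    have hqd : HasFDerivAt q Lq x := by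
      have h1 : HasFDerivAt (fun x => ‖x - x0‖ ^ 2) (2 • (innerSL ℝ (x - x0))) x := by
        have := ((hasFDerivAt_id x).sub_const x0).norm_sq
        simpa using this
      have h2 : HasFDerivAt (wt κ ρ) (fderiv ℝ (wt κ ρ) x) x :=
        ((wt_contDiff hΩ κ).differentiable (by simp) x).hasFDerivAt
      exact h1.mul h2
    have hyd : HasFDerivAt (fun x => (Rt t - q x)) (-Lq) x := hqd.const_sub _
    set c := A * Real.exp (-(K * (t - a))) with hc
    have hc0 : 0 < c := by positivity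
    have hsm : HasFDerivAt (fun x => c * (Rt t - q x) ^ 2 - ι * (ρ x + C))
        (c • ((2 * (Rt t - q x)) • (-Lq)) - ι • fderiv ℝ ρ x) x := by
      have h1 : HasFDerivAt (fun x => (Rt t - q x) ^ 2) ((2 * (Rt t - q x)) • (-Lq)) x := by
        have := hyd.pow 2
        simpa using this
      have h2 : HasFDerivAt (fun x => ρ x + C) (fderiv ℝ ρ x) x :=
        (hΩ.differentiable x).hasFDerivAt.add_const _
      exact (h1.const_mul c).sub (h2.const_mul ι)
    have hWd : HasFDerivAt (W t) (c • ((2 * (Rt t - q x)) • (-Lq)) - ι • fderiv ℝ ρ x) x := by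
      apply hsm.congr_of_eventuallyEq
      have : ∀ᶠ z in 𝓝 x, 0 < Rt t - q z :=
        (continuous_const.sub hqc).continuousAt.eventually (lt_mem_nhds hy)
      filter_upwards [this] with z hz
      simp only [hW, hc]
      rw [max_eq_left hz.le]
    refine ⟨_, hWd.hasFDerivWithinAt, ?_⟩
    have hb := hbd x hx x0 hx0
    have hLn : Lq (gradient ρ x) = wt κ ρ x *
        (2 * fderiv ℝ ρ x (x - x0) + κ * ‖x - x0‖ ^ 2 * ‖gradient ρ x‖ ^ 2) := by
      simp only [hLq, add_apply, smul_apply, smul_eq_mul,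
        innerSL_apply_apply, nsmul_eq_mul, wt_fderiv hΩ]
      rw [fderiv_eq_inner x (gradient ρ x), fderiv_eq_inner x (x - x0), real_inner_self_eq_norm_sq,
        real_inner_comm (gradient ρ x) (x - x0)]
      push_cast
      ring
    have hLn0 : 0 ≤ Lq (gradient ρ x) := by
      rw [hLn]
      apply mul_nonneg (Real.exp_pos _).le
      exact le_trans (by positivity) hb
    have hgn : 0 < fderiv ℝ ρ x (gradient ρ x) := by
      rw [fderiv_eq_inner, real_inner_self_eq_norm_sq]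
      have : 0 < ‖gradient ρ x‖ := lt_of_lt_of_le hp (hgrad x hx)
      positivity
    simp only [sub_apply, smul_apply,
      neg_apply, smul_eq_mul]
    have h1 : 0 ≤ c * (2 * (Rt t - q x) * Lq (gradient ρ x)) := by positivity
    have h2 : 0 < ι * fderiv ℝ ρ x (gradient ρ x) := by positivity
    nlinarith [h1, h2]
  · -- interior inequality
    intro t ht x hx hlt
    have hxc : x ∈ closure Ω := subset_closure hx
    have htI : t ∈ Icc a (a + T) := ⟨ht.1.le, ht.2⟩
    have hy := hpos t htI x hxc hlt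
    have hnr := hnear t htI x hxc hy
    set y := Rt t - q x with hydef
    set c := A * Real.exp (-(K * (t - a))) with hc
    have hc0 : 0 < c := by positivity
    obtain ⟨hw1, hw2, hw3, hw4, hw5, hw6⟩ := hpt x hxc
    -- time derivative
    have hWt : HasDerivAt (fun s => W s x) (c * (-K) * y ^ 2 + c * (2 * y * V)) t := by
      have h1 : HasDerivAt (fun s => A * Real.exp (-(K * (s - a)))) (c * (-K)) t := by
        have h2 : HasDerivAt (fun s => -(K * (s - a))) (-K) t := by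
          have := (((hasDerivAt_id t).sub_const a).const_mul K).neg
          exact this.congr_deriv (by ring)
        have := (h2.exp).const_mul A
        exact this.congr_deriv (by rw [hc]; ring)
      have h3 : HasDerivAt (fun s => (Rt s - q x) ^ 2) (2 * y * V) t := by
        have h4 : HasDerivAt (fun s => Rt s - q x) V t := by
          have := ((((hasDerivAt_id t).sub_const a).const_mul V).const_add R0).sub_const (q x)
          exact this.congr_deriv (by ring)
        have := h4.pow 2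
        exact this.congr_deriv (by rw [hydef]; simp)
      have h5 : HasDerivAt (fun s => A * Real.exp (-(K * (s - a))) * (Rt s - q x) ^ 2
          - ι * (ρ x + C)) (c * (-K) * y ^ 2 + c * (2 * y * V)) t := (h1.mul h3).sub_const _
      apply h5.congr_of_eventuallyEq
      have hRc : Continuous Rt := by simp only [hRt]; fun_prop
      have : ∀ᶠ s in 𝓝 t, 0 < Rt s - q x :=
        (hRc.sub continuous_const).continuousAt.eventually (lt_mem_nhds hy)
      filter_upwards [this] with z hz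
      simp only [hW]
      rw [max_eq_left hz.le]
    set e : Fin n → EuclideanSpace ℝ (Fin n) := fun k => EuclideanSpace.basisFun (Fin n) ℝ k with he
    have hen : ∀ k, ‖e k‖ = 1 := fun k => (EuclideanSpace.basisFun (Fin n) ℝ).orthonormal.1 k
    set Lq : EuclideanSpace ℝ (Fin n) →L[ℝ] ℝ :=
      ‖x - x0‖ ^ 2 • fderiv ℝ (wt κ ρ) x + wt κ ρ x • (2 • (innerSL ℝ (x - x0))) with hLq
    set q2 : Fin n → ℝ := fun k => 2 * wt κ ρ x
      + 2 * (2 * inner ℝ (x - x0) (e k) * fderiv ℝ (wt κ ρ) x (e k))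
      + ‖x - x0‖ ^ 2 * iteratedFDeriv ℝ 2 (wt κ ρ) x ![e k, e k] with hq2
    have hq2b : ∀ k, |q2 k| ≤ 2 + 4 * Dm * B1 + Dm ^ 2 * B2 := by
      intro k
      have h1 : |2 * wt κ ρ x| ≤ 2 := by
        rw [abs_of_nonneg (by linarith)]; linarith
      have h2 : |inner ℝ (x - x0) (e k)| ≤ Dm := by
        have := abs_real_inner_le_norm (x - x0) (e k)
        rw [hen k, mul_one] at this
        exact this.trans (hdist x hxc x0 hx0)
      have h3 : |fderiv ℝ (wt κ ρ) x (e k)| ≤ B1 := by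
        have := (fderiv ℝ (wt κ ρ) x).le_opNorm (e k)
        rw [hen k, mul_one, Real.norm_eq_abs] at this
        exact this.trans hw3
      have h4 : |iteratedFDeriv ℝ 2 (wt κ ρ) x ![e k, e k]| ≤ B2 := by
        have := hw4 (e k)
        rw [hen k] at this
        simpa using this
      have h5 : |2 * (2 * inner ℝ (x - x0) (e k) * fderiv ℝ (wt κ ρ) x (e k))| ≤ 4 * Dm * B1 := by
        rw [abs_mul, abs_mul, abs_mul]
        have : |(2:ℝ)| = 2 := abs_of_pos (by norm_num)
        rw [this]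
        have : |inner ℝ (x - x0) (e k)| * |fderiv ℝ (wt κ ρ) x (e k)| ≤ Dm * B1 := by gcongr
        linarith
      have h6 : |‖x - x0‖ ^ 2 * iteratedFDeriv ℝ 2 (wt κ ρ) x ![e k, e k]| ≤ Dm ^ 2 * B2 := by
        rw [abs_mul, abs_of_nonneg (by positivity : (0:ℝ) ≤ ‖x - x0‖ ^ 2)]
        have := hdist x hxc x0 hx0
        gcongr
      calc |q2 k| ≤ |2 * wt κ ρ x| + |2 * (2 * inner ℝ (x - x0) (e k) * fderiv ℝ (wt κ ρ) x (e k))|
            + |‖x - x0‖ ^ 2 * iteratedFDeriv ℝ 2 (wt κ ρ) x ![e k, e k]| := abs_add_three _ _ _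
        _ ≤ _ := by linarith
    have hqD2 : ∀ k, ∃ q1 : ℝ → ℝ, q1 0 = Lq (e k) ∧
        HasD2 (fun s : ℝ => q (x + s • e k)) q1 (q2 k) := by
      intro k
      have h1 := (hasD2_normSq x x0 (e k) (hen k)).mul (hasD2_line
        ((wt_contDiff hΩ κ).contDiffAt.of_le (by norm_cast) : ContDiffAt ℝ 2 (wt κ ρ) x) (e k))
      refine ⟨fun s => 2 * inner ℝ (x + s • e k - x0) (e k) * wt κ ρ (x + s • e k)
        + ‖x + s • e k - x0‖ ^ 2 * fderiv ℝ (wt κ ρ) (x + s • e k) (e k), ?_, ?_⟩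
      · simp only [zero_smul, add_zero, hLq, add_apply,
          smul_apply, smul_eq_mul, innerSL_apply_apply, nsmul_eq_mul]
        push_cast
        ring
      · convert h1 using 1
        simp only [hq2, zero_smul, add_zero]
    choose q1 hq10 hq1 using hqD2
    set W2 : Fin n → ℝ := fun k =>
      c * (2 * (Lq (e k)) ^ 2 - 2 * y * q2 k) - ι * iteratedFDeriv ℝ 2 ρ x ![e k, e k] with hW2
    have hWD2 : ∀ k, ∃ W1 : ℝ → ℝ, HasD2 (fun s : ℝ => W t (x + s • e k)) W1 (W2 k) := by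
      intro k
      have hy1 : HasD2 (fun s : ℝ => Rt t - q (x + s • e k)) (fun s => 0 - q1 k s) (0 - q2 k) :=
        (HasD2.const (Rt t)).sub (hq1 k)
      have hy2 := (hy1.mul hy1).const_mul c
      have hρ2 : HasD2 (fun s : ℝ => ρ (x + s • e k)) _ _ :=
        hasD2_line (hΩ.smooth.contDiffAt.of_le (by norm_cast)) (e k)
      have hρ3 := (hρ2.add (HasD2.const C)).const_mul ι
      have hfin := hy2.sub hρ3
      have hcl : Tendsto (fun s : ℝ => x + s • e k) (𝓝 0) (𝓝 x) := by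
        have : Tendsto (fun s : ℝ => x + s • e k) (𝓝 0) (𝓝 (x + (0 : ℝ) • e k)) :=
          Continuous.tendsto (by fun_prop) 0
        simpa using this
      have hev : ∀ᶠ s in 𝓝 (0:ℝ), 0 < Rt t - q (x + s • e k) :=
        hcl.eventually ((continuous_const.sub hqc).continuousAt.eventually (lt_mem_nhds hy))
      have h3 := hfin.congr (h := fun s : ℝ => W t (x + s • e k)) (by
          filter_upwards [hev] with s hs
          simp only [hW, hc]
          rw [max_eq_left hs.le]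
          ring)
      exact ⟨_, h3.congr_d2 (by simp only [hW2, zero_smul, add_zero, hq10]; ring)⟩
    choose W1 hW1 using hWD2
    refine ⟨_, W1, W2, hWt, hW1, ?_⟩
    -- the final inequality
    have hsumL : em ^ 2 * ‖x - x0‖ ^ 2 ≤ ∑ k, (Lq (e k)) ^ 2 := by
      by_cases hxx : x = x0
      · subst hxx
        simp only [sub_self, norm_zero]
        have : 0 ≤ ∑ k, (Lq (e k)) ^ 2 := Finset.sum_nonneg fun k _ => sq_nonneg _
        simpa using this
      · have hn0 : 0 < ‖x - x0‖ := norm_pos_iff.2 (sub_ne_zero.2 hxx)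
        have h1 := clm_sq_le Lq (x - x0)
        have h2 : Lq (x - x0) = ‖x - x0‖ ^ 2 * (2 * wt κ ρ x + fderiv ℝ (wt κ ρ) x (x - x0)) := by
          simp only [hLq, add_apply, smul_apply, smul_eq_mul, innerSL_apply_apply, nsmul_eq_mul,
            real_inner_self_eq_norm_sq]
          push_cast
          ring
        have h3 : |fderiv ℝ (wt κ ρ) x (x - x0)| ≤ em := by
          have h4 := (fderiv ℝ (wt κ ρ) x).le_opNorm (x - x0)
          rw [Real.norm_eq_abs] at h4
          calc |fderiv ℝ (wt κ ρ) x (x - x0)| ≤ ‖fderiv ℝ (wt κ ρ) x‖ * ‖x - x0‖ := h4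
            _ ≤ B1 * rs := by gcongr
            _ ≤ em := hBrs
        exact real_Lq rfl hw1 hn0 h3 hem h2 h1
    have hsumq : |∑ k, q2 k| ≤ Q2 := by
      calc |∑ k, q2 k| ≤ ∑ k, |q2 k| := Finset.abs_sum_le_sum_abs _ _
        _ ≤ ∑ _k : Fin n, (2 + 4 * Dm * B1 + Dm ^ 2 * B2) := Finset.sum_le_sum fun k _ => hq2b k
        _ = Q2 := by rw [hQ2, Finset.sum_const, Finset.card_univ, Fintype.card_fin, nsmul_eq_mul]
    have hsumρ : |∑ k, iteratedFDeriv ℝ 2 ρ x ![e k, e k]| ≤ n * P2 := by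
      calc |∑ k, iteratedFDeriv ℝ 2 ρ x ![e k, e k]|
          ≤ ∑ k, |iteratedFDeriv ℝ 2 ρ x ![e k, e k]| := Finset.abs_sum_le_sum_abs _ _
        _ ≤ ∑ _k : Fin n, P2 := by
            apply Finset.sum_le_sum
            intro k _
            have := hw5 (e k)
            rw [hen k] at this
            simpa using this
        _ = n * P2 := by simp
    have hsumW : ∑ k, W2 k = c * (2 * ∑ k, (Lq (e k)) ^ 2 - 2 * y * ∑ k, q2 k)
        - ι * ∑ k, iteratedFDeriv ℝ 2 ρ x ![e k, e k] := by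
      simp only [hW2, Finset.sum_sub_distrib, ← Finset.mul_sum]
    rw [hsumW]
    set L2 := ∑ k, (Lq (e k)) ^ 2 with hL2
    set Q := ∑ k, q2 k with hQ
    set Rr := ∑ k, iteratedFDeriv ℝ 2 ρ x ![e k, e k] with hRr
    have hL2nn : 0 ≤ L2 := Finset.sum_nonneg fun k _ => sq_nonneg _
    -- main bracket
    have hkey : (K0 - K) * y ^ 2 + 2 * y * (V - d * (-Q)) - 2 * d * L2 ≤ -σ0 := by
      refine real_key hd hy hη0 hS hsumq hS0 hK hηg hL2nn hsumL ?_ hg (min_le_left _ _)
        (min_le_right _ _)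
      intro hyη
      have h4 := hqle x hxc
      have h5 := hRt0 t htI
      have h6 : q x = Rt t - y := by rw [hydef]; ring
      linarith
    have hsup := hv.ineq t ht x hx
    have hvW : v t x ≤ c * y ^ 2 := by
      have h1 : W t x = c * y ^ 2 - ι * (ρ x + C) := by
        simp only [hW, hc, hydef]
        rw [max_eq_left hy.le]
      have h2 : 0 ≤ ι * (ρ x + C) := mul_nonneg hι0.le (hρC x hxc)
      linarith
    have hcE : A * E ≤ c := by
      rw [hc, hE]
      have : Real.exp (-(K * T)) ≤ Real.exp (-(K * (t - a))) := by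
        rw [Real.exp_le_exp]
        have : t - a ≤ T := by linarith [ht.2]
        nlinarith
      gcongr
    exact real_final hkey hc0 hK0 hvW hι0 hd (abs_le.1 hsumρ).2 hcE hσ00 hι1 hsup

end Run7.h350
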