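import Pool.Agent.Run7.h350.MaxPr

open Set Filter Topology MeasureTheory
open scoped ContDiff Laplacian

namespace Run7.h350

variable {n N : ℕ} {Ω : Set (EuclideanSpace ℝ (Fin n))} {ρ : EuclideanSpace ℝ (Fin n) → ℝ}

theorem laplacian_add_const_sub {c : ℝ} {f g : EuclideanSpace ℝ (Fin n) → ℝ}
    {x : EuclideanSpace ℝ (Fin n)} (hf : ContDiffAt ℝ 2 f x) (hg : ContDiffAt ℝ 2 g x) :
    Δ (fun y => c + (f y - g y)) x = Δ f x - Δ g x := by
  have h1 : (fun y => c + (f y - g y)) = (fun _ => c) + (f - g) := by ext y; simp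
  have hfg : ContDiffAt ℝ 2 (f - g) x := hf.sub hg
  have hcc : ContDiffAt ℝ 2 (fun _ : EuclideanSpace ℝ (Fin n) => c) x := contDiffAt_const
  rw [h1, ContDiffAt.laplacian_add hcc hfg]
  have h2 : f - g = f + (fun y => (-1 : ℝ) * g y) := by ext y; simp [sub_eq_add_neg]
  rw [h2, ContDiffAt.laplacian_add hf (contDiffAt_const.mul hg), laplacian_const_mul' _ hg]
  have h3 : Δ (fun _ : EuclideanSpace ℝ (Fin n) => c) x = 0 := by
    rw [laplacian_eq_sum _ x (EuclideanSpace.basisFun (Fin n) ℝ)]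
    apply Finset.sum_eq_zero
    intro k _
    rw [iteratedFDeriv_const_of_ne two_ne_zero]
    simp
  rw [h3]; ring

theorem laplacian_const_sub {c : ℝ} {g : EuclideanSpace ℝ (Fin n) → ℝ}
    {x : EuclideanSpace ℝ (Fin n)} (hg : ContDiffAt ℝ 2 g x) :
    Δ (fun y => c - g y) x = - Δ g x := by
  have h1 : (fun y => c - g y) = fun y => c + ((fun _ => (0:ℝ)) y - g y) := by ext y; simp; ring
  rw [h1, laplacian_add_const_sub contDiffAt_const hg]
  have h3 : Δ (fun _ : EuclideanSpace ℝ (Fin n) => (0:ℝ)) x = 0 := by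
    rw [laplacian_eq_sum _ x (EuclideanSpace.basisFun (Fin n) ℝ)]
    apply Finset.sum_eq_zero
    intro k _
    simp
  rw [h3]; ring

/-- the components of a trajectory on `[0,∞)` -/
theorem IsTrajectory.par {m : EuclideanSpace ℝ (Fin n) → ℝ} {d : Fin N → ℝ}
    {u : Fin N → ℝ → EuclideanSpace ℝ (Fin n) → ℝ} (h : IsTrajectory (Ici 0) Ω ρ m d u)
    (j : Fin N) (b : ℝ) : Par Ω ρ 0 b (u j) (fun t x => deriv (fun s => u j s x) t) := by
  have hmem : ∀ t ∈ Ioc 0 b, t ∈ interior (Ici (0:ℝ)) := by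
    intro t ht; rw [interior_Ici]; exact ht.1
  exact ⟨(h.cont j).mono (prod_mono (fun t ht => ht.1) Subset.rfl),
    fun t ht => h.neumann j t (hmem t ht), fun t ht => h.smooth j t (hmem t ht),
    fun t ht x hx => (h.time_diff j t (hmem t ht) x (subset_closure hx)).hasDerivAt⟩

/-- a-priori bound for all trajectories -/
theorem IsTrajectory.bounded (hΩ : SmoothDomain Ω ρ) {m : EuclideanSpace ℝ (Fin n) → ℝ}
    {d : Fin N → ℝ} (hd : ∀ j, 0 < d j)
    {u : Fin N → ℝ → EuclideanSpace ℝ (Fin n) → ℝ} (h : IsTrajectory (Ici 0) Ω ρ m d u)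
    {M : ℝ} (hM : 0 ≤ M) (hmM : ∀ x ∈ closure Ω, m x ≤ M)
    (h0 : ∀ j, ∀ x ∈ closure Ω, u j 0 x ≤ M) :
    ∀ j, ∀ t ∈ Ici (0:ℝ), ∀ x ∈ closure Ω, u j t x ≤ M := by
  intro j t ht x hx
  have hp := h.par j t
  have hpar : Par Ω ρ 0 t (fun s y => M - u j s y)
      (fun s y => -(deriv (fun r => u j r y) s)) := by
    refine ⟨continuousOn_const.sub hp.cont, fun s hs => (hp.neumann s hs).const_sub' M,
      fun s hs => contDiffOn_const.sub (hp.smooth s hs),
      fun s hs y hy => (hp.time s hs y hy).const_sub M⟩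
  have h1 := hpar.nonneg_of_super hΩ (hd j) (K := 0)
    (fun y hy => by simpa using h0 j y hy) (fun s hs y hy hneg => by
      have hsI : s ∈ interior (Ici (0:ℝ)) := by rw [interior_Ici]; exact hs.1
      have hs0 : s ∈ Ici (0:ℝ) := hs.1.le
      have hyc := subset_closure hy
      rw [laplacian_const_sub ((hp.smooth s hs).contDiffAt (hΩ.isOpen.mem_nhds hy)),
        h.pde j s hsI y hy]
      have h2 := hmM y hyc
      have h3 := h.nonneg j s hs0 y hyc
      have h4 : u j s y ≤ ∑ i, u i s y :=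
        Finset.single_le_sum (f := fun i => u i s y) (fun i _ => h.nonneg i s hs0 y hyc)
          (Finset.mem_univ j)
      have h5 : 0 ≤ u j s y * (∑ i, u i s y - m y) := mul_nonneg h3 (by linarith)
      linarith) t (right_mem_Icc.2 ht) x hx
  linarith

/-- an upper bound for the non-leading species on bounded time intervals -/
theorem IsTrajectory.small (hΩ : SmoothDomain Ω ρ) {m : EuclideanSpace ℝ (Fin n) → ℝ}
    {d : Fin N → ℝ} (hd : ∀ j, 0 < d j)
    {u : Fin N → ℝ → EuclideanSpace ℝ (Fin n) → ℝ} (h : IsTrajectory (Ici 0) Ω ρ m d u)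
    {K : ℝ} (hmK : ∀ x ∈ closure Ω, m x ≤ K) (j : Fin N) {δ : ℝ}
    (h0 : ∀ x ∈ closure Ω, u j 0 x ≤ δ) :
    ∀ t ∈ Ici (0:ℝ), ∀ x ∈ closure Ω, u j t x ≤ δ * Real.exp (K * t) := by
  intro t ht x hx
  have hp := h.par j t
  have hpar : Par Ω ρ 0 t (fun s y => δ * Real.exp (K * s) - u j s y)
      (fun s y => δ * (K * Real.exp (K * s)) - (deriv (fun r => u j r y) s)) := by
    refine ⟨ContinuousOn.sub (Continuous.continuousOn (by fun_prop)) hp.cont,
      fun s hs => (hp.neumann s hs).const_sub' _,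
      fun s hs => contDiffOn_const.sub (hp.smooth s hs), fun s hs y hy => ?_⟩
    have h1 : HasDerivAt (fun r : ℝ => K * r) K s := by
      simpa using (hasDerivAt_id s).const_mul K
    exact (((h1.exp.const_mul δ).sub (hp.time s hs y hy))).congr_deriv (by ring)
  have h1 := hpar.nonneg_of_super hΩ (hd j) (K := K)
    (fun y hy => by simpa using h0 y hy) (fun s hs y hy _ => by
      have hsI : s ∈ interior (Ici (0:ℝ)) := by rw [interior_Ici]; exact hs.1
      have hs0 : s ∈ Ici (0:ℝ) := hs.1.le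
      have hyc := subset_closure hy
      rw [laplacian_const_sub ((hp.smooth s hs).contDiffAt (hΩ.isOpen.mem_nhds hy)),
        h.pde j s hsI y hy]
      have h2 := hmK y hyc
      have h3 := h.nonneg j s hs0 y hyc
      have h4 : 0 ≤ ∑ i, u i s y := Finset.sum_nonneg fun i _ => h.nonneg i s hs0 y hyc
      have h5 : 0 ≤ u j s y * (K - (m y - ∑ i, u i s y)) := mul_nonneg h3 (by linarith)
      linarith) t (right_mem_Icc.2 ht) x hx
  linarith

/-- the leading species stays close to its steady state from above on bounded time intervals -/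
theorem IsTrajectory.upper (hΩ : SmoothDomain Ω ρ) {m : EuclideanSpace ℝ (Fin n) → ℝ}
    {d : Fin N → ℝ} (hd : ∀ j, 0 < d j)
    {u : Fin N → ℝ → EuclideanSpace ℝ (Fin n) → ℝ} (h : IsTrajectory (Ici 0) Ω ρ m d u)
    {k : Fin N} {θ : EuclideanSpace ℝ (Fin n) → ℝ} (hθ : IsSteady Ω ρ m (d k) θ)
    (hθ0 : ∀ x ∈ closure Ω, 0 < θ x)
    {K : ℝ} (hK : 0 ≤ K) (hmK : ∀ x ∈ closure Ω, m x ≤ K) {δ : ℝ} (hδ : 0 ≤ δ)
    (h0 : ∀ x ∈ closure Ω, u k 0 x ≤ θ x + δ) :
    ∀ t ∈ Ici (0:ℝ), ∀ x ∈ closure Ω, u k t x ≤ θ x + δ * Real.exp (K * t) := by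
  intro t ht x hx
  have hp := h.par k t
  have hpar : Par Ω ρ 0 t (fun s y => δ * Real.exp (K * s) + (θ y - u k s y))
      (fun s y => δ * (K * Real.exp (K * s)) - (deriv (fun r => u k r y) s)) := by
    refine ⟨ContinuousOn.add (Continuous.continuousOn (by fun_prop))
        ((hθ.neumann.continuousOn.comp continuousOn_snd fun p hp => hp.2).sub hp.cont),
      fun s hs => (hθ.neumann.sub' (hp.neumann s hs)).const_add' _,
      fun s hs => contDiffOn_const.add (hθ.smooth.sub (hp.smooth s hs)), fun s hs y hy => ?_⟩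
    have h1 : HasDerivAt (fun r : ℝ => K * r) K s := by
      simpa using (hasDerivAt_id s).const_mul K
    exact ((h1.exp.const_mul δ).add ((hp.time s hs y hy).const_sub (θ y))).congr_deriv (by ring)
  have h1 := hpar.nonneg_of_super hΩ (hd k) (K := K)
    (fun y hy => by
      have := h0 y hy
      simp only [mul_zero, Real.exp_zero, mul_one]
      linarith) (fun s hs y hy hneg => by
      have hsI : s ∈ interior (Ici (0:ℝ)) := by rw [interior_Ici]; exact hs.1
      have hs0 : s ∈ Ici (0:ℝ) := hs.1.le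
      have hyc := subset_closure hy
      rw [laplacian_add_const_sub (hθ.smooth.contDiffAt (hΩ.isOpen.mem_nhds hy))
        ((hp.smooth s hs).contDiffAt (hΩ.isOpen.mem_nhds hy)), h.pde k s hsI y hy]
      have h2 := hmK y hyc
      have h3 := h.nonneg k s hs0 y hyc
      have h6 := hθ0 y hyc
      have h4 : u k s y ≤ ∑ i, u i s y :=
        Finset.single_le_sum (f := fun i => u i s y) (fun i _ => h.nonneg i s hs0 y hyc)
          (Finset.mem_univ k)
      have h5 := hθ.pde y hy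
      obtain ⟨E, hE⟩ : ∃ E, E = δ * Real.exp (K * s) := ⟨_, rfl⟩
      have hE0 : 0 ≤ E := by rw [hE]; positivity
      obtain ⟨v, hv⟩ : ∃ v, v = u k s y := ⟨_, rfl⟩
      obtain ⟨R, hR⟩ : ∃ R, R = ∑ i, u i s y := ⟨_, rfl⟩
      rw [← hv] at h3 h4 hneg ⊢
      rw [← hR] at h4 ⊢
      rw [← hE] at hneg ⊢
      have e1 : δ * (K * Real.exp (K * s)) = K * E := by rw [hE]; ring
      rw [e1]
      have e2 : v * (R - v) ≥ 0 := mul_nonneg h3 (by linarith)
      have e3 : 0 ≤ (v - θ y) * (K - (m y - θ y - v)) :=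
        mul_nonneg (by linarith) (by linarith)
      nlinarith) t (right_mem_Icc.2 ht) x hx
  linarith

/-- the leading species stays close to its steady state from below on bounded time intervals -/
theorem IsTrajectory.lower (hΩ : SmoothDomain Ω ρ) {m : EuclideanSpace ℝ (Fin n) → ℝ}
    {d : Fin N → ℝ} (hd : ∀ j, 0 < d j)
    {u : Fin N → ℝ → EuclideanSpace ℝ (Fin n) → ℝ} (h : IsTrajectory (Ici 0) Ω ρ m d u)
    {k : Fin N} {θ : EuclideanSpace ℝ (Fin n) → ℝ} (hθ : IsSteady Ω ρ m (d k) θ)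
    (hθ0 : ∀ x ∈ closure Ω, 0 < θ x) {M : ℝ} (hM : 0 ≤ M)
    (hbM : ∀ j, ∀ t ∈ Ici (0:ℝ), ∀ x ∈ closure Ω, u j t x ≤ M)
    {K : ℝ} (hK : 0 ≤ K) (hmK : ∀ x ∈ closure Ω, m x ≤ K) {δ : ℝ} (hδ : 0 ≤ δ)
    (h0 : ∀ x ∈ closure Ω, θ x - δ ≤ u k 0 x)
    (h0' : ∀ j, j ≠ k → ∀ x ∈ closure Ω, u j 0 x ≤ δ) :
    ∀ t ∈ Ici (0:ℝ), ∀ x ∈ closure Ω, θ x - δ * Real.exp ((K + N * M) * t) ≤ u k t x := by
  intro t ht x hx
  obtain ⟨K2, hK2⟩ : ∃ K2, K2 = K + N * M := ⟨_, rfl⟩
  rw [← hK2]
  have hKK2 : K ≤ K2 := by rw [hK2]; have : 0 ≤ (N:ℝ) * M := by positivity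
                           linarith
  have hp := h.par k t
  have hpar : Par Ω ρ 0 t (fun s y => δ * Real.exp (K2 * s) + (u k s y - θ y))
      (fun s y => δ * (K2 * Real.exp (K2 * s)) + (deriv (fun r => u k r y) s)) := by
    refine ⟨ContinuousOn.add (Continuous.continuousOn (by fun_prop))
        (hp.cont.sub (hθ.neumann.continuousOn.comp continuousOn_snd fun p hp => hp.2)),
      fun s hs => ((hp.neumann s hs).sub' hθ.neumann).const_add' _,
      fun s hs => contDiffOn_const.add ((hp.smooth s hs).sub hθ.smooth), fun s hs y hy => ?_⟩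
    have h1 : HasDerivAt (fun r : ℝ => K2 * r) K2 s := by
      simpa using (hasDerivAt_id s).const_mul K2
    exact ((h1.exp.const_mul δ).add ((hp.time s hs y hy).sub_const (θ y))).congr_deriv (by ring)
  have h1 := hpar.nonneg_of_super hΩ (hd k) (K := K)
    (fun y hy => by
      have := h0 y hy
      simp only [mul_zero, Real.exp_zero, mul_one]
      linarith) (fun s hs y hy hneg => by
      have hsI : s ∈ interior (Ici (0:ℝ)) := by rw [interior_Ici]; exact hs.1
      have hs0 : s ∈ Ici (0:ℝ) := hs.1.le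
      have hyc := subset_closure hy
      rw [laplacian_add_const_sub ((hp.smooth s hs).contDiffAt (hΩ.isOpen.mem_nhds hy))
        (hθ.smooth.contDiffAt (hΩ.isOpen.mem_nhds hy)), h.pde k s hsI y hy]
      have h2 := hmK y hyc
      have h3 := h.nonneg k s hs0 y hyc
      have h6 := hθ0 y hyc
      have h5 := hθ.pde y hy
      obtain ⟨E, hE⟩ : ∃ E, E = δ * Real.exp (K2 * s) := ⟨_, rfl⟩
      have hE0 : 0 ≤ E := by rw [hE]; positivity
      have hother : ∀ j ∈ Finset.univ.erase k, u j s y ≤ E := by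
        intro j hj
        have h7 := h.small hΩ hd hmK j (h0' j (Finset.ne_of_mem_erase hj)) s hs0 y hyc
        have h8 : Real.exp (K * s) ≤ Real.exp (K2 * s) :=
          Real.exp_le_exp.2 (mul_le_mul_of_nonneg_right hKK2 hs0)
        rw [hE]
        exact h7.trans (mul_le_mul_of_nonneg_left h8 hδ)
      have hsum : ∑ i, u i s y ≤ u k s y + N * E := by
        rw [← Finset.add_sum_erase _ _ (Finset.mem_univ k)]
        have h9 : ∑ j ∈ Finset.univ.erase k, u j s y ≤ ∑ _j ∈ Finset.univ.erase k, E :=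
          Finset.sum_le_sum hother
        have h10 : ∑ _j ∈ (Finset.univ.erase k : Finset (Fin N)), E ≤ ∑ _j : Fin N, E :=
          Finset.sum_le_sum_of_subset_of_nonneg (Finset.erase_subset _ _) fun _ _ _ => hE0
        simp only [Finset.sum_const, Finset.card_univ, Fintype.card_fin, nsmul_eq_mul] at h10 h9
        linarith
      have hvM := hbM k s hs0 y hyc
      have h4 : u k s y ≤ ∑ i, u i s y :=
        Finset.single_le_sum (f := fun i => u i s y) (fun i _ => h.nonneg i s hs0 y hyc)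
          (Finset.mem_univ k)
      obtain ⟨v, hv⟩ : ∃ v, v = u k s y := ⟨_, rfl⟩
      obtain ⟨R, hR⟩ : ∃ R, R = ∑ i, u i s y := ⟨_, rfl⟩
      rw [← hv] at h3 hneg hsum hvM h4 ⊢
      rw [← hR] at hsum h4 ⊢
      rw [← hE] at hneg ⊢
      have e1 : δ * (K2 * Real.exp (K2 * s)) = K2 * E := by rw [hE]; ring
      rw [e1]
      have e2 : v * (R - v) ≤ M * (N * E) :=
        mul_le_mul hvM (by linarith) (by linarith) hM
      have e3 : 0 ≤ (θ y - v) * (K - (m y - θ y - v)) :=
        mul_nonneg (by linarith) (by linarith)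
      have e4 : K2 * E = K * E + M * (N * E) := by rw [hK2]; ring
      nlinarith) t (right_mem_Icc.2 ht) x hx
  linarith

/-- a Lipschitz constant which is uniform over all trajectories with a given bound -/
theorem uniform_lip (hΩ : SmoothDomain Ω ρ) {m : EuclideanSpace ℝ (Fin n) → ℝ}
    (hm : ContinuousOn m (closure Ω)) {M : ℝ} (hM : 0 ≤ M) {d : Fin N → ℝ} (hd : ∀ j, 0 < d j) :
    ∃ L ≥ 0, ∀ J (u u' : Fin N → ℝ → EuclideanSpace ℝ (Fin n) → ℝ), RTraj J Ω ρ m d M u u' →
      ∀ j, ∀ t, t - 1 ∈ J → ∀ x ∈ closure Ω, ∀ y ∈ closure Ω,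
      |u j t x - u j t y| ≤ L * ‖x - y‖ := by
  obtain ⟨C, hC⟩ := hΩ.isCompact_closure.exists_bound_of_continuousOn (f := m) hm
  obtain ⟨K0, hK0⟩ : ∃ K0, K0 = max C 0 + N * M := ⟨_, rfl⟩
  have hK00 : 0 ≤ K0 := by rw [hK0]; positivity
  have h1 : ∀ j, ∃ L, 0 ≤ L ∧ ∀ J (u u' : Fin N → ℝ → EuclideanSpace ℝ (Fin n) → ℝ),
      RTraj J Ω ρ m d M u u' → ∀ t, t - 1 ∈ J → ∀ x ∈ closure Ω, ∀ y ∈ closure Ω,
      |u j t x - u j t y| ≤ L * ‖x - y‖ := by
    intro j
    obtain ⟨L, hL, hlip⟩ := lipschitz hΩ (hd j) hM (B := M * K0) (by positivity)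
    refine ⟨L, hL, ?_⟩
    intro J u u' h t ht x hx y hy
    have hK : ∀ t ∈ J, ∀ x ∈ closure Ω, |m x - ∑ i, u i t x| ≤ K0 := by
      intro t ht x hx
      have h1 := h.sum_bound ht hx
      calc |m x - ∑ i, u i t x| ≤ |m x| + |∑ i, u i t x| := abs_sub _ _
        _ ≤ max C 0 + N * M := by
            rw [abs_of_nonneg h1.1]
            exact add_le_add ((hC x hx).trans (le_max_left _ _)) h1.2
        _ = K0 := hK0.symm
    have h2 := hlip (t - 1) (u j) (u' j) (h.par j ht) (fun s hs x hx => by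
        have hsJ := h.up _ ht s hs.1
        rw [abs_of_nonneg (h.nonneg j s hsJ x hx)]
        exact h.bound j s hsJ x hx) (fun s hs x hx => by
        have hsJ := h.up _ ht s hs.1.le
        have hxc := subset_closure hx
        rw [h.pde j s hsJ x hx, add_sub_cancel_left, abs_mul,
          abs_of_nonneg (h.nonneg j s hsJ x hxc)]
        exact mul_le_mul (h.bound j s hsJ x hxc) (hK s hsJ x hxc) (abs_nonneg _) hM) x hx y hy
    rwa [sub_add_cancel] at h2
  choose L hL hlip using h1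
  refine ⟨∑ j, L j, Finset.sum_nonneg fun j _ => hL j, ?_⟩
  intro J u u' h j t ht x hx y hy
  refine (hlip j J u u' h t ht x hx y hy).trans ?_
  apply mul_le_mul_of_nonneg_right _ (norm_nonneg _)
  exact Finset.single_le_sum (f := L) (fun i _ => hL i) (Finset.mem_univ j)

end Run7.h350
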