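import Pool.Agent.Run7.h350.Stab

open Set Filter Topology MeasureTheory
open scoped ContDiff Laplacian

namespace Run7.h350

variable {n N : ℕ} {Ω : Set (EuclideanSpace ℝ (Fin n))} {ρ : EuclideanSpace ℝ (Fin n) → ℝ}

/-- The semitrivial state with only species `k`, at its steady state `θ`, is globally
asymptotically stable: it is Lyapunov stable in the uniform norm, and every trajectory whose
`k`-th component is not identically zero initially converges to it uniformly. -/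
def IsGAS {n N : ℕ} (Ω : Set (EuclideanSpace ℝ (Fin n)))
    (ρ m : EuclideanSpace ℝ (Fin n) → ℝ) (d : Fin N → ℝ) (k : Fin N)
    (θ : EuclideanSpace ℝ (Fin n) → ℝ) : Prop :=
  (∀ ε > 0, ∃ δ > 0, ∀ u, IsTrajectory (Ici 0) Ω ρ m d u →
    (∀ x ∈ closure Ω, |u k 0 x - θ x| ≤ δ ∧ ∀ j, j ≠ k → u j 0 x ≤ δ) →
    ∀ t ∈ Ici (0 : ℝ), ∀ x ∈ closure Ω, |u k t x - θ x| < ε ∧ ∀ j, j ≠ k → u j t x < ε) ∧
  (∀ u, IsTrajectory (Ici 0) Ω ρ m d u → (∃ x ∈ closure Ω, u k 0 x ≠ 0) →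
    ConvergesTo atTop Ω u (fun j x => if j = k then θ x else 0))

theorem attract_of_HFun (hΩ : SmoothDomain Ω ρ) {m : EuclideanSpace ℝ (Fin n) → ℝ}
    (hm : ContinuousOn m (closure Ω)) (hmne : ¬ ∃ c, ∀ x ∈ Ω, m x = c)
    {d : Fin N → ℝ} (hd : ∀ i, 0 < d i) {k : Fin N} {θ : EuclideanSpace ℝ (Fin n) → ℝ}
    (hθ : IsSteady Ω ρ m (d k) θ) (F : HFun k (Finset.univ.erase k) d) 
    {u : Fin N → ℝ → EuclideanSpace ℝ (Fin n) → ℝ} (hu : IsTrajectory (Ici 0) Ω ρ m d u)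
    (h0 : ∃ x ∈ closure Ω, u k 0 x ≠ 0) :
    ConvergesTo atTop Ω u (fun j x => if j = k then θ x else 0) := by
  have hθ0 : ∀ x ∈ closure Ω, 0 < θ x := hθ.pos_closure hΩ hm (hd k)
  obtain ⟨Dθ, hDθ⟩ : ∃ D, C1N Ω ρ θ D := by
    obtain ⟨G, h1, h2, h3⟩ := hθ.neumann
    exact ⟨G, h1, h2, h3, hθ.smooth⟩
  have hne := steady_nonconst hΩ hDθ hθ0 hθ.pde hmne
  -- bound
  obtain ⟨C, hC⟩ := hΩ.isCompact_closure.exists_bound_of_continuousOn (f := m) hm
  have h0c : ∀ j, ContinuousOn (u j 0) (closure Ω) := fun j =>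
    (hu.cont j).comp (continuousOn_const.prodMk continuousOn_id) fun x hx =>
      ⟨self_mem_Ici, hx⟩
  choose B hB using fun j => hΩ.isCompact_closure.exists_bound_of_continuousOn (h0c j)
  obtain ⟨M, hMdef⟩ : ∃ M, M = |C| + ∑ j, |B j| := ⟨_, rfl⟩
  have hM : 0 ≤ M := by rw [hMdef]; positivity
  have hmM : ∀ x ∈ closure Ω, m x ≤ M := by
    intro x hx
    have h1 := (le_abs_self _).trans ((hC x hx).trans (le_abs_self C))
    have h2 : 0 ≤ ∑ j, |B j| := Finset.sum_nonneg fun _ _ => abs_nonneg _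
    rw [hMdef]; linarith
  have hbM := hu.bounded hΩ hd hM hmM (fun j x hx => by
    have h1 := (le_abs_self _).trans ((hB j x hx).trans (le_abs_self (B j)))
    have h2 : |B j| ≤ ∑ j, |B j| :=
      Finset.single_le_sum (f := fun j => |B j|) (fun _ _ => abs_nonneg _) (Finset.mem_univ j)
    have h3 := abs_nonneg C
    rw [hMdef]; linarith)
  have hR := hu.rtraj hbM (by
    intro t ht s hts
    rw [interior_Ici] at ht ⊢
    exact lt_of_lt_of_le ht hts)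
  rw [interior_Ici] at hR
  -- positivity at some positive time
  obtain ⟨x0, hx0, hux0⟩ := h0
  have hux0' : 0 < u k 0 x0 := lt_of_le_of_ne (hu.nonneg k 0 self_mem_Ici x0 hx0) (Ne.symm hux0)
  obtain ⟨t1, ht1, ht1p⟩ : ∃ t1 ∈ Ioi (0:ℝ), 0 < u k t1 x0 := by
    have hc : ContinuousWithinAt (fun t => u k t x0) (Ici 0) 0 := by
      have h1 : ContinuousOn (fun t : ℝ => u k t x0) (Ici 0) :=
        (hu.cont k).comp (continuousOn_id.prodMk continuousOn_const) fun t ht => ⟨ht, hx0⟩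
      exact h1 0 self_mem_Ici
    have h2 : ∀ᶠ t in 𝓝[>] (0:ℝ), 0 < u k t x0 :=
      (hc.mono Ioi_subset_Ici_self).eventually (lt_mem_nhds hux0')
    obtain ⟨t1, h3, h4⟩ := (h2.and self_mem_nhdsWithin).exists
    exact ⟨t1, h4, h3⟩
  have hins : insert k (Finset.univ.erase k) = (Finset.univ : Finset (Fin N)) :=
    Finset.insert_erase (Finset.mem_univ k)
  have hfw : ∀ ε > 0, ∃ T ∈ Ioi (0:ℝ), ∀ t, T ≤ t → ∀ x ∈ closure Ω,
      |u k t x - θ x| < ε ∧ ∀ j ∈ Finset.univ.erase k, u j t x < ε := by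
    intro ε hε
    exact forward hΩ (Finset.notMem_erase _ _) F hm hDθ hθ0 hθ.pde hne hM hd hR
      (fun j hj => absurd (by rw [hins]; exact Finset.mem_univ j) hj) ht1 hx0 ht1p hε
  intro j
  rw [Metric.tendstoUniformlyOn_iff]
  intro ε hε
  obtain ⟨T, hT0, hT⟩ := hfw ε hε
  filter_upwards [eventually_ge_atTop T] with t ht x hx
  by_cases hj : j = k
  · subst hj
    simp only [if_true]
    rw [dist_comm, Real.dist_eq]
    exact (hT t ht x hx).1
  · simp only [if_neg hj]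
    rw [dist_comm, Real.dist_eq, sub_zero,
      abs_of_nonneg (hu.nonneg j t (le_of_lt (lt_of_lt_of_le hT0 ht)) x hx)]
    exact (hT t ht x hx).2 j (Finset.mem_erase.2 ⟨hj, Finset.mem_univ j⟩)

theorem stable_of_HFun (hΩ : SmoothDomain Ω ρ) {m : EuclideanSpace ℝ (Fin n) → ℝ}
    (hm : ContinuousOn m (closure Ω)) (hmne : ¬ ∃ c, ∀ x ∈ Ω, m x = c)
    {d : Fin N → ℝ} (hd : ∀ i, 0 < d i) {k : Fin N} {θ : EuclideanSpace ℝ (Fin n) → ℝ}
    (hθ : IsSteady Ω ρ m (d k) θ) (F : HFun k (Finset.univ.erase k) d) {ε : ℝ} (hε : 0 < ε) :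
    ∃ δ > 0, ∀ u, IsTrajectory (Ici 0) Ω ρ m d u →
    (∀ x ∈ closure Ω, |u k 0 x - θ x| ≤ δ ∧ ∀ j, j ≠ k → u j 0 x ≤ δ) →
    ∀ t ∈ Ici (0 : ℝ), ∀ x ∈ closure Ω, |u k t x - θ x| < ε ∧ ∀ j, j ≠ k → u j t x < ε := by
  have hθ0 : ∀ x ∈ closure Ω, 0 < θ x := hθ.pos_closure hΩ hm (hd k)
  obtain ⟨Dθ, hDθ⟩ : ∃ D, C1N Ω ρ θ D := by
    obtain ⟨G, h1, h2, h3⟩ := hθ.neumann
    exact ⟨G, h1, h2, h3, hθ.smooth⟩
  have hne := steady_nonconst hΩ hDθ hθ0 hθ.pde hmne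
  have hθc := hDθ.continuousOn
  obtain ⟨θ0, hθ00, hθlow⟩ := exists_lower hΩ hθc hθ0
  obtain ⟨Θ, hΘ⟩ := hΩ.isCompact_closure.exists_bound_of_continuousOn hθc
  obtain ⟨C, hC⟩ := hΩ.isCompact_closure.exists_bound_of_continuousOn (f := m) hm
  obtain ⟨M, hMdef⟩ : ∃ M, M = |C| + |Θ| + 1 := ⟨_, rfl⟩
  have hM : 0 ≤ M := by rw [hMdef]; positivity
  have hmC : ∀ x ∈ closure Ω, m x ≤ |C| := fun x hx =>
    (le_abs_self _).trans ((hC x hx).trans (le_abs_self C))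
  have hmM : ∀ x ∈ closure Ω, m x ≤ M := fun x hx => by
    have := hmC x hx
    have := abs_nonneg Θ
    rw [hMdef]; linarith
  obtain ⟨L, hL0, hL⟩ := uniform_lip hΩ hm hM hd
  obtain ⟨c, hc, hclose⟩ := close_of_Vf_small hΩ F hθc hθ0 (M := M) (L := L) hε
  obtain ⟨δ1, hδ1, hsmall⟩ := Vf_small hΩ F hθc hθ0 (M := M) (L := L) (half_pos hc)
  obtain ⟨K2, hK2⟩ : ∃ K2, K2 = |C| + N * M := ⟨_, rfl⟩
  have hK20 : |C| ≤ K2 := by
    rw [hK2]
    have : 0 ≤ (N:ℝ) * M := by positivity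
    linarith
  obtain ⟨P, hP⟩ : ∃ P, P = Real.exp (K2 * 2) := ⟨_, rfl⟩
  have hP0 : 0 < P := by rw [hP]; positivity
  have hP1 : 1 ≤ P := by
    rw [hP]
    exact Real.one_le_exp (by have := abs_nonneg C; linarith)
  obtain ⟨r, hr⟩ : ∃ r, r = min (min (δ1 / 2) (ε / 2)) (min (θ0 / 2) 1) := ⟨_, rfl⟩
  have hr0 : 0 < r := by rw [hr]; positivity
  have hrδ : r < δ1 := lt_of_le_of_lt (by rw [hr]; exact (min_le_left _ _).trans (min_le_left _ _))
    (by linarith : δ1 / 2 < δ1)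
  have hrε : r < ε := lt_of_le_of_lt (by rw [hr]; exact (min_le_left _ _).trans (min_le_right _ _))
    (by linarith : ε / 2 < ε)
  have hrθ : r < θ0 := lt_of_le_of_lt (by rw [hr]; exact (min_le_right _ _).trans (min_le_left _ _))
    (by linarith : θ0 / 2 < θ0)
  have hr1 : r ≤ 1 := by rw [hr]; exact (min_le_right _ _).trans (min_le_right _ _)
  refine ⟨r / P, by positivity, ?_⟩
  intro u hu hinit
  have hδr : r / P ≤ r := div_le_self hr0.le hP1
  have hins : insert k (Finset.univ.erase k) = (Finset.univ : Finset (Fin N)) :=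
    Finset.insert_erase (Finset.mem_univ k)
  have hbM := hu.bounded hΩ hd hM hmM (fun j x hx => by
    have h1 := (le_abs_self _).trans ((hΘ x hx).trans (le_abs_self Θ))
    have h2 := hinit x hx
    have h3 := abs_nonneg C
    have h4 := abs_nonneg Θ
    by_cases hj : j = k
    · subst hj
      have := (abs_le.1 h2.1).2
      rw [hMdef]; linarith
    · have := h2.2 j hj
      rw [hMdef]; linarith)
  -- closeness on [0,2]
  have hshort : ∀ t ∈ Icc (0:ℝ) 2, ∀ x ∈ closure Ω, |u k t x - θ x| ≤ r ∧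
      ∀ j, j ≠ k → u j t x ≤ r := by
    intro t ht x hx
    have hexp : ∀ K', K' ≤ K2 → 0 ≤ K' → r / P * Real.exp (K' * t) ≤ r := by
      intro K' hK' hK'0
      have h1 : Real.exp (K' * t) ≤ P := by
        rw [hP]
        exact Real.exp_le_exp.2 (mul_le_mul hK' ht.2 ht.1 (hK'0.trans hK'))
      calc r / P * Real.exp (K' * t) ≤ r / P * P :=
            mul_le_mul_of_nonneg_left h1 (by positivity)
        _ = r := div_mul_cancel₀ _ hP0.ne'
    have hC0 := abs_nonneg C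
    have hup := hu.upper hΩ hd hθ hθ0 hC0 hmC (δ := r / P) (by positivity) (fun y hy => by
      have := (abs_le.1 (hinit y hy).1).2
      linarith) t ht.1 x hx
    have hlow := hu.lower hΩ hd hθ hθ0 hM hbM hC0 hmC (δ := r / P) (by positivity) (fun y hy => by
      have := (abs_le.1 (hinit y hy).1).1
      linarith) (fun j hj y hy => (hinit y hy).2 j hj) t ht.1 x hx
    rw [← hK2] at hlow
    refine ⟨abs_le.2 ⟨?_, ?_⟩, ?_⟩
    · have := hexp K2 le_rfl (hC0.trans hK20)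
      linarith
    · have := hexp |C| hK20 hC0
      linarith
    · intro j hj
      exact (hu.small hΩ hd hmC j (fun y hy => (hinit y hy).2 j hj) t ht.1 x hx).trans
        (hexp |C| hK20 hC0)
  have hR := hu.rtraj hbM (by
    intro t ht s hts
    rw [interior_Ici] at ht ⊢
    exact lt_of_lt_of_le ht hts)
  rw [interior_Ici] at hR
  obtain ⟨x0, hx0⟩ := hΩ.connected.nonempty
  have hx0c := subset_closure hx0
  have hpos1 : 0 < u k 1 x0 := by
    have h1 := (abs_le.1 (hshort 1 ⟨by norm_num, by norm_num⟩ x0 hx0c).1).1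
    have h2 := hθlow x0 hx0c
    linarith
  have hpos : ∀ t ∈ Ioi (1:ℝ), ∀ x ∈ closure Ω, 0 < u k t x := fun t ht =>
    hR.pos_of_pos hΩ hm hM k (hd k) (by rw [mem_Ioi]; norm_num) hx0c hpos1 ht
  have hJ' : ∀ t ∈ Ioi (1:ℝ), t - 1 ∈ Ioi (0:ℝ) := fun t ht => by
    rw [mem_Ioi] at ht ⊢; linarith
  obtain ⟨δ, hδ, r0, hr0', hkey⟩ := key_dissip hΩ (Finset.notMem_erase _ _) F hm hDθ hθ0 hθ.pde
    hne hM hd hR isOpen_Ioi hJ' hpos (half_pos hc)
  have hrem : ∀ t ∈ Ioi (1:ℝ), ∀ x ∈ closure Ω,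
      ∑ j ∈ (insert k (Finset.univ.erase k))ᶜ, u j t x ≤ r0 := by
    intro t ht x hx
    rw [hins, Finset.compl_univ, Finset.sum_empty]
    exact hr0'.le
  obtain ⟨V, hV⟩ : ∃ V : ℝ → ℝ, V = fun t => Vf F Ω θ (fun j => u j t) := ⟨_, rfl⟩
  have hadm : ∀ t ∈ Ioi (1:ℝ), ∃ Dw, Adm Ω ρ k M L (fun j => u j t) Dw := by
    intro t ht
    have htJ : t ∈ Ioi (0:ℝ) := by rw [mem_Ioi] at ht ⊢; linarith
    choose Dw hDw using fun j => hR.exists_C1N htJ j
    exact ⟨Dw, hDw, fun j x hx => ⟨hR.nonneg j t htJ x hx, hR.bound j t htJ x hx⟩,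
      fun j => hL _ _ _ hR j t (hJ' t ht), hpos t ht⟩
  have h2mem : (2:ℝ) ∈ Ioi (1:ℝ) := by rw [mem_Ioi]; norm_num
  have hV2 : V 2 < c / 2 := by
    obtain ⟨Dw, hDw⟩ := hadm 2 h2mem
    rw [hV]
    apply hsmall _ _ hDw
    intro x hx
    have h1 := hshort 2 ⟨by norm_num, le_rfl⟩ x hx
    exact ⟨lt_of_le_of_lt h1.1 hrδ, fun j hj =>
      lt_of_le_of_lt (h1.2 j (Finset.ne_of_mem_erase hj)) hrδ⟩
  intro t ht x hx
  rcases le_total t 2 with h2 | h2
  · have h1 := hshort t ⟨ht, h2⟩ x hx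
    exact ⟨lt_of_le_of_lt h1.1 hrε, fun j hj => lt_of_le_of_lt (h1.2 j hj) hrε⟩
  · have hIcc : ∀ s ∈ Icc 2 t, s ∈ Ioi (1:ℝ) := fun s hs => by
      rw [mem_Ioi]; linarith [hs.1]
    have hdec := decay (V := V) (V' := deriv V) h2 hδ (c := c / 2)
      (fun s hs => by
        rw [hV]
        exact (hkey s (hIcc s hs) (hrem s (hIcc s hs))).1.hasDerivAt)
      (fun s hs => by
        rw [hV]
        exact (hkey s (hIcc s hs) (hrem s (hIcc s hs))).2)
    have hVt : V t < c := by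
      rcases hdec with h1 | h1
      · linarith
      · have : 0 ≤ δ * (t - 2) := mul_nonneg hδ.le (by linarith)
        linarith
    obtain ⟨Dw, hDw⟩ := hadm t (by rw [mem_Ioi]; linarith)
    rw [hV] at hVt
    have h3 := hclose _ _ hDw hVt x hx
    exact ⟨h3.1, fun j hj => h3.2 j (Finset.mem_erase.2 ⟨hj, Finset.mem_univ j⟩)⟩

theorem gas_of_HFun (hΩ : SmoothDomain Ω ρ) {m : EuclideanSpace ℝ (Fin n) → ℝ}
    (hm : ContinuousOn m (closure Ω)) (hmne : ¬ ∃ c, ∀ x ∈ Ω, m x = c)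
    {d : Fin N → ℝ} (hd : ∀ i, 0 < d i) {k : Fin N} {θ : EuclideanSpace ℝ (Fin n) → ℝ}
    (hθ : IsSteady Ω ρ m (d k) θ) (F : HFun k (Finset.univ.erase k) d) :
    IsGAS Ω ρ m d k θ :=
  ⟨fun _ hε => stable_of_HFun hΩ hm hmne hd hθ F hε,
    fun _ hu h0 => attract_of_HFun hΩ hm hmne hd hθ F hu h0⟩

end Run7.h350
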